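import Mathlib

set_option autoImplicit false
set_option linter.unusedSectionVars false

open scoped InnerProductSpace

namespace Pool.Agent.Helper655.VN

universe u

/-- The Hilbert space `ℓ²(G)`. -/
abbrev EllTwo (G : Type u) : Type u := lp (fun _ : G => ℂ) 2

/-- The operator `f ↦ f ∘ e` on `ℓ²(G)` given by a bijection `e` of `G`. -/
noncomputable def permOp {G : Type u} (e : G ≃ G) : EllTwo G →L[ℂ] EllTwo G :=
  LinearIsometry.toContinuousLinearMap
    { toFun := fun f => ⟨fun h => f (e h), by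
        have h1 := (lp.memℓp f).summable (by norm_num)
        refine memℓp_gen ?_
        exact (e.summable_iff (f := fun h => ‖f h‖ ^ (2 : ENNReal).toReal)).2 h1⟩
      map_add' := fun f g => by ext h; rfl
      map_smul' := fun c f => by ext h; rfl
      norm_map' := fun f => by
        have h1 : (0 : ℝ) < (2 : ENNReal).toReal := by norm_num
        rw [lp.norm_eq_tsum_rpow h1, lp.norm_eq_tsum_rpow h1]
        congr 1
        exact e.tsum_eq (fun h => ‖f h‖ ^ (2 : ENNReal).toReal) }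

section perm

variable {G : Type u}

theorem permOp_apply (e : G ≃ G) (f : EllTwo G) (h : G) : (permOp e f) h = f (e h) := rfl

theorem permOp_mul (e e' : G ≃ G) : permOp e * permOp e' = permOp (e.trans e') := by
  ext f h
  rfl

theorem permOp_refl : permOp (Equiv.refl G) = 1 := by
  ext f h
  rfl

theorem star_permOp (e : G ≃ G) : star (permOp e) = permOp e.symm := by
  rw [ContinuousLinearMap.star_eq_adjoint]
  symm
  rw [ContinuousLinearMap.eq_adjoint_iff]
  intro x y
  have h1 := lp.hasSum_inner (𝕜 := ℂ) (permOp e.symm x) y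
  have h2 := lp.hasSum_inner (𝕜 := ℂ) x (permOp e y)
  have h3 := (e.symm.hasSum_iff (f := fun i => ⟪x i, (permOp e y) i⟫_ℂ)
    (a := ⟪x, permOp e y⟫_ℂ)).2 h2
  refine h1.unique ?_
  refine h3.congr_fun ?_
  intro i
  show ⟪(permOp e.symm x) i, y i⟫_ℂ = ⟪x (e.symm i), (permOp e y) (e.symm i)⟫_ℂ
  rw [permOp_apply, permOp_apply, e.apply_symm_apply]

/-- the point mass at `g` -/
noncomputable def dl (g : G) : EllTwo G := by
  classical exact lp.single 2 g (1 : ℂ)

theorem dl_apply_self (g : G) : (dl g) g = 1 := by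
  classical
  unfold dl
  exact lp.single_apply_self (E := fun _ : G => ℂ) 2 g (1 : ℂ)

theorem dl_apply_ne (g h : G) (hh : h ≠ g) : (dl g) h = 0 := by
  classical
  unfold dl
  exact lp.single_apply_ne (E := fun _ : G => ℂ) 2 g (1 : ℂ) hh

theorem inner_dl (g : G) (f : EllTwo G) : ⟪dl g, f⟫_ℂ = f g := by
  classical
  unfold dl
  rw [lp.inner_single_left]
  simp

theorem permOp_dl (e : G ≃ G) (g : G) : permOp e (dl g) = dl (e.symm g) := by
  ext h
  rw [permOp_apply]
  by_cases hh : h = e.symm g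
  · rw [hh, dl_apply_self, e.apply_symm_apply, dl_apply_self]
  · rw [dl_apply_ne _ _ hh, dl_apply_ne]
    intro hc
    exact hh (by rw [← hc, e.symm_apply_apply])

/-- a continuous linear map into anything is determined by its values on the point masses -/
theorem ext_dl {E : Type*} [NormedAddCommGroup E] [NormedSpace ℂ E] {x y : EllTwo G →L[ℂ] E}
    (h : ∀ g, x (dl g) = y (dl g)) : x = y := by
  classical
  ext f
  have h1 := lp.hasSum_single (p := 2) (by norm_num) f
  have h2 := h1.mapL x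
  have h3 := h1.mapL y
  refine h2.unique ?_
  refine h3.congr_fun ?_
  intro g
  have h4 : lp.single 2 g (f g) = (f g) • dl g := by
    unfold dl
    rw [← lp.single_smul]
    simp
  rw [h4, map_smul, map_smul, h g]

end perm

variable (G : Type u) [Group G]

/-- right translation: `(rho g f) h = f (h * g)` -/
noncomputable def rho (g : G) : EllTwo G →L[ℂ] EllTwo G := permOp (Equiv.mulRight g)

/-- left translation: `(lam g f) h = f (g⁻¹ * h)` -/
noncomputable def lam (g : G) : EllTwo G →L[ℂ] EllTwo G := permOp (Equiv.mulLeft g⁻¹)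

/-- The group von Neumann algebra of `G`: all bounded operators on `ℓ²(G)` which commute with
all right translations. -/
noncomputable def NG : StarSubalgebra ℂ (EllTwo G →L[ℂ] EllTwo G) :=
  StarSubalgebra.centralizer ℂ (Set.range (rho G))

variable {G}

theorem star_rho (g : G) : star (rho G g) = rho G g⁻¹ := by
  unfold rho
  rw [star_permOp]
  rfl

theorem mem_NG (t : EllTwo G →L[ℂ] EllTwo G) : t ∈ NG G ↔ ∀ g : G, rho G g * t = t * rho G g := by
  unfold NG
  rw [StarSubalgebra.mem_centralizer_iff (R := ℂ)]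
  constructor
  · intro h g
    exact (h _ ⟨g, rfl⟩).1
  · rintro h _ ⟨g, rfl⟩
    refine ⟨h g, ?_⟩
    rw [star_rho]
    exact h g⁻¹

theorem rho_dl (g h : G) : rho G g (dl h) = dl (h * g⁻¹) := by
  unfold rho
  rw [permOp_dl]
  rfl

theorem lam_dl (g h : G) : lam G g (dl h) = dl (g * h) := by
  unfold lam
  rw [permOp_dl]
  congr 1
  show (g⁻¹)⁻¹ * h = g * h
  rw [inv_inv]

theorem lam_mem (g : G) : lam G g ∈ NG G := by
  rw [mem_NG]
  intro h
  unfold lam rho
  rw [permOp_mul, permOp_mul]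
  congr 1
  ext k
  show g⁻¹ * (k * h) = g⁻¹ * k * h
  group

theorem lam_mul (g h : G) : lam G (g * h) = lam G g * lam G h := by
  apply ext_dl
  intro k
  show _ = lam G g (lam G h (dl k))
  rw [lam_dl, lam_dl, lam_dl, mul_assoc]

theorem lam_one : lam G 1 = 1 := by
  apply ext_dl
  intro k
  rw [lam_dl, one_mul]
  rfl

theorem star_lam (g : G) : star (lam G g) = lam G g⁻¹ := by
  unfold lam
  rw [star_permOp]
  congr 1
  ext k
  rfl

/-- the canonical homomorphism from `G` to the units of `N(G)` (as a monoid homomorphism into the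
ring) -/
noncomputable def canL : G →* NG G where
  toFun g := ⟨lam G g, lam_mem g⟩
  map_one' := Subtype.ext lam_one
  map_mul' g h := Subtype.ext (lam_mul g h)

/-- the canonical trace `x ↦ ⟨δ_1, x δ_1⟩` on `N(G)` -/
noncomputable def tr : NG G →ₗ[ℂ] ℂ where
  toFun x := ⟪dl 1, (x : EllTwo G →L[ℂ] EllTwo G) (dl 1)⟫_ℂ
  map_add' x y := by
    show ⟪dl 1, (x : EllTwo G →L[ℂ] EllTwo G) (dl 1) + (y : EllTwo G →L[ℂ] EllTwo G) (dl 1)⟫_ℂ = _
    rw [inner_add_right]
  map_smul' c x := by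
    show ⟪dl 1, c • (x : EllTwo G →L[ℂ] EllTwo G) (dl 1)⟫_ℂ = _
    rw [inner_smul_right]
    rfl

theorem tr_apply (x : NG G) : tr x = ⟪dl 1, (x : EllTwo G →L[ℂ] EllTwo G) (dl 1)⟫_ℂ := rfl

theorem tr_one : tr (1 : NG G) = 1 := by
  rw [tr_apply]
  show ⟪dl 1, (1 : EllTwo G →L[ℂ] EllTwo G) (dl 1)⟫_ℂ = 1
  rw [inner_dl]
  exact dl_apply_self 1

/-- the matrix coefficients of an element of `N(G)` only depend on `k h⁻¹` -/
theorem coef_apply (x : NG G) (h k : G) :
    ((x : EllTwo G →L[ℂ] EllTwo G) (dl h)) k = ((x : EllTwo G →L[ℂ] EllTwo G) (dl 1)) (k * h⁻¹) := by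
  have h1 : dl h = rho G h⁻¹ (dl 1) := by
    rw [rho_dl]
    congr 1
    group
  have h2 := congrArg (fun z : EllTwo G →L[ℂ] EllTwo G => z (dl 1)) ((mem_NG _).1 x.2 h⁻¹)
  have h3 : rho G h⁻¹ ((x : EllTwo G →L[ℂ] EllTwo G) (dl 1)) =
    (x : EllTwo G →L[ℂ] EllTwo G) (rho G h⁻¹ (dl 1)) := h2
  rw [← h1] at h3
  rw [← h3]
  rfl

theorem ext_NG {x y : NG G}
    (h : (x : EllTwo G →L[ℂ] EllTwo G) (dl 1) = (y : EllTwo G →L[ℂ] EllTwo G) (dl 1)) : x = y := by
  apply Subtype.ext
  apply ext_dl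
  intro g
  ext k
  rw [coef_apply x, coef_apply y, h]

theorem star_coef (x : NG G) (h : G) :
    ((star (x : EllTwo G →L[ℂ] EllTwo G)) (dl 1)) h =
      star (((x : EllTwo G →L[ℂ] EllTwo G) (dl 1)) h⁻¹) := by
  rw [← inner_dl, ContinuousLinearMap.star_eq_adjoint, ContinuousLinearMap.adjoint_inner_right,
    ← inner_conj_symm, inner_dl, coef_apply x h 1, one_mul]
  rfl

theorem tr_mul_hasSum (x y : NG G) :
    HasSum (fun h => ((x : EllTwo G →L[ℂ] EllTwo G) (dl 1)) h⁻¹ *
      ((y : EllTwo G →L[ℂ] EllTwo G) (dl 1)) h) (tr (x * y)) := by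
  have h1 : tr (x * y) = ⟪(star (x : EllTwo G →L[ℂ] EllTwo G)) (dl 1),
      (y : EllTwo G →L[ℂ] EllTwo G) (dl 1)⟫_ℂ := by
    rw [ContinuousLinearMap.star_eq_adjoint, ContinuousLinearMap.adjoint_inner_left]
    rfl
  rw [h1]
  refine (lp.hasSum_inner (𝕜 := ℂ) ((star (x : EllTwo G →L[ℂ] EllTwo G)) (dl 1))
    ((y : EllTwo G →L[ℂ] EllTwo G) (dl 1))).congr_fun ?_
  intro h
  rw [star_coef, RCLike.inner_apply, Complex.star_def, Complex.conj_conj, mul_comm]

theorem tr_mul_comm (x y : NG G) : tr (x * y) = tr (y * x) := by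
  have h1 := tr_mul_hasSum x y
  have h2 := tr_mul_hasSum y x
  have h3 := ((Equiv.inv G).hasSum_iff (f := fun h => ((y : EllTwo G →L[ℂ] EllTwo G) (dl 1)) h⁻¹ *
      ((x : EllTwo G →L[ℂ] EllTwo G) (dl 1)) h) (a := tr (y * x))).2 h2
  refine h1.unique (h3.congr_fun ?_)
  intro h
  show _ = ((y : EllTwo G →L[ℂ] EllTwo G) (dl 1)) (h⁻¹)⁻¹ *
    ((x : EllTwo G →L[ℂ] EllTwo G) (dl 1)) h⁻¹
  rw [inv_inv, mul_comm]

theorem tr_star_mul_self (x : NG G) :
    tr (star x * x) = ((‖(x : EllTwo G →L[ℂ] EllTwo G) (dl 1)‖ ^ 2 : ℝ) : ℂ) := by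
  have h1 : tr (star x * x) = ⟪(x : EllTwo G →L[ℂ] EllTwo G) (dl 1),
      (x : EllTwo G →L[ℂ] EllTwo G) (dl 1)⟫_ℂ := by
    rw [← ContinuousLinearMap.adjoint_inner_right, ← ContinuousLinearMap.star_eq_adjoint]
    rfl
  rw [h1, inner_self_eq_norm_sq_to_K]
  norm_cast

theorem tr_faithful (x : NG G) (h : tr (star x * x) = 0) : x = 0 := by
  rw [tr_star_mul_self] at h
  have h1 : ‖(x : EllTwo G →L[ℂ] EllTwo G) (dl 1)‖ ^ 2 = 0 := by exact_mod_cast h
  have h2 : (x : EllTwo G →L[ℂ] EllTwo G) (dl 1) = 0 := by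
    rw [pow_eq_zero_iff (by norm_num)] at h1
    exact norm_eq_zero.1 h1
  apply ext_NG
  rw [h2]
  rfl

end Pool.Agent.Helper655.VN
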