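import Mathlib

set_option autoImplicit false
open Finset

namespace Pool.Agent.Helper655.BD

/-- mean of a function over a period -/
noncomputable def mean (φ : ℝ → ℝ) : ℝ := (2 * Real.pi)⁻¹ * ∫ t in (0:ℝ)..(2 * Real.pi), φ t

/-- the point e^{it} -/
noncomputable def ee (t : ℝ) : ℂ := Complex.exp (t * Complex.I)

/-- Poisson smoothing of a function on the circle -/
noncomputable def PS (ρ : ℝ) (φ : ℝ → ℝ) (t : ℝ) : ℝ :=
  mean (fun s => (1 - ρ ^ 2) / ‖ee s - ρ * ee t‖ ^ 2 * φ s)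

/-- real trigonometric polynomials of degree at most d -/
def RTP (d : ℕ) (φ : ℝ → ℝ) : Prop :=
  ∃ Q : Polynomial ℂ, Q.natDegree ≤ d ∧ ∀ t, φ t = (Q.eval (ee t)).re

/-- real trigonometric polynomials with frequencies in [a,b] and coefficient sum at most w -/
def RT (a b : ℕ) (w : ℝ) (φ : ℝ → ℝ) : Prop :=
  ∃ c : ℕ → ℂ, (∀ n, c n ≠ 0 → a ≤ n ∧ n ≤ b) ∧ ∑ n ∈ range (b + 1), ‖c n‖ ≤ w ∧
    ∀ t, φ t = (∑ n ∈ range (b + 1), c n * ee t ^ n).re

def nn (k : ℕ) : ℕ := 2 ^ (k + 12)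

/-- frequencies -/
def NN (k : ℕ) : ℕ := 2 ^ (nn k + 30 * (k + 1) ^ 2)

/-- block boundaries, half of the frequencies -/
def MM (k : ℕ) : ℕ := 2 ^ (nn k + 30 * (k + 1) ^ 2 - 1)

noncomputable def bb : ℕ → ℝ
  | 0 => 0
  | k + 1 => nn (k + 1) * Real.log 2 / 2

/-- radii -/
noncomputable def rr : ℕ → ℝ
  | 0 => 0
  | k + 1 => 1 - (1 / 2) ^ (nn (k + 1) + 100 * (k + 2) ^ 2)

/-- thresholds for the distance from the diagonal -/
noncomputable def dd : ℕ → ℝ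
  | 0 => 3
  | k + 1 => 2 ^ 5 / 2 ^ (nn (k + 1) + 5 * (k + 2) ^ 2)

/-- Bernstein polynomial of a step -/
noncomputable def Bern (m : ℕ) (x : ℝ) : ℝ :=
  ∑ i ∈ Icc m (2 * m), ((2 * m).choose i : ℝ) * x ^ i * (1 - x) ^ (2 * m - i)

/-- stopping profile -/
noncomputable def sig (k : ℕ) (t : ℝ) : ℝ := Bern (3 * nn k) ((Real.cos (t / 2) ^ 2) ^ 2048)

/-- stopping functions -/
noncomputable def ss (k : ℕ) (t : ℝ) : ℝ := sig k (NN k * t)

/-- partial sums of the coefficient sequence -/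
noncomputable def gk (gc : ℕ → ℂ) (k : ℕ) (z : ℂ) : ℂ := ∑ n ∈ range (MM (k + 1)), gc n * z ^ n

/-- the data delivered by the construction -/
structure Data (gc : ℕ → ℂ) : Prop where
  low : ∀ n < MM 1, gc n = 0
  gap : ∀ k n : ℕ, 1 ≤ k → 2 ^ (nn k + 30 * (k + 1) ^ 2 + k + 24) < n → n < MM (k + 1) → gc n = 0
  blk : ∀ k : ℕ, 1 ≤ k → ∑ n ∈ Ico (MM k) (MM (k + 1)), ‖gc n‖ ≤ 2 ^ (25 * (k + 1) ^ 2 + 2)
  re : ∀ (k : ℕ) (z : ℂ), ‖z‖ ≤ 1 → |(gk gc k z).re| ≤ bb k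
  dich : ∀ (k : ℕ) (t : ℝ), 1 ≤ k →
    ss k t ≤ Real.exp 2 * (1 / 2) ^ (nn k) * Real.exp (2 * (gk gc k (ee t)).re)

/-- formal exponential of a sequence (the entry `A 0` is ignored) -/
noncomputable def expSeq {R : Type} [CommRing R] [Algebra ℂ R] (A : ℕ → R) : ℕ → R
  | 0 => 1
  | n + 1 => ((n : ℂ) + 1)⁻¹ • ∑ m : Fin (n + 1), ((m : ℂ) + 1) • (A (m + 1) * expSeq A (n - m))
decreasing_by omega

/-- Cauchy product -/
def cv {R : Type} [CommRing R] (A B : ℕ → R) (n : ℕ) : R := ∑ m ∈ range (n + 1), A m * B (n - m)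

/-- the two variable exponent: homogeneous parts, dehomogenised -/
noncomputable def AA (l : ℂ) (gc : ℕ → ℂ) (n : ℕ) : Polynomial ℂ :=
  Polynomial.C (l * gc n / (n + 1)) * ∑ j ∈ range (n + 1), Polynomial.X ^ j

/-- two variable array attached to a sequence of polynomials -/
noncomputable def arr (H : ℕ → Polynomial ℂ) (i j : ℕ) : ℂ := (H (i + j)).coeff j

/-- two variable Cauchy product -/
noncomputable def cv2 (a b : ℕ → ℕ → ℂ) (m n : ℕ) : ℂ :=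
  ∑ i ∈ range (m + 1), ∑ j ∈ range (n + 1), a i j * b (m - i) (n - j)

/-- the bound for the squares of the exponentials on slices -/
noncomputable def Th (w : ℂ) : ENNReal :=
  ∑' k : ℕ, if ‖1 - w‖ < dd k then ENNReal.ofReal (Real.exp (2 * (bb k + 1))) else 0

/-- the function on the diagonal -/
noncomputable def ff (gc : ℕ → ℂ) (x : ℂ) : ℂ := Complex.exp (∑' n, gc n * x ^ n)


/-- p-integral over the torus of radius r -/
noncomputable def tor (p r : ℝ) (F : ℂ × ℂ → ℂ) : ENNReal :=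
  ∫⁻ x in Set.Icc (0:ℝ) (2 * Real.pi) ×ˢ Set.Icc (0:ℝ) (2 * Real.pi),
    (‖F ((r:ℂ) * Complex.exp ((x.1:ℂ) * Complex.I), (r:ℂ) * Complex.exp ((x.2:ℂ) * Complex.I))‖ₑ) ^ p

/-- p-th power of the Hardy norm on the bidisc -/
noncomputable def HN (p : ℝ) (F : ℂ × ℂ → ℂ) : ENNReal := ⨆ r ∈ Set.Ioo (0:ℝ) 1, tor p r F

/-- the two variable exponent as a function -/
noncomputable def GG (gc : ℕ → ℂ) (z : ℂ × ℂ) : ℂ :=
  ∑' n : ℕ, gc n / (n + 1) * ∑ j ∈ range (n + 1), z.1 ^ (n - j) * z.2 ^ j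

/-- partial sums of the two variable exponent -/
noncomputable def GGk (gc : ℕ → ℂ) (k : ℕ) (z : ℂ × ℂ) : ℂ :=
  ∑ n ∈ range (MM (k + 1)), gc n / (n + 1) * ∑ j ∈ range (n + 1), z.1 ^ (n - j) * z.2 ^ j

/-- the function on the bidisc -/
noncomputable def FF (gc : ℕ → ℂ) (z : ℂ × ℂ) : ℂ := Complex.exp (GG gc z)

/-- low part of the exponent -/
noncomputable def AL (l : ℂ) (gc : ℕ → ℂ) (k n : ℕ) : Polynomial ℂ :=
  if n < MM (k + 1) then AA l gc n else 0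

/-- high part of the exponent -/
noncomputable def AT (l : ℂ) (gc : ℕ → ℂ) (k n : ℕ) : Polynomial ℂ :=
  if n < MM (k + 1) then 0 else AA l gc n


end Pool.Agent.Helper655.BD
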