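import Mathlib
import Pool.Agent.Helper655.BDDefs

set_option autoImplicit false
open Finset

namespace Pool.Agent.Helper655.BD.J11


theorem rtp_mono {d d' : ℕ} {φ : ℝ → ℝ} (h : RTP d φ) (hd : d ≤ d') : RTP d' φ := by
  obtain ⟨Q, h1, h2⟩ := h
  exact ⟨Q, h1.trans hd, h2⟩

theorem rtp_add {d : ℕ} {φ ψ : ℝ → ℝ} (h : RTP d φ) (h' : RTP d ψ) :
    RTP d (fun t => φ t + ψ t) := by
  obtain ⟨Q, h1, h2⟩ := h
  obtain ⟨Q', h1', h2'⟩ := h'
  refine ⟨Q + Q', (Polynomial.natDegree_add_le _ _).trans (max_le h1 h1'), fun t => ?_⟩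
  simp only [Polynomial.eval_add, Complex.add_re, h2, h2']

theorem rtp_zero {d : ℕ} : RTP d (fun _ => 0) := ⟨0, by simp, fun t => by simp⟩

theorem rtp_sum {d : ℕ} {ι : Type} (s : Finset ι) (f : ι → ℝ → ℝ) (h : ∀ i ∈ s, RTP d (f i)) :
    RTP d (fun t => ∑ i ∈ s, f i t) := by
  classical
  induction s using Finset.induction_on with
  | empty => simpa using rtp_zero
  | insert a s ha ih =>
    simp only [Finset.sum_insert ha]
    exact rtp_add (h a (Finset.mem_insert_self _ _))
      (ih (fun i hi => h i (Finset.mem_insert_of_mem hi)))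

theorem ee_norm (t : ℝ) : ‖ee t‖ = 1 := by
  unfold ee
  exact Complex.norm_exp_ofReal_mul_I t

theorem ee_conj_mul (t : ℝ) : (starRingEnd ℂ) (ee t) * ee t = 1 := by
  rw [mul_comm, Complex.mul_conj, Complex.normSq_eq_norm_sq, ee_norm]; simp

theorem re_mul_re (A B : ℂ) : A.re * B.re = (1/2) * (A * B).re + (1/2) * ((starRingEnd ℂ) A * B).re := by
  simp only [Complex.mul_re, Complex.conj_re, Complex.conj_im]; ring

theorem rtp_monomial (m n : ℕ) (a b : ℂ) :
    RTP (m + n) (fun t => (a * ee t ^ m).re * (b * ee t ^ n).re) := by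
  rcases le_total m n with hmn | hmn
  · obtain ⟨r, rfl⟩ := Nat.exists_eq_add_of_le hmn
    refine ⟨Polynomial.C (1 / 2 * (a * b)) * Polynomial.X ^ (m + (m + r)) +
      Polynomial.C (1 / 2 * ((starRingEnd ℂ) a * b)) * Polynomial.X ^ r, ?_, fun t => ?_⟩
    · refine (Polynomial.natDegree_add_le _ _).trans (max_le ?_ ?_)
      · exact (Polynomial.natDegree_C_mul_X_pow_le _ _)
      · exact (Polynomial.natDegree_C_mul_X_pow_le _ _).trans (by omega)
    · simp only [Polynomial.eval_add, Polynomial.eval_mul, Polynomial.eval_C, Polynomial.eval_pow,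
        Polynomial.eval_X]
      rw [re_mul_re]
      have h1 : (starRingEnd ℂ) (a * ee t ^ m) * (b * ee t ^ (m + r)) =
          (starRingEnd ℂ) a * b * ee t ^ r := by
        rw [map_mul, map_pow, pow_add]
        have : (starRingEnd ℂ) (ee t) ^ m * ee t ^ m = 1 := by
          rw [← mul_pow, ee_conj_mul, one_pow]
        calc _ = ((starRingEnd ℂ) (ee t) ^ m * ee t ^ m) * ((starRingEnd ℂ) a * b * ee t ^ r) := by ring
          _ = _ := by rw [this, one_mul]
      rw [h1, Complex.add_re]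
      have h2 : (1 / 2 * (a * b) * ee t ^ (m + (m + r))) = ((1/2 : ℝ) : ℂ) * (a * ee t ^ m * (b * ee t ^ (m + r))) := by
        push_cast; ring
      have h3 : (1 / 2 * ((starRingEnd ℂ) a * b) * ee t ^ r) = ((1/2 : ℝ) : ℂ) * ((starRingEnd ℂ) a * b * ee t ^ r) := by
        push_cast; ring
      rw [h2, h3, Complex.re_ofReal_mul, Complex.re_ofReal_mul]
  · obtain ⟨r, rfl⟩ := Nat.exists_eq_add_of_le hmn
    refine ⟨Polynomial.C (1 / 2 * (a * b)) * Polynomial.X ^ ((n + r) + n) +
      Polynomial.C (1 / 2 * ((starRingEnd ℂ) b * a)) * Polynomial.X ^ r, ?_, fun t => ?_⟩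
    · refine (Polynomial.natDegree_add_le _ _).trans (max_le ?_ ?_)
      · exact (Polynomial.natDegree_C_mul_X_pow_le _ _)
      · exact (Polynomial.natDegree_C_mul_X_pow_le _ _).trans (by omega)
    · simp only [Polynomial.eval_add, Polynomial.eval_mul, Polynomial.eval_C, Polynomial.eval_pow,
        Polynomial.eval_X]
      rw [mul_comm, re_mul_re]
      have h1 : (starRingEnd ℂ) (b * ee t ^ n) * (a * ee t ^ (n + r)) =
          (starRingEnd ℂ) b * a * ee t ^ r := by
        rw [map_mul, map_pow, pow_add]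
        have : (starRingEnd ℂ) (ee t) ^ n * ee t ^ n = 1 := by
          rw [← mul_pow, ee_conj_mul, one_pow]
        calc _ = ((starRingEnd ℂ) (ee t) ^ n * ee t ^ n) * ((starRingEnd ℂ) b * a * ee t ^ r) := by ring
          _ = _ := by rw [this, one_mul]
      rw [h1, Complex.add_re]
      have h2 : (1 / 2 * (a * b) * ee t ^ ((n + r) + n)) = ((1/2 : ℝ) : ℂ) * (b * ee t ^ n * (a * ee t ^ (n + r))) := by
        push_cast; ring
      have h3 : (1 / 2 * ((starRingEnd ℂ) b * a) * ee t ^ r) = ((1/2 : ℝ) : ℂ) * ((starRingEnd ℂ) b * a * ee t ^ r) := by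
        push_cast; ring
      rw [h2, h3, Complex.re_ofReal_mul, Complex.re_ofReal_mul]

/-- TARGET 1 -/
theorem rtp_mul {d d' : ℕ} {φ ψ : ℝ → ℝ} (h : RTP d φ) (h' : RTP d' ψ) :
    RTP (d + d') (fun t => φ t * ψ t) := by
  obtain ⟨Q, h1, h2⟩ := h
  obtain ⟨Q', h1', h2'⟩ := h'
  have key : (fun t => φ t * ψ t) = fun t => ∑ p ∈ (range (Q.natDegree + 1)) ×ˢ (range (Q'.natDegree + 1)),
      (Q.coeff p.1 * ee t ^ p.1).re * (Q'.coeff p.2 * ee t ^ p.2).re := by
    funext t
    rw [h2, h2', Polynomial.eval_eq_sum_range, Polynomial.eval_eq_sum_range, Complex.re_sum,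
      Complex.re_sum, Finset.sum_mul_sum, Finset.sum_product]
  rw [key]
  refine rtp_sum _ _ (fun p hp => ?_)
  rw [Finset.mem_product, Finset.mem_range, Finset.mem_range] at hp
  exact rtp_mono (rtp_monomial p.1 p.2 _ _) (by omega)

theorem ee_add (s t : ℝ) : ee (s + t) = ee s * ee t := by
  unfold ee
  rw [← Complex.exp_add]; congr 1; push_cast; ring

theorem ee_cont : Continuous ee := by
  unfold ee; fun_prop

theorem ee_periodic : Function.Periodic ee (2 * Real.pi) := by
  intro t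
  rw [ee_add]
  have : ee (2 * Real.pi) = 1 := by
    unfold ee
    have := Complex.exp_two_pi_mul_I
    rw [← this]; congr 1; push_cast; ring
  rw [this, mul_one]

theorem int_zero {n N : ℕ} (hn : 1 ≤ n) (hN : n < N) {σ : ℝ → ℝ}
    (hp : Function.Periodic σ (2 * Real.pi)) :
    ∫ t in (0:ℝ)..(2 * Real.pi), ee t ^ n * (σ (N * t) : ℂ) = 0 := by
  set G : ℝ → ℂ := fun t => ee t ^ n * (σ (N * t) : ℂ) with hG
  have hN0 : (N : ℝ) ≠ 0 := by
    have : 0 < N := by omega
    positivity
  have hNp : ∀ t, σ (N * (t + 2 * Real.pi / N)) = σ (N * t) := by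
    intro t
    have : (N : ℝ) * (t + 2 * Real.pi / N) = N * t + 2 * Real.pi := by field_simp
    rw [this, hp]
  have hNp2 : ∀ t, σ (N * (t + 2 * Real.pi)) = σ (N * t) := by
    intro t
    have h2 := (hp.nat_mul N) (N * t)
    rw [← h2]; congr 1; ring
  have hGp : Function.Periodic G (2 * Real.pi) := by
    intro t
    simp only [hG]
    rw [ee_periodic, hNp2]
  set w : ℂ := ee (2 * Real.pi / N) ^ n with hw
  have hsh : ∀ t, G (t + 2 * Real.pi / N) = w * G t := by
    intro t
    simp only [hG]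
    rw [hNp, ee_add, mul_pow]; ring
  have h1 : ∫ t in (0:ℝ)..(2 * Real.pi), G (t + 2 * Real.pi / N) = ∫ t in (0:ℝ)..(2 * Real.pi), G t := by
    rw [intervalIntegral.integral_comp_add_right (fun t => G t)]
    have := hGp.intervalIntegral_add_eq (2 * Real.pi / N) 0
    rw [zero_add] at this
    rw [zero_add, add_comm (2 * Real.pi) (2 * Real.pi / N)]
    exact this
  have h2 : ∫ t in (0:ℝ)..(2 * Real.pi), G (t + 2 * Real.pi / N) = w * ∫ t in (0:ℝ)..(2 * Real.pi), G t := by
    simp only [hsh]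
    rw [intervalIntegral.integral_const_mul]
  have hw1 : w ≠ 1 := by
    intro h
    rw [hw] at h
    unfold ee at h
    rw [← Complex.exp_nat_mul, Complex.exp_eq_one_iff] at h
    obtain ⟨k, hk⟩ := h
    have hk2 : (n : ℂ) = k * N := by
      have hpi : (2 * Real.pi * Complex.I : ℂ) ≠ 0 := by
        simp [Real.pi_ne_zero]
      have hNc : (N : ℂ) ≠ 0 := by exact_mod_cast hN0
      have e1 : (n : ℂ) * (((2 * Real.pi / N : ℝ) : ℂ) * Complex.I) = (n : ℂ) / N * (2 * Real.pi * Complex.I) := by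
        push_cast; ring
      rw [e1] at hk
      have := mul_right_cancel₀ hpi hk
      field_simp at this
      rw [this]; ring
    have hk3 : (n : ℤ) = k * N := by exact_mod_cast hk2
    have hnpos : (0 : ℤ) < n := by exact_mod_cast hn
    have hNpos : (0 : ℤ) < N := by omega
    have hkpos : 0 < k := by
      by_contra hneg
      push Not at hneg
      nlinarith
    have : (N : ℤ) ≤ n := by nlinarith
    omega
  have h3 : (w - 1) * ∫ t in (0:ℝ)..(2 * Real.pi), G t = 0 := by
    rw [sub_mul, one_mul, ← h2, h1, sub_self]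
  rcases mul_eq_zero.mp h3 with h4 | h4
  · exact absurd (sub_eq_zero.mp h4) hw1
  · exact h4

theorem int_scale {N : ℕ} (hN : 1 ≤ N) {σ : ℝ → ℝ} (hσ : Continuous σ)
    (hp : Function.Periodic σ (2 * Real.pi)) :
    ∫ t in (0:ℝ)..(2 * Real.pi), σ (N * t) = ∫ t in (0:ℝ)..(2 * Real.pi), σ t := by
  have hN0 : (N : ℝ) ≠ 0 := by positivity
  rw [intervalIntegral.integral_comp_mul_left (fun t => σ t) hN0]
  have h1 := hp.intervalIntegral_add_zsmul_eq (N : ℤ) 0 (fun a b => hσ.intervalIntegrable _ _)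
  simp only [zero_add, natCast_zsmul, nsmul_eq_mul] at h1
  rw [mul_zero, h1, smul_eq_mul]
  field_simp

/-- TARGET 2: high frequencies do not see low frequencies -/
theorem mean_mul_high {d N : ℕ} {φ : ℝ → ℝ} (h : RTP d φ) (hd : d < N) {σ : ℝ → ℝ}
    (hσ : Continuous σ) (hp : Function.Periodic σ (2 * Real.pi)) :
    mean (fun t => φ t * σ (N * t)) = mean φ * mean σ := by
  obtain ⟨Q, h1, h2⟩ := h
  have gen : ∀ τ : ℝ → ℝ, Continuous τ → Function.Periodic τ (2 * Real.pi) →
      ∫ t in (0:ℝ)..(2 * Real.pi), φ t * τ (N * t) = (Q.coeff 0).re * ∫ t in (0:ℝ)..(2 * Real.pi), τ t := by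
    intro τ hτ hτp
    have e1 : ∀ t, φ t * τ (N * t) = (∑ n ∈ range (Q.natDegree + 1), Q.coeff n * (ee t ^ n * (τ (N * t) : ℂ))).re := by
      intro t
      rw [h2, Polynomial.eval_eq_sum_range]
      have : (∑ n ∈ range (Q.natDegree + 1), Q.coeff n * (ee t ^ n * (τ (N * t) : ℂ))) =
          (∑ n ∈ range (Q.natDegree + 1), Q.coeff n * ee t ^ n) * ((τ (N * t) : ℝ) : ℂ) := by
        rw [Finset.sum_mul]; exact Finset.sum_congr rfl (fun n _ => by ring)
      rw [this, Complex.re_mul_ofReal]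
    have hcont : ∀ n, Continuous (fun t : ℝ => ee t ^ n * (τ (N * t) : ℂ)) := by
      intro n
      have := ee_cont
      fun_prop
    have hcont2 : Continuous (fun t : ℝ => ∑ n ∈ range (Q.natDegree + 1), Q.coeff n * (ee t ^ n * (τ (N * t) : ℂ))) :=
      continuous_finsetSum _ (fun n _ => continuous_const.mul (hcont n))
    have e2 : ∫ t in (0:ℝ)..(2 * Real.pi), φ t * τ (N * t) =
        (∫ t in (0:ℝ)..(2 * Real.pi), ∑ n ∈ range (Q.natDegree + 1), Q.coeff n * (ee t ^ n * (τ (N * t) : ℂ))).re := by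
      simp only [e1]
      have := (Complex.reCLM).intervalIntegral_comp_comm (hcont2.intervalIntegrable (μ := MeasureTheory.volume) 0 (2 * Real.pi))
      simpa using this
    have e4 : (∫ t in (0:ℝ)..(2 * Real.pi), ∑ n ∈ range (Q.natDegree + 1), Q.coeff n * (ee t ^ n * (τ (N * t) : ℂ))) =
        ∑ n ∈ range (Q.natDegree + 1), ∫ t in (0:ℝ)..(2 * Real.pi), Q.coeff n * (ee t ^ n * (τ (N * t) : ℂ)) :=
      intervalIntegral.integral_finsetSum (fun n _ =>
        ((continuous_const.mul (hcont n) : Continuous (fun t : ℝ => Q.coeff n * (ee t ^ n * (τ (N * t) : ℂ)))).intervalIntegrable _ _))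
    rw [e2, e4]
    have e3 : ∀ n ∈ range (Q.natDegree + 1), n ≠ 0 →
        ∫ t in (0:ℝ)..(2 * Real.pi), Q.coeff n * (ee t ^ n * (τ (N * t) : ℂ)) = 0 := by
      intro n hn hn0
      rw [intervalIntegral.integral_const_mul, int_zero (by omega) (by rw [Finset.mem_range] at hn; omega) hτp, mul_zero]
    rw [Finset.sum_eq_single 0 e3 (by simp)]
    rw [intervalIntegral.integral_const_mul]
    simp only [pow_zero, one_mul]
    rw [intervalIntegral.integral_ofReal, int_scale (by omega) hτ hτp, Complex.re_mul_ofReal]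
  have g1 := gen σ hσ hp
  have g2 := gen (fun _ => 1) continuous_const (fun _ => rfl)
  simp only [mul_one] at g2
  unfold mean
  rw [g1, g2]
  rw [intervalIntegral.integral_const, smul_eq_mul, mul_one, sub_zero]
  have hpi : Real.pi ≠ 0 := Real.pi_ne_zero
  field_simp

end Pool.Agent.Helper655.BD.J11
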