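import Mathlib
import Pool.Agent.Helper655.BDDefs

set_option autoImplicit false
open Finset

namespace Pool.Agent.Helper655.BD.J12



theorem ee_norm (t : ℝ) : ‖ee t‖ = 1 := by
  unfold ee; exact Complex.norm_exp_ofReal_mul_I t

theorem ee_cont : Continuous ee := by
  unfold ee; fun_prop

theorem den_pos {ρ : ℝ} (h0 : 0 ≤ ρ) (h1 : ρ < 1) (s t : ℝ) : 0 < ‖ee s - ρ * ee t‖ := by
  have h : ‖ee s‖ - ‖(ρ:ℂ) * ee t‖ ≤ ‖ee s - ρ * ee t‖ := norm_sub_norm_le _ _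
  rw [norm_mul, ee_norm, ee_norm, Complex.norm_real, Real.norm_of_nonneg h0] at h
  linarith

theorem ker_cont {ρ : ℝ} (h0 : 0 ≤ ρ) (h1 : ρ < 1) :
    Continuous (fun p : ℝ × ℝ => (1 - ρ ^ 2) / ‖ee p.1 - ρ * ee p.2‖ ^ 2) := by
  have hc := ee_cont
  refine Continuous.div continuous_const ?_ ?_
  · fun_prop
  · intro p; exact (pow_pos (den_pos h0 h1 p.1 p.2) 2).ne'

theorem ker_cont1 {ρ : ℝ} (h0 : 0 ≤ ρ) (h1 : ρ < 1) (t : ℝ) :
    Continuous (fun s : ℝ => (1 - ρ ^ 2) / ‖ee s - ρ * ee t‖ ^ 2) :=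
  (ker_cont h0 h1).comp (by fun_prop : Continuous fun s : ℝ => (s, t))

theorem ker_nonneg {ρ : ℝ} (h0 : 0 ≤ ρ) (h1 : ρ < 1) (s t : ℝ) :
    0 ≤ (1 - ρ ^ 2) / ‖ee s - ρ * ee t‖ ^ 2 := by
  have : 0 ≤ 1 - ρ ^ 2 := by nlinarith
  positivity

theorem poly_poisson (Q : Polynomial ℂ) {ρ : ℝ} (h0 : 0 ≤ ρ) (h1 : ρ < 1) (t : ℝ) :
    mean (fun s => (1 - ρ ^ 2) / ‖ee s - ρ * ee t‖ ^ 2 * (Q.eval (ee s)).re) =
      (Q.eval (ρ * ee t)).re := by
  have hd : DiffContOnCl ℂ (fun z => Q.eval z) (Metric.ball (0:ℂ) 1) :=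
    (Polynomial.differentiable Q).diffContOnCl
  have hw : (ρ:ℂ) * ee t ∈ Metric.ball (0:ℂ) 1 := by
    rw [mem_ball_zero_iff, norm_mul, ee_norm, Complex.norm_real, Real.norm_of_nonneg h0]; linarith
  have h := hd.circleAverage_poissonKernel_smul' hw
  rw [Real.circleAverage_def] at h
  have hn : ‖(ρ:ℂ) * ee t‖ = ρ := by
    rw [norm_mul, ee_norm, Complex.norm_real, Real.norm_of_nonneg h0, mul_one]
  have hcm : ∀ s : ℝ, circleMap 0 1 s = ee s := by intro s; simp [circleMap, ee]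
  have h2 : (fun s : ℝ => ((‖circleMap 0 1 s - 0‖ ^ 2 - ‖(ρ:ℂ) * ee t - 0‖ ^ 2) /
      ‖circleMap 0 1 s - 0 - ((ρ:ℂ) * ee t - 0)‖ ^ 2) • Q.eval (circleMap 0 1 s)) =
      fun s : ℝ => (((1 - ρ ^ 2) / ‖ee s - ρ * ee t‖ ^ 2 : ℝ) : ℂ) * Q.eval (ee s) := by
    funext s
    simp only [sub_zero, hcm, hn, ee_norm, one_pow]
    rw [Complex.real_smul]
  have h3 := congrArg Complex.re h
  rw [← h3]
  unfold mean
  rw [Complex.smul_re]
  simp only [smul_eq_mul]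
  congr 1
  have hci : IntervalIntegrable (fun s : ℝ => (((1 - ρ ^ 2) / ‖ee s - ρ * ee t‖ ^ 2 : ℝ) : ℂ) * Q.eval (ee s))
      MeasureTheory.volume 0 (2 * Real.pi) := by
    apply Continuous.intervalIntegrable
    have := ker_cont1 h0 h1 t
    have hc := ee_cont
    have hq : Continuous fun s => Q.eval (ee s) := (Polynomial.continuous Q).comp hc
    exact (Complex.continuous_ofReal.comp this).mul hq
  have h4 : ∫ s in (0:ℝ)..(2 * Real.pi), ((‖circleMap 0 1 s - 0‖ ^ 2 - ‖(ρ:ℂ) * ee t - 0‖ ^ 2) /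
      ‖circleMap 0 1 s - 0 - ((ρ:ℂ) * ee t - 0)‖ ^ 2) • Q.eval (circleMap 0 1 s) =
      ∫ s in (0:ℝ)..(2 * Real.pi), (((1 - ρ ^ 2) / ‖ee s - ρ * ee t‖ ^ 2 : ℝ) : ℂ) * Q.eval (ee s) := by
    rw [h2]
  rw [h4]
  have h5 := Complex.reCLM.intervalIntegral_comp_comm hci
  simp only [Complex.reCLM_apply, Complex.re_ofReal_mul] at h5
  exact h5

/-- TARGET 1 -/
theorem ps_rtp {d : ℕ} {φ : ℝ → ℝ} (h : RTP d φ) {ρ : ℝ} (h0 : 0 ≤ ρ) (h1 : ρ < 1) :
    RTP d (PS ρ φ) := by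
  obtain ⟨Q, hQ, hφ⟩ := h
  refine ⟨Q.comp (Polynomial.C (ρ:ℂ) * Polynomial.X), ?_, ?_⟩
  · calc (Q.comp (Polynomial.C (ρ:ℂ) * Polynomial.X)).natDegree
        ≤ Q.natDegree * (Polynomial.C (ρ:ℂ) * Polynomial.X).natDegree := Polynomial.natDegree_comp_le
      _ ≤ Q.natDegree * 1 := by
          apply Nat.mul_le_mul_left
          calc (Polynomial.C (ρ:ℂ) * Polynomial.X).natDegree ≤ (Polynomial.X : Polynomial ℂ).natDegree :=
                Polynomial.natDegree_C_mul_le _ _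
            _ ≤ 1 := Polynomial.natDegree_X_le
      _ ≤ d := by omega
  · intro t
    have h := poly_poisson Q h0 h1 t
    simp only [Polynomial.eval_comp, Polynomial.eval_mul, Polynomial.eval_C, Polynomial.eval_X]
    rw [← h]
    unfold PS
    congr 1
    funext s
    rw [hφ s]

theorem ker_mean {ρ : ℝ} (h0 : 0 ≤ ρ) (h1 : ρ < 1) (t : ℝ) :
    mean (fun s => (1 - ρ ^ 2) / ‖ee s - ρ * ee t‖ ^ 2) = 1 := by
  have h := poly_poisson 1 h0 h1 t
  simpa using h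

theorem ker_mean_const {ρ : ℝ} (h0 : 0 ≤ ρ) (h1 : ρ < 1) (t : ℝ) (a : ℝ) :
    mean (fun s => (1 - ρ ^ 2) / ‖ee s - ρ * ee t‖ ^ 2 * a) = a := by
  have h := ker_mean h0 h1 t
  unfold mean at h ⊢
  rw [intervalIntegral.integral_mul_const, ← mul_assoc, h, one_mul]

theorem mean_mono {f g : ℝ → ℝ} (hf : Continuous f) (hg : Continuous g) (h : ∀ t, f t ≤ g t) :
    mean f ≤ mean g := by
  unfold mean
  have hpi : 0 < Real.pi := Real.pi_pos
  apply mul_le_mul_of_nonneg_left _ (by positivity)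
  exact intervalIntegral.integral_mono (by positivity) (hf.intervalIntegrable _ _)
    (hg.intervalIntegrable _ _) h

/-- TARGET 2 -/
theorem ps_bounds {φ : ℝ → ℝ} (hφ : Continuous φ) {ρ : ℝ} (h0 : 0 ≤ ρ) (h1 : ρ < 1) {a b : ℝ}
    (h : ∀ t, a ≤ φ t ∧ φ t ≤ b) (t : ℝ) : a ≤ PS ρ φ t ∧ PS ρ φ t ≤ b := by
  have hk := ker_cont1 h0 h1 t
  constructor
  · rw [← ker_mean_const h0 h1 t a]
    unfold PS
    exact mean_mono (hk.mul continuous_const) (hk.mul hφ)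
      (fun s => mul_le_mul_of_nonneg_left (h s).1 (ker_nonneg h0 h1 s t))
  · rw [← ker_mean_const h0 h1 t b]
    unfold PS
    exact mean_mono (hk.mul hφ) (hk.mul continuous_const)
      (fun s => mul_le_mul_of_nonneg_left (h s).2 (ker_nonneg h0 h1 s t))

/-- TARGET 3 -/
theorem ps_cont {φ : ℝ → ℝ} (hφ : Continuous φ) {ρ : ℝ} (h0 : 0 ≤ ρ) (h1 : ρ < 1) :
    Continuous (PS ρ φ) := by
  unfold PS mean
  apply continuous_const.mul
  apply intervalIntegral.continuous_parametric_intervalIntegral_of_continuous'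
  have hk := ker_cont h0 h1
  have h2 : Continuous (fun p : ℝ × ℝ => (1 - ρ ^ 2) / ‖ee p.2 - ρ * ee p.1‖ ^ 2) :=
    hk.comp (by fun_prop : Continuous fun p : ℝ × ℝ => (p.2, p.1))
  exact h2.mul (hφ.comp continuous_snd)

theorem ker_symm {ρ : ℝ} (s t : ℝ) :
    ‖ee s - ρ * ee t‖ = ‖ee t - ρ * ee s‖ := by
  have h1 : ‖ee s - ρ * ee t‖ ^ 2 = ‖ee t - ρ * ee s‖ ^ 2 := by
    rw [← Complex.normSq_eq_norm_sq, ← Complex.normSq_eq_norm_sq]
    have hs : ee s = Real.cos s + Real.sin s * Complex.I := by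
      unfold ee; rw [Complex.exp_mul_I]; push_cast; rfl
    have ht : ee t = Real.cos t + Real.sin t * Complex.I := by
      unfold ee; rw [Complex.exp_mul_I]; push_cast; rfl
    rw [hs, ht, Complex.normSq_apply, Complex.normSq_apply]
    simp only [Complex.sub_re, Complex.add_re, Complex.ofReal_re, Complex.mul_re, Complex.I_re,
      Complex.ofReal_im, Complex.I_im, Complex.sub_im, Complex.add_im, Complex.mul_im]
    have e1 := Real.sin_sq_add_cos_sq s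
    have e2 := Real.sin_sq_add_cos_sq t
    linear_combination (1 - ρ ^ 2) * e1 - (1 - ρ ^ 2) * e2
  have h2 := norm_nonneg (ee s - ρ * ee t)
  have h3 := norm_nonneg (ee t - ρ * ee s)
  exact (sq_eq_sq₀ h2 h3).1 h1

/-- TARGET 4 -/
theorem ps_symm {φ ψ : ℝ → ℝ} (hφ : Continuous φ) (hψ : Continuous ψ) {ρ : ℝ} (h0 : 0 ≤ ρ)
    (h1 : ρ < 1) : mean (fun t => PS ρ φ t * ψ t) = mean (fun t => φ t * PS ρ ψ t) := by
  unfold PS mean
  congr 1
  have hk := ker_cont h0 h1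
  have h2 : Continuous (fun p : ℝ × ℝ => (1 - ρ ^ 2) / ‖ee p.2 - ρ * ee p.1‖ ^ 2) :=
    hk.comp (by fun_prop : Continuous fun p : ℝ × ℝ => (p.2, p.1))
  have hc : Continuous (Function.uncurry fun t s : ℝ =>
      (2 * Real.pi)⁻¹ * ((1 - ρ ^ 2) / ‖ee s - ρ * ee t‖ ^ 2 * φ s) * ψ t) :=
    (continuous_const.mul (h2.mul (hφ.comp continuous_snd))).mul (hψ.comp continuous_fst)
  have h3 : ∀ t : ℝ, (2 * Real.pi)⁻¹ * (∫ s in (0:ℝ)..(2 * Real.pi),
      (1 - ρ ^ 2) / ‖ee s - ρ * ee t‖ ^ 2 * φ s) * ψ t = ∫ s in (0:ℝ)..(2 * Real.pi),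
      (2 * Real.pi)⁻¹ * ((1 - ρ ^ 2) / ‖ee s - ρ * ee t‖ ^ 2 * φ s) * ψ t := by
    intro t
    rw [intervalIntegral.integral_mul_const, intervalIntegral.integral_const_mul]
  simp only [h3]
  rw [MeasureTheory.intervalIntegral_intervalIntegral_swap]
  · apply intervalIntegral.integral_congr
    intro s _
    simp only
    rw [← intervalIntegral.integral_const_mul, ← intervalIntegral.integral_const_mul]
    apply intervalIntegral.integral_congr
    intro t _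
    simp only
    rw [ker_symm s t]
    ring
  · have hK : IsCompact (Set.Icc (0:ℝ) (2 * Real.pi) ×ˢ Set.Icc (0:ℝ) (2 * Real.pi)) :=
      isCompact_Icc.prod isCompact_Icc
    have hi := (hc.continuousOn (s := Set.Icc (0:ℝ) (2 * Real.pi) ×ˢ
      Set.Icc (0:ℝ) (2 * Real.pi))).integrableOn_compact (μ := MeasureTheory.volume) hK
    apply hi.mono_set
    have hpi : 0 ≤ 2 * Real.pi := by have := Real.pi_pos; positivity
    rw [Set.uIoc_of_le hpi]
    exact Set.prod_mono Set.Ioc_subset_Icc_self Set.Ioc_subset_Icc_self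

/-- TARGET 5 -/
theorem ps_mean {φ : ℝ → ℝ} (hφ : Continuous φ) {ρ : ℝ} (h0 : 0 ≤ ρ) (h1 : ρ < 1) :
    mean (PS ρ φ) = mean φ := by
  have h := ps_symm hφ (continuous_const : Continuous fun _ : ℝ => (1:ℝ)) h0 h1
  have h2 : PS ρ (fun _ => (1:ℝ)) = fun _ => 1 := by
    funext t
    unfold PS
    exact ker_mean_const h0 h1 t 1
  rw [h2] at h
  simpa using h

end Pool.Agent.Helper655.BD.J12
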