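import Mathlib
import Pool.Agent.Helper655.BDDefs

set_option autoImplicit false
open Finset

namespace Pool.Agent.Helper655.BD.J13


section
open Metric InnerProductSpace Real

/-- kernel nonneg and continuity -/
theorem pk_nonneg {w z : ℂ} {R : ℝ} (hw : w ∈ ball (0:ℂ) R) (hz : z ∈ sphere (0:ℂ) |R|) :
    0 ≤ poissonKernel 0 w z := by
  rw [poissonKernel_def]
  have h1 : ‖z‖ = |R| := by simpa using hz
  have h2 : ‖w‖ < R := by simpa using hw
  have h3 : 0 < R := lt_of_le_of_lt (norm_nonneg _) h2
  apply div_nonneg _ (by positivity)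
  simp only [sub_zero]
  rw [h1, abs_of_pos h3]
  nlinarith [norm_nonneg w]

theorem step1 (a w : ℂ) (R : ℝ) (hw : w ∈ ball (0:ℂ) R) (hwa : w ≠ a) :
    Real.log ‖w - a‖ ≤ circleAverage (poissonKernel 0 w * (fun z => Real.log ‖z - a‖)) 0 R := by
  have hR : 0 < R := pos_of_mem_ball hw
  have hw' : ‖w‖ < R := by simpa using hw
  rcases lt_trichotomy ‖a‖ R with h | h | h
  · -- inside
    have hg : ∀ z : ℂ, ‖z‖ ≤ R → ((R:ℂ)^2 - (starRingEnd ℂ) a * z) / R ≠ 0 := by
      intro z hz h0
      have hRc : (R:ℂ) ≠ 0 := by exact_mod_cast hR.ne'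
      rw [div_eq_zero_iff] at h0
      rcases h0 with h0 | h0
      · have h1 : ‖(R:ℂ)^2‖ = ‖(starRingEnd ℂ) a * z‖ := by rw [sub_eq_zero.1 h0]
        rw [norm_mul, norm_pow, Complex.norm_real, Real.norm_eq_abs, abs_of_pos hR,
          Complex.norm_conj] at h1
        nlinarith [norm_nonneg a, norm_nonneg z]
      · exact hRc h0
    have hH : HarmonicOnNhd (fun z : ℂ => Real.log ‖((R:ℂ)^2 - (starRingEnd ℂ) a * z) / R‖)
        (closedBall (0:ℂ) R) := by
      intro z hz
      have hz' : ‖z‖ ≤ R := by simpa using hz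
      exact AnalyticAt.harmonicAt_log_norm (f := fun z : ℂ => ((R:ℂ)^2 - (starRingEnd ℂ) a * z) / R)
        (by fun_prop) (hg z hz')
    have hP := hH.circleAverage_poissonKernel_smul hw
    have hcongr : circleAverage (poissonKernel 0 w * (fun z => Real.log ‖z - a‖)) 0 R =
        circleAverage (poissonKernel 0 w • (fun z : ℂ => Real.log ‖((R:ℂ)^2 - (starRingEnd ℂ) a * z) / R‖)) 0 R := by
      apply circleAverage_congr_sphere
      intro z hz
      have hz' : ‖z‖ = R := by simpa [abs_of_pos hR] using hz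
      simp only [Pi.mul_apply, Pi.smul_apply', smul_eq_mul]
      congr 2
      have h1 : ((R:ℂ)^2 - (starRingEnd ℂ) a * z) = z * (starRingEnd ℂ) (z - a) := by
        have : (z * (starRingEnd ℂ) z : ℂ) = (R:ℂ)^2 := by
          rw [Complex.mul_conj, Complex.normSq_eq_norm_sq, hz']
          push_cast; ring
        rw [map_sub, mul_sub, this]; ring
      rw [h1, norm_div, norm_mul, Complex.norm_conj, hz', Complex.norm_real, Real.norm_eq_abs,
        abs_of_pos hR]
      field_simp
    rw [hcongr, hP]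
    apply Real.log_le_log (norm_pos_iff.2 (sub_ne_zero.2 hwa))
    rw [norm_div, Complex.norm_real, Real.norm_eq_abs, abs_of_pos hR, le_div_iff₀ hR]
    apply le_of_sq_le_sq _ (norm_nonneg _)
    rw [mul_pow, ← Complex.normSq_eq_norm_sq, ← Complex.normSq_eq_norm_sq]
    have e1 : ‖a‖^2 = a.re^2 + a.im^2 := by
      rw [← Complex.normSq_eq_norm_sq, Complex.normSq_apply]; ring
    have e2 : ‖w‖^2 = w.re^2 + w.im^2 := by
      rw [← Complex.normSq_eq_norm_sq, Complex.normSq_apply]; ring
    have e3 : 0 ≤ (R^2 - ‖a‖^2) * (R^2 - ‖w‖^2) := by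
      apply mul_nonneg <;> nlinarith [norm_nonneg a, norm_nonneg w]
    rw [e1, e2] at e3
    simp only [Complex.normSq_apply, Complex.sub_re, Complex.sub_im, Complex.mul_re, Complex.mul_im,
      Complex.conj_re, Complex.conj_im, pow_two, Complex.ofReal_re, Complex.ofReal_im]
    nlinarith [e3]
  · have := circleAverage_re_herglotzRieszKernel_mul_log (w := w) (ρ := a) (c := 0) (R := R)
      (by simpa using h) hw
    rw [← poissonKernel_eq_re_herglotzRieszKernel] at this
    exact this.ge
  · have hH : HarmonicOnNhd (fun z : ℂ => Real.log ‖z - a‖)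
        (closedBall (0:ℂ) R) := by
      intro z hz
      have hz' : ‖z‖ ≤ R := by simpa using hz
      refine AnalyticAt.harmonicAt_log_norm (f := fun z : ℂ => z - a)
        (by fun_prop) ?_
      intro h0
      rw [sub_eq_zero.1 h0] at hz'
      linarith
    exact (hH.circleAverage_poissonKernel_smul hw).ge

theorem pk_cont {w : ℂ} {R : ℝ} (hw : w ∈ ball (0:ℂ) R) :
    ContinuousOn (poissonKernel 0 w) (sphere (0:ℂ) |R|) := by
  rw [poissonKernel_eq_re_herglotzRieszKernel]
  exact Complex.continuous_re.comp_continuousOn (continuousOn_herglotzRieszKernel_sphere hw)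

theorem int_log (a w : ℂ) (R : ℝ) (hw : w ∈ ball (0:ℂ) R) :
    CircleIntegrable (poissonKernel 0 w * (fun z => Real.log ‖z - a‖)) 0 R := by
  have h1 : CircleIntegrable (fun z : ℂ => Real.log ‖z - a‖) 0 R := by
    apply MeromorphicOn.circleIntegrable_log_norm (f := fun z : ℂ => z - a)
    intro z hz
    fun_prop
  exact h1.continuousOn_smul (pk_cont hw)

theorem avg_const (w : ℂ) (R : ℝ) (hw : w ∈ ball (0:ℂ) R) (c : ℝ) :
    circleAverage (poissonKernel 0 w * (fun _ => c)) 0 R = c := by
  have hH : HarmonicOnNhd (fun _ : ℂ => c) (closedBall (0:ℂ) R) := by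
    intro z hz
    exact harmonicAt_const c
  exact hH.circleAverage_poissonKernel_smul hw

theorem int_const (w : ℂ) (R : ℝ) (hw : w ∈ ball (0:ℂ) R) (c : ℝ) :
    CircleIntegrable (poissonKernel 0 w * (fun _ => c)) 0 R := by
  have h1 : CircleIntegrable (fun _ : ℂ => c) 0 R := circleIntegrable_const c 0 R
  exact h1.continuousOn_smul (pk_cont hw)

theorem step2 (w : ℂ) (R : ℝ) (hw : w ∈ ball (0:ℂ) R) (s : Multiset ℂ) :
    (∀ a ∈ s, w ≠ a) →
    CircleIntegrable (poissonKernel 0 w * (fun z => (s.map (fun a => Real.log ‖z - a‖)).sum)) 0 R ∧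
    (s.map (fun a => Real.log ‖w - a‖)).sum ≤
      circleAverage (poissonKernel 0 w * (fun z => (s.map (fun a => Real.log ‖z - a‖)).sum)) 0 R := by
  induction s using Multiset.induction_on with
  | empty =>
    intro _
    simp only [Multiset.map_zero, Multiset.sum_zero]
    exact ⟨int_const w R hw 0, (avg_const w R hw 0).ge⟩
  | cons a s ih =>
    intro h
    obtain ⟨h1, h2⟩ := ih (fun b hb => h b (Multiset.mem_cons_of_mem hb))
    have h3 := int_log a w R hw
    have h4 := step1 a w R hw (h a (Multiset.mem_cons_self a s))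
    simp only [Multiset.map_cons, Multiset.sum_cons]
    have he : (poissonKernel 0 w * (fun z => Real.log ‖z - a‖ + (s.map (fun a => Real.log ‖z - a‖)).sum)) =
      (poissonKernel 0 w * (fun z => Real.log ‖z - a‖)) + (poissonKernel 0 w * (fun z => (s.map (fun a => Real.log ‖z - a‖)).sum)) := by
      ext z
      simp only [Pi.mul_apply, Pi.add_apply]
      ring
    rw [he]
    refine ⟨h3.add h1, ?_⟩
    rw [circleAverage_add h3 h1]
    linarith

theorem logprod (z : ℂ) (s : Multiset ℂ) : (∀ a ∈ s, z ≠ a) →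
    Real.log ‖(s.map (fun a => z - a)).prod‖ = (s.map (fun a => Real.log ‖z - a‖)).sum := by
  induction s using Multiset.induction_on with
  | empty => intro _; simp
  | cons a s ih =>
    intro h
    have h1 := ih (fun b hb => h b (Multiset.mem_cons_of_mem hb))
    have h2 : z - a ≠ 0 := sub_ne_zero.2 (h a (Multiset.mem_cons_self a s))
    have h3 : (s.map (fun a => z - a)).prod ≠ 0 := by
      apply Multiset.prod_ne_zero
      intro h0
      rw [Multiset.mem_map] at h0
      obtain ⟨b, hb, hb0⟩ := h0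
      exact h b (Multiset.mem_cons_of_mem hb) (sub_eq_zero.1 hb0)
    simp only [Multiset.map_cons, Multiset.sum_cons, Multiset.prod_cons]
    rw [norm_mul, Real.log_mul (norm_ne_zero_iff.2 h2) (norm_ne_zero_iff.2 h3), h1]

theorem logp (p : Polynomial ℂ) (hp : p ≠ 0) (z : ℂ) (hz : p.eval z ≠ 0) :
    Real.log ‖p.eval z‖ = Real.log ‖p.leadingCoeff‖ + (p.roots.map (fun a => Real.log ‖z - a‖)).sum := by
  have hz' : ∀ a ∈ p.roots, z ≠ a := by
    intro a ha h
    rw [Polynomial.mem_roots hp] at ha
    rw [h] at hz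
    exact hz ha
  have h1 := (IsAlgClosed.splits p).eval_eq_prod_roots z
  have h3 : (p.roots.map (fun a => z - a)).prod ≠ 0 := by
    intro h0
    rw [h0, mul_zero] at h1
    exact hz h1
  rw [h1, norm_mul, Real.log_mul (norm_ne_zero_iff.2 (Polynomial.leadingCoeff_ne_zero.2 hp))
    (norm_ne_zero_iff.2 h3), logprod z _ hz']

theorem submeanC (p : Polynomial ℂ) (hp : p ≠ 0) (τ : ℝ) (hτ : 0 < τ) (R : ℝ) (w : ℂ)
    (hw : w ∈ ball (0:ℂ) R) :
    Real.log (max ‖p.eval w‖ τ) ≤
      circleAverage (poissonKernel 0 w * (fun z => Real.log (max ‖p.eval z‖ τ))) 0 R := by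
  have hR : 0 < R := pos_of_mem_ball hw
  have hc : Continuous (fun z : ℂ => Real.log (max ‖p.eval z‖ τ)) := by
    apply Continuous.log
    · fun_prop
    · intro z
      have := le_max_right ‖p.eval z‖ τ
      intro h; linarith
  have hint : CircleIntegrable (poissonKernel 0 w * (fun z => Real.log (max ‖p.eval z‖ τ))) 0 R := by
    have h1 : CircleIntegrable (fun z : ℂ => Real.log (max ‖p.eval z‖ τ)) 0 R :=
      hc.continuousOn.circleIntegrable hR.le
    exact h1.continuousOn_smul (pk_cont hw)
  have hlow : Real.log τ ≤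
      circleAverage (poissonKernel 0 w * (fun z => Real.log (max ‖p.eval z‖ τ))) 0 R := by
    rw [← avg_const w R hw (Real.log τ)]
    apply circleAverage_mono (int_const w R hw _) hint
    intro z hz
    simp only [Pi.mul_apply]
    exact mul_le_mul_of_nonneg_left (Real.log_le_log hτ (le_max_right _ _)) (pk_nonneg hw hz)
  by_cases hpw : p.eval w = 0
  · rw [hpw, norm_zero, max_eq_right hτ.le]
    exact hlow
  have hpw' : 0 < ‖p.eval w‖ := norm_pos_iff.2 hpw
  have hmain : Real.log ‖p.eval w‖ ≤
      circleAverage (poissonKernel 0 w * (fun z => Real.log (max ‖p.eval z‖ τ))) 0 R := by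
    rw [logp p hp w hpw]
    have hz' : ∀ a ∈ p.roots, w ≠ a := by
      intro a ha h
      rw [Polynomial.mem_roots hp] at ha
      rw [h] at hpw
      exact hpw ha
    obtain ⟨h1, h2⟩ := step2 w R hw p.roots hz'
    have h3 := avg_const w R hw (Real.log ‖p.leadingCoeff‖)
    have h4 := int_const w R hw (Real.log ‖p.leadingCoeff‖)
    have h5 := circleAverage_add h4 h1
    calc _ ≤ circleAverage (poissonKernel 0 w * (fun _ => Real.log ‖p.leadingCoeff‖)) 0 R +
        circleAverage (poissonKernel 0 w * (fun z => (p.roots.map (fun a => Real.log ‖z - a‖)).sum)) 0 R := by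
          rw [h3]; linarith
      _ = _ := h5.symm
      _ ≤ _ := by
        apply (mul_le_mul_iff_of_pos_left (by simp [pi_pos])).2
        apply intervalIntegral.integral_mono_ae (le_of_lt two_pi_pos) (h4.add h1) hint
        have hcount : ({z : ℂ | p.eval z = 0}).Countable := by
          have : {z : ℂ | p.eval z = 0} = (p.roots.toFinset : Set ℂ) := by
            ext z; simp [Polynomial.mem_roots hp, Polynomial.IsRoot]
          rw [this]; exact Finset.countable_toSet _
        have h6 := hcount.preimage_circleMap 0 hR.ne'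
        have h7 := h6.measure_zero MeasureTheory.volume
        have h8 : ∀ᵐ θ : ℝ, θ ∉ circleMap 0 R ⁻¹' {z : ℂ | p.eval z = 0} :=
          MeasureTheory.measure_eq_zero_iff_ae_notMem.1 h7
        filter_upwards [h8] with θ hθ
        have hθ' : p.eval (circleMap 0 R θ) ≠ 0 := hθ
        simp only [Pi.add_apply, Pi.mul_apply]
        rw [← mul_add, ← logp p hp _ hθ']
        apply mul_le_mul_of_nonneg_left _ (pk_nonneg hw (circleMap_mem_sphere' 0 R θ))
        exact Real.log_le_log (norm_pos_iff.2 hθ') (le_max_left _ _)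
  rcases le_total ‖p.eval w‖ τ with h | h
  · rw [max_eq_right h]; exact hlow
  · rw [max_eq_left h]; exact hmain

theorem submean_aux (p : Polynomial ℂ) (hp : p ≠ 0) (τ : ℝ) (hτ : 0 < τ) (r R : ℝ) (hr : 0 ≤ r)
    (hR : r < R) (t : ℝ) :
    Real.log (max ‖p.eval (r * ee t)‖ τ) ≤
      PS (r / R) (fun s => Real.log (max ‖p.eval (R * ee s)‖ τ)) t := by
  have hR0 : 0 < R := lt_of_le_of_lt hr hR
  have hn : ∀ s, ‖ee s‖ = 1 := fun s => by
    unfold ee; exact Complex.norm_exp_ofReal_mul_I s
  have hw : (r * ee t : ℂ) ∈ ball (0:ℂ) R := by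
    simp only [mem_ball, dist_zero_right, norm_mul, hn, Complex.norm_real, Real.norm_eq_abs,
      abs_of_nonneg hr, mul_one]
    exact hR
  have h := submeanC p hp τ hτ R _ hw
  refine h.trans (le_of_eq ?_)
  unfold PS mean circleAverage
  rw [smul_eq_mul]
  congr 1
  apply intervalIntegral.integral_congr
  intro s _
  simp only [Pi.mul_apply]
  have h1 : circleMap 0 R s = R * ee s := by
    simp [circleMap, ee]
  rw [h1]
  congr 1
  rw [poissonKernel_def]
  simp only [sub_zero, norm_mul, hn, Complex.norm_real, Real.norm_eq_abs,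
      abs_of_nonneg hr, mul_one, abs_of_pos hR0]
  have h2 : (R * ee s - r * ee t : ℂ) = R * (ee s - ((r / R : ℝ) : ℂ) * ee t) := by
    have : (R:ℂ) ≠ 0 := by exact_mod_cast hR0.ne'
    push_cast
    field_simp
  rw [h2, norm_mul, Complex.norm_real, Real.norm_eq_abs, abs_of_pos hR0]
  rw [mul_pow]
  have h3 : ‖ee s - ((r / R : ℝ) : ℂ) * ee t‖ ≠ 0 := by
    intro h0
    have h4 : ee s = ((r / R : ℝ) : ℂ) * ee t := by
      rw [norm_eq_zero] at h0
      exact sub_eq_zero.1 h0
    have h5 := congrArg norm h4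
    rw [norm_mul, hn, hn, Complex.norm_real, Real.norm_eq_abs, abs_of_nonneg (by positivity), mul_one] at h5
    have h6 : r / R < 1 := (div_lt_one hR0).2 hR
    linarith
  generalize ‖ee s - ((r / R : ℝ) : ℂ) * ee t‖ = x at *
  field_simp


end

/-- TARGET: sub-mean inequality for the truncated logarithm of a polynomial -/
theorem submean (p : Polynomial ℂ) (hp : p ≠ 0) (τ : ℝ) (hτ : 0 < τ) (r R : ℝ) (hr : 0 ≤ r)
    (hR : r < R) (t : ℝ) :
    Real.log (max ‖p.eval (r * ee t)‖ τ) ≤
      PS (r / R) (fun s => Real.log (max ‖p.eval (R * ee s)‖ τ)) t :=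
  submean_aux p hp τ hτ r R hr hR t

end Pool.Agent.Helper655.BD.J13
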