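import Mathlib
import Pool.Agent.Helper655.BDDefs

set_option autoImplicit false
open Finset

namespace Pool.Agent.Helper655.BD.J2


/-- TARGET 1 -/
theorem bern_nonneg (m : ℕ) (x : ℝ) (h0 : 0 ≤ x) (h1 : x ≤ 1) : 0 ≤ Bern m x := by
  unfold Bern
  have : 0 ≤ 1 - x := by linarith
  exact Finset.sum_nonneg fun i _ => by positivity

theorem bern_full (m : ℕ) (x : ℝ) :
    ∑ i ∈ range (2 * m + 1), ((2 * m).choose i : ℝ) * x ^ i * (1 - x) ^ (2 * m - i) = 1 := by
  have h := (add_pow x (1 - x) (2 * m)).symm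
  rw [add_sub_cancel, one_pow] at h
  refine Eq.trans (Finset.sum_congr rfl fun i _ => ?_) h
  ring

theorem bern_split (m : ℕ) (x : ℝ) :
    (∑ i ∈ range m, ((2 * m).choose i : ℝ) * x ^ i * (1 - x) ^ (2 * m - i)) + Bern m x = 1 := by
  refine Eq.trans ?_ (bern_full m x)
  unfold Bern
  have h1 : Icc m (2 * m) = Ico m (2 * m + 1) := by
    ext i; simp only [mem_Icc, mem_Ico]; omega
  rw [h1, Finset.range_eq_Ico, Finset.range_eq_Ico]
  have h2 : m ≤ 2 * m + 1 := by omega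
  exact Finset.sum_Ico_consecutive (fun i => ((2 * m).choose i : ℝ) * x ^ i * (1 - x) ^ (2 * m - i))
    (Nat.zero_le m) h2

theorem choose_sum_le (m : ℕ) (s : Finset ℕ) (hs : s ⊆ range (2 * m + 1)) :
    ∑ i ∈ s, ((2 * m).choose i : ℝ) ≤ 4 ^ m := by
  calc ∑ i ∈ s, ((2 * m).choose i : ℝ) ≤ ∑ i ∈ range (2 * m + 1), ((2 * m).choose i : ℝ) :=
        Finset.sum_le_sum_of_subset_of_nonneg hs fun i _ _ => by positivity
    _ = 4 ^ m := by
        have h := Nat.sum_range_choose (2 * m)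
        have h2 : ((∑ i ∈ range (2 * m + 1), (2 * m).choose i : ℕ) : ℝ) = ((2 ^ (2 * m) : ℕ) : ℝ) := by
          rw [h]
        push_cast at h2
        rw [h2, pow_mul]; norm_num

/-- TARGET 2 -/
theorem bern_le_one (m : ℕ) (x : ℝ) (h0 : 0 ≤ x) (h1 : x ≤ 1) : Bern m x ≤ 1 := by
  have h := bern_split m x
  have h2 : 0 ≤ ∑ i ∈ range m, ((2 * m).choose i : ℝ) * x ^ i * (1 - x) ^ (2 * m - i) := by
    have : 0 ≤ 1 - x := by linarith
    exact Finset.sum_nonneg fun i _ => by positivity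
  linarith

/-- TARGET 3 -/
theorem bern_le (m : ℕ) (x : ℝ) (h0 : 0 ≤ x) (h1 : x ≤ 1) : Bern m x ≤ (4 * x) ^ m := by
  have hx : 0 ≤ 1 - x := by linarith
  have hx1 : 1 - x ≤ 1 := by linarith
  unfold Bern
  calc ∑ i ∈ Icc m (2 * m), ((2 * m).choose i : ℝ) * x ^ i * (1 - x) ^ (2 * m - i)
      ≤ ∑ i ∈ Icc m (2 * m), ((2 * m).choose i : ℝ) * x ^ m := by
        apply Finset.sum_le_sum
        intro i hi
        rw [mem_Icc] at hi
        have e1 : x ^ i ≤ x ^ m := pow_le_pow_of_le_one h0 h1 hi.1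
        have e2 : (1 - x) ^ (2 * m - i) ≤ 1 := pow_le_one₀ hx hx1
        have e3 : (0:ℝ) ≤ ((2 * m).choose i : ℝ) := by positivity
        have e4 : 0 ≤ x ^ i := by positivity
        calc ((2 * m).choose i : ℝ) * x ^ i * (1 - x) ^ (2 * m - i)
            ≤ ((2 * m).choose i : ℝ) * x ^ i * 1 := by gcongr
          _ ≤ ((2 * m).choose i : ℝ) * x ^ m := by rw [mul_one]; gcongr
    _ = (∑ i ∈ Icc m (2 * m), ((2 * m).choose i : ℝ)) * x ^ m := by rw [Finset.sum_mul]
    _ ≤ 4 ^ m * x ^ m := by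
        gcongr
        apply choose_sum_le
        intro i hi
        rw [mem_Icc] at hi
        rw [mem_range]; omega
    _ = (4 * x) ^ m := by rw [mul_pow]

/-- TARGET 4 -/
theorem one_sub_bern_le (m : ℕ) (x : ℝ) (h0 : 0 ≤ x) (h1 : x ≤ 1) :
    1 - Bern m x ≤ (4 * (1 - x)) ^ m := by
  have hx : 0 ≤ 1 - x := by linarith
  have hx1 : 1 - x ≤ 1 := by linarith
  have h := bern_split m x
  have h2 : 1 - Bern m x = ∑ i ∈ range m, ((2 * m).choose i : ℝ) * x ^ i * (1 - x) ^ (2 * m - i) := by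
    linarith
  rw [h2]
  calc ∑ i ∈ range m, ((2 * m).choose i : ℝ) * x ^ i * (1 - x) ^ (2 * m - i)
      ≤ ∑ i ∈ range m, ((2 * m).choose i : ℝ) * (1 - x) ^ m := by
        apply Finset.sum_le_sum
        intro i hi
        rw [mem_range] at hi
        have e1 : x ^ i ≤ 1 := pow_le_one₀ h0 h1
        have e2 : (1 - x) ^ (2 * m - i) ≤ (1 - x) ^ m := pow_le_pow_of_le_one hx hx1 (by omega)
        have e3 : (0:ℝ) ≤ ((2 * m).choose i : ℝ) := by positivity
        calc ((2 * m).choose i : ℝ) * x ^ i * (1 - x) ^ (2 * m - i)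
            ≤ ((2 * m).choose i : ℝ) * 1 * (1 - x) ^ (2 * m - i) := by gcongr
          _ ≤ ((2 * m).choose i : ℝ) * (1 - x) ^ m := by rw [mul_one]; gcongr
    _ = (∑ i ∈ range m, ((2 * m).choose i : ℝ)) * (1 - x) ^ m := by rw [Finset.sum_mul]
    _ ≤ 4 ^ m * (1 - x) ^ m := by
        gcongr
        apply choose_sum_le
        intro i hi
        rw [mem_range] at hi ⊢
        omega
    _ = (4 * (1 - x)) ^ m := by rw [mul_pow]

end Pool.Agent.Helper655.BD.J2
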