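import Mathlib
import Pool.Agent.Helper655.BDDefs
import Pool.Agent.Helper655.BDJ2
import Pool.Agent.Helper655.BDJ11

set_option autoImplicit false
open Finset

namespace Pool.Agent.Helper655.BD.J14

open Pool.Agent.Helper655.BD.J2 (bern_nonneg bern_le_one one_sub_bern_le)
open Pool.Agent.Helper655.BD.J11 (rtp_mul)





theorem D4_bern_cont (m : ℕ) : Continuous (Bern m) := by
  unfold Bern
  fun_prop

theorem D4_xbd (p : ℕ) (t : ℝ) : 0 ≤ (Real.cos (t / 2) ^ 2) ^ p ∧ (Real.cos (t / 2) ^ 2) ^ p ≤ 1 := by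
  refine ⟨by positivity, pow_le_one₀ (by positivity) ?_⟩
  nlinarith [Real.cos_sq_add_sin_sq (t / 2), sq_nonneg (Real.sin (t / 2))]

theorem D4_low (p : ℕ) (hp : (p : ℝ) = 2048) (t : ℝ) (ht : |t| ≤ 1 / 64) :
    7 / 8 ≤ (Real.cos (t / 2) ^ 2) ^ p := by
  have ht2 : t ^ 2 ≤ (1 / 64) ^ 2 := by
    rw [← sq_abs t]
    exact pow_le_pow_left₀ (abs_nonneg t) ht 2
  have h1 : 1 - (t / 2) ^ 2 / 2 ≤ Real.cos (t / 2) := Real.one_sub_sq_div_two_le_cos
  have h2 : 1 - t ^ 2 / 4 ≤ Real.cos (t / 2) ^ 2 := by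
    have h3 : (1 - (t / 2) ^ 2 / 2) ^ 2 ≤ Real.cos (t / 2) ^ 2 := by
      apply pow_le_pow_left₀ _ h1 2
      nlinarith
    nlinarith [sq_nonneg (t ^ 2)]
  have h5 : (1 + (-(t ^ 2 / 4))) ^ p ≤ (Real.cos (t / 2) ^ 2) ^ p := by
    apply pow_le_pow_left₀ _ (by linarith)
    nlinarith
  have h6 := one_add_mul_le_pow (a := -(t ^ 2 / 4)) (by nlinarith) p
  rw [hp] at h6
  nlinarith

theorem D4_half (m : ℕ) (hm : m ≠ 0) (y : ℝ) (h7 : 7 / 8 ≤ y) (h1 : y ≤ 1) : 1 / 2 ≤ Bern m y := by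
  have h8 := one_sub_bern_le m y (by linarith) h1
  have h10 : 4 * (1 - y) ≤ 1 / 2 := by linarith
  have h11 : 0 ≤ 4 * (1 - y) := by linarith
  have h9 : (4 * (1 - y)) ^ m ≤ 1 / 2 := by
    calc (4 * (1 - y)) ^ m ≤ (4 * (1 - y)) ^ 1 := by
            apply pow_le_pow_of_le_one h11 (by linarith) (Nat.one_le_iff_ne_zero.mpr hm)
        _ ≤ 1 / 2 := by rw [pow_one]; exact h10
  linarith

theorem D4_mean (s : ℝ → ℝ) (hcont : Continuous s) (hper : Function.Periodic s (2 * Real.pi))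
    (hbd : ∀ t, 0 ≤ s t) (hlow : ∀ t : ℝ, |t| ≤ 1 / 64 → 1 / 2 ≤ s t) : 1 / 500 ≤ mean s := by
  have hpi := Real.pi_gt_three
  have hpi2 := Real.pi_lt_d2
  have hint : ∀ a b : ℝ, IntervalIntegrable s MeasureTheory.volume a b :=
    fun a b => hcont.intervalIntegrable a b
  have hA : (1 / 128 : ℝ) ≤ ∫ t in (0:ℝ)..(1 / 64), s t := by
    have h := intervalIntegral.integral_mono_on (a := 0) (b := 1 / 64) (f := fun _ => (1 / 2 : ℝ))
      (g := s) (by norm_num) (by simp) (hint _ _) (fun t ht => hlow t (by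
        rw [abs_of_nonneg ht.1]; exact ht.2))
    have h2 : (∫ _t in (0:ℝ)..(1 / 64), (1 / 2 : ℝ)) = 1 / 128 := by
      rw [intervalIntegral.integral_const]; norm_num
    linarith
  have hC : (1 / 128 : ℝ) ≤ ∫ t in (2 * Real.pi - 1 / 64)..(2 * Real.pi), s t := by
    have h := intervalIntegral.integral_mono_on (a := 2 * Real.pi - 1 / 64) (b := 2 * Real.pi)
      (f := fun _ => (1 / 2 : ℝ))
      (g := s) (by norm_num) (by simp) (hint _ _) (fun t ht => by
        have h1 : s t = s (t - 2 * Real.pi) := by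
          have := hper (t - 2 * Real.pi)
          rw [sub_add_cancel] at this
          exact this
        rw [h1]
        apply hlow
        rw [abs_le]
        constructor <;> linarith [ht.1, ht.2])
    have h2 : (∫ _t in (2 * Real.pi - 1 / 64)..(2 * Real.pi), (1 / 2 : ℝ)) = 1 / 128 := by
      rw [intervalIntegral.integral_const]; simp only [smul_eq_mul]; ring
    linarith
  have hB : (0 : ℝ) ≤ ∫ t in (1 / 64)..(2 * Real.pi - 1 / 64), s t :=
    intervalIntegral.integral_nonneg (by linarith) (fun t _ => hbd t)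
  have hsum : (∫ t in (0:ℝ)..(2 * Real.pi), s t) =
      (∫ t in (0:ℝ)..(1 / 64), s t) + (∫ t in (1 / 64)..(2 * Real.pi - 1 / 64), s t)
        + ∫ t in (2 * Real.pi - 1 / 64)..(2 * Real.pi), s t := by
    rw [intervalIntegral.integral_add_adjacent_intervals (hint _ _) (hint _ _),
      intervalIntegral.integral_add_adjacent_intervals (hint _ _) (hint _ _)]
  have hI : (1 / 64 : ℝ) ≤ ∫ t in (0:ℝ)..(2 * Real.pi), s t := by
    rw [hsum]; linarith
  unfold mean
  rw [← div_eq_inv_mul, le_div_iff₀ (by positivity)]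
  linarith

theorem D4_gen (m p : ℕ) (hm : m ≠ 0) (hp : (p : ℝ) = 2048) (s : ℝ → ℝ)
    (hs : s = fun t => Bern m ((Real.cos (t / 2) ^ 2) ^ p)) :
    Continuous s ∧ Function.Periodic s (2 * Real.pi) ∧
    (∀ t, 0 ≤ s t ∧ s t ≤ 1) ∧ 1 / 500 ≤ mean s := by
  have hcont : Continuous s := by
    rw [hs]
    exact (D4_bern_cont m).comp (by fun_prop)
  have hper : Function.Periodic s (2 * Real.pi) := by
    intro t
    have h : Real.cos ((t + 2 * Real.pi) / 2) = - Real.cos (t / 2) := by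
      rw [show (t + 2 * Real.pi) / 2 = t / 2 + Real.pi by ring, Real.cos_add_pi]
    rw [hs]
    simp only [h, neg_sq]
  have hbd : ∀ t, 0 ≤ s t ∧ s t ≤ 1 := by
    intro t
    rw [hs]
    exact ⟨bern_nonneg _ _ (D4_xbd p t).1 (D4_xbd p t).2, bern_le_one _ _ (D4_xbd p t).1 (D4_xbd p t).2⟩
  refine ⟨hcont, hper, hbd, ?_⟩
  apply D4_mean s hcont hper (fun t => (hbd t).1)
  intro t ht
  rw [hs]
  exact D4_half m hm _ (D4_low p hp t ht) (D4_xbd p t).2

theorem D4_nn_ne (k : ℕ) : 3 * nn k ≠ 0 := by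
  have : 0 < nn k := by unfold nn; positivity
  omega

/-- TARGET 1 -/
theorem sig_props (k : ℕ) : Continuous (sig k) ∧ Function.Periodic (sig k) (2 * Real.pi) ∧
    (∀ t, 0 ≤ sig k t ∧ sig k t ≤ 1) ∧ 1 / 500 ≤ mean (sig k) :=
  D4_gen (3 * nn k) 2048 (D4_nn_ne k) (by norm_num) (sig k) rfl

theorem D4_mono {d e : ℕ} {φ : ℝ → ℝ} (hde : d ≤ e) : RTP d φ → RTP e φ := by
  rintro ⟨Q, hQ, h⟩
  exact ⟨Q, hQ.trans hde, h⟩

theorem D4_add {d : ℕ} {φ ψ : ℝ → ℝ} : RTP d φ → RTP d ψ → RTP d (fun t => φ t + ψ t) := by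
  rintro ⟨Q, hQ, h⟩ ⟨R, hR, h'⟩
  refine ⟨Q + R, (Polynomial.natDegree_add_le _ _).trans (max_le hQ hR), fun t => ?_⟩
  rw [Polynomial.eval_add, Complex.add_re, ← h t, ← h' t]

theorem D4_smul {d : ℕ} {φ : ℝ → ℝ} (c : ℝ) : RTP d φ → RTP d (fun t => c * φ t) := by
  rintro ⟨Q, hQ, h⟩
  refine ⟨Polynomial.C (c : ℂ) * Q, (Polynomial.natDegree_C_mul_le _ _).trans hQ, fun t => ?_⟩
  rw [Polynomial.eval_mul, Polynomial.eval_C, Complex.re_ofReal_mul, ← h t]

theorem D4_const (d : ℕ) (c : ℝ) : RTP d (fun _ => c) := by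
  refine ⟨Polynomial.C (c : ℂ), by simp, fun t => by simp⟩

theorem D4_pow {d : ℕ} {φ : ℝ → ℝ} (n : ℕ) (h : RTP d φ) : RTP (n * d) (fun t => φ t ^ n) := by
  induction n with
  | zero => simpa using D4_const 0 1
  | succ n ih =>
    have := rtp_mul ih h
    have h2 : (n + 1) * d = n * d + d := by ring
    rw [h2]
    simpa [pow_succ] using this

theorem D4_sum {d : ℕ} (s : Finset ℕ) (f : ℕ → ℝ → ℝ) : (∀ i ∈ s, RTP d (f i)) →
    RTP d (fun t => ∑ i ∈ s, f i t) := by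
  induction s using Finset.induction_on with
  | empty => intro _; simpa using D4_const d 0
  | insert a s ha ih =>
    intro h
    have h1 := h a (Finset.mem_insert_self a s)
    have h2 := ih (fun i hi => h i (Finset.mem_insert_of_mem hi))
    have h3 := D4_add h1 h2
    simpa [Finset.sum_insert ha] using h3

theorem D4_base (N : ℕ) : RTP N (fun t => Real.cos (N * t / 2) ^ 2) := by
  refine ⟨Polynomial.C (1 / 2) * (1 + Polynomial.X ^ N), ?_, fun t => ?_⟩
  · refine (Polynomial.natDegree_C_mul_le _ _).trans ?_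
    refine (Polynomial.natDegree_add_le _ _).trans ?_
    simp
  · have h1 : ee t ^ N = Complex.exp (((N * t : ℝ) : ℂ) * Complex.I) := by
      unfold ee
      rw [← Complex.exp_nat_mul]
      congr 1
      push_cast
      ring
    have h2 : (Complex.exp (((N * t : ℝ) : ℂ) * Complex.I)).re = Real.cos (N * t) := by
      rw [Complex.exp_ofReal_mul_I_re]
    have h3 : ((1 / 2 : ℂ) * (1 + ee t ^ N)).re = (1 / 2 : ℝ) * (1 + (ee t ^ N).re) := by
      have : (1 / 2 : ℂ) = ((1 / 2 : ℝ) : ℂ) := by push_cast; rfl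
      rw [this, Complex.re_ofReal_mul]
      simp
    simp only [Polynomial.eval_mul, Polynomial.eval_C, Polynomial.eval_add, Polynomial.eval_one,
      Polynomial.eval_pow, Polynomial.eval_X]
    rw [h3, h1, h2, Real.cos_sq]
    ring_nf

theorem D4_rtp_gen (m p N : ℕ) :
    RTP (2 * m * (p * N)) (fun t => Bern m ((Real.cos (N * t / 2) ^ 2) ^ p)) := by
  have hy : RTP (p * N) (fun t => (Real.cos (N * t / 2) ^ 2) ^ p) := D4_pow p (D4_base N)
  have hy' : RTP (p * N) (fun t => 1 - (Real.cos (N * t / 2) ^ 2) ^ p) := by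
    have := D4_add (D4_const (p * N) 1) (D4_smul (-1) hy)
    simpa [sub_eq_add_neg] using this
  have h0 : (fun t : ℝ => Bern m ((Real.cos (N * t / 2) ^ 2) ^ p)) = fun t => ∑ i ∈ Icc m (2 * m),
        ((2 * m).choose i : ℝ) * (((Real.cos (N * t / 2) ^ 2) ^ p) ^ i *
          (1 - (Real.cos (N * t / 2) ^ 2) ^ p) ^ (2 * m - i)) := by
    funext t
    unfold Bern
    apply Finset.sum_congr rfl
    intro i _
    rw [mul_assoc]
  rw [h0]
  apply D4_sum
  intro i hi
  have hi2 : i ≤ 2 * m := (Finset.mem_Icc.mp hi).2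
  have h1 := rtp_mul (D4_pow i hy) (D4_pow (2 * m - i) hy')
  have h2 : i * (p * N) + (2 * m - i) * (p * N) = 2 * m * (p * N) := by
    rw [← add_mul]
    congr 1
    omega
  rw [h2] at h1
  exact D4_smul ((2 * m).choose i : ℝ) h1

/-- TARGET 2 -/
theorem ss_rtp (k : ℕ) : RTP (2 ^ (k + 26) * NN k) (ss k) := by
  have hmain : RTP (2 * (3 * nn k) * (2048 * NN k)) (ss k) := D4_rtp_gen (3 * nn k) 2048 (NN k)
  refine D4_mono ?_ hmain
  generalize NN k = N
  have h1 : 2 * (3 * nn k) * (2048 * N) = (12288 * nn k) * N := by ring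
  rw [h1]
  apply Nat.mul_le_mul_right
  unfold nn
  have h2 : 2 ^ (k + 26) = 2 ^ 14 * 2 ^ (k + 12) := by
    rw [← pow_add]; congr 1; omega
  rw [h2]
  apply Nat.mul_le_mul_right
  norm_num

end Pool.Agent.Helper655.BD.J14
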