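import Mathlib
import Pool.Agent.Helper655.BDDefs

set_option autoImplicit false
open Finset

namespace Pool.Agent.Helper655.BD.J6


/-- TARGET 1 -/
theorem expSeq_succ {R : Type} [CommRing R] [Algebra ℂ R] (A : ℕ → R) (n : ℕ) :
    expSeq A (n + 1) = ((n : ℂ) + 1)⁻¹ • ∑ m ∈ range (n + 1),
      ((m : ℂ) + 1) • (A (m + 1) * expSeq A (n - m)) := by
  rw [expSeq, Finset.sum_range]

theorem expSeq_zero' {R : Type} [CommRing R] [Algebra ℂ R] (A : ℕ → R) : expSeq A 0 = 1 := by
  rw [expSeq]

theorem expSeq_unique {R : Type} [CommRing R] [Algebra ℂ R] (A P : ℕ → R) (h0 : P 0 = 1)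
    (hs : ∀ n : ℕ, ((n : ℂ) + 1) • P (n + 1) = ∑ m ∈ range (n + 1),
      ((m : ℂ) + 1) • (A (m + 1) * P (n - m))) (n : ℕ) : P n = expSeq A n := by
  induction n using Nat.strong_induction_on with
  | _ n ih =>
    cases n with
    | zero => rw [h0, expSeq_zero']
    | succ n =>
      rw [expSeq_succ]
      have hne : ((n : ℂ) + 1) ≠ 0 := Nat.cast_add_one_ne_zero n
      have h2 : P (n + 1) = ((n : ℂ) + 1)⁻¹ • (((n : ℂ) + 1) • P (n + 1)) := by
        rw [smul_smul, inv_mul_cancel₀ hne, one_smul]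
      rw [h2, hs]
      congr 1
      apply Finset.sum_congr rfl
      intro m hm
      rw [ih (n - m) (by omega)]

theorem expSeq_rec {R : Type} [CommRing R] [Algebra ℂ R] (A : ℕ → R) (n : ℕ) :
    ((n : ℂ) + 1) • expSeq A (n + 1) = ∑ m ∈ range (n + 1),
      ((m : ℂ) + 1) • (A (m + 1) * expSeq A (n - m)) := by
  have hne : ((n : ℂ) + 1) ≠ 0 := Nat.cast_add_one_ne_zero n
  rw [expSeq_succ, smul_smul, mul_inv_cancel₀ hne, one_smul]

/-- power series of a sequence derivative -/
noncomputable def dser {R : Type} [CommRing R] [Algebra ℂ R] (A : ℕ → R) : PowerSeries R :=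
  PowerSeries.mk (fun m => ((m : ℂ) + 1) • A (m + 1))

theorem natsmul_eq {R : Type} [CommRing R] [Algebra ℂ R] (x : R) (n : ℕ) :
    x * ((n : R) + 1) = ((n : ℂ) + 1) • x := by
  have : ((n : ℂ) + 1) • x = (((n + 1 : ℕ) : ℂ)) • x := by push_cast; rfl
  rw [this, Nat.cast_smul_eq_nsmul, nsmul_eq_mul]
  push_cast; ring

theorem deriv_eq_iff {R : Type} [CommRing R] [Algebra ℂ R] (A P : ℕ → R)
    : (∀ n : ℕ, ((n : ℂ) + 1) • P (n + 1) = ∑ m ∈ range (n + 1),
      ((m : ℂ) + 1) • (A (m + 1) * P (n - m))) ↔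
      PowerSeries.derivative R (PowerSeries.mk P) = dser A * PowerSeries.mk P := by
  rw [PowerSeries.ext_iff]
  apply forall_congr'
  intro n
  rw [PowerSeries.coeff_derivative, PowerSeries.coeff_mk, PowerSeries.coeff_mul,
    Finset.Nat.sum_antidiagonal_eq_sum_range_succ_mk, natsmul_eq]
  have : ∑ m ∈ range (n + 1), ((m : ℂ) + 1) • (A (m + 1) * P (n - m)) =
      ∑ k ∈ range n.succ, (PowerSeries.coeff (k, n - k).1) (dser A) *
        (PowerSeries.coeff (k, n - k).2) (PowerSeries.mk P) := by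
    apply Finset.sum_congr rfl
    intro m hm
    simp only [dser, PowerSeries.coeff_mk]
    rw [smul_mul_assoc]
  rw [this]

/-- TARGET 2 -/
theorem expSeq_add {R : Type} [CommRing R] [Algebra ℂ R] (A B : ℕ → R) (n : ℕ) :
    cv (expSeq A) (expSeq B) n = expSeq (fun m => A m + B m) n := by
  have hcv : ∀ n, cv (expSeq A) (expSeq B) n =
      PowerSeries.coeff n (PowerSeries.mk (expSeq A) * PowerSeries.mk (expSeq B)) := by
    intro n
    rw [PowerSeries.coeff_mul, Finset.Nat.sum_antidiagonal_eq_sum_range_succ_mk, cv]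
    apply Finset.sum_congr rfl
    intro m hm
    simp only [PowerSeries.coeff_mk]
  have hmk : PowerSeries.mk (cv (expSeq A) (expSeq B)) =
      PowerSeries.mk (expSeq A) * PowerSeries.mk (expSeq B) := by
    ext n
    rw [PowerSeries.coeff_mk, hcv]
  have hA := (deriv_eq_iff A (expSeq A)).1 (expSeq_rec A)
  have hB := (deriv_eq_iff B (expSeq B)).1 (expSeq_rec B)
  apply expSeq_unique
  · simp [cv, expSeq_zero']
  · refine (deriv_eq_iff (fun m => A m + B m) (cv (expSeq A) (expSeq B))).2 ?_
    rw [hmk, Derivation.leibniz, hA, hB]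
    have hd : dser (fun m => A m + B m) = dser A + dser B := by
      ext n
      simp [dser]
    rw [hd]
    simp only [smul_eq_mul]
    ring

/-- TARGET 3 -/
theorem expSeq_zero {R : Type} [CommRing R] [Algebra ℂ R] (n : ℕ) :
    expSeq (fun _ => (0 : R)) n = if n = 0 then 1 else 0 := by
  cases n with
  | zero => simp [expSeq_zero']
  | succ n => rw [expSeq_succ]; simp

/-- TARGET 4 -/
theorem expSeq_map {R S : Type} [CommRing R] [Algebra ℂ R] [CommRing S] [Algebra ℂ S]
    (φ : R →ₐ[ℂ] S) (A : ℕ → R) (n : ℕ) : φ (expSeq A n) = expSeq (fun m => φ (A m)) n := by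
  apply expSeq_unique (fun m => φ (A m)) (fun n => φ (expSeq A n))
  · simp [expSeq_zero']
  · intro n
    rw [← map_smul, expSeq_rec, map_sum]
    apply Finset.sum_congr rfl
    intro m hm
    rw [map_smul, map_mul]

/-- TARGET 5 -/
theorem expSeq_natDegree (A : ℕ → Polynomial ℂ) (hA : ∀ n, (A n).natDegree ≤ n) (n : ℕ) :
    (expSeq A n).natDegree ≤ n := by
  induction n using Nat.strong_induction_on with
  | _ n ih =>
    cases n with
    | zero => rw [expSeq_zero']; simp
    | succ n =>
      rw [expSeq_succ]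
      refine (Polynomial.natDegree_smul_le _ _).trans ?_
      apply Polynomial.natDegree_sum_le_of_forall_le
      intro m hm
      refine (Polynomial.natDegree_smul_le _ _).trans ?_
      refine Polynomial.natDegree_mul_le.trans ?_
      have h1 := hA (m + 1)
      have h2 := ih (n - m) (by omega)
      have h3 := Finset.mem_range.1 hm
      omega

end Pool.Agent.Helper655.BD.J6
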