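import Mathlib
import Pool.Agent.Helper655.BDDefs
import Pool.Agent.Helper655.BDJ6

set_option autoImplicit false
open Finset

namespace Pool.Agent.Helper655.BD.J7

open Pool.Agent.Helper655.BD.J6 (expSeq_succ)

/-- given by another job (leave as sorry) -/
theorem expSeq_succ {R : Type} [CommRing R] [Algebra ℂ R] (A : ℕ → R) (n : ℕ) :
    expSeq A (n + 1) = ((n : ℂ) + 1)⁻¹ • ∑ m ∈ range (n + 1),
      ((m : ℂ) + 1) • (A (m + 1) * expSeq A (n - m)) := by
  rw [expSeq]
  congr 1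
  exact Fin.sum_univ_eq_sum_range (fun m => ((m : ℂ) + 1) • (A (m + 1) * expSeq A (n - m))) (n + 1)


theorem expSeq_zero {R : Type} [CommRing R] [Algebra ℂ R] (A : ℕ → R) : expSeq A 0 = 1 := by
  rw [expSeq]

theorem expSeq_scale (A : ℕ → ℂ) (x : ℂ) (n : ℕ) :
    expSeq (fun n => A n * x ^ n) n = expSeq A n * x ^ n := by
  induction n using Nat.strong_induction_on with
  | _ n ih =>
    cases n with
    | zero => simp [expSeq_zero]
    | succ n =>
      rw [expSeq_succ, expSeq_succ, smul_eq_mul, smul_eq_mul, mul_assoc]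
      congr 1
      rw [Finset.sum_mul]
      refine Finset.sum_congr rfl fun m hm => ?_
      have hm' : m ≤ n := Nat.lt_succ_iff.1 (Finset.mem_range.1 hm)
      rw [ih (n - m) (by omega), smul_eq_mul, smul_eq_mul]
      have : x ^ (n + 1) = x ^ (m + 1) * x ^ (n - m) := by
        rw [← pow_add]; congr 1; omega
      rw [this]
      ring

/-- coefficients of the powers -/
noncomputable def PP (B : ℕ → ℂ) (k n : ℕ) : ℂ := PowerSeries.coeff n ((PowerSeries.mk B) ^ k)

theorem PP_succ (B : ℕ → ℂ) (k n : ℕ) :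
    PP B (k + 1) n = ∑ kl ∈ antidiagonal n, PP B k kl.1 * B kl.2 := by
  unfold PP
  rw [pow_succ, PowerSeries.coeff_mul]
  simp

theorem PP_zero (B : ℕ → ℂ) (n : ℕ) : PP B 0 n = if n = 0 then 1 else 0 := by
  unfold PP
  rw [pow_zero, PowerSeries.coeff_one]

theorem PP_eq_zero (B : ℕ → ℂ) (h0 : B 0 = 0) {k n : ℕ} (h : n < k) : PP B k n = 0 := by
  unfold PP
  have h1 : (PowerSeries.X : PowerSeries ℂ) ∣ PowerSeries.mk B := by
    rw [PowerSeries.X_dvd_iff]
    simpa using h0
  have h2 := pow_dvd_pow_of_dvd h1 k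
  exact (PowerSeries.X_pow_dvd_iff.1 h2) n h

theorem PP_summable (B : ℕ → ℂ) (h : Summable fun n => ‖B n‖) (k : ℕ) :
    (Summable fun n => ‖PP B k n‖) ∧ ∑' n, ‖PP B k n‖ ≤ (∑' n, ‖B n‖) ^ k ∧
      ∑' n, PP B k n = (∑' n, B n) ^ k := by
  induction k with
  | zero =>
    have h1 : (fun n => ‖PP B 0 n‖) = fun n => if n = 0 then 1 else 0 := by
      funext n
      rw [PP_zero]
      split_ifs <;> simp
    refine ⟨?_, ?_, ?_⟩
    · rw [h1]
      exact (hasSum_ite_eq 0 (1:ℝ)).summable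
    · rw [h1, (hasSum_ite_eq 0 (1:ℝ)).tsum_eq, pow_zero]
    · simp_rw [PP_zero]
      rw [(hasSum_ite_eq 0 (1:ℂ)).tsum_eq, pow_zero]
  | succ k ih =>
    obtain ⟨h1, h2, h3⟩ := ih
    have e : PP B (k + 1) = fun n => ∑ kl ∈ antidiagonal n, PP B k kl.1 * B kl.2 := by
      funext n; exact PP_succ B k n
    have hs := summable_norm_sum_mul_antidiagonal_of_summable_norm h1 h
    refine ⟨by rw [e]; exact hs, ?_, ?_⟩
    · have hn1 : Summable fun n => ‖(‖PP B k n‖)‖ := by simpa using h1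
      have hn2 : Summable fun n => ‖(‖B n‖)‖ := by simpa using h
      have hs2 := (summable_norm_sum_mul_antidiagonal_of_summable_norm hn1 hn2).of_norm
      have he := tsum_mul_tsum_eq_tsum_sum_antidiagonal_of_summable_norm hn1 hn2
      rw [e]
      calc ∑' n, ‖∑ kl ∈ antidiagonal n, PP B k kl.1 * B kl.2‖
          ≤ ∑' n, ∑ kl ∈ antidiagonal n, ‖PP B k kl.1‖ * ‖B kl.2‖ := by
            refine hs.tsum_le_tsum (fun n => ?_) hs2
            refine (norm_sum_le _ _).trans (le_of_eq ?_)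
            refine Finset.sum_congr rfl fun _ _ => norm_mul _ _
        _ = (∑' n, ‖PP B k n‖) * ∑' n, ‖B n‖ := he.symm
        _ ≤ (∑' n, ‖B n‖) ^ k * ∑' n, ‖B n‖ := by
            gcongr
        _ = _ := (pow_succ _ _).symm
    · rw [e, ← tsum_mul_tsum_eq_tsum_sum_antidiagonal_of_summable_norm h1 h, h3, pow_succ]

/-- candidate for the exponential sequence -/
noncomputable def EE (B : ℕ → ℂ) (n : ℕ) : ℂ := ∑ k ∈ range (n + 1), PP B k n / k.factorial

theorem EE_eq (B : ℕ → ℂ) (h0 : B 0 = 0) {n M : ℕ} (h : n < M) :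
    EE B n = ∑ k ∈ range M, PP B k n / k.factorial := by
  unfold EE
  refine Finset.sum_subset (Finset.range_subset_range.2 h) fun k _ hk => ?_
  rw [PP_eq_zero B h0 (by simpa using hk), zero_div]

theorem PP_deriv (B : ℕ → ℂ) (k n : ℕ) :
    ((n : ℂ) + 1) * PP B (k + 1) (n + 1) =
      (k + 1) * ∑ m ∈ range (n + 1), ((m : ℂ) + 1) * (B (m + 1) * PP B k (n - m)) := by
  unfold PP
  have h1 := PowerSeries.coeff_derivative ((PowerSeries.mk B) ^ (k + 1)) n
  have h2 : PowerSeries.derivative ℂ ((PowerSeries.mk B) ^ (k + 1)) =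
      ((k + 1 : ℕ) : PowerSeries ℂ) * (PowerSeries.derivative ℂ (PowerSeries.mk B) * (PowerSeries.mk B) ^ k) := by
    rw [Derivation.leibniz_pow]
    simp [mul_comm]
  rw [h2] at h1
  rw [mul_comm, ← h1]
  have h3 : ((k + 1 : ℕ) : PowerSeries ℂ) = PowerSeries.C ((k : ℂ) + 1) := by
    simp
  rw [h3, PowerSeries.coeff_C_mul, PowerSeries.coeff_mul]
  congr 1
  rw [Finset.Nat.sum_antidiagonal_eq_sum_range_succ
    (fun i j => PowerSeries.coeff i (PowerSeries.derivative ℂ (PowerSeries.mk B)) *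
      PowerSeries.coeff j (PowerSeries.mk B ^ k))]
  refine Finset.sum_congr rfl fun m _ => ?_
  rw [PowerSeries.coeff_derivative, PowerSeries.coeff_mk]
  ring

theorem EE_succ (B : ℕ → ℂ) (h0 : B 0 = 0) (n : ℕ) :
    EE B (n + 1) = ((n : ℂ) + 1)⁻¹ * ∑ m ∈ range (n + 1),
      ((m : ℂ) + 1) * (B (m + 1) * EE B (n - m)) := by
  have hn : ((n : ℂ) + 1) ≠ 0 := by exact_mod_cast Nat.succ_ne_zero n
  rw [eq_inv_mul_iff_mul_eq₀ hn]
  unfold EE
  rw [Finset.sum_range_succ']
  have hz : PP B 0 (n + 1) = 0 := by rw [PP_zero]; simp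
  rw [hz, zero_div, add_zero, Finset.mul_sum]
  have h1 : ∀ k ∈ range (n + 1), ((n : ℂ) + 1) * (PP B (k + 1) (n + 1) / ((k + 1).factorial : ℕ)) =
      ∑ m ∈ range (n + 1), ((m : ℂ) + 1) * (B (m + 1) * (PP B k (n - m) / (k.factorial : ℕ))) := by
    intro k _
    have hk : ((k : ℂ) + 1) ≠ 0 := by exact_mod_cast Nat.succ_ne_zero k
    have hf : ((k.factorial : ℕ) : ℂ) ≠ 0 := by exact_mod_cast Nat.factorial_ne_zero k
    rw [mul_div_assoc', PP_deriv, Nat.factorial_succ]
    push_cast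
    rw [mul_div_mul_left _ _ hk, Finset.sum_div]
    refine Finset.sum_congr rfl fun m _ => ?_
    ring
  rw [Finset.sum_congr rfl h1, Finset.sum_comm]
  refine Finset.sum_congr rfl fun m hm => ?_
  rw [← Finset.mul_sum, ← Finset.mul_sum]
  congr 2
  have := EE_eq B h0 (n := n - m) (M := n + 1) (by omega)
  rw [← this]
  rfl

theorem expSeq_eq_EE (B : ℕ → ℂ) (h0 : B 0 = 0) (n : ℕ) : expSeq B n = EE B n := by
  induction n using Nat.strong_induction_on with
  | _ n ih =>
    cases n with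
    | zero => rw [expSeq_zero]; simp [EE, PP_zero]
    | succ n =>
      rw [expSeq_succ, EE_succ B h0, smul_eq_mul]
      congr 1
      refine Finset.sum_congr rfl fun m hm => ?_
      rw [smul_eq_mul, ih (n - m) (by omega)]

theorem core (B : ℕ → ℂ) (h0 : B 0 = 0) (h : Summable fun n => ‖B n‖) :
    (Summable fun n => ‖expSeq B n‖) ∧ HasSum (fun n => expSeq B n) (Complex.exp (∑' n, B n)) := by
  set S := ∑' n, ‖B n‖ with hS
  obtain ⟨f, hf⟩ : ∃ f : ℕ × ℕ → ℂ, ∀ k n, f (k, n) = PP B k n / (k.factorial : ℂ) :=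
    ⟨fun p => PP B p.1 p.2 / (p.1.factorial : ℂ), fun k n => rfl⟩
  have hnorm : ∀ k n, ‖f (k, n)‖ = ‖PP B k n‖ / k.factorial := by
    intro k n
    rw [hf, norm_div, Complex.norm_natCast]
  have hsum : Summable fun p : ℕ × ℕ => ‖f p‖ := by
    rw [summable_prod_of_nonneg (fun p => norm_nonneg _)]
    refine ⟨fun k => ?_, ?_⟩
    · simp only [hnorm]
      exact (PP_summable B h k).1.div_const _
    · simp only [hnorm]
      refine Summable.of_nonneg_of_le (fun k => tsum_nonneg fun n => by positivity) (fun k => ?_)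
        (Real.summable_pow_div_factorial S)
      rw [tsum_div_const]
      have := (PP_summable B h k).2.1
      gcongr
  have hswap : Summable fun p : ℕ × ℕ => ‖f p.swap‖ := hsum.prod_symm
  have hE : ∀ n, HasSum (fun k => f (k, n)) (expSeq B n) := by
    intro n
    simp only [hf]
    rw [expSeq_eq_EE B h0, EE]
    apply hasSum_sum_of_ne_finset_zero
    intro k hk
    rw [PP_eq_zero B h0 (by simpa using hk), zero_div]
  refine ⟨?_, ?_⟩
  · have h1 := ((summable_prod_of_nonneg (fun p => norm_nonneg _)).1 hswap)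
    refine Summable.of_nonneg_of_le (fun n => norm_nonneg _) (fun n => ?_) h1.2
    rw [← (hE n).tsum_eq]
    exact norm_tsum_le_tsum_norm (h1.1 n)
  · have h2 : HasSum (fun k => (∑' n, B n) ^ k / (k.factorial : ℂ)) (Complex.exp (∑' n, B n)) := by
      rw [Complex.exp_eq_exp_ℂ]
      exact NormedSpace.expSeries_div_hasSum_exp _
    have h3 : ∑' p : ℕ × ℕ, f p = Complex.exp (∑' n, B n) := by
      rw [hsum.of_norm.tsum_prod, ← h2.tsum_eq]
      refine tsum_congr fun k => ?_
      simp only [hf]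
      rw [tsum_div_const, (PP_summable B h k).2.2]
    have h4 : HasSum (fun p : ℕ × ℕ => f p.swap) (Complex.exp (∑' n, B n)) := by
      rw [← h3]
      exact (Equiv.prodComm ℕ ℕ).hasSum_iff.2 hsum.of_norm.hasSum
    exact h4.prod_fiberwise hE

/-- TARGET 1 -/
theorem expSeq_hasSum (A : ℕ → ℂ) (x : ℂ) (h0 : A 0 = 0)
    (h : Summable fun n => ‖A n‖ * ‖x‖ ^ n) :
    (Summable fun n => ‖expSeq A n‖ * ‖x‖ ^ n) ∧
      HasSum (fun n => expSeq A n * x ^ n) (Complex.exp (∑' n, A n * x ^ n)) := by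
  have h1 : Summable fun n => ‖A n * x ^ n‖ := by
    simpa only [norm_mul, norm_pow] using h
  have h2 := core (fun n => A n * x ^ n) (by simp [h0]) h1
  simp only [expSeq_scale, norm_mul, norm_pow] at h2
  exact h2

end Pool.Agent.Helper655.BD.J7
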