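import Mathlib
import Pool.Agent.Helper655.BDDefs

set_option autoImplicit false
open Finset

namespace Pool.Agent.Helper655.BD.J8



theorem pv_norm_ee (t : ℝ) : ‖ee t‖ = 1 := by
  unfold ee
  exact Complex.norm_exp_ofReal_mul_I t

theorem pv_continuous_ee : Continuous ee := by
  unfold ee
  fun_prop

theorem pv_orth (m n : ℕ) (h : m ≠ n) :
    ∫ t in (0:ℝ)..(2 * Real.pi), ee t ^ m * (starRingEnd ℂ) (ee t ^ n) = 0 := by
  have hc : ((m : ℂ) - n) * Complex.I ≠ 0 := by
    apply mul_ne_zero _ Complex.I_ne_zero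
    rw [sub_ne_zero]
    exact_mod_cast h
  have h1 : (fun t : ℝ => ee t ^ m * (starRingEnd ℂ) (ee t ^ n)) =
      fun t : ℝ => Complex.exp (((m : ℂ) - n) * Complex.I * t) := by
    funext t
    unfold ee
    rw [map_pow, ← Complex.exp_conj, ← Complex.exp_nat_mul, ← Complex.exp_nat_mul,
      ← Complex.exp_add]
    congr 1
    simp only [map_mul, Complex.conj_ofReal, Complex.conj_I]
    ring
  rw [h1, integral_exp_mul_complex hc]
  have h2 : Complex.exp (((m : ℂ) - n) * Complex.I * ((2 * Real.pi : ℝ) : ℂ)) = 1 := by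
    rw [Complex.exp_eq_one_iff]
    refine ⟨(m : ℤ) - n, ?_⟩
    push_cast
    ring
  rw [h2]
  simp

theorem pv_fin (a : ℕ → ℂ) (N : ℕ) :
    mean (fun t => ‖∑ n ∈ range N, a n * ee t ^ n‖ ^ 2) = ∑ n ∈ range N, ‖a n‖ ^ 2 := by
  have hpi : (2 * Real.pi) ≠ 0 := by positivity
  induction N with
  | zero => simp [mean]
  | succ N ih =>
    have hce := pv_continuous_ee
    have hS : Continuous fun t => ∑ n ∈ range N, a n * ee t ^ n := by fun_prop
    have h1 : (fun t => ‖∑ n ∈ range (N + 1), a n * ee t ^ n‖ ^ 2) =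
        fun t => ‖∑ n ∈ range N, a n * ee t ^ n‖ ^ 2 + ‖a N‖ ^ 2 +
          2 * ((∑ n ∈ range N, a n * ee t ^ n) * (starRingEnd ℂ) (a N * ee t ^ N)).re := by
      funext t
      rw [sum_range_succ, ← Complex.normSq_eq_norm_sq, Complex.normSq_add,
        Complex.normSq_eq_norm_sq, Complex.normSq_eq_norm_sq, norm_mul, norm_pow, pv_norm_ee]
      simp
    have h2 : ∫ t in (0:ℝ)..(2 * Real.pi),
        (∑ n ∈ range N, a n * ee t ^ n) * (starRingEnd ℂ) (a N * ee t ^ N) = 0 := by
      have : (fun t : ℝ => (∑ n ∈ range N, a n * ee t ^ n) * (starRingEnd ℂ) (a N * ee t ^ N)) =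
          fun t => ∑ n ∈ range N, (a n * (starRingEnd ℂ) (a N)) *
            (ee t ^ n * (starRingEnd ℂ) (ee t ^ N)) := by
        funext t
        rw [sum_mul]
        refine sum_congr rfl fun n _ => ?_
        rw [map_mul]
        ring
      rw [this, intervalIntegral.integral_finsetSum]
      · refine sum_eq_zero fun n hn => ?_
        rw [intervalIntegral.integral_const_mul, pv_orth n N (by rw [mem_range] at hn; omega),
          mul_zero]
      · intro n _
        apply Continuous.intervalIntegrable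
        fun_prop
    have h3 : ∫ t in (0:ℝ)..(2 * Real.pi),
        ((∑ n ∈ range N, a n * ee t ^ n) * (starRingEnd ℂ) (a N * ee t ^ N)).re = 0 := by
      have h4 := Complex.reCLM.intervalIntegral_comp_comm (μ := MeasureTheory.volume)
        (a := (0:ℝ)) (b := 2 * Real.pi)
        (f := fun t => (∑ n ∈ range N, a n * ee t ^ n) * (starRingEnd ℂ) (a N * ee t ^ N))
        (Continuous.intervalIntegrable (by fun_prop) _ _)
      simp only [Complex.reCLM_apply] at h4
      rw [h4, h2]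
      simp
    rw [sum_range_succ, ← ih]
    unfold mean
    rw [h1, intervalIntegral.integral_add, intervalIntegral.integral_add,
      intervalIntegral.integral_const_mul, h3]
    · simp only [intervalIntegral.integral_const, sub_zero, smul_eq_mul, mul_zero, add_zero]
      field_simp
    · apply Continuous.intervalIntegrable
      fun_prop
    · exact intervalIntegrable_const
    · apply Continuous.intervalIntegrable
      fun_prop
    · apply Continuous.intervalIntegrable
      apply Continuous.const_mul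
      apply Complex.continuous_re.comp
      fun_prop

theorem pv_main (a : ℕ → ℂ) (h : Summable fun n => ‖a n‖) :
    (Summable fun n => ‖a n‖ ^ 2) ∧
    mean (fun t => ‖∑' n, a n * ee t ^ n‖ ^ 2) = ∑' n, ‖a n‖ ^ 2 := by
  have hs2 : Summable fun n => ‖a n‖ ^ 2 := by
    refine Summable.of_nonneg_of_le (fun n => by positivity) (fun n => ?_)
      (h.mul_left (∑' n, ‖a n‖))
    rw [sq]
    exact mul_le_mul_of_nonneg_right (h.le_tsum n (fun _ _ => norm_nonneg _)) (norm_nonneg _)
  refine ⟨hs2, ?_⟩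
  have hce := pv_continuous_ee
  have hL : Filter.Tendsto (fun N => mean (fun t => ‖∑ n ∈ range N, a n * ee t ^ n‖ ^ 2))
      Filter.atTop (nhds (∑' n, ‖a n‖ ^ 2)) := by
    simp only [pv_fin]
    exact hs2.hasSum.tendsto_sum_nat
  refine tendsto_nhds_unique ?_ hL
  unfold mean
  apply Filter.Tendsto.const_mul
  have hn : ∀ t n, ‖a n * ee t ^ n‖ = ‖a n‖ := by
    intro t n
    rw [norm_mul, norm_pow, pv_norm_ee]
    simp
  apply intervalIntegral.tendsto_integral_filter_of_dominated_convergence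
    (fun _ => (∑' n, ‖a n‖) ^ 2)
  · refine Filter.Eventually.of_forall fun N => ?_
    apply Continuous.aestronglyMeasurable
    fun_prop
  · refine Filter.Eventually.of_forall fun N => Filter.Eventually.of_forall fun t _ => ?_
    rw [Real.norm_of_nonneg (by positivity)]
    apply pow_le_pow_left₀ (norm_nonneg _)
    refine (norm_sum_le _ _).trans ?_
    simp only [hn]
    exact h.sum_le_tsum _ (fun _ _ => norm_nonneg _)
  · exact intervalIntegrable_const
  · refine Filter.Eventually.of_forall fun t _ => ?_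
    have hst : Summable fun n => a n * ee t ^ n := by
      apply Summable.of_norm
      simpa only [hn] using h
    exact (hst.hasSum.tendsto_sum_nat.norm).pow 2

/-- TARGET 1 -/
theorem parseval (e : ℕ → ℂ) (r : ℝ) (hr : 0 ≤ r) (h : Summable fun n => ‖e n‖ * r ^ n) :
    (Summable fun n => ‖e n‖ ^ 2 * r ^ (2 * n)) ∧
    mean (fun t => ‖∑' n, e n * (r * ee t) ^ n‖ ^ 2) = ∑' n, ‖e n‖ ^ 2 * r ^ (2 * n) := by
  have h1 : ∀ n, ‖e n * (r : ℂ) ^ n‖ = ‖e n‖ * r ^ n := by
    intro n
    rw [norm_mul, norm_pow, Complex.norm_real, Real.norm_of_nonneg hr]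
  have h2 : ∀ n, ‖e n * (r : ℂ) ^ n‖ ^ 2 = ‖e n‖ ^ 2 * r ^ (2 * n) := by
    intro n
    rw [h1]
    ring
  have h3 := pv_main (fun n => e n * (r : ℂ) ^ n) (by simpa only [h1] using h)
  simp only [h2] at h3
  refine ⟨h3.1, ?_⟩
  rw [← h3.2]
  simp only [mul_pow, mul_assoc]

/-- TARGET 2 -/
theorem bessel_bdd (e : ℕ → ℂ) (M : ℝ)
    (h : ∀ r : ℝ, 0 ≤ r → r < 1 → Summable fun n => ‖e n‖ * r ^ n)
    (hM : ∀ x : ℂ, ‖x‖ < 1 → ‖∑' n, e n * x ^ n‖ ≤ M) :
    ∑' n, ENNReal.ofReal (‖e n‖ ^ 2) ≤ ENNReal.ofReal (M ^ 2) := by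
  have hM0 : 0 ≤ M := (norm_nonneg _).trans (hM 0 (by simp))
  have key : ∀ r : ℝ, 0 ≤ r → r < 1 → ∀ N, ∑ n ∈ range N, ‖e n‖ ^ 2 * r ^ (2 * n) ≤ M ^ 2 := by
    intro r hr0 hr1 N
    obtain ⟨h1, h2⟩ := parseval e r hr0 (h r hr0 hr1)
    refine (h1.sum_le_tsum _ (fun n _ => by positivity)).trans ?_
    rw [← h2]
    unfold mean
    have h3 : ‖∫ t in (0:ℝ)..(2 * Real.pi), ‖∑' n, e n * (r * ee t) ^ n‖ ^ 2‖ ≤
        M ^ 2 * |2 * Real.pi - 0| := by
      apply intervalIntegral.norm_integral_le_of_norm_le_const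
      intro t _
      rw [Real.norm_of_nonneg (by positivity)]
      apply pow_le_pow_left₀ (norm_nonneg _)
      apply hM
      rw [norm_mul, pv_norm_ee, Complex.norm_real, Real.norm_of_nonneg hr0, mul_one]
      exact hr1
    have h4 := (le_abs_self _).trans h3
    rw [sub_zero, abs_of_nonneg (by positivity)] at h4
    calc (2 * Real.pi)⁻¹ * ∫ t in (0:ℝ)..(2 * Real.pi), ‖∑' n, e n * (r * ee t) ^ n‖ ^ 2
        ≤ (2 * Real.pi)⁻¹ * (M ^ 2 * (2 * Real.pi)) :=
          mul_le_mul_of_nonneg_left h4 (by positivity)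
      _ = M ^ 2 := by field_simp
  have key2 : ∀ N, ∑ n ∈ range N, ‖e n‖ ^ 2 ≤ M ^ 2 := by
    intro N
    have hc : Continuous fun r : ℝ => ∑ n ∈ range N, ‖e n‖ ^ 2 * r ^ (2 * n) := by fun_prop
    have ht : Filter.Tendsto (fun r : ℝ => ∑ n ∈ range N, ‖e n‖ ^ 2 * r ^ (2 * n))
        (nhdsWithin 1 (Set.Iio 1)) (nhds (∑ n ∈ range N, ‖e n‖ ^ 2)) := by
      have := (hc.tendsto 1).mono_left (nhdsWithin_le_nhds (s := Set.Iio 1))
      simpa using this
    refine le_of_tendsto ht ?_
    filter_upwards [Ioo_mem_nhdsLT (show (0:ℝ) < 1 by norm_num)] with r hr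
    exact key r hr.1.le hr.2 N
  rw [ENNReal.tsum_eq_iSup_nat]
  refine iSup_le fun N => ?_
  rw [← ENNReal.ofReal_sum_of_nonneg (fun n _ => by positivity)]
  exact ENNReal.ofReal_le_ofReal (key2 N)

end Pool.Agent.Helper655.BD.J8
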