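import Mathlib
import Pool.Agent.Helper655.BDDefs
import Pool.Agent.Helper655.BDJ6
import Pool.Agent.Helper655.BDJ7
import Pool.Agent.Helper655.BDJ8

set_option autoImplicit false
open Finset

namespace Pool.Agent.Helper655.BD.J10

open Pool.Agent.Helper655.BD.J6 (expSeq_map)
open Pool.Agent.Helper655.BD.J7 (expSeq_hasSum)
open Pool.Agent.Helper655.BD.J8 (bessel_bdd)





theorem MM_mono_succ (k : ℕ) : 2 * MM k ≤ MM (k + 1) := by
  unfold MM nn
  rw [← pow_succ']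
  refine Nat.pow_le_pow_right (by norm_num) ?_
  have h1 : 2 ^ (k + 12) ≤ 2 ^ (k + 1 + 12) := Nat.pow_le_pow_right (by norm_num) (by omega)
  have h2 : (k + 1 + 1) ^ 2 = (k + 1) ^ 2 + 2 * (k + 1) + 1 := by ring
  have h3 : 1 ≤ (k + 1) ^ 2 := Nat.one_le_pow _ _ (by omega)
  have h4 : 0 < 2 ^ (k + 12) := by positivity
  omega

theorem MM_pos (k : ℕ) : 0 < MM k := by unfold MM; positivity

theorem MM_lt_succ (k : ℕ) : MM k < MM (k + 1) := by
  have := MM_mono_succ k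
  have := MM_pos k
  omega

theorem MM_strictMono : StrictMono MM := strictMono_nat_of_lt_succ MM_lt_succ

theorem nn_mono_succ (j : ℕ) : nn j ≤ nn (j + 1) := by
  unfold nn; exact Nat.pow_le_pow_right (by norm_num) (by omega)

attribute [local irreducible] MM nn

/-- block bound -/
noncomputable def vv (j : ℕ) : ℝ := 2 ^ 3 / 2 ^ (nn j + 5 * (j + 1) ^ 2)

theorem vv_pos (j : ℕ) : 0 < vv j := by unfold vv; positivity

theorem vv_succ (j : ℕ) : 2 * vv (j + 1) ≤ vv j := by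
  unfold vv
  have h1 : nn j ≤ nn (j + 1) := nn_mono_succ j
  have h2 : (j + 1 + 1) ^ 2 = (j + 1) ^ 2 + 2 * (j + 1) + 1 := by ring
  have h3 : (2:ℝ) ^ (nn j + 5 * (j + 1) ^ 2 + 1) ≤ 2 ^ (nn (j + 1) + 5 * (j + 1 + 1) ^ 2) :=
    pow_le_pow_right₀ (by norm_num) (by omega)
  rw [pow_succ] at h3
  have p1 : (0:ℝ) < 2 ^ (nn j + 5 * (j + 1) ^ 2) := by positivity
  have p2 : (0:ℝ) < 2 ^ (nn (j + 1) + 5 * (j + 1 + 1) ^ 2) := by positivity
  rw [mul_div_assoc', div_le_div_iff₀ p2 p1]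
  nlinarith

theorem vv_eq (k : ℕ) : 2 * vv (k + 1) = dd (k + 1) / 2 := by
  unfold vv dd
  ring_nf

theorem block_bound {gc : ℕ → ℂ} (hD : Data gc) (j : ℕ) (hj : 1 ≤ j) :
    ∑ n ∈ Ico (MM j) (MM (j + 1)), ‖gc n‖ / ((n : ℝ) + 1) ≤ vv j := by
  have hM : (0:ℝ) < MM j := by exact_mod_cast MM_pos j
  have h1 : ∑ n ∈ Ico (MM j) (MM (j + 1)), ‖gc n‖ / ((n : ℝ) + 1)
      ≤ ∑ n ∈ Ico (MM j) (MM (j + 1)), ‖gc n‖ / (MM j : ℝ) := by
    refine Finset.sum_le_sum fun n hn => ?_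
    have hn' : MM j ≤ n := (Finset.mem_Ico.1 hn).1
    have : (MM j : ℝ) ≤ n := by exact_mod_cast hn'
    exact div_le_div_of_nonneg_left (norm_nonneg _) hM (by linarith)
  rw [← Finset.sum_div] at h1
  refine h1.trans ?_
  have h2 := hD.blk j hj
  have h3 : (∑ n ∈ Ico (MM j) (MM (j + 1)), ‖gc n‖) / (MM j : ℝ) ≤
      2 ^ (25 * (j + 1) ^ 2 + 2) / (MM j : ℝ) := div_le_div_of_nonneg_right h2 hM.le
  refine h3.trans ?_
  have h4 : (MM j : ℝ) = 2 ^ (nn j + 30 * (j + 1) ^ 2 - 1) := by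
    unfold MM; push_cast; rfl
  rw [h4]
  unfold vv
  have hq : 1 ≤ (j + 1) ^ 2 := Nat.one_le_pow _ _ (by omega)
  have p1 : (0:ℝ) < 2 ^ (nn j + 30 * (j + 1) ^ 2 - 1) := by positivity
  have p2 : (0:ℝ) < 2 ^ (nn j + 5 * (j + 1) ^ 2) := by positivity
  rw [div_le_div_iff₀ p1 p2, ← pow_add, ← pow_add]
  exact le_of_eq (by congr 1; omega)

theorem partial_bound {gc : ℕ → ℂ} (hD : Data gc) (k : ℕ) (d : ℕ) :
    ∑ n ∈ Ico (MM (k + 1)) (MM (k + 1 + d)), ‖gc n‖ / ((n : ℝ) + 1)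
      ≤ 2 * vv (k + 1) - 2 * vv (k + 1 + d) := by
  induction d with
  | zero => simp
  | succ d ih =>
    have hle : MM (k + 1) ≤ MM (k + 1 + d) := MM_strictMono.monotone (by omega)
    have hle2 : MM (k + 1 + d) ≤ MM (k + 1 + (d + 1)) := MM_strictMono.monotone (by omega)
    rw [← Finset.sum_Ico_consecutive _ hle hle2]
    have h1 := block_bound hD (k + 1 + d) (by omega)
    have h2 := vv_succ (k + 1 + d)
    have e : k + 1 + (d + 1) = k + 1 + d + 1 := by omega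
    rw [e]
    linarith

theorem sum_tail_bound {gc : ℕ → ℂ} (hD : Data gc) (k N : ℕ) :
    ∑ i ∈ range N, ‖gc (i + MM (k + 1))‖ / ((i + MM (k + 1) : ℕ) + 1 : ℝ) ≤ dd (k + 1) / 2 := by
  have h1 : ∑ i ∈ range N, ‖gc (i + MM (k + 1))‖ / ((i + MM (k + 1) : ℕ) + 1 : ℝ)
      = ∑ n ∈ Ico (MM (k + 1)) (MM (k + 1) + N), ‖gc n‖ / ((n : ℝ) + 1) := by
    rw [Finset.sum_Ico_eq_sum_range]
    simp only [Nat.add_sub_cancel_left]
    refine Finset.sum_congr rfl fun i _ => ?_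
    rw [Nat.add_comm (MM (k + 1)) i]
  rw [h1]
  have h2 : MM (k + 1) + N ≤ MM (k + 1 + N) := by
    induction N with
    | zero => simp
    | succ N ih =>
      have e : k + 1 + (N + 1) = k + 1 + N + 1 := by omega
      rw [e]
      have h3 := MM_lt_succ (k + 1 + N)
      have h4 := ih (by
        rw [Finset.sum_Ico_eq_sum_range]
        simp only [Nat.add_sub_cancel_left]
        refine Finset.sum_congr rfl fun i _ => ?_
        rw [Nat.add_comm (MM (k + 1)) i])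
      omega
  have h3 : ∑ n ∈ Ico (MM (k + 1)) (MM (k + 1) + N), ‖gc n‖ / ((n : ℝ) + 1)
      ≤ ∑ n ∈ Ico (MM (k + 1)) (MM (k + 1 + N)), ‖gc n‖ / ((n : ℝ) + 1) := by
    refine Finset.sum_le_sum_of_subset_of_nonneg (Finset.Ico_subset_Ico le_rfl h2) ?_
    intro i _ _
    positivity
  have h4 := partial_bound hD k N
  have h5 := vv_pos (k + 1 + N)
  have h6 := vv_eq k
  linarith

/-- TARGET 1: absolute summability and tails -/
theorem tail_sum {gc : ℕ → ℂ} (hD : Data gc) :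
    (Summable fun n : ℕ => ‖gc n‖ / (n + 1)) ∧
    ∀ k : ℕ, ∑' n : ℕ, ‖gc (n + MM (k + 1))‖ / ((n + MM (k + 1) : ℕ) + 1) ≤ dd (k + 1) / 2 := by
  have hs : ∀ k : ℕ, Summable fun n : ℕ => ‖gc (n + MM (k + 1))‖ / ((n + MM (k + 1) : ℕ) + 1 : ℝ) := by
    intro k
    exact summable_of_sum_range_le (fun n => by positivity) (sum_tail_bound hD k)
  refine ⟨?_, fun k => ?_⟩
  · have h := hs 0
    exact (summable_nat_add_iff (f := fun n : ℕ => ‖gc n‖ / ((n : ℝ) + 1)) (MM (0 + 1))).1 h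
  · exact Real.tsum_le_of_sum_range_le (fun n => by positivity) (sum_tail_bound hD k)

/-- TARGET 2: real parts of the partial sums, on the closed bidisc -/
theorem re_slice {gc : ℕ → ℂ} (hD : Data gc) (k : ℕ) (w x : ℂ) (hw : ‖w‖ ≤ 1) (hx : ‖x‖ ≤ 1) :
    |(∑ n ∈ range (MM (k + 1)), gc n / (n + 1) * (∑ j ∈ range (n + 1), w ^ j) * x ^ n).re|
      ≤ bb k := by
  generalize hM : MM (k + 1) = M
  have hre : ∀ z : ℂ, ‖z‖ ≤ 1 → |(∑ n ∈ range M, gc n * z ^ n).re| ≤ bb k := by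
    intro z hz
    have := hD.re k z hz
    unfold gk at this
    rwa [hM] at this
  by_cases hab : x = x * w
  · have h1 : ∑ n ∈ range M, gc n / (n + 1) * (∑ j ∈ range (n + 1), w ^ j) * x ^ n
        = ∑ n ∈ range M, gc n * x ^ n := by
      refine Finset.sum_congr rfl fun n _ => ?_
      have hn : (n : ℂ) + 1 ≠ 0 := Nat.cast_add_one_ne_zero n
      by_cases hx0 : x = 0
      · rcases Nat.eq_zero_or_pos n with h | h
        · subst h; simp
        · subst hx0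
          rw [zero_pow (by omega)]
          ring
      · have hw1 : w = 1 := by
          have : x * (1 - w) = 0 := by rw [mul_sub, mul_one, ← hab, sub_self]
          rcases mul_eq_zero.1 this with h | h
          · exact absurd h hx0
          · exact (sub_eq_zero.1 h).symm
        subst hw1
        simp only [one_pow, Finset.sum_const, Finset.card_range, nsmul_eq_mul, mul_one]
        push_cast
        field_simp
    rw [h1]
    exact hre x hx
  · have hne : x - x * w ≠ 0 := sub_ne_zero.2 hab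
    obtain ⟨b, hb⟩ : ∃ b : ℂ, b = x * w := ⟨_, rfl⟩
    rw [← hb] at hab hne
    have hbn : ‖b‖ ≤ 1 := by
      rw [hb, norm_mul]
      nlinarith [norm_nonneg x, norm_nonneg w]
    -- the primitive
    let Γ : ℂ → ℂ := fun z => ∑ n ∈ range M, gc n / (n + 1) * z ^ (n + 1)
    have hsum : ∑ n ∈ range M, gc n / (n + 1) * (∑ j ∈ range (n + 1), w ^ j) * x ^ n
        = (Γ x - Γ b) / (x - b) := by
      rw [eq_div_iff hne]
      simp only [Γ]
      rw [← Finset.sum_sub_distrib, Finset.sum_mul]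
      refine Finset.sum_congr rfl fun n _ => ?_
      have hg := mul_geom_sum w (n + 1)
      have : (∑ j ∈ range (n + 1), w ^ j) * x ^ n * (x - b) = x ^ (n + 1) - b ^ (n + 1) := by
        rw [hb, mul_pow, pow_succ x n]
        linear_combination (-(x ^ n * x)) * hg
      linear_combination (gc n / (n + 1)) * this
    rw [hsum]
    let φ : ℝ → ℝ := fun s => (Γ (b + s * (x - b)) / (x - b)).re
    have hder : ∀ s : ℝ, HasDerivAt φ
        (∑ n ∈ range M, gc n * (b + s * (x - b)) ^ n).re s := by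
      intro s
      have h1 : HasDerivAt (fun z : ℂ => Γ z) (∑ n ∈ range M, gc n * (b + s * (x - b)) ^ n)
          (b + s * (x - b)) := by
        simp only [Γ]
        refine HasDerivAt.fun_sum fun n _ => ?_
        have h := ((hasDerivAt_pow (n + 1) (b + s * (x - b))).const_mul (gc n / (n + 1)))
        refine h.congr_deriv ?_
        have hn : (n : ℂ) + 1 ≠ 0 := Nat.cast_add_one_ne_zero n
        rw [Nat.add_sub_cancel]
        push_cast
        field_simp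
      have h2 : HasDerivAt (fun s : ℝ => b + (s : ℂ) * (x - b)) (x - b) s := by
        have := ((Complex.ofRealCLM.hasDerivAt (x := s)).mul_const (x - b)).const_add b
        simpa using this
      have h3 : HasDerivAt (fun s : ℝ => Γ (b + (s : ℂ) * (x - b)) / (x - b))
          ((∑ n ∈ range M, gc n * (b + s * (x - b)) ^ n) * (x - b) / (x - b)) s :=
        (HasDerivAt.comp (𝕜 := ℝ) (𝕜' := ℂ) s h1 h2).div_const _
      rw [mul_div_cancel_right₀ _ hne] at h3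
      exact Complex.reCLM.hasFDerivAt.comp_hasDerivAt s h3
    have hbound : ∀ s ∈ Set.Ico (0:ℝ) 1, ‖(∑ n ∈ range M, gc n * (b + s * (x - b)) ^ n).re‖ ≤ bb k := by
      intro s hs
      refine hre _ ?_
      have h1 : b + s * (x - b) = ((1 - s : ℝ) : ℂ) * b + (s : ℂ) * x := by push_cast; ring
      rw [h1]
      refine (norm_add_le _ _).trans ?_
      rw [norm_mul, norm_mul, Complex.norm_real, Complex.norm_real,
        Real.norm_of_nonneg (by linarith [hs.2] : (0:ℝ) ≤ 1 - s), Real.norm_of_nonneg hs.1]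
      nlinarith [hs.1, hs.2, norm_nonneg x, norm_nonneg b]
    have h := norm_image_sub_le_of_norm_deriv_le_segment_01' (f := φ)
      (f' := fun s => (∑ n ∈ range M, gc n * (b + s * (x - b)) ^ n).re)
      (C := bb k) (fun s _ => (hder s).hasDerivWithinAt) hbound
    have e : (Γ x - Γ b) / (x - b) = Γ (b + (1:ℝ) * (x - b)) / (x - b) - Γ (b + (0:ℝ) * (x - b)) / (x - b) := by
      rw [← sub_div]
      congr 3 <;> (push_cast; ring)
    rw [e, Complex.sub_re]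
    exact h

theorem geom_norm_le (w : ℂ) (hw : ‖w‖ = 1) (hw1 : w ≠ 1) (n : ℕ) :
    ‖∑ j ∈ range (n + 1), w ^ j‖ ≤ 2 / ‖1 - w‖ := by
  have hpos : 0 < ‖1 - w‖ := norm_pos_iff.2 (sub_ne_zero.2 (Ne.symm hw1))
  rw [le_div_iff₀ hpos, ← norm_mul]
  have : (∑ j ∈ range (n + 1), w ^ j) * (1 - w) = 1 - w ^ (n + 1) := geom_sum_mul_neg w (n + 1)
  rw [this]
  refine (norm_sub_le _ _).trans ?_
  rw [norm_one, norm_pow, hw, one_pow]
  norm_num

theorem term_bound {gc : ℕ → ℂ} (w x : ℂ) (hw : ‖w‖ = 1) (hw1 : w ≠ 1) (hx : ‖x‖ ≤ 1) (n : ℕ) :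
    ‖gc n / (n + 1) * (∑ j ∈ range (n + 1), w ^ j)‖ * ‖x‖ ^ n
      ≤ 2 / ‖1 - w‖ * (‖gc n‖ / ((n : ℝ) + 1)) := by
  have h1 := geom_norm_le w hw hw1 n
  have h2 : ‖x‖ ^ n ≤ 1 := pow_le_one₀ (norm_nonneg _) hx
  have h3 : ‖gc n / ((n : ℂ) + 1)‖ = ‖gc n‖ / ((n : ℝ) + 1) := by
    rw [norm_div]
    congr 1
    have : ((n : ℂ) + 1) = ((n + 1 : ℕ) : ℂ) := by push_cast; rfl
    rw [this, Complex.norm_natCast]
    push_cast
    rfl
  rw [norm_mul, h3]
  have h4 : 0 ≤ ‖gc n‖ / ((n : ℝ) + 1) := by positivity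
  calc ‖gc n‖ / ((n : ℝ) + 1) * ‖∑ j ∈ range (n + 1), w ^ j‖ * ‖x‖ ^ n
      ≤ ‖gc n‖ / ((n : ℝ) + 1) * ‖∑ j ∈ range (n + 1), w ^ j‖ * 1 := by gcongr
    _ ≤ ‖gc n‖ / ((n : ℝ) + 1) * (2 / ‖1 - w‖) * 1 := by gcongr
    _ = 2 / ‖1 - w‖ * (‖gc n‖ / ((n : ℝ) + 1)) := by ring

/-- TARGET 3: closeness of partial sums off the diagonal -/
theorem slice_close {gc : ℕ → ℂ} (hD : Data gc) (w x : ℂ) (hw : ‖w‖ = 1) (hw1 : w ≠ 1)
    (hx : ‖x‖ ≤ 1) :
    (Summable fun n : ℕ => ‖gc n / (n + 1) * (∑ j ∈ range (n + 1), w ^ j)‖ * ‖x‖ ^ n) ∧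
    ∀ k : ℕ, ‖(∑' n : ℕ, gc n / (n + 1) * (∑ j ∈ range (n + 1), w ^ j) * x ^ n) -
      ∑ n ∈ range (MM (k + 1)), gc n / (n + 1) * (∑ j ∈ range (n + 1), w ^ j) * x ^ n‖
      ≤ dd (k + 1) / ‖1 - w‖ := by
  obtain ⟨hs, ht⟩ := tail_sum hD
  have hS : Summable fun n : ℕ => ‖gc n / (n + 1) * (∑ j ∈ range (n + 1), w ^ j)‖ * ‖x‖ ^ n := by
    refine Summable.of_nonneg_of_le (fun n => by positivity) (term_bound w x hw hw1 hx) ?_
    exact hs.mul_left _
  refine ⟨hS, fun k => ?_⟩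
  have hS' : Summable fun n : ℕ => gc n / (n + 1) * (∑ j ∈ range (n + 1), w ^ j) * x ^ n := by
    refine Summable.of_norm ?_
    refine hS.congr fun n => ?_
    rw [norm_mul (_ * _) (x ^ n), norm_pow]
  have ht' := ht k
  revert ht'
  generalize MM (k + 1) = M
  intro ht'
  rw [← hS'.sum_add_tsum_nat_add M, add_sub_cancel_left]
  have hS2 : Summable fun n : ℕ =>
      ‖gc (n + M) / ((n + M : ℕ) + 1) * (∑ j ∈ range (n + M + 1), w ^ j) * x ^ (n + M)‖ := by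
    have := (summable_nat_add_iff M).2 hS'.norm
    exact this
  have hs2 : Summable fun n : ℕ => ‖gc (n + M)‖ / ((n + M : ℕ) + 1 : ℝ) :=
    (summable_nat_add_iff (f := fun n : ℕ => ‖gc n‖ / ((n : ℝ) + 1)) M).2 hs
  refine (norm_tsum_le_tsum_norm hS2).trans ?_
  have h1 : ∑' n : ℕ, ‖gc (n + M) / ((n + M : ℕ) + 1) * (∑ j ∈ range (n + M + 1), w ^ j) * x ^ (n + M)‖
      ≤ ∑' n : ℕ, 2 / ‖1 - w‖ * (‖gc (n + M)‖ / ((n + M : ℕ) + 1 : ℝ)) := by
    refine hS2.tsum_le_tsum ?_ (hs2.mul_left _)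
    intro n
    have := term_bound (gc := gc) w x hw hw1 hx (n + M)
    rw [norm_mul (_ * _) (x ^ (n + M)), norm_pow]
    exact this
  refine h1.trans ?_
  rw [tsum_mul_left]
  have hpos : 0 < ‖1 - w‖ := norm_pos_iff.2 (sub_ne_zero.2 (Ne.symm hw1))
  calc 2 / ‖1 - w‖ * ∑' n : ℕ, ‖gc (n + M)‖ / ((n + M : ℕ) + 1 : ℝ)
      ≤ 2 / ‖1 - w‖ * (dd (k + 1) / 2) := by gcongr
    _ = dd (k + 1) / ‖1 - w‖ := by ring

theorem dd_small (d : ℝ) (hd : 0 < d) : ∃ k, dd k ≤ d := by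
  obtain ⟨n, hn⟩ := exists_pow_lt_of_lt_one (show 0 < d / 2 ^ 5 by positivity)
    (show (1 / 2 : ℝ) < 1 by norm_num)
  refine ⟨n + 1, ?_⟩
  show 2 ^ 5 / 2 ^ (nn (n + 1) + 5 * (n + 2) ^ 2) ≤ d
  have h1 : n ≤ nn (n + 1) + 5 * (n + 2) ^ 2 := by nlinarith
  have h2 : (2:ℝ) ^ n ≤ 2 ^ (nn (n + 1) + 5 * (n + 2) ^ 2) := pow_le_pow_right₀ (by norm_num) h1
  have h3 : (2:ℝ) ^ 5 / 2 ^ (nn (n + 1) + 5 * (n + 2) ^ 2) ≤ 2 ^ 5 / 2 ^ n :=
    div_le_div_of_nonneg_left (by positivity) (by positivity) h2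
  refine h3.trans ?_
  have h4 : (2:ℝ) ^ 5 / 2 ^ n = 2 ^ 5 * (1 / 2) ^ n := by
    rw [one_div, inv_pow]; rfl
  rw [h4]
  have h5 := hn.le
  rw [le_div_iff₀ (by positivity)] at h5
  linarith

/-- TARGET 4 -/
theorem slice_bound {gc : ℕ → ℂ} (hD : Data gc) (l : ℝ) (hl : |l| ≤ 1) (w : ℂ) (hw : ‖w‖ = 1)
    (hw1 : w ≠ 1) :
    ∑' n, ENNReal.ofReal (‖(expSeq (AA l gc) n).eval w‖ ^ 2) ≤ Th w := by
  have hpos : 0 < ‖1 - w‖ := norm_pos_iff.2 (sub_ne_zero.2 (Ne.symm hw1))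
  -- choose k
  obtain ⟨k, hk1, hk2⟩ : ∃ k, ‖1 - w‖ < dd k ∧ dd (k + 1) ≤ ‖1 - w‖ := by
    classical
    have hex := dd_small _ hpos
    have h0 : Nat.find hex ≠ 0 := by
      intro h
      have := Nat.find_spec hex
      rw [h] at this
      have h2 : ‖1 - w‖ ≤ 2 := by
        refine (norm_sub_le _ _).trans ?_
        rw [norm_one, hw]; norm_num
      have h3 : dd 0 = 3 := rfl
      linarith
    obtain ⟨m, hm⟩ := Nat.exists_eq_succ_of_ne_zero h0
    refine ⟨m, ?_, ?_⟩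
    · have := Nat.find_min hex (m := m) (by omega)
      exact lt_of_not_ge this
    · have := Nat.find_spec hex
      rw [hm] at this
      exact this
  let A : ℕ → ℂ := fun n => l * (gc n / (n + 1) * ∑ j ∈ range (n + 1), w ^ j)
  have hev : ∀ n, (AA l gc n).eval w = A n := by
    intro n
    simp only [AA, A, Polynomial.eval_mul, Polynomial.eval_C, Polynomial.eval_finsetSum,
      Polynomial.eval_pow, Polynomial.eval_X]
    ring
  have he : ∀ n, (expSeq (AA l gc) n).eval w = expSeq A n := by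
    intro n
    have h := expSeq_map (Polynomial.aeval w : Polynomial ℂ →ₐ[ℂ] ℂ) (AA l gc) n
    have h2 : (fun m => (Polynomial.aeval w : Polynomial ℂ →ₐ[ℂ] ℂ) (AA l gc m)) = A := by
      funext m
      rw [Polynomial.coe_aeval_eq_eval]
      exact hev m
    rw [h2, Polynomial.coe_aeval_eq_eval] at h
    exact h
  have hA0 : A 0 = 0 := by
    have : gc 0 = 0 := hD.low 0 (MM_pos 1)
    simp [A, this]
  have hAs : ∀ x : ℂ, ‖x‖ ≤ 1 → Summable fun n => ‖A n‖ * ‖x‖ ^ n := by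
    intro x hx
    have h := (slice_close hD w x hw hw1 hx).1.mul_left ‖(l : ℂ)‖
    refine h.congr fun n => ?_
    simp only [A]
    rw [norm_mul (l : ℂ)]
    ring
  have hG : ∀ x : ℂ, ‖x‖ ≤ 1 → ‖Complex.exp (∑' n, A n * x ^ n)‖ ≤ Real.exp (bb k + 1) := by
    intro x hx
    rw [Complex.norm_exp]
    refine Real.exp_le_exp.2 ?_
    have h1 : ∑' n, A n * x ^ n = (l : ℂ) * ∑' n : ℕ, gc n / (n + 1) * (∑ j ∈ range (n + 1), w ^ j) * x ^ n := by
      rw [← tsum_mul_left]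
      refine tsum_congr fun n => ?_
      simp only [A]
      ring
    rw [h1, Complex.re_ofReal_mul]
    set G := ∑' n : ℕ, gc n / (n + 1) * (∑ j ∈ range (n + 1), w ^ j) * x ^ n with hGdef
    have h2 := re_slice hD k w x hw.le hx
    have h3 := (slice_close hD w x hw hw1 hx).2 k
    rw [← hGdef] at h3
    set Pk := ∑ n ∈ range (MM (k + 1)), gc n / (n + 1) * (∑ j ∈ range (n + 1), w ^ j) * x ^ n
    have h4 : |G.re - Pk.re| ≤ dd (k + 1) / ‖1 - w‖ := by
      rw [← Complex.sub_re]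
      exact (Complex.abs_re_le_norm _).trans h3
    have h5 : dd (k + 1) / ‖1 - w‖ ≤ 1 := (div_le_one hpos).2 hk2
    have h6 : |G.re| ≤ bb k + 1 := by
      have : G.re = Pk.re + (G.re - Pk.re) := by ring
      rw [this]
      refine (abs_add_le _ _).trans ?_
      linarith
    calc l * G.re ≤ |l * G.re| := le_abs_self _
      _ = |l| * |G.re| := abs_mul _ _
      _ ≤ 1 * |G.re| := by gcongr
      _ ≤ bb k + 1 := by linarith
  have hmain := bessel_bdd (expSeq A) (Real.exp (bb k + 1))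
    (by
      intro r hr0 hr1
      have hn : ‖(r : ℂ)‖ = r := by rw [Complex.norm_real, Real.norm_of_nonneg hr0]
      have := (expSeq_hasSum A (r : ℂ) hA0 (hAs _ (by rw [hn]; exact hr1.le))).1
      rw [hn] at this
      exact this)
    (by
      intro x hx
      rw [(expSeq_hasSum A x hA0 (hAs x hx.le)).2.tsum_eq]
      exact hG x hx.le)
  have e1 : ∑' n, ENNReal.ofReal (‖(expSeq (AA l gc) n).eval w‖ ^ 2)
      = ∑' n, ENNReal.ofReal (‖expSeq A n‖ ^ 2) := tsum_congr fun n => by rw [he n]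
  rw [e1]
  refine hmain.trans ?_
  have e2 : Real.exp (bb k + 1) ^ 2 = Real.exp (2 * (bb k + 1)) := by
    rw [← Real.exp_nat_mul]; norm_num
  rw [e2]
  unfold Th
  refine le_trans ?_ (ENNReal.le_tsum k)
  rw [if_pos hk1]

end Pool.Agent.Helper655.BD.J10
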