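import Mathlib
import Pool.Agent.Helper655.BDDefs
import Pool.Agent.Helper655.BDJ10

set_option autoImplicit false
open Finset

namespace Pool.Agent.Helper655.BD.J15

open Pool.Agent.Helper655.BD.J10 (tail_sum)



lemma geo_bd (r : ℝ) (h0 : 0 ≤ r) (h1 : r < 1) (n : ℕ) : ((n:ℝ) + 1) * r ^ n ≤ 1 / (1 - r) := by
  have h2 : 0 < 1 - r := by linarith
  have h3 : ((n:ℝ) + 1) * r ^ n ≤ ∑ m ∈ range (n + 1), r ^ m := by
    have : ∑ m ∈ range (n + 1), r ^ n ≤ ∑ m ∈ range (n + 1), r ^ m := by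
      apply Finset.sum_le_sum
      intro m hm
      have : m ≤ n := by simpa [Nat.lt_succ_iff] using hm
      exact pow_le_pow_of_le_one h0 h1.le this
    simpa using this
  refine h3.trans ?_
  rw [le_div_iff₀ h2, geom_sum_mul_neg]
  have : 0 ≤ r ^ (n+1) := pow_nonneg h0 _
  linarith

lemma term_bd (gc : ℕ → ℂ) (r : ℝ) (h0 : 0 ≤ r) (h1 : r < 1) (n : ℕ) :
    ‖gc n‖ * r ^ n ≤ (1 / (1 - r)) * (‖gc n‖ / ((n:ℝ) + 1)) := by
  have h := geo_bd r h0 h1 n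
  have hn : (0:ℝ) < (n:ℝ) + 1 := by positivity
  have h4 : ‖gc n‖ * r ^ n = (((n:ℝ) + 1) * r ^ n) * (‖gc n‖ / ((n:ℝ) + 1)) := by
    field_simp
  rw [h4]
  exact mul_le_mul_of_nonneg_right h (by positivity)

/-- TARGET 1: the exponent converges absolutely in the disc -/
theorem gc_summable {gc : ℕ → ℂ} (hD : Data gc) (r : ℝ) (h0 : 0 ≤ r) (h1 : r < 1) :
    Summable fun n : ℕ => ‖gc n‖ * r ^ n := by
  refine Summable.of_nonneg_of_le (fun n => by positivity) (fun n => term_bd gc r h0 h1 n) ?_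
  exact (tail_sum hD).1.mul_left _

lemma MM_mono (k : ℕ) : MM (k + 1) ≤ MM (k + 1 + 1) := by
  unfold MM nn
  apply Nat.pow_le_pow_right (by norm_num)
  have h1 : 2 ^ (k + 1 + 12) ≤ 2 ^ (k + 1 + 1 + 12) := Nat.pow_le_pow_right (by norm_num) (by omega)
  have h2 : 30 * (k + 1 + 1) ^ 2 ≤ 30 * (k + 1 + 1 + 1) ^ 2 :=
    Nat.mul_le_mul_left _ (Nat.pow_le_pow_left (by omega) 2)
  omega

lemma two_add (a b : ℕ) (h : a + 1 ≤ b) (x y : ℝ) (hx : x ≤ 2 ^ a) (hy : y ≤ 2 ^ b) :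
    x + y ≤ 2 ^ (b + 1) := by
  have h3 : (2:ℝ) ^ a ≤ 2 ^ b := pow_le_pow_right₀ (by norm_num) (by omega)
  rw [pow_succ]
  linarith

lemma ex1 (k : ℕ) : 25 * (k + 1) ^ 2 + 3 + 1 ≤ 25 * (k + 1 + 1) ^ 2 + 2 := by
  have : (k + 1 + 1) ^ 2 = (k + 1) ^ 2 + (2 * k + 3) := by ring
  rw [this]
  generalize (k + 1) ^ 2 = z
  omega

lemma low_sum {gc : ℕ → ℂ} (hD : Data gc) (k : ℕ) :
    ∑ n ∈ range (MM (k + 1)), ‖gc n‖ ≤ 2 ^ (25 * (k + 1) ^ 2 + 3) := by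
  induction k with
  | zero =>
    have : ∑ n ∈ range (MM (0 + 1)), ‖gc n‖ = 0 := by
      apply Finset.sum_eq_zero
      intro n hn
      rw [hD.low n (by simpa using hn), norm_zero]
    rw [this]; positivity
  | succ k ih =>
    rw [← Finset.sum_range_add_sum_Ico _ (MM_mono k)]
    exact two_add _ _ (ex1 k) _ _ ih (hD.blk (k + 1) (by omega))

lemma one_sub_pow_le (r : ℝ) (h0 : 0 ≤ r) (n : ℕ) : 1 - r ^ n ≤ n * (1 - r) := by
  have := one_add_mul_le_pow (a := r - 1) (by linarith) n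
  have h2 : 1 + (r - 1) = r := by ring
  rw [h2] at this
  nlinarith

lemma ee_norm (t : ℝ) : ‖ee t‖ = 1 := by
  unfold ee
  exact Complex.norm_exp_ofReal_mul_I t

lemma kk_bd (k : ℕ) : 100 * (k + 1) ^ 2 ≤ 2 ^ (k + 12) := by
  induction k with
  | zero => norm_num
  | succ k ih =>
    have e : 2 ^ (k + 1 + 12) = 2 * 2 ^ (k + 12) := by ring
    rw [e]
    rcases Nat.lt_or_ge k 2 with h | h
    · interval_cases k <;> norm_num
    · have : 100 * (k + 1 + 1) ^ 2 ≤ 2 * (100 * (k + 1) ^ 2) := by nlinarith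
      exact this.trans (Nat.mul_le_mul_left 2 ih)

lemma nn_succ (k : ℕ) : nn (k + 1) = 2 * nn k := by
  unfold nn; ring

lemma ex2 (k : ℕ) : nn k + 100 * (k + 1) ^ 2 + 5 ≤ nn (k + 1) + 5 * (k + 2) ^ 2 + 1 := by
  rw [nn_succ]
  have h8 : 100 * (k + 1) ^ 2 ≤ nn k := kk_bd k
  have h9 : (k + 2) ^ 2 = k ^ 2 + (4 * k + 4) := by ring
  rw [h9]
  generalize nn k = m at h8 ⊢
  generalize (k + 1) ^ 2 = z at h8 ⊢
  generalize k ^ 2 = z' at h8 ⊢
  omega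

lemma ex3 (k m : ℕ) (hk : 1 ≤ k) : 25 * (k + 1) ^ 2 + 3 + (m + 30 * (k + 1) ^ 2 + k + 24) ≤ m + 100 * (k + 1) ^ 2 := by
  nlinarith

lemma twob (a b c d : ℕ) (h : a + c ≤ b + d) : (2:ℝ) ^ a * (2 ^ c / 2 ^ b / 2 ^ d) ≤ 1 := by
  rw [div_div, ← pow_add, mul_div_assoc', ← pow_add, div_le_one (by positivity)]
  exact pow_le_pow_right₀ (by norm_num) h

lemma parta {gc : ℕ → ℂ} (hD : Data gc) (k : ℕ) (hk : 1 ≤ k) (t r : ℝ) (h0 : 0 ≤ r) (h1 : r < 1)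
    (hr : 1 - r = (1 / 2) ^ (nn k + 100 * (k + 1) ^ 2)) :
    ‖gk gc k (ee t) - gk gc k (r * ee t)‖ ≤ 1 := by
  unfold gk
  rw [← Finset.sum_sub_distrib]
  have hE : ∀ n ∈ range (MM (k + 1)), ‖gc n * ee t ^ n - gc n * (r * ee t) ^ n‖ ≤
      ‖gc n‖ * ((2:ℝ) ^ (nn k + 30 * (k + 1) ^ 2 + k + 24) * (1 - r)) := by
    intro n hn
    have hn' : n < MM (k + 1) := by simpa using hn
    by_cases hz : gc n = 0
    · simp [hz]
    have hle : n ≤ 2 ^ (nn k + 30 * (k + 1) ^ 2 + k + 24) := by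
      by_contra hc
      exact hz (hD.gap k n hk (by omega) hn')
    have hle' : (n:ℝ) ≤ (2:ℝ) ^ (nn k + 30 * (k + 1) ^ 2 + k + 24) := by exact_mod_cast hle
    have e1 : gc n * ee t ^ n - gc n * (r * ee t) ^ n = gc n * ((1 - (r:ℂ) ^ n) * ee t ^ n) := by
      rw [mul_pow]; ring
    rw [e1, norm_mul, norm_mul, norm_pow, ee_norm, one_pow, mul_one]
    apply mul_le_mul_of_nonneg_left _ (norm_nonneg _)
    have e2 : (1 - (r:ℂ) ^ n) = ((1 - r ^ n : ℝ) : ℂ) := by push_cast; ring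
    rw [e2, Complex.norm_real, Real.norm_eq_abs, abs_of_nonneg (by
      have : r ^ n ≤ 1 := pow_le_one₀ h0 h1.le
      linarith)]
    exact (one_sub_pow_le r h0 n).trans (mul_le_mul_of_nonneg_right hle' (by linarith))
  refine (norm_sum_le _ _).trans ((Finset.sum_le_sum hE).trans ?_)
  rw [← Finset.sum_mul]
  have h5 := low_sum hD k
  have h6 : (0:ℝ) ≤ (2:ℝ) ^ (nn k + 30 * (k + 1) ^ 2 + k + 24) * (1 - r) := by
    apply mul_nonneg (by positivity) (by linarith)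
  refine (mul_le_mul_of_nonneg_right h5 h6).trans ?_
  rw [hr, one_div, inv_pow, ← mul_assoc, ← pow_add, ← div_eq_mul_inv, div_le_one (by positivity)]
  exact pow_le_pow_right₀ (by norm_num) (ex3 k (nn k) hk)

lemma partb {gc : ℕ → ℂ} (hD : Data gc) (k : ℕ) (x : ℂ) (r : ℝ) (h0 : 0 ≤ r) (h1 : r < 1)
    (hx : ‖x‖ = r)
    (hr : 1 - r = (1 / 2) ^ (nn k + 100 * (k + 1) ^ 2)) :
    ‖∑' n : ℕ, gc (n + MM (k + 1)) * x ^ (n + MM (k + 1))‖ ≤ 1 := by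
  obtain ⟨hs, ht⟩ := tail_sum hD
  have hs1 : Summable fun n : ℕ => ‖gc (n + MM (k+1))‖ / (((n + MM (k + 1) : ℕ):ℝ) + 1) :=
    (summable_nat_add_iff (f := fun n : ℕ => ‖gc n‖ / ((n:ℝ) + 1)) (MM (k+1))).2 hs
  have hs2 : Summable fun n : ℕ => ‖gc (n + MM (k+1)) * x ^ (n + MM (k+1))‖ := by
    refine Summable.of_nonneg_of_le (fun n => by positivity) (fun n => ?_) (hs1.mul_left (1 / (1 - r)))
    rw [norm_mul, norm_pow, hx]
    exact term_bd gc r h0 h1 _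
  refine (norm_tsum_le_tsum_norm hs2).trans ?_
  have h3 : ∑' n : ℕ, ‖gc (n + MM (k+1)) * x ^ (n + MM (k+1))‖ ≤
      ∑' n : ℕ, (1 / (1 - r)) * (‖gc (n + MM (k+1))‖ / (((n + MM (k + 1) : ℕ):ℝ) + 1)) := by
    refine hs2.tsum_le_tsum (fun n => ?_) (hs1.mul_left (1 / (1 - r)))
    rw [norm_mul, norm_pow, hx]
    exact term_bd gc r h0 h1 _
  refine h3.trans ?_
  rw [tsum_mul_left]
  have h4 := ht k
  have h5 : (0:ℝ) ≤ 1 / (1 - r) := by
    apply div_nonneg zero_le_one; linarith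
  refine (mul_le_mul_of_nonneg_left h4 h5).trans ?_
  rw [hr]
  simp only [dd]
  rw [one_div (2:ℝ), inv_pow, one_div, inv_inv]
  have h9 := twob (nn k + 100 * (k + 1) ^ 2) (nn (k + 1) + 5 * (k + 2) ^ 2) 5 1 (ex2 k)
  rw [pow_one] at h9
  exact h9

/-- TARGET 2 -/
theorem fdich {gc : ℕ → ℂ} (hD : Data gc) (k : ℕ) (hk : 1 ≤ k) (t : ℝ) :
    ss k t ≤ Real.exp 6 * (1 / 2) ^ (nn k) * ‖ff gc (rr k * ee t)‖ ^ 2 := by
  have hrr : rr k = 1 - (1 / 2) ^ (nn k + 100 * (k + 1) ^ 2) := by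
    obtain ⟨j, rfl⟩ : ∃ j, k = j + 1 := ⟨k - 1, by omega⟩
    rfl
  set r := rr k with hrdef
  have hr : 1 - r = (1 / 2) ^ (nn k + 100 * (k + 1) ^ 2) := by rw [hrr]; ring
  have h0 : 0 ≤ r := by
    rw [hrr]
    have : (1 / 2 : ℝ) ^ (nn k + 100 * (k + 1) ^ 2) ≤ 1 := pow_le_one₀ (by norm_num) (by norm_num)
    linarith
  have h1 : r < 1 := by
    rw [hrr]
    have : (0:ℝ) < (1 / 2 : ℝ) ^ (nn k + 100 * (k + 1) ^ 2) := by positivity
    linarith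
  set x : ℂ := (r:ℂ) * ee t with hx
  have hxn : ‖x‖ = r := by
    rw [hx, norm_mul, ee_norm, mul_one, Complex.norm_real, Real.norm_eq_abs, abs_of_nonneg h0]
  have hsum : Summable fun n : ℕ => gc n * x ^ n := by
    apply Summable.of_norm
    have := gc_summable hD r h0 h1
    refine this.congr (fun n => ?_)
    rw [norm_mul, norm_pow, hxn]
  have hsplit := hsum.sum_add_tsum_nat_add (MM (k + 1))
  have ha := parta hD k hk t r h0 h1 hr
  have hb := partb hD k x r h0 h1 hxn hr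
  have hff : ‖ff gc x‖ ^ 2 = Real.exp (2 * (∑' n : ℕ, gc n * x ^ n).re) := by
    unfold ff
    rw [Complex.norm_exp, ← Real.exp_nat_mul]
    norm_num
  have hre : (gk gc k (ee t)).re - 2 ≤ (∑' n : ℕ, gc n * x ^ n).re := by
    rw [← hsplit, Complex.add_re]
    have e1 : (∑ n ∈ range (MM (k + 1)), gc n * x ^ n).re = (gk gc k x).re := rfl
    rw [e1]
    have e2 := Complex.abs_re_le_norm (gk gc k (ee t) - gk gc k x)
    have e3 := Complex.abs_re_le_norm (∑' n : ℕ, gc (n + MM (k + 1)) * x ^ (n + MM (k + 1)))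
    rw [Complex.sub_re] at e2
    have e4 := abs_le.1 (e2.trans ha)
    have e5 := abs_le.1 (e3.trans hb)
    linarith [e4.1, e4.2, e5.1, e5.2]
  refine (hD.dich k t hk).trans ?_
  rw [hff]
  have h10 : Real.exp 6 = Real.exp 2 * Real.exp 4 := by rw [← Real.exp_add]; norm_num
  have h11 : Real.exp (2 * (gk gc k (ee t)).re) ≤ Real.exp 4 * Real.exp (2 * (∑' n : ℕ, gc n * x ^ n).re) := by
    rw [← Real.exp_add]
    apply Real.exp_le_exp.2
    linarith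
  rw [h10]
  have h12 : (0:ℝ) ≤ Real.exp 2 * (1 / 2) ^ (nn k) := by positivity
  calc Real.exp 2 * (1 / 2) ^ (nn k) * Real.exp (2 * (gk gc k (ee t)).re)
      ≤ Real.exp 2 * (1 / 2) ^ (nn k) * (Real.exp 4 * Real.exp (2 * (∑' n : ℕ, gc n * x ^ n).re)) :=
        mul_le_mul_of_nonneg_left h11 h12
    _ = _ := by ring

end Pool.Agent.Helper655.BD.J15
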