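import Mathlib
import Pool.Agent.Helper655.BDDefs
import Pool.Agent.Helper655.BDJ11
import Pool.Agent.Helper655.BDJ12
import Pool.Agent.Helper655.BDJ13
import Pool.Agent.Helper655.BDJ14
import Pool.Agent.Helper655.BDJ15

set_option autoImplicit false
open Finset

namespace Pool.Agent.Helper655.BD.Core

open Pool.Agent.Helper655.BD.J11 (rtp_mul mean_mul_high)
open Pool.Agent.Helper655.BD.J12 (ps_rtp ps_bounds ps_cont ps_symm ps_mean)
open Pool.Agent.Helper655.BD.J13 (submean)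
open Pool.Agent.Helper655.BD.J14 (sig_props ss_rtp)
open Pool.Agent.Helper655.BD.J15 (gc_summable fdich)

/-! ### elementary facts on means -/

theorem mean_mono {φ ψ : ℝ → ℝ} (hφ : Continuous φ) (hψ : Continuous ψ) (h : ∀ t, φ t ≤ ψ t) :
    mean φ ≤ mean ψ := by
  unfold mean
  apply mul_le_mul_of_nonneg_left _ (by positivity)
  apply intervalIntegral.integral_mono_on (by positivity) (hφ.intervalIntegrable _ _)
    (hψ.intervalIntegrable _ _)
  intro t _
  exact h t

theorem mean_const (c : ℝ) : mean (fun _ => c) = c := by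
  unfold mean
  rw [intervalIntegral.integral_const, smul_eq_mul, sub_zero]
  have : (2 * Real.pi) ≠ 0 := by positivity
  field_simp

theorem mean_add {φ ψ : ℝ → ℝ} (hφ : Continuous φ) (hψ : Continuous ψ) :
    mean (fun t => φ t + ψ t) = mean φ + mean ψ := by
  unfold mean
  rw [intervalIntegral.integral_add (hφ.intervalIntegrable _ _) (hψ.intervalIntegrable _ _)]
  ring

theorem mean_sub {φ ψ : ℝ → ℝ} (hφ : Continuous φ) (hψ : Continuous ψ) :
    mean (fun t => φ t - ψ t) = mean φ - mean ψ := by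
  unfold mean
  rw [intervalIntegral.integral_sub (hφ.intervalIntegrable _ _) (hψ.intervalIntegrable _ _)]
  ring

theorem mean_cmul (c : ℝ) (φ : ℝ → ℝ) : mean (fun t => c * φ t) = c * mean φ := by
  unfold mean
  rw [intervalIntegral.integral_const_mul]
  ring

theorem mean_nonneg {φ : ℝ → ℝ} (hφ : Continuous φ) (h : ∀ t, 0 ≤ φ t) : 0 ≤ mean φ := by
  have := mean_mono continuous_const hφ h
  rwa [mean_const] at this

theorem ee_cont : Continuous ee := by
  unfold ee
  fun_prop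

theorem norm_ee (t : ℝ) : ‖ee t‖ = 1 := by
  unfold ee
  exact Complex.norm_exp_ofReal_mul_I t

/-! ### facts on real trigonometric polynomials -/

theorem rtp_mono {d d' : ℕ} {φ : ℝ → ℝ} (h : RTP d φ) (hd : d ≤ d') : RTP d' φ := by
  obtain ⟨Q, h1, h2⟩ := h
  exact ⟨Q, h1.trans hd, h2⟩

theorem rtp_const (c : ℝ) : RTP 0 (fun _ => c) :=
  ⟨Polynomial.C (c : ℂ), by simp, fun t => by simp⟩

theorem rtp_sub {d : ℕ} {φ ψ : ℝ → ℝ} (h : RTP d φ) (h' : RTP d ψ) :
    RTP d (fun t => φ t - ψ t) := by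
  obtain ⟨Q, h1, h2⟩ := h
  obtain ⟨Q', h1', h2'⟩ := h'
  refine ⟨Q - Q', (Polynomial.natDegree_sub_le _ _).trans (max_le h1 h1'), fun t => ?_⟩
  show φ t - ψ t = _
  rw [h2, h2', Polynomial.eval_sub, Complex.sub_re]

theorem rtp_cont {d : ℕ} {φ : ℝ → ℝ} (h : RTP d φ) : Continuous φ := by
  obtain ⟨Q, h1, h2⟩ := h
  have : φ = fun t => (Q.eval (ee t)).re := funext h2
  rw [this]
  exact Complex.continuous_re.comp (Q.continuous.comp ee_cont)

/-! ### radii -/

theorem rr_lt_one (k : ℕ) : rr k < 1 := by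
  cases k with
  | zero => simp [rr]
  | succ k =>
    simp only [rr]
    have : (0:ℝ) < (1 / 2) ^ (nn (k + 1) + 100 * (k + 2) ^ 2) := by positivity
    linarith

theorem nn_mono (k : ℕ) : nn k < nn (k + 1) := by
  unfold nn
  exact Nat.pow_lt_pow_right (by norm_num) (by omega)

theorem rr_lt (k : ℕ) : rr k < rr (k + 1) := by
  cases k with
  | zero =>
    simp only [rr]
    have : ((1:ℝ) / 2) ^ (nn (0 + 1) + 100 * (0 + 2) ^ 2) < 1 := by
      apply pow_lt_one₀ (by norm_num) (by norm_num)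
      have : 0 < nn (0 + 1) := by unfold nn; positivity
      omega
    linarith
  | succ k =>
    simp only [rr]
    have h : nn (k + 1) + 100 * (k + 2) ^ 2 < nn (k + 1 + 1) + 100 * (k + 1 + 2) ^ 2 := by
      have h1 := nn_mono (k + 1)
      have h2 : (k + 2) ^ 2 ≤ (k + 1 + 2) ^ 2 := Nat.pow_le_pow_left (by omega) 2
      omega
    have := pow_lt_pow_right_of_lt_one₀ (show (0:ℝ) < 1 / 2 by norm_num) (by norm_num) h
    linarith

theorem rr_nonneg (k : ℕ) : 0 ≤ rr k := by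
  induction k with
  | zero => simp [rr]
  | succ k ih => exact ih.trans (rr_lt k).le

theorem rr_pos (k : ℕ) : 0 < rr (k + 1) := (rr_nonneg k).trans_lt (rr_lt k)

theorem rho_nonneg (k : ℕ) : 0 ≤ rr k / rr (k + 1) := div_nonneg (rr_nonneg _) (rr_nonneg _)

theorem rho_lt (k : ℕ) : rr k / rr (k + 1) < 1 := (div_lt_one (rr_pos k)).2 (rr_lt k)

theorem one_sub_rr (k : ℕ) : 1 - rr (k + 1) = (1 / 2) ^ (nn (k + 1) + 100 * (k + 2) ^ 2) := by
  simp only [rr]
  ring

/-! ### weights -/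

/-- live weights -/
noncomputable def lw : ℕ → ℝ → ℝ
  | 0 => fun _ => 1
  | k + 1 => fun t => PS (rr k / rr (k + 1)) (lw k) t * (1 - ss (k + 1) t)

/-- smoothed live weights -/
noncomputable def Lw (k : ℕ) : ℝ → ℝ := PS (rr k / rr (k + 1)) (lw k)

/-- stopping weights -/
noncomputable def ww (k : ℕ) (t : ℝ) : ℝ := Lw k t * ss (k + 1) t

theorem lw_succ (k : ℕ) (t : ℝ) : lw (k + 1) t = Lw k t * (1 - ss (k + 1) t) := rfl

theorem ss_bounds (k : ℕ) (t : ℝ) : 0 ≤ ss k t ∧ ss k t ≤ 1 := (sig_props k).2.2.1 _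

theorem deg_lt (k : ℕ) : 2 ^ (k + 27) * NN k < NN (k + 1) := by
  unfold NN
  rw [← pow_add]
  apply Nat.pow_lt_pow_right (by norm_num)
  have := nn_mono k
  nlinarith

theorem lw_rtp (k : ℕ) : RTP (2 ^ (k + 27) * NN k) (lw k) := by
  induction k with
  | zero => exact rtp_mono (rtp_const 1) (Nat.zero_le _)
  | succ k ih =>
    have h1 : RTP (2 ^ (k + 27) * NN k) (Lw k) := ps_rtp ih (rho_nonneg k) (rho_lt k)
    have h2 : RTP (2 ^ (k + 1 + 26) * NN (k + 1)) (fun t => 1 - ss (k + 1) t) :=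
      rtp_sub (rtp_mono (rtp_const 1) (Nat.zero_le _)) (ss_rtp (k + 1))
    refine rtp_mono (rtp_mul h1 h2) ?_
    have h3 := deg_lt k
    have h4 : 2 ^ (k + 1 + 27) * NN (k + 1) = 2 ^ (k + 1 + 26) * NN (k + 1) +
        2 ^ (k + 1 + 26) * NN (k + 1) := by
      rw [show k + 1 + 27 = (k + 1 + 26) + 1 by ring, pow_succ]; ring
    rw [h4]
    have h5 : NN (k + 1) ≤ 2 ^ (k + 1 + 26) * NN (k + 1) :=
      Nat.le_mul_of_pos_left _ (by positivity)
    omega

theorem lw_cont (k : ℕ) : Continuous (lw k) := rtp_cont (lw_rtp k)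

theorem Lw_rtp (k : ℕ) : RTP (2 ^ (k + 27) * NN k) (Lw k) :=
  ps_rtp (lw_rtp k) (rho_nonneg k) (rho_lt k)

theorem Lw_cont (k : ℕ) : Continuous (Lw k) := rtp_cont (Lw_rtp k)

theorem ss_cont (k : ℕ) : Continuous (ss k) := rtp_cont (ss_rtp k)

theorem ww_cont (k : ℕ) : Continuous (ww k) := (Lw_cont k).mul (ss_cont (k + 1))

theorem lw_bounds (k : ℕ) (t : ℝ) : 0 ≤ lw k t ∧ lw k t ≤ 1 := by
  induction k generalizing t with
  | zero => simp [lw]
  | succ k ih =>
    have h1 := ps_bounds (lw_cont k) (rho_nonneg k) (rho_lt k) ih t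
    have h2 := ss_bounds (k + 1) t
    rw [lw_succ]
    have h3 : 0 ≤ Lw k t ∧ Lw k t ≤ 1 := h1
    constructor
    · exact mul_nonneg h3.1 (by linarith)
    · calc Lw k t * (1 - ss (k + 1) t) ≤ 1 * 1 := by
            apply mul_le_mul h3.2 (by linarith) (by linarith) (by norm_num)
        _ = 1 := by ring

theorem Lw_bounds (k : ℕ) (t : ℝ) : 0 ≤ Lw k t ∧ Lw k t ≤ 1 :=
  ps_bounds (lw_cont k) (rho_nonneg k) (rho_lt k) (lw_bounds k) t

theorem ww_nonneg (k : ℕ) (t : ℝ) : 0 ≤ ww k t :=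
  mul_nonneg (Lw_bounds k t).1 (ss_bounds (k + 1) t).1

theorem ww_le (k : ℕ) (t : ℝ) : ww k t ≤ ss (k + 1) t := by
  unfold ww
  have h1 := Lw_bounds k t
  have h2 := ss_bounds (k + 1) t
  nlinarith

theorem mean_Lw (k : ℕ) : mean (Lw k) = mean (lw k) :=
  ps_mean (lw_cont k) (rho_nonneg k) (rho_lt k)

theorem mean_ww (k : ℕ) : mean (ww k) = mean (lw k) * mean (sig (k + 1)) := by
  have h := mean_mul_high (Lw_rtp k) (deg_lt k) (sig_props (k + 1)).1 (sig_props (k + 1)).2.1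
  rw [mean_Lw] at h
  exact h

theorem mean_lw_succ (k : ℕ) : mean (lw (k + 1)) = mean (lw k) - mean (ww k) := by
  have : lw (k + 1) = fun t => Lw k t - ww k t := by
    funext t
    rw [lw_succ, ww]
    ring
  rw [this, mean_sub (Lw_cont k) (ww_cont k), mean_Lw]

theorem mean_lw_nonneg (k : ℕ) : 0 ≤ mean (lw k) := mean_nonneg (lw_cont k) fun t => (lw_bounds k t).1

theorem mean_ww_ge (k : ℕ) : mean (lw k) / 500 ≤ mean (ww k) := by
  rw [mean_ww]
  have := (sig_props (k + 1)).2.2.2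
  have h2 := mean_lw_nonneg k
  nlinarith

theorem mean_ww_le (k : ℕ) : mean (ww k) ≤ mean (lw k) := by
  have := mean_lw_nonneg (k + 1)
  rw [mean_lw_succ] at this
  linarith

theorem mean_lw_le (k : ℕ) : mean (lw k) ≤ (499 / 500) ^ k := by
  induction k with
  | zero =>
    have : mean (lw 0) = 1 := mean_const 1
    rw [this]
    simp
  | succ k ih =>
    rw [mean_lw_succ, pow_succ]
    have := mean_ww_ge k
    linarith

/-! ### the chain -/

/-- truncated logarithm -/
noncomputable def vv (p : Polynomial ℂ) (τ r t : ℝ) : ℝ := Real.log (max ‖p.eval (r * ee t)‖ τ)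

theorem vv_cont (p : Polynomial ℂ) {τ : ℝ} (hτ : 0 < τ) (r : ℝ) : Continuous (vv p τ r) := by
  unfold vv
  apply Continuous.log
  · exact (((p.continuous.comp (continuous_const.mul ee_cont))).norm).max continuous_const
  · intro t
    exact (lt_max_of_lt_right hτ).ne'

theorem chain_step (p : Polynomial ℂ) (hp : p ≠ 0) {τ : ℝ} (hτ : 0 < τ) (k : ℕ) :
    mean (fun t => lw k t * vv p τ (rr k) t) ≤
      mean (fun t => ww k t * vv p τ (rr (k + 1)) t) +
        mean (fun t => lw (k + 1) t * vv p τ (rr (k + 1)) t) := by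
  have h1 : mean (fun t => lw k t * vv p τ (rr k) t) ≤
      mean (fun t => lw k t * PS (rr k / rr (k + 1)) (vv p τ (rr (k + 1))) t) := by
    apply mean_mono ((lw_cont k).mul (vv_cont p hτ _))
      ((lw_cont k).mul (ps_cont (vv_cont p hτ _) (rho_nonneg k) (rho_lt k)))
    intro t
    apply mul_le_mul_of_nonneg_left _ (lw_bounds k t).1
    exact submean p hp τ hτ (rr k) (rr (k + 1)) (rr_nonneg k) (rr_lt k) t
  rw [← ps_symm (lw_cont k) (vv_cont p hτ _) (rho_nonneg k) (rho_lt k)] at h1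
  refine h1.trans (le_of_eq ?_)
  have h2 := mean_add (φ := fun t => ww k t * vv p τ (rr (k + 1)) t)
    (ψ := fun t => lw (k + 1) t * vv p τ (rr (k + 1)) t)
    ((ww_cont k).mul (vv_cont p hτ _)) ((lw_cont (k + 1)).mul (vv_cont p hτ _))
  rw [← h2]
  congr 1
  funext t
  rw [lw_succ, ww]
  change Lw k t * _ = _
  ring

theorem chain (p : Polynomial ℂ) (hp : p ≠ 0) {τ : ℝ} (hτ : 0 < τ) (K : ℕ) :
    Real.log (max ‖p.eval 0‖ τ) ≤
      ∑ k ∈ range K, mean (fun t => ww k t * vv p τ (rr (k + 1)) t) +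
        mean (fun t => lw K t * vv p τ (rr K) t) := by
  induction K with
  | zero =>
    simp only [range_zero, sum_empty, zero_add]
    have : (fun t => lw 0 t * vv p τ (rr 0) t) = fun _ => Real.log (max ‖p.eval 0‖ τ) := by
      funext t
      simp [lw, vv, rr]
    rw [this, mean_const]
  | succ K ih =>
    rw [sum_range_succ]
    have := chain_step p hp hτ K
    linarith

/-! ### estimates on circles -/

theorem ff_cont {gc : ℕ → ℂ} (hD : Data gc) (r : ℝ) (h0 : 0 ≤ r) (h1 : r < 1) :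
    Continuous (fun t => ff gc (r * ee t)) := by
  unfold ff
  apply Complex.continuous_exp.comp
  apply continuous_tsum (u := fun n => ‖gc n‖ * r ^ n)
  · intro n
    exact continuous_const.mul ((continuous_const.mul ee_cont).pow n)
  · exact gc_summable hD r h0 h1
  · intro n t
    rw [norm_mul, norm_pow, norm_mul, norm_ee, Complex.norm_real, Real.norm_of_nonneg h0, mul_one]

theorem ff_ne (gc : ℕ → ℂ) (x : ℂ) : ff gc x ≠ 0 := Complex.exp_ne_zero _

/-- defect -/
noncomputable def qq (gc : ℕ → ℂ) (p : Polynomial ℂ) (r t : ℝ) : ℝ :=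
  ‖p.eval (r * ee t) * ff gc (r * ee t) - 1‖

theorem qq_cont {gc : ℕ → ℂ} (hD : Data gc) (p : Polynomial ℂ) (r : ℝ) (h0 : 0 ≤ r) (h1 : r < 1) :
    Continuous (qq gc p r) :=
  (((p.continuous.comp (continuous_const.mul ee_cont)).mul (ff_cont hD r h0 h1)).sub
    continuous_const).norm

theorem qq_nonneg (gc : ℕ → ℂ) (p : Polynomial ℂ) (r t : ℝ) : 0 ≤ qq gc p r t := norm_nonneg _

theorem small_pt (gc : ℕ → ℂ) (p : Polynomial ℂ) {τ : ℝ} (hτ : 0 < τ) (r t : ℝ) :
    vv p τ r t ≤ qq gc p r t + τ * ‖ff gc (r * ee t)‖ - Real.log ‖ff gc (r * ee t)‖ := by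
  have hf : 0 < ‖ff gc (r * ee t)‖ := norm_pos_iff.2 (ff_ne _ _)
  set F := ‖ff gc (r * ee t)‖ with hF
  have h1 : ‖p.eval (r * ee t)‖ * F ≤ 1 + qq gc p r t := by
    rw [hF, ← norm_mul]
    calc ‖p.eval (r * ee t) * ff gc (r * ee t)‖
        = ‖1 + (p.eval (r * ee t) * ff gc (r * ee t) - 1)‖ := by congr 1; ring
      _ ≤ ‖(1:ℂ)‖ + ‖p.eval (r * ee t) * ff gc (r * ee t) - 1‖ := norm_add_le _ _
      _ = 1 + qq gc p r t := by simp [qq]
  have hq := qq_nonneg gc p r t
  have hτF : 0 < τ * F := mul_pos hτ hf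
  have h2 : max ‖p.eval (r * ee t)‖ τ ≤ Real.exp (qq gc p r t + τ * F) / F := by
    rw [le_div_iff₀ hf]
    have h3 := Real.add_one_le_exp (qq gc p r t + τ * F)
    rcases le_total ‖p.eval (r * ee t)‖ τ with h | h
    · rw [max_eq_right h]
      linarith
    · rw [max_eq_left h]
      linarith
  unfold vv
  have h4 := Real.log_le_log (lt_max_of_lt_right hτ) h2
  rw [Real.log_div (Real.exp_pos _).ne' hf.ne', Real.log_exp] at h4
  exact h4

/-- the constants kappa -/
noncomputable def kap (k : ℕ) : ℝ := Real.exp 6 * (1 / 2) ^ (nn (k + 1))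

theorem kap_pos (k : ℕ) : 0 < kap k := by
  unfold kap
  positivity

theorem nn_ge (k : ℕ) : 8192 ≤ nn (k + 1) := by
  unfold nn
  calc 8192 = 2 ^ 13 := by norm_num
    _ ≤ 2 ^ (k + 1 + 12) := Nat.pow_le_pow_right (by norm_num) (by omega)

theorem log_kap (k : ℕ) : Real.log (kap k) ≤ -5000 := by
  unfold kap
  rw [Real.log_mul (Real.exp_pos _).ne' (by positivity), Real.log_exp, Real.log_pow]
  have h1 : Real.log (1 / 2) = - Real.log 2 := by
    rw [one_div, Real.log_inv]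
  rw [h1]
  have h2 : (8192 : ℝ) ≤ nn (k + 1) := by exact_mod_cast nn_ge k
  have h3 := Real.log_two_gt_d9
  nlinarith

theorem small_w {gc : ℕ → ℂ} (hD : Data gc) (p : Polynomial ℂ) {τ : ℝ} (hτ : 0 < τ) (k : ℕ)
    (t : ℝ) : ww k t * vv p τ (rr (k + 1)) t ≤ qq gc p (rr (k + 1)) t +
      τ * ‖ff gc (rr (k + 1) * ee t)‖ + 1 / 2 * (Real.log (kap k) * ww k t + Lw k t) := by
  have h1 := small_pt gc p hτ (rr (k + 1)) t
  have hf : 0 < ‖ff gc (rr (k + 1) * ee t)‖ := norm_pos_iff.2 (ff_ne _ _)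
  set F := ‖ff gc (rr (k + 1) * ee t)‖ with hF
  have hq := qq_nonneg gc p (rr (k + 1)) t
  have hL := Lw_bounds k t
  have hs := ss_bounds (k + 1) t
  have hw0 := ww_nonneg k t
  have hw1 : ww k t ≤ 1 := (ww_le k t).trans hs.2
  have h2 : ww k t * vv p τ (rr (k + 1)) t ≤
      ww k t * (qq gc p (rr (k + 1)) t + τ * F) + ww k t * (- Real.log F) := by
    rw [← mul_add]
    exact mul_le_mul_of_nonneg_left (by linarith) hw0
  have h3 : ww k t * (qq gc p (rr (k + 1)) t + τ * F) ≤ qq gc p (rr (k + 1)) t + τ * F := by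
    have : 0 ≤ qq gc p (rr (k + 1)) t + τ * F := add_nonneg hq (mul_pos hτ hf).le
    calc ww k t * (qq gc p (rr (k + 1)) t + τ * F) ≤ 1 * (qq gc p (rr (k + 1)) t + τ * F) :=
          mul_le_mul_of_nonneg_right hw1 this
      _ = _ := one_mul _
  have h4 : ww k t * (- Real.log F) ≤ 1 / 2 * (Real.log (kap k) * ww k t + Lw k t) := by
    rcases hs.1.eq_or_lt with h | h
    · have : ww k t = 0 := by rw [ww, ← h, mul_zero]
      rw [this]
      have := hL.1
      linarith
    · have h5 := fdich hD (k + 1) (by omega) t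
      rw [← hF] at h5
      change ss (k + 1) t ≤ kap k * F ^ 2 at h5
      have h6 := Real.log_le_log h h5
      rw [Real.log_mul (kap_pos k).ne' (by positivity), Real.log_pow] at h6
      have h7 : - Real.log (ss (k + 1) t) ≤ 1 / ss (k + 1) t - 1 := by
        have := Real.one_sub_inv_le_log_of_pos h
        rw [one_div]
        linarith
      have h8 : ss (k + 1) t * (- Real.log (ss (k + 1) t)) ≤ 1 := by
        calc ss (k + 1) t * (- Real.log (ss (k + 1) t))
            ≤ ss (k + 1) t * (1 / ss (k + 1) t - 1) := mul_le_mul_of_nonneg_left h7 h.le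
          _ = 1 - ss (k + 1) t := by field_simp
          _ ≤ 1 := by linarith
      have h9 : - Real.log F ≤ 1 / 2 * (Real.log (kap k) - Real.log (ss (k + 1) t)) := by
        push_cast at h6
        linarith
      calc ww k t * (- Real.log F)
          ≤ ww k t * (1 / 2 * (Real.log (kap k) - Real.log (ss (k + 1) t))) :=
            mul_le_mul_of_nonneg_left h9 hw0
        _ = 1 / 2 * (Real.log (kap k) * ww k t +
              Lw k t * (ss (k + 1) t * (- Real.log (ss (k + 1) t)))) := by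
            rw [ww]; ring
        _ ≤ 1 / 2 * (Real.log (kap k) * ww k t + Lw k t * 1) := by
            have := mul_le_mul_of_nonneg_left h8 hL.1
            linarith
        _ = _ := by ring
  linarith

theorem mean_qq {gc : ℕ → ℂ} (hD : Data gc) (p : Polynomial ℂ) {ε : ℝ} (hε : 0 < ε) (k : ℕ)
    (h : mean (fun t => qq gc p (rr k) t ^ 2) ≤ ε ^ 2 / (1 - rr k)) :
    mean (qq gc p (rr k)) ≤ ε / (1 - rr k) := by
  have hr := rr_lt_one k
  have hr0 := rr_nonneg k
  have hc := qq_cont hD p (rr k) hr0 hr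
  have h1 : mean (qq gc p (rr k)) ≤ mean (fun t => ε / 2 + 1 / (2 * ε) * qq gc p (rr k) t ^ 2) := by
    apply mean_mono hc (by fun_prop)
    intro t
    have h2 : 0 ≤ (ε - qq gc p (rr k) t) ^ 2 := sq_nonneg _
    have h3 : ε / 2 + 1 / (2 * ε) * qq gc p (rr k) t ^ 2 - qq gc p (rr k) t =
        1 / (2 * ε) * (ε - qq gc p (rr k) t) ^ 2 := by
      field_simp
      ring
    have h4 : 0 ≤ 1 / (2 * ε) * (ε - qq gc p (rr k) t) ^ 2 := by positivity
    linarith
  have h2 : mean (fun t => ε / 2 + 1 / (2 * ε) * qq gc p (rr k) t ^ 2) =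
      ε / 2 + 1 / (2 * ε) * mean (fun t => qq gc p (rr k) t ^ 2) := by
    have := mean_add (φ := fun _ => ε / 2) (ψ := fun t => 1 / (2 * ε) * qq gc p (rr k) t ^ 2)
      (by fun_prop) (by fun_prop)
    rw [this, mean_const, mean_cmul]
  have hpos : 0 < 1 - rr k := by linarith
  have h3 : 1 / (2 * ε) * mean (fun t => qq gc p (rr k) t ^ 2) ≤ ε / (1 - rr k) / 2 := by
    calc 1 / (2 * ε) * mean (fun t => qq gc p (rr k) t ^ 2)
        ≤ 1 / (2 * ε) * (ε ^ 2 / (1 - rr k)) := by gcongr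
      _ = ε / (1 - rr k) / 2 := by field_simp
  have h4 : ε ≤ ε / (1 - rr k) := by
    rw [le_div_iff₀ hpos]
    nlinarith
  linarith

theorem small_mean {gc : ℕ → ℂ} (hD : Data gc) (p : Polynomial ℂ) {τ ε : ℝ} (hτ : 0 < τ)
    (hε : 0 < ε) (k : ℕ)
    (h : mean (fun t => qq gc p (rr (k + 1)) t ^ 2) ≤ ε ^ 2 / (1 - rr (k + 1))) :
    mean (fun t => ww k t * vv p τ (rr (k + 1)) t) ≤ ε / (1 - rr (k + 1)) +
      τ * mean (fun t => ‖ff gc (rr (k + 1) * ee t)‖) - 4 * mean (lw k) := by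
  have hr := rr_lt_one (k + 1)
  have hr0 := rr_nonneg (k + 1)
  have hc := qq_cont hD p (rr (k + 1)) hr0 hr
  have hfc := (ff_cont hD (rr (k + 1)) hr0 hr).norm
  have h1 : mean (fun t => ww k t * vv p τ (rr (k + 1)) t) ≤
      mean (fun t => (qq gc p (rr (k + 1)) t + τ * ‖ff gc (rr (k + 1) * ee t)‖) +
        1 / 2 * (Real.log (kap k) * ww k t + Lw k t)) := by
    have hwc := ww_cont k
    have hLc := Lw_cont k
    have hvc := vv_cont p hτ (rr (k + 1))
    apply mean_mono (by fun_prop) (by fun_prop)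
    intro t
    exact small_w hD p hτ k t
  have h2 : mean (fun t => (qq gc p (rr (k + 1)) t + τ * ‖ff gc (rr (k + 1) * ee t)‖) +
        1 / 2 * (Real.log (kap k) * ww k t + Lw k t)) =
      (mean (qq gc p (rr (k + 1))) + τ * mean (fun t => ‖ff gc (rr (k + 1) * ee t)‖)) +
      1 / 2 * (Real.log (kap k) * mean (ww k) + mean (Lw k)) := by
    have hwc := ww_cont k
    have hLc := Lw_cont k
    rw [mean_add (φ := fun t => qq gc p (rr (k + 1)) t + τ * ‖ff gc (rr (k + 1) * ee t)‖)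
        (ψ := fun t => 1 / 2 * (Real.log (kap k) * ww k t + Lw k t)) (by fun_prop) (by fun_prop),
      mean_add (φ := fun t => qq gc p (rr (k + 1)) t)
        (ψ := fun t => τ * ‖ff gc (rr (k + 1) * ee t)‖) (by fun_prop) (by fun_prop),
      mean_cmul, mean_cmul,
      mean_add (φ := fun t => Real.log (kap k) * ww k t) (ψ := fun t => Lw k t)
        (by fun_prop) (by fun_prop), mean_cmul]
  rw [h2] at h1
  have h3 := mean_qq hD p hε (k + 1) h
  have h4 := log_kap k
  have h5 := mean_ww_ge k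
  have h6 := mean_lw_nonneg k
  rw [mean_Lw] at h1
  have h7 : Real.log (kap k) * mean (ww k) ≤ -10 * mean (lw k) := by
    have h8 : 0 ≤ mean (ww k) := by linarith [div_nonneg h6 (by norm_num : (0:ℝ) ≤ 500)]
    calc Real.log (kap k) * mean (ww k) ≤ -5000 * mean (ww k) :=
          mul_le_mul_of_nonneg_right h4 h8
      _ ≤ -10 * mean (lw k) := by linarith
  linarith

/-- constants for the tangent line inequality -/
noncomputable def aa (k : ℕ) : ℝ := 4 * Real.exp 6 * 2 ^ (100 * (k + 2) ^ 2 + k)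

theorem aa_ge (k : ℕ) : 1 ≤ aa k := by
  unfold aa
  have h1 : (1:ℝ) ≤ Real.exp 6 := Real.one_le_exp (by norm_num)
  have h2 : (1:ℝ) ≤ 2 ^ (100 * (k + 2) ^ 2 + k) := one_le_pow₀ (by norm_num)
  nlinarith

theorem log_aa (k : ℕ) : Real.log (aa k) ≤ 110 * ((k : ℝ) + 2) ^ 2 := by
  unfold aa
  rw [Real.log_mul (by positivity) (by positivity), Real.log_mul (by norm_num)
    (Real.exp_pos _).ne', Real.log_exp, Real.log_pow]
  have h1 : Real.log 4 ≤ 2 := by
    have : (4:ℝ) = 2 ^ 2 := by norm_num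
    rw [this, Real.log_pow]
    have := Real.log_two_lt_d9
    push_cast
    linarith
  have h2 : Real.log 2 ≤ 1 := by
    have := Real.log_two_lt_d9
    linarith
  have h3 : ((100 * (k + 2) ^ 2 + k : ℕ) : ℝ) = 100 * ((k:ℝ) + 2) ^ 2 + k := by push_cast; ring
  rw [h3]
  have hk : (0:ℝ) ≤ k := Nat.cast_nonneg k
  have h4 : (100 * ((k:ℝ) + 2) ^ 2 + k) * Real.log 2 ≤ (100 * ((k:ℝ) + 2) ^ 2 + k) * 1 :=
    mul_le_mul_of_nonneg_left h2 (by positivity)
  nlinarith

theorem kap_ratio (k : ℕ) : kap k / (1 - rr (k + 1)) = Real.exp 6 * 2 ^ (100 * (k + 2) ^ 2) := by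
  rw [one_sub_rr, kap, pow_add]
  field_simp
  rw [← mul_pow]
  norm_num

theorem big_w {gc : ℕ → ℂ} (hD : Data gc) (p : Polynomial ℂ) {τ : ℝ} (hτ : 0 < τ) (hτ1 : τ ≤ 1)
    (k : ℕ) (t : ℝ) : ww k t * vv p τ (rr (k + 1)) t ≤
      1 / 2 * (kap k / aa k * (2 + 2 * qq gc p (rr (k + 1)) t ^ 2) + Real.log (aa k) * ww k t) := by
  have ha := aa_ge k
  have ha0 : 0 < aa k := by linarith
  have hw0 := ww_nonneg k t
  set P := ‖p.eval (rr (k + 1) * ee t)‖ with hP
  have hP0 : 0 ≤ P := norm_nonneg _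
  have hm : 0 < max P τ := lt_max_of_lt_right hτ
  have h1 : vv p τ (rr (k + 1)) t = 1 / 2 * Real.log (max P τ ^ 2) := by
    rw [Real.log_pow]
    simp only [vv, hP]
    push_cast
    ring
  have h2 : Real.log (max P τ ^ 2) ≤ max P τ ^ 2 / aa k - 1 + Real.log (aa k) := by
    have h3 := Real.log_le_sub_one_of_pos (show 0 < max P τ ^ 2 / aa k by positivity)
    rw [Real.log_div (by positivity) ha0.ne'] at h3
    linarith
  have h3 : max P τ ^ 2 ≤ P ^ 2 + 1 := by
    rcases le_total P τ with h | h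
    · rw [max_eq_right h]
      nlinarith [sq_nonneg P]
    · rw [max_eq_left h]
      linarith
  have h4 : max P τ ^ 2 / aa k - 1 + Real.log (aa k) ≤ P ^ 2 / aa k + Real.log (aa k) := by
    have h5 : max P τ ^ 2 / aa k ≤ (P ^ 2 + 1) / aa k := by gcongr
    have h6 : (P ^ 2 + 1) / aa k = P ^ 2 / aa k + 1 / aa k := add_div _ _ _
    have h7 : 1 / aa k ≤ 1 := by
      rw [div_le_one ha0]
      exact ha
    linarith
  have h5 : ww k t * P ^ 2 ≤ kap k * (2 + 2 * qq gc p (rr (k + 1)) t ^ 2) := by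
    have h6 := fdich hD (k + 1) (by omega) t
    change ss (k + 1) t ≤ kap k * ‖ff gc (rr (k + 1) * ee t)‖ ^ 2 at h6
    have h7 := (ww_le k t).trans h6
    have h8 : P * ‖ff gc (rr (k + 1) * ee t)‖ ≤ 1 + qq gc p (rr (k + 1)) t := by
      rw [hP, ← norm_mul]
      calc ‖p.eval (rr (k + 1) * ee t) * ff gc (rr (k + 1) * ee t)‖
          = ‖1 + (p.eval (rr (k + 1) * ee t) * ff gc (rr (k + 1) * ee t) - 1)‖ := by congr 1; ring
        _ ≤ ‖(1:ℂ)‖ + ‖p.eval (rr (k + 1) * ee t) * ff gc (rr (k + 1) * ee t) - 1‖ :=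
            norm_add_le _ _
        _ = 1 + qq gc p (rr (k + 1)) t := by simp [qq]
    have h9 : (P * ‖ff gc (rr (k + 1) * ee t)‖) ^ 2 ≤ 2 + 2 * qq gc p (rr (k + 1)) t ^ 2 := by
      have h10 : 0 ≤ P * ‖ff gc (rr (k + 1) * ee t)‖ := by positivity
      nlinarith [sq_nonneg (1 - qq gc p (rr (k + 1)) t)]
    calc ww k t * P ^ 2 ≤ kap k * ‖ff gc (rr (k + 1) * ee t)‖ ^ 2 * P ^ 2 :=
          mul_le_mul_of_nonneg_right h7 (sq_nonneg _)
      _ = kap k * (P * ‖ff gc (rr (k + 1) * ee t)‖) ^ 2 := by ring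
      _ ≤ _ := mul_le_mul_of_nonneg_left h9 (kap_pos k).le
  calc ww k t * vv p τ (rr (k + 1)) t = 1 / 2 * (ww k t * Real.log (max P τ ^ 2)) := by
        rw [h1]; ring
    _ ≤ 1 / 2 * (ww k t * (P ^ 2 / aa k + Real.log (aa k))) := by
        gcongr
        exact h2.trans h4
    _ = 1 / 2 * (ww k t * P ^ 2 / aa k + Real.log (aa k) * ww k t) := by ring
    _ ≤ 1 / 2 * (kap k * (2 + 2 * qq gc p (rr (k + 1)) t ^ 2) / aa k + Real.log (aa k) * ww k t) := by
        gcongr
    _ = _ := by ring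

/-- bound for the late terms -/
noncomputable def BB (k : ℕ) : ℝ := 1 / 2 * ((1 / 2) ^ k + 110 * ((k : ℝ) + 2) ^ 2 * (499 / 500) ^ k)

theorem BB_summable : Summable BB := by
  unfold BB
  apply Summable.mul_left
  apply (summable_geometric_of_lt_one (by norm_num) (by norm_num)).add
  have h : ‖(499 / 500 : ℝ)‖ < 1 := by norm_num
  have h2 := summable_pow_mul_geometric_of_norm_lt_one 2 h
  have h1 := summable_pow_mul_geometric_of_norm_lt_one 1 h
  have h0 := summable_pow_mul_geometric_of_norm_lt_one 0 h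
  have h3 := ((h2.add (h1.mul_left 4)).add (h0.mul_left 4)).mul_left 110
  refine h3.congr fun k => ?_
  ring

theorem big_mean {gc : ℕ → ℂ} (hD : Data gc) (p : Polynomial ℂ) {τ ε : ℝ} (hτ : 0 < τ)
    (hτ1 : τ ≤ 1) (hε : 0 < ε) (hε1 : ε ≤ 1) (k : ℕ)
    (h : mean (fun t => qq gc p (rr (k + 1)) t ^ 2) ≤ ε ^ 2 / (1 - rr (k + 1))) :
    mean (fun t => ww k t * vv p τ (rr (k + 1)) t) ≤ BB k := by
  have hr := rr_lt_one (k + 1)
  have hr0 := rr_nonneg (k + 1)
  have hpos : 0 < 1 - rr (k + 1) := by linarith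
  have hc := qq_cont hD p (rr (k + 1)) hr0 hr
  have ha := aa_ge k
  have ha0 : 0 < aa k := by linarith
  have hk := kap_pos k
  have h1 : mean (fun t => ww k t * vv p τ (rr (k + 1)) t) ≤
      mean (fun t => 1 / 2 * (kap k / aa k * (2 + 2 * qq gc p (rr (k + 1)) t ^ 2) +
        Real.log (aa k) * ww k t)) := by
    have hwc := ww_cont k
    have hvc := vv_cont p hτ (rr (k + 1))
    apply mean_mono (by fun_prop) (by fun_prop)
    intro t
    exact big_w hD p hτ hτ1 k t
  have h2 : mean (fun t => 1 / 2 * (kap k / aa k * (2 + 2 * qq gc p (rr (k + 1)) t ^ 2) +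
        Real.log (aa k) * ww k t)) =
      1 / 2 * (kap k / aa k * (2 + 2 * mean (fun t => qq gc p (rr (k + 1)) t ^ 2)) +
        Real.log (aa k) * mean (ww k)) := by
    have hwc := ww_cont k
    rw [mean_cmul, mean_add (φ := fun t => kap k / aa k * (2 + 2 * qq gc p (rr (k + 1)) t ^ 2))
        (ψ := fun t => Real.log (aa k) * ww k t) (by fun_prop) (by fun_prop), mean_cmul, mean_cmul,
      mean_add (φ := fun _ => (2:ℝ)) (ψ := fun t => 2 * qq gc p (rr (k + 1)) t ^ 2)
        (by fun_prop) (by fun_prop), mean_const, mean_cmul]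
  rw [h2] at h1
  refine h1.trans ?_
  unfold BB
  have h3 : kap k / aa k * (2 + 2 * mean (fun t => qq gc p (rr (k + 1)) t ^ 2)) ≤ (1 / 2) ^ k := by
    have h4 : 2 + 2 * mean (fun t => qq gc p (rr (k + 1)) t ^ 2) ≤ 4 / (1 - rr (k + 1)) := by
      have h5 : ε ^ 2 / (1 - rr (k + 1)) ≤ 1 / (1 - rr (k + 1)) := by
        gcongr
        nlinarith
      have h6 : 1 ≤ 1 / (1 - rr (k + 1)) := by
        rw [le_div_iff₀ hpos]
        linarith
      have h7 : 4 / (1 - rr (k + 1)) = 2 * (1 / (1 - rr (k + 1))) + 2 * (1 / (1 - rr (k + 1))) := by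
        ring
      linarith
    calc kap k / aa k * (2 + 2 * mean (fun t => qq gc p (rr (k + 1)) t ^ 2))
        ≤ kap k / aa k * (4 / (1 - rr (k + 1))) := by gcongr
      _ = 4 * (kap k / (1 - rr (k + 1))) / aa k := by ring
      _ = (1 / 2) ^ k := by
          rw [kap_ratio, aa, pow_add]
          field_simp
          rw [← mul_pow]
          norm_num
  have h4 : Real.log (aa k) * mean (ww k) ≤ 110 * ((k : ℝ) + 2) ^ 2 * (499 / 500) ^ k := by
    have h5 := (mean_ww_le k).trans (mean_lw_le k)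
    have h6 := log_aa k
    have h7 : 0 ≤ Real.log (aa k) := Real.log_nonneg ha
    calc Real.log (aa k) * mean (ww k) ≤ Real.log (aa k) * (499 / 500) ^ k :=
          mul_le_mul_of_nonneg_left h5 h7
      _ ≤ 110 * ((k : ℝ) + 2) ^ 2 * (499 / 500) ^ k :=
          mul_le_mul_of_nonneg_right h6 (by positivity)
  linarith

/-! ### the core -/

theorem BB_nonneg (k : ℕ) : 0 ≤ BB k := by
  unfold BB
  positivity

theorem poly_bdd (p : Polynomial ℂ) : ∃ C : ℝ, 1 ≤ C ∧ ∀ z : ℂ, ‖z‖ ≤ 1 → ‖p.eval z‖ ≤ C := by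
  obtain ⟨C, hC⟩ := (isCompact_closedBall (0:ℂ) 1).exists_bound_of_continuousOn
    (f := fun z => p.eval z) p.continuous.continuousOn
  refine ⟨max C 1, le_max_right _ _, fun z hz => ?_⟩
  exact (hC z (by simpa using hz)).trans (le_max_left _ _)

theorem core {gc : ℕ → ℂ} (hD : Data gc) : ∃ ε0 : ℝ, 0 < ε0 ∧ ∀ (p : Polynomial ℂ) (ε : ℝ), 0 ≤ ε →
    ‖p.eval 0 - 1‖ ≤ ε →
    (∀ k : ℕ, 1 ≤ k → mean (fun t => ‖p.eval (rr k * ee t) * ff gc (rr k * ee t) - 1‖ ^ 2)
      ≤ ε ^ 2 / (1 - rr k)) → ε0 ≤ ε := by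
  obtain ⟨k0, hk0, hk1⟩ : ∃ k0 : ℕ, 1 ≤ k0 ∧ ∑' k, BB (k + k0) ≤ 1 / 2 := by
    have h := tendsto_sum_nat_add BB
    have h2 := h.eventually (ge_mem_nhds (show (0:ℝ) < 1 / 2 by norm_num))
    obtain ⟨k0, h3, h4⟩ := (h2.and (Filter.eventually_ge_atTop 1)).exists
    exact ⟨k0, h4, h3⟩
  set S1 : ℝ := ∑ k ∈ range k0, 1 / (1 - rr (k + 1)) with hS1
  set S2 : ℝ := ∑ k ∈ range k0, mean (fun t => ‖ff gc (rr (k + 1) * ee t)‖) with hS2
  have hS1n : 0 ≤ S1 := by
    apply sum_nonneg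
    intro k _
    have := rr_lt_one (k + 1)
    exact div_nonneg (by norm_num) (by linarith)
  have hS2n : 0 ≤ S2 := by
    apply sum_nonneg
    intro k _
    exact mean_nonneg (ff_cont hD _ (rr_nonneg _) (rr_lt_one _)).norm fun t => norm_nonneg _
  set τ : ℝ := 1 / (2 * (S2 + 1)) with hτdef
  have hτ : 0 < τ := by positivity
  have hτ1 : τ ≤ 1 := by
    rw [hτdef, div_le_one (by positivity)]
    linarith
  have hτS : τ * S2 ≤ 1 / 2 := by
    rw [hτdef, div_mul_eq_mul_div, div_le_div_iff₀ (by positivity) (by norm_num)]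
    linarith
  set ε0 : ℝ := 1 / (2 * (S1 + 1)) with hε0def
  have hε0 : 0 < ε0 := by positivity
  have hε01 : ε0 ≤ 1 / 2 := by
    rw [hε0def, div_le_div_iff₀ (by positivity) (by norm_num)]
    linarith
  have hεS : ε0 * S1 ≤ 1 / 2 := by
    rw [hε0def, div_mul_eq_mul_div, div_le_div_iff₀ (by positivity) (by norm_num)]
    linarith
  refine ⟨ε0, hε0, fun p ε hε h0 hm => ?_⟩
  by_contra hlt
  push Not at hlt
  set δ : ℝ := max ε (ε0 / 2) with hδ
  have hδ0 : 0 < δ := lt_max_of_lt_right (by positivity)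
  have hδ1 : δ ≤ ε0 := max_le hlt.le (by linarith)
  have hδε : ε ≤ δ := le_max_left _ _
  have h0' : ‖p.eval 0 - 1‖ ≤ δ := h0.trans hδε
  have hm' : ∀ k : ℕ, mean (fun t => qq gc p (rr (k + 1)) t ^ 2) ≤ δ ^ 2 / (1 - rr (k + 1)) := by
    intro k
    refine (hm (k + 1) (by omega)).trans ?_
    have := rr_lt_one (k + 1)
    apply div_le_div_of_nonneg_right _ (by linarith)
    exact pow_le_pow_left₀ hε hδε 2
  have hp0 : 1 / 2 ≤ ‖p.eval 0‖ := by
    have h1 : ‖(1:ℂ)‖ ≤ ‖p.eval 0‖ + ‖p.eval 0 - 1‖ := by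
      calc ‖(1:ℂ)‖ = ‖p.eval 0 - (p.eval 0 - 1)‖ := by congr 1; ring
        _ ≤ _ := norm_sub_le _ _
    rw [norm_one] at h1
    linarith
  have hp : p ≠ 0 := by
    rintro rfl
    simp at hp0
    norm_num at hp0
  obtain ⟨C, hC1, hC⟩ := poly_bdd p
  have hM : 0 ≤ Real.log C := Real.log_nonneg hC1
  obtain ⟨K, hK1, hK2⟩ : ∃ K : ℕ, k0 ≤ K ∧ (499 / 500 : ℝ) ^ K * Real.log C ≤ 1 / 2 := by
    have h := (tendsto_pow_atTop_nhds_zero_of_lt_one (show (0:ℝ) ≤ 499 / 500 by norm_num)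
      (by norm_num)).mul_const (Real.log C)
    rw [zero_mul] at h
    have h2 := h.eventually (ge_mem_nhds (show (0:ℝ) < 1 / 2 by norm_num))
    obtain ⟨K, h3, h4⟩ := (h2.and (Filter.eventually_ge_atTop k0)).exists
    exact ⟨K, h4, h3⟩
  have hch := chain p hp hτ K
  have hlast : mean (fun t => lw K t * vv p τ (rr K) t) ≤ 1 / 2 := by
    have hvc := vv_cont p hτ (rr K)
    have hlc := lw_cont K
    have h1 : mean (fun t => lw K t * vv p τ (rr K) t) ≤ mean (fun t => Real.log C * lw K t) := by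
      apply mean_mono (by fun_prop) (by fun_prop)
      intro t
      have h2 : vv p τ (rr K) t ≤ Real.log C := by
        unfold vv
        apply Real.log_le_log (lt_max_of_lt_right hτ)
        apply max_le _ (hτ1.trans hC1)
        apply hC
        rw [norm_mul, norm_ee, Complex.norm_real, Real.norm_of_nonneg (rr_nonneg K), mul_one]
        exact (rr_lt_one K).le
      calc lw K t * vv p τ (rr K) t ≤ lw K t * Real.log C :=
            mul_le_mul_of_nonneg_left h2 (lw_bounds K t).1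
        _ = _ := mul_comm _ _
    rw [mean_cmul] at h1
    have h3 := mean_lw_le K
    calc _ ≤ _ := h1
      _ ≤ Real.log C * (499 / 500) ^ K := mul_le_mul_of_nonneg_left h3 hM
      _ = (499 / 500) ^ K * Real.log C := mul_comm _ _
      _ ≤ 1 / 2 := hK2
  have hsplit : ∑ k ∈ range K, mean (fun t => ww k t * vv p τ (rr (k + 1)) t) =
      ∑ k ∈ range k0, mean (fun t => ww k t * vv p τ (rr (k + 1)) t) +
      ∑ k ∈ Ico k0 K, mean (fun t => ww k t * vv p τ (rr (k + 1)) t) :=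
    (sum_range_add_sum_Ico _ hK1).symm
  have hbig : ∑ k ∈ Ico k0 K, mean (fun t => ww k t * vv p τ (rr (k + 1)) t) ≤ 1 / 2 := by
    calc ∑ k ∈ Ico k0 K, mean (fun t => ww k t * vv p τ (rr (k + 1)) t)
        ≤ ∑ k ∈ Ico k0 K, BB k := by
          apply sum_le_sum
          intro k _
          exact big_mean hD p hτ hτ1 hδ0 (by linarith) k (hm' k)
      _ = ∑ j ∈ range (K - k0), BB (j + k0) := by
          rw [sum_Ico_eq_sum_range]
          apply sum_congr rfl
          intro j _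
          rw [add_comm]
      _ ≤ ∑' j, BB (j + k0) := by
          apply Summable.sum_le_tsum
          · intro j _
            exact BB_nonneg _
          · exact (summable_nat_add_iff k0).2 BB_summable
      _ ≤ 1 / 2 := hk1
  have hsmall : ∑ k ∈ range k0, mean (fun t => ww k t * vv p τ (rr (k + 1)) t) ≤ -3 := by
    have h1 : ∑ k ∈ range k0, mean (fun t => ww k t * vv p τ (rr (k + 1)) t) ≤
        ∑ k ∈ range k0, (δ * (1 / (1 - rr (k + 1))) +
          τ * mean (fun t => ‖ff gc (rr (k + 1) * ee t)‖) - 4 * mean (lw k)) := by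
      apply sum_le_sum
      intro k _
      have := small_mean hD p hτ hδ0 k (hm' k)
      rw [mul_one_div]
      exact this
    rw [sum_sub_distrib, sum_add_distrib, ← mul_sum, ← mul_sum, ← mul_sum, ← hS1, ← hS2] at h1
    have h2 : 1 ≤ ∑ k ∈ range k0, mean (lw k) := by
      have h3 : mean (lw 0) ≤ ∑ k ∈ range k0, mean (lw k) := by
        apply single_le_sum (f := fun k => mean (lw k)) (fun k _ => mean_lw_nonneg k)
        simp only [mem_range]
        omega
      have h4 : mean (lw 0) = 1 := mean_const 1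
      linarith
    have h5 : δ * S1 ≤ ε0 * S1 := mul_le_mul_of_nonneg_right hδ1 hS1n
    linarith
  have hlow : -1 ≤ Real.log (max ‖p.eval 0‖ τ) := by
    have h1 : Real.log (1 / 2) ≤ Real.log (max ‖p.eval 0‖ τ) :=
      Real.log_le_log (by norm_num) (hp0.trans (le_max_left _ _))
    have h2 : Real.log (1 / 2) = - Real.log 2 := by
      rw [one_div, Real.log_inv]
    have h3 := Real.log_two_lt_d9
    linarith
  linarith

end Pool.Agent.Helper655.BD.Core
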