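import Mathlib
import Pool.Agent.Helper655.BDDefs

set_option autoImplicit false
open Finset

namespace Pool.Agent.Helper655.BD.J17


/-- TARGET 1 -/
theorem cv2_arr (A B : ℕ → Polynomial ℂ) (hA : ∀ n, (A n).natDegree ≤ n)
    (hB : ∀ n, (B n).natDegree ≤ n) (m n : ℕ) :
    cv2 (arr A) (arr B) m n = arr (cv A B) m n := by
  unfold cv2 arr cv
  rw [Polynomial.finsetSum_coeff]
  simp_rw [Polynomial.coeff_mul, Finset.Nat.sum_antidiagonal_eq_sum_range_succ_mk]
  rw [Finset.sum_comm, Finset.sum_comm (s := range (m + n + 1))]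
  apply Finset.sum_congr rfl
  intro j hj
  have hjn : j ≤ n := by
    have := Finset.mem_range.1 hj
    omega
  set f : ℕ → ℂ := fun p => (A p).coeff j * (B (m + n - p)).coeff (n - j) with hf
  have h1 : ∀ i ∈ range (m + 1),
      (A (i + j)).coeff j * (B (m - i + (n - j))).coeff (n - j) = f (i + j) := by
    intro i hi
    have : i ≤ m := by
      have := Finset.mem_range.1 hi
      omega
    simp only [hf]
    congr 3
    omega
  rw [Finset.sum_congr rfl h1]
  rw [Finset.range_eq_Ico, Finset.sum_Ico_add' f 0 (m + 1) j]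
  show _ = ∑ p ∈ range (m + n + 1), f p
  apply Finset.sum_subset
  · intro p hp
    rw [Finset.mem_Ico] at hp
    rw [Finset.mem_range]
    omega
  · intro p hp hp'
    rw [Finset.mem_range] at hp
    rw [Finset.mem_Ico] at hp'
    simp only [hf]
    by_cases h : p < j
    · rw [Polynomial.coeff_eq_zero_of_natDegree_lt (lt_of_le_of_lt (hA p) h), zero_mul]
    · have h2 : m + n - p < n - j := by omega
      rw [Polynomial.coeff_eq_zero_of_natDegree_lt (lt_of_le_of_lt (hB _) h2), mul_zero]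

/-- TARGET 2 -/
theorem tsum_arr (H : ℕ → Polynomial ℂ) (hH : ∀ n, (H n).natDegree ≤ n) :
    ∑' p : ℕ × ℕ, ENNReal.ofReal (‖arr H p.1 p.2‖ ^ 2) =
      ∑' n, ∑' j, ENNReal.ofReal (‖(H n).coeff j‖ ^ 2) := by
  set F : ℕ × ℕ → ENNReal := fun q => ENNReal.ofReal (‖(H q.1).coeff q.2‖ ^ 2) with hF
  have hinj : Function.Injective (fun p : ℕ × ℕ => (p.1 + p.2, p.2)) := by
    intro p q h
    simp only [Prod.mk.injEq] at h
    ext
    · omega
    · omega
  have hsupp : Function.support F ⊆ Set.range (fun p : ℕ × ℕ => (p.1 + p.2, p.2)) := by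
    intro q hq
    by_cases h : q.2 ≤ q.1
    · refine ⟨(q.1 - q.2, q.2), ?_⟩
      ext
      · show q.1 - q.2 + q.2 = q.1
        omega
      · rfl
    · exfalso
      apply hq
      simp only [hF]
      rw [Polynomial.coeff_eq_zero_of_natDegree_lt (lt_of_le_of_lt (hH q.1) (by omega))]
      simp
  have h1 := hinj.tsum_eq hsupp
  have h2 : ∑' q : ℕ × ℕ, F q = ∑' n, ∑' j, F (n, j) := ENNReal.tsum_prod' 
  rw [← h2, ← h1]
  rfl

end Pool.Agent.Helper655.BD.J17
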