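import Mathlib
import Pool.Agent.Helper655.BDDefs

set_option autoImplicit false
open Finset

namespace Pool.Agent.Helper655.BD.J9


private theorem C4_ee (t : ℝ) : ee t = circleMap 0 1 t := by
  simp [ee, circleMap]

private theorem C4_ee_cont : Continuous ee := by
  unfold ee
  fun_prop

private theorem C4_parseval (P : Polynomial ℂ) :
    ∑ i ∈ P.support, ‖P.coeff i‖ ^ 2 =
      (2 * Real.pi)⁻¹ * ∫ t in Set.Ioc (0:ℝ) (2 * Real.pi), ‖P.eval (ee t)‖ ^ 2 := by
  rw [P.sum_sq_norm_coeff_eq_circleAverage, Real.circleAverage_def,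
    intervalIntegral.integral_of_le (by positivity), smul_eq_mul]
  simp only [← C4_ee]

private theorem C4_one (P : Polynomial ℂ) :
    ∑' j, ENNReal.ofReal (‖P.coeff j‖ ^ 2) =
      ENNReal.ofReal (2 * Real.pi)⁻¹ * ∫⁻ t in Set.Ioc (0:ℝ) (2 * Real.pi),
        ENNReal.ofReal (‖P.eval (ee t)‖ ^ 2) := by
  have hc : Continuous fun t : ℝ => ‖P.eval (ee t)‖ ^ 2 := by
    have := C4_ee_cont
    have h2 : Continuous fun t : ℝ => P.eval (ee t) := P.continuous.comp this
    fun_prop
  have hi : MeasureTheory.IntegrableOn (fun t : ℝ => ‖P.eval (ee t)‖ ^ 2)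
      (Set.Ioc (0:ℝ) (2 * Real.pi)) :=
    (hc.continuousOn.integrableOn_compact isCompact_Icc).mono_set Set.Ioc_subset_Icc_self
  rw [← MeasureTheory.ofReal_integral_eq_lintegral_ofReal hi
    (Filter.Eventually.of_forall fun t => by positivity), ← ENNReal.ofReal_mul (by positivity),
    ← C4_parseval, ENNReal.ofReal_sum_of_nonneg (fun i _ => by positivity)]
  refine tsum_eq_sum fun j hj => ?_
  have : P.coeff j = 0 := by simpa using hj
  simp [this]

private theorem C4_norm (t : ℝ) (h0 : 0 ≤ t) (h1 : t ≤ 2 * Real.pi) :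
    ‖1 - ee t‖ = 2 * Real.sin (t / 2) := by
  have hs : 0 ≤ Real.sin (t / 2) :=
    Real.sin_nonneg_of_nonneg_of_le_pi (by linarith) (by linarith)
  have h2 : ‖1 - ee t‖ ^ 2 = (2 * Real.sin (t / 2)) ^ 2 := by
    have e1 : ee t = ⟨Real.cos t, Real.sin t⟩ := by
      rw [ee, Complex.exp_mul_I]
      apply Complex.ext
      · simp [Complex.cos_ofReal_re, Complex.sin_ofReal_im]
      · simp [Complex.sin_ofReal_re, Complex.cos_ofReal_im]
    rw [e1, ← Complex.normSq_eq_norm_sq, Complex.normSq_apply]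
    simp only [Complex.sub_re, Complex.one_re, Complex.sub_im, Complex.one_im]
    have e2 : Real.cos t = 1 - 2 * Real.sin (t / 2) ^ 2 := by
      have := Real.cos_two_mul (t / 2)
      have h3 := Real.sin_sq_add_cos_sq (t / 2)
      rw [show 2 * (t / 2) = t by ring] at this
      linarith
    have e3 := Real.sin_sq_add_cos_sq t
    nlinarith
  exact (pow_left_inj₀ (norm_nonneg _) (by positivity) two_ne_zero).1 h2

private theorem C4_vol (δ : ℝ) (hδ : 0 ≤ δ) :
    MeasureTheory.volume ({t : ℝ | ‖1 - ee t‖ < δ} ∩ Set.Ioc (0:ℝ) (2 * Real.pi)) ≤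
      ENNReal.ofReal (Real.pi * δ) := by
  have hpi := Real.pi_pos
  have hsub : {t : ℝ | ‖1 - ee t‖ < δ} ∩ Set.Ioc (0:ℝ) (2 * Real.pi) ⊆
      Set.Ioc 0 (Real.pi * δ / 2) ∪ Set.Ioc (2 * Real.pi - Real.pi * δ / 2) (2 * Real.pi) := by
    rintro t ⟨h1, h2, h3⟩
    have h1' : ‖1 - ee t‖ < δ := h1
    rw [C4_norm t h2.le h3] at h1'
    rcases le_total t Real.pi with h | h
    · left
      refine ⟨h2, ?_⟩
      have h4 : 2 / Real.pi * (t / 2) ≤ Real.sin (t / 2) :=
        Real.mul_le_sin (by linarith) (by linarith)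
      have h5 : 2 / Real.pi * (t / 2) = t / Real.pi := by ring
      rw [h5] at h4
      have h6 : t / Real.pi < δ / 2 := by linarith
      rw [div_lt_iff₀ hpi] at h6
      linarith
    · right
      refine ⟨?_, h3⟩
      have h4 : 2 / Real.pi * ((2 * Real.pi - t) / 2) ≤ Real.sin ((2 * Real.pi - t) / 2) :=
        Real.mul_le_sin (by linarith) (by linarith)
      have h5 : 2 / Real.pi * ((2 * Real.pi - t) / 2) = (2 * Real.pi - t) / Real.pi := by ring
      have h7 : Real.sin ((2 * Real.pi - t) / 2) = Real.sin (t / 2) := by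
        rw [show (2 * Real.pi - t) / 2 = Real.pi - t / 2 by ring, Real.sin_pi_sub]
      rw [h5, h7] at h4
      have h6 : (2 * Real.pi - t) / Real.pi < δ / 2 := by linarith
      rw [div_lt_iff₀ hpi] at h6
      linarith
  refine (MeasureTheory.measure_mono hsub).trans ((MeasureTheory.measure_union_le _ _).trans ?_)
  have hp : 0 ≤ Real.pi * δ / 2 := div_nonneg (mul_nonneg hpi.le hδ) (by norm_num)
  rw [Real.volume_Ioc, Real.volume_Ioc, ← ENNReal.ofReal_add (by linarith) (by linarith)]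
  apply ENNReal.ofReal_le_ofReal
  linarith

private theorem C4_dd (k : ℕ) : 0 ≤ dd k := by
  cases k with
  | zero => simp [dd]
  | succ k => simp only [dd]; positivity

private theorem C4_term (k : ℕ) :
    ∫⁻ t in Set.Ioc (0:ℝ) (2 * Real.pi),
      (if ‖1 - ee t‖ < dd k then ENNReal.ofReal (Real.exp (2 * (bb k + 1))) else 0) ≤
      ENNReal.ofReal (Real.exp (2 * (bb k + 1)) * (Real.pi * dd k)) := by
  have hm : MeasurableSet {t : ℝ | ‖1 - ee t‖ < dd k} := by
    refine (isOpen_lt ?_ continuous_const).measurableSet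
    have := C4_ee_cont
    fun_prop
  have h1 : ∀ t : ℝ, (if ‖1 - ee t‖ < dd k then ENNReal.ofReal (Real.exp (2 * (bb k + 1))) else 0)
      = Set.indicator {t : ℝ | ‖1 - ee t‖ < dd k}
        (fun _ => ENNReal.ofReal (Real.exp (2 * (bb k + 1)))) t := by
    intro t
    simp [Set.indicator_apply]
  simp only [h1]
  rw [MeasureTheory.lintegral_indicator_const hm, MeasureTheory.Measure.restrict_apply hm,
    ENNReal.ofReal_mul (Real.exp_pos _).le]
  gcongr
  exact C4_vol _ (C4_dd k)

private theorem C4_summable :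
    Summable fun k => Real.exp (2 * (bb k + 1)) * (Real.pi * dd k) := by
  rw [← summable_nat_add_iff 1]
  have hs : Summable fun k : ℕ => 32 * Real.pi * Real.exp 2 * (1 / 2 : ℝ) ^ k :=
    (summable_geometric_of_lt_one (by norm_num) (by norm_num)).mul_left _
  refine Summable.of_nonneg_of_le (fun k => ?_) (fun k => ?_) hs
  · have := C4_dd (k + 1)
    have := Real.pi_pos
    positivity
  · have e1 : Real.exp (2 * (bb (k + 1) + 1)) = Real.exp 2 * 2 ^ nn (k + 1) := by
      simp only [bb]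
      rw [show 2 * ((nn (k + 1) : ℝ) * Real.log 2 / 2 + 1) = 2 + (nn (k + 1) : ℝ) * Real.log 2 by ring,
        Real.exp_add, Real.exp_nat_mul, Real.exp_log (by norm_num)]
    have e2 : dd (k + 1) = 32 * ((2 : ℝ) ^ nn (k + 1))⁻¹ * (1 / 2) ^ (5 * (k + 2) ^ 2) := by
      simp only [dd]
      rw [pow_add, one_div, inv_pow]
      field_simp
      norm_num
    rw [e1, e2]
    have h0 : (0 : ℝ) < 2 ^ nn (k + 1) := by positivity
    have e3 : Real.exp 2 * 2 ^ nn (k + 1) *
        (Real.pi * (32 * ((2 : ℝ) ^ nn (k + 1))⁻¹ * (1 / 2) ^ (5 * (k + 2) ^ 2))) =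
        32 * Real.pi * Real.exp 2 * (1 / 2) ^ (5 * (k + 2) ^ 2) := by
      field_simp
    rw [e3]
    have h4 : (1 / 2 : ℝ) ^ (5 * (k + 2) ^ 2) ≤ (1 / 2) ^ k := by
      apply pow_le_pow_of_le_one (by norm_num) (by norm_num)
      nlinarith
    have := Real.pi_pos
    gcongr

/-- TARGET 1 -/
theorem slice (H : ℕ → Polynomial ℂ) :
    ∑' n, ∑' j, ENNReal.ofReal (‖(H n).coeff j‖ ^ 2) =
      ENNReal.ofReal (2 * Real.pi)⁻¹ * ∫⁻ t in Set.Ioc (0:ℝ) (2 * Real.pi),
        ∑' n, ENNReal.ofReal (‖(H n).eval (ee t)‖ ^ 2) := by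
  rw [MeasureTheory.lintegral_tsum, ← ENNReal.tsum_mul_left]
  · exact tsum_congr fun n => C4_one (H n)
  · intro n
    have h2 : Continuous fun t : ℝ => (H n).eval (ee t) := (H n).continuous.comp C4_ee_cont
    have h3 : Continuous fun t : ℝ => ‖(H n).eval (ee t)‖ ^ 2 := by fun_prop
    exact (ENNReal.continuous_ofReal.comp h3).measurable.aemeasurable

/-- TARGET 2 -/
theorem Th_int : ∫⁻ t in Set.Ioc (0:ℝ) (2 * Real.pi), Th (ee t) < ⊤ := by
  unfold Th
  rw [MeasureTheory.lintegral_tsum]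
  · refine lt_of_le_of_lt (ENNReal.tsum_le_tsum C4_term) ?_
    rw [← ENNReal.ofReal_tsum_of_nonneg _ C4_summable]
    · exact ENNReal.ofReal_lt_top
    · intro k
      have := C4_dd k
      have := Real.pi_pos
      positivity
  · intro k
    refine Measurable.aemeasurable (Measurable.ite ?_ measurable_const measurable_const)
    refine (isOpen_lt ?_ continuous_const).measurableSet
    have := C4_ee_cont
    fun_prop

end Pool.Agent.Helper655.BD.J9
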