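import Mathlib
import Pool.Agent.Helper655.BDDefs
import Pool.Agent.Helper655.BDJ6
import Pool.Agent.Helper655.BDJ7
import Pool.Agent.Helper655.BDJ8
import Pool.Agent.Helper655.BDJ15
import Pool.Agent.Helper655.BDCore

set_option autoImplicit false
open Finset

namespace Pool.Agent.Helper655.BD.Low

open Pool.Agent.Helper655.BD.J6 (expSeq_map)
open Pool.Agent.Helper655.BD.J7 (expSeq_hasSum)
open Pool.Agent.Helper655.BD.J8 (parseval)
open Pool.Agent.Helper655.BD.J15 (gc_summable geo_bd)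

theorem gc0 {gc : ℕ → ℂ} (hD : Data gc) : gc 0 = 0 := hD.low 0 (by unfold MM; positivity)

theorem AA_eval_one (gc : ℕ → ℂ) (n : ℕ) : (AA 1 gc n).eval 1 = gc n := by
  unfold AA
  rw [Polynomial.eval_mul, Polynomial.eval_C, Polynomial.eval_finsetSum]
  simp only [Polynomial.eval_pow, Polynomial.eval_X, one_pow, sum_const, card_range,
    nsmul_eq_mul, mul_one, one_mul]
  have : (n : ℂ) + 1 ≠ 0 := Nat.cast_add_one_ne_zero n
  push_cast
  field_simp

theorem expSeq_eval_one (gc : ℕ → ℂ) (n : ℕ) :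
    (expSeq (AA 1 gc) n).eval 1 = expSeq gc n := by
  have h := expSeq_map (Polynomial.aeval (R := ℂ) (1:ℂ)) (AA 1 gc) n
  simp only [Polynomial.coe_aeval_eq_eval] at h
  rw [h]
  congr 1
  funext m
  exact AA_eval_one gc m

theorem cv_eval (A B : ℕ → Polynomial ℂ) (n : ℕ) (w : ℂ) :
    (cv A B n).eval w = cv (fun m => (A m).eval w) (fun m => (B m).eval w) n := by
  unfold cv
  rw [Polynomial.eval_finsetSum]
  simp only [Polynomial.eval_mul]

/-- product of a finitely supported sequence and an absolutely summable series -/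
theorem hasSum_fin_mul (a e : ℕ → ℂ) (N : ℕ) (ha : ∀ n, N ≤ n → a n = 0) (x F : ℂ)
    (hs : Summable fun n => ‖e n‖ * ‖x‖ ^ n) (hF : HasSum (fun n => e n * x ^ n) F) :
    (Summable fun n => ‖cv a e n‖ * ‖x‖ ^ n) ∧
      HasSum (fun n => cv a e n * x ^ n) ((∑ n ∈ range N, a n * x ^ n) * F) := by
  have h1 : HasSum (fun n => a n * x ^ n) (∑ n ∈ range N, a n * x ^ n) := by
    apply hasSum_sum_of_ne_finset_zero
    intro n hn
    rw [mem_range, not_lt] at hn
    rw [ha n hn, zero_mul]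
  have h1s : Summable fun n => ‖a n * x ^ n‖ := by
    apply summable_of_ne_finset_zero (s := range N)
    intro n hn
    rw [mem_range, not_lt] at hn
    rw [ha n hn, zero_mul, norm_zero]
  have h2s : Summable fun n => ‖e n * x ^ n‖ := by
    refine hs.congr fun n => ?_
    rw [norm_mul, norm_pow]
  have key : ∀ n, ∑ k ∈ range (n + 1), (a k * x ^ k) * (e (n - k) * x ^ (n - k)) =
      cv a e n * x ^ n := by
    intro n
    unfold cv
    rw [sum_mul]
    apply sum_congr rfl
    intro k hk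
    rw [mem_range] at hk
    have : x ^ n = x ^ k * x ^ (n - k) := by
      rw [← pow_add]
      congr 1
      omega
    rw [this]
    ring
  have h3 := summable_norm_sum_mul_range_of_summable_norm h1s h2s
  have h4 := tsum_mul_tsum_eq_tsum_sum_range_of_summable_norm h1s h2s
  constructor
  · refine h3.congr fun n => ?_
    rw [key, norm_mul, norm_pow]
  · have h5 : HasSum (fun n => ∑ k ∈ range (n + 1), (a k * x ^ k) * (e (n - k) * x ^ (n - k)))
        ((∑' n, a n * x ^ n) * ∑' n, e n * x ^ n) := by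
      rw [h4]
      exact h3.of_norm.hasSum
    rw [h1.tsum_eq, hF.tsum_eq] at h5
    refine h5.congr_fun ?_ |> fun h => h
    intro n
    exact (key n).symm

theorem norm_sq_eval_le (Q : Polynomial ℂ) (n : ℕ) (hQ : Q.natDegree ≤ n) :
    ‖Q.eval 1‖ ^ 2 ≤ (n + 1) * ∑ j ∈ range (n + 1), ‖Q.coeff j‖ ^ 2 := by
  have h1 : Q.eval 1 = ∑ j ∈ range (n + 1), Q.coeff j := by
    rw [Polynomial.eval_eq_sum_range' (Nat.lt_succ_of_le hQ)]
    simp
  rw [h1]
  calc ‖∑ j ∈ range (n + 1), Q.coeff j‖ ^ 2 ≤ (∑ j ∈ range (n + 1), ‖Q.coeff j‖) ^ 2 :=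
        pow_le_pow_left₀ (norm_nonneg _) (norm_sum_le _ _) 2
    _ ≤ (#(range (n + 1)) : ℝ) * ∑ j ∈ range (n + 1), ‖Q.coeff j‖ ^ 2 :=
        sq_sum_le_card_mul_sum_sq
    _ = _ := by rw [card_range]; push_cast; ring

theorem low_bound {gc : ℕ → ℂ} (hD : Data gc) : ∃ ε0 : ℝ, 0 < ε0 ∧ ∀ P : ℕ → Polynomial ℂ,
    (∀ n, (P n).natDegree ≤ n) → (∃ N : ℕ, ∀ n, N ≤ n → P n = 0) →
    ENNReal.ofReal ε0 ≤ ∑' n, ∑' j, ENNReal.ofReal (‖(cv P (expSeq (AA 1 gc)) n -
      if n = 0 then 1 else 0).coeff j‖ ^ 2) := by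
  obtain ⟨e0, he0, hcore⟩ := Core.core hD
  refine ⟨e0 ^ 2, by positivity, fun P hP ⟨N, hN⟩ => ?_⟩
  by_contra hlt
  push Not at hlt
  set H : ℕ → Polynomial ℂ := fun n => cv P (expSeq (AA 1 gc)) n - if n = 0 then 1 else 0 with hH
  set S : ENNReal := ∑' n, ∑' j, ENNReal.ofReal (‖(H n).coeff j‖ ^ 2) with hS
  have hSlt : S < ENNReal.ofReal (e0 ^ 2) := hlt
  have hStop : S ≠ ⊤ := (hSlt.trans ENNReal.ofReal_lt_top).ne
  -- degrees
  have hE : ∀ n, (expSeq (AA 1 gc) n).natDegree ≤ n := by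
    apply J6.expSeq_natDegree
    intro n
    unfold AA
    refine (Polynomial.natDegree_C_mul_le _ _).trans ?_
    apply Polynomial.natDegree_sum_le_of_forall_le
    intro j hj
    rw [mem_range] at hj
    rw [Polynomial.natDegree_X_pow]
    omega
  have hHd : ∀ n, (H n).natDegree ≤ n := by
    intro n
    refine (Polynomial.natDegree_sub_le _ _).trans (max_le ?_ ?_)
    · unfold cv
      apply Polynomial.natDegree_sum_le_of_forall_le
      intro m hm
      rw [mem_range] at hm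
      refine Polynomial.natDegree_mul_le.trans ?_
      have h1 := hP m
      have h2 := hE (n - m)
      omega
    · split_ifs <;> simp
  -- the l2 sums
  set s : ℕ → ℝ := fun n => ∑ j ∈ range (n + 1), ‖(H n).coeff j‖ ^ 2 with hs
  have hs0 : ∀ n, 0 ≤ s n := fun n => sum_nonneg fun j _ => sq_nonneg _
  have hsS : ∑' n, ENNReal.ofReal (s n) ≤ S := by
    apply ENNReal.tsum_le_tsum
    intro n
    rw [hs, ENNReal.ofReal_sum_of_nonneg (fun j _ => sq_nonneg _)]
    exact ENNReal.sum_le_tsum _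
  have hsum : Summable s := by
    have h1 : ∑' n, ENNReal.ofReal (s n) ≠ ⊤ := ne_top_of_le_ne_top hStop hsS
    have h2 := ENNReal.summable_toReal h1
    refine h2.congr fun n => ?_
    rw [ENNReal.toReal_ofReal (hs0 n)]
  have hts : ∑' n, s n ≤ S.toReal := by
    have h1 := ENNReal.toReal_mono hStop hsS
    rw [← ENNReal.ofReal_tsum_of_nonneg hs0 hsum, ENNReal.toReal_ofReal (tsum_nonneg hs0)] at h1
    exact h1
  set ε : ℝ := Real.sqrt S.toReal with hε
  have hε0 : 0 ≤ ε := Real.sqrt_nonneg _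
  have hε2 : ε ^ 2 = S.toReal := Real.sq_sqrt ENNReal.toReal_nonneg
  have hεlt : ε < e0 := by
    have h1 : S.toReal < e0 ^ 2 := by
      have := (ENNReal.toReal_lt_toReal hStop ENNReal.ofReal_ne_top).2 hSlt
      rwa [ENNReal.toReal_ofReal (by positivity)] at this
    rw [← hε2] at h1
    exact lt_of_pow_lt_pow_left₀ 2 he0.le h1
  -- the diagonal functions
  set a : ℕ → ℂ := fun n => (P n).eval 1 with ha
  set h : ℕ → ℂ := fun n => (H n).eval 1 with hh
  have hhn : ∀ n, h n = cv a (expSeq gc) n - if n = 0 then 1 else 0 := by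
    intro n
    simp only [hh, hH, Polynomial.eval_sub, cv_eval]
    congr 1
    · unfold cv
      apply sum_congr rfl
      intro m _
      show a m * (expSeq (AA 1 gc) (n - m)).eval 1 = a m * expSeq gc (n - m)
      rw [expSeq_eval_one]
    · split_ifs <;> simp
  have ha0 : ∀ n, N ≤ n → a n = 0 := by
    intro n hn
    simp only [ha, hN n hn, Polynomial.eval_zero]
  set p : Polynomial ℂ := ∑ n ∈ range N, Polynomial.C (a n) * Polynomial.X ^ n with hp
  have hpe : ∀ x, p.eval x = ∑ n ∈ range N, a n * x ^ n := by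
    intro x
    rw [hp, Polynomial.eval_finsetSum]
    simp only [Polynomial.eval_mul, Polynomial.eval_C, Polynomial.eval_pow, Polynomial.eval_X]
  have hff : ∀ x : ℂ, ‖x‖ < 1 → (Summable fun n => ‖expSeq gc n‖ * ‖x‖ ^ n) ∧
      HasSum (fun n => expSeq gc n * x ^ n) (ff gc x) := by
    intro x hx
    exact expSeq_hasSum gc x (gc0 hD) (gc_summable hD ‖x‖ (norm_nonneg _) hx)
  have hmul : ∀ x : ℂ, ‖x‖ < 1 → (Summable fun n => ‖h n‖ * ‖x‖ ^ n) ∧
      HasSum (fun n => h n * x ^ n) (p.eval x * ff gc x - 1) := by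
    intro x hx
    obtain ⟨h1, h2⟩ := hff x hx
    obtain ⟨h3, h4⟩ := hasSum_fin_mul a (expSeq gc) N ha0 x (ff gc x) h1 h2
    have h5 : HasSum (fun n : ℕ => (if n = 0 then (1:ℂ) else 0) * x ^ n) 1 := by
      have := hasSum_single (f := fun n : ℕ => (if n = 0 then (1:ℂ) else 0) * x ^ n) 0
        (fun n hn => by simp [hn])
      simpa using this
    constructor
    · have h6 : Summable fun n : ℕ => ‖(if n = 0 then (1:ℂ) else 0)‖ * ‖x‖ ^ n := by
        apply summable_of_ne_finset_zero (s := {0})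
        intro n hn
        rw [mem_singleton] at hn
        simp [hn]
      refine Summable.of_nonneg_of_le (fun n => by positivity) (fun n => ?_) (h3.add h6)
      rw [hhn n, ← add_mul]
      exact mul_le_mul_of_nonneg_right (norm_sub_le _ _) (by positivity)
    · rw [hpe x]
      have h6 := h4.sub h5
      refine h6.congr_fun ?_
      intro n
      rw [hhn n]
      ring
  have hne : ∀ n, ‖h n‖ ^ 2 ≤ (n + 1) * s n := fun n => norm_sq_eval_le (H n) n (hHd n)
  have hε1 : ‖p.eval 0 - 1‖ ≤ ε := by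
    have h1 := (hmul 0 (by simp)).2
    have h2 : HasSum (fun n => h n * (0:ℂ) ^ n) (h 0) := by
      have := hasSum_single (f := fun n => h n * (0:ℂ) ^ n) 0 (fun n hn => by simp [hn])
      simpa using this
    have h3 := h1.unique h2
    have h4 : ff gc 0 = 1 := by
      have h5 : ∑' n, gc n * (0:ℂ) ^ n = 0 := by
        have h6 : HasSum (fun n => gc n * (0:ℂ) ^ n) (gc 0 * (0:ℂ) ^ 0) :=
          hasSum_single 0 (fun n hn => by simp [hn])
        rw [h6.tsum_eq, gc0 hD, zero_mul]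
      unfold ff
      rw [h5, Complex.exp_zero]
    rw [h4, mul_one] at h3
    rw [h3]
    have h5 := hne 0
    have h6 : s 0 ≤ ∑' n, s n := hsum.le_tsum 0 (fun j _ => hs0 j)
    apply Real.le_sqrt_of_sq_le
    have h7 : ‖h 0‖ ^ 2 ≤ s 0 := by simpa using h5
    linarith
  have hmain := hcore p ε hε0 hε1 ?_
  · linarith
  intro k hk
  have hr0 := Core.rr_nonneg k
  have hr1 := Core.rr_lt_one k
  set r := rr k with hr
  have h1 : Summable fun n => ‖h n‖ * r ^ n := by
    have := (hmul (r:ℂ) (by rwa [Complex.norm_real, Real.norm_of_nonneg hr0])).1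
    rwa [Complex.norm_real, Real.norm_of_nonneg hr0] at this
  obtain ⟨h2, h3⟩ := parseval h r hr0 h1
  have h4 : (fun t => ‖p.eval (r * ee t) * ff gc (r * ee t) - 1‖ ^ 2) =
      fun t => ‖∑' n, h n * (r * ee t) ^ n‖ ^ 2 := by
    funext t
    have hx : ‖(r:ℂ) * ee t‖ < 1 := by
      rw [norm_mul, Core.norm_ee, Complex.norm_real, Real.norm_of_nonneg hr0, mul_one]
      exact hr1
    rw [(hmul _ hx).2.tsum_eq]
  rw [h4, h3]
  have hpos : 0 < 1 - r := by linarith
  have h5 : ∀ n, ‖h n‖ ^ 2 * r ^ (2 * n) ≤ 1 / (1 - r) * s n := by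
    intro n
    have h6 : ((n:ℝ) + 1) * (r ^ 2) ^ n ≤ 1 / (1 - r ^ 2) := geo_bd (r ^ 2) (by positivity) (by nlinarith) n
    have h7 : 1 / (1 - r ^ 2) ≤ 1 / (1 - r) := by
      apply one_div_le_one_div_of_le hpos
      nlinarith
    calc ‖h n‖ ^ 2 * r ^ (2 * n) ≤ ((n + 1) * s n) * r ^ (2 * n) :=
          mul_le_mul_of_nonneg_right (hne n) (by positivity)
      _ = (((n:ℝ) + 1) * (r ^ 2) ^ n) * s n := by rw [pow_mul]; ring
      _ ≤ 1 / (1 - r) * s n := mul_le_mul_of_nonneg_right (h6.trans h7) (hs0 n)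
  calc ∑' n, ‖h n‖ ^ 2 * r ^ (2 * n) ≤ ∑' n, 1 / (1 - r) * s n :=
        h2.tsum_le_tsum h5 (hsum.mul_left _)
    _ = 1 / (1 - r) * ∑' n, s n := tsum_mul_left
    _ ≤ 1 / (1 - r) * S.toReal := mul_le_mul_of_nonneg_left hts (by positivity)
    _ = ε ^ 2 / (1 - r) := by rw [hε2]; ring

end Pool.Agent.Helper655.BD.Low
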