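import Mathlib
import Pool.Agent.Helper655.BDDefs
import Pool.Agent.Helper655.BDJ6
import Pool.Agent.Helper655.BDJ9
import Pool.Agent.Helper655.BDJ10
import Pool.Agent.Helper655.BDJ17
import Pool.Agent.Helper655.BDLow

set_option autoImplicit false
open Finset

namespace Pool.Agent.Helper655.BD.Fin

open Pool.Agent.Helper655.BD.J6 (expSeq_succ expSeq_zero' expSeq_add expSeq_zero expSeq_map expSeq_natDegree)
open Pool.Agent.Helper655.BD.J9 (slice Th_int)
open Pool.Agent.Helper655.BD.J10 (slice_bound)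
open Pool.Agent.Helper655.BD.J17 (cv2_arr tsum_arr)
open Pool.Agent.Helper655.BD.Low (low_bound cv_eval)

theorem AA_natDegree (l : ℂ) (gc : ℕ → ℂ) (n : ℕ) : (AA l gc n).natDegree ≤ n := by
  unfold AA
  refine (Polynomial.natDegree_C_mul_le _ _).trans ?_
  apply Polynomial.natDegree_sum_le_of_forall_le
  intro j hj
  rw [Polynomial.natDegree_X_pow]
  have := mem_range.1 hj
  omega

theorem exp_natDegree (l : ℂ) (gc : ℕ → ℂ) (n : ℕ) : (expSeq (AA l gc) n).natDegree ≤ n :=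
  expSeq_natDegree _ (AA_natDegree l gc) n

theorem ee_ne_one {t : ℝ} (h0 : 0 < t) (h1 : t < 2 * Real.pi) : ee t ≠ 1 := by
  intro h
  unfold ee at h
  rw [Complex.exp_eq_one_iff] at h
  obtain ⟨n, hn⟩ := h
  have h2 : (t : ℂ) = n * (2 * Real.pi) := by
    have h3 : (t : ℂ) * Complex.I = (n * (2 * Real.pi)) * Complex.I := by
      rw [hn]; ring
    exact mul_right_cancel₀ Complex.I_ne_zero h3
  have h3 : t = n * (2 * Real.pi) := by exact_mod_cast h2
  have hpi := Real.pi_pos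
  have h4 : (0:ℝ) < n := by
    by_contra hc
    push Not at hc
    nlinarith
  have h5 : (n:ℝ) < 1 := by
    by_contra hc
    push Not at hc
    nlinarith
  have h6 : 0 < n := by exact_mod_cast h4
  have h7 : n < 1 := by exact_mod_cast h5
  omega

theorem norm_ee (t : ℝ) : ‖ee t‖ = 1 := by
  unfold ee
  exact Complex.norm_exp_ofReal_mul_I t

theorem sq_fin {gc : ℕ → ℂ} (hD : Data gc) (l : ℝ) (hl : |l| ≤ 1) :
    ∑' n, ∑' j, ENNReal.ofReal (‖(expSeq (AA l gc) n).coeff j‖ ^ 2) < ⊤ := by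
  rw [Pool.Agent.Helper655.BD.J9.slice]
  apply ENNReal.mul_lt_top ENNReal.ofReal_lt_top
  refine lt_of_le_of_lt ?_ Th_int
  rw [MeasureTheory.restrict_Ioo_eq_restrict_Ioc.symm]
  apply MeasureTheory.lintegral_mono_ae
  rw [MeasureTheory.ae_restrict_iff' measurableSet_Ioo]
  refine Filter.Eventually.of_forall ?_
  intro t ht
  exact slice_bound hD l hl (ee t) (norm_ee t) (ee_ne_one ht.1 ht.2)

theorem arr_summable (H : ℕ → Polynomial ℂ) (hH : ∀ n, (H n).natDegree ≤ n)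
    (h : ∑' n, ∑' j, ENNReal.ofReal (‖(H n).coeff j‖ ^ 2) < ⊤) :
    Summable fun p : ℕ × ℕ => ‖arr H p.1 p.2‖ ^ 2 := by
  rw [← tsum_arr H hH] at h
  have h1 := ENNReal.summable_toReal h.ne
  refine h1.congr ?_
  intro p
  rw [ENNReal.toReal_ofReal (by positivity)]

/-- the polynomial sequence attached to an array -/
noncomputable def PP (c : ℕ → ℕ → ℂ) (n : ℕ) : Polynomial ℂ :=
  ∑ j ∈ range (n + 1), Polynomial.C (c (n - j) j) * Polynomial.X ^ j

theorem PP_natDegree (c : ℕ → ℕ → ℂ) (n : ℕ) : (PP c n).natDegree ≤ n := by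
  unfold PP
  apply Polynomial.natDegree_sum_le_of_forall_le
  intro j hj
  refine (Polynomial.natDegree_C_mul_X_pow_le _ _).trans ?_
  have := mem_range.1 hj
  omega

theorem PP_coeff (c : ℕ → ℕ → ℂ) (n j : ℕ) : (PP c n).coeff j = if j ≤ n then c (n - j) j else 0 := by
  unfold PP
  rw [Polynomial.finsetSum_coeff]
  simp only [Polynomial.coeff_C_mul_X_pow]
  rw [Finset.sum_ite_eq (range (n + 1)) j]
  simp only [mem_range, Nat.lt_succ_iff]

theorem arr_PP (c : ℕ → ℕ → ℂ) : arr (PP c) = c := by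
  funext i j
  unfold arr
  rw [PP_coeff, if_pos (by omega)]
  congr 1
  omega

theorem PP_zero (c : ℕ → ℕ → ℂ) (N : ℕ) (h : ∀ i j : ℕ, N ≤ i ∨ N ≤ j → c i j = 0) (n : ℕ)
    (hn : 2 * N ≤ n) : PP c n = 0 := by
  unfold PP
  apply sum_eq_zero
  intro j hj
  have := mem_range.1 hj
  rw [h (n - j) j (by omega)]
  simp

theorem arr_one (i j : ℕ) :
    (if i + j = 0 then (1 : Polynomial ℂ) else 0).coeff j = if i = 0 ∧ j = 0 then (1:ℂ) else 0 := by
  by_cases hi : i = 0
  · by_cases hj : j = 0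
    · simp [hi, hj]
    · rw [if_neg (by omega), if_neg (by omega), Polynomial.coeff_zero]
  · rw [if_neg (by omega), if_neg (by omega), Polynomial.coeff_zero]

theorem cv_natDegree (A B : ℕ → Polynomial ℂ) (hA : ∀ n, (A n).natDegree ≤ n)
    (hB : ∀ n, (B n).natDegree ≤ n) (n : ℕ) : (cv A B n).natDegree ≤ n := by
  unfold cv
  apply Polynomial.natDegree_sum_le_of_forall_le
  intro m hm
  have := mem_range.1 hm
  refine Polynomial.natDegree_mul_le.trans ?_
  have h1 := hA m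
  have h2 := hB (n - m)
  omega

/-- square-summability is kept by multiplication with a finite array -/
theorem cv2_memlp (c a : ℕ → ℕ → ℂ) (N : ℕ) (hc : ∀ i j : ℕ, N ≤ i ∨ N ≤ j → c i j = 0)
    (ha : Summable fun p : ℕ × ℕ => ‖a p.1 p.2‖ ^ 2) :
    Memℓp (E := fun _ => ℂ) (fun p : ℕ × ℕ => cv2 c a p.1 p.2) 2 := by
  have key : (fun p : ℕ × ℕ => cv2 c a p.1 p.2) = fun p : ℕ × ℕ =>
      ∑ q ∈ range N ×ˢ range N, c q.1 q.2 * (if q.1 ≤ p.1 ∧ q.2 ≤ p.2 then a (p.1 - q.1) (p.2 - q.2) else 0) := by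
    funext p
    unfold cv2
    rw [← sum_product']
    set g : ℕ × ℕ → ℂ := fun q => c q.1 q.2 *
      (if q.1 ≤ p.1 ∧ q.2 ≤ p.2 then a (p.1 - q.1) (p.2 - q.2) else 0) with hg
    have e1 : ∑ x ∈ range (p.1 + 1) ×ˢ range (p.2 + 1), c x.1 x.2 * a (p.1 - x.1) (p.2 - x.2) =
        ∑ x ∈ range (p.1 + 1) ×ˢ range (p.2 + 1), g x := by
      apply sum_congr rfl
      intro x hx
      rw [mem_product, mem_range, mem_range] at hx
      simp only [hg]
      rw [if_pos (by omega)]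
    rw [e1]
    set M := max N (max (p.1 + 1) (p.2 + 1)) with hM
    have e2 : ∑ x ∈ range (p.1 + 1) ×ˢ range (p.2 + 1), g x = ∑ x ∈ range M ×ˢ range M, g x := by
      apply sum_subset
      · apply product_subset_product <;> apply range_mono <;> omega
      · intro x _ hx
        rw [mem_product, mem_range, mem_range] at hx
        simp only [hg]
        rw [if_neg (by omega), mul_zero]
    have e3 : ∑ x ∈ range N ×ˢ range N, g x = ∑ x ∈ range M ×ˢ range M, g x := by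
      apply sum_subset
      · apply product_subset_product <;> apply range_mono <;> omega
      · intro x _ hx
        rw [mem_product, mem_range, mem_range] at hx
        simp only [hg]
        rw [hc x.1 x.2 (by omega), zero_mul]
    rw [e2, e3]
  rw [key]
  have h1 : ∀ q ∈ range N ×ˢ range N, Memℓp (E := fun _ => ℂ) (fun p : ℕ × ℕ =>
      c q.1 q.2 * (if q.1 ≤ p.1 ∧ q.2 ≤ p.2 then a (p.1 - q.1) (p.2 - q.2) else 0)) 2 := by
    intro q _
    have h2 : Memℓp (E := fun _ => ℂ) (fun p : ℕ × ℕ =>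
      (if q.1 ≤ p.1 ∧ q.2 ≤ p.2 then a (p.1 - q.1) (p.2 - q.2) else 0)) 2 := by
      apply memℓp_gen
      have hinj : Function.Injective (fun p : ℕ × ℕ => (p.1 + q.1, p.2 + q.2)) := by
        intro x y hxy
        simp only [Prod.mk.injEq] at hxy
        ext <;> omega
      have h3 := hinj.summable_iff (f := fun p : ℕ × ℕ =>
        ‖(if q.1 ≤ p.1 ∧ q.2 ≤ p.2 then a (p.1 - q.1) (p.2 - q.2) else 0)‖ ^ (2:ENNReal).toReal) ?_
      · apply h3.1
        refine ha.congr ?_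
        intro p
        simp only [Function.comp]
        rw [if_pos (by omega)]
        simp
      · intro p hp
        rw [if_neg]
        · simp
        · intro hc'
          apply hp
          refine ⟨(p.1 - q.1, p.2 - q.2), ?_⟩
          ext
          · show p.1 - q.1 + q.1 = p.1
            omega
          · show p.2 - q.2 + q.2 = p.2
            omega
    exact h2.const_mul (c q.1 q.2)
  have h4 := Memℓp.finsetSum (E := fun _ : ℕ × ℕ => ℂ) (p := 2) (range N ×ˢ range N) (f := fun q p =>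
      c q.1 q.2 * (if q.1 ≤ p.1 ∧ q.2 ≤ p.2 then a (p.1 - q.1) (p.2 - q.2) else 0)) h1
  exact h4

theorem cv2_sub_summable (c a : ℕ → ℕ → ℂ) (N : ℕ) (hc : ∀ i j : ℕ, N ≤ i ∨ N ≤ j → c i j = 0)
    (ha : Summable fun p : ℕ × ℕ => ‖a p.1 p.2‖ ^ 2) :
    Summable fun p : ℕ × ℕ => ‖cv2 c a p.1 p.2 - (if p.1 = 0 ∧ p.2 = 0 then (1:ℂ) else 0)‖ ^ 2 := by
  have h1 := cv2_memlp c a N hc ha
  have h2 : Memℓp (E := fun _ => ℂ) (fun p : ℕ × ℕ => if p.1 = 0 ∧ p.2 = 0 then (1:ℂ) else 0) 2 := by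
    apply memℓp_gen
    apply summable_of_ne_finset_zero (s := {(0, 0)})
    intro p hp
    rw [if_neg]
    · simp
    · intro h
      apply hp
      rw [mem_singleton]
      ext
      · exact h.1
      · exact h.2
  have h3 := h1.sub h2
  have h4 := h3.summable (by norm_num)
  refine h4.congr ?_
  intro p
  simp

/-- the lower bound for arrays -/
theorem arr_low {gc : ℕ → ℂ} (hD : Data gc) : ∃ ε : ℝ, 0 < ε ∧
    ∀ c : ℕ → ℕ → ℂ, ∀ N : ℕ, (∀ i j : ℕ, N ≤ i ∨ N ≤ j → c i j = 0) →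
      ε ≤ ∑' p : ℕ × ℕ, ‖cv2 c (arr (expSeq (AA 1 gc))) p.1 p.2 -
        (if p.1 = 0 ∧ p.2 = 0 then (1 : ℂ) else 0)‖ ^ 2 := by
  obtain ⟨ε, hε, h⟩ := low_bound hD
  refine ⟨ε, hε, ?_⟩
  intro c N hc
  have ha : Summable fun p : ℕ × ℕ => ‖arr (expSeq (AA 1 gc)) p.1 p.2‖ ^ 2 := by
    apply arr_summable _ (exp_natDegree 1 gc)
    have := sq_fin hD 1 (by simp)
    simpa using this
  have hs := cv2_sub_summable c _ N hc ha
  have h1 := h (PP c) (PP_natDegree c) ⟨2 * N, fun n hn => PP_zero c N hc n hn⟩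
  set H : ℕ → Polynomial ℂ := fun n => cv (PP c) (expSeq (AA 1 gc)) n - if n = 0 then 1 else 0 with hH
  have hHd : ∀ n, (H n).natDegree ≤ n := by
    intro n
    refine (Polynomial.natDegree_sub_le _ _).trans (max_le ?_ ?_)
    · exact cv_natDegree _ _ (PP_natDegree c) (exp_natDegree 1 gc) n
    · split_ifs <;> simp
  have h2 : ∑' n, ∑' j, ENNReal.ofReal (‖(H n).coeff j‖ ^ 2) =
      ENNReal.ofReal (∑' p : ℕ × ℕ, ‖cv2 c (arr (expSeq (AA 1 gc))) p.1 p.2 -
        (if p.1 = 0 ∧ p.2 = 0 then (1 : ℂ) else 0)‖ ^ 2) := by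
    rw [← tsum_arr H hHd, ENNReal.ofReal_tsum_of_nonneg (fun p => by positivity) hs]
    apply tsum_congr
    intro p
    congr 3
    unfold arr
    simp only [hH, Polynomial.coeff_sub]
    rw [arr_one]
    congr 1
    have h3 := cv2_arr (PP c) (expSeq (AA 1 gc)) (PP_natDegree c) (exp_natDegree 1 gc) p.1 p.2
    rw [arr_PP] at h3
    rw [show (fun i j => ((expSeq (AA 1 gc)) (i + j)).coeff j) = arr (expSeq (AA 1 gc)) from rfl, h3]
    rfl
  have h5 : ENNReal.ofReal ε ≤ ENNReal.ofReal (∑' p : ℕ × ℕ, ‖cv2 c (arr (expSeq (AA 1 gc))) p.1 p.2 -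
        (if p.1 = 0 ∧ p.2 = 0 then (1 : ℂ) else 0)‖ ^ 2) := by
    rw [← h2]
    exact h1
  exact (ENNReal.ofReal_le_ofReal_iff (tsum_nonneg fun p => by positivity)).1 h5

theorem AA_add (l m : ℂ) (gc : ℕ → ℂ) (n : ℕ) : AA l gc n + AA m gc n = AA (l + m) gc n := by
  unfold AA
  rw [← add_mul, ← Polynomial.C_add]
  congr 2
  ring

theorem AA_zero (gc : ℕ → ℂ) (n : ℕ) : AA 0 gc n = 0 := by
  unfold AA
  simp

theorem inv_arr (gc : ℕ → ℂ) (m n : ℕ) :
    cv2 (arr (expSeq (AA 1 gc))) (arr (expSeq (AA (-1) gc))) m n =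
      if m = 0 ∧ n = 0 then (1 : ℂ) else 0 := by
  rw [cv2_arr _ _ (exp_natDegree 1 gc) (exp_natDegree (-1) gc)]
  unfold arr
  rw [expSeq_add]
  have h1 : (fun m => AA 1 gc m + AA (-1) gc m) = fun _ => 0 := by
    funext k
    rw [AA_add]
    rw [show (1:ℂ) + -1 = 0 by ring, AA_zero]
  rw [h1]
  rw [expSeq_zero]
  exact arr_one m n

end Pool.Agent.Helper655.BD.Fin
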