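import Mathlib
import Pool.Agent.Helper655.BDDefs

set_option autoImplicit false
open Finset

namespace Pool.Agent.Helper655.BD.J1


lemma ee_norm (t : ℝ) : ‖ee t‖ = 1 := by
  unfold ee; exact Complex.norm_exp_ofReal_mul_I t

lemma ee_conj_mul (t : ℝ) : (starRingEnd ℂ) (ee t) * ee t = 1 := by
  rw [mul_comm, Complex.mul_conj, Complex.normSq_eq_norm_sq, ee_norm]; simp

lemma ee_conj_pow (t : ℝ) {m n : ℕ} (h : m ≤ n) :
    (starRingEnd ℂ) (ee t ^ m) * ee t ^ n = ee t ^ (n - m) := by
  obtain ⟨k, rfl⟩ := Nat.exists_eq_add_of_le h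
  rw [Nat.add_sub_cancel_left, pow_add, ← mul_assoc, map_pow, ← mul_pow, ee_conj_mul, one_pow,
    one_mul]

/-- TARGET 1: product of a low frequency and a high frequency real trigonometric polynomial -/
theorem rt_mul {E N D : ℕ} {w w' : ℝ} {φ ψ : ℝ → ℝ} (hNE : E < N) (h : RT 0 E w φ)
    (h' : RT N D w' ψ) : RT (N - E) (D + E) (w * w') (fun t => φ t * ψ t) := by
  obtain ⟨a, ha0, ha1, ha2⟩ := h
  obtain ⟨b, hb0, hb1, hb2⟩ := h'
  refine ⟨fun k => ∑ m ∈ range (E + 1), ∑ n ∈ range (D + 1),
    ((if m + n = k then a m * b n / 2 else 0) +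
      (if n - m = k then (starRingEnd ℂ) (a m) * b n / 2 else 0)), ?_, ?_, ?_⟩
  · intro k hk
    obtain ⟨m, hm, hk⟩ := Finset.exists_ne_zero_of_sum_ne_zero hk
    obtain ⟨n, hn, hk⟩ := Finset.exists_ne_zero_of_sum_ne_zero hk
    rw [Finset.mem_range] at hm hn
    have hbn : b n ≠ 0 := by
      intro h0; apply hk; simp [h0]
    obtain ⟨h1, h2⟩ := hb0 n hbn
    by_cases h3 : m + n = k
    · omega
    · by_cases h4 : n - m = k
      · omega
      · simp [h3, h4] at hk
  · have hnn : ∀ n, 0 ≤ ‖b n‖ := fun n => norm_nonneg _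
    calc ∑ k ∈ range (D + E + 1), ‖∑ m ∈ range (E + 1), ∑ n ∈ range (D + 1),
          ((if m + n = k then a m * b n / 2 else 0) +
          (if n - m = k then (starRingEnd ℂ) (a m) * b n / 2 else 0))‖
        ≤ ∑ k ∈ range (D + E + 1), ∑ m ∈ range (E + 1), ∑ n ∈ range (D + 1),
          ((if m + n = k then ‖a m‖ * ‖b n‖ / 2 else 0) +
          (if n - m = k then ‖a m‖ * ‖b n‖ / 2 else 0)) := by
          refine Finset.sum_le_sum fun k _ => ?_
          refine (norm_sum_le _ _).trans (Finset.sum_le_sum fun m _ => ?_)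
          refine (norm_sum_le _ _).trans (Finset.sum_le_sum fun n _ => ?_)
          refine (norm_add_le _ _).trans (add_le_add ?_ ?_)
          · split_ifs <;> simp
          · split_ifs <;> simp
      _ = ∑ m ∈ range (E + 1), ∑ n ∈ range (D + 1), ∑ k ∈ range (D + E + 1),
          ((if m + n = k then ‖a m‖ * ‖b n‖ / 2 else 0) +
          (if n - m = k then ‖a m‖ * ‖b n‖ / 2 else 0)) := by
          rw [Finset.sum_comm]
          refine Finset.sum_congr rfl fun m _ => ?_
          rw [Finset.sum_comm]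
      _ = ∑ m ∈ range (E + 1), ∑ n ∈ range (D + 1), ‖a m‖ * ‖b n‖ := by
          refine Finset.sum_congr rfl fun m hm => ?_
          refine Finset.sum_congr rfl fun n hn => ?_
          rw [Finset.mem_range] at hm hn
          rw [Finset.sum_add_distrib, Finset.sum_ite_eq, Finset.sum_ite_eq,
            if_pos (Finset.mem_range.mpr (by omega)), if_pos (Finset.mem_range.mpr (by omega))]
          ring
      _ = (∑ m ∈ range (E + 1), ‖a m‖) * ∑ n ∈ range (D + 1), ‖b n‖ := by
          rw [Finset.sum_mul_sum]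
      _ ≤ w * w' := by
          have h0 : 0 ≤ ∑ m ∈ range (E + 1), ‖a m‖ := Finset.sum_nonneg fun _ _ => norm_nonneg _
          have h0' : 0 ≤ ∑ n ∈ range (D + 1), ‖b n‖ := Finset.sum_nonneg fun _ _ => norm_nonneg _
          exact mul_le_mul ha1 hb1 h0' (h0.trans ha1)
  · intro t
    have key : (∑ k ∈ range (D + E + 1), (∑ m ∈ range (E + 1), ∑ n ∈ range (D + 1),
        ((if m + n = k then a m * b n / 2 else 0) +
        (if n - m = k then (starRingEnd ℂ) (a m) * b n / 2 else 0))) * ee t ^ k) =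
        (∑ m ∈ range (E + 1), a m * ee t ^ m) * (∑ n ∈ range (D + 1), b n * ee t ^ n) / 2 +
        (starRingEnd ℂ) (∑ m ∈ range (E + 1), a m * ee t ^ m) *
          (∑ n ∈ range (D + 1), b n * ee t ^ n) / 2 := by
      rw [map_sum, Finset.sum_mul_sum, Finset.sum_mul_sum, Finset.sum_div, Finset.sum_div,
        ← Finset.sum_add_distrib]
      simp_rw [Finset.sum_mul]
      rw [Finset.sum_comm]
      refine Finset.sum_congr rfl fun m hm => ?_
      rw [Finset.sum_comm, Finset.sum_div, Finset.sum_div, ← Finset.sum_add_distrib]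
      refine Finset.sum_congr rfl fun n hn => ?_
      rw [Finset.mem_range] at hm hn
      by_cases hbn : b n = 0
      · simp [hbn]
      obtain ⟨h1, h2⟩ := hb0 n hbn
      simp_rw [add_mul, ite_mul, zero_mul]
      rw [Finset.sum_add_distrib, Finset.sum_ite_eq, Finset.sum_ite_eq,
        if_pos (Finset.mem_range.mpr (by omega)), if_pos (Finset.mem_range.mpr (by omega)),
        ← ee_conj_pow t (show m ≤ n by omega), pow_add, map_mul]
      ring
    show φ t * ψ t = _
    rw [key, ha2, hb2]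
    set A := ∑ m ∈ range (E + 1), a m * ee t ^ m
    set B := ∑ n ∈ range (D + 1), b n * ee t ^ n
    have : A * B / 2 + (starRingEnd ℂ) A * B / 2 = (A.re : ℂ) * B := by
      rw [show A * B / 2 + (starRingEnd ℂ) A * B / 2 = (A + (starRingEnd ℂ) A) / 2 * B by ring,
        Complex.add_conj]
      push_cast; ring
    rw [this, Complex.re_ofReal_mul]

lemma sum_scale {M : Type*} [AddCommMonoid M] (N b : ℕ) (hN : 1 ≤ N) (f : ℕ → M)
    (hf : ∀ k, ¬ N ∣ k → f k = 0) :
    ∑ k ∈ range (N * b + 1), f k = ∑ n ∈ range (b + 1), f (N * n) := by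
  have hinj : Set.InjOn (fun n : ℕ => N * n) (range (b + 1)) := by
    intro x _ y _ hxy
    exact Nat.eq_of_mul_eq_mul_left (by omega) hxy
  rw [← Finset.sum_image (g := fun n : ℕ => N * n) (f := f) hinj]
  symm
  apply Finset.sum_subset
  · intro k hk
    rw [Finset.mem_image] at hk
    obtain ⟨n, hn, rfl⟩ := hk
    rw [Finset.mem_range] at hn ⊢
    have : N * n ≤ N * b := Nat.mul_le_mul_left _ (by omega)
    omega
  · intro k hk hk'
    apply hf
    rintro ⟨n, rfl⟩
    apply hk'
    rw [Finset.mem_image]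
    refine ⟨n, ?_, rfl⟩
    rw [Finset.mem_range] at hk ⊢
    have : N * n ≤ N * b := by omega
    have := Nat.le_of_mul_le_mul_left this (by omega)
    omega

/-- TARGET 2 -/
theorem rt_scale {a b : ℕ} {w : ℝ} {φ : ℝ → ℝ} (h : RT a b w φ) (N : ℕ) (hN : 1 ≤ N) :
    RT (N * a) (N * b) w (fun t => φ (N * t)) := by
  obtain ⟨c, h0, h1, h2⟩ := h
  have hN0 : 0 < N := hN
  refine ⟨fun k => if N ∣ k then c (k / N) else 0, ?_, ?_, ?_⟩
  · intro k hk
    by_cases hd : N ∣ k
    · obtain ⟨n, rfl⟩ := hd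
      simp only [dvd_mul_right, if_true, Nat.mul_div_cancel_left n hN0] at hk
      obtain ⟨h3, h4⟩ := h0 n hk
      exact ⟨Nat.mul_le_mul_left _ h3, Nat.mul_le_mul_left _ h4⟩
    · simp [hd] at hk
  · rw [sum_scale N b hN]
    · simpa [Nat.mul_div_cancel_left _ hN0] using h1
    · intro k hk; simp [hk]
  · intro t
    rw [sum_scale N b hN]
    · show φ (N * t) = _
      rw [h2]
      congr 1
      refine Finset.sum_congr rfl fun n _ => ?_
      simp only [dvd_mul_right, if_true, Nat.mul_div_cancel_left n hN0]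
      congr 1
      rw [pow_mul]
      congr 1
      unfold ee
      rw [← Complex.exp_nat_mul]
      congr 1
      push_cast
      ring
    · intro k hk; simp [hk]

end Pool.Agent.Helper655.BD.J1
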