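import Mathlib
import Pool.Agent.Helper655.BDDefs
import Pool.Agent.Helper655.BDJ2
import Pool.Agent.Helper655.BDJ11

set_option autoImplicit false
open Finset

namespace Pool.Agent.Helper655.BD.J3

open Pool.Agent.Helper655.BD.J2 (bern_nonneg bern_le_one bern_le one_sub_bern_le)
open Pool.Agent.Helper655.BD.J11 (rtp_mul)






/-! ### helper lemmas for job 1350 -/

theorem rtp_mono_h {d d' : ℕ} {φ : ℝ → ℝ} (h : RTP d φ) (hd : d ≤ d') : RTP d' φ := by
  obtain ⟨Q, hQ, hQ'⟩ := h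
  exact ⟨Q, hQ.trans hd, hQ'⟩

theorem rtp_const_h (d : ℕ) (c : ℝ) : RTP d (fun _ => c) := by
  refine ⟨Polynomial.C (c : ℂ), by simp, fun t => by simp⟩

theorem rtp_add_h {d : ℕ} {φ ψ : ℝ → ℝ} (h : RTP d φ) (h' : RTP d ψ) :
    RTP d (fun t => φ t + ψ t) := by
  obtain ⟨Q, hQ, hQ'⟩ := h
  obtain ⟨R, hR, hR'⟩ := h'
  refine ⟨Q + R, (Polynomial.natDegree_add_le _ _).trans (max_le hQ hR), fun t => ?_⟩
  rw [Polynomial.eval_add, Complex.add_re, ← hQ', ← hR']

theorem rtp_smul_h {d : ℕ} {φ : ℝ → ℝ} (h : RTP d φ) (c : ℝ) :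
    RTP d (fun t => c * φ t) := by
  obtain ⟨Q, hQ, hQ'⟩ := h
  refine ⟨Polynomial.C (c : ℂ) * Q, (Polynomial.natDegree_C_mul_le _ _).trans hQ, fun t => ?_⟩
  rw [Polynomial.eval_mul, Polynomial.eval_C, Complex.re_ofReal_mul, ← hQ']

theorem rtp_sum_h {ι : Type} (s : Finset ι) {d : ℕ} {φ : ι → ℝ → ℝ} (h : ∀ i ∈ s, RTP d (φ i)) :
    RTP d (fun t => ∑ i ∈ s, φ i t) := by
  classical
  induction s using Finset.induction_on with
  | empty => simpa using rtp_const_h d 0
  | insert a s ha ih =>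
    have h1 := rtp_add_h (h a (Finset.mem_insert_self a s))
      (ih (fun i hi => h i (Finset.mem_insert_of_mem hi)))
    simpa [Finset.sum_insert ha] using h1

theorem rtp_pow_h {d : ℕ} {φ : ℝ → ℝ} (h : RTP d φ) (n : ℕ) :
    RTP (n * d) (fun t => φ t ^ n) := by
  induction n with
  | zero => simpa using rtp_const_h (0 * d) 1
  | succ n ih =>
    have h1 := rtp_mul ih h
    have h2 : (fun t => φ t ^ (n + 1)) = fun t => φ t ^ n * φ t := by
      funext t; rw [pow_succ]
    rw [h2]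
    exact rtp_mono_h h1 (by rw [Nat.succ_mul])

theorem rtp_cos_h : RTP 1 (fun t => Real.cos (t / 2) ^ 2) := by
  refine ⟨Polynomial.C (1 / 2 : ℂ) + Polynomial.C (1 / 2 : ℂ) * Polynomial.X, ?_, fun t => ?_⟩
  · refine (Polynomial.natDegree_add_le _ _).trans (max_le (by simp) ?_)
    exact (Polynomial.natDegree_C_mul_le _ _).trans (by simp)
  · have h1 : Real.cos (t / 2) ^ 2 = 1 / 2 + 1 / 2 * Real.cos t := by
      rw [Real.cos_sq]
      ring_nf
    have h2 : (ee t).re = Real.cos t := by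
      unfold ee
      exact Complex.exp_ofReal_mul_I_re t
    change Real.cos (t / 2) ^ 2 = _
    rw [h1]
    simp only [Polynomial.eval_add, Polynomial.eval_C, Polynomial.eval_mul, Polynomial.eval_X,
      Complex.add_re, Complex.mul_re]
    rw [h2]
    norm_num

theorem rtp_bern_h (m : ℕ) : RTP (256 * m) (fun t => Bern m ((Real.cos (t / 2) ^ 2) ^ 128)) := by
  unfold Bern
  apply rtp_sum_h
  intro i hi
  rw [Finset.mem_Icc] at hi
  have hx : RTP 128 (fun t => (Real.cos (t / 2) ^ 2) ^ 128) := by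
    have := rtp_pow_h rtp_cos_h 128
    exact this
  have hy : RTP 128 (fun t => 1 - (Real.cos (t / 2) ^ 2) ^ 128) := by
    have h1 := rtp_add_h (rtp_const_h 128 1) (rtp_smul_h hx (-1))
    have h2 : (fun t => 1 - (Real.cos (t / 2) ^ 2) ^ 128) =
        fun t => 1 + (-1) * (Real.cos (t / 2) ^ 2) ^ 128 := by
      funext t; ring
    rw [h2]
    exact h1
  have h3 := rtp_mul (rtp_smul_h (rtp_pow_h hx i) ((2 * m).choose i : ℝ)) (rtp_pow_h hy (2 * m - i))
  refine rtp_mono_h h3 ?_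
  rw [← Nat.add_mul]
  omega

theorem ee_cont_h : Continuous ee := by
  unfold ee
  fun_prop

theorem rtp_cont_h {d : ℕ} {φ : ℝ → ℝ} (h : RTP d φ) : Continuous φ := by
  obtain ⟨Q, hQ, hQ'⟩ := h
  have : φ = fun t => (Q.eval (ee t)).re := funext hQ'
  rw [this]
  exact Complex.continuous_re.comp (Q.continuous.comp ee_cont_h)

theorem int_exp_h (n : ℤ) :
    ∫ t in (0:ℝ)..(2 * Real.pi), Complex.exp (n * t * Complex.I) =
      if n = 0 then (2 * Real.pi : ℂ) else 0 := by
  split_ifs with hn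
  · subst hn
    simp
  · have hc : (n * Complex.I : ℂ) ≠ 0 := by
      simp [hn]
    have h1 : ∀ t : ℝ, Complex.exp (n * t * Complex.I) = Complex.exp ((n * Complex.I) * t) := by
      intro t; congr 1; ring
    simp only [h1]
    rw [integral_exp_mul_complex hc]
    have h2 : Complex.exp (n * Complex.I * ((2 * Real.pi : ℝ) : ℂ)) = 1 := by
      have : (n * Complex.I * ((2 * Real.pi : ℝ) : ℂ)) = n * (2 * Real.pi * Complex.I) := by
        push_cast; ring
      rw [this]
      exact Complex.exp_int_mul_two_pi_mul_I n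
    rw [h2]
    simp

theorem ee_pow_h (t : ℝ) (n : ℕ) : ee t ^ n = Complex.exp ((n : ℤ) * t * Complex.I) := by
  unfold ee
  rw [← Complex.exp_nat_mul]
  congr 1
  push_cast
  ring

theorem int_poly_h (Q : Polynomial ℂ) (k : ℤ) :
    ∫ t in (0:ℝ)..(2 * Real.pi), Q.eval (ee t) * Complex.exp (k * t * Complex.I) =
      ∑ j ∈ range (Q.natDegree + 1), Q.coeff j * (if (j : ℤ) + k = 0 then (2 * Real.pi : ℂ) else 0) := by
  have h1 : ∀ t : ℝ, Q.eval (ee t) * Complex.exp (k * t * Complex.I) =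
      ∑ j ∈ range (Q.natDegree + 1), Q.coeff j * Complex.exp (((j : ℤ) + k : ℤ) * t * Complex.I) := by
    intro t
    rw [Polynomial.eval_eq_sum_range, Finset.sum_mul]
    refine Finset.sum_congr rfl fun j _ => ?_
    rw [ee_pow_h, mul_assoc, ← Complex.exp_add]
    congr 2
    push_cast
    ring
  simp only [h1]
  rw [intervalIntegral.integral_finsetSum]
  · refine Finset.sum_congr rfl fun j _ => ?_
    rw [intervalIntegral.integral_const_mul, int_exp_h]
  · intro j _
    apply Continuous.intervalIntegrable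
    fun_prop

/-- real trigonometric polynomial: coefficient formula -/
theorem coeff_formula_h (Q : Polynomial ℂ) (n : ℕ) (hn : 1 ≤ n) :
    ∫ t in (0:ℝ)..(2 * Real.pi), ((Q.eval (ee t)).re : ℂ) * Complex.exp (((-n : ℤ) : ℂ) * t * Complex.I) =
      Real.pi * Q.coeff n := by
  have h1 : ∀ t : ℝ, ((Q.eval (ee t)).re : ℂ) * Complex.exp (((-n : ℤ) : ℂ) * t * Complex.I) =
      (1 / 2 : ℂ) * (Q.eval (ee t) * Complex.exp (((-n : ℤ) : ℂ) * t * Complex.I)) +
      (1 / 2 : ℂ) * (starRingEnd ℂ) (Q.eval (ee t) * Complex.exp (((n : ℤ) : ℂ) * t * Complex.I)) := by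
    intro t
    have h2 : (starRingEnd ℂ) (Complex.exp (((n : ℤ) : ℂ) * t * Complex.I)) =
        Complex.exp (((-n : ℤ) : ℂ) * t * Complex.I) := by
      rw [← Complex.exp_conj]
      congr 1
      simp
    rw [map_mul, h2, Complex.re_eq_add_conj]
    ring
  simp only [h1]
  rw [intervalIntegral.integral_add, intervalIntegral.integral_const_mul,
    intervalIntegral.integral_const_mul, int_poly_h]
  · have h3 : ∫ t in (0:ℝ)..(2 * Real.pi),
        (starRingEnd ℂ) (Q.eval (ee t) * Complex.exp (((n : ℤ) : ℂ) * t * Complex.I)) =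
        (starRingEnd ℂ) (∫ t in (0:ℝ)..(2 * Real.pi),
          (Q.eval (ee t) * Complex.exp (((n : ℤ) : ℂ) * t * Complex.I))) := by
      have := Complex.conjCLE.toContinuousLinearMap.intervalIntegral_comp_comm
        (μ := MeasureTheory.volume) (a := 0) (b := 2 * Real.pi)
        (f := fun t : ℝ => Q.eval (ee t) * Complex.exp (((n : ℤ) : ℂ) * t * Complex.I)) ?_
      · simpa using this
      · apply Continuous.intervalIntegrable
        exact (Q.continuous.comp ee_cont_h).mul (by fun_prop)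
    rw [h3, int_poly_h]
    have h4 : ∑ j ∈ range (Q.natDegree + 1),
        Q.coeff j * (if (j : ℤ) + (n : ℤ) = 0 then (2 * Real.pi : ℂ) else 0) = 0 := by
      apply Finset.sum_eq_zero
      intro j _
      rw [if_neg (by omega), mul_zero]
    have h5 : ∑ j ∈ range (Q.natDegree + 1),
        Q.coeff j * (if (j : ℤ) + (-n : ℤ) = 0 then (2 * Real.pi : ℂ) else 0) =
        2 * Real.pi * Q.coeff n := by
      by_cases hnd : n ∈ range (Q.natDegree + 1)
      · rw [Finset.sum_eq_single n]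
        · rw [if_pos (by omega)]; ring
        · intro j _ hj
          rw [if_neg (by omega), mul_zero]
        · intro h; exact absurd hnd h
      · rw [Finset.sum_eq_zero]
        · rw [Polynomial.coeff_eq_zero_of_natDegree_lt]
          · ring
          · simpa [Nat.lt_succ_iff] using hnd
        · intro j hj
          rw [if_neg, mul_zero]
          intro h
          apply hnd
          have : j = n := by omega
          rwa [← this]
    rw [h4, h5]
    simp
    ring
  · apply Continuous.intervalIntegrable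
    exact continuous_const.mul ((Q.continuous.comp ee_cont_h).mul (by fun_prop))
  · apply Continuous.intervalIntegrable
    refine continuous_const.mul (Complex.continuous_conj.comp ?_)
    exact (Q.continuous.comp ee_cont_h).mul (by fun_prop)

theorem mean_formula_h (Q : Polynomial ℂ) :
    mean (fun t => (Q.eval (ee t)).re) = (Q.coeff 0).re := by
  unfold mean
  have h1 := int_poly_h Q 0
  have h2 : ∑ j ∈ range (Q.natDegree + 1),
      Q.coeff j * (if (j : ℤ) + 0 = 0 then (2 * Real.pi : ℂ) else 0) = 2 * Real.pi * Q.coeff 0 := by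
    rw [Finset.sum_eq_single 0]
    · rw [if_pos (by simp)]; ring
    · intro j _ hj
      rw [if_neg (by omega), mul_zero]
    · intro h; exact absurd (by simp) h
  rw [h2] at h1
  have h3 : ∫ t in (0:ℝ)..(2 * Real.pi), (Q.eval (ee t)).re =
      (∫ t in (0:ℝ)..(2 * Real.pi), Q.eval (ee t)).re := by
    have := Complex.reCLM.intervalIntegral_comp_comm
        (μ := MeasureTheory.volume) (a := 0) (b := 2 * Real.pi)
        (f := fun t : ℝ => Q.eval (ee t)) ?_
    · simpa using this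
    · apply Continuous.intervalIntegrable
      exact (Q.continuous.comp ee_cont_h)
  rw [h3]
  have h4 : ∫ t in (0:ℝ)..(2 * Real.pi), Q.eval (ee t) = 2 * Real.pi * Q.coeff 0 := by
    rw [← h1]
    congr 1
    funext t
    simp
  rw [h4]
  have : (2 * Real.pi * Q.coeff 0 : ℂ) = ((2 * Real.pi : ℝ) : ℂ) * Q.coeff 0 := by push_cast; ring
  rw [this, Complex.re_ofReal_mul, ← mul_assoc, inv_mul_cancel₀ (by positivity), one_mul]

theorem mean_mono_h {φ ψ : ℝ → ℝ} (h1 : Continuous φ) (h2 : Continuous ψ) (h : ∀ t, φ t ≤ ψ t) :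
    mean φ ≤ mean ψ := by
  unfold mean
  apply mul_le_mul_of_nonneg_left _ (by positivity)
  exact intervalIntegral.integral_mono (by positivity) (h1.intervalIntegrable _ _)
    (h2.intervalIntegrable _ _) h

theorem mean_smul_h (c : ℝ) (φ : ℝ → ℝ) : mean (fun t => c * φ t) = c * mean φ := by
  unfold mean
  rw [intervalIntegral.integral_const_mul]; ring

theorem mean_one_sub_h {φ : ℝ → ℝ} (h1 : Continuous φ) : mean (fun t => 1 - φ t) = 1 - mean φ := by
  unfold mean
  rw [intervalIntegral.integral_sub (by simp) (h1.intervalIntegrable _ _)]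
  simp
  field_simp

theorem coeff_bound_h {Q : Polynomial ℂ} (h0 : ∀ t, 0 ≤ (Q.eval (ee t)).re) (n : ℕ) (hn : 1 ≤ n) :
    ‖Q.coeff n‖ ≤ 2 * mean (fun t => (Q.eval (ee t)).re) := by
  have h1 := coeff_formula_h Q n hn
  have h2 : ‖(Real.pi : ℂ) * Q.coeff n‖ ≤ ∫ t in (0:ℝ)..(2 * Real.pi), (Q.eval (ee t)).re := by
    rw [← h1]
    refine (intervalIntegral.norm_integral_le_integral_norm (by positivity)).trans (le_of_eq ?_)
    congr 1
    funext t
    rw [norm_mul]
    have h3 : ‖Complex.exp (((-n : ℤ) : ℂ) * t * Complex.I)‖ = 1 := by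
      have : (((-n : ℤ) : ℂ) * t * Complex.I) = (((-n : ℝ) * t : ℝ) : ℂ) * Complex.I := by
        push_cast; ring
      rw [this, Complex.norm_exp_ofReal_mul_I]
    rw [h3, mul_one, Complex.norm_real, Real.norm_of_nonneg (h0 t)]
  rw [norm_mul, Complex.norm_real, Real.norm_of_nonneg Real.pi_pos.le] at h2
  unfold mean
  have hpi := Real.pi_pos
  rw [show 2 * ((2 * Real.pi)⁻¹ * ∫ t in (0:ℝ)..(2 * Real.pi), (Q.eval (ee t)).re) =
    (∫ t in (0:ℝ)..(2 * Real.pi), (Q.eval (ee t)).re) / Real.pi by field_simp]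
  rw [le_div_iff₀ hpi]
  linarith

theorem prod_bound_h (n : ℕ) :
    (∏ i ∈ range n, (2 * (i : ℝ) + 1) / (2 * i + 2)) ^ 2 * (2 * n + 1) ≤ 1 := by
  induction n with
  | zero => simp
  | succ n ih =>
    rw [Finset.prod_range_succ]
    set a := ∏ i ∈ range n, (2 * (i : ℝ) + 1) / (2 * i + 2) with ha
    have h1 : (a * ((2 * (n : ℝ) + 1) / (2 * n + 2))) ^ 2 * (2 * ((n + 1 : ℕ) : ℝ) + 1) =
        (a ^ 2 * (2 * n + 1)) * ((2 * n + 1) * (2 * n + 3) / (2 * n + 2) ^ 2) := by
      push_cast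
      field_simp
      ring
    rw [h1]
    have h2 : ((2 * (n : ℝ) + 1) * (2 * n + 3) / (2 * n + 2) ^ 2) ≤ 1 := by
      rw [div_le_one (by positivity)]
      nlinarith
    have h3 : 0 ≤ ((2 * (n : ℝ) + 1) * (2 * n + 3) / (2 * n + 2) ^ 2) := by positivity
    have h4 : 0 ≤ a ^ 2 * (2 * n + 1) := by positivity
    nlinarith


theorem mean_cos_gen_h (n : ℕ) : mean (fun t => (Real.cos (t / 2) ^ 2) ^ n) =
    ∏ i ∈ range n, (2 * (i : ℝ) + 1) / (2 * i + 2) := by
  unfold mean
  have h1 : ∫ t in (0:ℝ)..(2 * Real.pi), (Real.cos (t / 2) ^ 2) ^ n =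
      ∫ t in (0:ℝ)..(2 * Real.pi), (Real.sin (t / 2) ^ 2) ^ n := by
    have hper : Function.Periodic (fun t : ℝ => (Real.cos (t / 2) ^ 2) ^ n) (2 * Real.pi) := by
      intro t
      have : (t + 2 * Real.pi) / 2 = t / 2 + Real.pi := by ring
      simp only [this, Real.cos_add_pi, neg_sq]
    have h2 := hper.intervalIntegral_add_eq 0 Real.pi
    have h3 : ∫ t in (0:ℝ)..(2 * Real.pi), (Real.cos ((t + Real.pi) / 2) ^ 2) ^ n =
        ∫ t in Real.pi..(Real.pi + 2 * Real.pi), (Real.cos (t / 2) ^ 2) ^ n := by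
      have := intervalIntegral.integral_comp_add_right (a := 0) (b := 2 * Real.pi)
        (fun t : ℝ => (Real.cos (t / 2) ^ 2) ^ n) Real.pi
      rw [this, zero_add, add_comm (2 * Real.pi)]
    rw [zero_add] at h2
    rw [h2, ← h3]
    congr 1
    funext t
    have h4 : (t + Real.pi) / 2 = t / 2 + Real.pi / 2 := by ring
    rw [h4, Real.cos_add_pi_div_two, neg_sq]
  rw [h1]
  have h5 : ∫ t in (0:ℝ)..(2 * Real.pi), (Real.sin (t / 2) ^ 2) ^ n =
      2 * (Real.pi * ∏ i ∈ range n, (2 * (i : ℝ) + 1) / (2 * i + 2)) := by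
    have h6 := intervalIntegral.integral_comp_div (a := 0) (b := 2 * Real.pi)
      (fun u : ℝ => (Real.sin u ^ 2) ^ n) (c := 2) (by norm_num)
    rw [h6, ← integral_sin_pow_even n]
    simp only [← pow_mul]
    rw [zero_div, mul_div_assoc, mul_comm (2:ℝ) (Real.pi / 2), div_mul_cancel₀ _ (by norm_num : (2:ℝ) ≠ 0)]
    rw [smul_eq_mul]
  rw [h5]
  field_simp

/-- TARGET 1: central binomial mean -/
theorem mean_cos_pow : mean (fun t => (Real.cos (t / 2) ^ 2) ^ 128) ≤ 1 / 16 := by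
  rw [mean_cos_gen_h]
  have h7 := prod_bound_h 128
  have ha0 : 0 ≤ ∏ i ∈ range 128, (2 * (i : ℝ) + 1) / (2 * i + 2) :=
    Finset.prod_nonneg fun i _ => by positivity
  generalize (∏ i ∈ range 128, (2 * (i : ℝ) + 1) / (2 * i + 2)) = a at h7 ha0 ⊢
  by_contra hcon
  push Not at hcon
  have h9 : (2 * ((128 : ℕ) : ℝ) + 1) = 257 := by norm_num
  rw [h9] at h7
  nlinarith


/-- TARGET 2: the profile -/
theorem profile (m : ℕ) (hm : 1 ≤ m) : ∃ P : ℝ → ℝ, (∀ t, 0 ≤ P t) ∧ (∀ t, P t ≤ 4 / 3) ∧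
    (∀ t, P t ≤ 4 / 3 * (4 * (1 - (Real.cos (t / 2) ^ 2) ^ 128)) ^ m) ∧
    RT 1 (256 * m) (2 * (256 * m)) (fun t => P t - 1) := by
  set x : ℝ → ℝ := fun t => (Real.cos (t / 2) ^ 2) ^ 128 with hx
  have hx0 : ∀ t, 0 ≤ x t := fun t => by simp only [hx]; positivity
  have hx1 : ∀ t, x t ≤ 1 := fun t => by
    simp only [hx]
    exact pow_le_one₀ (sq_nonneg _) (Real.cos_sq_le_one _)
  set B : ℝ → ℝ := fun t => Bern m (x t) with hB
  have hB0 : ∀ t, 0 ≤ B t := fun t => bern_nonneg m _ (hx0 t) (hx1 t)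
  have hB1 : ∀ t, B t ≤ 1 := fun t => bern_le_one m _ (hx0 t) (hx1 t)
  have hB4 : ∀ t, B t ≤ 4 * x t := by
    intro t
    by_cases h : 4 * x t ≤ 1
    · refine (bern_le m _ (hx0 t) (hx1 t)).trans ?_
      exact pow_le_of_le_one (by linarith [hx0 t]) h (by omega)
    · exact (hB1 t).trans (by linarith)
  have hBR : RTP (256 * m) B := rtp_bern_h m
  have hBc : Continuous B := rtp_cont_h hBR
  have hxc : Continuous x := by simp only [hx]; fun_prop
  have hmu : mean B ≤ 1 / 4 := by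
    have h1 : mean B ≤ mean (fun t => 4 * x t) := mean_mono_h hBc (continuous_const.mul hxc) hB4
    rw [mean_smul_h] at h1
    have h2 : mean x ≤ 1 / 16 := mean_cos_pow
    linarith
  set μ := mean B with hμ
  have hpos : 0 < 1 - μ := by linarith
  have hinv : (1 - μ)⁻¹ ≤ 4 / 3 := by
    rw [inv_le_comm₀ hpos (by norm_num)]
    norm_num
    linarith
  have hinv0 : 0 < (1 - μ)⁻¹ := by positivity
  have hPR : RTP (256 * m) (fun t => (1 - μ)⁻¹ * (1 + (-1) * B t)) :=
    rtp_smul_h (rtp_add_h (rtp_const_h _ 1) (rtp_smul_h hBR (-1))) _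
  have hPeq : (fun t => (1 - μ)⁻¹ * (1 + (-1) * B t)) = fun t => (1 - μ)⁻¹ * (1 - B t) := by
    funext t; ring
  rw [hPeq] at hPR
  refine ⟨fun t => (1 - μ)⁻¹ * (1 - B t), fun t => ?_, fun t => ?_, fun t => ?_, ?_⟩
  · exact mul_nonneg hinv0.le (by linarith [hB1 t])
  · have := hB0 t
    have := hB1 t
    change (1 - μ)⁻¹ * (1 - B t) ≤ 4 / 3
    nlinarith
  · have h1 := one_sub_bern_le m _ (hx0 t) (hx1 t)
    have h2 : 0 ≤ 1 - B t := by linarith [hB1 t]
    change (1 - μ)⁻¹ * (1 - B t) ≤ 4 / 3 * (4 * (1 - x t)) ^ m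
    have h3 : 1 - B t ≤ (4 * (1 - x t)) ^ m := h1
    nlinarith
  · obtain ⟨Q, hQd, hQ⟩ := hPR
    have hmean : mean (fun t => (1 - μ)⁻¹ * (1 - B t)) = 1 := by
      rw [mean_smul_h, mean_one_sub_h hBc, ← hμ, inv_mul_cancel₀ hpos.ne']
    have hfun : (fun t => (1 - μ)⁻¹ * (1 - B t)) = fun t => (Q.eval (ee t)).re := funext hQ
    have hc0 : (Q.coeff 0).re = 1 := by
      rw [← mean_formula_h, ← hfun, hmean]
    have hQ0 : ∀ t, 0 ≤ (Q.eval (ee t)).re := by
      intro t
      rw [← hQ t]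
      exact mul_nonneg hinv0.le (by linarith [hB1 t])
    have hbd : ∀ n, 1 ≤ n → ‖Q.coeff n‖ ≤ 2 := by
      intro n hn
      have h1 := coeff_bound_h hQ0 n hn
      rw [← hfun, hmean] at h1
      linarith
    refine ⟨fun n => if 1 ≤ n ∧ n ≤ 256 * m then Q.coeff n else 0, ?_, ?_, ?_⟩
    · intro n hn
      by_contra hcon
      exact hn (if_neg hcon)
    · rw [Finset.sum_range_succ']
      have h1 : ∀ n ∈ range (256 * m), ‖(if 1 ≤ n + 1 ∧ n + 1 ≤ 256 * m then Q.coeff (n + 1) else 0)‖ ≤ 2 := by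
        intro n _
        split_ifs
        · exact hbd _ (by omega)
        · simp
      have h2 := Finset.sum_le_card_nsmul (range (256 * m))
        (fun n => ‖(if 1 ≤ n + 1 ∧ n + 1 ≤ 256 * m then Q.coeff (n + 1) else 0)‖) 2 h1
      simp only [Finset.card_range, nsmul_eq_mul] at h2
      have h3 : ‖(if 1 ≤ 0 ∧ 0 ≤ 256 * m then Q.coeff 0 else 0)‖ = 0 := by simp
      rw [h3, add_zero]
      refine h2.trans (le_of_eq ?_)
      push_cast
      ring
    · intro t
      have h1 := hQ t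
      change (1 - μ)⁻¹ * (1 - B t) - 1 = _
      rw [show (1 - μ)⁻¹ * (1 - B t) = (Q.eval (ee t)).re from h1]
      rw [Polynomial.eval_eq_sum_range' (show Q.natDegree < 256 * m + 1 by omega)]
      rw [Finset.sum_range_succ' _ (256 * m), Finset.sum_range_succ' _ (256 * m)]
      have h2 : ∑ k ∈ range (256 * m), (if 1 ≤ k + 1 ∧ k + 1 ≤ 256 * m then Q.coeff (k + 1) else 0) * ee t ^ (k + 1)
          = ∑ k ∈ range (256 * m), Q.coeff (k + 1) * ee t ^ (k + 1) := by
        refine Finset.sum_congr rfl fun k hk => ?_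
        rw [Finset.mem_range] at hk
        rw [if_pos (by omega)]
      rw [h2]
      simp [hc0]


end Pool.Agent.Helper655.BD.J3
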