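import Mathlib
import Pool.Agent.Helper655.BDDefs
import Pool.Agent.Helper655.BDJ1
import Pool.Agent.Helper655.BDJ3

set_option autoImplicit false
open Finset

namespace Pool.Agent.Helper655.BD.J4

open Pool.Agent.Helper655.BD.J1 (rt_mul rt_scale)
open Pool.Agent.Helper655.BD.J3 (profile)





theorem rt_mono {a b a' b' : ℕ} {w w' : ℝ} {φ : ℝ → ℝ} (h : RT a b w φ) (ha : a' ≤ a)
    (hb : b ≤ b') (hw : w ≤ w') : RT a' b' w' φ := by
  obtain ⟨c, hc, hs, hφ⟩ := h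
  have hsub : range (b + 1) ⊆ range (b' + 1) := by
    intro n hn
    rw [mem_range] at hn ⊢
    omega
  have hz : ∀ n ∈ range (b' + 1), n ∉ range (b + 1) → c n = 0 := by
    intro n _ hn
    by_contra hne
    have := hc n hne
    rw [mem_range] at hn
    omega
  refine ⟨c, fun n hn => ?_, ?_, fun t => ?_⟩
  · have := hc n hn
    omega
  · rw [← sum_subset hsub (fun n h1 h2 => by rw [hz n h1 h2, norm_zero])]
    exact hs.trans hw
  · rw [hφ t, sum_subset hsub (fun n h1 h2 => by rw [hz n h1 h2, zero_mul])]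

theorem rt_add {a b : ℕ} {w w' : ℝ} {φ ψ : ℝ → ℝ} (h : RT a b w φ) (h' : RT a b w' ψ) :
    RT a b (w + w') (fun t => φ t + ψ t) := by
  obtain ⟨c, hc, hs, hφ⟩ := h
  obtain ⟨d, hd, hs', hψ⟩ := h'
  refine ⟨fun n => c n + d n, fun n hn => ?_, ?_, fun t => ?_⟩
  · by_cases h1 : c n = 0
    · by_cases h2 : d n = 0
      · exfalso; apply hn; simp [h1, h2]
      · exact hd n h2
    · exact hc n h1
  · calc ∑ n ∈ range (b + 1), ‖c n + d n‖ ≤ ∑ n ∈ range (b + 1), (‖c n‖ + ‖d n‖) :=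
        sum_le_sum fun n _ => norm_add_le _ _
      _ = ∑ n ∈ range (b + 1), ‖c n‖ + ∑ n ∈ range (b + 1), ‖d n‖ := sum_add_distrib
      _ ≤ w + w' := add_le_add hs hs'
  · show φ t + ψ t = _
    rw [hφ t, hψ t, ← Complex.add_re, ← sum_add_distrib]
    congr 1
    exact sum_congr rfl fun n _ => by ring

theorem rt_neg {a b : ℕ} {w : ℝ} {φ : ℝ → ℝ} (h : RT a b w φ) :
    RT a b w (fun t => - φ t) := by
  obtain ⟨c, hc, hs, hφ⟩ := h
  refine ⟨fun n => - c n, fun n hn => hc n (fun h0 => hn (by simp [h0])), ?_, fun t => ?_⟩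
  · simpa [norm_neg] using hs
  · show - φ t = _
    rw [hφ t, ← Complex.neg_re, ← sum_neg_distrib]
    congr 1
    exact sum_congr rfl fun n _ => by ring

theorem rt_const (x : ℝ) : RT 0 0 |x| (fun _ => x) := by
  refine ⟨fun n => if n = 0 then (x : ℂ) else 0, fun n hn => ?_, ?_, fun t => ?_⟩
  · by_cases h : n = 0
    · omega
    · simp [h] at hn
  · simp
  · simp

/-- the profile polynomials -/
noncomputable def Pf (m : ℕ) : ℝ → ℝ := if h : 1 ≤ m then (profile m h).choose else fun _ => 0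

theorem Pf_spec (m : ℕ) (hm : 1 ≤ m) : (∀ t, 0 ≤ Pf m t) ∧ (∀ t, Pf m t ≤ 4 / 3) ∧
    (∀ t, Pf m t ≤ 4 / 3 * (4 * (1 - (Real.cos (t / 2) ^ 2) ^ 128)) ^ m) ∧
    RT 1 (256 * m) (2 * (256 * m)) (fun t => Pf m t - 1) := by
  have h := (profile m hm).choose_spec
  simp only [Pf, hm, dif_pos]
  exact h

noncomputable def yy : ℕ → ℝ → ℝ
  | 0 => fun _ => 0
  | k + 1 => fun t => (yy k t + (bb (k + 1) - bb k)) * Pf (3 * nn (k + 1)) (NN (k + 1) * t)

theorem nn_pos (k : ℕ) : 1 ≤ nn k := Nat.one_le_two_pow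

theorem nn_succ (k : ℕ) : nn (k + 1) = 2 * nn k := by
  unfold nn; rw [← pow_succ']

theorem nn_val (k : ℕ) : nn (k + 1) = 2 ^ k * 2 ^ 13 := by unfold nn; rw [← pow_add]

theorem NN_def (k : ℕ) : NN k = 2 ^ (nn k + 30 * (k + 1) ^ 2) := rfl

theorem MM_def (k : ℕ) : MM k = 2 ^ (nn k + 30 * (k + 1) ^ 2 - 1) := rfl

theorem NN_pos (k : ℕ) : 1 ≤ NN k := Nat.one_le_two_pow

theorem MM_pos (k : ℕ) : 1 ≤ MM k := Nat.one_le_two_pow

section Irred

attribute [local irreducible] nn NN MM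

theorem log2_bd : 0 < Real.log 2 ∧ Real.log 2 ≤ 1 := by
  constructor
  · exact Real.log_pos (by norm_num)
  · have := Real.log_two_lt_d9; linarith

theorem bb_nonneg (k : ℕ) : 0 ≤ bb k := by
  cases k with
  | zero => simp [bb]
  | succ k => simp only [bb]; have := log2_bd.1; positivity

theorem bb_half (k : ℕ) : bb k ≤ bb (k + 1) / 2 := by
  cases k with
  | zero => have := bb_nonneg 1; simp only [bb] at this ⊢; linarith
  | succ k =>
    simp only [bb]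
    rw [nn_succ (k + 1)]
    push_cast
    linarith

theorem bb_le (k : ℕ) : bb (k + 1) ≤ nn (k + 1) / 2 := by
  simp only [bb]
  have := log2_bd.2
  have h2 : (0 : ℝ) ≤ nn (k + 1) := by positivity
  nlinarith

theorem yy_bd (k : ℕ) (t : ℝ) : 0 ≤ yy k t ∧ yy k t ≤ 2 * bb k := by
  induction k with
  | zero => simp [yy, bb]
  | succ k ih =>
    have hm : 1 ≤ 3 * nn (k + 1) := by have := nn_pos (k + 1); omega
    obtain ⟨hP0, hP1, -, -⟩ := Pf_spec _ hm
    have h1 := hP0 (NN (k + 1) * t)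
    have h2 := hP1 (NN (k + 1) * t)
    have hb := bb_half k
    have hb0 := bb_nonneg k
    have hb1 := bb_nonneg (k + 1)
    simp only [yy]
    constructor
    · apply mul_nonneg _ h1; linarith [ih.1]
    · calc (yy k t + (bb (k + 1) - bb k)) * Pf (3 * nn (k + 1)) (NN (k + 1) * t)
          ≤ (3 / 2 * bb (k + 1)) * (4 / 3) := by
            apply mul_le_mul _ h2 h1 (by positivity)
            linarith [ih.2]
        _ = 2 * bb (k + 1) := by ring

theorem yy_dich (k : ℕ) (t : ℝ) (ht : (7 : ℝ) / 8 ≤ (Real.cos (NN (k + 1) * t / 2) ^ 2) ^ 128) :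
    yy (k + 1) t ≤ 1 := by
  have hm : 1 ≤ 3 * nn (k + 1) := by have := nn_pos (k + 1); omega
  obtain ⟨hP0, hP1, hP2, -⟩ := Pf_spec _ hm
  have h1 := hP0 (NN (k + 1) * t)
  have h2 := hP2 (NN (k + 1) * t)
  have hb := bb_half k
  have hb0 := bb_nonneg k
  have hb1 := bb_nonneg (k + 1)
  have ih := yy_bd k t
  set x := (Real.cos (NN (k + 1) * t / 2) ^ 2) ^ 128 with hx
  have hx1 : x ≤ 1 := by
    rw [hx]
    apply pow_le_one₀ (sq_nonneg _)
    exact Real.cos_sq_le_one _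
  have h3 : (4 * (1 - x)) ^ (3 * nn (k + 1)) ≤ (1 / 2 : ℝ) ^ (3 * nn (k + 1)) := by
    apply pow_le_pow_left₀ <;> linarith
  have h4 : (1 / 2 : ℝ) ^ (3 * nn (k + 1)) ≤ (1 / 2 : ℝ) ^ (nn (k + 1)) := by
    generalize nn (k + 1) = n
    exact pow_le_pow_of_le_one (by norm_num) (by norm_num) (by omega)
  have h5 : Pf (3 * nn (k + 1)) (NN (k + 1) * t) ≤ 4 / 3 * (1 / 2 : ℝ) ^ (nn (k + 1)) := by
    refine h2.trans ?_
    have := h3.trans h4
    linarith
  simp only [yy]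
  have h6 : ((nn (k + 1) : ℕ) : ℝ) * (1 / 2 : ℝ) ^ (nn (k + 1)) ≤ 1 := by
    generalize nn (k + 1) = n
    rw [one_div, inv_pow, ← div_eq_mul_inv, div_le_one (by positivity)]
    exact_mod_cast (Nat.lt_two_pow_self).le
  calc (yy k t + (bb (k + 1) - bb k)) * Pf (3 * nn (k + 1)) (NN (k + 1) * t)
      ≤ (3 / 2 * bb (k + 1)) * (4 / 3 * (1 / 2 : ℝ) ^ (nn (k + 1))) := by
        apply mul_le_mul _ h5 h1 (by positivity)
        linarith [ih.2]
    _ = (2 * bb (k + 1)) * (1 / 2 : ℝ) ^ (nn (k + 1)) := by ring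
    _ ≤ nn (k + 1) * (1 / 2 : ℝ) ^ (nn (k + 1)) := by
        apply mul_le_mul_of_nonneg_right _ (by positivity)
        have := bb_le k
        linarith
    _ ≤ 1 := h6

theorem E_le (k : ℕ) : 2 ^ (nn k + 30 * (k + 1) ^ 2 + k + 24) ≤ MM (k + 1) := by
  rw [MM_def]
  apply Nat.pow_le_pow_right (by norm_num)
  have h1 := nn_succ k
  have h2 := nn_pos k
  have h3 : 30 * (k + 1 + 1) ^ 2 = 30 * (k + 1) ^ 2 + 60 * k + 90 := by ring
  omega

theorem NN_eq (k : ℕ) : NN (k + 1) = 2 * MM (k + 1) := by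
  have h2 := nn_pos (k + 1)
  rw [NN_def, MM_def]
  generalize nn (k + 1) = n at *
  rw [← pow_succ']
  congr 1

theorem D_le (k : ℕ) : NN (k + 1) * (256 * (3 * nn (k + 1))) +
    2 ^ (nn k + 30 * (k + 1) ^ 2 + k + 24) ≤
    2 ^ (nn (k + 1) + 30 * (k + 2) ^ 2 + (k + 1) + 24) := by
  have h1 := E_le k
  have h2 := NN_eq k
  have h3 : 2 ^ (nn (k + 1) + 30 * (k + 2) ^ 2 + (k + 1) + 24) = NN (k + 1) * 2 ^ (k + 25) := by
    rw [NN_def]
    generalize nn (k + 1) = n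
    rw [← pow_add]
    congr 1
  have h4 : 256 * (3 * nn (k + 1)) + 1 ≤ 2 ^ (k + 25) := by
    rw [nn_val, pow_add]
    have h5 : 1 ≤ 2 ^ k := Nat.one_le_two_pow
    norm_num
    generalize 2 ^ k = n at *
    omega
  rw [h3]
  generalize 2 ^ (nn k + 30 * (k + 1) ^ 2 + k + 24) = E at *
  generalize 256 * (3 * nn (k + 1)) = F at *
  generalize NN (k + 1) = N at *
  generalize MM (k + 1) = M at *
  calc _ ≤ N * F + N := by omega
    _ = N * (F + 1) := by ring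
    _ ≤ _ := Nat.mul_le_mul_left _ h4

/-- weight bound -/
theorem W_le (k : ℕ) : ((2 : ℝ) ^ (25 * (k + 1) ^ 2) + (bb (k + 1) - bb k)) *
    (2 * (256 * ((3 * nn (k + 1) : ℕ) : ℝ)) + 1) ≤ 2 ^ (25 * (k + 2) ^ 2) := by
  have hb := bb_le k
  have hb0 := bb_nonneg k
  have h1 : ((nn (k + 1) : ℕ) : ℝ) = 2 ^ (k + 13) := by
    rw [nn_val, pow_add]; push_cast; norm_num
  have h2 : (2 : ℝ) ^ (k + 13) ≤ 2 ^ (25 * (k + 1) ^ 2) := by
    apply pow_le_pow_right₀ (by norm_num)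
    nlinarith
  have h3 : (2 : ℝ) ^ (25 * (k + 1) ^ 2) + (bb (k + 1) - bb k) ≤ 2 ^ (25 * (k + 1) ^ 2 + 1) := by
    rw [pow_succ (2 : ℝ) (25 * (k + 1) ^ 2)]
    have : (0 : ℝ) < 2 ^ (k + 13) := by positivity
    rw [h1] at hb
    linarith
  have h4 : (2 * (256 * ((3 * nn (k + 1) : ℕ) : ℝ)) + 1) ≤ 2 ^ (k + 24) := by
    push_cast
    rw [h1]
    have h5 : (1 : ℝ) ≤ 2 ^ k := one_le_pow₀ (by norm_num)
    have h6 : (2 : ℝ) ^ (k + 13) = 2 ^ k * 2 ^ 13 := by rw [pow_add]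
    have h7 : (2 : ℝ) ^ (k + 24) = 2 ^ k * 2 ^ 24 := by rw [pow_add]
    rw [h6, h7]
    generalize (2 : ℝ) ^ k = z at *
    norm_num
    linarith
  calc _ ≤ (2 : ℝ) ^ (25 * (k + 1) ^ 2 + 1) * 2 ^ (k + 24) := by
        apply mul_le_mul h3 h4 (by positivity) (by positivity)
    _ = (2 : ℝ) ^ (25 * (k + 1) ^ 2 + 1 + (k + 24)) := by rw [← pow_add]
    _ ≤ _ := by
        apply pow_le_pow_right₀ (by norm_num)
        nlinarith

theorem yy_step (k : ℕ)
    (ih : ∀ c : ℝ, 0 ≤ c → RT 0 (2 ^ (nn k + 30 * (k + 1) ^ 2 + k + 24))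
      (2 ^ (25 * (k + 1) ^ 2) + c) (fun t => yy k t + c)) :
    RT (MM (k + 1)) (2 ^ (nn (k + 1) + 30 * (k + 2) ^ 2 + (k + 1) + 24))
      (((2 : ℝ) ^ (25 * (k + 1) ^ 2) + (bb (k + 1) - bb k)) *
        (2 * (256 * ((3 * nn (k + 1) : ℕ) : ℝ))))
      (fun t => (yy k t + (bb (k + 1) - bb k)) *
        (Pf (3 * nn (k + 1)) (NN (k + 1) * t) - 1)) := by
  have hβ : 0 ≤ bb (k + 1) - bb k := by
    have := bb_half k
    have := bb_nonneg (k + 1)
    linarith
  have hm : 1 ≤ 3 * nn (k + 1) := by have := nn_pos (k + 1); omega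
  obtain ⟨-, -, -, hP⟩ := Pf_spec _ hm
  have hN1 : 1 ≤ NN (k + 1) := NN_pos _
  have h1 := rt_scale hP (NN (k + 1)) hN1
  have h2 := ih _ hβ
  have hE := E_le k
  have hN := NN_eq k
  have hM : 1 ≤ MM (k + 1) := MM_pos _
  have hlt : 2 ^ (nn k + 30 * (k + 1) ^ 2 + k + 24) < NN (k + 1) * 1 := by omega
  have h3 := rt_mul hlt h2 h1
  refine rt_mono h3 ?_ (D_le k) le_rfl
  omega

theorem yy_rt (k : ℕ) : ∀ c : ℝ, 0 ≤ c → RT 0 (2 ^ (nn k + 30 * (k + 1) ^ 2 + k + 24))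
      (2 ^ (25 * (k + 1) ^ 2) + c) (fun t => yy k t + c) := by
  induction k with
  | zero =>
    intro c hc
    have h := rt_const c
    have h2 : (fun t : ℝ => yy 0 t + c) = fun _ => c := by funext t; simp [yy]
    rw [h2]
    refine rt_mono h le_rfl (Nat.zero_le _) ?_
    rw [abs_of_nonneg hc]
    have : (0 : ℝ) ≤ 2 ^ (25 * (0 + 1) ^ 2) := by positivity
    linarith
  | succ k ih =>
    intro c hc
    have hβ : 0 ≤ bb (k + 1) - bb k := by
      have := bb_half k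
      have := bb_nonneg (k + 1)
      linarith
    have h1 := yy_step k ih
    have h2 := ih _ hβ
    have h3 := rt_const c
    have hD := D_le k
    have h1' := rt_mono h1 (Nat.zero_le _) le_rfl le_rfl
    have h2' := rt_mono h2 le_rfl (le_trans (by omega) hD) le_rfl
    have h3' := rt_mono h3 le_rfl (Nat.zero_le
      (2 ^ (nn (k + 1) + 30 * (k + 2) ^ 2 + (k + 1) + 24))) le_rfl
    have h4 := rt_add (rt_add h2' h1') h3'
    have h5 : (fun t : ℝ => yy (k + 1) t + c) = fun t =>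
        (yy k t + (bb (k + 1) - bb k)) + (yy k t + (bb (k + 1) - bb k)) *
        (Pf (3 * nn (k + 1)) (NN (k + 1) * t) - 1) + c := by
      funext t; simp only [yy]; ring
    rw [h5]
    refine rt_mono h4 le_rfl le_rfl ?_
    rw [abs_of_nonneg hc]
    have hW := W_le k
    have e : (k + 1 + 1) = k + 2 := rfl
    rw [e]
    linarith

/-- TARGET: the sequence of real trigonometric polynomials `h k` -/
theorem exists_h : ∃ h : ℕ → ℝ → ℝ, (∀ t, h 0 t = 0) ∧ (∀ k t, |h k t| ≤ bb k) ∧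
    (∀ k t, (7 : ℝ) / 8 ≤ (Real.cos (NN (k + 1) * t / 2) ^ 2) ^ 128 →
      bb (k + 1) - 1 ≤ h (k + 1) t) ∧
    (∀ k, RT (MM (k + 1)) (2 ^ (nn (k + 1) + 30 * (k + 2) ^ 2 + (k + 1) + 24))
      (2 ^ (25 * (k + 2) ^ 2 + 2)) (fun t => h (k + 1) t - h k t)) := by
  refine ⟨fun k t => bb k - yy k t, fun t => by simp [bb, yy], fun k t => ?_, fun k t ht => ?_,
    fun k => ?_⟩
  · have := yy_bd k t
    rw [abs_le]
    constructor <;> linarith
  · have := yy_dich k t ht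
    simp only
    linarith
  · have h1 := rt_neg (yy_step k (yy_rt k))
    have h5 : (fun t : ℝ => (bb (k + 1) - yy (k + 1) t) - (bb k - yy k t)) = fun t =>
        -((yy k t + (bb (k + 1) - bb k)) *
        (Pf (3 * nn (k + 1)) (NN (k + 1) * t) - 1)) := by
      funext t; simp only [yy]; ring
    rw [h5]
    refine rt_mono h1 le_rfl le_rfl ?_
    have hW := W_le k
    have h6 : (0 : ℝ) ≤ (2 : ℝ) ^ (25 * (k + 1) ^ 2) + (bb (k + 1) - bb k) := by
      have := bb_half k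
      have := bb_nonneg (k + 1)
      have : (0 : ℝ) ≤ (2 : ℝ) ^ (25 * (k + 1) ^ 2) := by positivity
      linarith
    have h7 : (2 : ℝ) ^ (25 * (k + 2) ^ 2) ≤ 2 ^ (25 * (k + 2) ^ 2 + 2) :=
      pow_le_pow_right₀ (by norm_num) (by omega)
    nlinarith

end Irred

end Pool.Agent.Helper655.BD.J4
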