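import Mathlib
import Pool.Agent.Helper655.BDDefs
import Pool.Agent.Helper655.BDJ2
import Pool.Agent.Helper655.BDJ4

set_option autoImplicit false
open Finset

namespace Pool.Agent.Helper655.BD.J5

open Pool.Agent.Helper655.BD.J2 (bern_le_one bern_le)
open Pool.Agent.Helper655.BD.J4 (exists_h)





theorem MM_lt (k : ℕ) : 2 ^ (nn (k + 1) + 30 * (k + 2) ^ 2 + (k + 1) + 24) < MM (k + 2) := by
  unfold MM
  refine Nat.pow_lt_pow_right (by norm_num) ?_
  have h1 : nn (k + 1) ≤ nn (k + 2) := Nat.pow_le_pow_right (by norm_num) (by omega)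
  have h2 : 30 * (k + 2 + 1) ^ 2 = 30 * (k + 2) ^ 2 + (60 * k + 150) := by ring
  rw [h2]
  omega

theorem MM_le_E (k : ℕ) : MM (k + 1) ≤ 2 ^ (nn (k + 1) + 30 * (k + 2) ^ 2 + (k + 1) + 24) := by
  unfold MM
  refine Nat.pow_le_pow_right (by norm_num) ?_
  have : 30 * (k + 1 + 1) ^ 2 = 30 * (k + 2) ^ 2 := by ring
  rw [this]
  omega

theorem MM_lt_succ (k : ℕ) : MM (k + 1) < MM (k + 2) := lt_of_le_of_lt (MM_le_E k) (MM_lt k)


theorem assemble (m e : ℕ → ℕ) (hme : ∀ k, m k ≤ e k) (hem : ∀ k, e k < m (k + 1)) (hm0 : 0 < m 0)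
    (c : ℕ → ℕ → ℂ) (hsupp : ∀ k n, c k n ≠ 0 → m k ≤ n ∧ n ≤ e k) :
    ∃ gc : ℕ → ℂ, (∀ n < m 0, gc n = 0) ∧ (∀ k n, e k < n → n < m (k + 1) → gc n = 0) ∧
      (∀ k, ∑ n ∈ Ico (m k) (m (k + 1)), ‖gc n‖ ≤ ∑ n ∈ range (e k + 1), ‖c k n‖) ∧
      (∀ k (z : ℂ), ∑ n ∈ range (m (k + 1)), gc n * z ^ n =
        ∑ n ∈ range (m k), gc n * z ^ n + ∑ n ∈ range (e k + 1), c k n * z ^ n) := by
  have hmm : ∀ k, m k < m (k + 1) := fun k => lt_of_le_of_lt (hme k) (hem k)
  have hmono : Monotone m := monotone_nat_of_le_succ fun k => (hmm k).le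
  have hlt : ∀ k, k < m k := by
    intro k
    induction k with
    | zero => exact hm0
    | succ k ih => exact lt_of_le_of_lt ih (hmm k)
  have hgcj : ∀ j n, m j ≤ n → n < m (j + 1) → ∑ k ∈ range (n + 1), c k n = c j n := by
    intro j n h1 h2
    refine Finset.sum_eq_single j ?_ ?_
    · intro k _ hk
      by_contra hne
      obtain ⟨h3, h4⟩ := hsupp k n hne
      rcases lt_or_gt_of_ne hk with h5 | h5
      · have h6 : m (k + 1) ≤ m j := hmono (by omega)
        have h7 := hem k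
        omega
      · have h6 : m (j + 1) ≤ m k := hmono (by omega)
        omega
    · intro hj
      have := hlt j
      rw [Finset.mem_range] at hj
      omega
  have hlow : ∀ n < m 0, ∑ k ∈ range (n + 1), c k n = 0 := by
    intro n hn
    refine Finset.sum_eq_zero fun k _ => ?_
    by_contra hne
    obtain ⟨h3, h4⟩ := hsupp k n hne
    have h6 : m 0 ≤ m k := hmono (Nat.zero_le k)
    omega
  have hzero : ∀ j n, e j < n → c j n = 0 := by
    intro j n hn
    by_contra hne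
    obtain ⟨h3, h4⟩ := hsupp j n hne
    omega
  have hzero' : ∀ j n, n < m j → c j n = 0 := by
    intro j n hn
    by_contra hne
    obtain ⟨h3, h4⟩ := hsupp j n hne
    omega
  refine ⟨fun n => ∑ k ∈ range (n + 1), c k n, hlow, ?_, ?_, ?_⟩
  · intro k n h1 h2
    show ∑ k ∈ range (n + 1), c k n = 0
    rw [hgcj k n (by have := hme k; omega) h2]
    exact hzero k n h1
  · intro j
    calc ∑ n ∈ Ico (m j) (m (j + 1)), ‖∑ k ∈ range (n + 1), c k n‖
        = ∑ n ∈ Ico (m j) (m (j + 1)), ‖c j n‖ := by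
          refine Finset.sum_congr rfl fun n hn => ?_
          rw [Finset.mem_Ico] at hn
          rw [hgcj j n hn.1 hn.2]
      _ ≤ ∑ n ∈ range (m (j + 1)), ‖c j n‖ := by
          refine Finset.sum_le_sum_of_subset_of_nonneg ?_ fun _ _ _ => norm_nonneg _
          intro n hn
          rw [Finset.mem_Ico] at hn
          exact Finset.mem_range.2 hn.2
      _ = ∑ n ∈ range (e j + 1), ‖c j n‖ := by
          symm
          refine Finset.sum_subset (Finset.range_subset_range.2 (hem j)) ?_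
          intro n _ hn
          rw [Finset.mem_range, not_lt] at hn
          rw [hzero j n (by omega), norm_zero]
  · intro k z
    rw [← Finset.sum_range_add_sum_Ico _ (hmm k).le]
    congr 1
    have h2 : ∑ n ∈ range (e k + 1), c k n * z ^ n = ∑ n ∈ range (m (k + 1)), c k n * z ^ n := by
      refine Finset.sum_subset (Finset.range_subset_range.2 (hem k)) ?_
      intro n _ hn
      rw [Finset.mem_range, not_lt] at hn
      rw [hzero k n (by omega), zero_mul]
    rw [h2, ← Finset.sum_range_add_sum_Ico _ (hmm k).le]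
    have h3 : ∑ n ∈ range (m k), c k n * z ^ n = 0 := by
      refine Finset.sum_eq_zero fun n hn => ?_
      rw [hzero' k n (Finset.mem_range.1 hn), zero_mul]
    rw [h3, zero_add]
    refine Finset.sum_congr rfl fun n hn => ?_
    rw [Finset.mem_Ico] at hn
    show (∑ k ∈ range (n + 1), c k n) * z ^ n = _
    rw [hgcj k n hn.1 hn.2]

theorem maxmod {g : ℂ → ℂ} (hg : Differentiable ℂ g) {b : ℝ}
    (hb : ∀ t : ℝ, (g (ee t)).re ≤ b) {z : ℂ} (hz : ‖z‖ ≤ 1) : (g z).re ≤ b := by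
  have hd : DiffContOnCl ℂ (fun z => Complex.exp (g z)) (Metric.ball 0 1) :=
    (Complex.differentiable_exp.comp hg).diffContOnCl
  have hf : ∀ w ∈ frontier (Metric.ball (0 : ℂ) 1), ‖Complex.exp (g w)‖ ≤ Real.exp b := by
    intro w hw
    rw [frontier_ball (0 : ℂ) one_ne_zero, mem_sphere_zero_iff_norm] at hw
    have : w = ee w.arg := by
      have := Complex.norm_mul_exp_arg_mul_I w
      rw [hw, Complex.ofReal_one, one_mul] at this
      exact this.symm
    rw [Complex.norm_exp, Real.exp_le_exp, this]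
    exact hb _
  have hz' : z ∈ closure (Metric.ball (0 : ℂ) 1) := by
    rw [closure_ball (0 : ℂ) one_ne_zero, mem_closedBall_zero_iff]
    exact hz
  have := Complex.norm_le_of_forall_mem_frontier_norm_le Metric.isBounded_ball hd hf hz'
  rwa [Complex.norm_exp, Real.exp_le_exp] at this

theorem dich_pt {b H u B : ℝ} {n : ℕ} (hbb : 2 * b = n * Real.log 2) (hu0 : 0 ≤ u)
    (hd : 7 / 8 ≤ u → b - 1 ≤ H) (hH : |H| ≤ b) (hB1 : B ≤ 1)
    (hB2 : B ≤ (4 * u ^ 16) ^ (3 * n)) :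
    B ≤ Real.exp 2 * (1 / 2) ^ n * Real.exp (2 * H) := by
  have hexp : Real.exp (2 * b) = 2 ^ n := by
    rw [hbb, mul_comm, Real.exp_mul, Real.exp_log two_pos, Real.rpow_natCast]
  rcases le_or_gt (7 / 8) u with h7 | h7
  · have h1 := hd h7
    have h2 : Real.exp (2 * b) * Real.exp (-2) ≤ Real.exp (2 * H) := by
      rw [← Real.exp_add, Real.exp_le_exp]
      linarith
    rw [hexp] at h2
    have h4 : Real.exp 2 * (1 / 2) ^ n * (2 ^ n * Real.exp (-2)) = 1 := by
      have e1 : ((1 : ℝ) / 2) ^ n * 2 ^ n = 1 := by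
        rw [← mul_pow]; norm_num
      have e2 : Real.exp 2 * Real.exp (-2) = 1 := by
        rw [← Real.exp_add]; norm_num
      calc _ = (((1 : ℝ) / 2) ^ n * 2 ^ n) * (Real.exp 2 * Real.exp (-2)) := by ring
        _ = 1 := by rw [e1, e2, one_mul]
    calc B ≤ 1 := hB1
      _ = Real.exp 2 * (1 / 2) ^ n * (2 ^ n * Real.exp (-2)) := h4.symm
      _ ≤ _ := mul_le_mul_of_nonneg_left h2 (by positivity)
  · have h1 : u ^ 16 ≤ 1 / 8 := by
      calc u ^ 16 ≤ (7 / 8) ^ 16 := pow_le_pow_left₀ hu0 h7.le 16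
        _ ≤ 1 / 8 := by norm_num
    have h3 : (4 * u ^ 16) ^ (3 * n) ≤ (1 / 2) ^ (3 * n) :=
      pow_le_pow_left₀ (by positivity) (by linarith) _
    have h4 : ((1 : ℝ) / 2) ^ (3 * n) ≤ (1 / 2) ^ (2 * n) :=
      pow_le_pow_of_le_one (by norm_num) (by norm_num) (by omega)
    have h5 : Real.exp (-(2 * b)) ≤ Real.exp (2 * H) := by
      rw [Real.exp_le_exp]
      linarith [neg_abs_le H]
    rw [Real.exp_neg, hexp] at h5
    have h6 : (1 : ℝ) ≤ Real.exp 2 := Real.one_le_exp (by norm_num)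
    have h8 : ((1 : ℝ) / 2) ^ (2 * n) = 1 * (1 / 2) ^ n * (2 ^ n)⁻¹ := by
      rw [two_mul, pow_add, one_mul, one_div, inv_pow]
    calc B ≤ ((1 : ℝ) / 2) ^ (2 * n) := by linarith
      _ = 1 * (1 / 2) ^ n * (2 ^ n)⁻¹ := h8
      _ ≤ Real.exp 2 * (1 / 2) ^ n * Real.exp (2 * H) := by
        gcongr

/-- TARGET -/
theorem exists_data : ∃ gc : ℕ → ℂ, Data gc := by
  obtain ⟨h, h0, hb, hd, hRT⟩ := exists_h
  choose c hsupp hsum hval using hRT
  obtain ⟨E, hE⟩ : ∃ E : ℕ → ℕ, ∀ k, 2 ^ (nn (k + 1) + 30 * (k + 2) ^ 2 + (k + 1) + 24) = E k :=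
    ⟨_, fun k => rfl⟩
  simp only [hE] at hsupp hsum hval
  have hm0 : 0 < MM (0 + 1) := Nat.pos_of_ne_zero (by unfold MM; positivity)
  obtain ⟨gc, g1, g2, g3, g4⟩ := assemble (fun k => MM (k + 1)) E (fun k => by
    rw [← hE]; exact MM_le_E k) (fun k => by rw [← hE]; exact MM_lt k) hm0 c hsupp
  have hkey : ∀ k t, (gk gc k (ee t)).re = h k t := by
    intro k t
    induction k with
    | zero =>
      rw [h0]
      have : gk gc 0 (ee t) = 0 := by
        refine Finset.sum_eq_zero fun n hn => ?_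
        rw [g1 n (Finset.mem_range.1 hn), zero_mul]
      rw [this, Complex.zero_re]
    | succ k ih =>
      have h1 : gk gc (k + 1) (ee t) = gk gc k (ee t) + ∑ n ∈ range (E k + 1), c k n * ee t ^ n :=
        g4 k (ee t)
      have h2 : h (k + 1) t - h k t = (∑ n ∈ range (E k + 1), c k n * ee t ^ n).re := hval k t
      rw [h1, Complex.add_re, ih, ← h2]
      ring
  refine ⟨gc, g1, ?_, ?_, ?_, ?_⟩
  · intro k n hk h1 h2
    obtain ⟨j, rfl⟩ : ∃ j, k = j + 1 := ⟨k - 1, by omega⟩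
    refine g2 j n ?_ h2
    rw [← hE]
    exact h1
  · intro k hk
    obtain ⟨j, rfl⟩ : ∃ j, k = j + 1 := ⟨k - 1, by omega⟩
    exact (g3 j).trans (hsum j)
  · intro k z hz
    have hdiff : Differentiable ℂ (gk gc k) := by
      unfold gk
      fun_prop
    rw [abs_le]
    constructor
    · have := maxmod (g := fun z => - gk gc k z) hdiff.neg (b := bb k) (fun t => by
        rw [Complex.neg_re, hkey]
        linarith [neg_abs_le (h k t), hb k t]) hz
      rw [Complex.neg_re] at this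
      linarith
    · exact maxmod hdiff (fun t => by
        rw [hkey]
        linarith [le_abs_self (h k t), hb k t]) hz
  · intro k t hk
    obtain ⟨j, rfl⟩ : ∃ j, k = j + 1 := ⟨k - 1, by omega⟩
    rw [hkey]
    unfold ss sig
    have hu16 : ∀ x : ℝ, x ^ 2048 = (x ^ 128) ^ 16 := fun x => by
      rw [← pow_mul]
    have hc1 : Real.cos (NN (j + 1) * t / 2) ^ 2 ≤ 1 := Real.cos_sq_le_one _
    have hu0 : 0 ≤ (Real.cos (NN (j + 1) * t / 2) ^ 2) ^ 128 := pow_nonneg (sq_nonneg _) _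
    have hu1 : (Real.cos (NN (j + 1) * t / 2) ^ 2) ^ 128 ≤ 1 := pow_le_one₀ (sq_nonneg _) hc1
    rw [hu16]
    refine dich_pt ?_ hu0 (hd j t) (hb _ t) ?_ ?_
    · show 2 * (nn (j + 1) * Real.log 2 / 2) = _
      ring
    · exact bern_le_one _ _ (pow_nonneg hu0 _) (pow_le_one₀ hu0 hu1)
    · exact bern_le _ _ (pow_nonneg hu0 _) (pow_le_one₀ hu0 hu1)

end Pool.Agent.Helper655.BD.J5
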