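import Mathlib
import Pool.Agent.Helper655.BDDefs
import Pool.Agent.Helper655.BDJ5
import Pool.Agent.Helper655.BDJ6
import Pool.Agent.Helper655.BDJ7
import Pool.Agent.Helper655.BDJ8
import Pool.Agent.Helper655.BDJ9
import Pool.Agent.Helper655.BDJ10

set_option autoImplicit false
open Finset

namespace Pool.Agent.Helper655.BD.K3

open Pool.Agent.Helper655.BD.J6 (expSeq_succ expSeq_add expSeq_map expSeq_natDegree)
open Pool.Agent.Helper655.BD.J7 (expSeq_hasSum)
open Pool.Agent.Helper655.BD.J8 (bessel_bdd parseval)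
open Pool.Agent.Helper655.BD.J9 (slice Th_int)
open Pool.Agent.Helper655.BD.J10 (tail_sum re_slice slice_close slice_bound)














theorem FF_aux (c : ℕ → ℂ) (h : Summable fun n => ‖c n‖) :
    DifferentiableOn ℂ (fun z : ℂ × ℂ => ∑' n : ℕ, c n * ∑ j ∈ range (n + 1), z.1 ^ (n - j) * z.2 ^ j)
      (Metric.ball (0 : ℂ × ℂ) 1) := by
  intro z hz
  rw [Metric.mem_ball, dist_zero_right] at hz
  obtain ⟨r, hzr, hr1⟩ := exists_between hz
  have hr0 : 0 < r := lt_of_le_of_lt (norm_nonneg _) hzr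
  have hu : Summable fun n : ℕ => ‖c n‖ * ((n + 1) * (n * r ^ (n - 1))) := by
    have hb : ∃ B : ℝ, ∀ n : ℕ, ((n:ℝ) + 1) * (n * r ^ (n - 1)) ≤ B := by
      have h1 : Summable fun n : ℕ => (n:ℝ) ^ 2 * r ^ n :=
        summable_pow_mul_geometric_of_norm_lt_one 2 (by rw [Real.norm_of_nonneg hr0.le]; exact hr1)
      have h2 : Summable fun n : ℕ => ((n:ℝ)) * r ^ n := by
        have := summable_pow_mul_geometric_of_norm_lt_one (R := ℝ) 1 (r := r) (by rw [Real.norm_of_nonneg hr0.le]; exact hr1)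
        simpa using this
      have h3 : Summable fun n : ℕ => ((n:ℝ) + 1) * (n * r ^ (n - 1)) := by
        have h4 : Summable fun n : ℕ => r⁻¹ * ((n:ℝ) ^ 2 * r ^ n + n * r ^ n) := (h1.add h2).mul_left _
        refine h4.congr ?_
        intro n
        rcases n with _ | n
        · simp
        · simp only [Nat.add_sub_cancel]; field_simp; ring
      obtain ⟨B, hB⟩ := h3.tendsto_atTop_zero.bddAbove_range
      exact ⟨B, fun n => hB ⟨n, rfl⟩⟩
    obtain ⟨B, hB⟩ := hb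
    refine Summable.of_nonneg_of_le (fun n => by positivity) (fun n => mul_le_mul_of_nonneg_left (hB n) (norm_nonneg _)) (h.mul_right B)
  have key := hasFDerivAt_tsum_of_isPreconnected (𝕜 := ℂ) (E := ℂ × ℂ) (F := ℂ) (α := ℕ)
    (f := fun n z => c n * ∑ j ∈ range (n + 1), z.1 ^ (n - j) * z.2 ^ j)
    (f' := fun n z => c n • ∑ j ∈ range (n + 1),
      (z.1 ^ (n - j) • ((((j:ℕ):ℂ) * z.2 ^ (j - 1)) • ContinuousLinearMap.snd ℂ ℂ ℂ) +
        z.2 ^ j • ((((n - j : ℕ):ℂ) * z.1 ^ (n - j - 1)) • ContinuousLinearMap.fst ℂ ℂ ℂ)))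
    (s := Metric.ball (0 : ℂ × ℂ) r) (x₀ := 0) (x := z) hu Metric.isOpen_ball
    (convex_ball (0 : ℂ × ℂ) r).isPreconnected ?_ ?_ (by simp [hr0]) ?_ (by simpa using hzr)
  · exact key.differentiableAt.differentiableWithinAt
  · intro n y _
    have := HasFDerivAt.fun_sum (u := range (n + 1)) (𝕜 := ℂ) (A := fun j (z : ℂ × ℂ) => z.1 ^ (n - j) * z.2 ^ j)
      (A' := fun j => (y.1 ^ (n - j) • ((((j:ℕ):ℂ) * y.2 ^ (j - 1)) • ContinuousLinearMap.snd ℂ ℂ ℂ) +
        y.2 ^ j • ((((n - j : ℕ):ℂ) * y.1 ^ (n - j - 1)) • ContinuousLinearMap.fst ℂ ℂ ℂ))) (x := y) (fun j _ => by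
        have h1 := (hasDerivAt_pow (n - j) y.1).comp_hasFDerivAt y (hasFDerivAt_fst (𝕜 := ℂ) (p := y))
        have h2 := (hasDerivAt_pow j y.2).comp_hasFDerivAt y (hasFDerivAt_snd (𝕜 := ℂ) (p := y))
        exact h1.mul h2)
    exact this.const_mul (c n)
  · intro n y hy
    rw [Metric.mem_ball, dist_zero_right] at hy
    have hy1 : ‖y.1‖ ≤ r := (norm_fst_le y).trans hy.le
    have hy2 : ‖y.2‖ ≤ r := (norm_snd_le y).trans hy.le
    rw [norm_smul]
    refine mul_le_mul_of_nonneg_left ?_ (norm_nonneg _)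
    refine (norm_sum_le _ _).trans ?_
    have : ∀ j ∈ range (n + 1), ‖y.1 ^ (n - j) • ((((j:ℕ):ℂ) * y.2 ^ (j - 1)) • ContinuousLinearMap.snd ℂ ℂ ℂ) +
        y.2 ^ j • ((((n - j : ℕ):ℂ) * y.1 ^ (n - j - 1)) • ContinuousLinearMap.fst ℂ ℂ ℂ)‖ ≤ n * r ^ (n - 1) := by
      intro j hj
      have hjn : j ≤ n := by simpa [Nat.lt_succ_iff] using hj
      have e1 : ‖y.1 ^ (n - j) • ((((j:ℕ):ℂ) * y.2 ^ (j - 1)) • ContinuousLinearMap.snd ℂ ℂ ℂ)‖ ≤ j * r ^ (n - 1) := by
        rw [norm_smul, norm_smul, norm_pow, norm_mul, norm_pow, Complex.norm_natCast]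
        rcases Nat.eq_zero_or_pos j with h0 | h0
        · subst h0; simp
        have hs : ‖ContinuousLinearMap.snd ℂ ℂ ℂ‖ ≤ 1 := ContinuousLinearMap.norm_snd_le _ _ _
        calc ‖y.1‖ ^ (n - j) * (j * ‖y.2‖ ^ (j - 1) * ‖ContinuousLinearMap.snd ℂ ℂ ℂ‖)
            ≤ r ^ (n - j) * (j * r ^ (j - 1) * 1) := by gcongr
          _ = j * r ^ (n - 1) := by
            rw [mul_one, mul_left_comm, ← pow_add]; congr 2; omega
      have e2 : ‖y.2 ^ j • ((((n - j : ℕ):ℂ) * y.1 ^ (n - j - 1)) • ContinuousLinearMap.fst ℂ ℂ ℂ)‖ ≤ (n - j : ℕ) * r ^ (n - 1) := by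
        rw [norm_smul, norm_smul, norm_pow, norm_mul, norm_pow, Complex.norm_natCast]
        rcases Nat.eq_zero_or_pos (n - j) with h0 | h0
        · rw [h0]; simp
        have hs : ‖ContinuousLinearMap.fst ℂ ℂ ℂ‖ ≤ 1 := ContinuousLinearMap.norm_fst_le _ _ _
        calc ‖y.2‖ ^ j * ((n - j : ℕ) * ‖y.1‖ ^ (n - j - 1) * ‖ContinuousLinearMap.fst ℂ ℂ ℂ‖)
            ≤ r ^ j * ((n - j : ℕ) * r ^ (n - j - 1) * 1) := by gcongr
          _ = (n - j : ℕ) * r ^ (n - 1) := by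
            rw [mul_one, mul_left_comm, ← pow_add]; congr 2; omega
      refine (norm_add_le _ _).trans ((add_le_add e1 e2).trans ?_)
      rw [← add_mul, ← Nat.cast_add, Nat.add_sub_cancel' hjn]
    refine (sum_le_sum this).trans ?_
    rw [sum_const, card_range, nsmul_eq_mul]; push_cast; exact le_rfl
  · refine Summable.of_norm_bounded_eventually_nat (g := fun n => 0) summable_zero ?_
    filter_upwards [Filter.eventually_ge_atTop 1] with n hn
    rw [sum_eq_zero]; · simp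
    intro j hj
    have hjn : j ≤ n := by simpa [Nat.lt_succ_iff] using hj
    rcases Nat.eq_zero_or_pos j with h0 | h0
    · subst h0; simp [show n ≠ 0 by omega]
    · simp [show j ≠ 0 by omega]

/-- TARGET 1 -/
theorem FF_diff {gc : ℕ → ℂ} (hD : Data gc) : DifferentiableOn ℂ (FF gc) (Metric.ball (0 : ℂ × ℂ) 1) := by
  have h : Summable fun n : ℕ => ‖gc n / (n + 1)‖ := by
    refine (tail_sum hD).1.congr fun n => ?_
    rw [norm_div]
    congr 1
    have : ((n : ℂ) + 1) = ((n + 1 : ℕ) : ℂ) := by push_cast; ring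
    rw [this, Complex.norm_natCast]; push_cast; ring
  exact (FF_aux (fun n => gc n / (n + 1)) h).cexp

end Pool.Agent.Helper655.BD.K3
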