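import Mathlib
import Pool.Agent.Helper655.BDDefs

set_option autoImplicit false
open Finset

namespace Pool.Agent.Helper655.BD.K4


theorem ee_add (s t : ℝ) : ee (s + t) = ee s * ee t := by
  unfold ee
  rw [← Complex.exp_add]
  congr 1
  push_cast
  ring

theorem ee_periodic (n : ℤ) (t : ℝ) : ee (n * (2 * Real.pi) + t) = ee t := by
  rw [ee_add]
  have : ee (n * (2 * Real.pi)) = 1 := by
    unfold ee
    rw [Complex.exp_eq_one_iff]
    exact ⟨n, by push_cast; ring⟩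
  rw [this, one_mul]

theorem ts_shift (h : ℝ → ENNReal) (hm : Measurable h)
    (hper : ∀ (n : ℤ) (t : ℝ), h (n * (2 * Real.pi) + t) = h t) (s : ℝ) :
    ∫⁻ y in Set.Ioc (0:ℝ) (2 * Real.pi), h y = ∫⁻ t in Set.Ioc (0:ℝ) (2 * Real.pi), h (s + t) := by
  have h1 : ∫⁻ t in Set.Ioc (0:ℝ) (2 * Real.pi), h (s + t) =
      ∫⁻ y in Set.Ioc s (s + 2 * Real.pi), h y := by
    have h2 : MeasureTheory.MeasurePreserving (fun t : ℝ => s + t)
        MeasureTheory.volume MeasureTheory.volume :=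
      MeasureTheory.measurePreserving_add_left MeasureTheory.volume s
    have h3 := h2.setLIntegral_comp_preimage (s := Set.Ioc s (s + 2 * Real.pi))
      measurableSet_Ioc hm
    rw [← h3]
    congr 2
    ext t
    simp only [Set.mem_Ioc, Set.mem_preimage]
    constructor
    · rintro ⟨h4, h5⟩
      exact ⟨by linarith, by linarith⟩
    · rintro ⟨h4, h5⟩
      exact ⟨by linarith, by linarith⟩
  rw [h1]
  have d1 := isAddFundamentalDomain_Ioc (T := 2 * Real.pi) Real.two_pi_pos 0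
    (MeasureTheory.volume : MeasureTheory.Measure ℝ)
  have d2 := isAddFundamentalDomain_Ioc (T := 2 * Real.pi) Real.two_pi_pos s
    (MeasureTheory.volume : MeasureTheory.Measure ℝ)
  rw [zero_add] at d1
  apply d1.setLIntegral_eq d2
  rintro ⟨g, hg⟩ x
  obtain ⟨n, rfl⟩ := AddSubgroup.mem_zmultiples_iff.mp hg
  show h ((n • (2 * Real.pi) : ℝ) + x) = h x
  rw [zsmul_eq_mul]
  exact hper n x

/-- TARGET 1: slice formula for torus integrals -/
theorem tor_slice (p r : ℝ) (hp : 0 ≤ p) (F : ℂ × ℂ → ℂ)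
    (hF : Continuous fun x : ℝ × ℝ => F ((r:ℂ) * ee x.1, (r:ℂ) * ee x.2)) :
    tor p r F = ∫⁻ t in Set.Ioc (0:ℝ) (2 * Real.pi), ∫⁻ s in Set.Ioc (0:ℝ) (2 * Real.pi),
      (‖F ((r:ℂ) * ee s, (r:ℂ) * ee s * ee t)‖ₑ) ^ p := by
  have hG : Measurable (fun x : ℝ × ℝ => (‖F ((r:ℂ) * ee x.1, (r:ℂ) * ee x.2)‖ₑ) ^ p) := by
    apply Measurable.pow_const
    exact hF.measurable.enorm
  have h1 : tor p r F = ∫⁻ s in Set.Ioc (0:ℝ) (2 * Real.pi),
      ∫⁻ y in Set.Ioc (0:ℝ) (2 * Real.pi), (‖F ((r:ℂ) * ee s, (r:ℂ) * ee y)‖ₑ) ^ p := by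
    unfold tor
    rw [MeasureTheory.Measure.volume_eq_prod, ← MeasureTheory.Measure.prod_restrict,
      MeasureTheory.Measure.restrict_congr_set MeasureTheory.Ioc_ae_eq_Icc.symm,
      MeasureTheory.lintegral_prod]
    · rfl
    · exact hG.aemeasurable
  have h2 : ∀ s : ℝ, ∫⁻ y in Set.Ioc (0:ℝ) (2 * Real.pi),
      (‖F ((r:ℂ) * ee s, (r:ℂ) * ee y)‖ₑ) ^ p = ∫⁻ t in Set.Ioc (0:ℝ) (2 * Real.pi),
      (‖F ((r:ℂ) * ee s, (r:ℂ) * ee s * ee t)‖ₑ) ^ p := by
    intro s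
    have hm : Measurable (fun y : ℝ => (‖F ((r:ℂ) * ee s, (r:ℂ) * ee y)‖ₑ) ^ p) := by
      apply Measurable.pow_const
      exact (hF.measurable.comp (measurable_const.prodMk measurable_id)).enorm
    have hp' : ∀ (n : ℤ) (t : ℝ), (fun y : ℝ => (‖F ((r:ℂ) * ee s, (r:ℂ) * ee y)‖ₑ) ^ p)
        (n * (2 * Real.pi) + t) = (fun y : ℝ => (‖F ((r:ℂ) * ee s, (r:ℂ) * ee y)‖ₑ) ^ p) t := by
      intro n t
      simp only [ee_periodic]
    refine (ts_shift _ hm hp' s).trans ?_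
    simp only [ee_add, mul_assoc]
  rw [h1]
  simp only [h2]
  rw [MeasureTheory.lintegral_lintegral_swap]
  have h3 : Function.uncurry (fun s t : ℝ => (‖F ((r:ℂ) * ee s, (r:ℂ) * ee s * ee t)‖ₑ) ^ p) =
      (fun x : ℝ × ℝ => (‖F ((r:ℂ) * ee x.1, (r:ℂ) * ee x.2)‖ₑ) ^ p) ∘
        (fun x : ℝ × ℝ => (x.1, x.1 + x.2)) := by
    funext x
    simp only [Function.uncurry, Function.comp, ee_add, mul_assoc]
  rw [h3]
  exact (hG.comp (measurable_fst.prodMk (measurable_fst.add measurable_snd))).aemeasurable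

theorem gg_inner (x w : ℂ) (n : ℕ) :
    ∑ j ∈ range (n + 1), x ^ (n - j) * (x * w) ^ j = (∑ j ∈ range (n + 1), w ^ j) * x ^ n := by
  rw [Finset.sum_mul]
  apply Finset.sum_congr rfl
  intro j hj
  have hj' : j ≤ n := by
    rw [Finset.mem_range] at hj
    omega
  conv_rhs => rw [← Nat.sub_add_cancel hj', pow_add]
  rw [mul_pow]
  ring

/-- TARGET 2: the exponent on slices -/
theorem GG_slice (gc : ℕ → ℂ) (x w : ℂ) :
    GG gc (x, x * w) = ∑' n : ℕ, gc n / (n + 1) * (∑ j ∈ range (n + 1), w ^ j) * x ^ n ∧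
    ∀ k, GGk gc k (x, x * w) =
      ∑ n ∈ range (MM (k + 1)), gc n / (n + 1) * (∑ j ∈ range (n + 1), w ^ j) * x ^ n := by
  constructor
  · unfold GG
    congr 1
    funext n
    rw [mul_assoc, ← gg_inner]
  · intro k
    unfold GGk
    apply Finset.sum_congr rfl
    intro n _
    rw [mul_assoc, ← gg_inner]

end Pool.Agent.Helper655.BD.K4
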