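import Mathlib
import Pool.Agent.Helper655.BDDefs
import Pool.Agent.Helper655.BDJ5
import Pool.Agent.Helper655.BDJ6
import Pool.Agent.Helper655.BDJ7
import Pool.Agent.Helper655.BDJ8
import Pool.Agent.Helper655.BDJ9
import Pool.Agent.Helper655.BDJ10
import Pool.Agent.Helper655.BDK3
import Pool.Agent.Helper655.BDK4
import Pool.Agent.Helper655.BDLow

set_option autoImplicit false
open Finset

namespace Pool.Agent.Helper655.BD.K10

open Pool.Agent.Helper655.BD.J6 (expSeq_succ expSeq_add expSeq_map expSeq_natDegree)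
open Pool.Agent.Helper655.BD.J7 (expSeq_hasSum)
open Pool.Agent.Helper655.BD.J8 (bessel_bdd parseval)
open Pool.Agent.Helper655.BD.J9 (slice Th_int)
open Pool.Agent.Helper655.BD.J10 (tail_sum re_slice slice_close slice_bound)
open Pool.Agent.Helper655.BD.K3 (FF_diff)
open Pool.Agent.Helper655.BD.K4 (tor_slice GG_slice)
open Pool.Agent.Helper655.BD.Low (low_bound)



















open MeasureTheory Filter Topology

/-- homogeneous parts -/
noncomputable def hom (P : MvPolynomial (Fin 2) ℂ) (n : ℕ) : Polynomial ℂ :=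
  ∑ m ∈ P.support, if m 0 + m 1 = n then Polynomial.C (P.coeff m) * Polynomial.X ^ (m 1) else 0

theorem hom_natDegree (P : MvPolynomial (Fin 2) ℂ) (n : ℕ) : (hom P n).natDegree ≤ n := by
  unfold hom
  apply Polynomial.natDegree_sum_le_of_forall_le
  intro m _
  split_ifs with h
  · exact (Polynomial.natDegree_C_mul_X_pow_le _ _).trans (by omega)
  · simp

theorem hom_zero (P : MvPolynomial (Fin 2) ℂ) : ∃ N : ℕ, ∀ n, N ≤ n → hom P n = 0 := by
  refine ⟨P.support.sup (fun m => m 0 + m 1) + 1, fun n hn => ?_⟩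
  unfold hom
  apply Finset.sum_eq_zero
  intro m hm
  rw [if_neg]
  have : m 0 + m 1 ≤ P.support.sup (fun m => m 0 + m 1) :=
    Finset.le_sup (f := fun m : Fin 2 →₀ ℕ => m 0 + m 1) hm
  omega

theorem hom_hasSum (P : MvPolynomial (Fin 2) ℂ) (x w : ℂ) :
    HasSum (fun n => (hom P n).eval w * x ^ n) (MvPolynomial.eval ![x, x * w] P) := by
  have h1 : MvPolynomial.eval ![x, x * w] P =
      ∑ m ∈ P.support, P.coeff m * w ^ (m 1) * x ^ (m 0 + m 1) := by
    rw [MvPolynomial.eval_eq']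
    apply Finset.sum_congr rfl
    intro m _
    rw [Fin.prod_univ_two]
    simp only [Matrix.cons_val_zero, Matrix.cons_val_one]
    ring
  rw [h1]
  have h2 : ∀ m ∈ P.support, HasSum
      (fun n => (if m 0 + m 1 = n then Polynomial.C (P.coeff m) * Polynomial.X ^ (m 1)
        else (0 : Polynomial ℂ)).eval w * x ^ n) (P.coeff m * w ^ (m 1) * x ^ (m 0 + m 1)) := by
    intro m _
    convert hasSum_ite_eq (m 0 + m 1) (P.coeff m * w ^ (m 1) * x ^ (m 0 + m 1)) using 1
    funext n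
    by_cases h : m 0 + m 1 = n
    · rw [if_pos h, if_pos h.symm, h]
      simp
    · rw [if_neg h, if_neg (fun h' => h h'.symm)]
      simp
  convert hasSum_sum h2 using 1
  funext n
  unfold hom
  rw [Polynomial.eval_finsetSum, Finset.sum_mul]

/-- the error polynomials -/
noncomputable def HH (gc : ℕ → ℂ) (P : MvPolynomial (Fin 2) ℂ) (n : ℕ) : Polynomial ℂ :=
  cv (hom P) (expSeq (AA 1 gc)) n - if n = 0 then 1 else 0

theorem AA_eval (gc : ℕ → ℂ) (w : ℂ) (n : ℕ) :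
    (AA 1 gc n).eval w = gc n / (n + 1) * ∑ j ∈ range (n + 1), w ^ j := by
  unfold AA
  rw [Polynomial.eval_mul, Polynomial.eval_C, one_mul, Polynomial.eval_finsetSum]
  simp

theorem gc_zero {gc : ℕ → ℂ} (hD : Data gc) : gc 0 = 0 := by
  apply hD.low
  unfold MM
  positivity

theorem expand {gc : ℕ → ℂ} (hD : Data gc) (P : MvPolynomial (Fin 2) ℂ) (w x : ℂ)
    (hw : ‖w‖ = 1) (hw1 : w ≠ 1) (hx : ‖x‖ ≤ 1) :
    (Summable fun n => ‖(HH gc P n).eval w‖ * ‖x‖ ^ n) ∧
      ∑' n, (HH gc P n).eval w * x ^ n =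
        MvPolynomial.eval ![x, x * w] P * FF gc (x, x * w) - 1 := by
  have hs := (slice_close hD w x hw hw1 hx).1
  have hA0 : (fun n => (AA 1 gc n).eval w) 0 = 0 := by
    simp only [AA_eval, gc_zero hD]
    simp
  have hs' : Summable fun n => ‖(fun n => (AA 1 gc n).eval w) n‖ * ‖x‖ ^ n := by
    simpa only [AA_eval] using hs
  obtain ⟨hb, hsum⟩ := expSeq_hasSum (fun n => (AA 1 gc n).eval w) x hA0 hs'
  have hmap : ∀ n, (expSeq (AA 1 gc) n).eval w = expSeq (fun n => (AA 1 gc n).eval w) n := by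
    intro n
    have := expSeq_map (Polynomial.aeval w : Polynomial ℂ →ₐ[ℂ] ℂ) (AA 1 gc) n
    simpa only [Polynomial.coe_aeval_eq_eval] using this
  have hFF : FF gc (x, x * w) = Complex.exp (∑' n, (fun n => (AA 1 gc n).eval w) n * x ^ n) := by
    unfold FF
    rw [(GG_slice gc x w).1]
    simp only [AA_eval]
  have ha := hom_hasSum P x w
  have han : Summable fun n => ‖(hom P n).eval w * x ^ n‖ := by
    obtain ⟨N, hN⟩ := hom_zero P
    apply summable_of_ne_finset_zero (s := range N)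
    intro n hn
    rw [hN n (by simpa using hn)]
    simp
  have hbn : Summable fun n => ‖(expSeq (AA 1 gc) n).eval w * x ^ n‖ := by
    simpa only [hmap, norm_mul, norm_pow] using hb
  have hprod := tsum_mul_tsum_eq_tsum_sum_range_of_summable_norm han hbn
  have hprodn := summable_norm_sum_mul_range_of_summable_norm han hbn
  have hcv : ∀ n, ∑ k ∈ range (n + 1), ((hom P k).eval w * x ^ k) *
      ((expSeq (AA 1 gc) (n - k)).eval w * x ^ (n - k)) =
      (cv (hom P) (expSeq (AA 1 gc)) n).eval w * x ^ n := by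
    intro n
    unfold cv
    rw [Polynomial.eval_finsetSum, Finset.sum_mul]
    apply Finset.sum_congr rfl
    intro k hk
    have hk' : k ≤ n := by
      have := Finset.mem_range.1 hk
      omega
    rw [Polynomial.eval_mul]
    have : x ^ n = x ^ k * x ^ (n - k) := by rw [← pow_add, Nat.add_sub_cancel' hk']
    rw [this]
    ring
  simp only [hcv] at hprod hprodn
  have hδ : HasSum (fun n : ℕ => (if n = 0 then (1 : Polynomial ℂ) else 0).eval w * x ^ n) 1 := by
    convert hasSum_ite_eq (0 : ℕ) (1 : ℂ) using 1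
    funext n
    by_cases h : n = 0
    · rw [if_pos h, if_pos h, h]; simp
    · rw [if_neg h, if_neg h]; simp
  have hδn : Summable fun n : ℕ => ‖(if n = 0 then (1 : Polynomial ℂ) else 0).eval w * x ^ n‖ := by
    apply summable_of_ne_finset_zero (s := range 1)
    intro n hn
    rw [if_neg (by simpa using hn)]
    simp
  have heq : ∀ n, (HH gc P n).eval w * x ^ n = (cv (hom P) (expSeq (AA 1 gc)) n).eval w * x ^ n -
      (if n = 0 then (1 : Polynomial ℂ) else 0).eval w * x ^ n := by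
    intro n
    unfold HH
    rw [Polynomial.eval_sub, sub_mul]
  constructor
  · have h1 : ∀ n, ‖(HH gc P n).eval w‖ * ‖x‖ ^ n ≤
        ‖(cv (hom P) (expSeq (AA 1 gc)) n).eval w * x ^ n‖ +
          ‖(if n = 0 then (1 : Polynomial ℂ) else 0).eval w * x ^ n‖ := by
      intro n
      rw [← norm_pow, ← norm_mul, heq]
      exact norm_sub_le _ _
    exact Summable.of_nonneg_of_le (fun n => by positivity) h1 (hprodn.add hδn)
  · simp only [heq]
    rw [(hprodn.of_norm).tsum_sub hδn.of_norm, ← hprod, hδ.tsum_eq, ha.tsum_eq, hFF]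
    congr 2
    rw [← hsum.tsum_eq]
    simp only [hmap]

theorem ee_norm (t : ℝ) : ‖ee t‖ = 1 := by
  unfold ee
  exact Complex.norm_exp_ofReal_mul_I t

theorem ee_ne_one (t : ℝ) (h0 : 0 < t) (h1 : t < 2 * Real.pi) : ee t ≠ 1 := by
  unfold ee
  rw [Ne, Complex.exp_eq_one_iff]
  rintro ⟨n, hn⟩
  have h2 : (t : ℂ) = n * (2 * Real.pi) := by
    have h3 : (t : ℂ) * Complex.I = (n * (2 * Real.pi)) * Complex.I := by rw [hn]; ring
    exact mul_right_cancel₀ Complex.I_ne_zero h3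
  have h3 : t = n * (2 * Real.pi) := by exact_mod_cast h2
  have hpi := Real.pi_pos
  have h4 : (0 : ℝ) < n := by
    by_contra h
    push Not at h
    nlinarith
  have h5 : (n : ℝ) < 1 := by
    by_contra h
    push Not at h
    nlinarith
  have h6 : (0 : ℤ) < n := by exact_mod_cast h4
  have h7 : n < 1 := by exact_mod_cast h5
  omega

/-- the inner integral -/
theorem inner_ge (e : ℕ → ℂ) (r : ℝ) (hr : 0 ≤ r) (h : Summable fun n => ‖e n‖ * r ^ n)
    (Φ : ℝ → ℂ) (hΦ : ∀ s, Φ s = ∑' n, e n * (r * ee s) ^ n) :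
    ∑' n, ENNReal.ofReal (r ^ (2 * n)) * ENNReal.ofReal (‖e n‖ ^ 2) ≤
      ∫⁻ s in Set.Ioc (0:ℝ) (2 * Real.pi), (‖Φ s‖ₑ) ^ (2 : ℝ) := by
  have hpi := Real.pi_pos
  obtain ⟨h1, h2⟩ := parseval e r hr h
  unfold mean at h2
  have h3 : ∫ t in (0:ℝ)..(2 * Real.pi), ‖∑' n, e n * (r * ee t) ^ n‖ ^ 2 =
      (2 * Real.pi) * ∑' n, ‖e n‖ ^ 2 * r ^ (2 * n) := by
    rw [← h2]
    field_simp
  rw [intervalIntegral.integral_of_le (by positivity)] at h3
  have hnn : ∀ n, 0 ≤ ‖e n‖ ^ 2 * r ^ (2 * n) := fun n => by positivity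
  calc ∑' n, ENNReal.ofReal (r ^ (2 * n)) * ENNReal.ofReal (‖e n‖ ^ 2)
      = ∑' n, ENNReal.ofReal (‖e n‖ ^ 2 * r ^ (2 * n)) := by
        congr 1
        funext n
        rw [mul_comm, ← ENNReal.ofReal_mul (by positivity)]
    _ = ENNReal.ofReal (∑' n, ‖e n‖ ^ 2 * r ^ (2 * n)) :=
        (ENNReal.ofReal_tsum_of_nonneg hnn h1).symm
    _ ≤ ENNReal.ofReal ((2 * Real.pi) * ∑' n, ‖e n‖ ^ 2 * r ^ (2 * n)) := by
        apply ENNReal.ofReal_le_ofReal
        have h4 : 0 ≤ ∑' n, ‖e n‖ ^ 2 * r ^ (2 * n) := tsum_nonneg hnn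
        have h5 := Real.pi_gt_three
        nlinarith
    _ = ENNReal.ofReal (∫ t in Set.Ioc (0:ℝ) (2 * Real.pi), ‖Φ t‖ ^ 2) := by
        rw [← h3]
        simp only [hΦ]
    _ ≤ ‖∫ t in Set.Ioc (0:ℝ) (2 * Real.pi), ‖Φ t‖ ^ 2‖ₑ := by
        rw [Real.enorm_eq_ofReal_abs]
        exact ENNReal.ofReal_le_ofReal (le_abs_self _)
    _ ≤ ∫⁻ t in Set.Ioc (0:ℝ) (2 * Real.pi), ‖‖Φ t‖ ^ 2‖ₑ := enorm_integral_le_lintegral_enorm _
    _ = _ := by
        apply lintegral_congr
        intro s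
        rw [enorm_pow, enorm_norm]
        norm_cast

/-- the torus integral dominates -/
theorem tor_ge {gc : ℕ → ℂ} (hD : Data gc) (P : MvPolynomial (Fin 2) ℂ) (r : ℝ) (hr : 0 < r)
    (hr1 : r < 1) :
    ∑' n, ENNReal.ofReal (r ^ (2 * n)) * ∫⁻ t in Set.Ioc (0:ℝ) (2 * Real.pi),
        ENNReal.ofReal (‖(HH gc P n).eval (ee t)‖ ^ 2) ≤
      tor 2 r (fun z => MvPolynomial.eval ![z.1, z.2] P * FF gc z - 1) := by
  have hpi := Real.pi_pos
  have hee : Continuous ee := by unfold ee; fun_prop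
  have hcont : Continuous fun x : ℝ × ℝ =>
      (fun z : ℂ × ℂ => MvPolynomial.eval ![z.1, z.2] P * FF gc z - 1)
        ((r:ℂ) * ee x.1, (r:ℂ) * ee x.2) := by
    have hFc : ContinuousOn (FF gc) (Metric.ball (0 : ℂ × ℂ) 1) := (FF_diff hD).continuousOn
    have h1 : Continuous fun x : ℝ × ℝ => ((r:ℂ) * ee x.1, (r:ℂ) * ee x.2) := by fun_prop
    have h2 : ∀ x : ℝ × ℝ, ((r:ℂ) * ee x.1, (r:ℂ) * ee x.2) ∈ Metric.ball (0 : ℂ × ℂ) 1 := by
      intro x
      rw [Metric.mem_ball, dist_zero_right, Prod.norm_def]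
      simp only [norm_mul, ee_norm, mul_one, Complex.norm_real, Real.norm_eq_abs, abs_of_pos hr,
        max_self]
      exact hr1
    have h3 : Continuous fun x : ℝ × ℝ => FF gc ((r:ℂ) * ee x.1, (r:ℂ) * ee x.2) :=
      hFc.comp_continuous h1 h2
    have h4 : Continuous fun x : ℝ × ℝ =>
        MvPolynomial.eval ![(r:ℂ) * ee x.1, (r:ℂ) * ee x.2] P := by
      have h5 : Continuous fun x : ℝ × ℝ => (![(r:ℂ) * ee x.1, (r:ℂ) * ee x.2] : Fin 2 → ℂ) := by
        apply continuous_pi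
        intro i
        fin_cases i
        · simp only [Fin.zero_eta, Matrix.cons_val_zero]; fun_prop
        · simp only [Fin.mk_one, Matrix.cons_val_one]; fun_prop
      exact (MvPolynomial.continuous_eval P).comp h5
    exact (h4.mul h3).sub continuous_const
  rw [tor_slice 2 r (by norm_num) _ hcont]
  have hmeas : ∀ n, Measurable fun t : ℝ => ENNReal.ofReal (‖(HH gc P n).eval (ee t)‖ ^ 2) := by
    intro n
    have h1 : Continuous fun t : ℝ => ‖(HH gc P n).eval (ee t)‖ ^ 2 :=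
      (((HH gc P n).continuous.comp hee).norm).pow 2
    exact h1.measurable.ennreal_ofReal
  have h1 : ∑' n, ENNReal.ofReal (r ^ (2 * n)) * ∫⁻ t in Set.Ioc (0:ℝ) (2 * Real.pi),
        ENNReal.ofReal (‖(HH gc P n).eval (ee t)‖ ^ 2) =
      ∫⁻ t in Set.Ioc (0:ℝ) (2 * Real.pi), ∑' n, ENNReal.ofReal (r ^ (2 * n)) *
        ENNReal.ofReal (‖(HH gc P n).eval (ee t)‖ ^ 2) := by
    rw [lintegral_tsum (fun n => ((hmeas n).const_mul _).aemeasurable)]
    congr 1
    funext n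
    rw [lintegral_const_mul _ (hmeas n)]
  rw [h1]
  apply lintegral_mono_ae
  have hne : ∀ᵐ t : ℝ ∂(volume.restrict (Set.Ioc (0:ℝ) (2 * Real.pi))), t ≠ 2 * Real.pi := by
    apply ae_restrict_of_ae
    rw [ae_iff]
    simp
  filter_upwards [hne, ae_restrict_mem measurableSet_Ioc] with t ht htm
  have hw := ee_norm t
  have hw1 : ee t ≠ 1 := ee_ne_one t htm.1 (lt_of_le_of_ne htm.2 ht)
  have hxr : ‖(r : ℂ)‖ = r := by rw [Complex.norm_real, Real.norm_eq_abs, abs_of_pos hr]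
  apply inner_ge (fun n => (HH gc P n).eval (ee t)) r hr.le
  · have := (expand hD P (ee t) (r : ℂ) hw hw1 (by rw [hxr]; exact hr1.le)).1
    rwa [hxr] at this
  · intro s
    have hx : ‖(r : ℂ) * ee s‖ ≤ 1 := by rw [norm_mul, ee_norm, mul_one, hxr]; exact hr1.le
    exact (expand hD P (ee t) ((r : ℂ) * ee s) hw hw1 hx).2.symm

/-- TARGET: function level lower bound -/
theorem low_fn {gc : ℕ → ℂ} (hD : Data gc) : ∃ ε0 : ENNReal, 0 < ε0 ∧
    ∀ P : MvPolynomial (Fin 2) ℂ,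
      ε0 ≤ HN 2 (fun z => MvPolynomial.eval ![z.1, z.2] P * FF gc z - 1) := by
  obtain ⟨ε0, hε0, hlow⟩ := low_bound hD
  refine ⟨ENNReal.ofReal ε0, ENNReal.ofReal_pos.2 hε0, ?_⟩
  intro P
  have h1 := hlow (hom P) (hom_natDegree P) (hom_zero P)
  have h2 := slice (HH gc P)
  have h3 : ENNReal.ofReal ε0 ≤ ∫⁻ t in Set.Ioc (0:ℝ) (2 * Real.pi),
        ∑' n, ENNReal.ofReal (‖(HH gc P n).eval (ee t)‖ ^ 2) := by
    refine h1.trans ?_
    change ∑' n, ∑' j, ENNReal.ofReal (‖(HH gc P n).coeff j‖ ^ 2) ≤ _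
    rw [h2]
    have h4 : ENNReal.ofReal (2 * Real.pi)⁻¹ ≤ 1 := by
      rw [← ENNReal.ofReal_one]
      apply ENNReal.ofReal_le_ofReal
      apply inv_le_one_of_one_le₀
      have := Real.pi_gt_three
      linarith
    calc _ ≤ 1 * ∫⁻ t in Set.Ioc (0:ℝ) (2 * Real.pi),
        ∑' n, ENNReal.ofReal (‖(HH gc P n).eval (ee t)‖ ^ 2) := by gcongr
      _ = _ := one_mul _
  refine h3.trans ?_
  have hee : Continuous ee := by unfold ee; fun_prop
  have hmeas : ∀ n, Measurable fun t : ℝ => ENNReal.ofReal (‖(HH gc P n).eval (ee t)‖ ^ 2) := by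
    intro n
    have h1 : Continuous fun t : ℝ => ‖(HH gc P n).eval (ee t)‖ ^ 2 :=
      (((HH gc P n).continuous.comp hee).norm).pow 2
    exact h1.measurable.ennreal_ofReal
  rw [lintegral_tsum (fun n => (hmeas n).aemeasurable)]
  set c : ℕ → ENNReal := fun n => ∫⁻ t in Set.Ioc (0:ℝ) (2 * Real.pi),
        ENNReal.ofReal (‖(HH gc P n).eval (ee t)‖ ^ 2) with hc
  set B := HN 2 (fun z => MvPolynomial.eval ![z.1, z.2] P * FF gc z - 1) with hB
  have hr : ∀ r : ℝ, 0 < r → r < 1 → ∑' n, ENNReal.ofReal (r ^ (2 * n)) * c n ≤ B := by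
    intro r hr hr1
    refine (tor_ge hD P r hr hr1).trans ?_
    rw [hB]
    unfold HN
    exact le_iSup₂_of_le r ⟨hr, hr1⟩ le_rfl
  rw [ENNReal.tsum_eq_iSup_sum]
  apply iSup_le
  intro S
  have hlim : Tendsto (fun r : ℝ => ∑ n ∈ S, ENNReal.ofReal (r ^ (2 * n)) * c n) (𝓝[<] 1)
      (𝓝 (∑ n ∈ S, 1 * c n)) := by
    apply tendsto_finsetSum
    intro n _
    apply ENNReal.Tendsto.mul_const
    · have h5 : Tendsto (fun r : ℝ => ENNReal.ofReal (r ^ (2 * n))) (𝓝 1)
          (𝓝 (ENNReal.ofReal ((1 : ℝ) ^ (2 * n)))) := by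
        apply Continuous.tendsto
        exact ENNReal.continuous_ofReal.comp (continuous_pow _)
      rw [one_pow, ENNReal.ofReal_one] at h5
      exact h5.mono_left nhdsWithin_le_nhds
    · left; exact one_ne_zero
  simp only [one_mul] at hlim
  apply le_of_tendsto hlim
  have hev : ∀ᶠ r : ℝ in 𝓝[<] 1, r ∈ Set.Ioo (0:ℝ) 1 := Ioo_mem_nhdsLT one_pos
  filter_upwards [hev] with r hr'
  exact (ENNReal.sum_le_tsum S).trans (hr r hr'.1 hr'.2)

end Pool.Agent.Helper655.BD.K10
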