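import Mathlib
import Pool.Agent.Helper655.BDDefs
import Pool.Agent.Helper655.BDJ5
import Pool.Agent.Helper655.BDJ6
import Pool.Agent.Helper655.BDJ7
import Pool.Agent.Helper655.BDJ8
import Pool.Agent.Helper655.BDJ9
import Pool.Agent.Helper655.BDJ10
import Pool.Agent.Helper655.BDK3
import Pool.Agent.Helper655.BDK4

set_option autoImplicit false
open Finset

namespace Pool.Agent.Helper655.BD.K5

open Pool.Agent.Helper655.BD.J6 (expSeq_succ expSeq_add expSeq_map expSeq_natDegree)
open Pool.Agent.Helper655.BD.J7 (expSeq_hasSum)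
open Pool.Agent.Helper655.BD.J8 (bessel_bdd parseval)
open Pool.Agent.Helper655.BD.J9 (slice Th_int)
open Pool.Agent.Helper655.BD.J10 (tail_sum re_slice slice_close slice_bound)
open Pool.Agent.Helper655.BD.K3 (FF_diff)
open Pool.Agent.Helper655.BD.K4 (tor_slice GG_slice)

















theorem norm_ee (t : ℝ) : ‖ee t‖ = 1 := by
  unfold ee
  exact Complex.norm_exp_ofReal_mul_I t

theorem continuous_ee : Continuous ee := by
  unfold ee; fun_prop

theorem ee_ne_one {t : ℝ} (h0 : 0 < t) (h1 : t < 2 * Real.pi) : ee t ≠ 1 := by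
  intro h
  unfold ee at h
  rw [Complex.exp_eq_one_iff] at h
  obtain ⟨n, hn⟩ := h
  have h2 : (t : ℂ) = n * (2 * Real.pi) := by
    have : (t : ℂ) * Complex.I = (n * (2 * Real.pi)) * Complex.I := by rw [hn]; ring
    exact mul_right_cancel₀ Complex.I_ne_zero this
  have h3 : t = n * (2 * Real.pi) := by exact_mod_cast h2
  have hpi := Real.pi_pos
  have h4 : (0 : ℝ) < n := by
    by_contra hc
    push Not at hc
    nlinarith
  have h5 : (n : ℝ) < 1 := by
    by_contra hc
    push Not at hc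
    nlinarith
  have h6 : 0 < n := by exact_mod_cast h4
  have h7 : n < 1 := by exact_mod_cast h5
  omega

theorem ae_ee_ne_one : ∀ᵐ t ∂(MeasureTheory.volume.restrict (Set.Ioc (0:ℝ) (2 * Real.pi))),
    ee t ≠ 1 := by
  have h1 : ∀ᵐ t ∂(MeasureTheory.volume.restrict (Set.Ioc (0:ℝ) (2 * Real.pi))),
      t ≠ 2 * Real.pi := by
    apply MeasureTheory.ae_restrict_of_ae
    exact MeasureTheory.Measure.ae_ne MeasureTheory.volume (2 * Real.pi)
  filter_upwards [h1, MeasureTheory.ae_restrict_mem measurableSet_Ioc] with t ht1 ht2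
  exact ee_ne_one ht2.1 (lt_of_le_of_ne ht2.2 ht1)

theorem dd_pos (k : ℕ) : 0 < dd k := by
  cases k with
  | zero => simp [dd]
  | succ k => simp only [dd]; positivity

theorem dd_succ_le (k : ℕ) : dd (k + 1) ≤ (1 / 2) ^ k := by
  simp only [dd]
  rw [div_le_iff₀ (by positivity), one_div, inv_pow, ← div_eq_inv_mul, le_div_iff₀ (by positivity),
    ← pow_add]
  apply pow_le_pow_right₀ (by norm_num)
  have : 5 + k ≤ 5 * (k + 2) ^ 2 := by nlinarith
  omega

theorem dd_tendsto : Filter.Tendsto (fun k => dd (k + 1)) Filter.atTop (nhds 0) := by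
  apply squeeze_zero (fun k => (dd_pos _).le) dd_succ_le
  exact tendsto_pow_atTop_nhds_zero_of_lt_one (by norm_num) (by norm_num)

theorem dd_anti {i j : ℕ} (h : i ≤ j) : dd (j + 1) ≤ dd (i + 1) := by
  simp only [dd]
  apply div_le_div_of_nonneg_left (by positivity) (by positivity)
  apply pow_le_pow_right₀ (by norm_num)
  have h1 : nn (i + 1) ≤ nn (j + 1) := by
    unfold nn
    exact Nat.pow_le_pow_right (by norm_num) (by omega)
  have h2 : (i + 2) ^ 2 ≤ (j + 2) ^ 2 := Nat.pow_le_pow_left (by omega) 2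
  omega

theorem bb_nonneg (k : ℕ) : 0 ≤ bb k := by
  cases k with
  | zero => simp [bb]
  | succ k =>
    simp only [bb]
    have := Real.log_nonneg (by norm_num : (1:ℝ) ≤ 2)
    positivity

theorem bb_mono {i j : ℕ} (h : i ≤ j) : bb i ≤ bb j := by
  cases i with
  | zero => simpa [bb] using bb_nonneg j
  | succ i =>
    cases j with
    | zero => omega
    | succ j =>
      simp only [bb]
      have h0 := Real.log_nonneg (by norm_num : (1:ℝ) ≤ 2)
      have h1 : nn (i + 1) ≤ nn (j + 1) := by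
        unfold nn
        exact Nat.pow_le_pow_right (by norm_num) (by omega)
      have h2 : (nn (i + 1) : ℝ) ≤ nn (j + 1) := by exact_mod_cast h1
      have h3 : (nn (i + 1) : ℝ) * Real.log 2 ≤ nn (j + 1) * Real.log 2 :=
        mul_le_mul_of_nonneg_right h2 h0
      linarith

theorem exists_level {w : ℂ} (hw : ‖w‖ = 1) (hw1 : w ≠ 1) :
    ∃ j : ℕ, ‖1 - w‖ < dd j ∧ dd (j + 1) ≤ ‖1 - w‖ := by
  have hpos : 0 < ‖1 - w‖ := norm_pos_iff.2 (sub_ne_zero.2 (Ne.symm hw1))
  have hex : ∃ j : ℕ, dd (j + 1) ≤ ‖1 - w‖ := by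
    have := (dd_tendsto.eventually (gt_mem_nhds hpos)).exists
    obtain ⟨j, hj⟩ := this
    exact ⟨j, hj.le⟩
  classical
  refine ⟨Nat.find hex, ?_, Nat.find_spec hex⟩
  rcases hc : Nat.find hex with _ | i
  · simp only [dd]
    calc ‖1 - w‖ ≤ ‖(1:ℂ)‖ + ‖w‖ := norm_sub_le _ _
      _ = 2 := by rw [hw, norm_one]; norm_num
      _ < 3 := by norm_num
  · have := Nat.find_min hex (m := i) (by omega)
    exact not_le.1 this

theorem Th_ge {w : ℂ} {j : ℕ} (h : ‖1 - w‖ < dd j) :
    ENNReal.ofReal (Real.exp (2 * (bb j + 1))) ≤ Th w := by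
  unfold Th
  have := ENNReal.le_tsum (f := fun k : ℕ => if ‖1 - w‖ < dd k then
    ENNReal.ofReal (Real.exp (2 * (bb k + 1))) else 0) j
  simpa [h] using this

theorem measurable_Th : Measurable (fun t : ℝ => Th (ee t)) := by
  unfold Th
  refine Measurable.tsum ?_
  intro k
  refine Measurable.ite ?_ measurable_const measurable_const
  exact measurableSet_lt ((continuous_const.sub continuous_ee).norm.measurable) measurable_const

/-- bound of the real part on slices -/
theorem re_GG {gc : ℕ → ℂ} (hD : Data gc) {w x : ℂ} (hw : ‖w‖ = 1) (hw1 : w ≠ 1)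
    (hx : ‖x‖ ≤ 1) {j : ℕ} (hj : dd (j + 1) ≤ ‖1 - w‖) :
    |(GG gc (x, x * w)).re| ≤ bb j + 1 := by
  have hpos : 0 < ‖1 - w‖ := norm_pos_iff.2 (sub_ne_zero.2 (Ne.symm hw1))
  have h1 := (slice_close hD w x hw hw1 hx).2 j
  have h2 := re_slice hD j w x hw.le hx
  rw [← (GG_slice gc x w).1, ← (GG_slice gc x w).2 j] at h1
  rw [← (GG_slice gc x w).2 j] at h2
  have h3 : |(GG gc (x, x * w) - GGk gc j (x, x * w)).re| ≤ 1 :=
    (Complex.abs_re_le_norm _).trans (h1.trans ((div_le_one hpos).2 hj))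
  rw [Complex.sub_re] at h3
  have h4 := abs_sub_abs_le_abs_sub (GG gc (x, x * w)).re (GGk gc j (x, x * w)).re
  linarith

theorem FF_slice_bound {gc : ℕ → ℂ} (hD : Data gc) {w x : ℂ} (hw : ‖w‖ = 1) (hw1 : w ≠ 1)
    (hx : ‖x‖ ≤ 1) : (‖FF gc (x, x * w)‖ₑ) ^ (2:ℝ) ≤ Th w := by
  obtain ⟨j, hj1, hj2⟩ := exists_level hw hw1
  refine le_trans ?_ (Th_ge hj1)
  have h1 := re_GG hD hw hw1 hx hj2
  have h2 : ‖FF gc (x, x * w)‖ ≤ Real.exp (bb j + 1) := by
    unfold FF
    rw [Complex.norm_exp]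
    exact Real.exp_le_exp.2 ((le_abs_self _).trans h1)
  rw [← ofReal_norm, ENNReal.ofReal_rpow_of_nonneg (norm_nonneg _) (by norm_num)]
  apply ENNReal.ofReal_le_ofReal
  rw [Real.rpow_two]
  calc ‖FF gc (x, x * w)‖ ^ 2 ≤ (Real.exp (bb j + 1)) ^ 2 :=
        pow_le_pow_left₀ (norm_nonneg _) h2 2
    _ = Real.exp (2 * (bb j + 1)) := by rw [← Real.exp_nat_mul]; norm_num

theorem torus_cont {F : ℂ × ℂ → ℂ} (hF : ContinuousOn F (Metric.ball (0 : ℂ × ℂ) 1)) {r : ℝ}
    (hr0 : 0 < r) (hr1 : r < 1) :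
    Continuous fun x : ℝ × ℝ => F ((r:ℂ) * ee x.1, (r:ℂ) * ee x.2) := by
  have h1 : Continuous fun x : ℝ × ℝ => (((r:ℂ) * ee x.1, (r:ℂ) * ee x.2) : ℂ × ℂ) := by
    refine (continuous_const.mul (continuous_ee.comp continuous_fst)).prodMk
      (continuous_const.mul (continuous_ee.comp continuous_snd))
  refine hF.comp_continuous h1 ?_
  intro x
  rw [mem_ball_zero_iff, Prod.norm_def]
  simp only [norm_mul, norm_ee, Complex.norm_real, Real.norm_eq_abs, abs_of_pos hr0, mul_one,
    max_self]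
  exact hr1

theorem GGk_cont (gc : ℕ → ℂ) (k : ℕ) : Continuous (GGk gc k) := by
  unfold GGk
  fun_prop

/-- general bound of torus integrals by slice bounds -/
theorem tor_le {p r : ℝ} (hp : 0 ≤ p) (hr0 : 0 < r) (hr1 : r < 1) {F : ℂ × ℂ → ℂ}
    (hF : ContinuousOn F (Metric.ball (0 : ℂ × ℂ) 1)) (B : ℝ → ENNReal)
    (hB : ∀ t, ee t ≠ 1 → ∀ x : ℂ, ‖x‖ ≤ 1 → (‖F (x, x * ee t)‖ₑ) ^ p ≤ B t) :
    tor p r F ≤ ENNReal.ofReal (2 * Real.pi) *
      ∫⁻ t in Set.Ioc (0:ℝ) (2 * Real.pi), B t := by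
  rw [tor_slice p r hp F (torus_cont hF hr0 hr1)]
  have hpi := Real.pi_pos
  calc ∫⁻ t in Set.Ioc (0:ℝ) (2 * Real.pi), ∫⁻ s in Set.Ioc (0:ℝ) (2 * Real.pi),
      (‖F ((r:ℂ) * ee s, (r:ℂ) * ee s * ee t)‖ₑ) ^ p
      ≤ ∫⁻ t in Set.Ioc (0:ℝ) (2 * Real.pi), ENNReal.ofReal (2 * Real.pi) * B t := by
        apply MeasureTheory.lintegral_mono_ae
        filter_upwards [ae_ee_ne_one] with t ht
        calc ∫⁻ s in Set.Ioc (0:ℝ) (2 * Real.pi),
            (‖F ((r:ℂ) * ee s, (r:ℂ) * ee s * ee t)‖ₑ) ^ p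
            ≤ ∫⁻ _s in Set.Ioc (0:ℝ) (2 * Real.pi), B t := by
              apply MeasureTheory.lintegral_mono
              intro s
              apply hB t ht
              rw [norm_mul, norm_ee, mul_one, Complex.norm_real, Real.norm_eq_abs, abs_of_pos hr0]
              exact hr1.le
          _ = ENNReal.ofReal (2 * Real.pi) * B t := by
              rw [MeasureTheory.lintegral_const, MeasureTheory.Measure.restrict_apply_univ,
                Real.volume_Ioc, sub_zero, mul_comm]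
    _ = ENNReal.ofReal (2 * Real.pi) * ∫⁻ t in Set.Ioc (0:ℝ) (2 * Real.pi), B t := by
        rw [MeasureTheory.lintegral_const_mul' _ _ ENNReal.ofReal_ne_top]

/-- TARGET 1 -/
theorem FF_H2 {gc : ℕ → ℂ} (hD : Data gc) : HN 2 (FF gc) < ⊤ := by
  have h1 : HN 2 (FF gc) ≤ ENNReal.ofReal (2 * Real.pi) *
      ∫⁻ t in Set.Ioc (0:ℝ) (2 * Real.pi), Th (ee t) := by
    unfold HN
    refine iSup₂_le ?_
    intro r hr
    refine tor_le (by norm_num) hr.1 hr.2 (FF_diff hD).continuousOn (fun t => Th (ee t)) ?_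
    intro t ht x hx
    exact FF_slice_bound hD (norm_ee t) ht hx
  exact lt_of_le_of_lt h1 (ENNReal.mul_lt_top ENNReal.ofReal_lt_top Th_int)

theorem tail_slice {gc : ℕ → ℂ} (hD : Data gc) {w x : ℂ} (hw : ‖w‖ = 1) (hw1 : w ≠ 1)
    (hx : ‖x‖ ≤ 1) (k : ℕ) :
    (‖Complex.exp (- GGk gc k (x, x * w)) * FF gc (x, x * w) - 1‖ₑ) ^ (1:ℝ) ≤
      min (ENNReal.ofReal (Real.exp (dd (k + 1) / ‖1 - w‖) - 1)) (4 * Th w) := by
  have hpos : 0 < ‖1 - w‖ := norm_pos_iff.2 (sub_ne_zero.2 (Ne.symm hw1))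
  have h1 := (slice_close hD w x hw hw1 hx).2 k
  rw [← (GG_slice gc x w).1, ← (GG_slice gc x w).2 k] at h1
  have h2 := re_slice hD k w x hw.le hx
  rw [← (GG_slice gc x w).2 k] at h2
  have hE : Complex.exp (- GGk gc k (x, x * w)) * FF gc (x, x * w) =
      Complex.exp (GG gc (x, x * w) - GGk gc k (x, x * w)) := by
    unfold FF
    rw [← Complex.exp_add]
    congr 1
    ring
  rw [hE, ENNReal.rpow_one, ← ofReal_norm]
  set D : ℂ := GG gc (x, x * w) - GGk gc k (x, x * w) with hDdef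
  apply le_min
  · apply ENNReal.ofReal_le_ofReal
    calc ‖Complex.exp D - 1‖ ≤ Real.exp ‖D‖ - 1 := by
          have := Complex.norm_exp_sub_sum_le_exp_norm_sub_sum D 1
          simpa using this
      _ ≤ Real.exp (dd (k + 1) / ‖1 - w‖) - 1 := by
          have := Real.exp_le_exp.2 h1
          linarith
  · obtain ⟨j, hj1, hj2⟩ := exists_level hw hw1
    have h3 := re_GG hD hw hw1 hx hj2
    have h4 : |(GGk gc k (x, x * w)).re| ≤ bb j + 2 := by
      rcases le_or_gt j k with hjk | hjk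
      · have h5 : ‖D‖ ≤ 1 := h1.trans ((div_le_one hpos).2 ((dd_anti hjk).trans hj2))
        have h6 : |D.re| ≤ 1 := (Complex.abs_re_le_norm _).trans h5
        rw [hDdef, Complex.sub_re, abs_sub_comm] at h6
        have h7 := abs_sub_abs_le_abs_sub (GGk gc k (x, x * w)).re (GG gc (x, x * w)).re
        linarith
      · have := bb_mono hjk.le
        linarith
    have h5 : D.re ≤ 2 * bb j + 3 := by
      rw [hDdef, Complex.sub_re]
      have h6 := (abs_le.1 h3).2
      have h7 := (abs_le.1 h4).1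
      linarith
    have h6 : ‖Complex.exp D - 1‖ ≤ 4 * Real.exp (2 * (bb j + 1)) := by
      calc ‖Complex.exp D - 1‖ ≤ ‖Complex.exp D‖ + ‖(1:ℂ)‖ := norm_sub_le _ _
        _ = Real.exp D.re + 1 := by rw [Complex.norm_exp, norm_one]
        _ ≤ Real.exp (2 * bb j + 3) + 1 := by
            have := Real.exp_le_exp.2 h5
            linarith
        _ = Real.exp 1 * Real.exp (2 * (bb j + 1)) + 1 := by
            rw [← Real.exp_add]; congr 2; ring
        _ ≤ 4 * Real.exp (2 * (bb j + 1)) := by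
            have he := Real.exp_one_lt_d9
            have h8 : 1 ≤ Real.exp (2 * (bb j + 1)) := by
              apply Real.one_le_exp
              have := bb_nonneg j
              linarith
            nlinarith
    calc ENNReal.ofReal ‖Complex.exp D - 1‖
        ≤ ENNReal.ofReal (4 * Real.exp (2 * (bb j + 1))) := ENNReal.ofReal_le_ofReal h6
      _ = 4 * ENNReal.ofReal (Real.exp (2 * (bb j + 1))) := by
          rw [ENNReal.ofReal_mul (by norm_num)]
          norm_num
      _ ≤ 4 * Th w := by gcongr; exact Th_ge hj1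

/-- TARGET 2 -/
theorem FF_H1_tail {gc : ℕ → ℂ} (hD : Data gc) (ε : ENNReal) (hε : 0 < ε) :
    ∃ k : ℕ, HN 1 (fun z => Complex.exp (- GGk gc k z) * FF gc z - 1) < ε := by
  set h : ℕ → ℝ → ENNReal := fun k t =>
    min (ENNReal.ofReal (Real.exp (dd (k + 1) / ‖1 - ee t‖) - 1)) (4 * Th (ee t)) with hh
  have hle : ∀ k, HN 1 (fun z => Complex.exp (- GGk gc k z) * FF gc z - 1) ≤
      ENNReal.ofReal (2 * Real.pi) * ∫⁻ t in Set.Ioc (0:ℝ) (2 * Real.pi), h k t := by
    intro k
    unfold HN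
    refine iSup₂_le ?_
    intro r hr
    refine tor_le (by norm_num) hr.1 hr.2 ?_ (h k) ?_
    · have hc1 := (FF_diff hD).continuousOn
      have hc2 := (GGk_cont gc k).continuousOn (s := Metric.ball (0 : ℂ × ℂ) 1)
      exact (hc2.neg.cexp.mul hc1).sub continuousOn_const
    · intro t ht x hx
      exact tail_slice hD (norm_ee t) ht hx k
  have hlim : Filter.Tendsto (fun k => ∫⁻ t in Set.Ioc (0:ℝ) (2 * Real.pi), h k t) Filter.atTop
      (nhds (∫⁻ _t in Set.Ioc (0:ℝ) (2 * Real.pi), 0)) := by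
    apply MeasureTheory.tendsto_lintegral_of_dominated_convergence (fun t => 4 * Th (ee t))
    · intro k
      refine Measurable.min ?_ (measurable_Th.const_mul 4)
      apply Measurable.ennreal_ofReal
      have hm : Measurable fun t : ℝ => ‖1 - ee t‖ :=
        ((continuous_const.sub continuous_ee).norm.measurable)
      exact (Real.measurable_exp.comp (measurable_const.div hm)).sub_const 1
    · intro k
      exact Filter.Eventually.of_forall (fun t => min_le_right _ _)
    · rw [MeasureTheory.lintegral_const_mul _ measurable_Th]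
      exact (ENNReal.mul_lt_top (by norm_num) Th_int).ne
    · filter_upwards [ae_ee_ne_one] with t ht
      have h1 : Filter.Tendsto (fun k => ENNReal.ofReal (Real.exp (dd (k + 1) / ‖1 - ee t‖) - 1))
          Filter.atTop (nhds 0) := by
        have h2 : Filter.Tendsto (fun k => Real.exp (dd (k + 1) / ‖1 - ee t‖) - 1)
            Filter.atTop (nhds (Real.exp (0 / ‖1 - ee t‖) - 1)) :=
          ((Real.continuous_exp.tendsto _).comp (dd_tendsto.div_const _)).sub_const 1
        have h3 := ENNReal.tendsto_ofReal h2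
        simpa using h3
      exact tendsto_of_tendsto_of_tendsto_of_le_of_le tendsto_const_nhds h1
        (fun k => zero_le) (fun k => min_le_left _ _)
  rw [MeasureTheory.lintegral_zero] at hlim
  have hlim2 : Filter.Tendsto (fun k => ENNReal.ofReal (2 * Real.pi) *
      ∫⁻ t in Set.Ioc (0:ℝ) (2 * Real.pi), h k t) Filter.atTop (nhds 0) := by
    have := ENNReal.Tendsto.const_mul hlim (a := ENNReal.ofReal (2 * Real.pi))
      (Or.inr ENNReal.ofReal_ne_top)
    simpa using this
  obtain ⟨k, hk⟩ := (hlim2.eventually (gt_mem_nhds hε)).exists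
  exact ⟨k, lt_of_le_of_lt (hle k) hk⟩

end Pool.Agent.Helper655.BD.K5
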