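import Mathlib
import Pool.Agent.Helper655.BDDefs
import Pool.Agent.Helper655.BDMV

set_option autoImplicit false
open Finset

namespace Pool.Agent.Helper655.BD.K6




/-- auxiliary: general length -/
theorem exp_approx_aux (gc : ℕ → ℂ) (N : ℕ) (ε : ℝ) (hε : 0 < ε) :
    ∃ P : MvPolynomial (Fin 2) ℂ, ∀ z : ℂ × ℂ, ‖z‖ ≤ 1 →
      ‖Complex.exp (- (∑ n ∈ range N, gc n / (n + 1) * ∑ j ∈ range (n + 1), z.1 ^ (n - j) * z.2 ^ j))
        - MvPolynomial.eval ![z.1, z.2] P‖ ≤ ε := by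
  set G : ℂ × ℂ → ℂ := fun z => ∑ n ∈ range N, gc n / (n + 1) * ∑ j ∈ range (n + 1), z.1 ^ (n - j) * z.2 ^ j with hG
  set q : MvPolynomial (Fin 2) ℂ := ∑ n ∈ range N,
    MvPolynomial.C (gc n / (n + 1)) * ∑ j ∈ range (n + 1),
      MvPolynomial.X 0 ^ (n - j) * MvPolynomial.X 1 ^ j with hq
  have hqe : ∀ z : ℂ × ℂ, MvPolynomial.eval ![z.1, z.2] q = G z := by
    intro z
    rw [hq, hG, map_sum]
    apply Finset.sum_congr rfl
    intro n _
    rw [map_mul, MvPolynomial.eval_C, map_sum]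
    congr 1
    apply Finset.sum_congr rfl
    intro j _
    simp
  -- a bound on the unit ball
  obtain ⟨B, hB⟩ : ∃ B : ℝ, ∀ z : ℂ × ℂ, ‖z‖ ≤ 1 → ‖G z‖ ≤ B := by
    have hc : Continuous G := by
      simp only [hG]
      fun_prop
    have hcomp : IsCompact (Metric.closedBall (0 : ℂ × ℂ) 1) := isCompact_closedBall _ _
    obtain ⟨B, hB⟩ := hcomp.exists_bound_of_continuousOn hc.continuousOn
    exact ⟨B, fun z hz => hB z (by simpa using hz)⟩
  have hB0 : 0 ≤ B := le_trans (norm_nonneg _) (hB 0 (by simp))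
  -- tails of the exponential series
  have hs : Summable (fun m : ℕ => B ^ m / (m.factorial : ℝ)) := Real.summable_pow_div_factorial B
  have htail := tendsto_sum_nat_add (fun m : ℕ => B ^ m / (m.factorial : ℝ))
  obtain ⟨M, hM⟩ := (htail.eventually (gt_mem_nhds hε)).exists
  refine ⟨∑ m ∈ range M, MvPolynomial.C ((m.factorial : ℂ)⁻¹) * (-q) ^ m, ?_⟩
  intro z hz
  change ‖Complex.exp (- G z) - _‖ ≤ ε
  have h1 : MvPolynomial.eval ![z.1, z.2] (∑ m ∈ range M, MvPolynomial.C ((m.factorial : ℂ)⁻¹) * (-q) ^ m)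
      = ∑ m ∈ range M, (-G z) ^ m / (m.factorial : ℂ) := by
    rw [map_sum]
    apply Finset.sum_congr rfl
    intro m _
    rw [map_mul, MvPolynomial.eval_C, map_pow, map_neg, hqe]
    rw [div_eq_mul_inv, mul_comm]
  rw [h1]
  have h2 : HasSum (fun m : ℕ => (-G z) ^ m / (m.factorial : ℂ)) (Complex.exp (-G z)) := by
    have := NormedSpace.expSeries_div_hasSum_exp (𝔸 := ℂ) (-G z)
    rwa [← Complex.exp_eq_exp_ℂ] at this
  have h3 := h2.summable.sum_add_tsum_nat_add M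
  rw [h2.tsum_eq] at h3
  rw [← h3, add_sub_cancel_left]
  have hn : ∀ m : ℕ, ‖(-G z) ^ (m + M) / ((m + M).factorial : ℂ)‖
      ≤ B ^ (m + M) / ((m + M).factorial : ℝ) := by
    intro m
    rw [norm_div, norm_pow, norm_neg, Complex.norm_natCast]
    apply div_le_div_of_nonneg_right _ (by positivity)
    exact pow_le_pow_left₀ (norm_nonneg _) (hB z hz) _
  have hs' : Summable (fun m : ℕ => B ^ (m + M) / ((m + M).factorial : ℝ)) :=
    (summable_nat_add_iff (f := fun m : ℕ => B ^ m / (m.factorial : ℝ)) M).2 hs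
  exact (tsum_of_norm_bounded hs'.hasSum hn).trans hM.le

/-- TARGET 1: entire functions of polynomials are uniform limits of polynomials on the bidisc -/
theorem exp_approx (gc : ℕ → ℂ) (k : ℕ) (ε : ℝ) (hε : 0 < ε) :
    ∃ P : MvPolynomial (Fin 2) ℂ, ∀ z : ℂ × ℂ, ‖z‖ ≤ 1 →
      ‖Complex.exp (- GGk gc k z) - MvPolynomial.eval ![z.1, z.2] P‖ ≤ ε := by
  exact exp_approx_aux gc (MM (k + 1)) ε hε

/-- TARGET 2: functions holomorphic on the bidisc: dilations are uniform limits of polynomials -/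
theorem dil_approx (g : ℂ × ℂ → ℂ) (hg : DifferentiableOn ℂ g (Metric.ball (0 : ℂ × ℂ) 1))
    (ρ : ℝ) (h0 : 0 < ρ) (h1 : ρ < 1) (ε : ℝ) (hε : 0 < ε) :
    ∃ P : MvPolynomial (Fin 2) ℂ, ∀ z : ℂ × ℂ, ‖z‖ ≤ 1 →
      ‖g ((ρ : ℂ) • z) - MvPolynomial.eval ![z.1, z.2] P‖ ≤ ε := by
  obtain ⟨R, hR1, hR2⟩ := exists_between h1
  have hR0 : 0 < R := h0.trans hR1
  set f : (Fin 2 → ℂ) → ℂ := fun y => g (y 0, y 1) with hf
  have hmem : ∀ y : Fin 2 → ℂ, ‖y‖ ≤ R → (y 0, y 1) ∈ Metric.ball (0 : ℂ × ℂ) 1 := by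
    intro y hy
    rw [Metric.mem_ball, dist_zero_right, Prod.norm_def]
    apply max_lt
    · exact ((norm_le_pi_norm y 0).trans hy).trans_lt hR2
    · exact ((norm_le_pi_norm y 1).trans hy).trans_lt hR2
  have hd : ∀ y ∈ Metric.closedBall (0 : Fin 2 → ℂ) R, DifferentiableAt ℂ f y := by
    intro y hy
    rw [Metric.mem_closedBall, dist_zero_right] at hy
    have e1 : DifferentiableAt ℂ g (y 0, y 1) :=
      hg.differentiableAt (Metric.isOpen_ball.mem_nhds (hmem y hy))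
    have e2 : DifferentiableAt ℂ (fun y : Fin 2 → ℂ => ((y 0, y 1) : ℂ × ℂ)) y := by
      fun_prop
    exact DifferentiableAt.comp (g := g) (f := fun y : Fin 2 → ℂ => ((y 0, y 1) : ℂ × ℂ)) y e1 e2
  have hcomp : IsCompact (Metric.closedBall (0 : Fin 2 → ℂ) R) := isCompact_closedBall _ _
  obtain ⟨M, hM⟩ := hcomp.exists_bound_of_continuousOn
    (f := f) (fun y hy => (hd y hy).continuousAt.continuousWithinAt)
  obtain ⟨a, ha1, ha2⟩ := Pool.Agent.Helper655.BDMV.expansion hR0 f hd hM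
  have hM0 : 0 ≤ M := le_trans (norm_nonneg _) (hM 0 (by simp [hR0.le]))
  -- summable majorant
  set t : ℝ := ρ / R with ht
  have ht0 : 0 < t := div_pos h0 hR0
  have ht1 : t < 1 := (div_lt_one hR0).2 hR1
  have hsg : Summable fun β : Fin 2 → ℕ => ‖Pool.Agent.Helper655.BDMV.mon (fun _ : Fin 2 => (t : ℂ)) β‖ :=
    (Pool.Agent.Helper655.BDMV.geom_prod 2 (fun _ => (t : ℂ)) (fun i => by
      rw [Complex.norm_real, Real.norm_eq_abs, abs_of_pos ht0]; exact ht1)).1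
  set u : (Fin 2 → ℕ) → ℝ := fun β => M * ‖Pool.Agent.Helper655.BDMV.mon (fun _ : Fin 2 => (t : ℂ)) β‖ with hu
  have hus : Summable u := hsg.mul_left M
  have hu0 : ∀ β, 0 ≤ u β := fun β => mul_nonneg hM0 (norm_nonneg _)
  have hub : ∀ β, ∀ z : ℂ × ℂ, ‖z‖ ≤ 1 →
      ‖Pool.Agent.Helper655.BDMV.mon (![(ρ : ℂ) * z.1, (ρ : ℂ) * z.2]) β • a β‖ ≤ u β := by
    intro β z hz
    have hz1 : ‖z.1‖ ≤ 1 := (norm_fst_le z).trans hz
    have hz2 : ‖z.2‖ ≤ 1 := (norm_snd_le z).trans hz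
    rw [norm_smul, hu]
    simp only []
    rw [Pool.Agent.Helper655.BDMV.norm_mon, Pool.Agent.Helper655.BDMV.norm_mon]
    simp only [Fin.prod_univ_two, Matrix.cons_val_zero, Matrix.cons_val_one,
      norm_mul, Complex.norm_real, Real.norm_eq_abs, abs_of_pos h0, abs_of_pos ht0]
    have e1 := ha1 β
    rw [Fin.sum_univ_two] at e1
    have e2 : (ρ * ‖z.1‖) ^ β 0 ≤ ρ ^ β 0 := by
      apply pow_le_pow_left₀ (by positivity)
      nlinarith [norm_nonneg z.1]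
    have e3 : (ρ * ‖z.2‖) ^ β 1 ≤ ρ ^ β 1 := by
      apply pow_le_pow_left₀ (by positivity)
      nlinarith [norm_nonneg z.2]
    have e4 : ρ = t * R := by rw [ht]; field_simp
    calc (ρ * ‖z.1‖) ^ β 0 * (ρ * ‖z.2‖) ^ β 1 * ‖a β‖
        ≤ ρ ^ β 0 * ρ ^ β 1 * ‖a β‖ := by
          apply mul_le_mul_of_nonneg_right _ (norm_nonneg _)
          exact mul_le_mul e2 e3 (by positivity) (by positivity)
      _ = (t ^ β 0 * t ^ β 1) * (‖a β‖ * R ^ (β 0 + β 1)) := by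
          rw [e4, mul_pow, mul_pow, pow_add]; ring
      _ ≤ (t ^ β 0 * t ^ β 1) * M := by
          apply mul_le_mul_of_nonneg_left e1 (by positivity)
      _ = M * (t ^ β 0 * t ^ β 1) := by ring
  -- truncation
  have htail := tendsto_tsum_compl_atTop_zero u
  obtain ⟨s, hs⟩ := (htail.eventually (gt_mem_nhds hε)).exists
  refine ⟨∑ β ∈ s, MvPolynomial.C (a β * (ρ : ℂ) ^ (β 0 + β 1)) *
    (MvPolynomial.X 0 ^ β 0 * MvPolynomial.X 1 ^ β 1), ?_⟩
  intro z hz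
  have hz1 : ‖z.1‖ ≤ 1 := (norm_fst_le z).trans hz
  have hz2 : ‖z.2‖ ≤ 1 := (norm_snd_le z).trans hz
  have hy : ‖(![(ρ : ℂ) * z.1, (ρ : ℂ) * z.2] : Fin 2 → ℂ)‖ < R := by
    rw [pi_norm_lt_iff hR0]
    intro i
    fin_cases i
    · simp only [Fin.zero_eta, Matrix.cons_val_zero, norm_mul, Complex.norm_real, Real.norm_eq_abs, abs_of_pos h0]
      nlinarith [norm_nonneg z.1]
    · simp only [Fin.mk_one, Matrix.cons_val_one, Matrix.cons_val_zero, norm_mul, Complex.norm_real, Real.norm_eq_abs, abs_of_pos h0]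
      nlinarith [norm_nonneg z.2]
  have hS := ha2 _ hy
  have hfe : f (![(ρ : ℂ) * z.1, (ρ : ℂ) * z.2]) = g ((ρ : ℂ) • z) := by
    simp only [hf, Matrix.cons_val_zero, Matrix.cons_val_one]
    congr 1
  rw [hfe] at hS
  have hPe : MvPolynomial.eval ![z.1, z.2] (∑ β ∈ s, MvPolynomial.C (a β * (ρ : ℂ) ^ (β 0 + β 1)) *
      (MvPolynomial.X 0 ^ β 0 * MvPolynomial.X 1 ^ β 1))
      = ∑ β ∈ s, Pool.Agent.Helper655.BDMV.mon (![(ρ : ℂ) * z.1, (ρ : ℂ) * z.2]) β • a β := by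
    rw [map_sum]
    apply Finset.sum_congr rfl
    intro β _
    rw [map_mul, MvPolynomial.eval_C, map_mul, map_pow, map_pow, MvPolynomial.eval_X,
      MvPolynomial.eval_X, Pool.Agent.Helper655.BDMV.mon, Fin.prod_univ_two]
    simp only [Matrix.cons_val_zero, Matrix.cons_val_one, smul_eq_mul]
    rw [mul_pow, mul_pow, pow_add]
    ring
  rw [hPe]
  have hsplit := hS.summable.sum_add_tsum_subtype_compl s
  rw [hS.tsum_eq] at hsplit
  rw [← hsplit, add_sub_cancel_left]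
  have hus' : Summable (fun β : {β // β ∉ s} => u β) := hus.subtype _
  exact (tsum_of_norm_bounded hus'.hasSum (fun β => hub β z hz)).trans hs.le

end Pool.Agent.Helper655.BD.K6
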