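import Mathlib
import Pool.Agent.Helper655.BDDefs

set_option autoImplicit false
open Finset

namespace Pool.Agent.Helper655.BD.K7


open Complex Metric Filter Topology MeasureTheory in
theorem exists_sqrt_ball (u : ℂ → ℂ) (hu : DifferentiableOn ℂ u (ball (0:ℂ) 1))
    (h0 : ∀ z ∈ ball (0:ℂ) 1, u z ≠ 0) :
    ∃ v : ℂ → ℂ, DifferentiableOn ℂ v (ball (0:ℂ) 1) ∧ ∀ z ∈ ball (0:ℂ) 1, v z ^ 2 = u z := by
  have hd : DifferentiableOn ℂ (fun z => deriv u z / u z) (ball (0:ℂ) 1) :=
    (hu.deriv isOpen_ball).div hu h0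
  obtain ⟨L, hL⟩ := hd.isExactOn_ball
  have hw : ∀ z ∈ ball (0:ℂ) 1, HasDerivAt (fun z => u z * Complex.exp (-L z)) 0 z := by
    intro z hz
    have h1 : HasDerivAt u (deriv u z) z :=
      (hu.differentiableAt (isOpen_ball.mem_nhds hz)).hasDerivAt
    have h2 : HasDerivAt (fun z => Complex.exp (-L z))
        (Complex.exp (-L z) * (-(deriv u z / u z))) z := (hL z hz).neg.cexp
    have h3 := h1.mul h2
    refine h3.congr_deriv ?_
    have := h0 z hz
    field_simp
    ring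
  have hc : ∀ z ∈ ball (0:ℂ) 1, u z * Complex.exp (-L z) = u 0 * Complex.exp (-L 0) := by
    intro z hz
    have := Convex.norm_image_sub_le_of_norm_hasDerivWithin_le
      (f := fun z => u z * Complex.exp (-L z)) (f' := fun _ => 0) (C := 0)
      (s := ball (0:ℂ) 1) (x := 0) (y := z)
      (fun x hx => (hw x hx).hasDerivWithinAt) (fun x hx => by simp) (convex_ball _ _)
      (mem_ball_self one_pos) hz
    simp only [zero_mul] at this
    exact sub_eq_zero.mp (norm_le_zero_iff.mp this)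
  obtain ⟨s, hs⟩ := IsAlgClosed.exists_pow_nat_eq (u 0 * Complex.exp (-L 0)) (n := 2) (by norm_num)
  refine ⟨fun z => s * Complex.exp (L z / 2), ?_, ?_⟩
  · intro z hz
    have : HasDerivAt (fun z => s * Complex.exp (L z / 2)) _ z :=
      (((hL z hz).div_const 2).cexp).const_mul s
    exact this.differentiableAt.differentiableWithinAt
  · intro z hz
    have e : Complex.exp (L z / 2) ^ 2 = Complex.exp (L z) := by
      rw [← Complex.exp_nat_mul]; congr 1; push_cast; ring
    show (s * Complex.exp (L z / 2)) ^ 2 = u z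
    rw [mul_pow, hs, e, ← hc z hz, mul_assoc, ← Complex.exp_add]
    simp

open Complex in
lemma ee_norm (t : ℝ) : ‖ee t‖ = 1 := by unfold ee; exact Complex.norm_exp_ofReal_mul_I t

lemma ee_cont : Continuous ee := by unfold ee; fun_prop

open Complex in
lemma ee_orth (n m : ℕ) : ∫ s in (0:ℝ)..(2 * Real.pi), ee s ^ n * (starRingEnd ℂ) (ee s ^ m) =
    if n = m then (2 * Real.pi : ℂ) else 0 := by
  have h1 : ∀ s : ℝ, ee s ^ n * (starRingEnd ℂ) (ee s ^ m) =
      Complex.exp ((((n:ℂ) - m) * I) * s) := by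
    intro s
    unfold ee
    rw [← Complex.exp_nat_mul, ← Complex.exp_nat_mul, ← Complex.exp_conj, ← Complex.exp_add]
    congr 1
    simp only [map_mul, map_natCast, Complex.conj_ofReal, Complex.conj_I]
    ring
  simp_rw [h1]
  by_cases h : n = m
  · subst h; simp
  · rw [if_neg h]
    have hne : ((n:ℂ) - m) * I ≠ 0 := by
      apply mul_ne_zero _ I_ne_zero
      rw [sub_ne_zero]; exact_mod_cast h
    rw [integral_exp_mul_complex hne]
    have e1 : Complex.exp (((n:ℂ) - m) * I * ((2 * Real.pi : ℝ) : ℂ)) = 1 := by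
      have : ((n:ℂ) - m) * I * ((2 * Real.pi : ℝ) : ℂ) = ((n:ℤ) - (m:ℤ) : ℤ) * (2 * Real.pi * I) := by
        push_cast; ring
      rw [this]; exact Complex.exp_int_mul_two_pi_mul_I _
    rw [e1]; simp

open Complex MeasureTheory in
lemma swap (a : ℕ → ℂ) (ha : Summable (fun n => ‖a n‖)) (G : ℝ → ℂ) (hG : Continuous G) (B : ℝ)
    (hB : ∀ s, ‖G s‖ ≤ B) :
    HasSum (fun n => ∫ s in (0:ℝ)..(2 * Real.pi), a n * ee s ^ n * G s)
      (∫ s in (0:ℝ)..(2 * Real.pi), (∑' n, a n * ee s ^ n) * G s) := by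
  have hsum : ∀ s, Summable (fun n => a n * ee s ^ n) := by
    intro s
    apply Summable.of_norm
    simpa [ee_norm] using ha
  apply intervalIntegral.hasSum_integral_of_dominated_convergence (fun n _ => ‖a n‖ * B)
  · intro n
    apply Continuous.aestronglyMeasurable
    have := ee_cont
    fun_prop
  · intro n
    refine Filter.Eventually.of_forall fun t _ => ?_
    rw [norm_mul, norm_mul, norm_pow, ee_norm, one_pow, mul_one]
    exact mul_le_mul_of_nonneg_left (hB t) (norm_nonneg _)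
  · exact Filter.Eventually.of_forall fun t _ => ha.mul_right B
  · exact intervalIntegrable_const
  · refine Filter.Eventually.of_forall fun t _ => ?_
    exact (hsum t).hasSum.mul_right (G t)

open Complex MeasureTheory in
theorem parseval (a : ℕ → ℂ) (ha : Summable (fun n => ‖a n‖)) :
    HasSum (fun n => 2 * Real.pi * ‖a n‖ ^ 2)
      (∫ s in (0:ℝ)..(2 * Real.pi), ‖∑' n, a n * ee s ^ n‖ ^ 2) := by
  set F : ℝ → ℂ := fun s => ∑' n, a n * ee s ^ n with hF
  have hFc : Continuous F := by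
    apply continuous_tsum (u := fun n => ‖a n‖) _ ha
    · intro n s; simp [ee_norm]
    · intro n
      have := ee_cont
      fun_prop
  have hFb : ∀ s, ‖F s‖ ≤ ∑' n, ‖a n‖ := by
    intro s
    refine (norm_tsum_le_tsum_norm ?_).trans (le_of_eq ?_)
    · simpa [ee_norm] using ha
    · simp [ee_norm]
  have h1 : ∀ m, ∫ s in (0:ℝ)..(2 * Real.pi), F s * (starRingEnd ℂ) (ee s ^ m) =
      2 * Real.pi * a m := by
    intro m
    have h := swap a ha (fun s => (starRingEnd ℂ) (ee s ^ m)) (by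
      have := ee_cont
      exact Complex.continuous_conj.comp (this.pow m)) 1 (by intro s; simp [ee_norm])
    refine h.unique ?_
    have e : (fun n => ∫ s in (0:ℝ)..(2 * Real.pi), a n * ee s ^ n * (starRingEnd ℂ) (ee s ^ m)) =
        fun n => if n = m then 2 * Real.pi * a m else 0 := by
      funext n
      have : ∀ s : ℝ, a n * ee s ^ n * (starRingEnd ℂ) (ee s ^ m) =
        a n * (ee s ^ n * (starRingEnd ℂ) (ee s ^ m)) := fun s => by ring
      simp_rw [this]
      rw [intervalIntegral.integral_const_mul, ee_orth]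
      split_ifs with h
      · subst h; ring
      · ring
    rw [e]
    exact hasSum_ite_eq m _
  have h2 := swap a ha (fun s => (starRingEnd ℂ) (F s)) (Complex.continuous_conj.comp hFc)
    (∑' n, ‖a n‖) (by intro s; simpa using hFb s)
  have h3 : (fun n => ∫ s in (0:ℝ)..(2 * Real.pi), a n * ee s ^ n * (starRingEnd ℂ) (F s)) =
      fun n => ((2 * Real.pi * ‖a n‖ ^ 2 : ℝ) : ℂ) := by
    funext n
    have : ∀ s : ℝ, a n * ee s ^ n * (starRingEnd ℂ) (F s) =
        a n * (starRingEnd ℂ) (F s * (starRingEnd ℂ) (ee s ^ n)) := fun s => by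
      rw [map_mul, Complex.conj_conj]; ring
    simp_rw [this]
    rw [intervalIntegral.integral_const_mul]
    have hc : ∫ s in (0:ℝ)..(2 * Real.pi), (starRingEnd ℂ) (F s * (starRingEnd ℂ) (ee s ^ n)) =
        (starRingEnd ℂ) (∫ s in (0:ℝ)..(2 * Real.pi), F s * (starRingEnd ℂ) (ee s ^ n)) := by
      rw [intervalIntegral.integral_of_le (by positivity), intervalIntegral.integral_of_le (by positivity)]
      exact integral_conj
    rw [hc, h1]
    simp only [map_mul, Complex.conj_ofReal]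
    have : (starRingEnd ℂ) (2:ℂ) = 2 := Complex.conj_ofNat 2
    rw [this]
    have h5 : a n * (2 * (Real.pi:ℂ) * (starRingEnd ℂ) (a n)) =
      2 * Real.pi * (a n * (starRingEnd ℂ) (a n)) := by ring
    rw [h5, Complex.mul_conj, Complex.normSq_eq_norm_sq]
    push_cast; ring
  have h4 : (∫ s in (0:ℝ)..(2 * Real.pi), (∑' n, a n * ee s ^ n) * (starRingEnd ℂ) (F s)) =
      ((∫ s in (0:ℝ)..(2 * Real.pi), ‖F s‖ ^ 2 : ℝ) : ℂ) := by
    rw [← intervalIntegral.integral_ofReal]
    apply intervalIntegral.integral_congr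
    intro s _
    show F s * (starRingEnd ℂ) (F s) = _
    rw [Complex.mul_conj, Complex.normSq_eq_norm_sq]
  rw [h3, h4] at h2
  exact_mod_cast h2


open Complex Metric in
/-- Taylor coefficients on the unit disc -/
lemma exists_coeff (h : ℂ → ℂ) (hd : DifferentiableOn ℂ h (ball (0:ℂ) 1)) :
    ∃ c : ℕ → ℂ, ∀ z ∈ ball (0:ℂ) 1, HasSum (fun n => c n * z ^ n) (h z) := by
  refine ⟨fun n => ((n.factorial : ℂ))⁻¹ * iteratedDeriv n h 0, fun z hz => ?_⟩
  have := Complex.hasSum_taylorSeries_on_ball hd hz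
  refine this.congr_fun ?_ |> fun h => h
  intro n
  simp only [sub_zero, smul_eq_mul]
  ring

open Complex Metric in
lemma coeff_summable (c : ℕ → ℂ) (hc : ∀ z ∈ ball (0:ℂ) 1, Summable (fun n => c n * z ^ n))
    (r : ℝ) (h0 : 0 ≤ r) (h1 : r < 1) : Summable (fun n => ‖c n * (r:ℂ) ^ n‖) := by
  have hz : (r:ℂ) ∈ ball (0:ℂ) 1 := by
    rw [mem_ball_zero_iff, Complex.norm_real, Real.norm_eq_abs, abs_of_nonneg h0]; exact h1
  exact (hc _ hz).norm

open Complex Metric Filter Topology MeasureTheory in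
/-- square root of a zero free function: coefficient bound -/
theorem sqrt_coeff (u : ℂ → ℂ) (hc : Continuous u) (hd : DifferentiableOn ℂ u (ball (0:ℂ) 1))
    (h : (∀ z ∈ ball (0:ℂ) 1, u z ≠ 0) ∨ (∀ z, u z = 0)) :
    ∃ c : ℕ → ℂ, (∀ z ∈ ball (0:ℂ) 1, Summable (fun n => c n * z ^ n)) ∧
      (∀ z ∈ ball (0:ℂ) 1, (∑' n, c n * z ^ n) ^ 2 = u z) ∧
      ∀ N, 2 * Real.pi * ∑ n ∈ range N, ‖c n‖ ^ 2 ≤ ∫ s in (0:ℝ)..(2 * Real.pi), ‖u (ee s)‖ := by
  rcases h with h | h
  · obtain ⟨v, hv, hv2⟩ := exists_sqrt_ball u hd h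
    obtain ⟨c, hcs⟩ := exists_coeff v hv
    have hsum : ∀ z ∈ ball (0:ℂ) 1, Summable (fun n => c n * z ^ n) := fun z hz => (hcs z hz).summable
    refine ⟨c, hsum, fun z hz => by rw [(hcs z hz).tsum_eq, hv2 z hz], fun N => ?_⟩
    -- inequality for r < 1
    have key : ∀ r : ℝ, 0 ≤ r → r < 1 → 2 * Real.pi * ∑ n ∈ range N, ‖c n‖ ^ 2 * (r ^ n) ^ 2 ≤
        ∫ s in (0:ℝ)..(2 * Real.pi), ‖u (r * ee s)‖ := by
      intro r h0 h1
      have hp := parseval (fun n => c n * (r:ℂ) ^ n) (coeff_summable c hsum r h0 h1)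
      have e : (∫ s in (0:ℝ)..(2 * Real.pi), ‖∑' n, c n * (r:ℂ) ^ n * ee s ^ n‖ ^ 2) =
          ∫ s in (0:ℝ)..(2 * Real.pi), ‖u (r * ee s)‖ := by
        apply intervalIntegral.integral_congr
        intro s _
        have hz : (r:ℂ) * ee s ∈ ball (0:ℂ) 1 := by
          rw [mem_ball_zero_iff, norm_mul, ee_norm, Complex.norm_real, Real.norm_eq_abs,
            abs_of_nonneg h0, mul_one]; exact h1
        show ‖∑' n, c n * (r:ℂ) ^ n * ee s ^ n‖ ^ 2 = ‖u (r * ee s)‖
        have : (fun n => c n * (r:ℂ) ^ n * ee s ^ n) = fun n => c n * ((r:ℂ) * ee s) ^ n := by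
          funext n; rw [mul_pow]; ring
        rw [this, (hcs _ hz).tsum_eq, ← norm_pow, hv2 _ hz]
      rw [e] at hp
      have := sum_le_hasSum (range N) (fun n _ => by positivity) hp
      refine le_trans (le_of_eq ?_) this
      rw [Finset.mul_sum]
      apply Finset.sum_congr rfl
      intro n _
      rw [norm_mul, norm_pow, Complex.norm_real, Real.norm_eq_abs, abs_of_nonneg h0]
      ring
    -- limit r → 1
    have hcont : Continuous (fun r : ℝ => ∫ s in (0:ℝ)..(2 * Real.pi), ‖u (r * ee s)‖) := by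
      apply intervalIntegral.continuous_parametric_intervalIntegral_of_continuous'
      have := ee_cont
      fun_prop
    have hl : Tendsto (fun r : ℝ => ∫ s in (0:ℝ)..(2 * Real.pi), ‖u (r * ee s)‖) (𝓝[<] 1)
        (𝓝 (∫ s in (0:ℝ)..(2 * Real.pi), ‖u (ee s)‖)) := by
      have := (hcont.tendsto 1).mono_left (nhdsWithin_le_nhds (s := Set.Iio 1))
      simpa using this
    have hr : Tendsto (fun r : ℝ => 2 * Real.pi * ∑ n ∈ range N, ‖c n‖ ^ 2 * (r ^ n) ^ 2) (𝓝[<] 1)
        (𝓝 (2 * Real.pi * ∑ n ∈ range N, ‖c n‖ ^ 2)) := by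
      have hco : Continuous (fun r : ℝ => 2 * Real.pi * ∑ n ∈ range N, ‖c n‖ ^ 2 * (r ^ n) ^ 2) := by
        fun_prop
      have := (hco.tendsto 1).mono_left (nhdsWithin_le_nhds (s := Set.Iio 1))
      simpa using this
    refine le_of_tendsto_of_tendsto hr hl ?_
    have hev : ∀ᶠ r : ℝ in 𝓝[<] 1, r ∈ Set.Ioo (0:ℝ) 1 := Ioo_mem_nhdsLT one_pos
    filter_upwards [hev] with r hr
    exact key r hr.1.le hr.2
  · refine ⟨fun _ => 0, fun z _ => by simpa using summable_zero, fun z _ => by simp [h z], fun N => ?_⟩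
    simp only [norm_zero, ne_eq, OfNat.ofNat_ne_zero, not_false_eq_true, zero_pow, sum_const_zero,
      mul_zero]
    apply intervalIntegral.integral_nonneg (by positivity)
    intro s _; positivity

open Complex Polynomial in
/-- replacing the zeros in the disc by their reflections -/
lemma reflect (s : Multiset ℂ) :
    ∃ g : Polynomial ℂ, (∀ z : ℂ, ‖z‖ = 1 → ‖g.eval z‖ = ‖((s.map (fun a => X - C a)).prod).eval z‖) ∧
      (∀ z : ℂ, ‖z‖ < 1 → g.eval z ≠ 0) ∧
      (∀ z : ℂ, ‖z‖ < 1 → ‖((s.map (fun a => X - C a)).prod).eval z‖ ≤ ‖g.eval z‖) ∧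
      (g = (s.map (fun a => X - C a)).prod ∨
        ∀ z : ℂ, ‖z‖ < 1 → ‖((s.map (fun a => X - C a)).prod).eval z‖ < ‖g.eval z‖) := by
  induction s using Multiset.induction with
  | empty =>
    refine ⟨1, fun z _ => by simp, fun z _ => by simp, fun z _ => by simp, Or.inl (by simp)⟩
  | cons a s ih =>
    obtain ⟨g, h1, h2, h3, h4⟩ := ih
    simp only [Multiset.map_cons, Multiset.prod_cons, eval_mul, norm_mul]
    by_cases ha : ‖a‖ < 1
    · have hid : ∀ z : ℂ, ‖(1 - (starRingEnd ℂ) a * z)‖ ^ 2 - ‖z - a‖ ^ 2 =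
          (1 - ‖a‖ ^ 2) * (1 - ‖z‖ ^ 2) := by
        intro z
        rw [← Complex.normSq_eq_norm_sq, ← Complex.normSq_eq_norm_sq, ← Complex.normSq_eq_norm_sq,
          ← Complex.normSq_eq_norm_sq]
        simp only [Complex.normSq_apply, Complex.sub_re, Complex.sub_im, Complex.one_re,
          Complex.one_im, Complex.mul_re, Complex.mul_im, Complex.conj_re, Complex.conj_im]
        ring
      have hlt : ∀ z : ℂ, ‖z‖ < 1 → ‖z - a‖ < ‖(1 - (starRingEnd ℂ) a * z)‖ := by
        intro z hz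
        have h5 : 0 < (1 - ‖a‖ ^ 2) * (1 - ‖z‖ ^ 2) := by
          have := norm_nonneg a
          have := norm_nonneg z
          apply mul_pos <;> nlinarith
        have := hid z
        exact lt_of_pow_lt_pow_left₀ 2 (norm_nonneg _) (by linarith)
      refine ⟨(1 - C ((starRingEnd ℂ) a) * X) * g, ?_, ?_, ?_, ?_⟩
      · intro z hz
        simp only [eval_mul, eval_sub, eval_one, eval_C, eval_X, norm_mul]
        rw [h1 z hz]
        congr 1
        have := hid z
        rw [hz] at this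
        have h6 : ‖(1 - (starRingEnd ℂ) a * z)‖ ^ 2 = ‖z - a‖ ^ 2 := by linarith
        exact (sq_eq_sq₀ (norm_nonneg _) (norm_nonneg _)).mp h6
      · intro z hz
        simp only [eval_mul, eval_sub, eval_one, eval_C, eval_X]
        apply mul_ne_zero _ (h2 z hz)
        intro h0
        have := hlt z hz
        rw [h0, norm_zero] at this
        exact absurd this (not_lt.mpr (norm_nonneg _))
      · intro z hz
        simp only [eval_mul, eval_sub, eval_one, eval_C, eval_X, norm_mul]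
        exact mul_le_mul (hlt z hz).le (h3 z hz) (norm_nonneg _) (norm_nonneg _)
      · right
        intro z hz
        simp only [eval_mul, eval_sub, eval_one, eval_C, eval_X, norm_mul]
        have hp : 0 < ‖g.eval z‖ := norm_pos_iff.mpr (h2 z hz)
        calc ‖z - a‖ * ‖eval z (Multiset.map (fun a => X - C a) s).prod‖
            ≤ ‖z - a‖ * ‖g.eval z‖ := mul_le_mul_of_nonneg_left (h3 z hz) (norm_nonneg _)
          _ < _ := mul_lt_mul_of_pos_right (hlt z hz) hp
    · have hna : ∀ z : ℂ, ‖z‖ < 1 → z - a ≠ 0 := by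
        intro z hz h0
        rw [sub_eq_zero] at h0
        rw [h0] at hz
        exact ha hz
      refine ⟨(X - C a) * g, ?_, ?_, ?_, ?_⟩
      · intro z hz
        simp only [eval_mul, eval_sub, eval_C, eval_X, norm_mul]
        rw [h1 z hz]
      · intro z hz
        simp only [eval_mul, eval_sub, eval_C, eval_X]
        exact mul_ne_zero (hna z hz) (h2 z hz)
      · intro z hz
        simp only [eval_mul, eval_sub, eval_C, eval_X, norm_mul]
        exact mul_le_mul_of_nonneg_left (h3 z hz) (norm_nonneg _)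
      · rcases h4 with h4 | h4
        · left; rw [h4]
        · right
          intro z hz
          simp only [eval_mul, eval_sub, eval_C, eval_X, norm_mul]
          exact mul_lt_mul_of_pos_left (h4 z hz) (norm_pos_iff.mpr (hna z hz))

open Complex Metric Polynomial in
/-- a polynomial is a sum of two squares with coefficient bounds -/
theorem poly_two (p : Polynomial ℂ) :
    ∃ c1 c2 : ℕ → ℂ, (∀ z ∈ ball (0:ℂ) 1, Summable (fun n => c1 n * z ^ n)) ∧
      (∀ z ∈ ball (0:ℂ) 1, Summable (fun n => c2 n * z ^ n)) ∧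
      (∀ z ∈ ball (0:ℂ) 1, p.eval z = (∑' n, c1 n * z ^ n) ^ 2 + (∑' n, c2 n * z ^ n) ^ 2) ∧
      (∀ N, 2 * Real.pi * ∑ n ∈ range N, ‖c1 n‖ ^ 2 ≤
        2 * ∫ s in (0:ℝ)..(2 * Real.pi), ‖p.eval (ee s)‖) ∧
      (∀ N, 2 * Real.pi * ∑ n ∈ range N, ‖c2 n‖ ^ 2 ≤
        2 * ∫ s in (0:ℝ)..(2 * Real.pi), ‖p.eval (ee s)‖) := by
  have hpc : Continuous (fun s : ℝ => ‖p.eval (ee s)‖) := by
    have := ee_cont
    exact (p.continuous.comp this).norm
  have hI : 0 ≤ ∫ s in (0:ℝ)..(2 * Real.pi), ‖p.eval (ee s)‖ :=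
    intervalIntegral.integral_nonneg (by positivity) (fun _ _ => norm_nonneg _)
  by_cases hp : p = 0
  · subst hp
    refine ⟨fun _ => 0, fun _ => 0, fun z _ => by simpa using summable_zero,
      fun z _ => by simpa using summable_zero, fun z _ => by simp, fun N => by simp, fun N => by simp⟩
  obtain ⟨g0, g1, g2, g3, g4⟩ := reflect p.roots
  have hfac : p = C p.leadingCoeff * (p.roots.map (fun a => X - C a)).prod :=
    ((IsAlgClosed.splits p).eq_prod_roots)
  set P := (p.roots.map (fun a => X - C a)).prod with hP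
  set g := C p.leadingCoeff * g0 with hg
  have hl : p.leadingCoeff ≠ 0 := leadingCoeff_ne_zero.mpr hp
  have hpe : ∀ z, p.eval z = p.leadingCoeff * P.eval z := by
    intro z
    conv_lhs => rw [hfac]
    simp
  have hge : ∀ z, g.eval z = p.leadingCoeff * g0.eval z := by intro z; simp [hg]
  obtain ⟨c1, a1, b1, d1⟩ := sqrt_coeff (fun z => g.eval z) g.continuous
    (g.differentiable.differentiableOn) (Or.inl (fun z hz => by
      show g.eval z ≠ 0
      rw [hge]; exact mul_ne_zero hl (g2 z (mem_ball_zero_iff.mp hz))))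
  obtain ⟨c2, a2, b2, d2⟩ := sqrt_coeff (fun z => p.eval z - g.eval z)
    (p.continuous.sub g.continuous)
    ((p.differentiable.sub g.differentiable).differentiableOn) (by
      rcases g4 with g4 | g4
      · right; intro z; show p.eval z - g.eval z = 0
        rw [hpe, hge, g4]; ring
      · left
        intro z hz h0
        have h1 : p.eval z = g.eval z := sub_eq_zero.mp h0
        rw [hpe, hge] at h1
        have h2 := mul_left_cancel₀ hl h1
        have := g4 z (mem_ball_zero_iff.mp hz)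
        rw [h2] at this
        exact lt_irrefl _ this)
  have hgn : ∀ s : ℝ, ‖g.eval (ee s)‖ = ‖p.eval (ee s)‖ := by
    intro s
    rw [hge, hpe, norm_mul, norm_mul, g1 _ (ee_norm s)]
  refine ⟨c1, c2, a1, a2, fun z hz => ?_, fun N => ?_, fun N => ?_⟩
  · rw [b1 z hz, b2 z hz]; ring
  · refine (d1 N).trans ?_
    simp_rw [hgn]
    linarith
  · refine (d2 N).trans ?_
    rw [← intervalIntegral.integral_const_mul]
    apply intervalIntegral.integral_mono_on (by positivity)
    · apply Continuous.intervalIntegrable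
      have := ee_cont
      exact ((p.continuous.comp this).sub (g.continuous.comp this)).norm
    · exact (hpc.const_mul 2 |>.intervalIntegrable _ _)
    · intro s _
      refine (norm_sub_le _ _).trans ?_
      rw [hgn]; linarith


open Complex Metric Filter Topology MeasureTheory Polynomial in
/-- polynomial approximation with bounded means -/
lemma approx (f : ℂ → ℂ) (hf : DifferentiableOn ℂ f (ball (0:ℂ) 1)) (K : ℝ)
    (hK : ∀ r : ℝ, 0 < r → r < 1 → ∫ s in (0:ℝ)..(2 * Real.pi), ‖f (r * ee s)‖ ≤ K) (R : ℝ)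
    (h0 : 0 < R) (h1 : R < 1) (ε : ℝ) (hε : 0 < ε) :
    ∃ p : Polynomial ℂ, (∀ z : ℂ, ‖z‖ ≤ 1 → ‖f (R * z) - p.eval z‖ ≤ ε) ∧
      ∫ s in (0:ℝ)..(2 * Real.pi), ‖p.eval (ee s)‖ ≤ K + 2 * Real.pi * ε := by
  obtain ⟨a, ha⟩ := exists_coeff f hf
  have hs := coeff_summable a (fun z hz => (ha z hz).summable) R h0.le h1
  obtain ⟨k, hk⟩ : ∃ k, ∑' n, ‖a (n + k) * (R:ℂ) ^ (n + k)‖ < ε := by
    have := tendsto_sum_nat_add (fun n => ‖a n * (R:ℂ) ^ n‖)
    exact ((this.eventually (gt_mem_nhds hε)).exists)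
  set p : Polynomial ℂ := ∑ n ∈ range k, C (a n * (R:ℂ) ^ n) * X ^ n with hp
  have hpe : ∀ z, p.eval z = ∑ n ∈ range k, a n * (R:ℂ) ^ n * z ^ n := by
    intro z
    simp [hp, eval_finset_sum]
  have happ : ∀ z : ℂ, ‖z‖ ≤ 1 → ‖f (R * z) - p.eval z‖ ≤ ε := by
    intro z hz
    have hRz : (R:ℂ) * z ∈ ball (0:ℂ) 1 := by
      rw [mem_ball_zero_iff, norm_mul, Complex.norm_real, Real.norm_eq_abs, abs_of_nonneg h0.le]
      calc R * ‖z‖ ≤ R * 1 := mul_le_mul_of_nonneg_left hz h0.le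
        _ < 1 := by linarith
    have h2 : HasSum (fun n => a n * (R:ℂ) ^ n * z ^ n) (f (R * z)) := by
      have := ha _ hRz
      simpa [mul_pow, mul_assoc] using this
    have hb : ∀ n, ‖a (n + k) * (R:ℂ) ^ (n + k) * z ^ (n + k)‖ ≤ ‖a (n + k) * (R:ℂ) ^ (n + k)‖ := by
      intro n
      rw [norm_mul (a (n + k) * (R:ℂ) ^ (n + k)), norm_pow z]
      exact mul_le_of_le_one_right (norm_nonneg _) (pow_le_one₀ (norm_nonneg _) hz)
    have hs' : Summable (fun n => ‖a (n + k) * (R:ℂ) ^ (n + k)‖) :=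
      (summable_nat_add_iff k).mpr hs
    have h3 : f (R * z) - p.eval z = ∑' n, a (n + k) * (R:ℂ) ^ (n + k) * z ^ (n + k) := by
      rw [hpe, ← h2.tsum_eq, ← h2.summable.sum_add_tsum_nat_add k]
      ring
    rw [h3]
    have hs2 : Summable (fun n => ‖a (n + k) * (R:ℂ) ^ (n + k) * z ^ (n + k)‖) :=
      Summable.of_nonneg_of_le (fun _ => norm_nonneg _) hb hs'
    exact ((norm_tsum_le_tsum_norm hs2).trans (hs2.tsum_le_tsum hb hs')).trans hk.le
  refine ⟨p, happ, ?_⟩
  have hRe : ∀ s, (R:ℂ) * ee s ∈ ball (0:ℂ) 1 := by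
    intro s
    rw [mem_ball_zero_iff, norm_mul, ee_norm, Complex.norm_real, Real.norm_eq_abs,
      abs_of_nonneg h0.le, mul_one]; exact h1
  have hfc : Continuous (fun s : ℝ => ‖f (R * ee s)‖) := by
    have hee := ee_cont
    refine Continuous.norm ?_
    exact hf.continuousOn.comp_continuous (by fun_prop) hRe
  calc ∫ s in (0:ℝ)..(2 * Real.pi), ‖p.eval (ee s)‖
      ≤ ∫ s in (0:ℝ)..(2 * Real.pi), (‖f (R * ee s)‖ + ε) := by
        apply intervalIntegral.integral_mono_on (by positivity)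
        · apply Continuous.intervalIntegrable
          have := ee_cont
          exact (p.continuous.comp this).norm
        · exact (hfc.add continuous_const).intervalIntegrable _ _
        · intro s _
          have := happ (ee s) (ee_norm s).le
          calc ‖p.eval (ee s)‖ = ‖f (R * ee s) - (f (R * ee s) - p.eval (ee s))‖ := by
                rw [sub_sub_cancel]
            _ ≤ _ := (norm_sub_le _ _).trans (by linarith)
    _ = (∫ s in (0:ℝ)..(2 * Real.pi), ‖f (R * ee s)‖) + 2 * Real.pi * ε := by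
        rw [intervalIntegral.integral_add (hfc.intervalIntegrable _ _) intervalIntegrable_const]
        simp
    _ ≤ _ := by linarith [hK R h0 h1]

open Complex Metric Filter Topology MeasureTheory in
/-- facts on a function with square summable coefficients -/
lemma H2_of_coeff (c : ℕ → ℂ) (B : ℝ) (hc : ∀ N, 2 * Real.pi * ∑ n ∈ range N, ‖c n‖ ^ 2 ≤ B) :
    DifferentiableOn ℂ (fun z => ∑' n, c n * z ^ n) (ball (0:ℂ) 1) ∧
      (⨆ r ∈ Set.Ioo (0:ℝ) 1, ∫⁻ s in Set.Ioc (0:ℝ) (2 * Real.pi),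
        ‖(fun z => ∑' n, c n * z ^ n) ((r:ℂ) * ee s)‖ₑ ^ (2:ℝ)) < ⊤ := by
  have hB : 0 ≤ B := by have := hc 0; simpa using this
  have hpi : 0 < 2 * Real.pi := by positivity
  have hcb : ∀ n, ‖c n‖ ≤ B + 1 := by
    intro n
    have h1 := hc (n + 1)
    have h2 : ‖c n‖ ^ 2 ≤ ∑ m ∈ range (n + 1), ‖c m‖ ^ 2 :=
      Finset.single_le_sum (f := fun m => ‖c m‖ ^ 2) (fun _ _ => by positivity)
        (Finset.self_mem_range_succ n)
    have h3 : ∑ m ∈ range (n + 1), ‖c m‖ ^ 2 ≤ B := by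
      have h4 : (0:ℝ) ≤ ∑ m ∈ range (n + 1), ‖c m‖ ^ 2 := Finset.sum_nonneg (fun _ _ => by positivity)
      nlinarith [Real.pi_gt_three]
    nlinarith [norm_nonneg (c n)]
  have hsum : ∀ r : ℝ, 0 ≤ r → r < 1 → Summable (fun n => (B + 1) * r ^ n) := fun r h0 h1 =>
    (summable_geometric_of_lt_one h0 h1).mul_left _
  refine ⟨?_, ?_⟩
  · intro z hz
    obtain ⟨ρ, hρ1, hρ2⟩ := exists_between (mem_ball_zero_iff.mp hz)
    have hρ0 : 0 ≤ ρ := (norm_nonneg z).trans hρ1.le
    have hd : DifferentiableOn ℂ (fun z => ∑' n, c n * z ^ n) (ball (0:ℂ) ρ) := by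
      apply Complex.differentiableOn_tsum_of_summable_norm (hsum ρ hρ0 hρ2)
      · intro i; fun_prop
      · exact isOpen_ball
      · intro i w hw
        rw [norm_mul, norm_pow]
        exact mul_le_mul (hcb i) (pow_le_pow_left₀ (norm_nonneg _) (mem_ball_zero_iff.mp hw).le i)
          (by positivity) (by linarith)
    exact (hd.differentiableAt (isOpen_ball.mem_nhds (mem_ball_zero_iff.mpr hρ1))).differentiableWithinAt
  · refine lt_of_le_of_lt (iSup₂_le fun r hr => ?_) (ENNReal.ofReal_lt_top (r := B))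
    have hs : Summable (fun n => ‖c n * (r:ℂ) ^ n‖) := by
      apply Summable.of_nonneg_of_le (fun _ => norm_nonneg _) _ (hsum r hr.1.le hr.2)
      intro n
      rw [norm_mul, norm_pow, Complex.norm_real, Real.norm_eq_abs, abs_of_nonneg hr.1.le]
      exact mul_le_mul_of_nonneg_right (hcb n) (by have := hr.1; positivity)
    have hp := parseval (fun n => c n * (r:ℂ) ^ n) hs
    have hle : (∫ s in (0:ℝ)..(2 * Real.pi), ‖∑' n, c n * (r:ℂ) ^ n * ee s ^ n‖ ^ 2) ≤ B := by
      apply hasSum_le_of_sum_le hp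
      intro S
      obtain ⟨N, hN⟩ := S.exists_nat_subset_range
      calc ∑ i ∈ S, 2 * Real.pi * ‖c i * (r:ℂ) ^ i‖ ^ 2
          ≤ ∑ i ∈ range N, 2 * Real.pi * ‖c i * (r:ℂ) ^ i‖ ^ 2 :=
            Finset.sum_le_sum_of_subset_of_nonneg hN (fun _ _ _ => by positivity)
        _ ≤ ∑ i ∈ range N, 2 * Real.pi * ‖c i‖ ^ 2 := by
            apply Finset.sum_le_sum
            intro i _
            have : ‖c i * (r:ℂ) ^ i‖ ≤ ‖c i‖ := by
              rw [norm_mul, norm_pow, Complex.norm_real, Real.norm_eq_abs, abs_of_nonneg hr.1.le]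
              exact mul_le_of_le_one_right (norm_nonneg _) (pow_le_one₀ hr.1.le hr.2.le)
            gcongr
        _ = 2 * Real.pi * ∑ n ∈ range N, ‖c n‖ ^ 2 := by rw [Finset.mul_sum]
        _ ≤ B := hc N
    have hcont : Continuous (fun s : ℝ => ∑' n, c n * ((r:ℂ) * ee s) ^ n) := by
      apply continuous_tsum (u := fun n => ‖c n * (r:ℂ) ^ n‖) _ hs
      · intro n s
        rw [mul_pow, ← mul_assoc, norm_mul, norm_pow (ee s), ee_norm, one_pow, mul_one]
      · intro n
        have := ee_cont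
        fun_prop
    have e1 : ∀ s : ℝ, ‖(fun z => ∑' n, c n * z ^ n) ((r:ℂ) * ee s)‖ₑ ^ (2:ℝ) =
        ENNReal.ofReal (‖∑' n, c n * (r:ℂ) ^ n * ee s ^ n‖ ^ 2) := by
      intro s
      have e2 : (fun n => c n * (r:ℂ) ^ n * ee s ^ n) = fun n => c n * ((r:ℂ) * ee s) ^ n := by
        funext n; rw [mul_pow]; ring
      rw [e2]
      show ‖∑' n, c n * ((r:ℂ) * ee s) ^ n‖ₑ ^ (2:ℝ) = _
      rw [← ofReal_norm_eq_enorm, ENNReal.ofReal_rpow_of_nonneg (norm_nonneg _) (by norm_num)]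
      norm_num
    simp_rw [e1]
    rw [← ofReal_integral_eq_lintegral_ofReal]
    · rw [← intervalIntegral.integral_of_le (by positivity)]
      exact ENNReal.ofReal_le_ofReal hle
    · have e2 : (fun s : ℝ => ‖∑' n, c n * (r:ℂ) ^ n * ee s ^ n‖ ^ 2) =
          fun s => ‖∑' n, c n * ((r:ℂ) * ee s) ^ n‖ ^ 2 := by
        funext s
        congr 2
        apply tsum_congr
        intro n; rw [mul_pow]; ring
      rw [e2]
      exact (((hcont.norm.pow 2).integrableOn_Icc (μ := volume)).mono_set Set.Ioc_subset_Icc_self)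
    · exact Filter.Eventually.of_forall fun s => by positivity

open Complex Metric Filter Topology MeasureTheory in
/-- TARGET: an H^1 function on the disc is a sum of two squares of H^2 functions -/
theorem h1_two_squares (f : ℂ → ℂ) (hf : DifferentiableOn ℂ f (Metric.ball (0:ℂ) 1))
    (hN : (⨆ r ∈ Set.Ioo (0:ℝ) 1, ∫⁻ s in Set.Ioc (0:ℝ) (2 * Real.pi), ‖f (r * ee s)‖ₑ) < ⊤) :
    ∃ h1 h2 : ℂ → ℂ, DifferentiableOn ℂ h1 (Metric.ball (0:ℂ) 1) ∧
      DifferentiableOn ℂ h2 (Metric.ball (0:ℂ) 1) ∧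
      (⨆ r ∈ Set.Ioo (0:ℝ) 1, ∫⁻ s in Set.Ioc (0:ℝ) (2 * Real.pi), ‖h1 (r * ee s)‖ₑ ^ (2:ℝ)) < ⊤ ∧
      (⨆ r ∈ Set.Ioo (0:ℝ) 1, ∫⁻ s in Set.Ioc (0:ℝ) (2 * Real.pi), ‖h2 (r * ee s)‖ₑ ^ (2:ℝ)) < ⊤ ∧
      ∀ z ∈ Metric.ball (0:ℂ) 1, f z = h1 z ^ 2 + h2 z ^ 2 := by
  set KK := (⨆ r ∈ Set.Ioo (0:ℝ) 1, ∫⁻ s in Set.Ioc (0:ℝ) (2 * Real.pi), ‖f (r * ee s)‖ₑ) with hKK
  have hK : ∀ r : ℝ, 0 < r → r < 1 → ∫ s in (0:ℝ)..(2 * Real.pi), ‖f (r * ee s)‖ ≤ KK.toReal := by
    intro r h0 h1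
    have hRe : ∀ s, (r:ℂ) * ee s ∈ ball (0:ℂ) 1 := by
      intro s
      rw [mem_ball_zero_iff, norm_mul, ee_norm, Complex.norm_real, Real.norm_eq_abs,
        abs_of_nonneg h0.le, mul_one]; exact h1
    have hfc : Continuous (fun s : ℝ => f (r * ee s)) := by
      have hee := ee_cont
      exact hf.continuousOn.comp_continuous (by fun_prop) hRe
    rw [intervalIntegral.integral_of_le (by positivity),
      integral_norm_eq_lintegral_enorm hfc.aestronglyMeasurable]
    apply ENNReal.toReal_mono hN.ne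
    exact le_iSup₂_of_le (f := fun (r:ℝ) (_ : r ∈ Set.Ioo (0:ℝ) 1) =>
      ∫⁻ s in Set.Ioc (0:ℝ) (2 * Real.pi), ‖f (r * ee s)‖ₑ) r ⟨h0, h1⟩ le_rfl
  -- approximations
  have hR : ∀ n : ℕ, 0 < (1 - 1 / ((n:ℝ) + 2)) ∧ (1 - 1 / ((n:ℝ) + 2)) < 1 := by
    intro n
    have : (0:ℝ) < (n:ℝ) + 2 := by positivity
    have h2 : 1 / ((n:ℝ) + 2) < 1 := by rw [div_lt_one this]; linarith
    have h3 : 0 < 1 / ((n:ℝ) + 2) := by positivity
    constructor <;> linarith
  choose p hp1 hp2 using fun n : ℕ => approx f hf KK.toReal hK (1 - 1 / ((n:ℝ) + 2)) (hR n).1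
    (hR n).2 (1 / ((n:ℝ) + 1)) (by positivity)
  choose c1 c2 s1 s2 hpc b1 b2 using fun n => poly_two (p n)
  set B : ℝ := 2 * (KK.toReal + 2 * Real.pi) with hB
  have hbd : ∀ n : ℕ, 2 * ∫ s in (0:ℝ)..(2 * Real.pi), ‖(p n).eval (ee s)‖ ≤ B := by
    intro n
    have h2 := hp2 n
    have h3 : 1 / ((n:ℝ) + 1) ≤ 1 := by
      rw [div_le_one (by positivity)]; linarith [Nat.cast_nonneg (α := ℝ) n]
    have h4 : 2 * Real.pi * (1 / ((n:ℝ) + 1)) ≤ 2 * Real.pi * 1 :=
      mul_le_mul_of_nonneg_left h3 (by positivity)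
    rw [hB]; linarith
  have B1 : ∀ n N, 2 * Real.pi * ∑ m ∈ range N, ‖c1 n m‖ ^ 2 ≤ B := fun n N => (b1 n N).trans (hbd n)
  have B2 : ∀ n N, 2 * Real.pi * ∑ m ∈ range N, ‖c2 n m‖ ^ 2 ≤ B := fun n N => (b2 n N).trans (hbd n)
  -- general limit statement
  have lim : ∀ c : ℕ → ℕ → ℂ, (∀ n N, 2 * Real.pi * ∑ m ∈ range N, ‖c n m‖ ^ 2 ≤ B) →
      ∃ d : ℕ → ℂ, (∀ N, 2 * Real.pi * ∑ m ∈ range N, ‖d m‖ ^ 2 ≤ B) ∧
        ∀ z ∈ ball (0:ℂ) 1, Tendsto (fun n => ∑' m, c n m * z ^ m) (hyperfilter ℕ : Filter ℕ)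
          (𝓝 (∑' m, d m * z ^ m)) := by
    intro c hc
    have hcb : ∀ n m, ‖c n m‖ ≤ B + 1 := by
      intro n m
      have h1 := hc n (m + 1)
      have h2 : ‖c n m‖ ^ 2 ≤ ∑ k ∈ range (m + 1), ‖c n k‖ ^ 2 :=
        Finset.single_le_sum (f := fun k => ‖c n k‖ ^ 2) (fun _ _ => by positivity)
          (Finset.self_mem_range_succ m)
      have h3 : ∑ k ∈ range (m + 1), ‖c n k‖ ^ 2 ≤ B := by
        have h4 : (0:ℝ) ≤ ∑ k ∈ range (m + 1), ‖c n k‖ ^ 2 :=
          Finset.sum_nonneg (fun _ _ => by positivity)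
        nlinarith [Real.pi_gt_three]
      have hB0 : 0 ≤ B := by have := hc n 0; simpa using this
      nlinarith [norm_nonneg (c n m)]
    have hex : ∀ m, ∃ d : ℂ, Tendsto (fun n => c n m) (hyperfilter ℕ : Filter ℕ) (𝓝 d) := by
      intro m
      have hco : IsCompact (closedBall (0:ℂ) (B + 1)) := isCompact_closedBall _ _
      obtain ⟨d, _, hd⟩ := hco.ultrafilter_le_nhds ((hyperfilter ℕ).map (fun n => c n m)) (by
        rw [Ultrafilter.coe_map, le_principal_iff, Filter.mem_map]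
        exact Filter.univ_mem' (fun n => mem_closedBall_zero_iff.mpr (hcb n m)))
      exact ⟨d, hd⟩
    choose d hd using hex
    refine ⟨d, fun N => ?_, fun z hz => ?_⟩
    · have ht : Tendsto (fun n => 2 * Real.pi * ∑ m ∈ range N, ‖c n m‖ ^ 2)
          (hyperfilter ℕ : Filter ℕ) (𝓝 (2 * Real.pi * ∑ m ∈ range N, ‖d m‖ ^ 2)) := by
        apply Tendsto.const_mul
        apply tendsto_finset_sum
        intro m _
        exact ((hd m).norm).pow 2
      exact le_of_tendsto ht (Filter.Eventually.of_forall fun n => hc n N)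
    · apply tendsto_tsum_of_dominated_convergence (bound := fun m => (B + 1) * ‖z‖ ^ m)
      · exact (summable_geometric_of_lt_one (norm_nonneg _) (mem_ball_zero_iff.mp hz)).mul_left _
      · intro m; exact (hd m).mul_const _
      · refine Filter.Eventually.of_forall fun n m => ?_
        rw [norm_mul, norm_pow]
        exact mul_le_mul_of_nonneg_right (hcb n m) (by positivity)
  obtain ⟨d1, e1, t1⟩ := lim c1 B1
  obtain ⟨d2, e2, t2⟩ := lim c2 B2
  obtain ⟨D1, N1⟩ := H2_of_coeff d1 B e1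
  obtain ⟨D2, N2⟩ := H2_of_coeff d2 B e2
  refine ⟨_, _, D1, D2, N1, N2, fun z hz => ?_⟩
  have hlim : Tendsto (fun n => (p n).eval z) (hyperfilter ℕ : Filter ℕ)
      (𝓝 ((∑' m, d1 m * z ^ m) ^ 2 + (∑' m, d2 m * z ^ m) ^ 2)) := by
    have := ((t1 z hz).pow 2).add ((t2 z hz).pow 2)
    refine this.congr (fun n => ?_)
    exact (hpc n z hz).symm
  have hlim2 : Tendsto (fun n => (p n).eval z) (hyperfilter ℕ : Filter ℕ) (𝓝 (f z)) := by
    have h1 : Tendsto (fun n : ℕ => ((1 - 1 / ((n:ℝ) + 2) : ℝ) : ℂ) * z) atTop (𝓝 z) := by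
      have ha : Tendsto (fun n : ℕ => (1 - 1 / ((n:ℝ) + 2) : ℝ)) atTop (𝓝 1) := by
        have h5 : Tendsto (fun n : ℕ => 1 / ((n:ℝ) + 2)) atTop (𝓝 0) := by
          have h6 := (tendsto_one_div_add_atTop_nhds_zero_nat (𝕜 := ℝ)).comp (tendsto_add_atTop_nat 1)
          refine h6.congr (fun n => ?_)
          simp only [Function.comp]
          push_cast; ring
        simpa using tendsto_const_nhds.sub h5
      have hb : Tendsto (fun n : ℕ => ((1 - 1 / ((n:ℝ) + 2) : ℝ) : ℂ)) atTop (𝓝 ((1:ℝ):ℂ)) :=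
        (Complex.continuous_ofReal.tendsto 1).comp ha
      have := hb.mul_const z
      simpa using this
    have h2 : Tendsto (fun n : ℕ => f (((1 - 1 / ((n:ℝ) + 2) : ℝ) : ℂ) * z)) atTop (𝓝 (f z)) :=
      ((hf.continuousOn.continuousAt (isOpen_ball.mem_nhds hz)).tendsto).comp h1
    have h3 : Tendsto (fun n : ℕ => f (((1 - 1 / ((n:ℝ) + 2) : ℝ) : ℂ) * z) - (p n).eval z) atTop
        (𝓝 0) := by
      apply squeeze_zero_norm (a := fun n : ℕ => 1 / ((n:ℝ) + 1))
      · intro n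
        exact hp1 n z (mem_ball_zero_iff.mp hz).le
      · exact tendsto_one_div_add_atTop_nhds_zero_nat
    have h4 := h2.sub h3
    simp only [sub_sub_cancel, sub_zero] at h4
    exact h4.mono_left Nat.hyperfilter_le_atTop
  exact tendsto_nhds_unique hlim2 hlim

end Pool.Agent.Helper655.BD.K7
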