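import Mathlib
import Pool.Agent.Helper655.BDDefs
import Pool.Agent.Helper655.BDK7

set_option autoImplicit false
open Finset

namespace Pool.Agent.Helper655.BD.K8

open Pool.Agent.Helper655.BD.K7 (h1_two_squares)



theorem f6_norm_ee (t : ℝ) : ‖ee t‖ = 1 := by
  unfold ee; exact Complex.norm_exp_ofReal_mul_I t

theorem f6_cont_ee : Continuous ee := by unfold ee; fun_prop

theorem f6_orth (n m : ℕ) :
    ∫ s in Set.Ioc (0:ℝ) (2 * Real.pi), ee s ^ n * (starRingEnd ℂ) (ee s ^ m) =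
      if n = m then (2 * Real.pi : ℂ) else 0 := by
  have hpi := Real.two_pi_pos
  rw [← intervalIntegral.integral_of_le hpi.le]
  have h1 : ∀ s : ℝ, ee s ^ n * (starRingEnd ℂ) (ee s ^ m) =
      Complex.exp ((((n:ℂ) - m) * Complex.I) * s) := by
    intro s
    unfold ee
    rw [map_pow, ← Complex.exp_conj, map_mul, Complex.conj_ofReal, Complex.conj_I,
      ← Complex.exp_nat_mul, ← Complex.exp_nat_mul, ← Complex.exp_add]
    congr 1; ring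
  simp_rw [h1]
  split_ifs with h
  · subst h; simp
  · have hc : ((n:ℂ) - m) * Complex.I ≠ 0 :=
      mul_ne_zero (sub_ne_zero.mpr (by exact_mod_cast h)) Complex.I_ne_zero
    rw [integral_exp_mul_complex hc]
    have : Complex.exp (((n:ℂ) - m) * Complex.I * ((2 * Real.pi : ℝ) : ℂ)) = 1 := by
      rw [Complex.exp_eq_one_iff]; exact ⟨(n:ℤ) - m, by push_cast; ring⟩
    rw [this]; simp

theorem f6_sq_summable (a : ℕ → ℂ) (ha : Summable fun n => ‖a n‖) :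
    Summable fun n => ‖a n‖ ^ 2 := by
  refine Summable.of_nonneg_of_le (fun n => sq_nonneg _) (fun n => ?_)
    (ha.mul_left (∑' n, ‖a n‖))
  rw [pow_two]
  exact mul_le_mul_of_nonneg_right (ha.le_tsum n (fun j _ => norm_nonneg _)) (norm_nonneg _)

theorem f6_term_norm (a : ℕ → ℂ) (s : ℝ) (n : ℕ) : ‖a n * ee s ^ n‖ = ‖a n‖ := by
  rw [norm_mul, norm_pow, f6_norm_ee, one_pow, mul_one]

theorem f6_cont (a : ℕ → ℂ) (ha : Summable fun n => ‖a n‖) :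
    Continuous fun s : ℝ => ∑' n, a n * ee s ^ n :=
  continuous_tsum (fun n => continuous_const.mul (f6_cont_ee.pow n)) ha
    (fun n s => (f6_term_norm a s n).le)

theorem f6_bd (a : ℕ → ℂ) (ha : Summable fun n => ‖a n‖) (s : ℝ) :
    ‖∑' n, a n * ee s ^ n‖ ≤ ∑' n, ‖a n‖ := by
  have h : Summable fun n => ‖a n * ee s ^ n‖ := by simpa only [f6_term_norm] using ha
  refine (norm_tsum_le_tsum_norm h).trans ?_
  simp only [f6_term_norm]; exact le_rfl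

theorem f6_coef (a : ℕ → ℂ) (ha : Summable fun n => ‖a n‖) (m : ℕ) :
    ∫ s in Set.Ioc (0:ℝ) (2 * Real.pi), (∑' n, a n * ee s ^ n) * (starRingEnd ℂ) (ee s ^ m) =
      2 * Real.pi * a m := by
  have hpi := Real.two_pi_pos
  have hcont : ∀ n, Continuous fun s : ℝ => a n * ee s ^ n * (starRingEnd ℂ) (ee s ^ m) := fun n =>
    (continuous_const.mul (f6_cont_ee.pow n)).mul (Complex.continuous_conj.comp (f6_cont_ee.pow m))
  have hnorm : ∀ n (s : ℝ), ‖a n * ee s ^ n * (starRingEnd ℂ) (ee s ^ m)‖ = ‖a n‖ := by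
    intro n s
    rw [norm_mul, f6_term_norm, RCLike.norm_conj, norm_pow, f6_norm_ee, one_pow, mul_one]
  have h1 := MeasureTheory.hasSum_integral_of_summable_integral_norm
    (μ := MeasureTheory.volume.restrict (Set.Ioc (0:ℝ) (2 * Real.pi)))
    (F := fun n s => a n * ee s ^ n * (starRingEnd ℂ) (ee s ^ m))
    (fun n => (hcont n).integrableOn_Ioc) (by
      simp only [hnorm]
      simp only [MeasureTheory.integral_const]
      exact ha.mul_left _)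
  have h2 : ∀ s : ℝ, ∑' n, a n * ee s ^ n * (starRingEnd ℂ) (ee s ^ m) =
      (∑' n, a n * ee s ^ n) * (starRingEnd ℂ) (ee s ^ m) := fun s => tsum_mul_right
  simp_rw [h2] at h1
  rw [← h1.tsum_eq]
  have h3 : ∀ n, ∫ s in Set.Ioc (0:ℝ) (2 * Real.pi),
      a n * ee s ^ n * (starRingEnd ℂ) (ee s ^ m) =
      if n = m then 2 * Real.pi * a m else 0 := by
    intro n
    simp_rw [mul_assoc]
    rw [MeasureTheory.integral_const_mul, f6_orth]
    split_ifs with h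
    · subst h; ring
    · simp
  simp_rw [h3]
  rw [tsum_ite_eq]

theorem f6_parseval (a : ℕ → ℂ) (ha : Summable fun n => ‖a n‖) :
    ∫ s in Set.Ioc (0:ℝ) (2 * Real.pi), ‖∑' n, a n * ee s ^ n‖ ^ 2 =
      2 * Real.pi * ∑' n, ‖a n‖ ^ 2 := by
  have hpi := Real.two_pi_pos
  set F : ℝ → ℂ := fun s => ∑' n, a n * ee s ^ n with hF
  have hFc : Continuous F := f6_cont a ha
  have hcont : ∀ n, Continuous fun s : ℝ => F s * (starRingEnd ℂ) (a n * ee s ^ n) := fun n =>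
    hFc.mul (Complex.continuous_conj.comp (continuous_const.mul (f6_cont_ee.pow n)))
  have hnorm : ∀ n (s : ℝ), ‖F s * (starRingEnd ℂ) (a n * ee s ^ n)‖ ≤
      (∑' n, ‖a n‖) * ‖a n‖ := by
    intro n s
    rw [norm_mul, RCLike.norm_conj, f6_term_norm]
    exact mul_le_mul_of_nonneg_right (f6_bd a ha s) (norm_nonneg _)
  have h1 := MeasureTheory.hasSum_integral_of_summable_integral_norm
    (μ := MeasureTheory.volume.restrict (Set.Ioc (0:ℝ) (2 * Real.pi)))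
    (F := fun n s => F s * (starRingEnd ℂ) (a n * ee s ^ n))
    (fun n => (hcont n).integrableOn_Ioc) (by
      refine Summable.of_nonneg_of_le
        (fun n => MeasureTheory.integral_nonneg fun s => norm_nonneg _) (fun n => ?_)
        ((ha.mul_left (∑' n, ‖a n‖)).mul_left (2 * Real.pi))
      calc ∫ s in Set.Ioc (0:ℝ) (2 * Real.pi), ‖F s * (starRingEnd ℂ) (a n * ee s ^ n)‖
          ≤ ∫ s in Set.Ioc (0:ℝ) (2 * Real.pi), (∑' n, ‖a n‖) * ‖a n‖ := by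
            apply MeasureTheory.integral_mono
            · exact (hcont n).norm.integrableOn_Ioc
            · exact continuous_const.integrableOn_Ioc
            · exact fun s => hnorm n s
        _ = 2 * Real.pi * ((∑' n, ‖a n‖) * ‖a n‖) := by
            rw [MeasureTheory.setIntegral_const]
            simp [MeasureTheory.measureReal_def, Real.pi_pos.le])
  have h2 : ∀ s : ℝ, ∑' n, F s * (starRingEnd ℂ) (a n * ee s ^ n) = F s * (starRingEnd ℂ) (F s) := by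
    intro s
    rw [tsum_mul_left]
    congr 1
    have hs : Summable fun n => a n * ee s ^ n := by
      apply Summable.of_norm
      simpa only [f6_term_norm] using ha
    exact (hs.hasSum.map (starRingEnd ℂ) Complex.continuous_conj).tsum_eq
  simp_rw [h2] at h1
  have h3 : ∀ n, ∫ s in Set.Ioc (0:ℝ) (2 * Real.pi), F s * (starRingEnd ℂ) (a n * ee s ^ n) =
      ((2 * Real.pi * ‖a n‖ ^ 2 : ℝ) : ℂ) := by
    intro n
    have h4 : ∀ s : ℝ, F s * (starRingEnd ℂ) (a n * ee s ^ n) =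
        (starRingEnd ℂ) (a n) * (F s * (starRingEnd ℂ) (ee s ^ n)) := by
      intro s; rw [map_mul]; ring
    simp_rw [h4]
    rw [MeasureTheory.integral_const_mul, f6_coef a ha n]
    push_cast
    rw [← Complex.mul_conj']
    ring
  simp_rw [h3] at h1
  have h5 : ∀ s : ℝ, F s * (starRingEnd ℂ) (F s) = ((‖F s‖ ^ 2 : ℝ) : ℂ) := by
    intro s; rw [Complex.mul_conj']; push_cast; rfl
  simp_rw [h5] at h1
  rw [integral_complex_ofReal] at h1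
  have h6 := (Complex.hasSum_ofReal.mp h1).tsum_eq
  rw [← h6, tsum_mul_left]

theorem f6_lint (a : ℕ → ℂ) (ha : Summable fun n => ‖a n‖) :
    ∫⁻ s in Set.Ioc (0:ℝ) (2 * Real.pi), ‖∑' n, a n * ee s ^ n‖ₑ ^ (2:ℝ) =
      ENNReal.ofReal (2 * Real.pi * ∑' n, ‖a n‖ ^ 2) := by
  rw [← f6_parseval a ha, MeasureTheory.ofReal_integral_eq_lintegral_ofReal]
  · refine MeasureTheory.lintegral_congr fun s => ?_
    rw [← ofReal_norm, ENNReal.ofReal_rpow_of_nonneg (norm_nonneg _) (by norm_num)]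
    norm_num
  · exact ((f6_cont a ha).norm.pow 2).integrableOn_Ioc
  · exact Filter.Eventually.of_forall fun s => sq_nonneg _

theorem f6_ball {z : ℂ} (hz : ‖z‖ < 1) : z ∈ Metric.ball (0:ℂ) 1 := by simpa using hz

/-- Taylor coefficients of a function in H^2 -/
theorem f6_h2 (h : ℂ → ℂ) (hd : DifferentiableOn ℂ h (Metric.ball (0:ℂ) 1))
    (hB : (⨆ r ∈ Set.Ioo (0:ℝ) 1,
      ∫⁻ s in Set.Ioc (0:ℝ) (2 * Real.pi), ‖h (r * ee s)‖ₑ ^ (2:ℝ)) < ⊤) :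
    ∃ c : ℕ → ℂ, Summable (fun n => ‖c n‖ ^ 2) ∧
      ∀ z ∈ Metric.ball (0:ℂ) 1, HasSum (fun n => c n * z ^ n) (h z) := by
  have hpi := Real.two_pi_pos
  obtain ⟨c, hc⟩ : ∃ c : ℕ → ℂ, ∀ n, c n = (n.factorial : ℂ)⁻¹ * iteratedDeriv n h 0 :=
    ⟨_, fun _ => rfl⟩
  have hsum : ∀ z ∈ Metric.ball (0:ℂ) 1, HasSum (fun n => c n * z ^ n) (h z) := by
    intro z hz
    have := Complex.hasSum_taylorSeries_on_ball hd hz
    have he : (fun n => c n * z ^ n) =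
        fun n : ℕ => (n.factorial : ℂ)⁻¹ • (z - 0) ^ n • iteratedDeriv n h 0 := by
      funext n
      rw [hc, smul_eq_mul, smul_eq_mul, sub_zero]
      ring
    rw [he]
    exact this
  refine ⟨c, ?_, hsum⟩
  set B := (⨆ r ∈ Set.Ioo (0:ℝ) 1,
      ∫⁻ s in Set.Ioc (0:ℝ) (2 * Real.pi), ‖h (r * ee s)‖ₑ ^ (2:ℝ)) with hBdef
  have key : ∀ r : ℝ, r ∈ Set.Ioo (0:ℝ) 1 → ∀ u : Finset ℕ,
      ∑ n ∈ u, ‖c n‖ ^ 2 * r ^ (2 * n) ≤ B.toReal / (2 * Real.pi) := by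
    intro r hr u
    have hrz : ‖(r : ℂ)‖ < 1 := by
      rw [Complex.norm_real, Real.norm_eq_abs, abs_of_pos hr.1]; exact hr.2
    have ha : Summable fun n => ‖c n * (r:ℂ) ^ n‖ := (hsum _ (f6_ball hrz)).summable.norm
    have h1 : ∀ s : ℝ, h (r * ee s) = ∑' n, (c n * (r:ℂ) ^ n) * ee s ^ n := by
      intro s
      have hz : ((r:ℂ) * ee s) ∈ Metric.ball (0:ℂ) 1 := by
        apply f6_ball
        rw [norm_mul, f6_norm_ee, mul_one]; exact hrz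
      rw [← (hsum _ hz).tsum_eq]
      refine tsum_congr fun n => ?_
      rw [mul_pow]; ring
    have h2 : ENNReal.ofReal (2 * Real.pi * ∑' n, ‖c n * (r:ℂ) ^ n‖ ^ 2) ≤ B := by
      rw [← f6_lint _ ha]
      simp_rw [← h1]
      exact le_iSup₂_of_le (f := fun r (_ : r ∈ Set.Ioo (0:ℝ) 1) =>
        ∫⁻ s in Set.Ioc (0:ℝ) (2 * Real.pi), ‖h (r * ee s)‖ₑ ^ (2:ℝ)) r hr le_rfl
    have h3 := (ENNReal.ofReal_le_iff_le_toReal hB.ne).mp h2
    have h4 : ∑ n ∈ u, ‖c n‖ ^ 2 * r ^ (2 * n) = ∑ n ∈ u, ‖c n * (r:ℂ) ^ n‖ ^ 2 := by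
      refine Finset.sum_congr rfl fun n _ => ?_
      rw [norm_mul, norm_pow, Complex.norm_real, Real.norm_eq_abs, abs_of_pos hr.1]
      ring
    rw [h4, le_div_iff₀ hpi]
    calc (∑ n ∈ u, ‖c n * (r:ℂ) ^ n‖ ^ 2) * (2 * Real.pi)
        ≤ (∑' n, ‖c n * (r:ℂ) ^ n‖ ^ 2) * (2 * Real.pi) := by
          apply mul_le_mul_of_nonneg_right _ hpi.le
          exact (f6_sq_summable _ ha).sum_le_tsum u (fun n _ => sq_nonneg _)
      _ ≤ B.toReal := by linarith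
  refine summable_of_sum_le (c := B.toReal / (2 * Real.pi)) (fun n => sq_nonneg _) fun u => ?_
  have hcont : Filter.Tendsto (fun r : ℝ => ∑ n ∈ u, ‖c n‖ ^ 2 * r ^ (2 * n))
      (nhdsWithin 1 (Set.Iio 1)) (nhds (∑ n ∈ u, ‖c n‖ ^ 2 * 1 ^ (2 * n))) := by
    have : Continuous fun r : ℝ => ∑ n ∈ u, ‖c n‖ ^ 2 * r ^ (2 * n) := by fun_prop
    exact (this.tendsto 1).mono_left nhdsWithin_le_nhds
  simp only [one_pow, mul_one] at hcont
  refine le_of_tendsto hcont ?_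
  have : Set.Ioo (0:ℝ) 1 ∈ nhdsWithin (1:ℝ) (Set.Iio 1) := Ioo_mem_nhdsLT (by norm_num)
  filter_upwards [this] with r hr
  exact key r hr u

/-- estimates for differences and sums of dilations -/
theorem f6_est (h : ℂ → ℂ) (hd : DifferentiableOn ℂ h (Metric.ball (0:ℂ) 1))
    (hB : (⨆ r ∈ Set.Ioo (0:ℝ) 1,
      ∫⁻ s in Set.Ioc (0:ℝ) (2 * Real.pi), ‖h (r * ee s)‖ₑ ^ (2:ℝ)) < ⊤) :
    ∃ (E : ℝ → ℝ) (V : ℝ), Filter.Tendsto E (nhdsWithin 1 (Set.Iio 1)) (nhds 0) ∧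
      ∀ ρ ∈ Set.Ioo (0:ℝ) 1, ∀ r ∈ Set.Ioo (0:ℝ) 1,
        (∫⁻ s in Set.Ioc (0:ℝ) (2 * Real.pi),
          ‖h (r * ee s) - h (ρ * (r * ee s))‖ₑ ^ (2:ℝ)) ≤ ENNReal.ofReal (E ρ) ∧
        (∫⁻ s in Set.Ioc (0:ℝ) (2 * Real.pi),
          ‖h (r * ee s) + h (ρ * (r * ee s))‖ₑ ^ (2:ℝ)) ≤ ENNReal.ofReal V := by
  have hpi := Real.two_pi_pos
  obtain ⟨c, hc2, hsum⟩ := f6_h2 h hd hB
  have hlim : Filter.Tendsto (fun ρ : ℝ => ∑' n, ‖c n‖ ^ 2 * (1 - ρ ^ n) ^ 2)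
      (nhdsWithin 1 (Set.Iio 1)) (nhds (∑' _ : ℕ, (0:ℝ))) := by
    refine tendsto_tsum_of_dominated_convergence (bound := fun n => ‖c n‖ ^ 2) hc2 ?_ ?_
    · intro n
      have h1 : Continuous fun ρ : ℝ => ‖c n‖ ^ 2 * (1 - ρ ^ n) ^ 2 := by fun_prop
      have h2 := (h1.tendsto 1).mono_left (nhdsWithin_le_nhds (s := Set.Iio (1:ℝ)))
      simpa using h2
    · have : Set.Ioo (0:ℝ) 1 ∈ nhdsWithin (1:ℝ) (Set.Iio 1) := Ioo_mem_nhdsLT (by norm_num)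
      filter_upwards [this] with ρ hρ n
      have h3 : 0 ≤ ρ ^ n := pow_nonneg hρ.1.le n
      have h4 : ρ ^ n ≤ 1 := pow_le_one₀ hρ.1.le hρ.2.le
      rw [Real.norm_eq_abs, abs_of_nonneg (by positivity)]
      have h5 : (1 - ρ ^ n) ^ 2 ≤ 1 := by nlinarith
      nlinarith [sq_nonneg ‖c n‖]
  rw [tsum_zero] at hlim
  refine ⟨fun ρ => 2 * Real.pi * ∑' n, ‖c n‖ ^ 2 * (1 - ρ ^ n) ^ 2,
    2 * Real.pi * ∑' n, ‖c n‖ ^ 2 * 4, ?_, ?_⟩
  · simpa using hlim.const_mul (2 * Real.pi)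
  · intro ρ hρ r hr
    have hrz : ‖(r : ℂ)‖ < 1 := by
      rw [Complex.norm_real, Real.norm_eq_abs, abs_of_pos hr.1]; exact hr.2
    have hr0 : ‖(r : ℂ)‖ = r := by rw [Complex.norm_real, Real.norm_eq_abs, abs_of_pos hr.1]
    have hρ0 : ‖(ρ : ℂ)‖ = ρ := by rw [Complex.norm_real, Real.norm_eq_abs, abs_of_pos hρ.1]
    have ha : Summable fun n => ‖c n * (r:ℂ) ^ n‖ := (hsum _ (f6_ball hrz)).summable.norm
    have hmem1 : ∀ s : ℝ, ((r:ℂ) * ee s) ∈ Metric.ball (0:ℂ) 1 := by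
      intro s
      apply f6_ball
      rw [norm_mul, f6_norm_ee, mul_one]; exact hrz
    have hmem2 : ∀ s : ℝ, ((ρ:ℂ) * ((r:ℂ) * ee s)) ∈ Metric.ball (0:ℂ) 1 := by
      intro s
      apply f6_ball
      rw [norm_mul, norm_mul, f6_norm_ee, mul_one, hr0, hρ0]
      nlinarith [hρ.1, hρ.2, hr.1, hr.2]
    have hρn : ∀ n : ℕ, 0 ≤ ρ ^ n ∧ ρ ^ n ≤ 1 := fun n =>
      ⟨pow_nonneg hρ.1.le n, pow_le_one₀ hρ.1.le hρ.2.le⟩
    have hrn : ∀ n : ℕ, 0 ≤ r ^ n ∧ r ^ n ≤ 1 := fun n =>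
      ⟨pow_nonneg hr.1.le n, pow_le_one₀ hr.1.le hr.2.le⟩
    constructor
    · have hn : ∀ n, ‖c n * (1 - (ρ:ℂ) ^ n) * (r:ℂ) ^ n‖ = ‖c n‖ * (1 - ρ ^ n) * r ^ n := by
        intro n
        rw [norm_mul, norm_mul, norm_pow, hr0]
        have : ‖(1 - (ρ:ℂ) ^ n)‖ = 1 - ρ ^ n := by
          have : (1 - (ρ:ℂ) ^ n) = ((1 - ρ ^ n : ℝ) : ℂ) := by push_cast; rfl
          rw [this, Complex.norm_real, Real.norm_eq_abs, abs_of_nonneg (by linarith [(hρn n).2])]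
        rw [this]
      have ha' : Summable fun n => ‖c n * (1 - (ρ:ℂ) ^ n) * (r:ℂ) ^ n‖ := by
        refine Summable.of_nonneg_of_le (fun n => norm_nonneg _) (fun n => ?_) ha
        rw [hn, norm_mul, norm_pow, hr0]
        have h1 : (1 - ρ ^ n) ≤ 1 := by linarith [(hρn n).1]
        have h2 : 0 ≤ ‖c n‖ * r ^ n := mul_nonneg (norm_nonneg _) (hrn n).1
        nlinarith
      have h1 : ∀ s : ℝ, h (r * ee s) - h (ρ * (r * ee s)) =
          ∑' n, (c n * (1 - (ρ:ℂ) ^ n) * (r:ℂ) ^ n) * ee s ^ n := by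
        intro s
        rw [← ((hsum _ (hmem1 s)).sub (hsum _ (hmem2 s))).tsum_eq]
        refine tsum_congr fun n => ?_
        rw [mul_pow, mul_pow, mul_pow]; ring
      simp_rw [h1]
      rw [f6_lint _ ha']
      apply ENNReal.ofReal_le_ofReal
      apply mul_le_mul_of_nonneg_left _ hpi.le
      have hS : Summable fun n => ‖c n‖ ^ 2 * (1 - ρ ^ n) ^ 2 := by
        refine Summable.of_nonneg_of_le (fun n => by positivity) (fun n => ?_) hc2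
        have h5 : (1 - ρ ^ n) ^ 2 ≤ 1 := by nlinarith [(hρn n).1, (hρn n).2]
        nlinarith [sq_nonneg ‖c n‖]
      refine Summable.tsum_le_tsum (fun n => ?_) (f6_sq_summable _ ha') hS
      rw [hn]
      have h6 : (r ^ n) ^ 2 ≤ 1 := by nlinarith [(hrn n).1, (hrn n).2]
      have h7 : 0 ≤ ‖c n‖ ^ 2 * (1 - ρ ^ n) ^ 2 := by positivity
      calc (‖c n‖ * (1 - ρ ^ n) * r ^ n) ^ 2 = ‖c n‖ ^ 2 * (1 - ρ ^ n) ^ 2 * (r ^ n) ^ 2 := by ring
        _ ≤ ‖c n‖ ^ 2 * (1 - ρ ^ n) ^ 2 * 1 := mul_le_mul_of_nonneg_left h6 h7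
        _ = _ := mul_one _
    · have hn : ∀ n, ‖c n * (1 + (ρ:ℂ) ^ n) * (r:ℂ) ^ n‖ = ‖c n‖ * (1 + ρ ^ n) * r ^ n := by
        intro n
        rw [norm_mul, norm_mul, norm_pow, hr0]
        have : ‖(1 + (ρ:ℂ) ^ n)‖ = 1 + ρ ^ n := by
          have : (1 + (ρ:ℂ) ^ n) = ((1 + ρ ^ n : ℝ) : ℂ) := by push_cast; rfl
          rw [this, Complex.norm_real, Real.norm_eq_abs, abs_of_nonneg (by linarith [(hρn n).1])]
        rw [this]
      have ha' : Summable fun n => ‖c n * (1 + (ρ:ℂ) ^ n) * (r:ℂ) ^ n‖ := by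
        refine Summable.of_nonneg_of_le (fun n => norm_nonneg _) (fun n => ?_) (ha.mul_left 2)
        rw [hn, norm_mul, norm_pow, hr0]
        have h1 : (1 + ρ ^ n) ≤ 2 := by linarith [(hρn n).2]
        have h2 : 0 ≤ ‖c n‖ * r ^ n := mul_nonneg (norm_nonneg _) (hrn n).1
        nlinarith
      have h1 : ∀ s : ℝ, h (r * ee s) + h (ρ * (r * ee s)) =
          ∑' n, (c n * (1 + (ρ:ℂ) ^ n) * (r:ℂ) ^ n) * ee s ^ n := by
        intro s
        rw [← ((hsum _ (hmem1 s)).add (hsum _ (hmem2 s))).tsum_eq]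
        refine tsum_congr fun n => ?_
        rw [mul_pow, mul_pow, mul_pow]; ring
      simp_rw [h1]
      rw [f6_lint _ ha']
      apply ENNReal.ofReal_le_ofReal
      apply mul_le_mul_of_nonneg_left _ hpi.le
      refine Summable.tsum_le_tsum (fun n => ?_) (f6_sq_summable _ ha') (hc2.mul_right 4)
      rw [hn]
      have h6 : (r ^ n) ^ 2 ≤ 1 := by nlinarith [(hrn n).1, (hrn n).2]
      have h5 : (1 + ρ ^ n) ^ 2 ≤ 4 := by nlinarith [(hρn n).1, (hρn n).2]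
      have h7 : (1 + ρ ^ n) ^ 2 * (r ^ n) ^ 2 ≤ 4 := by nlinarith [sq_nonneg (1 + ρ ^ n)]
      calc (‖c n‖ * (1 + ρ ^ n) * r ^ n) ^ 2 = ‖c n‖ ^ 2 * ((1 + ρ ^ n) ^ 2 * (r ^ n) ^ 2) := by ring
        _ ≤ ‖c n‖ ^ 2 * 4 := mul_le_mul_of_nonneg_left h7 (sq_nonneg _)

theorem f6_path_cont (h : ℂ → ℂ) (hd : DifferentiableOn ℂ h (Metric.ball (0:ℂ) 1)) (w : ℂ)
    (hw : ‖w‖ < 1) : Continuous fun s : ℝ => h (w * ee s) := by
  refine hd.continuousOn.comp_continuous (continuous_const.mul f6_cont_ee) fun s => ?_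
  apply f6_ball
  rw [norm_mul, f6_norm_ee, mul_one]; exact hw

/-- TARGET: dilations converge in H^1 of the disc -/
theorem h1_dilation (f : ℂ → ℂ) (hf : DifferentiableOn ℂ f (Metric.ball (0:ℂ) 1))
    (hN : (⨆ r ∈ Set.Ioo (0:ℝ) 1, ∫⁻ s in Set.Ioc (0:ℝ) (2 * Real.pi), ‖f (r * ee s)‖ₑ) < ⊤) :
    Filter.Tendsto (fun ρ : ℝ => ⨆ r ∈ Set.Ioo (0:ℝ) 1,
      ∫⁻ s in Set.Ioc (0:ℝ) (2 * Real.pi), ‖f (r * ee s) - f (ρ * (r * ee s))‖ₑ)
      (nhdsWithin 1 (Set.Iio 1)) (nhds 0) := by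
  obtain ⟨h1, h2, hd1, hd2, hb1, hb2, hfe⟩ := h1_two_squares f hf hN
  obtain ⟨E1, V1, hE1, he1⟩ := f6_est h1 hd1 hb1
  obtain ⟨E2, V2, hE2, he2⟩ := f6_est h2 hd2 hb2
  have hten : ∀ (E : ℝ → ℝ) (V : ℝ), Filter.Tendsto E (nhdsWithin 1 (Set.Iio 1)) (nhds 0) →
      Filter.Tendsto (fun ρ => (ENNReal.ofReal (E ρ)) ^ (1 / (2:ℝ)) *
        (ENNReal.ofReal V) ^ (1 / (2:ℝ))) (nhdsWithin 1 (Set.Iio 1)) (nhds 0) := by
    intro E V hE
    have h3 : Filter.Tendsto (fun ρ => ENNReal.ofReal (E ρ)) (nhdsWithin 1 (Set.Iio 1))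
        (nhds 0) := by
      have := ENNReal.tendsto_ofReal hE
      rwa [ENNReal.ofReal_zero] at this
    have h4 := h3.ennrpow_const (1 / (2:ℝ))
    rw [ENNReal.zero_rpow_of_pos (by norm_num)] at h4
    have h5 : (ENNReal.ofReal V) ^ (1 / (2:ℝ)) ≠ ⊤ :=
      ENNReal.rpow_ne_top_of_nonneg (by norm_num) ENNReal.ofReal_ne_top
    have h6 := ENNReal.Tendsto.mul_const h4 (Or.inr h5)
    rwa [zero_mul] at h6
  have htot := (hten E1 V1 hE1).add (hten E2 V2 hE2)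
  rw [add_zero] at htot
  refine tendsto_of_tendsto_of_tendsto_of_le_of_le' tendsto_const_nhds htot
    (Filter.Eventually.of_forall fun ρ => zero_le) ?_
  have hmem : Set.Ioo (0:ℝ) 1 ∈ nhdsWithin (1:ℝ) (Set.Iio 1) := Ioo_mem_nhdsLT (by norm_num)
  filter_upwards [hmem] with ρ hρ
  refine iSup₂_le fun r hr => ?_
  have hr0 : ‖(r : ℂ)‖ = r := by rw [Complex.norm_real, Real.norm_eq_abs, abs_of_pos hr.1]
  have hρ0 : ‖(ρ : ℂ)‖ = ρ := by rw [Complex.norm_real, Real.norm_eq_abs, abs_of_pos hρ.1]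
  have hw1 : ‖(r:ℂ)‖ < 1 := by rw [hr0]; exact hr.2
  have hw2 : ‖((ρ:ℂ) * (r:ℂ))‖ < 1 := by
    rw [norm_mul, hr0, hρ0]; nlinarith [hρ.1, hρ.2, hr.1, hr.2]
  have hmem1 : ∀ s : ℝ, ((r:ℂ) * ee s) ∈ Metric.ball (0:ℂ) 1 := by
    intro s
    apply f6_ball
    rw [norm_mul, f6_norm_ee, mul_one]; exact hw1
  have hmem2 : ∀ s : ℝ, ((ρ:ℂ) * ((r:ℂ) * ee s)) ∈ Metric.ball (0:ℂ) 1 := by
    intro s
    apply f6_ball
    rw [← mul_assoc, norm_mul, f6_norm_ee, mul_one]; exact hw2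
  have hc : ∀ (h : ℂ → ℂ), DifferentiableOn ℂ h (Metric.ball (0:ℂ) 1) →
      Continuous (fun s : ℝ => h (r * ee s)) ∧ Continuous (fun s : ℝ => h (ρ * (r * ee s))) := by
    intro h hd
    refine ⟨f6_path_cont h hd _ hw1, ?_⟩
    have := f6_path_cont h hd _ hw2
    simpa only [mul_assoc] using this
  have hCS : ∀ (h : ℂ → ℂ), DifferentiableOn ℂ h (Metric.ball (0:ℂ) 1) →
      ∫⁻ s in Set.Ioc (0:ℝ) (2 * Real.pi), ‖h (r * ee s) - h (ρ * (r * ee s))‖ₑ *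
        ‖h (r * ee s) + h (ρ * (r * ee s))‖ₑ ≤
      (∫⁻ s in Set.Ioc (0:ℝ) (2 * Real.pi),
          ‖h (r * ee s) - h (ρ * (r * ee s))‖ₑ ^ (2:ℝ)) ^ (1 / (2:ℝ)) *
      (∫⁻ s in Set.Ioc (0:ℝ) (2 * Real.pi),
          ‖h (r * ee s) + h (ρ * (r * ee s))‖ₑ ^ (2:ℝ)) ^ (1 / (2:ℝ)) := by
    intro h hd
    obtain ⟨c1, c2⟩ := hc h hd
    exact ENNReal.lintegral_mul_le_Lp_mul_Lq
      (MeasureTheory.volume.restrict (Set.Ioc (0:ℝ) (2 * Real.pi))) Real.HolderConjugate.two_two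
      (f := fun s => ‖h (r * ee s) - h (ρ * (r * ee s))‖ₑ)
      (g := fun s => ‖h (r * ee s) + h (ρ * (r * ee s))‖ₑ)
      (c1.sub c2).enorm.measurable.aemeasurable (c1.add c2).enorm.measurable.aemeasurable
  calc ∫⁻ s in Set.Ioc (0:ℝ) (2 * Real.pi), ‖f (r * ee s) - f (ρ * (r * ee s))‖ₑ
      ≤ ∫⁻ s in Set.Ioc (0:ℝ) (2 * Real.pi),
        (‖h1 (r * ee s) - h1 (ρ * (r * ee s))‖ₑ * ‖h1 (r * ee s) + h1 (ρ * (r * ee s))‖ₑ +
        ‖h2 (r * ee s) - h2 (ρ * (r * ee s))‖ₑ * ‖h2 (r * ee s) + h2 (ρ * (r * ee s))‖ₑ) := by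
        apply MeasureTheory.lintegral_mono
        intro s
        simp only
        rw [hfe _ (hmem1 s), hfe _ (hmem2 s), ← enorm_mul, ← enorm_mul]
        have : h1 (r * ee s) ^ 2 + h2 (r * ee s) ^ 2 -
            (h1 (ρ * (r * ee s)) ^ 2 + h2 (ρ * (r * ee s)) ^ 2) =
            (h1 (r * ee s) - h1 (ρ * (r * ee s))) * (h1 (r * ee s) + h1 (ρ * (r * ee s))) +
            (h2 (r * ee s) - h2 (ρ * (r * ee s))) * (h2 (r * ee s) + h2 (ρ * (r * ee s))) := by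
          ring
        rw [this]
        exact enorm_add_le _ _
    _ = (∫⁻ s in Set.Ioc (0:ℝ) (2 * Real.pi), ‖h1 (r * ee s) - h1 (ρ * (r * ee s))‖ₑ *
          ‖h1 (r * ee s) + h1 (ρ * (r * ee s))‖ₑ) +
        (∫⁻ s in Set.Ioc (0:ℝ) (2 * Real.pi), ‖h2 (r * ee s) - h2 (ρ * (r * ee s))‖ₑ *
          ‖h2 (r * ee s) + h2 (ρ * (r * ee s))‖ₑ) := by
        apply MeasureTheory.lintegral_add_left
        obtain ⟨c1, c2⟩ := hc h1 hd1
        exact (c1.sub c2).enorm.measurable.mul (c1.add c2).enorm.measurable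
    _ ≤ _ := by
        refine add_le_add ((hCS h1 hd1).trans ?_) ((hCS h2 hd2).trans ?_)
        · exact mul_le_mul' (ENNReal.rpow_le_rpow (he1 ρ hρ r hr).1 (by norm_num))
            (ENNReal.rpow_le_rpow (he1 ρ hρ r hr).2 (by norm_num))
        · exact mul_le_mul' (ENNReal.rpow_le_rpow (he2 ρ hρ r hr).1 (by norm_num))
            (ENNReal.rpow_le_rpow (he2 ρ hρ r hr).2 (by norm_num))

end Pool.Agent.Helper655.BD.K8
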