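import Mathlib
import Pool.Agent.Helper655.BDDefs
import Pool.Agent.Helper655.BDK3
import Pool.Agent.Helper655.BDK4
import Pool.Agent.Helper655.BDK8

set_option autoImplicit false
open Finset

namespace Pool.Agent.Helper655.BD.K9

open Pool.Agent.Helper655.BD.K3 (FF_diff)
open Pool.Agent.Helper655.BD.K4 (tor_slice GG_slice)
open Pool.Agent.Helper655.BD.K8 (h1_dilation)





open MeasureTheory in
lemma aux_ee_norm (t : ℝ) : ‖ee t‖ = 1 := by
  rw [ee]; exact Complex.norm_exp_ofReal_mul_I t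

lemma aux_ee_cont : Continuous ee := by
  unfold ee; fun_prop

noncomputable def PK (r R s θ : ℝ) : ℝ := (R ^ 2 - r ^ 2) / ‖(R : ℂ) * ee θ - r * ee s‖ ^ 2

lemma PK_symm (r R s θ : ℝ) : PK r R s θ = PK r R θ s := by
  unfold PK
  have h : ‖(R : ℂ) * ee θ - r * ee s‖ = ‖(R : ℂ) * ee s - r * ee θ‖ := by
    have h1 : ∀ x : ℝ, (starRingEnd ℂ) (ee x) = ee (-x) := by
      intro x
      rw [ee, ee, ← Complex.exp_conj]
      simp
    have h2 : ∀ x y : ℝ, ee (x + y) = ee x * ee y := by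
      intro x y
      rw [ee, ee, ee, ← Complex.exp_add]
      push_cast; ring_nf
    have h3 : (R : ℂ) * ee θ - r * ee s = ee (θ + s) * (starRingEnd ℂ) ((R : ℂ) * ee s - r * ee θ) := by
      rw [map_sub, map_mul, map_mul, h1, h1, Complex.conj_ofReal, Complex.conj_ofReal, h2]
      have h4 : ee s * ee (-s) = 1 := by rw [← h2]; simp [ee]
      have h5 : ee θ * ee (-θ) = 1 := by rw [← h2]; simp [ee]
      linear_combination (-(R : ℂ) * ee θ) * h4 + ((r : ℂ) * ee s) * h5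
    rw [h3, norm_mul, aux_ee_norm, one_mul, Complex.norm_conj]
  rw [h]

lemma PK_den {r R : ℝ} (hr : 0 ≤ r) (hrR : r < R) (s θ : ℝ) : 0 < ‖(R : ℂ) * ee θ - r * ee s‖ := by
  have h1 : ‖(R : ℂ) * ee θ‖ = R := by
    rw [norm_mul, aux_ee_norm, mul_one, Complex.norm_real, Real.norm_of_nonneg (by linarith)]
  have h2 : ‖(r : ℂ) * ee s‖ = r := by
    rw [norm_mul, aux_ee_norm, mul_one, Complex.norm_real, Real.norm_of_nonneg hr]
  have h3 := norm_sub_norm_le ((R : ℂ) * ee θ) (r * ee s)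
  rw [h1, h2] at h3
  linarith

lemma PK_pos {r R : ℝ} (hr : 0 ≤ r) (hrR : r < R) (s θ : ℝ) : 0 ≤ PK r R s θ := by
  unfold PK
  apply div_nonneg
  · nlinarith
  · positivity

lemma PK_cont {r R : ℝ} (hr : 0 ≤ r) (hrR : r < R) : Continuous fun x : ℝ × ℝ => PK r R x.1 x.2 := by
  unfold PK
  have := aux_ee_cont
  apply Continuous.div (by fun_prop)
  · exact Continuous.pow (Continuous.norm (by fun_prop)) 2
  · intro x
    have := PK_den hr hrR x.1 x.2
    positivity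

lemma poisson_formula {f : ℂ → ℂ} {r R : ℝ} (hr : 0 ≤ r) (hrR : r < R)
    (hf : DiffContOnCl ℂ f (Metric.ball 0 R)) (s : ℝ) :
    ((2 * Real.pi)⁻¹ : ℝ) • ∫ θ in (0:ℝ)..2 * Real.pi, (PK r R s θ : ℂ) * f (R * ee θ) =
      f (r * ee s) := by
  have hw : (r * ee s : ℂ) ∈ Metric.ball (0 : ℂ) R := by
    rw [mem_ball_zero_iff, norm_mul, aux_ee_norm, mul_one, Complex.norm_real,
      Real.norm_of_nonneg hr]
    exact hrR
  have h := hf.circleAverage_poissonKernel_smul' hw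
  rw [Real.circleAverage_def] at h
  rw [← h]
  congr 1
  apply intervalIntegral.integral_congr
  intro θ _
  simp only [circleMap, sub_zero, zero_add]
  have h1 : ‖(R : ℂ) * Complex.exp (θ * Complex.I)‖ = R := by
    rw [norm_mul, Complex.norm_exp_ofReal_mul_I, mul_one, Complex.norm_real,
      Real.norm_of_nonneg (by linarith)]
  have h2 : ‖(r : ℂ) * ee s‖ = r := by
    rw [norm_mul, aux_ee_norm, mul_one, Complex.norm_real, Real.norm_of_nonneg hr]
  rw [h1, h2, PK, ee, Complex.real_smul]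

lemma PK_int {r R : ℝ} (hr : 0 ≤ r) (hrR : r < R) (s : ℝ) :
    ∫⁻ θ in Set.Ioc (0:ℝ) (2 * Real.pi), ENNReal.ofReal (PK r R s θ) =
      ENNReal.ofReal (2 * Real.pi) := by
  have hc : Continuous fun θ => PK r R s θ := by
    have h0 : Continuous fun θ : ℝ => ((s, θ) : ℝ × ℝ) := by fun_prop
    have h9 := (PK_cont hr hrR).comp h0
    simp only [Function.comp_def] at h9
    exact h9
  have h1 := poisson_formula hr hrR (f := fun _ => (1 : ℂ)) (diffContOnCl_const) s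
  have h2 : ∫ θ in (0:ℝ)..2 * Real.pi, PK r R s θ = 2 * Real.pi := by
    simp only [mul_one] at h1
    rw [intervalIntegral.integral_ofReal, Complex.real_smul, ← Complex.ofReal_mul] at h1
    have h3 : (2 * Real.pi)⁻¹ * ∫ θ in (0:ℝ)..2 * Real.pi, PK r R s θ = 1 := by exact_mod_cast h1
    have hpi := Real.pi_pos
    field_simp at h3
    linarith
  have hint : MeasureTheory.Integrable (PK r R s)
      (MeasureTheory.volume.restrict (Set.Ioc 0 (2 * Real.pi))) :=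
    (hc.integrableOn_Icc (μ := MeasureTheory.volume)).mono_set Set.Ioc_subset_Icc_self
  have hnn : 0 ≤ᵐ[MeasureTheory.volume.restrict (Set.Ioc 0 (2 * Real.pi))] PK r R s :=
    Filter.Eventually.of_forall fun θ => PK_pos hr hrR s θ
  rw [intervalIntegral.integral_of_le (by positivity)] at h2
  have h5 := MeasureTheory.ofReal_integral_eq_lintegral_ofReal hint hnn
  rw [h2] at h5
  exact h5.symm

open MeasureTheory in
lemma circle_mean_mono {f : ℂ → ℂ} (hf : DifferentiableOn ℂ f (Metric.ball 0 1)) {r R : ℝ}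
    (hr : 0 ≤ r) (hrR : r < R) (hR : R < 1) :
    ∫⁻ s in Set.Ioc (0:ℝ) (2 * Real.pi), ‖f (r * ee s)‖ₑ ≤
      ∫⁻ s in Set.Ioc (0:ℝ) (2 * Real.pi), ‖f (R * ee s)‖ₑ := by
  have hpi := Real.pi_pos
  have hRpos : 0 < R := by linarith
  have hcl : closure (Metric.ball (0:ℂ) R) ⊆ Metric.ball 0 1 := by
    rw [closure_ball _ hRpos.ne']
    exact Metric.closedBall_subset_ball hR
  have hdc : DiffContOnCl ℂ f (Metric.ball 0 R) :=
    (hf.mono hcl).diffContOnCl
  have hfc : Continuous fun θ : ℝ => f (R * ee θ) := by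
    have h1 : Continuous fun θ : ℝ => (R : ℂ) * ee θ := by
      have := aux_ee_cont; fun_prop
    apply hf.continuousOn.comp_continuous h1
    intro θ
    rw [mem_ball_zero_iff, norm_mul, aux_ee_norm, mul_one, Complex.norm_real,
      Real.norm_of_nonneg hRpos.le]
    exact hR
  have hPK := PK_cont hr hrR
  have hb : ∀ s, ‖f (r * ee s)‖ₑ ≤ ENNReal.ofReal ((2 * Real.pi)⁻¹) *
      ∫⁻ θ in Set.Ioc (0:ℝ) (2 * Real.pi), ENNReal.ofReal (PK r R s θ) * ‖f (R * ee θ)‖ₑ := by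
    intro s
    rw [← poisson_formula hr hrR hdc s, enorm_smul, Real.enorm_of_nonneg (by positivity)]
    gcongr
    rw [intervalIntegral.integral_of_le (by positivity)]
    refine (enorm_integral_le_lintegral_enorm _).trans (le_of_eq ?_)
    apply lintegral_congr
    intro θ
    rw [enorm_mul]
    congr 1
    rw [← Real.enorm_of_nonneg (PK_pos hr hrR s θ)]
    simp [enorm, Complex.nnnorm_real]
  have hm : Measurable fun x : ℝ × ℝ => ENNReal.ofReal (PK r R x.1 x.2) * ‖f (R * ee x.2)‖ₑ := by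
    have m1 : Measurable fun x : ℝ × ℝ => ENNReal.ofReal (PK r R x.1 x.2) :=
      hPK.measurable.ennreal_ofReal
    have m2 : Measurable fun x : ℝ × ℝ => ‖f (R * ee x.2)‖ₑ :=
      (hfc.comp continuous_snd).measurable.enorm
    exact m1.mul m2
  calc ∫⁻ s in Set.Ioc (0:ℝ) (2 * Real.pi), ‖f (r * ee s)‖ₑ
      ≤ ∫⁻ s in Set.Ioc (0:ℝ) (2 * Real.pi), ENNReal.ofReal ((2 * Real.pi)⁻¹) *
      ∫⁻ θ in Set.Ioc (0:ℝ) (2 * Real.pi), ENNReal.ofReal (PK r R s θ) * ‖f (R * ee θ)‖ₑ :=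
        lintegral_mono fun s => hb s
    _ = ENNReal.ofReal ((2 * Real.pi)⁻¹) * ∫⁻ s in Set.Ioc (0:ℝ) (2 * Real.pi),
      ∫⁻ θ in Set.Ioc (0:ℝ) (2 * Real.pi), ENNReal.ofReal (PK r R s θ) * ‖f (R * ee θ)‖ₑ := by
        rw [lintegral_const_mul]
        exact Measurable.lintegral_prod_right' hm
    _ = ENNReal.ofReal ((2 * Real.pi)⁻¹) * ∫⁻ θ in Set.Ioc (0:ℝ) (2 * Real.pi),
      ∫⁻ s in Set.Ioc (0:ℝ) (2 * Real.pi), ENNReal.ofReal (PK r R s θ) * ‖f (R * ee θ)‖ₑ := by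
        rw [lintegral_lintegral_swap]
        exact hm.aemeasurable
    _ = ENNReal.ofReal ((2 * Real.pi)⁻¹) * ∫⁻ θ in Set.Ioc (0:ℝ) (2 * Real.pi),
      ENNReal.ofReal (2 * Real.pi) * ‖f (R * ee θ)‖ₑ := by
        congr 1
        apply lintegral_congr
        intro θ
        rw [lintegral_mul_const]
        · congr 1
          rw [← PK_int hr hrR θ]
          apply lintegral_congr
          intro s
          rw [PK_symm]
        · have h0 : Continuous fun s : ℝ => ((s, θ) : ℝ × ℝ) := by fun_prop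
          have h9 := hPK.comp h0
          simp only [Function.comp_def] at h9
          exact h9.measurable.ennreal_ofReal
    _ = ∫⁻ s in Set.Ioc (0:ℝ) (2 * Real.pi), ‖f (R * ee s)‖ₑ := by
        rw [lintegral_const_mul _ hfc.measurable.enorm, ← mul_assoc, ← ENNReal.ofReal_mul (by positivity),
          inv_mul_cancel₀ (by positivity), ENNReal.ofReal_one, one_mul]

/-- radii tending to one -/
noncomputable def rn (n : ℕ) : ℝ := 1 - 1 / ((n : ℝ) + 2)

lemma rn_mem (n : ℕ) : 0 < rn n ∧ rn n < 1 := by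
  unfold rn
  have h : (0 : ℝ) < (n : ℝ) + 2 := by positivity
  constructor
  · rw [sub_pos, div_lt_one h]; have : (0:ℝ) ≤ n := Nat.cast_nonneg n; linarith
  · have : 0 < 1 / ((n : ℝ) + 2) := by positivity
    linarith

lemma rn_mono : StrictMono rn := by
  apply strictMono_nat_of_lt_succ
  intro n
  unfold rn
  have h : (0 : ℝ) < (n : ℝ) + 2 := by positivity
  have : 1 / (((n + 1 : ℕ) : ℝ) + 2) < 1 / ((n : ℝ) + 2) := by
    apply one_div_lt_one_div_of_lt h
    push_cast; linarith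
  linarith

lemma rn_lim : Filter.Tendsto rn Filter.atTop (nhdsWithin 1 (Set.Iio 1)) := by
  rw [tendsto_nhdsWithin_iff]
  refine ⟨?_, Filter.Eventually.of_forall fun n => (rn_mem n).2⟩
  have h1 : Filter.Tendsto (fun n : ℕ => 1 / ((n : ℝ) + 2)) Filter.atTop (nhds 0) := by
    apply Filter.Tendsto.div_atTop tendsto_const_nhds
    exact Filter.tendsto_atTop_add_const_right _ _ tendsto_natCast_atTop_atTop
  have := (tendsto_const_nhds (x := (1:ℝ))).sub h1
  rw [sub_zero] at this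
  exact this

open MeasureTheory in
lemma circle_sup {f : ℂ → ℂ} (hf : DifferentiableOn ℂ f (Metric.ball 0 1)) :
    (⨆ r ∈ Set.Ioo (0:ℝ) 1, ∫⁻ s in Set.Ioc (0:ℝ) (2 * Real.pi), ‖f (r * ee s)‖ₑ) =
      ⨆ n : ℕ, ∫⁻ s in Set.Ioc (0:ℝ) (2 * Real.pi), ‖f (rn n * ee s)‖ₑ := by
  apply le_antisymm
  · refine iSup₂_le fun r hr => ?_
    have h1 := (tendsto_nhdsWithin_iff.mp rn_lim).1
    obtain ⟨n, hn⟩ := (h1.eventually (lt_mem_nhds hr.2)).exists
    exact (circle_mean_mono hf hr.1.le hn (rn_mem n).2).trans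
      (le_iSup (fun n : ℕ => ∫⁻ s in Set.Ioc (0:ℝ) (2 * Real.pi), ‖f (rn n * ee s)‖ₑ) n)
  · refine iSup_le fun n => ?_
    exact le_iSup₂ (f := fun r (_ : r ∈ Set.Ioo (0:ℝ) 1) =>
      ∫⁻ s in Set.Ioc (0:ℝ) (2 * Real.pi), ‖f (r * ee s)‖ₑ) (rn n) (rn_mem n)

open MeasureTheory in
/-- TARGET: dilations converge in H^1 of the bidisc -/
theorem h1_dilation2 (g : ℂ × ℂ → ℂ) (hg : DifferentiableOn ℂ g (Metric.ball (0 : ℂ × ℂ) 1))
    (hN : HN 1 g < ⊤) (ε : ENNReal) (hε : 0 < ε) :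
    ∃ ρ : ℝ, 0 < ρ ∧ ρ < 1 ∧ HN 1 (fun z => g z - g ((ρ : ℂ) • z)) < ε := by
  have hee := aux_ee_cont
  -- slices
  have hslm : ∀ t : ℝ, ∀ x ∈ Metric.ball (0:ℂ) 1, (x, x * ee t) ∈ Metric.ball (0 : ℂ × ℂ) 1 := by
    intro t x hx
    rw [mem_ball_zero_iff] at hx ⊢
    rw [Prod.norm_def]
    simp only [norm_mul, aux_ee_norm, mul_one, max_self]
    exact hx
  have hsl : ∀ t : ℝ, DifferentiableOn ℂ (fun x : ℂ => g (x, x * ee t)) (Metric.ball 0 1) := by
    intro t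
    apply hg.comp (t := Metric.ball (0 : ℂ × ℂ) 1)
    · fun_prop
    · intro x hx; exact hslm t x hx
  -- continuity
  have hcont : ∀ r : ℝ, 0 ≤ r → r < 1 →
      Continuous fun x : ℝ × ℝ => g ((r:ℂ) * ee x.2, (r:ℂ) * ee x.2 * ee x.1) := by
    intro r hr0 hr1
    apply hg.continuousOn.comp_continuous (by fun_prop)
    intro x
    apply hslm
    rw [mem_ball_zero_iff, norm_mul, aux_ee_norm, mul_one, Complex.norm_real,
      Real.norm_of_nonneg hr0]
    exact hr1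
  have hcont2 : ∀ r : ℝ, 0 ≤ r → r < 1 →
      Continuous fun x : ℝ × ℝ => g ((r:ℂ) * ee x.1, (r:ℂ) * ee x.2) := by
    intro r hr0 hr1
    apply hg.continuousOn.comp_continuous (by fun_prop)
    intro x
    rw [mem_ball_zero_iff, Prod.norm_def]
    simp only [norm_mul, aux_ee_norm, mul_one, max_self, Complex.norm_real,
      Real.norm_of_nonneg hr0]
    exact hr1
  -- the maximal functions
  set I : ℝ → ℝ → ENNReal := fun r t => ∫⁻ s in Set.Ioc (0:ℝ) (2 * Real.pi),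
    ‖g ((r:ℂ) * ee s, (r:ℂ) * ee s * ee t)‖ₑ with hI
  set N : ℝ → ENNReal := fun t => ⨆ r ∈ Set.Ioo (0:ℝ) 1, I r t with hNdef
  have hIm : ∀ r : ℝ, 0 ≤ r → r < 1 → Measurable (I r) := by
    intro r hr0 hr1
    exact Measurable.lintegral_prod_right' (hcont r hr0 hr1).measurable.enorm
  have hItor : ∀ r : ℝ, 0 < r → r < 1 → ∫⁻ t in Set.Ioc (0:ℝ) (2 * Real.pi), I r t = tor 1 r g := by
    intro r hr0 hr1
    rw [tor_slice 1 r zero_le_one g (hcont2 r hr0.le hr1)]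
    simp only [ENNReal.rpow_one]
    rfl
  have hNsup : N = fun t => ⨆ n : ℕ, I (rn n) t := by
    funext t
    exact circle_sup (hsl t)
  have hNm : Measurable N := by
    rw [hNsup]
    exact Measurable.iSup fun n => hIm _ (rn_mem n).1.le (rn_mem n).2
  have hNint : ∫⁻ t in Set.Ioc (0:ℝ) (2 * Real.pi), N t ≤ HN 1 g := by
    rw [hNsup, lintegral_iSup (fun n => hIm _ (rn_mem n).1.le (rn_mem n).2)]
    · refine iSup_le fun n => ?_
      rw [hItor _ (rn_mem n).1 (rn_mem n).2]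
      exact le_iSup₂ (f := fun r (_ : r ∈ Set.Ioo (0:ℝ) 1) => tor 1 r g) (rn n) (rn_mem n)
    · intro n m hnm t
      rcases hnm.eq_or_lt with h | h
      · rw [h]
      · exact circle_mean_mono (hsl t) (rn_mem n).1.le (rn_mono h) (rn_mem m).2
  have hNfin : ∀ᵐ t ∂(volume.restrict (Set.Ioc (0:ℝ) (2 * Real.pi))), N t < ⊤ :=
    ae_lt_top hNm (hNint.trans_lt hN).ne
  -- differences
  set J : ℝ → ℝ → ℝ → ENNReal := fun ρ r t => ∫⁻ s in Set.Ioc (0:ℝ) (2 * Real.pi),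
    ‖g ((r:ℂ) * ee s, (r:ℂ) * ee s * ee t) -
      g ((ρ:ℂ) * ((r:ℂ) * ee s), (ρ:ℂ) * ((r:ℂ) * ee s) * ee t)‖ₑ with hJ
  set D : ℝ → ℝ → ENNReal := fun ρ t => ⨆ r ∈ Set.Ioo (0:ℝ) 1, J ρ r t with hD
  have hdil : ∀ ρ : ℝ, 0 < ρ → ρ < 1 → ∀ x ∈ Metric.ball (0:ℂ) 1, (ρ:ℂ) * x ∈ Metric.ball (0:ℂ) 1 := by
    intro ρ h0 h1 x hx
    rw [mem_ball_zero_iff] at hx ⊢
    rw [norm_mul, Complex.norm_real, Real.norm_of_nonneg h0.le]
    nlinarith [norm_nonneg x]
  have hsl2 : ∀ ρ : ℝ, 0 < ρ → ρ < 1 → ∀ t : ℝ, DifferentiableOn ℂ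
      (fun x : ℂ => g (x, x * ee t) - g ((ρ:ℂ) * x, (ρ:ℂ) * x * ee t)) (Metric.ball 0 1) := by
    intro ρ h0 h1 t
    apply (hsl t).sub
    exact (hsl t).comp (t := Metric.ball (0:ℂ) 1) (f := fun x : ℂ => (ρ:ℂ) * x) (by fun_prop)
      (fun x hx => hdil ρ h0 h1 x hx)
  have hDsup : ∀ ρ : ℝ, 0 < ρ → ρ < 1 → D ρ = fun t => ⨆ n : ℕ, J ρ (rn n) t := by
    intro ρ h0 h1
    funext t
    exact circle_sup (hsl2 ρ h0 h1 t)
  have hJm : ∀ ρ r : ℝ, 0 < ρ → ρ < 1 → 0 ≤ r → r < 1 → Measurable (J ρ r) := by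
    intro ρ r h0 h1 h2 h3
    have hc1 := hcont r h2 h3
    have hc2 := hcont (ρ * r) (by positivity) (by nlinarith)
    have hc3 : Continuous fun x : ℝ × ℝ => g ((r:ℂ) * ee x.2, (r:ℂ) * ee x.2 * ee x.1) -
      g ((ρ:ℂ) * ((r:ℂ) * ee x.2), (ρ:ℂ) * ((r:ℂ) * ee x.2) * ee x.1) := by
      apply hc1.sub
      convert hc2 using 3 with x
      push_cast; ring_nf
    exact Measurable.lintegral_prod_right' hc3.measurable.enorm
  have hDm : ∀ ρ : ℝ, 0 < ρ → ρ < 1 → Measurable (D ρ) := by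
    intro ρ h0 h1
    rw [hDsup ρ h0 h1]
    exact Measurable.iSup fun n => hJm ρ _ h0 h1 (rn_mem n).1.le (rn_mem n).2
  have hDN : ∀ ρ : ℝ, 0 < ρ → ρ < 1 → ∀ t, D ρ t ≤ 2 * N t := by
    intro ρ h0 h1 t
    refine iSup₂_le fun r hr => ?_
    have hrr : ρ * r ∈ Set.Ioo (0:ℝ) 1 := ⟨mul_pos h0 hr.1, by nlinarith [hr.1, hr.2]⟩
    have e1 : I r t ≤ N t := le_iSup₂ (f := fun r (_ : r ∈ Set.Ioo (0:ℝ) 1) => I r t) r hr
    have e2 : I (ρ * r) t ≤ N t := le_iSup₂ (f := fun r (_ : r ∈ Set.Ioo (0:ℝ) 1) => I r t) (ρ * r) hrr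
    have e3 : J ρ r t ≤ I r t + I (ρ * r) t := by
      have hm1 : Measurable fun s : ℝ => ‖g ((r:ℂ) * ee s, (r:ℂ) * ee s * ee t)‖ₑ :=
        ((hcont r hr.1.le hr.2).comp (by fun_prop : Continuous fun s : ℝ => (t, s))).measurable.enorm
      simp only [hI, hJ]
      rw [← lintegral_add_left hm1]
      apply lintegral_mono
      intro s
      refine (enorm_sub_le).trans (le_of_eq ?_)
      congr 2
      push_cast; ring_nf
    rw [two_mul]
    exact e3.trans (add_le_add e1 e2)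
  have hlim : ∀ᵐ t ∂(volume.restrict (Set.Ioc (0:ℝ) (2 * Real.pi))),
      Filter.Tendsto (fun n : ℕ => D (rn n) t) Filter.atTop (nhds 0) := by
    filter_upwards [hNfin] with t ht
    have := h1_dilation (fun x : ℂ => g (x, x * ee t)) (hsl t) ht
    exact this.comp rn_lim
  have hdom : Filter.Tendsto (fun n : ℕ => ∫⁻ t in Set.Ioc (0:ℝ) (2 * Real.pi), D (rn n) t)
      Filter.atTop (nhds (∫⁻ t in Set.Ioc (0:ℝ) (2 * Real.pi), 0)) := by
    apply tendsto_lintegral_of_dominated_convergence (fun t => 2 * N t)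
    · intro n; exact hDm _ (rn_mem n).1 (rn_mem n).2
    · intro n; exact Filter.Eventually.of_forall (hDN _ (rn_mem n).1 (rn_mem n).2)
    · rw [lintegral_const_mul _ hNm]
      exact ENNReal.mul_ne_top (by norm_num) (hNint.trans_lt hN).ne
    · exact hlim
  rw [lintegral_zero] at hdom
  obtain ⟨n, hn⟩ := (hdom.eventually (gt_mem_nhds hε)).exists
  refine ⟨rn n, (rn_mem n).1, (rn_mem n).2, lt_of_le_of_lt ?_ hn⟩
  refine iSup₂_le fun r hr => ?_
  have hh0 := (rn_mem n).1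
  have hh1 := (rn_mem n).2
  rw [tor_slice 1 r zero_le_one]
  · simp only [ENNReal.rpow_one]
    apply lintegral_mono
    intro t
    have e1 : J (rn n) r t ≤ D (rn n) t :=
      le_iSup₂ (f := fun r (_ : r ∈ Set.Ioo (0:ℝ) 1) => J (rn n) r t) r hr
    refine le_trans (le_of_eq ?_) e1
    simp only [hJ]
    apply lintegral_congr
    intro s
    congr 3
    simp only [Prod.smul_mk, smul_eq_mul, mul_assoc]
  · apply Continuous.sub (hcont2 r hr.1.le hr.2)
    have := hcont2 (rn n * r) (mul_pos hh0 hr.1).le (by nlinarith [hr.1, hr.2])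
    convert this using 3 with x
    simp only [Prod.smul_mk, smul_eq_mul]
    push_cast; ring_nf

end Pool.Agent.Helper655.BD.K9
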