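import Mathlib
import Pool.Agent.Helper655.BDDefs
import Pool.Agent.Helper655.BDK3
import Pool.Agent.Helper655.BDK5
import Pool.Agent.Helper655.BDK6
import Pool.Agent.Helper655.BDK9
import Pool.Agent.Helper655.BDK10

set_option autoImplicit false
open Finset

namespace Pool.Agent.Helper655.BD.H1

open Pool.Agent.Helper655.BD.K3 (FF_diff)
open Pool.Agent.Helper655.BD.K5 (FF_H2 FF_H1_tail)
open Pool.Agent.Helper655.BD.K6 (exp_approx dil_approx)
open Pool.Agent.Helper655.BD.K9 (h1_dilation2)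
open Pool.Agent.Helper655.BD.K10 (low_fn)

theorem norm_exp_I (t : ℝ) : ‖Complex.exp ((t:ℂ) * Complex.I)‖ = 1 :=
  Complex.norm_exp_ofReal_mul_I t

theorem mem_ball_torus {r : ℝ} (h0 : 0 < r) (h1 : r < 1) (x : ℝ × ℝ) :
    ((r:ℂ) * Complex.exp ((x.1:ℂ) * Complex.I), (r:ℂ) * Complex.exp ((x.2:ℂ) * Complex.I)) ∈
      Metric.ball (0 : ℂ × ℂ) 1 := by
  rw [mem_ball_zero_iff, Prod.norm_def]
  simp only [norm_mul, norm_exp_I, mul_one, Complex.norm_real, Real.norm_eq_abs, abs_of_pos h0]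
  exact max_lt h1 h1

theorem cont_torus {r : ℝ} (h0 : 0 < r) (h1 : r < 1) {F : ℂ × ℂ → ℂ}
    (hF : ContinuousOn F (Metric.ball (0 : ℂ × ℂ) 1)) :
    Continuous fun x : ℝ × ℝ => F ((r:ℂ) * Complex.exp ((x.1:ℂ) * Complex.I),
      (r:ℂ) * Complex.exp ((x.2:ℂ) * Complex.I)) := by
  apply hF.comp_continuous
  · fun_prop
  · intro x
    exact mem_ball_torus h0 h1 x

theorem HN_add {F G : ℂ × ℂ → ℂ} (hF : ContinuousOn F (Metric.ball (0 : ℂ × ℂ) 1)) :
    HN 1 (fun z => F z + G z) ≤ HN 1 F + HN 1 G := by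
  unfold HN
  refine iSup₂_le ?_
  intro r hr
  have h1 : tor 1 r (fun z => F z + G z) ≤ tor 1 r F + tor 1 r G := by
    unfold tor
    rw [← MeasureTheory.lintegral_add_left]
    · apply MeasureTheory.lintegral_mono
      intro x
      simp only [ENNReal.rpow_one]
      exact enorm_add_le _ _
    · simp only [ENNReal.rpow_one]
      exact (cont_torus hr.1 hr.2 hF).measurable.enorm
  refine h1.trans ?_
  exact add_le_add (le_iSup₂ (f := fun r (_ : r ∈ Set.Ioo (0:ℝ) 1) => tor 1 r F) r hr)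
    (le_iSup₂ (f := fun r (_ : r ∈ Set.Ioo (0:ℝ) 1) => tor 1 r G) r hr)

theorem HN_le {F G : ℂ × ℂ → ℂ} {C : ℝ}
    (h : ∀ z ∈ Metric.ball (0 : ℂ × ℂ) 1, ‖F z‖ ≤ C * ‖G z‖) (hC : 0 ≤ C) :
    HN 1 F ≤ ENNReal.ofReal C * HN 1 G := by
  unfold HN
  refine iSup₂_le ?_
  intro r hr
  have h1 : tor 1 r F ≤ ENNReal.ofReal C * tor 1 r G := by
    unfold tor
    rw [← MeasureTheory.lintegral_const_mul' _ _ ENNReal.ofReal_ne_top]
    apply MeasureTheory.lintegral_mono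
    intro x
    simp only [ENNReal.rpow_one]
    rw [← ofReal_norm, ← ofReal_norm, ← ENNReal.ofReal_mul hC]
    exact ENNReal.ofReal_le_ofReal (h _ (mem_ball_torus hr.1 hr.2 x))
  refine h1.trans ?_
  gcongr
  exact le_iSup₂ (f := fun r (_ : r ∈ Set.Ioo (0:ℝ) 1) => tor 1 r G) r hr

theorem HN_one : HN 1 (fun _ => 1) < ⊤ := by
  have h : HN 1 (fun _ => (1:ℂ)) ≤
      MeasureTheory.volume (Set.Icc (0:ℝ) (2 * Real.pi) ×ˢ Set.Icc (0:ℝ) (2 * Real.pi)) := by
    unfold HN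
    refine iSup₂_le ?_
    intro r hr
    unfold tor
    simp
  refine lt_of_le_of_lt h ?_
  rw [MeasureTheory.Measure.volume_eq_prod, MeasureTheory.Measure.prod_prod]
  simp only [Real.volume_Icc]
  exact ENNReal.mul_lt_top ENNReal.ofReal_lt_top ENNReal.ofReal_lt_top

theorem HN1_of_HN2 {F : ℂ × ℂ → ℂ} (hF : HN 2 F < ⊤) : HN 1 F < ⊤ := by
  have h : HN 1 F ≤ HN 1 (fun _ => 1) + HN 2 F := by
    unfold HN
    refine iSup₂_le ?_
    intro r hr
    have h1 : tor 1 r F ≤ tor 1 r (fun _ => 1) + tor 2 r F := by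
      unfold tor
      rw [← MeasureTheory.lintegral_add_left]
      · apply MeasureTheory.lintegral_mono
        intro x
        simp only [ENNReal.rpow_one, enorm_one]
        set y := ‖F ((r:ℂ) * Complex.exp ((x.1:ℂ) * Complex.I),
          (r:ℂ) * Complex.exp ((x.2:ℂ) * Complex.I))‖ₑ with hy
        rcases le_total y 1 with h2 | h2
        · exact h2.trans le_self_add
        · refine le_trans ?_ le_add_self
          calc y = y ^ (1:ℝ) := by rw [ENNReal.rpow_one]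
            _ ≤ y ^ (2:ℝ) := ENNReal.rpow_le_rpow_of_exponent_le h2 (by norm_num)
      · fun_prop
    refine h1.trans ?_
    exact add_le_add (le_iSup₂ (f := fun r (_ : r ∈ Set.Ioo (0:ℝ) 1) => tor 1 r (fun _ => 1)) r hr)
      (le_iSup₂ (f := fun r (_ : r ∈ Set.Ioo (0:ℝ) 1) => tor 2 r F) r hr)
  exact lt_of_le_of_lt h (ENNReal.add_lt_top.2 ⟨HN_one, hF⟩)

theorem poly_cont (P : MvPolynomial (Fin 2) ℂ) :
    Continuous fun z : ℂ × ℂ => MvPolynomial.eval ![z.1, z.2] P := by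
  have h : Continuous fun z : ℂ × ℂ => (![z.1, z.2] : Fin 2 → ℂ) := by
    apply continuous_pi
    intro i
    fin_cases i
    · exact continuous_fst
    · exact continuous_snd
  exact P.continuous_eval.comp h

theorem exists_pos_mul_lt (a ε : ENNReal) (ha : a < ⊤) (hε : 0 < ε) :
    ∃ δ : ℝ, 0 < δ ∧ ENNReal.ofReal δ * a < ε := by
  have h1 : ∃ b : ENNReal, 0 < b ∧ b < ε ∧ b < ⊤ := by
    obtain ⟨b, hb0, hb⟩ := exists_between (lt_min hε ENNReal.zero_lt_top)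
    exact ⟨b, hb0, hb.trans_le (min_le_left _ _), hb.trans_le (min_le_right _ _)⟩
  obtain ⟨b, hb0, hbε, hbt⟩ := h1
  have hb' : 0 < b.toReal := ENNReal.toReal_pos hb0.ne' hbt.ne
  refine ⟨b.toReal / (a.toReal + 1), by positivity, ?_⟩
  have ha' : a = ENNReal.ofReal a.toReal := (ENNReal.ofReal_toReal ha.ne).symm
  rw [ha', ← ENNReal.ofReal_mul (by positivity)]
  refine lt_of_le_of_lt ?_ hbε
  rw [ENNReal.ofReal_le_iff_le_toReal hbt.ne]
  have ha0 : 0 ≤ a.toReal := ENNReal.toReal_nonneg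
  rw [ENNReal.toReal_ofReal ha0, div_mul_eq_mul_div, div_le_iff₀ (by positivity)]
  nlinarith

theorem h1_cyclic {gc : ℕ → ℂ} (hD : Data gc) (g : ℂ × ℂ → ℂ)
    (hg : DifferentiableOn ℂ g (Metric.ball (0 : ℂ × ℂ) 1)) (hN : HN 1 g < ⊤)
    (ε : ENNReal) (hε : 0 < ε) : ∃ P : MvPolynomial (Fin 2) ℂ,
      HN 1 (fun z => MvPolynomial.eval ![z.1, z.2] P * FF gc z - g z) < ε := by
  have hε4 : 0 < ε / 4 := ENNReal.div_pos hε.ne' (by norm_num)
  obtain ⟨ρ, hρ0, hρ1, hρ⟩ := h1_dilation2 g hg hN (ε / 4) hε4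
  obtain ⟨δ1, hδ1, hδ1'⟩ := exists_pos_mul_lt _ (ε / 4) HN_one hε4
  obtain ⟨q, hq⟩ := dil_approx g hg ρ hρ0 hρ1 δ1 hδ1
  -- bound for q
  obtain ⟨B, hB0, hB⟩ : ∃ B : ℝ, 0 < B ∧ ∀ z : ℂ × ℂ, ‖z‖ ≤ 1 →
      ‖MvPolynomial.eval ![z.1, z.2] q‖ ≤ B := by
    obtain ⟨B, hB⟩ := (isCompact_closedBall (0 : ℂ × ℂ) 1).exists_bound_of_continuousOn
      (poly_cont q).continuousOn
    refine ⟨max B 1, lt_max_of_lt_right one_pos, ?_⟩
    intro z hz
    exact (hB z (mem_closedBall_zero_iff.2 hz)).trans (le_max_left _ _)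
  have hBt : ENNReal.ofReal B < ⊤ := ENNReal.ofReal_lt_top
  obtain ⟨δ3, hδ3, hδ3'⟩ := exists_pos_mul_lt _ (ε / 4) hBt hε4
  obtain ⟨k, hk⟩ := FF_H1_tail hD (ENNReal.ofReal δ3) (ENNReal.ofReal_pos.2 hδ3)
  have hFF1 : HN 1 (FF gc) < ⊤ := HN1_of_HN2 (FF_H2 hD)
  obtain ⟨δ2, hδ2, hδ2'⟩ := exists_pos_mul_lt _ (ε / 4) (ENNReal.mul_lt_top hBt hFF1) hε4
  obtain ⟨P0, hP0⟩ := exp_approx gc k δ2 hδ2
  refine ⟨P0 * q, ?_⟩
  have hFFc : ContinuousOn (FF gc) (Metric.ball (0 : ℂ × ℂ) 1) := (FF_diff hD).continuousOn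
  have hGk : Continuous (GGk gc k) := by
    unfold GGk
    fun_prop
  set T1 : ℂ × ℂ → ℂ := fun z => (MvPolynomial.eval ![z.1, z.2] P0 - Complex.exp (- GGk gc k z)) *
    MvPolynomial.eval ![z.1, z.2] q * FF gc z with hT1
  set T2 : ℂ × ℂ → ℂ := fun z => MvPolynomial.eval ![z.1, z.2] q *
    (Complex.exp (- GGk gc k z) * FF gc z - 1) with hT2
  set T3 : ℂ × ℂ → ℂ := fun z => MvPolynomial.eval ![z.1, z.2] q - g ((ρ:ℂ) • z) with hT3
  set T4 : ℂ × ℂ → ℂ := fun z => g ((ρ:ℂ) • z) - g z with hT4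
  have hball : ∀ z ∈ Metric.ball (0 : ℂ × ℂ) 1, ‖z‖ ≤ 1 := fun z hz =>
    (mem_ball_zero_iff.1 hz).le
  have hT1c : ContinuousOn T1 (Metric.ball (0 : ℂ × ℂ) 1) := by
    apply ContinuousOn.mul _ hFFc
    apply Continuous.continuousOn
    exact ((poly_cont P0).sub hGk.neg.cexp).mul (poly_cont q)
  have hT2c : ContinuousOn T2 (Metric.ball (0 : ℂ × ℂ) 1) := by
    apply ContinuousOn.mul (poly_cont q).continuousOn
    apply ContinuousOn.sub _ continuousOn_const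
    exact hGk.neg.cexp.continuousOn.mul hFFc
  have hT3c : ContinuousOn T3 (Metric.ball (0 : ℂ × ℂ) 1) := by
    apply ContinuousOn.sub (poly_cont q).continuousOn
    apply hg.continuousOn.comp (continuous_const_smul _).continuousOn
    intro z hz
    rw [mem_ball_zero_iff] at hz ⊢
    rw [norm_smul, Complex.norm_real, Real.norm_eq_abs, abs_of_pos hρ0]
    nlinarith [norm_nonneg z]
  have e : (fun z : ℂ × ℂ => MvPolynomial.eval ![z.1, z.2] (P0 * q) * FF gc z - g z) =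
      fun z => T1 z + (T2 z + (T3 z + T4 z)) := by
    funext z
    simp only [hT1, hT2, hT3, hT4, map_mul]
    ring
  rw [e]
  have b1 : HN 1 T1 < ε / 4 := by
    refine lt_of_le_of_lt (HN_le (C := δ2 * B) (G := FF gc) ?_ (by positivity)) ?_
    · intro z hz
      simp only [hT1]
      rw [norm_mul, norm_mul]
      gcongr
      · rw [norm_sub_rev]
        exact hP0 z (hball z hz)
      · exact hB z (hball z hz)
    · rw [ENNReal.ofReal_mul hδ2.le, mul_assoc]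
      exact hδ2'
  have b2 : HN 1 T2 < ε / 4 := by
    refine lt_of_le_of_lt (HN_le (C := B)
      (G := fun z => Complex.exp (- GGk gc k z) * FF gc z - 1) ?_ hB0.le) ?_
    · intro z hz
      simp only [hT2]
      rw [norm_mul]
      gcongr
      exact hB z (hball z hz)
    · refine lt_of_le_of_lt ?_ hδ3'
      rw [mul_comm]
      gcongr
  have b3 : HN 1 T3 < ε / 4 := by
    refine lt_of_le_of_lt (HN_le (C := δ1) (G := fun _ => 1) ?_ hδ1.le) hδ1'
    intro z hz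
    simp only [hT3, norm_one, mul_one]
    rw [norm_sub_rev]
    exact hq z (hball z hz)
  have b4 : HN 1 T4 < ε / 4 := by
    refine lt_of_le_of_lt (HN_le (C := 1) (G := fun z => g z - g ((ρ:ℂ) • z)) ?_ zero_le_one) ?_
    · intro z _
      simp only [hT4, one_mul]
      rw [norm_sub_rev]
    · rw [ENNReal.ofReal_one, one_mul]
      exact hρ
  calc HN 1 (fun z => T1 z + (T2 z + (T3 z + T4 z)))
      ≤ HN 1 T1 + HN 1 (fun z => T2 z + (T3 z + T4 z)) := HN_add hT1c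
    _ ≤ HN 1 T1 + (HN 1 T2 + HN 1 (fun z => T3 z + T4 z)) := by
        gcongr
        exact HN_add hT2c
    _ ≤ HN 1 T1 + (HN 1 T2 + (HN 1 T3 + HN 1 T4)) := by
        gcongr
        exact HN_add hT3c
    _ < ε / 4 + (ε / 4 + (ε / 4 + ε / 4)) :=
        ENNReal.add_lt_add b1 (ENNReal.add_lt_add b2 (ENNReal.add_lt_add b3 b4))
    _ = ε := by
        have h4 : ε / 4 = ε * 4⁻¹ := rfl
        rw [h4, ← mul_add, ← mul_add, ← mul_add]
        have : (4⁻¹ + (4⁻¹ + (4⁻¹ + 4⁻¹)) : ENNReal) = 1 := by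
          have h5 : (4⁻¹ + (4⁻¹ + (4⁻¹ + 4⁻¹)) : ENNReal) = 4 * 4⁻¹ := by ring
          rw [h5]
          exact ENNReal.mul_inv_cancel (by norm_num) (by norm_num)
        rw [this, mul_one]

end Pool.Agent.Helper655.BD.H1
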