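import Mathlib
import Pool.Agent.Helper655.BDDefs
import Pool.Agent.Helper655.BDJ5
import Pool.Agent.Helper655.BDJ6
import Pool.Agent.Helper655.BDJ7
import Pool.Agent.Helper655.BDJ8
import Pool.Agent.Helper655.BDJ9
import Pool.Agent.Helper655.BDJ10

set_option autoImplicit false
open Finset

namespace Pool.Agent.Helper655.BD.K1

open Pool.Agent.Helper655.BD.J6 (expSeq_succ expSeq_add expSeq_map expSeq_natDegree)
open Pool.Agent.Helper655.BD.J7 (expSeq_hasSum)
open Pool.Agent.Helper655.BD.J8 (bessel_bdd parseval)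
open Pool.Agent.Helper655.BD.J9 (slice Th_int)
open Pool.Agent.Helper655.BD.J10 (tail_sum re_slice slice_close slice_bound)














theorem MM_pos' (k : ℕ) : 0 < MM k := by unfold MM; positivity

theorem dd_succ_le (k : ℕ) : dd (k + 1) ≤ (1 / 2) ^ k := by
  show (2:ℝ) ^ 5 / 2 ^ (nn (k + 1) + 5 * (k + 2) ^ 2) ≤ (1 / 2) ^ k
  have h1 : (2:ℝ) ^ (5 + k) ≤ 2 ^ (nn (k + 1) + 5 * (k + 2) ^ 2) := by
    apply pow_le_pow_right₀ (by norm_num)
    have : 5 + k ≤ 5 * (k + 2) ^ 2 := by nlinarith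
    omega
  calc (2:ℝ) ^ 5 / 2 ^ (nn (k + 1) + 5 * (k + 2) ^ 2) ≤ 2 ^ 5 / 2 ^ (5 + k) :=
        div_le_div_of_nonneg_left (by norm_num) (by positivity) h1
    _ = (1 / 2) ^ k := by
        rw [pow_add, one_div, inv_pow]
        field_simp

theorem dd_pos (k : ℕ) : 0 < dd k := by
  cases k with
  | zero => show (0:ℝ) < 3; norm_num
  | succ k => show (0:ℝ) < 2 ^ 5 / 2 ^ (nn (k + 1) + 5 * (k + 2) ^ 2); positivity

theorem dd_anti : Antitone dd := by
  apply antitone_nat_of_succ_le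
  intro k
  cases k with
  | zero =>
    have := dd_succ_le 0
    show dd (0 + 1) ≤ 3
    rw [pow_zero] at this
    linarith
  | succ k =>
    show (2:ℝ) ^ 5 / 2 ^ (nn (k + 1 + 1) + 5 * (k + 1 + 2) ^ 2) ≤
      2 ^ 5 / 2 ^ (nn (k + 1) + 5 * (k + 2) ^ 2)
    apply div_le_div_of_nonneg_left (by norm_num) (by positivity)
    apply pow_le_pow_right₀ (by norm_num)
    have h1 : nn (k + 1) ≤ nn (k + 1 + 1) := by
      unfold nn
      exact Nat.pow_le_pow_right (by norm_num) (by omega)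
    have h2 : 5 * (k + 2) ^ 2 ≤ 5 * (k + 1 + 2) ^ 2 :=
      Nat.mul_le_mul_left _ (Nat.pow_le_pow_left (by omega) _)
    omega

theorem dd_tendsto : Filter.Tendsto (fun k => dd (k + 1)) Filter.atTop (nhds 0) := by
  refine squeeze_zero (fun k => (dd_pos _).le) dd_succ_le ?_
  exact tendsto_pow_atTop_nhds_zero_of_lt_one (by norm_num) (by norm_num)

theorem bb_mono : Monotone bb := by
  apply monotone_nat_of_le_succ
  intro k
  have hlog : 0 ≤ Real.log 2 := Real.log_nonneg (by norm_num)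
  cases k with
  | zero =>
    show (0:ℝ) ≤ nn (0 + 1) * Real.log 2 / 2
    positivity
  | succ k =>
    show (nn (k + 1) : ℝ) * Real.log 2 / 2 ≤ nn (k + 1 + 1) * Real.log 2 / 2
    have h1 : nn (k + 1) ≤ nn (k + 1 + 1) := by
      unfold nn
      exact Nat.pow_le_pow_right (by norm_num) (by omega)
    have h2 : (nn (k + 1) : ℝ) ≤ nn (k + 1 + 1) := by exact_mod_cast h1
    have := mul_le_mul_of_nonneg_right h2 hlog
    linarith

attribute [local irreducible] MM nn

theorem AT_eval (gc : ℕ → ℂ) (k n : ℕ) (w : ℂ) :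
    (AT (1 / 2) gc k n).eval w = if n < MM (k + 1) then 0 else
      (1 / 2) * (gc n / (n + 1) * ∑ j ∈ range (n + 1), w ^ j) := by
  unfold AT
  split_ifs with h
  · simp
  · unfold AA
    rw [Polynomial.eval_mul, Polynomial.eval_C, Polynomial.eval_finsetSum]
    simp only [Polynomial.eval_pow, Polynomial.eval_X]
    ring

theorem expAT_eval (gc : ℕ → ℂ) (k n : ℕ) (w : ℂ) :
    (expSeq (AT (1 / 2) gc k) n).eval w = expSeq (fun n => if n < MM (k + 1) then 0 else
      (1 / 2) * (gc n / (n + 1) * ∑ j ∈ range (n + 1), w ^ j)) n := by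
  have h := expSeq_map (Polynomial.aeval w : Polynomial ℂ →ₐ[ℂ] ℂ) (AT (1 / 2) gc k) n
  rw [Polynomial.coe_aeval_eq_eval] at h
  rw [h]
  refine congrArg (fun A : ℕ → ℂ => expSeq A n) (funext fun m => ?_)
  exact AT_eval gc k m w

theorem inner_le {gc : ℕ → ℂ} (hD : Data gc) (k : ℕ) (w : ℂ) (hw : ‖w‖ = 1) (hw1 : w ≠ 1) (M : ℝ)
    (hM : ∀ x : ℂ, ‖x‖ < 1 → ‖Complex.exp (1 / 2 *
      ((∑' n : ℕ, gc n / (n + 1) * (∑ j ∈ range (n + 1), w ^ j) * x ^ n) -
      ∑ n ∈ range (MM (k + 1)), gc n / (n + 1) * (∑ j ∈ range (n + 1), w ^ j) * x ^ n)) - 1‖ ≤ M) :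
    ∑' n, ENNReal.ofReal (‖(expSeq (AT (1 / 2) gc k) n - if n = 0 then 1 else 0).eval w‖ ^ 2) ≤
      ENNReal.ofReal (M ^ 2) := by
  obtain ⟨B, hB⟩ : ∃ B : ℕ → ℂ, B = fun n => if n < MM (k + 1) then 0 else
      (1 / 2) * (gc n / (n + 1) * ∑ j ∈ range (n + 1), w ^ j) := ⟨_, rfl⟩
  have heval : ∀ n, (expSeq (AT (1 / 2) gc k) n - if n = 0 then 1 else 0).eval w =
      expSeq B n - if n = 0 then 1 else 0 := by
    intro n
    rw [Polynomial.eval_sub, expAT_eval, ← hB]
    split_ifs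
    · rw [Polynomial.eval_one]
    · rw [Polynomial.eval_zero]
  simp only [heval]
  have hB0 : B 0 = 0 := by rw [hB]; exact if_pos (MM_pos' _)
  have hsumB : ∀ x : ℂ, ‖x‖ < 1 → Summable fun n => ‖B n‖ * ‖x‖ ^ n := by
    intro x hx
    have h1 := (slice_close hD w x hw hw1 hx.le).1
    refine Summable.of_nonneg_of_le (fun n => by positivity) (fun n => ?_) h1
    gcongr
    simp only [hB]
    split_ifs
    · rw [norm_zero]; exact norm_nonneg _
    · rw [norm_mul]
      have : ‖(1 / 2 : ℂ)‖ ≤ 1 := by norm_num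
      exact mul_le_of_le_one_left (norm_nonneg _) this
  have hsE := fun x hx => expSeq_hasSum B x hB0 (hsumB x hx)
  have hδ : ∀ x : ℂ, HasSum (fun n : ℕ => (if n = 0 then (1:ℂ) else 0) * x ^ n) 1 := by
    intro x
    have h := hasSum_ite_eq (0:ℕ) (1:ℂ)
    have e : (fun n : ℕ => (if n = 0 then (1:ℂ) else 0) * x ^ n) =
        fun n : ℕ => if n = 0 then (1:ℂ) else 0 := by
      funext n
      split_ifs with hn
      · rw [hn, pow_zero, one_mul]
      · rw [zero_mul]
    rw [e]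
    exact h
  refine bessel_bdd _ M ?_ ?_
  · intro r hr0 hr1
    have hx : ‖(r : ℂ)‖ < 1 := by rw [Complex.norm_real, Real.norm_of_nonneg hr0]; exact hr1
    have h1 := (hsE _ hx).1
    rw [Complex.norm_real, Real.norm_of_nonneg hr0] at h1
    have h2 : Summable fun n : ℕ => ‖(if n = 0 then (1:ℂ) else 0)‖ * r ^ n := by
      apply summable_of_ne_finset_zero (s := {0})
      intro n hn
      have : n ≠ 0 := by simpa using hn
      simp [this]
    refine Summable.of_nonneg_of_le (fun n => by positivity) (fun n => ?_) (h1.add h2)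
    rw [← add_mul]
    gcongr
    exact norm_sub_le _ _
  · intro x hx
    have h1 := (hsE x hx).2
    have h2 := h1.sub (hδ x)
    have h3 : (fun n => expSeq B n * x ^ n - (if n = 0 then (1:ℂ) else 0) * x ^ n) =
        fun n => (expSeq B n - if n = 0 then 1 else 0) * x ^ n := by
      funext n; ring
    rw [h3] at h2
    rw [h2.tsum_eq]
    have h4 : ∑' n, B n * x ^ n = 1 / 2 *
      ((∑' n : ℕ, gc n / (n + 1) * (∑ j ∈ range (n + 1), w ^ j) * x ^ n) -
      ∑ n ∈ range (MM (k + 1)), gc n / (n + 1) * (∑ j ∈ range (n + 1), w ^ j) * x ^ n) := by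
      have hs : Summable fun n : ℕ => gc n / (n + 1) * (∑ j ∈ range (n + 1), w ^ j) * x ^ n := by
        refine Summable.of_norm ?_
        have := (slice_close hD w x hw hw1 hx.le).1
        simpa [norm_mul, norm_pow] using this
      have hfin : HasSum (fun n : ℕ => if n < MM (k + 1) then
          gc n / (n + 1) * (∑ j ∈ range (n + 1), w ^ j) * x ^ n else 0)
          (∑ n ∈ range (MM (k + 1)), gc n / (n + 1) * (∑ j ∈ range (n + 1), w ^ j) * x ^ n) := by
        have h5 := hasSum_sum_of_ne_finset_zero (L := SummationFilter.unconditional ℕ)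
          (f := fun n : ℕ => if n < MM (k + 1) then
          gc n / (n + 1) * (∑ j ∈ range (n + 1), w ^ j) * x ^ n else 0)
          (s := range (MM (k + 1))) (by
            intro n hn
            rw [Finset.mem_range] at hn
            simp [hn])
        have h6 : ∑ n ∈ range (MM (k + 1)), (if n < MM (k + 1) then
          gc n / (n + 1) * (∑ j ∈ range (n + 1), w ^ j) * x ^ n else 0) =
          ∑ n ∈ range (MM (k + 1)), gc n / (n + 1) * (∑ j ∈ range (n + 1), w ^ j) * x ^ n := by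
          apply Finset.sum_congr rfl
          intro n hn
          rw [Finset.mem_range] at hn
          simp [hn]
        rw [h6] at h5
        exact h5
      have h7 := (hs.hasSum.sub hfin).mul_left (1 / 2 : ℂ)
      rw [← h7.tsum_eq]
      apply tsum_congr
      intro n
      simp only [hB]
      split_ifs <;> ring
    rw [h4]
    exact hM x hx

theorem exists_level (s : ℝ) (h0 : 0 < s) (h3 : s < 3) : ∃ j : ℕ, s < dd j ∧ dd (j + 1) ≤ s := by
  classical
  have hex : ∃ m, dd (m + 1) ≤ s := by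
    have h := dd_tendsto.eventually (gt_mem_nhds h0)
    obtain ⟨m, hm⟩ := h.exists
    exact ⟨m, hm.le⟩
  refine ⟨Nat.find hex, ?_, Nat.find_spec hex⟩
  by_contra hc
  push Not at hc
  rcases Nat.eq_zero_or_pos (Nat.find hex) with h | h
  · rw [h] at hc
    have : dd 0 = 3 := rfl
    linarith
  · have h2 : dd (Nat.find hex - 1 + 1) ≤ s := by
      rw [Nat.sub_add_cancel h]; exact hc
    exact Nat.find_min hex (m := Nat.find hex - 1) (by omega) h2

theorem dom_le {gc : ℕ → ℂ} (hD : Data gc) (k : ℕ) (w : ℂ) (hw : ‖w‖ = 1) (hw1 : w ≠ 1) :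
    ∑' n, ENNReal.ofReal (‖(expSeq (AT (1 / 2) gc k) n - if n = 0 then 1 else 0).eval w‖ ^ 2) ≤
      12 * Th w := by
  have hs0 : 0 < ‖1 - w‖ := norm_pos_iff.2 (sub_ne_zero.2 (Ne.symm hw1))
  have hs2 : ‖1 - w‖ < 3 := by
    have := norm_sub_le (1:ℂ) w
    rw [norm_one, hw] at this
    linarith
  obtain ⟨j, hj1, hj2⟩ := exists_level _ hs0 hs2
  have hb0 : 0 ≤ bb j := bb_mono (Nat.zero_le j)
  have hmain := inner_le hD k w hw hw1 (2 * Real.exp (bb j + 3 / 2)) (by
    intro x hx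
    set G : ℂ := ∑' n : ℕ, gc n / (n + 1) * (∑ j ∈ range (n + 1), w ^ j) * x ^ n with hG
    set Gk : ℕ → ℂ := fun k =>
      ∑ n ∈ range (MM (k + 1)), gc n / (n + 1) * (∑ j ∈ range (n + 1), w ^ j) * x ^ n with hGk
    have hre : ∀ k, |(Gk k).re| ≤ bb k := fun k => re_slice hD k w x hw.le hx.le
    have hcl : ∀ k, ‖G - Gk k‖ ≤ dd (k + 1) / ‖1 - w‖ := fun k =>
      (slice_close hD w x hw hw1 hx.le).2 k
    have hclre : ∀ k, |G.re - (Gk k).re| ≤ dd (k + 1) / ‖1 - w‖ := fun k => by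
      have h := Complex.abs_re_le_norm (G - Gk k)
      rw [Complex.sub_re] at h
      exact h.trans (hcl k)
    have hone : ∀ k, j ≤ k → dd (k + 1) / ‖1 - w‖ ≤ 1 := by
      intro k hk
      rw [div_le_one hs0]
      exact (dd_anti (by omega)).trans hj2
    have h1 : |G.re| ≤ bb j + 1 := by
      have a := hre j
      have b := (hclre j).trans (hone j le_rfl)
      rw [abs_le] at a b ⊢
      constructor <;> linarith [a.1, a.2, b.1, b.2]
    have h2 : |(Gk k).re| ≤ bb j + 2 := by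
      rcases le_total j k with hjk | hkj
      · have b := (hclre k).trans (hone k hjk)
        rw [abs_le] at h1 b ⊢
        constructor <;> linarith [h1.1, h1.2, b.1, b.2]
      · have := (hre k).trans (bb_mono hkj)
        linarith
    have h3 : ((1 / 2 : ℂ) * (G - Gk k)).re ≤ bb j + 3 / 2 := by
      have e : ((1 / 2 : ℂ) * (G - Gk k)).re = 1 / 2 * (G.re - (Gk k).re) := by
        have : (1 / 2 : ℂ) = ((1 / 2 : ℝ) : ℂ) := by push_cast; rfl
        rw [this, Complex.re_ofReal_mul, Complex.sub_re]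
      rw [e]
      rw [abs_le] at h1 h2
      linarith [h1.1, h1.2, h2.1, h2.2]
    calc ‖Complex.exp (1 / 2 * (G - Gk k)) - 1‖ ≤ ‖Complex.exp (1 / 2 * (G - Gk k))‖ + ‖(1:ℂ)‖ :=
          norm_sub_le _ _
      _ ≤ Real.exp (bb j + 3 / 2) + Real.exp (bb j + 3 / 2) := by
          rw [Complex.norm_exp, norm_one]
          gcongr
          exact Real.one_le_exp (by linarith)
      _ = 2 * Real.exp (bb j + 3 / 2) := by ring)
  refine hmain.trans ?_
  have h5 : (2 * Real.exp (bb j + 3 / 2)) ^ 2 ≤ 12 * Real.exp (2 * (bb j + 1)) := by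
    have e1 : (2 * Real.exp (bb j + 3 / 2)) ^ 2 = 4 * (Real.exp 1 * Real.exp (2 * (bb j + 1))) := by
      rw [mul_pow, ← Real.exp_nat_mul, ← Real.exp_add]
      norm_num
      ring_nf
    rw [e1]
    have e2 := Real.exp_one_lt_d9
    have e3 := Real.exp_pos (2 * (bb j + 1))
    nlinarith
  have h6 : ENNReal.ofReal (Real.exp (2 * (bb j + 1))) ≤ Th w := by
    unfold Th
    refine le_trans (le_of_eq ?_) (ENNReal.le_tsum j)
    rw [if_pos hj1]
  calc ENNReal.ofReal ((2 * Real.exp (bb j + 3 / 2)) ^ 2)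
      ≤ ENNReal.ofReal (12 * Real.exp (2 * (bb j + 1))) := ENNReal.ofReal_le_ofReal h5
    _ = 12 * ENNReal.ofReal (Real.exp (2 * (bb j + 1))) := by
        rw [ENNReal.ofReal_mul (by norm_num)]
        norm_num
    _ ≤ 12 * Th w := by gcongr

theorem inner_tendsto {gc : ℕ → ℂ} (hD : Data gc) (w : ℂ) (hw : ‖w‖ = 1) (hw1 : w ≠ 1) :
    Filter.Tendsto (fun k : ℕ => ∑' n, ENNReal.ofReal
      (‖(expSeq (AT (1 / 2) gc k) n - if n = 0 then 1 else 0).eval w‖ ^ 2))
      Filter.atTop (nhds 0) := by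
  have hs0 : 0 < ‖1 - w‖ := norm_pos_iff.2 (sub_ne_zero.2 (Ne.symm hw1))
  have hlim : Filter.Tendsto (fun k => dd (k + 1) / ‖1 - w‖) Filter.atTop (nhds 0) := by
    have := dd_tendsto.div_const ‖1 - w‖
    simpa using this
  have hlim2 : Filter.Tendsto (fun k => ENNReal.ofReal ((dd (k + 1) / ‖1 - w‖) ^ 2))
      Filter.atTop (nhds 0) := by
    have h := (hlim.pow 2)
    have h2 := ENNReal.tendsto_ofReal h
    simpa using h2
  refine tendsto_of_tendsto_of_tendsto_of_le_of_le' tendsto_const_nhds hlim2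
    (Filter.Eventually.of_forall fun _ => bot_le) ?_
  filter_upwards [hlim.eventually (gt_mem_nhds (show (0:ℝ) < 1 by norm_num))] with k hk
  refine inner_le hD k w hw hw1 _ ?_
  intro x hx
  have h1 := (slice_close hD w x hw hw1 hx.le).2 k
  set D : ℂ := (∑' n : ℕ, gc n / (n + 1) * (∑ j ∈ range (n + 1), w ^ j) * x ^ n) -
      ∑ n ∈ range (MM (k + 1)), gc n / (n + 1) * (∑ j ∈ range (n + 1), w ^ j) * x ^ n with hDD
  have h2 : ‖(1 / 2 : ℂ) * D‖ = ‖D‖ / 2 := by
    rw [norm_mul]; norm_num; ring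
  have h3 : ‖(1 / 2 : ℂ) * D‖ ≤ 1 := by
    rw [h2]; linarith
  have h4 := Complex.norm_exp_sub_one_le h3
  rw [h2] at h4
  linarith

theorem ee_norm (t : ℝ) : ‖ee t‖ = 1 := Complex.norm_exp_ofReal_mul_I t

theorem ee_cont : Continuous ee := by unfold ee; fun_prop

theorem ee_ne {t : ℝ} (h0 : 0 < t) (h1 : t < 2 * Real.pi) : ee t ≠ 1 := by
  intro h
  unfold ee at h
  rw [Complex.exp_eq_one_iff] at h
  obtain ⟨n, hn⟩ := h
  have h2 : (t : ℂ) = ((n * (2 * Real.pi) : ℝ) : ℂ) := by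
    have h3 : (t : ℂ) * Complex.I = (n * (2 * Real.pi)) * Complex.I := by
      rw [hn]; ring
    have h4 := mul_right_cancel₀ Complex.I_ne_zero h3
    rw [h4]
    push_cast
    rfl
  have h5 : t = n * (2 * Real.pi) := by exact_mod_cast h2
  have hpi := Real.pi_pos
  rw [h5] at h0 h1
  have h6 : (0:ℝ) < n := by
    by_contra hc
    push Not at hc
    nlinarith
  have h7 : (n:ℝ) < 1 := by
    by_contra hc
    push Not at hc
    nlinarith
  have h8 : 0 < n := by exact_mod_cast h6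
  have h9 : n < 1 := by exact_mod_cast h7
  omega

/-- TARGET: tails of the half exponent are close to one in mean square -/
theorem cyc_tail {gc : ℕ → ℂ} (hD : Data gc) :
    Filter.Tendsto (fun k : ℕ => ∫⁻ t in Set.Ioc (0:ℝ) (2 * Real.pi),
      ∑' n, ENNReal.ofReal (‖(expSeq (AT (1 / 2) gc k) n - if n = 0 then 1 else 0).eval (ee t)‖ ^ 2))
      Filter.atTop (nhds 0) := by
  have hae : ∀ᵐ t ∂(MeasureTheory.volume.restrict (Set.Ioc (0:ℝ) (2 * Real.pi))), ee t ≠ 1 := by
    rw [MeasureTheory.ae_restrict_iff' measurableSet_Ioc]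
    have h : ∀ᵐ t : ℝ, t ≠ 2 * Real.pi := by
      simp [MeasureTheory.ae_iff]
    filter_upwards [h] with t ht hm
    exact ee_ne hm.1 (lt_of_le_of_ne hm.2 ht)
  have hmain := MeasureTheory.tendsto_lintegral_of_dominated_convergence
    (μ := MeasureTheory.volume.restrict (Set.Ioc (0:ℝ) (2 * Real.pi)))
    (F := fun k t => ∑' n, ENNReal.ofReal
      (‖(expSeq (AT (1 / 2) gc k) n - if n = 0 then 1 else 0).eval (ee t)‖ ^ 2))
    (f := fun _ => 0) (fun t => 12 * Th (ee t)) ?_ ?_ ?_ ?_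
  · simpa using hmain
  · intro k
    refine Measurable.tsum fun n => ?_
    refine ENNReal.measurable_ofReal.comp ?_
    exact (((Polynomial.continuous _).comp ee_cont).norm.pow 2).measurable
  · intro k
    filter_upwards [hae] with t ht
    exact dom_le hD k (ee t) (ee_norm t) ht
  · rw [MeasureTheory.lintegral_const_mul' _ _ (by norm_num)]
    exact (ENNReal.mul_lt_top (by norm_num) Th_int).ne
  · filter_upwards [hae] with t ht
    exact inner_tendsto hD (ee t) (ee_norm t) ht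

end Pool.Agent.Helper655.BD.K1
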