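import Mathlib
import Pool.Agent.Helper655.BDDefs
import Pool.Agent.Helper655.BDJ5
import Pool.Agent.Helper655.BDJ6
import Pool.Agent.Helper655.BDJ7
import Pool.Agent.Helper655.BDJ8
import Pool.Agent.Helper655.BDJ9
import Pool.Agent.Helper655.BDJ10
import Pool.Agent.Helper655.BDK1

set_option autoImplicit false
open Finset

namespace Pool.Agent.Helper655.BD.K2

open Pool.Agent.Helper655.BD.J6 (expSeq_succ expSeq_add expSeq_map expSeq_natDegree)
open Pool.Agent.Helper655.BD.J7 (expSeq_hasSum)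
open Pool.Agent.Helper655.BD.J8 (bessel_bdd parseval)
open Pool.Agent.Helper655.BD.J9 (slice Th_int)
open Pool.Agent.Helper655.BD.J10 (tail_sum re_slice slice_close slice_bound)
open Pool.Agent.Helper655.BD.K1 (cyc_tail)














theorem conv_l2 (r : ℕ → ℝ) (hr : ∀ m, 0 ≤ r m) (hs : Summable r) (a b c : ℕ → ℂ)
    (ha : ∀ m, ‖a m‖ ≤ r m) (hc : ∀ n, c n = ∑ m ∈ range (n + 1), a m * b (n - m)) :
    ∑' n, ENNReal.ofReal (‖c n‖ ^ 2) ≤
      ENNReal.ofReal ((∑' m, r m) ^ 2) * ∑' n, ENNReal.ofReal (‖b n‖ ^ 2) := by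
  set ρ := ∑' m, r m with hρ
  have hρ0 : 0 ≤ ρ := tsum_nonneg hr
  have h1 : ∀ n, ‖c n‖ ^ 2 ≤ ρ * ∑ m ∈ range (n + 1), r m * ‖b (n - m)‖ ^ 2 := by
    intro n
    have h2 : ‖c n‖ ≤ ∑ m ∈ range (n + 1), r m * ‖b (n - m)‖ := by
      rw [hc n]
      refine (norm_sum_le _ _).trans (Finset.sum_le_sum fun m _ => ?_)
      rw [norm_mul]
      exact mul_le_mul_of_nonneg_right (ha m) (norm_nonneg _)
    have h3 : (∑ m ∈ range (n + 1), r m * ‖b (n - m)‖) ^ 2 ≤
        (∑ m ∈ range (n + 1), r m) * ∑ m ∈ range (n + 1), r m * ‖b (n - m)‖ ^ 2 := by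
      refine Finset.sum_sq_le_sum_mul_sum_of_sq_le_mul _ (fun m _ => hr m)
        (fun m _ => mul_nonneg (hr m) (sq_nonneg _)) (fun m _ => le_of_eq (by ring))
    have h4 : ∑ m ∈ range (n + 1), r m ≤ ρ := hs.sum_le_tsum _ (fun m _ => hr m)
    calc ‖c n‖ ^ 2 ≤ (∑ m ∈ range (n + 1), r m * ‖b (n - m)‖) ^ 2 :=
          pow_le_pow_left₀ (norm_nonneg _) h2 2
      _ ≤ _ := h3
      _ ≤ _ := mul_le_mul_of_nonneg_right h4
          (Finset.sum_nonneg fun m _ => mul_nonneg (hr m) (sq_nonneg _))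
  have h5 : ∑' n, ENNReal.ofReal (‖c n‖ ^ 2) ≤ ∑' n, ENNReal.ofReal ρ *
      ∑' m, (if m < n + 1 then ENNReal.ofReal (r m) * ENNReal.ofReal (‖b (n - m)‖ ^ 2) else 0) := by
    refine ENNReal.tsum_le_tsum fun n => ?_
    refine (ENNReal.ofReal_le_ofReal (h1 n)).trans ?_
    rw [ENNReal.ofReal_mul hρ0]
    gcongr
    rw [ENNReal.ofReal_sum_of_nonneg (fun m _ => mul_nonneg (hr m) (sq_nonneg _))]
    rw [tsum_eq_sum (s := range (n + 1)) (by
      intro m hm
      rw [if_neg]
      simpa using hm)]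
    refine le_of_eq (Finset.sum_congr rfl fun m hm => ?_)
    rw [if_pos (Finset.mem_range.mp hm), ENNReal.ofReal_mul (hr m)]
  refine h5.trans ?_
  rw [ENNReal.tsum_mul_left, ENNReal.tsum_comm]
  have h6 : ∀ m, ∑' n, (if m < n + 1 then ENNReal.ofReal (r m) * ENNReal.ofReal (‖b (n - m)‖ ^ 2) else 0)
      = ENNReal.ofReal (r m) * ∑' n, ENNReal.ofReal (‖b n‖ ^ 2) := by
    intro m
    rw [← ENNReal.tsum_mul_left]
    rw [← Summable.sum_add_tsum_nat_add' (k := m) ENNReal.summable]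
    rw [Finset.sum_eq_zero (fun n hn => by
      rw [if_neg]
      have := Finset.mem_range.mp hn
      omega), zero_add]
    refine tsum_congr fun n => ?_
    rw [if_pos (by omega), Nat.add_sub_cancel]
  rw [tsum_congr h6, ENNReal.tsum_mul_right, ← mul_assoc]
  gcongr
  rw [← ENNReal.ofReal_tsum_of_nonneg hr hs, ← hρ, ← ENNReal.ofReal_mul hρ0, sq]


theorem cyc_maj (A : ℕ → ℂ) (α : ℕ → ℝ) (h : ∀ n, ‖A n‖ ≤ α n) (n : ℕ) :
    expSeq (fun n => (α n : ℂ)) n = (((expSeq (fun n => (α n : ℂ)) n).re : ℝ) : ℂ) ∧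
      ‖expSeq A n‖ ≤ (expSeq (fun n => (α n : ℂ)) n).re := by
  induction n using Nat.strong_induction_on with
  | _ n ih =>
    rcases n with _ | n
    · simp [expSeq]
    · have hα : ∀ n, 0 ≤ α n := fun n => (norm_nonneg _).trans (h n)
      set p : ℕ → ℝ := fun n => (expSeq (fun n => (α n : ℂ)) n).re with hp
      have h1 : expSeq (fun n => (α n : ℂ)) (n + 1) =
          ((((n : ℝ) + 1)⁻¹ * ∑ m ∈ range (n + 1), ((m : ℝ) + 1) * (α (m + 1) * p (n - m)) : ℝ) : ℂ) := by
        rw [expSeq_succ]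
        push_cast
        rw [smul_eq_mul]
        congr 1
        refine Finset.sum_congr rfl fun m hm => ?_
        have := (ih (n - m) (by have := Finset.mem_range.mp hm; omega)).1
        rw [smul_eq_mul, this]
      have h2 : (expSeq (fun n => (α n : ℂ)) (n + 1)).re =
          ((n : ℝ) + 1)⁻¹ * ∑ m ∈ range (n + 1), ((m : ℝ) + 1) * (α (m + 1) * p (n - m)) := by
        rw [h1, Complex.ofReal_re]
      refine ⟨by rw [h2]; exact h1, ?_⟩
      rw [h2, expSeq_succ, norm_smul]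
      have h3 : ‖((n : ℂ) + 1)⁻¹‖ = ((n : ℝ) + 1)⁻¹ := by
        rw [norm_inv]
        congr 1
        have : ((n : ℂ) + 1) = ((n + 1 : ℕ) : ℂ) := by push_cast; ring
        rw [this, Complex.norm_natCast]
        push_cast; ring
      rw [h3]
      refine mul_le_mul_of_nonneg_left ?_ (by positivity)
      refine (norm_sum_le _ _).trans (Finset.sum_le_sum fun m hm => ?_)
      rw [norm_smul, norm_mul]
      have h4 : ‖((m : ℂ) + 1)‖ = (m : ℝ) + 1 := by
        have : ((m : ℂ) + 1) = ((m + 1 : ℕ) : ℂ) := by push_cast; ring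
        rw [this, Complex.norm_natCast]
        push_cast; ring
      rw [h4]
      refine mul_le_mul_of_nonneg_left ?_ (by positivity)
      refine mul_le_mul (h (m + 1)) ?_ (norm_nonneg _) (hα _)
      exact (ih (n - m) (by have := Finset.mem_range.mp hm; omega)).2

theorem cyc_deg (l : ℂ) (gc : ℕ → ℂ) (n : ℕ) : (AA l gc n).natDegree ≤ n := by
  unfold AA
  refine (Polynomial.natDegree_C_mul_le _ _).trans ?_
  refine Polynomial.natDegree_sum_le_of_forall_le _ _ fun j hj => ?_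
  refine (Polynomial.natDegree_X_pow_le _).trans ?_
  have := Finset.mem_range.mp hj
  omega

theorem cyc_evAA (gc : ℕ → ℂ) (n : ℕ) (w : ℂ) (hw : ‖w‖ = 1) :
    ‖(-AA (1 / 2) gc n).eval w‖ ≤ ‖gc n‖ / 2 := by
  unfold AA
  rw [Polynomial.eval_neg, norm_neg, Polynomial.eval_mul, Polynomial.eval_C, norm_mul,
    Polynomial.eval_finsetSum]
  have h1 : ‖∑ j ∈ range (n + 1), Polynomial.eval w (Polynomial.X ^ j : Polynomial ℂ)‖ ≤ (n : ℝ) + 1 := by
    refine (norm_sum_le _ _).trans ?_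
    have : ∀ j ∈ range (n + 1), ‖Polynomial.eval w (Polynomial.X ^ j : Polynomial ℂ)‖ ≤ 1 := by
      intro j _
      rw [Polynomial.eval_pow, Polynomial.eval_X, norm_pow, hw, one_pow]
    refine (Finset.sum_le_sum this).trans ?_
    simp
  have h2 : ‖(1 / 2 : ℂ) * gc n / ((n : ℂ) + 1)‖ = ‖gc n‖ / 2 / ((n : ℝ) + 1) := by
    rw [norm_div, norm_mul]
    have h4 : ‖((n : ℂ) + 1)‖ = (n : ℝ) + 1 := by
      have : ((n : ℂ) + 1) = ((n + 1 : ℕ) : ℂ) := by push_cast; ring
      rw [this, Complex.norm_natCast]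
      push_cast; ring
    rw [h4]
    norm_num
    ring
  rw [h2]
  calc ‖gc n‖ / 2 / ((n : ℝ) + 1) * ‖∑ j ∈ range (n + 1), Polynomial.eval w (Polynomial.X ^ j : Polynomial ℂ)‖
      ≤ ‖gc n‖ / 2 / ((n : ℝ) + 1) * ((n : ℝ) + 1) := by
        refine mul_le_mul_of_nonneg_left h1 (by positivity)
    _ = ‖gc n‖ / 2 := by
        field_simp

theorem cyc_evAL (gc : ℕ → ℂ) (k n : ℕ) (w : ℂ) (hw : ‖w‖ = 1) :
    ‖(-AL (1 / 2) gc k n).eval w‖ ≤ if n < MM (k + 1) then ‖gc n‖ / 2 else 0 := by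
  unfold AL
  generalize MM (k + 1) = M
  split_ifs with h
  · exact cyc_evAA gc n w hw
  · simp

theorem cyc_split (l : ℂ) (gc : ℕ → ℂ) (k n : ℕ) : -AL l gc k n + AA l gc n = AT l gc k n := by
  unfold AL AT
  generalize MM (k + 1) = M
  split_ifs <;> simp

theorem cyc_cvg (X Y Z : ℕ → Polynomial ℂ) (h : ∀ m, X m + Y m = Z m) (n : ℕ) :
    cv (expSeq X) (expSeq Y) n = expSeq Z n := by
  have h1 : (fun m => X m + Y m) = Z := funext h
  rw [expSeq_add, h1]

theorem cyc_cv (l : ℂ) (gc : ℕ → ℂ) (k n : ℕ) :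
    cv (expSeq (fun m => -AL l gc k m)) (expSeq (AA l gc)) n = expSeq (AT l gc k) n :=
  cyc_cvg (fun m => -AL l gc k m) (AA l gc) (AT l gc k) (cyc_split l gc k) n

theorem cyc_degAL (l : ℂ) (gc : ℕ → ℂ) (k n : ℕ) : (-AL l gc k n).natDegree ≤ n := by
  rw [Polynomial.natDegree_neg]
  unfold AL
  generalize MM (k + 1) = M
  split_ifs
  · exact cyc_deg _ _ _
  · simp

theorem cyc_ee_norm (t : ℝ) : ‖ee t‖ = 1 := by
  unfold ee
  exact Complex.norm_exp_ofReal_mul_I t

theorem cyc_ee_ne (t : ℝ) (h0 : 0 < t) (h1 : t < 2 * Real.pi) : ee t ≠ 1 := by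
  unfold ee
  intro h
  rw [Complex.exp_eq_one_iff] at h
  obtain ⟨n, hn⟩ := h
  have hI : Complex.I ≠ 0 := Complex.I_ne_zero
  have h2 : (t : ℂ) = n * (2 * Real.pi) := by
    have : (t : ℂ) * Complex.I = (n * (2 * Real.pi)) * Complex.I := by rw [hn]; ring
    exact mul_right_cancel₀ hI this
  have h3 : t = n * (2 * Real.pi) := by exact_mod_cast h2
  have hpi := Real.pi_pos
  have h4 : (0 : ℝ) < n := by
    by_contra h
    push Not at h
    nlinarith
  have h5 : (n : ℝ) < 1 := by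
    by_contra h
    push Not at h
    nlinarith
  have h6 : (0 : ℤ) < n := by exact_mod_cast h4
  have h7 : (n : ℤ) < 1 := by exact_mod_cast h5
  omega

theorem cyc_meas (H : ℕ → Polynomial ℂ) :
    Measurable fun t : ℝ => ∑' n, ENNReal.ofReal (‖(H n).eval (ee t)‖ ^ 2) := by
  refine Measurable.tsum fun n => ?_
  have : Continuous fun t : ℝ => ENNReal.ofReal (‖(H n).eval (ee t)‖ ^ 2) := by
    refine ENNReal.continuous_ofReal.comp ?_
    refine Continuous.pow ?_ 2
    refine Continuous.norm ?_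
    refine (Polynomial.continuous _).comp ?_
    unfold ee
    fun_prop
  exact this.measurable

/-- TARGET: the half exponential is cyclic -/
theorem cyc_half {gc : ℕ → ℂ} (hD : Data gc) (ε : ENNReal) (hε : 0 < ε) :
    ∃ P : ℕ → Polynomial ℂ, (∀ n, (P n).natDegree ≤ n) ∧ (∃ N : ℕ, ∀ n, N ≤ n → P n = 0) ∧
      ∑' n, ∑' j, ENNReal.ofReal (‖(cv P (expSeq (AA (1 / 2) gc)) n -
        if n = 0 then 1 else 0).coeff j‖ ^ 2) < ε := by
  classical
  set E : ℕ → Polynomial ℂ := expSeq (AA (1 / 2) gc) with hE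
  set c0 : ENNReal := ENNReal.ofReal (2 * Real.pi)⁻¹ with hc0
  have hc0t : c0 ≠ ⊤ := ENNReal.ofReal_ne_top
  -- choice of k
  have hk : ∃ k : ℕ, c0 * (2 * ∫⁻ t in Set.Ioc (0:ℝ) (2 * Real.pi),
      ∑' n, ENNReal.ofReal (‖(expSeq (AT (1 / 2) gc k) n - if n = 0 then 1 else 0).eval (ee t)‖ ^ 2))
      < ε / 2 := by
    have h1 := cyc_tail hD
    have h2 := ENNReal.Tendsto.const_mul (ENNReal.Tendsto.const_mul h1 (a := 2) (Or.inr (by norm_num)))
      (a := c0) (Or.inr hc0t)
    rw [mul_zero, mul_zero] at h2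
    have h3 := h2.eventually_lt_const (show (0 : ENNReal) < ε / 2 from ENNReal.div_pos hε.ne' (by norm_num))
    exact h3.exists
  obtain ⟨k, hk⟩ := hk
  set Q : ℕ → Polynomial ℂ := expSeq (fun n => -AL (1 / 2) gc k n) with hQ
  -- the majorant
  set α : ℕ → ℝ := fun n => if n < MM (k + 1) then ‖gc n‖ / 2 else 0 with hα
  set p : ℕ → ℝ := fun n => (expSeq (fun n => (α n : ℂ)) n).re with hp
  have hQp : ∀ (w : ℂ), ‖w‖ = 1 → ∀ n, ‖(Q n).eval w‖ ≤ p n := by
    intro w hw n
    have h1 := expSeq_map (Polynomial.aeval w : Polynomial ℂ →ₐ[ℂ] ℂ) (fun n => -AL (1 / 2) gc k n) n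
    rw [Polynomial.coe_aeval_eq_eval] at h1
    have h2 : Polynomial.eval w (Q n) = expSeq (fun m => Polynomial.eval w (-AL (1 / 2) gc k m)) n := h1
    rw [h2]
    exact (cyc_maj _ α (fun m => cyc_evAL gc k m w hw) n).2
  have hp0 : ∀ n, 0 ≤ p n := fun n => (norm_nonneg _).trans (hQp 1 (by simp) n)
  have hpre : ∀ n, expSeq (fun n => (α n : ℂ)) n = (p n : ℂ) := by
    intro n
    have hα0 : ∀ n, 0 ≤ α n := fun n => (norm_nonneg _).trans (cyc_evAL gc k n 1 (by simp))
    exact (cyc_maj (fun n => (α n : ℂ)) α (fun m => by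
      rw [Complex.norm_real, Real.norm_of_nonneg (hα0 m)]) n).1
  have hps : Summable p := by
    have hα00 : ((α 0 : ℝ) : ℂ) = 0 := by
      have : gc 0 = 0 := hD.low 0 (by unfold MM; positivity)
      simp [hα, this]
    have hsum : Summable fun n => ‖((α n : ℝ) : ℂ)‖ * ‖(1 : ℂ)‖ ^ n := by
      refine summable_of_ne_finset_zero (s := range (MM (k + 1))) fun n hn => ?_
      have : ¬ n < MM (k + 1) := by simpa using hn
      simp [hα, this]
    have h1 := (expSeq_hasSum (fun n => ((α n : ℝ) : ℂ)) 1 hα00 hsum).1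
    refine h1.congr fun n => ?_
    rw [hpre n, Complex.norm_real, Real.norm_of_nonneg (hp0 n)]
    simp
  -- the tails
  set ρ : ℕ → ℝ := fun T => ∑' n, p (n + T) with hρ
  have hρt : Filter.Tendsto ρ Filter.atTop (nhds 0) := tendsto_sum_nat_add p
  set C := ∫⁻ t in Set.Ioc (0:ℝ) (2 * Real.pi), Th (ee t) with hC
  have hCt : C < ⊤ := Th_int
  have hT : ∃ T : ℕ, c0 * (2 * (ENNReal.ofReal (ρ T ^ 2) * C)) < ε / 2 := by
    have h1 : Filter.Tendsto (fun T => ENNReal.ofReal (ρ T ^ 2)) Filter.atTop (nhds 0) := by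
      have := ENNReal.tendsto_ofReal (hρt.pow 2)
      simpa using this
    have h1' := ENNReal.Tendsto.mul_const h1 (b := C) (Or.inr hCt.ne)
    have h2 := ENNReal.Tendsto.const_mul (ENNReal.Tendsto.const_mul h1' (a := 2) (Or.inr (by norm_num)))
      (a := c0) (Or.inr hc0t)
    rw [zero_mul, mul_zero, mul_zero] at h2
    have h3 := h2.eventually_lt_const (show (0 : ENNReal) < ε / 2 from ENNReal.div_pos hε.ne' (by norm_num))
    exact h3.exists
  obtain ⟨T, hT⟩ := hT
  set P : ℕ → Polynomial ℂ := fun n => if n < T then Q n else 0 with hP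
  set R : ℕ → Polynomial ℂ := fun n => if n < T then 0 else Q n with hR
  refine ⟨P, ?_, ⟨T, fun n hn => if_neg (by omega)⟩, ?_⟩
  · intro n
    simp only [hP]
    split_ifs
    · exact expSeq_natDegree _ (fun m => cyc_degAL _ _ _ _) n
    · simp
  · -- the decomposition
    have hdec : ∀ n, (cv P E n - if n = 0 then 1 else 0) =
        (expSeq (AT (1 / 2) gc k) n - if n = 0 then 1 else 0) - cv R E n := by
      intro n
      have h1 : cv Q E n = expSeq (AT (1 / 2) gc k) n := cyc_cv _ _ _ _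
      have h2 : cv Q E n = cv P E n + cv R E n := by
        unfold cv
        rw [← Finset.sum_add_distrib]
        refine Finset.sum_congr rfl fun m _ => ?_
        rw [← add_mul]
        congr 1
        simp only [hP, hR]
        split_ifs <;> simp
      rw [← h1, h2]
      ring
    rw [Pool.Agent.Helper655.BD.J9.slice]
    have hpt : ∀ t : ℝ, ∑' n, ENNReal.ofReal (‖(cv P E n - if n = 0 then 1 else 0).eval (ee t)‖ ^ 2) ≤
        2 * ∑' n, ENNReal.ofReal (‖(expSeq (AT (1 / 2) gc k) n - if n = 0 then 1 else 0).eval (ee t)‖ ^ 2)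
        + 2 * ∑' n, ENNReal.ofReal (‖(cv R E n).eval (ee t)‖ ^ 2) := by
      intro t
      rw [← ENNReal.tsum_mul_left, ← ENNReal.tsum_mul_left, ← ENNReal.tsum_add]
      refine ENNReal.tsum_le_tsum fun n => ?_
      rw [hdec n, Polynomial.eval_sub]
      set u := Polynomial.eval (ee t) (expSeq (AT (1 / 2) gc k) n - if n = 0 then 1 else 0)
      set v := Polynomial.eval (ee t) (cv R E n)
      have h1 : ‖u - v‖ ^ 2 ≤ 2 * ‖u‖ ^ 2 + 2 * ‖v‖ ^ 2 := by
        have h2 := norm_sub_le u v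
        nlinarith [sq_nonneg (‖u‖ - ‖v‖), norm_nonneg (u - v), norm_nonneg u, norm_nonneg v]
      refine (ENNReal.ofReal_le_ofReal h1).trans ?_
      rw [ENNReal.ofReal_add (by positivity) (by positivity), ENNReal.ofReal_mul (by norm_num),
        ENNReal.ofReal_mul (by norm_num)]
      simp
    have hRb : ∫⁻ t in Set.Ioc (0:ℝ) (2 * Real.pi), ∑' n, ENNReal.ofReal (‖(cv R E n).eval (ee t)‖ ^ 2)
        ≤ ENNReal.ofReal (ρ T ^ 2) * C := by
      rw [hC, ← MeasureTheory.lintegral_const_mul' _ _ ENNReal.ofReal_ne_top]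
      rw [← MeasureTheory.restrict_Ioo_eq_restrict_Ioc]
      refine MeasureTheory.setLIntegral_mono' measurableSet_Ioo fun t ht => ?_
      have hw := cyc_ee_norm t
      have hw1 := cyc_ee_ne t ht.1 ht.2
      set w := ee t with hwdef
      have hrs : Summable fun m => if m < T then 0 else p m := by
        refine Summable.of_nonneg_of_le (fun m => ?_) (fun m => ?_) hps
        · split_ifs
          · exact le_refl _
          · exact hp0 m
        · split_ifs
          · exact hp0 m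
          · exact le_refl _
      have hρT : ∑' m, (if m < T then 0 else p m) = ρ T := by
        rw [← hrs.sum_add_tsum_nat_add T]
        rw [Finset.sum_eq_zero (fun m hm => if_pos (Finset.mem_range.mp hm)), zero_add]
        refine tsum_congr fun m => ?_
        rw [if_neg (by omega)]
      have h1 := conv_l2 (fun m => if m < T then 0 else p m) (fun m => by
          show 0 ≤ if m < T then 0 else p m
          split_ifs
          · exact le_refl _
          · exact hp0 m) hrs (fun m => (R m).eval w) (fun n => (E n).eval w)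
        (fun n => (cv R E n).eval w) (fun m => by
          simp only [hR]
          split_ifs
          · simp
          · exact hQp w hw m) (fun n => by
          simp only [cv]
          rw [Polynomial.eval_finsetSum]
          refine Finset.sum_congr rfl fun m _ => ?_
          rw [Polynomial.eval_mul])
      rw [hρT] at h1
      refine h1.trans ?_
      gcongr
      have h2 := slice_bound hD (1 / 2) (by norm_num [abs_le]) w hw hw1
      have h3 : (((1 / 2 : ℝ) : ℝ) : ℂ) = (1 / 2 : ℂ) := by push_cast; ring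
      rw [h3] at h2
      exact h2
    calc c0 * ∫⁻ t in Set.Ioc (0:ℝ) (2 * Real.pi),
          ∑' n, ENNReal.ofReal (‖(cv P E n - if n = 0 then 1 else 0).eval (ee t)‖ ^ 2)
        ≤ c0 * ∫⁻ t in Set.Ioc (0:ℝ) (2 * Real.pi),
          (2 * ∑' n, ENNReal.ofReal (‖(expSeq (AT (1 / 2) gc k) n - if n = 0 then 1 else 0).eval (ee t)‖ ^ 2)
          + 2 * ∑' n, ENNReal.ofReal (‖(cv R E n).eval (ee t)‖ ^ 2)) := by
          gcongr with t
          exact hpt t
      _ = c0 * (2 * ∫⁻ t in Set.Ioc (0:ℝ) (2 * Real.pi),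
          ∑' n, ENNReal.ofReal (‖(expSeq (AT (1 / 2) gc k) n - if n = 0 then 1 else 0).eval (ee t)‖ ^ 2))
          + c0 * (2 * ∫⁻ t in Set.Ioc (0:ℝ) (2 * Real.pi),
            ∑' n, ENNReal.ofReal (‖(cv R E n).eval (ee t)‖ ^ 2)) := by
          rw [MeasureTheory.lintegral_add_left
            ((cyc_meas (fun n => expSeq (AT (1 / 2) gc k) n - if n = 0 then 1 else 0)).const_mul 2),
            MeasureTheory.lintegral_const_mul' _ _ (by norm_num),
            MeasureTheory.lintegral_const_mul' _ _ (by norm_num), mul_add]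
      _ < ε / 2 + ε / 2 := by
          refine ENNReal.add_lt_add hk (lt_of_le_of_lt ?_ hT)
          gcongr
      _ = ε := ENNReal.add_halves ε


end Pool.Agent.Helper655.BD.K2
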