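import Mathlib
import Pool.Agent.Helper655.BDDefs
import Pool.Agent.Helper655.BDFin
import Pool.Agent.Helper655.BDK2

set_option autoImplicit false
open Finset

namespace Pool.Agent.Helper655.BD.Ps

open Pool.Agent.Helper655.BD.J6 (expSeq_add)
open Pool.Agent.Helper655.BD.J17 (cv2_arr tsum_arr)
open Pool.Agent.Helper655.BD.K2 (cyc_half)
open Pool.Agent.Helper655.BD.Fin (AA_natDegree exp_natDegree sq_fin arr_summable arr_one cv_natDegree
  arr_low AA_add)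

/-- exponents as pairs -/
noncomputable def ex : (Fin 2 →₀ ℕ) ≃ ℕ × ℕ :=
  Finsupp.equivFunOnFinite.trans (finTwoArrowEquiv ℕ)

theorem ex_apply (d : Fin 2 →₀ ℕ) : ex d = (d 0, d 1) := rfl

theorem ex_symm_zero (q : ℕ × ℕ) : (ex.symm q) 0 = q.1 := by
  have := congrArg Prod.fst (ex.apply_symm_apply q)
  exact this

theorem ex_symm_one (q : ℕ × ℕ) : (ex.symm q) 1 = q.2 := by
  have := congrArg Prod.snd (ex.apply_symm_apply q)
  exact this

/-- power series of an array -/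
noncomputable def ps (a : ℕ → ℕ → ℂ) : MvPowerSeries (Fin 2) ℂ := fun d => a (d 0) (d 1)

theorem coeff_ps (a : ℕ → ℕ → ℂ) (d : Fin 2 →₀ ℕ) :
    MvPowerSeries.coeff (R := ℂ) d (ps a) = a (d 0) (d 1) := rfl

theorem ps_mul (a b : ℕ → ℕ → ℂ) : ps a * ps b = ps (cv2 a b) := by
  classical
  ext d
  rw [MvPowerSeries.coeff_mul, coeff_ps]
  unfold cv2
  rw [← sum_product']
  refine Finset.sum_nbij' (fun p : (Fin 2 →₀ ℕ) × (Fin 2 →₀ ℕ) => (p.1 0, p.1 1))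
    (fun q : ℕ × ℕ => (ex.symm q, ex.symm (d 0 - q.1, d 1 - q.2))) ?_ ?_ ?_ ?_ ?_
  · intro p hp
    rw [HasAntidiagonal.mem_antidiagonal] at hp
    have h0 : p.1 0 + p.2 0 = d 0 := by rw [← hp]; rfl
    have h1 : p.1 1 + p.2 1 = d 1 := by rw [← hp]; rfl
    rw [mem_product, mem_range, mem_range]
    constructor
    · show p.1 0 < d 0 + 1
      omega
    · show p.1 1 < d 1 + 1
      omega
  · intro q hq
    rw [mem_product, mem_range, mem_range] at hq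
    rw [HasAntidiagonal.mem_antidiagonal]
    ext i
    rw [Finsupp.add_apply]
    fin_cases i
    · show ex.symm q 0 + ex.symm (d 0 - q.1, d 1 - q.2) 0 = d 0
      rw [ex_symm_zero, ex_symm_zero]
      simp only
      omega
    · show ex.symm q 1 + ex.symm (d 0 - q.1, d 1 - q.2) 1 = d 1
      rw [ex_symm_one, ex_symm_one]
      simp only
      omega
  · intro p hp
    rw [HasAntidiagonal.mem_antidiagonal] at hp
    have h0 : p.1 0 + p.2 0 = d 0 := by rw [← hp]; rfl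
    have h1 : p.1 1 + p.2 1 = d 1 := by rw [← hp]; rfl
    ext i
    · fin_cases i
      · exact ex_symm_zero _
      · exact ex_symm_one _
    · fin_cases i
      · show ex.symm (d 0 - p.1 0, d 1 - p.1 1) 0 = p.2 0
        rw [ex_symm_zero]
        simp only
        omega
      · show ex.symm (d 0 - p.1 0, d 1 - p.1 1) 1 = p.2 1
        rw [ex_symm_one]
        simp only
        omega
  · intro q hq
    ext
    · exact ex_symm_zero _
    · exact ex_symm_one _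
  · intro p hp
    rw [HasAntidiagonal.mem_antidiagonal] at hp
    have h0 : p.1 0 + p.2 0 = d 0 := by rw [← hp]; rfl
    have h1 : p.1 1 + p.2 1 = d 1 := by rw [← hp]; rfl
    rw [coeff_ps, coeff_ps]
    simp only
    congr 2 <;> omega

theorem coeff_sub_one (a : ℕ → ℕ → ℂ) (d : Fin 2 →₀ ℕ) :
    MvPowerSeries.coeff (R := ℂ) d (ps a - 1) =
      a (d 0) (d 1) - (if d 0 = 0 ∧ d 1 = 0 then (1:ℂ) else 0) := by
  classical
  rw [map_sub, coeff_ps, MvPowerSeries.coeff_one]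
  congr 1
  by_cases h : d = 0
  · rw [if_pos h, h]
    simp
  · rw [if_neg h, if_neg]
    intro hc
    apply h
    ext i
    fin_cases i
    · exact hc.1
    · exact hc.2

theorem summable_ps (a : ℕ → ℕ → ℂ) (h : Summable fun p : ℕ × ℕ => ‖a p.1 p.2‖ ^ 2) :
    Summable (fun d : Fin 2 →₀ ℕ => ‖MvPowerSeries.coeff (R := ℂ) d (ps a)‖ ^ 2) := by
  have := (ex.summable_iff (f := fun p : ℕ × ℕ => ‖a p.1 p.2‖ ^ 2)).2 h
  exact this

/-- coefficient array of a polynomial -/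
noncomputable def ca (p : MvPolynomial (Fin 2) ℂ) (i j : ℕ) : ℂ := p.coeff (ex.symm (i, j))

theorem ps_ca (p : MvPolynomial (Fin 2) ℂ) : (p : MvPowerSeries (Fin 2) ℂ) = ps (ca p) := by
  ext d
  rw [MvPolynomial.coeff_coe, coeff_ps]
  unfold ca
  congr 1
  rw [← ex_apply, ex.symm_apply_apply]

theorem ca_zero (p : MvPolynomial (Fin 2) ℂ) (i j : ℕ) (h : p.totalDegree + 1 ≤ i ∨ p.totalDegree + 1 ≤ j) :
    ca p i j = 0 := by
  unfold ca
  apply MvPolynomial.coeff_eq_zero_of_totalDegree_lt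
  have h1 : ∑ x ∈ (ex.symm (i, j)).support, (ex.symm (i, j)) x = i + j := by
    rw [Finset.sum_subset (Finset.subset_univ _)]
    · rw [Fin.sum_univ_two, ex_symm_zero, ex_symm_one]
    · intro x _ hx
      exact Finsupp.notMem_support_iff.1 hx
  show p.totalDegree < ∑ x ∈ (ex.symm (i, j)).support, (ex.symm (i, j)) x
  rw [h1]
  omega

/-- polynomial of a finite sequence of homogeneous parts -/
noncomputable def pol (P : ℕ → Polynomial ℂ) (N : ℕ) : MvPolynomial (Fin 2) ℂ :=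
  ∑ q ∈ range N ×ˢ range N, MvPolynomial.monomial (ex.symm q) (arr P q.1 q.2)

theorem coe_pol (P : ℕ → Polynomial ℂ) (N : ℕ) (hN : ∀ n, N ≤ n → P n = 0) :
    (pol P N : MvPowerSeries (Fin 2) ℂ) = ps (arr P) := by
  classical
  ext d
  rw [MvPolynomial.coeff_coe, coeff_ps]
  unfold pol
  rw [MvPolynomial.coeff_sum]
  simp only [MvPolynomial.coeff_monomial]
  have h1 : ∀ q : ℕ × ℕ, (ex.symm q = d) ↔ (q = (d 0, d 1)) := by
    intro q
    rw [← ex_apply, Equiv.symm_apply_eq]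
  simp only [h1]
  rw [Finset.sum_ite_eq' (range N ×ˢ range N) (d 0, d 1) (fun q => arr P q.1 q.2)]
  split_ifs with h
  · rfl
  · rw [mem_product, mem_range, mem_range] at h
    unfold arr
    rw [hN _ (by simp only at h; omega), Polynomial.coeff_zero]

theorem half_mul (gc : ℕ → ℂ) :
    ps (arr (expSeq (AA (1 / 2) gc))) * ps (arr (expSeq (AA (1 / 2) gc))) =
      ps (arr (expSeq (AA 1 gc))) := by
  rw [ps_mul]
  congr 1
  funext m n
  rw [cv2_arr _ _ (exp_natDegree _ gc) (exp_natDegree _ gc)]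
  unfold arr
  rw [expSeq_add]
  congr 3
  funext k
  rw [AA_add]
  norm_num

theorem cyc {gc : ℕ → ℂ} (hD : Data gc) (ε : ℝ) (hε : 0 < ε) : ∃ p : MvPolynomial (Fin 2) ℂ,
    ∑' d : Fin 2 →₀ ℕ, ‖MvPowerSeries.coeff (R := ℂ) d
      ((p : MvPowerSeries (Fin 2) ℂ) * ps (arr (expSeq (AA (1 / 2) gc))) - 1)‖ ^ 2 < ε := by
  obtain ⟨P, hP, ⟨N, hN⟩, h⟩ := cyc_half hD (ENNReal.ofReal ε) (ENNReal.ofReal_pos.2 hε)
  refine ⟨pol P N, ?_⟩
  rw [coe_pol P N hN, ps_mul]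
  set H : ℕ → Polynomial ℂ := fun n => cv P (expSeq (AA (1 / 2) gc)) n - if n = 0 then 1 else 0 with hH
  have hHd : ∀ n, (H n).natDegree ≤ n := by
    intro n
    refine (Polynomial.natDegree_sub_le _ _).trans (max_le ?_ ?_)
    · exact cv_natDegree _ _ hP (exp_natDegree _ gc) n
    · split_ifs <;> simp
  have h1 : ∀ d : Fin 2 →₀ ℕ, MvPowerSeries.coeff (R := ℂ) d
      (ps (cv2 (arr P) (arr (expSeq (AA (1 / 2) gc)))) - 1) = arr H (d 0) (d 1) := by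
    intro d
    rw [coeff_sub_one, cv2_arr _ _ hP (exp_natDegree _ gc)]
    unfold arr
    simp only [hH, Polynomial.coeff_sub]
    rw [arr_one]
  simp only [h1]
  have h2 : ∑' d : Fin 2 →₀ ℕ, ‖arr H (d 0) (d 1)‖ ^ 2 = ∑' p : ℕ × ℕ, ‖arr H p.1 p.2‖ ^ 2 :=
    ex.tsum_eq (fun p : ℕ × ℕ => ‖arr H p.1 p.2‖ ^ 2)
  rw [h2]
  have h3 : ∑' p : ℕ × ℕ, ‖arr H p.1 p.2‖ ^ 2 =
      (∑' p : ℕ × ℕ, ENNReal.ofReal (‖arr H p.1 p.2‖ ^ 2)).toReal := by
    rw [ENNReal.tsum_toReal_eq (fun p => ENNReal.ofReal_ne_top)]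
    apply tsum_congr
    intro p
    rw [ENNReal.toReal_ofReal (by positivity)]
  rw [h3, tsum_arr H hHd]
  have h4 := (ENNReal.toReal_lt_toReal (lt_of_lt_of_le h le_top).ne ENNReal.ofReal_ne_top).2 h
  rwa [ENNReal.toReal_ofReal hε.le] at h4

theorem noncyc {gc : ℕ → ℂ} (hD : Data gc) : ¬ (∀ ε : ℝ, 0 < ε → ∃ p : MvPolynomial (Fin 2) ℂ,
    ∑' d : Fin 2 →₀ ℕ, ‖MvPowerSeries.coeff (R := ℂ) d
      ((p : MvPowerSeries (Fin 2) ℂ) * ps (arr (expSeq (AA 1 gc))) - 1)‖ ^ 2 < ε) := by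
  intro hall
  obtain ⟨ε, hε, h⟩ := arr_low hD
  obtain ⟨p, hp⟩ := hall ε hε
  have h1 := h (ca p) (p.totalDegree + 1) (ca_zero p)
  rw [ps_ca, ps_mul] at hp
  simp only [coeff_sub_one] at hp
  have h2 : ∑' d : Fin 2 →₀ ℕ, ‖cv2 (ca p) (arr (expSeq (AA 1 gc))) (d 0) (d 1) -
      (if d 0 = 0 ∧ d 1 = 0 then (1:ℂ) else 0)‖ ^ 2 =
      ∑' q : ℕ × ℕ, ‖cv2 (ca p) (arr (expSeq (AA 1 gc))) q.1 q.2 -
      (if q.1 = 0 ∧ q.2 = 0 then (1:ℂ) else 0)‖ ^ 2 :=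
    ex.tsum_eq (fun q : ℕ × ℕ => ‖cv2 (ca p) (arr (expSeq (AA 1 gc))) q.1 q.2 -
      (if q.1 = 0 ∧ q.2 = 0 then (1:ℂ) else 0)‖ ^ 2)
  rw [h2] at hp
  linarith

theorem final {gc : ℕ → ℂ} (hD : Data gc) :
    ∃ f g : MvPowerSeries (Fin 2) ℂ,
      Summable (fun d : Fin 2 →₀ ℕ => ‖MvPowerSeries.coeff (R := ℂ) d f‖ ^ 2) ∧
      Summable (fun d : Fin 2 →₀ ℕ => ‖MvPowerSeries.coeff (R := ℂ) d g‖ ^ 2) ∧
      Summable (fun d : Fin 2 →₀ ℕ => ‖MvPowerSeries.coeff (R := ℂ) d (f * g)‖ ^ 2) ∧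
      (∀ ε : ℝ, 0 < ε → ∃ p : MvPolynomial (Fin 2) ℂ,
        ∑' d : Fin 2 →₀ ℕ,
          ‖MvPowerSeries.coeff (R := ℂ) d ((p : MvPowerSeries (Fin 2) ℂ) * f - 1)‖ ^ 2 < ε) ∧
      (∀ ε : ℝ, 0 < ε → ∃ p : MvPolynomial (Fin 2) ℂ,
        ∑' d : Fin 2 →₀ ℕ,
          ‖MvPowerSeries.coeff (R := ℂ) d ((p : MvPowerSeries (Fin 2) ℂ) * g - 1)‖ ^ 2 < ε) ∧
      ¬ (∀ ε : ℝ, 0 < ε → ∃ p : MvPolynomial (Fin 2) ℂ,
        ∑' d : Fin 2 →₀ ℕ,
          ‖MvPowerSeries.coeff (R := ℂ) d ((p : MvPowerSeries (Fin 2) ℂ) * (f * g) - 1)‖ ^ 2 < ε) := by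
  have h2 : Summable (fun d : Fin 2 →₀ ℕ =>
      ‖MvPowerSeries.coeff (R := ℂ) d (ps (arr (expSeq (AA (1 / 2) gc))))‖ ^ 2) := by
    apply summable_ps
    apply arr_summable _ (exp_natDegree _ gc)
    have := sq_fin hD (1 / 2) (by rw [abs_of_pos (by norm_num)]; norm_num)
    simpa using this
  refine ⟨ps (arr (expSeq (AA (1 / 2) gc))), ps (arr (expSeq (AA (1 / 2) gc))), h2, h2, ?_,
    cyc hD, cyc hD, ?_⟩
  · rw [half_mul]
    apply summable_ps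
    apply arr_summable _ (exp_natDegree _ gc)
    have := sq_fin hD 1 (by simp)
    simpa using this
  · rw [half_mul]
    exact noncyc hD

end Pool.Agent.Helper655.BD.Ps
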