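import Mathlib
import Pool.Agent.Helper655.BDDefs

set_option autoImplicit false
open Finset
open Pool.Agent.Helper655.BD (mean ee PS)

namespace Pool.Agent.Helper655.DU

/-- lift of a function on the disc to the upper half plane -/
noncomputable def hp (f : ℂ → ℂ) (w : ℂ) : ℂ := f (Complex.exp (Complex.I * w))

/-- Cantor set of ratio 1/4 -/
def K4 : Set ℝ := {x | ∃ ε : ℕ → Bool, x = ∑' n : ℕ, (if ε n then (3:ℝ) else 0) / 4 ^ (n + 1)}

/-- logarithmic profile: zero on the ball of radius 2ρ, one outside the ball of radius 2ρ e^Λ -/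
noncomputable def Lp (c : ℂ) (ρ Λ : ℝ) (z : ℂ) : ℝ :=
  min 1 (Real.log (max ‖z - c‖ (2 * ρ) / (2 * ρ)) / Λ)

/-- truncated distance -/
noncomputable def Dp (S : Set ℂ) (σ : ℝ) (z : ℂ) : ℝ := min 1 (Metric.infDist z S / σ)

/-- the dip of a cell -/
noncomputable def uc (c : ℂ) (S : Set ℂ) (ρ σ Λ μ : ℝ) (z : ℂ) : ℝ :=
  (1 - Lp c ρ Λ z) * (1 - μ * Dp S σ z)

end Pool.Agent.Helper655.DU
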