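import Mathlib
import Pool.Agent.Helper655.DUDefs

set_option autoImplicit false
open Finset
open Pool.Agent.Helper655.BD (mean ee PS)

namespace Pool.Agent.Helper655.DU.A1


section vendored
theorem pv_norm_ee (t : ℝ) : ‖ee t‖ = 1 := by
  unfold ee
  exact Complex.norm_exp_ofReal_mul_I t

theorem pv_continuous_ee : Continuous ee := by
  unfold ee
  fun_prop

theorem pv_orth (m n : ℕ) (h : m ≠ n) :
    ∫ t in (0:ℝ)..(2 * Real.pi), ee t ^ m * (starRingEnd ℂ) (ee t ^ n) = 0 := by
  have hc : ((m : ℂ) - n) * Complex.I ≠ 0 := by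
    apply mul_ne_zero _ Complex.I_ne_zero
    rw [sub_ne_zero]
    exact_mod_cast h
  have h1 : (fun t : ℝ => ee t ^ m * (starRingEnd ℂ) (ee t ^ n)) =
      fun t : ℝ => Complex.exp (((m : ℂ) - n) * Complex.I * t) := by
    funext t
    unfold ee
    rw [map_pow, ← Complex.exp_conj, ← Complex.exp_nat_mul, ← Complex.exp_nat_mul,
      ← Complex.exp_add]
    congr 1
    simp only [map_mul, Complex.conj_ofReal, Complex.conj_I]
    ring
  rw [h1, integral_exp_mul_complex hc]
  have h2 : Complex.exp (((m : ℂ) - n) * Complex.I * ((2 * Real.pi : ℝ) : ℂ)) = 1 := by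
    rw [Complex.exp_eq_one_iff]
    refine ⟨(m : ℤ) - n, ?_⟩
    push_cast
    ring
  rw [h2]
  simp

theorem pv_fin (a : ℕ → ℂ) (N : ℕ) :
    mean (fun t => ‖∑ n ∈ range N, a n * ee t ^ n‖ ^ 2) = ∑ n ∈ range N, ‖a n‖ ^ 2 := by
  have hpi : (2 * Real.pi) ≠ 0 := by positivity
  induction N with
  | zero => simp [mean]
  | succ N ih =>
    have hce := pv_continuous_ee
    have hS : Continuous fun t => ∑ n ∈ range N, a n * ee t ^ n := by fun_prop
    have h1 : (fun t => ‖∑ n ∈ range (N + 1), a n * ee t ^ n‖ ^ 2) =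
        fun t => ‖∑ n ∈ range N, a n * ee t ^ n‖ ^ 2 + ‖a N‖ ^ 2 +
          2 * ((∑ n ∈ range N, a n * ee t ^ n) * (starRingEnd ℂ) (a N * ee t ^ N)).re := by
      funext t
      rw [sum_range_succ, ← Complex.normSq_eq_norm_sq, Complex.normSq_add,
        Complex.normSq_eq_norm_sq, Complex.normSq_eq_norm_sq, norm_mul, norm_pow, pv_norm_ee]
      simp
    have h2 : ∫ t in (0:ℝ)..(2 * Real.pi),
        (∑ n ∈ range N, a n * ee t ^ n) * (starRingEnd ℂ) (a N * ee t ^ N) = 0 := by
      have : (fun t : ℝ => (∑ n ∈ range N, a n * ee t ^ n) * (starRingEnd ℂ) (a N * ee t ^ N)) =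
          fun t => ∑ n ∈ range N, (a n * (starRingEnd ℂ) (a N)) *
            (ee t ^ n * (starRingEnd ℂ) (ee t ^ N)) := by
        funext t
        rw [sum_mul]
        refine sum_congr rfl fun n _ => ?_
        rw [map_mul]
        ring
      rw [this, intervalIntegral.integral_finsetSum]
      · refine sum_eq_zero fun n hn => ?_
        rw [intervalIntegral.integral_const_mul, pv_orth n N (by rw [mem_range] at hn; omega),
          mul_zero]
      · intro n _
        apply Continuous.intervalIntegrable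
        fun_prop
    have h3 : ∫ t in (0:ℝ)..(2 * Real.pi),
        ((∑ n ∈ range N, a n * ee t ^ n) * (starRingEnd ℂ) (a N * ee t ^ N)).re = 0 := by
      have h4 := Complex.reCLM.intervalIntegral_comp_comm (μ := MeasureTheory.volume)
        (a := (0:ℝ)) (b := 2 * Real.pi)
        (f := fun t => (∑ n ∈ range N, a n * ee t ^ n) * (starRingEnd ℂ) (a N * ee t ^ N))
        (Continuous.intervalIntegrable (by fun_prop) _ _)
      simp only [Complex.reCLM_apply] at h4
      rw [h4, h2]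
      simp
    rw [sum_range_succ, ← ih]
    unfold mean
    rw [h1, intervalIntegral.integral_add, intervalIntegral.integral_add,
      intervalIntegral.integral_const_mul, h3]
    · simp only [intervalIntegral.integral_const, sub_zero, smul_eq_mul, mul_zero, add_zero]
      field_simp
    · apply Continuous.intervalIntegrable
      fun_prop
    · exact intervalIntegrable_const
    · apply Continuous.intervalIntegrable
      fun_prop
    · apply Continuous.intervalIntegrable
      apply Continuous.const_mul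
      apply Complex.continuous_re.comp
      fun_prop

theorem pv_main (a : ℕ → ℂ) (h : Summable fun n => ‖a n‖) :
    (Summable fun n => ‖a n‖ ^ 2) ∧
    mean (fun t => ‖∑' n, a n * ee t ^ n‖ ^ 2) = ∑' n, ‖a n‖ ^ 2 := by
  have hs2 : Summable fun n => ‖a n‖ ^ 2 := by
    refine Summable.of_nonneg_of_le (fun n => by positivity) (fun n => ?_)
      (h.mul_left (∑' n, ‖a n‖))
    rw [sq]
    exact mul_le_mul_of_nonneg_right (h.le_tsum n (fun _ _ => norm_nonneg _)) (norm_nonneg _)
  refine ⟨hs2, ?_⟩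
  have hce := pv_continuous_ee
  have hL : Filter.Tendsto (fun N => mean (fun t => ‖∑ n ∈ range N, a n * ee t ^ n‖ ^ 2))
      Filter.atTop (nhds (∑' n, ‖a n‖ ^ 2)) := by
    simp only [pv_fin]
    exact hs2.hasSum.tendsto_sum_nat
  refine tendsto_nhds_unique ?_ hL
  unfold mean
  apply Filter.Tendsto.const_mul
  have hn : ∀ t n, ‖a n * ee t ^ n‖ = ‖a n‖ := by
    intro t n
    rw [norm_mul, norm_pow, pv_norm_ee]
    simp
  apply intervalIntegral.tendsto_integral_filter_of_dominated_convergence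
    (fun _ => (∑' n, ‖a n‖) ^ 2)
  · refine Filter.Eventually.of_forall fun N => ?_
    apply Continuous.aestronglyMeasurable
    fun_prop
  · refine Filter.Eventually.of_forall fun N => Filter.Eventually.of_forall fun t _ => ?_
    rw [Real.norm_of_nonneg (by positivity)]
    apply pow_le_pow_left₀ (norm_nonneg _)
    refine (norm_sum_le _ _).trans ?_
    simp only [hn]
    exact h.sum_le_tsum _ (fun _ _ => norm_nonneg _)
  · exact intervalIntegrable_const
  · refine Filter.Eventually.of_forall fun t _ => ?_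
    have hst : Summable fun n => a n * ee t ^ n := by
      apply Summable.of_norm
      simpa only [hn] using h
    exact (hst.hasSum.tendsto_sum_nat.norm).pow 2


theorem pv_parseval (e : ℕ → ℂ) (r : ℝ) (hr : 0 ≤ r) (h : Summable fun n => ‖e n‖ * r ^ n) :
    (Summable fun n => ‖e n‖ ^ 2 * r ^ (2 * n)) ∧
    mean (fun t => ‖∑' n, e n * (r * ee t) ^ n‖ ^ 2) = ∑' n, ‖e n‖ ^ 2 * r ^ (2 * n) := by
  have h1 : ∀ n, ‖e n * (r : ℂ) ^ n‖ = ‖e n‖ * r ^ n := by
    intro n
    rw [norm_mul, norm_pow, Complex.norm_real, Real.norm_of_nonneg hr]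
  have h2 : ∀ n, ‖e n * (r : ℂ) ^ n‖ ^ 2 = ‖e n‖ ^ 2 * r ^ (2 * n) := by
    intro n
    rw [h1]
    ring
  have h3 := pv_main (fun n => e n * (r : ℂ) ^ n) (by simpa only [h1] using h)
  simp only [h2] at h3
  refine ⟨h3.1, ?_⟩
  rw [← h3.2]
  simp only [mul_pow, mul_assoc]


end vendored

open MeasureTheory Set in
theorem ce_series (f : ℂ → ℂ) (hf : DifferentiableOn ℂ f (Metric.ball (0:ℂ) 1)) :
    (∀ z ∈ Metric.ball (0:ℂ) 1,
      HasSum (fun n : ℕ => (((n.factorial : ℂ))⁻¹ * iteratedDeriv n f 0) * z ^ n) (f z)) ∧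
    (∀ r : ℝ, 0 ≤ r → r < 1 →
      Summable fun n : ℕ => ‖((n.factorial : ℂ))⁻¹ * iteratedDeriv n f 0‖ * r ^ n) := by
  have h1 : ∀ z ∈ Metric.ball (0:ℂ) 1,
      HasSum (fun n : ℕ => (((n.factorial : ℂ))⁻¹ * iteratedDeriv n f 0) * z ^ n) (f z) := by
    intro z hz
    have h := Complex.hasSum_taylorSeries_on_ball hf hz
    refine h.congr_fun ?_ |> fun h' => h'
    intro n
    simp only [sub_zero, smul_eq_mul]
    ring
  refine ⟨h1, ?_⟩
  intro r hr0 hr1
  obtain ⟨s, hs1, hs2⟩ := exists_between hr1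
  have hs0 : 0 < s := lt_of_le_of_lt hr0 hs1
  have hsm : ((s : ℝ) : ℂ) ∈ Metric.ball (0:ℂ) 1 := by
    rw [mem_ball_zero_iff, Complex.norm_real, Real.norm_of_nonneg hs0.le]
    exact hs2
  obtain ⟨C, hC⟩ := (h1 s hsm).summable.tendsto_atTop_zero.norm.bddAbove_range
  have hq : Summable fun n : ℕ => C * (r / s) ^ n := by
    apply Summable.mul_left
    apply summable_geometric_of_lt_one (by positivity)
    rw [div_lt_one hs0]
    exact hs1
  refine Summable.of_nonneg_of_le (fun n => by positivity) (fun n => ?_) hq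
  have h2 := hC (mem_range_self n)
  simp only [norm_mul, norm_pow, Complex.norm_real, Real.norm_of_nonneg hs0.le] at h2
  rw [norm_mul]
  calc ‖((n.factorial : ℂ))⁻¹‖ * ‖iteratedDeriv n f 0‖ * r ^ n =
      (‖((n.factorial : ℂ))⁻¹‖ * ‖iteratedDeriv n f 0‖ * s ^ n) * (r / s) ^ n := by
        rw [div_pow]; field_simp
    _ ≤ C * (r / s) ^ n := mul_le_mul_of_nonneg_right h2 (by positivity)

open MeasureTheory Set in
theorem ce_energy (g : ℂ → ℂ) (b : ℕ → ℂ) (hg : ContinuousOn g (Metric.ball (0:ℂ) 1))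
    (hb : ∀ z ∈ Metric.ball (0:ℂ) 1, HasSum (fun n => b n * z ^ n) (g z))
    (hs : ∀ r : ℝ, 0 ≤ r → r < 1 → Summable fun n => ‖b n‖ * r ^ n) (N : ℕ) :
    ENNReal.ofReal (∑ n ∈ range N, Real.pi * ‖b n‖ ^ 2 / (n + 1)) ≤
      ∫⁻ z in Metric.ball (0:ℂ) 1, ‖g z‖ₑ ^ 2 := by
  have hpi := Real.pi_pos
  have hce := pv_continuous_ee
  set S : Set (ℝ × ℝ) := Ioo (0:ℝ) 1 ×ˢ Ioo (-Real.pi) Real.pi with hS
  have hSm : MeasurableSet S := measurableSet_Ioo.prod measurableSet_Ioo
  have hmem : ∀ (r t : ℝ), r ∈ Ioo (0:ℝ) 1 → ((r:ℂ) * ee t) ∈ Metric.ball (0:ℂ) 1 := by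
    intro r t hr
    rw [mem_ball_zero_iff, norm_mul, pv_norm_ee, mul_one, Complex.norm_real,
      Real.norm_of_nonneg hr.1.le]
    exact hr.2
  have h1 : ∫⁻ z in Metric.ball (0:ℂ) 1, ‖g z‖ₑ ^ 2 =
      ∫⁻ p in polarCoord.target, ENNReal.ofReal p.1 •
        ((Metric.ball (0:ℂ) 1).indicator (fun z => ‖g z‖ₑ ^ 2)) (Complex.polarCoord.symm p) := by
    rw [Complex.lintegral_comp_polarCoord_symm, lintegral_indicator measurableSet_ball]
  have hsub : S ⊆ polarCoord.target := by
    rintro ⟨r, t⟩ ⟨hr, ht⟩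
    exact ⟨hr.1, ht⟩
  have h2 : ∫⁻ p in S, ENNReal.ofReal (p.1 * ‖g (p.1 * ee p.2)‖ ^ 2) ≤
      ∫⁻ z in Metric.ball (0:ℂ) 1, ‖g z‖ₑ ^ 2 := by
    rw [h1]
    refine le_trans (le_of_eq ?_) (lintegral_mono_set hsub)
    apply setLIntegral_congr_fun hSm
    rintro ⟨r, t⟩ ⟨hr, ht⟩
    have e1 : (Complex.polarCoord.symm (r, t) : ℂ) = (r:ℂ) * ee t := by
      rw [Complex.polarCoord_symm_apply, ee, Complex.exp_mul_I]
      push_cast
      rfl
    simp only
    rw [e1, indicator_of_mem (hmem r t hr), smul_eq_mul, ENNReal.ofReal_mul hr.1.le,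
      ENNReal.ofReal_pow (norm_nonneg _), ofReal_norm_eq_enorm]
  refine le_trans ?_ h2
  have h3 : ∫⁻ p in S, ENNReal.ofReal (p.1 * ‖g (p.1 * ee p.2)‖ ^ 2) =
      ∫⁻ r in Ioo (0:ℝ) 1, ∫⁻ t in Ioo (-Real.pi) Real.pi,
        ENNReal.ofReal (r * ‖g (r * ee t)‖ ^ 2) := by
    rw [hS, Measure.volume_eq_prod, ← Measure.prod_restrict, lintegral_prod]
    rw [Measure.prod_restrict, ← hS]
    apply AEMeasurable.ennreal_ofReal
    apply ContinuousOn.aemeasurable _ hSm
    apply ContinuousOn.mul continuousOn_fst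
    apply ContinuousOn.pow
    apply ContinuousOn.norm
    apply hg.comp (by fun_prop)
    rintro ⟨r, t⟩ ⟨hr, ht⟩
    exact hmem r t hr
  rw [h3]
  have h4 : ∀ r ∈ Ioo (0:ℝ) 1, ENNReal.ofReal (r * (2 * Real.pi * ∑ n ∈ range N, ‖b n‖ ^ 2 * r ^ (2 * n))) ≤
      ∫⁻ t in Ioo (-Real.pi) Real.pi, ENNReal.ofReal (r * ‖g (r * ee t)‖ ^ 2) := by
    intro r hr
    have hcont : Continuous fun t : ℝ => r * ‖g (r * ee t)‖ ^ 2 := by
      apply continuous_const.mul
      apply Continuous.pow
      apply Continuous.norm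
      exact hg.comp_continuous (by fun_prop) (fun t => hmem r t hr)
    rw [← ofReal_integral_eq_lintegral_ofReal]
    · apply ENNReal.ofReal_le_ofReal
      rw [integral_const_mul]
      apply mul_le_mul_of_nonneg_left _ hr.1.le
      rw [← integral_Ioc_eq_integral_Ioo, ← intervalIntegral.integral_of_le (by linarith)]
      have hper : Function.Periodic (fun t : ℝ => ‖g (r * ee t)‖ ^ 2) (2 * Real.pi) := by
        intro t
        have : ee (t + 2 * Real.pi) = ee t := by
          unfold ee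
          push_cast
          rw [add_mul, Complex.exp_add]
          rw [Complex.exp_two_pi_mul_I, mul_one]
        simp only [this]
      have e2 := hper.intervalIntegral_add_eq (-Real.pi) 0
      rw [show -Real.pi + 2 * Real.pi = Real.pi by ring, zero_add] at e2
      rw [e2]
      obtain ⟨p1, p2⟩ := pv_parseval b r hr.1.le (hs r hr.1.le hr.2)
      have e3 : (fun t : ℝ => ‖∑' n, b n * (r * ee t) ^ n‖ ^ 2) = fun t => ‖g (r * ee t)‖ ^ 2 := by
        funext t
        rw [(hb _ (hmem r t hr)).tsum_eq]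
      rw [e3] at p2
      unfold mean at p2
      have e4 : ∫ t in (0:ℝ)..(2 * Real.pi), ‖g (r * ee t)‖ ^ 2 =
          2 * Real.pi * ∑' n, ‖b n‖ ^ 2 * r ^ (2 * n) := by
        rw [← p2]; field_simp
      rw [e4]
      apply mul_le_mul_of_nonneg_left _ (by positivity)
      have hr0 := hr.1
      exact p1.sum_le_tsum _ (fun _ _ => by positivity)
    · exact (hcont.integrableOn_Icc (a := -Real.pi) (b := Real.pi)).mono_set Ioo_subset_Icc_self
    · refine Filter.Eventually.of_forall fun t => ?_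
      have hr0 := hr.1
      positivity
  refine le_trans ?_ (setLIntegral_mono' measurableSet_Ioo h4)
  rw [← ofReal_integral_eq_lintegral_ofReal]
  · apply le_of_eq
    congr 1
    rw [← integral_Ioc_eq_integral_Ioo, ← intervalIntegral.integral_of_le zero_le_one]
    have e5 : ∀ r : ℝ, r * (2 * Real.pi * ∑ n ∈ range N, ‖b n‖ ^ 2 * r ^ (2 * n)) =
        ∑ n ∈ range N, (2 * Real.pi * ‖b n‖ ^ 2) * r ^ (2 * n + 1) := by
      intro r
      rw [mul_sum, mul_sum]
      refine sum_congr rfl fun n _ => ?_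
      ring
    simp only [e5]
    rw [intervalIntegral.integral_finsetSum]
    · refine sum_congr rfl fun n _ => ?_
      rw [intervalIntegral.integral_const_mul, integral_pow]
      push_cast
      have : (2 * (n:ℝ) + 1 + 1) ≠ 0 := by positivity
      field_simp
      simp
      ring
    · intro n _
      apply Continuous.intervalIntegrable
      fun_prop
  · have : Continuous fun r : ℝ => r * (2 * Real.pi * ∑ n ∈ range N, ‖b n‖ ^ 2 * r ^ (2 * n)) := by
      fun_prop
    exact (this.integrableOn_Icc (a := 0) (b := 1)).mono_set Ioo_subset_Icc_self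
  · rw [Filter.EventuallyLE, ae_restrict_iff' measurableSet_Ioo]
    refine Filter.Eventually.of_forall fun r hr => ?_
    have hr0 := hr.1
    positivity

/-- TARGET -/
theorem coeff_energy (f : ℂ → ℂ) (hf : DifferentiableOn ℂ f (Metric.ball (0:ℂ) 1))
    (hE : ∫⁻ z in Metric.ball (0:ℂ) 1, ‖deriv f z‖ₑ ^ 2 < ⊤) :
    ∃ a : ℕ → ℂ, (∀ z ∈ Metric.ball (0:ℂ) 1, HasSum (fun n => a n * z ^ n) (f z)) ∧
      (∀ r : ℝ, 0 ≤ r → r < 1 → Summable fun n => ‖a n‖ * r ^ n) ∧
      Summable fun n : ℕ => (n:ℝ) * ‖a n‖ ^ 2 := by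
  obtain ⟨h1, h2⟩ := ce_series f hf
  refine ⟨_, h1, h2, ?_⟩
  have hd : DifferentiableOn ℂ (deriv f) (Metric.ball (0:ℂ) 1) := hf.deriv Metric.isOpen_ball
  obtain ⟨h3, h4⟩ := ce_series (deriv f) hd
  rw [← summable_nat_add_iff 1]
  have hE' : (∫⁻ z in Metric.ball (0:ℂ) 1, ‖deriv f z‖ₑ ^ 2) ≠ ⊤ := hE.ne
  apply summable_of_sum_range_le (c := (∫⁻ z in Metric.ball (0:ℂ) 1, ‖deriv f z‖ₑ ^ 2).toReal / Real.pi)
  · intro n; positivity
  · intro N
    have h5 := ce_energy (deriv f) _ hd.continuousOn h3 h4 N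
    have h6 := (ENNReal.ofReal_le_iff_le_toReal hE').1 h5
    rw [le_div_iff₀ Real.pi_pos]
    refine le_trans (le_of_eq ?_) h6
    rw [sum_mul]
    refine sum_congr rfl fun n _ => ?_
    rw [iteratedDeriv_succ', norm_mul, norm_mul, norm_inv, norm_inv, Complex.norm_natCast,
      Complex.norm_natCast, Nat.factorial_succ]
    push_cast
    have : (n.factorial : ℝ) ≠ 0 := by positivity
    field_simp

end Pool.Agent.Helper655.DU.A1
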