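import Mathlib
import Pool.Agent.Helper655.DUDefs
import Pool.Agent.Helper655.BDJ13

set_option autoImplicit false
open Finset
open Pool.Agent.Helper655.BD (mean ee PS)

namespace Pool.Agent.Helper655.DU.A6

open Pool.Agent.Helper655.BD.J13 (submean)


theorem log_max_lip (a b τ : ℝ) (hτ : 0 < τ) :
    Real.log (max a τ) ≤ Real.log (max b τ) + |a - b| / τ := by
  have hb : 0 < max b τ := lt_max_of_lt_right hτ
  have ha : 0 < max a τ := lt_max_of_lt_right hτ
  have h1 : max a τ ≤ max b τ + |a - b| := by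
    apply max_le
    · have := le_abs_self (a - b)
      have := le_max_left b τ
      linarith
    · have := abs_nonneg (a - b)
      have := le_max_right b τ
      linarith
  have h2 : Real.log (max a τ) - Real.log (max b τ) ≤ max a τ / max b τ - 1 := by
    rw [← Real.log_div ha.ne' hb.ne']
    exact Real.log_le_sub_one_of_pos (div_pos ha hb)
  have h3 : max a τ / max b τ - 1 ≤ |a - b| / τ := by
    have : max a τ / max b τ - 1 = (max a τ - max b τ) / max b τ := by field_simp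
    rw [this]
    calc (max a τ - max b τ) / max b τ ≤ |a - b| / max b τ := by
          apply div_le_div_of_nonneg_right _ hb.le; linarith
      _ ≤ |a - b| / τ := by
          apply div_le_div_of_nonneg_left (abs_nonneg _) hτ (le_max_right _ _)
  linarith

theorem norm_ee' (t : ℝ) : ‖ee t‖ = 1 := by
  unfold ee; rw [Complex.norm_exp_ofReal_mul_I]

theorem continuous_ee : Continuous ee := by
  unfold ee; fun_prop

theorem ker_pos_den (ρ : ℝ) (h0 : 0 ≤ ρ) (h1 : ρ < 1) (s t : ℝ) : 0 < ‖ee s - ρ * ee t‖ := by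
  have h2 : ‖ee s‖ - ‖(ρ:ℂ) * ee t‖ ≤ ‖ee s - ρ * ee t‖ := norm_sub_norm_le _ _
  rw [norm_mul, norm_ee', norm_ee', Complex.norm_real, Real.norm_eq_abs, abs_of_nonneg h0] at h2
  linarith

theorem PS_le (ρ : ℝ) (h0 : 0 ≤ ρ) (h1 : ρ < 1) (φ ψ : ℝ → ℝ) (hφ : Continuous φ)
    (hψ : Continuous ψ) (c : ℝ) (h : ∀ s, φ s ≤ ψ s + c) (t : ℝ) :
    PS ρ φ t ≤ PS ρ ψ t + c * PS ρ (fun _ => 1) t := by
  have hk : Continuous (fun s => (1 - ρ ^ 2) / ‖ee s - ρ * ee t‖ ^ 2) := by
    apply Continuous.div continuous_const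
    · exact ((continuous_ee.sub continuous_const).norm).pow 2
    · intro s
      exact (pow_pos (ker_pos_den ρ h0 h1 s t) 2).ne'
  have hk0 : ∀ s, 0 ≤ (1 - ρ ^ 2) / ‖ee s - ρ * ee t‖ ^ 2 := by
    intro s
    apply div_nonneg
    · nlinarith
    · positivity
  unfold PS mean
  have e : (2 * Real.pi)⁻¹ * (∫ s in (0:ℝ)..(2 * Real.pi), (1 - ρ ^ 2) / ‖ee s - ρ * ee t‖ ^ 2 * ψ s) +
      c * ((2 * Real.pi)⁻¹ * ∫ s in (0:ℝ)..(2 * Real.pi), (1 - ρ ^ 2) / ‖ee s - ρ * ee t‖ ^ 2 * 1)
      = (2 * Real.pi)⁻¹ * (∫ s in (0:ℝ)..(2 * Real.pi), ((1 - ρ ^ 2) / ‖ee s - ρ * ee t‖ ^ 2 * ψ s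
        + c * ((1 - ρ ^ 2) / ‖ee s - ρ * ee t‖ ^ 2 * 1))) := by
    rw [intervalIntegral.integral_add, intervalIntegral.integral_const_mul]
    · ring
    · exact (hk.mul hψ).intervalIntegrable _ _
    · exact (continuous_const.mul (hk.mul continuous_const)).intervalIntegrable _ _
  rw [e]
  apply mul_le_mul_of_nonneg_left _ (by positivity)
  apply intervalIntegral.integral_mono_on (by positivity)
  · exact (hk.mul hφ).intervalIntegrable _ _
  · exact ((hk.mul hψ).add (continuous_const.mul (hk.mul continuous_const))).intervalIntegrable _ _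
  · intro s _
    have := mul_le_mul_of_nonneg_left (h s) (hk0 s)
    linarith

/-- uniform approximation by nonzero polynomials -/
theorem exists_poly (f : ℂ → ℂ) (hf : DifferentiableOn ℂ f (Metric.ball (0:ℂ) 1)) (R : ℝ)
    (hR0 : 0 < R) (hR : R < 1) (ε : ℝ) (hε : 0 < ε) :
    ∃ p : Polynomial ℂ, p ≠ 0 ∧ ∀ z : ℂ, ‖z‖ ≤ R → ‖f z - p.eval z‖ ≤ ε := by
  -- first any polynomial
  have h1 : ∃ p : Polynomial ℂ, ∀ z : ℂ, ‖z‖ ≤ R → ‖f z - p.eval z‖ ≤ ε / 2 := by
    set R' : ℝ := (1 + R) / 2 with hR'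
    have hR'0 : 0 < R' := by rw [hR']; linarith
    have hR'1 : R' < 1 := by rw [hR']; linarith
    have hRR' : R < R' := by rw [hR']; linarith
    obtain ⟨Rn, hRn⟩ : ∃ Rn : NNReal, (Rn : ℝ) = R' := ⟨⟨R', hR'0.le⟩, rfl⟩
    have hdo : DifferentiableOn ℂ f (Metric.closedBall (0:ℂ) (Rn : ℝ)) := by
      rw [hRn]; exact hf.mono (Metric.closedBall_subset_ball hR'1)
    have hps := hdo.hasFPowerSeriesOnBall (by rw [← NNReal.coe_pos, hRn]; exact hR'0)
    rw [hRn] at hps
    have hR2 : ∃ R2 : NNReal, R < R2 ∧ (R2 : ℝ) < R' :=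
      ⟨⟨(R + R') / 2, by linarith⟩, by show R < (R + R')/2; linarith,
        by show (R + R')/2 < R'; linarith⟩
    obtain ⟨R2, hRR2, hR2R'⟩ := hR2
    have hlt : (R2 : ENNReal) < (Rn : ENNReal) := by
      rw [ENNReal.coe_lt_coe, ← NNReal.coe_lt_coe, hRn]
      exact hR2R'
    have htu := hps.tendstoUniformlyOn hlt
    rw [Metric.tendstoUniformlyOn_iff] at htu
    obtain ⟨n, hn⟩ := (htu (ε / 2) (by linarith)).exists
    refine ⟨∑ k ∈ Finset.range n, Polynomial.C ((cauchyPowerSeries f 0 R').coeff k) * Polynomial.X ^ k, ?_⟩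
    intro z hz
    have hz' := hn z (by simpa using lt_of_le_of_lt hz hRR2)
    rw [dist_eq_norm, zero_add] at hz'
    refine le_of_eq_of_le ?_ hz'.le
    congr 2
    rw [Polynomial.eval_finsetSum]
    unfold FormalMultilinearSeries.partialSum
    apply Finset.sum_congr rfl
    intro k _
    rw [Polynomial.eval_mul, Polynomial.eval_C, Polynomial.eval_pow, Polynomial.eval_X,
      FormalMultilinearSeries.apply_eq_pow_smul_coeff]
    rw [smul_eq_mul, mul_comm]
  obtain ⟨p, hp⟩ := h1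
  by_cases h0 : p = 0
  · refine ⟨Polynomial.C ((ε / 2 : ℝ) : ℂ), ?_, ?_⟩
    · rw [Ne, Polynomial.C_eq_zero]
      exact_mod_cast (by linarith : (0:ℝ) < ε / 2).ne'
    · intro z hz
      have := hp z hz
      rw [h0] at this
      simp only [Polynomial.eval_zero, sub_zero] at this
      rw [Polynomial.eval_C]
      calc ‖f z - ((ε / 2 : ℝ) : ℂ)‖ ≤ ‖f z‖ + ‖((ε / 2 : ℝ) : ℂ)‖ := norm_sub_le _ _
        _ ≤ ε / 2 + ε / 2 := by
            apply add_le_add this
            rw [Complex.norm_real, Real.norm_eq_abs, abs_of_pos (by linarith)]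
        _ = ε := by ring
  · exact ⟨p, h0, fun z hz => (hp z hz).trans (by linarith)⟩

/-- TARGET -/
theorem submean_an (f : ℂ → ℂ) (hf : DifferentiableOn ℂ f (Metric.ball (0:ℂ) 1)) (τ : ℝ)
    (hτ : 0 < τ) (r R : ℝ) (hr : 0 ≤ r) (hrR : r < R) (hR : R < 1) (t : ℝ) :
    Real.log (max ‖f (r * ee t)‖ τ) ≤
      PS (r / R) (fun s => Real.log (max ‖f (R * ee s)‖ τ)) t := by
  have hR0 : 0 < R := lt_of_le_of_lt hr hrR
  have hρ0 : 0 ≤ r / R := div_nonneg hr hR0.le
  have hρ1 : r / R < 1 := (div_lt_one hR0).mpr hrR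
  have hcf : Continuous (fun s : ℝ => Real.log (max ‖f (R * ee s)‖ τ)) := by
    have c1 : Continuous (fun s : ℝ => f (R * ee s)) := by
      have c0 : Continuous (fun s : ℝ => (R:ℂ) * ee s) := continuous_const.mul continuous_ee
      refine hf.continuousOn.comp_continuous c0 ?_
      intro s
      simp only [Metric.mem_ball, dist_zero_right, norm_mul, norm_ee', Complex.norm_real,
        Real.norm_eq_abs, abs_of_pos hR0, mul_one]
      exact hR
    apply Continuous.log (c1.norm.max continuous_const)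
    intro s
    exact (lt_max_of_lt_right hτ).ne'
  set M : ℝ := PS (r / R) (fun _ => 1) t with hM
  -- key: for every ε
  have key : ∀ ε : ℝ, 0 < ε → Real.log (max ‖f (r * ee t)‖ τ) ≤
      PS (r / R) (fun s => Real.log (max ‖f (R * ee s)‖ τ)) t + ε / τ * (1 + M) := by
    intro ε hε
    obtain ⟨p, hp0, hp⟩ := exists_poly f hf R hR0 hR ε hε
    have hcp : Continuous (fun s : ℝ => Real.log (max ‖p.eval (R * ee s)‖ τ)) := by
      apply Continuous.log
      · exact ((p.continuous.comp (continuous_const.mul continuous_ee)).norm.max continuous_const)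
      · intro s; exact (lt_max_of_lt_right hτ).ne'
    have hdiff : ∀ z : ℂ, ‖z‖ ≤ R → |‖f z‖ - ‖p.eval z‖| ≤ ε := fun z hz =>
      (abs_norm_sub_norm_le _ _).trans (hp z hz)
    have s1 : Real.log (max ‖f (r * ee t)‖ τ) ≤ Real.log (max ‖p.eval (r * ee t)‖ τ) + ε / τ := by
      refine (log_max_lip _ ‖p.eval (r * ee t)‖ τ hτ).trans ?_
      have := hdiff (r * ee t) (by
        rw [norm_mul, norm_ee', Complex.norm_real, Real.norm_eq_abs, abs_of_nonneg hr]; linarith)
      gcongr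
    have s2 := submean p hp0 τ hτ r R hr hrR t
    have s3 := PS_le (r / R) hρ0 hρ1 (fun s => Real.log (max ‖p.eval (R * ee s)‖ τ))
      (fun s => Real.log (max ‖f (R * ee s)‖ τ)) hcp hcf (ε / τ) (by
        intro s
        refine (log_max_lip _ ‖f (R * ee s)‖ τ hτ).trans ?_
        have := hdiff (R * ee s) (by
          rw [norm_mul, norm_ee', Complex.norm_real, Real.norm_eq_abs, abs_of_pos hR0]; linarith)
        rw [abs_sub_comm] at this
        gcongr) t
    rw [← hM] at s3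
    linarith
  -- let ε → 0
  apply le_of_forall_pos_le_add
  intro δ hδ
  have hM1 : 0 < 1 + |M| := by positivity
  have h := key (δ * τ / (1 + |M|)) (by positivity)
  refine h.trans ?_
  have : δ * τ / (1 + |M|) / τ * (1 + M) ≤ δ := by
    have e : δ * τ / (1 + |M|) / τ = δ / (1 + |M|) := by field_simp
    rw [e, div_mul_eq_mul_div, div_le_iff₀ hM1]
    have := le_abs_self M
    nlinarith
  linarith

end Pool.Agent.Helper655.DU.A6
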