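import Mathlib
import Pool.Agent.Helper655.DUDefs
import Pool.Agent.Helper655.DUA6

set_option autoImplicit false
open Finset
open Pool.Agent.Helper655.BD (mean ee PS)

namespace Pool.Agent.Helper655.DU.A6b

open Pool.Agent.Helper655.DU.A6 (submean_an)


/-- TARGET -/
theorem sq_submean (f : ℂ → ℂ) (hf : DifferentiableOn ℂ f (Metric.ball (0:ℂ) 1))
    (r R : ℝ) (hr : 0 ≤ r) (hrR : r < R) (hR : R < 1) (t : ℝ) :
    ‖f (r * ee t)‖ ^ 2 ≤ PS (r / R) (fun s => ‖f (R * ee s)‖ ^ 2) t := by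
  have hR0 : 0 < R := hr.trans_lt hrR
  have hee : ∀ s : ℝ, ‖ee s‖ = 1 := fun s => by
    unfold ee; exact Complex.norm_exp_ofReal_mul_I s
  have hdc : DiffContOnCl ℂ (fun z => f z ^ 2) (Metric.ball (0:ℂ) R) := by
    apply DifferentiableOn.diffContOnCl
    apply DifferentiableOn.mono (hf.pow 2)
    rw [closure_ball _ hR0.ne']
    exact Metric.closedBall_subset_ball hR
  have hw : (r * ee t : ℂ) ∈ Metric.ball (0:ℂ) R := by
    rw [mem_ball_zero_iff, norm_mul, hee, Complex.norm_real, Real.norm_of_nonneg hr, mul_one]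
    exact hrR
  have h1 := hdc.circleAverage_poissonKernel_smul' hw
  rw [Real.circleAverage_def] at h1
  have hk : ∀ θ : ℝ, ((‖circleMap 0 R θ - 0‖ ^ 2 - ‖(r * ee t : ℂ) - 0‖ ^ 2) /
      ‖(circleMap 0 R θ - 0) - ((r * ee t : ℂ) - 0)‖ ^ 2) • f (circleMap 0 R θ) ^ 2 =
      ((1 - (r / R) ^ 2) / ‖ee θ - ((r / R : ℝ) : ℂ) * ee t‖ ^ 2) • f (R * ee θ) ^ 2 := by
    intro θ
    have e1 : circleMap 0 R θ = R * ee θ := by unfold circleMap ee; simp
    have e2 : (R * ee θ : ℂ) - r * ee t = R * (ee θ - ((r / R : ℝ) : ℂ) * ee t) := by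
      have : (R : ℂ) ≠ 0 := by exact_mod_cast hR0.ne'
      push_cast
      field_simp
    rw [sub_zero, sub_zero, e1, e2, norm_mul, norm_mul, norm_mul, hee, hee, Complex.norm_real,
      Complex.norm_real, Real.norm_of_nonneg hr, Real.norm_of_nonneg hR0.le, mul_one, mul_one]
    congr 1
    rw [mul_pow]
    have hR2 : R ^ 2 ≠ 0 := by positivity
    rw [show R ^ 2 - r ^ 2 = R ^ 2 * (1 - (r / R) ^ 2) by field_simp, mul_div_mul_left _ _ hR2]
  simp only [hk] at h1
  have hρ : (r / R) ^ 2 ≤ 1 := by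
    have h2 : r / R ≤ 1 := (div_le_one hR0).2 hrR.le
    have h3 : 0 ≤ r / R := by positivity
    nlinarith
  have hn : ‖f (r * ee t)‖ ^ 2 = ‖f (r * ee t) ^ 2‖ := (norm_pow _ _).symm
  rw [hn, ← h1, norm_smul, Real.norm_of_nonneg (by positivity)]
  unfold PS mean
  apply mul_le_mul_of_nonneg_left _ (by positivity)
  refine (intervalIntegral.norm_integral_le_integral_norm (by positivity)).trans (le_of_eq ?_)
  apply intervalIntegral.integral_congr
  intro θ _
  simp only
  rw [norm_smul, norm_pow, Real.norm_of_nonneg]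
  apply div_nonneg _ (by positivity)
  linarith

end Pool.Agent.Helper655.DU.A6b
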