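import Mathlib
import Pool.Agent.Helper655.DUDefs
import Pool.Agent.Helper655.DUA6
import Pool.Agent.Helper655.DUA6b

set_option autoImplicit false
open Finset
open Pool.Agent.Helper655.BD (mean ee PS)

namespace Pool.Agent.Helper655.DU.A7

open Pool.Agent.Helper655.DU.A6 (submean_an)
open Pool.Agent.Helper655.DU.A6b (sq_submean)



theorem h59_ee_norm (t : ℝ) : ‖ee t‖ = 1 := by
  unfold ee; exact Complex.norm_exp_ofReal_mul_I t

theorem h59_ee_cont : Continuous ee := by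
  unfold ee; fun_prop

theorem h59_den_pos {ρ : ℝ} (h0 : 0 ≤ ρ) (h1 : ρ < 1) (s t : ℝ) : 0 < ‖ee s - ρ * ee t‖ := by
  have h : ‖ee s‖ - ‖(ρ:ℂ) * ee t‖ ≤ ‖ee s - ρ * ee t‖ := norm_sub_norm_le _ _
  rw [norm_mul, h59_ee_norm, h59_ee_norm, Complex.norm_real, Real.norm_of_nonneg h0] at h
  linarith

theorem h59_ker_cont {ρ : ℝ} (h0 : 0 ≤ ρ) (h1 : ρ < 1) (t : ℝ) :
    Continuous (fun s : ℝ => (1 - ρ ^ 2) / ‖ee s - ρ * ee t‖ ^ 2) := by
  have hc := h59_ee_cont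
  refine Continuous.div continuous_const ?_ ?_
  · fun_prop
  · intro p; exact (pow_pos (h59_den_pos h0 h1 p t) 2).ne'

theorem h59_ker_nonneg {ρ : ℝ} (h0 : 0 ≤ ρ) (h1 : ρ < 1) (s t : ℝ) :
    0 ≤ (1 - ρ ^ 2) / ‖ee s - ρ * ee t‖ ^ 2 := by
  have : 0 ≤ 1 - ρ ^ 2 := by nlinarith
  positivity

theorem h59_poly_poisson (Q : Polynomial ℂ) {ρ : ℝ} (h0 : 0 ≤ ρ) (h1 : ρ < 1) (t : ℝ) :
    mean (fun s => (1 - ρ ^ 2) / ‖ee s - ρ * ee t‖ ^ 2 * (Q.eval (ee s)).re) =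
      (Q.eval (ρ * ee t)).re := by
  have hd : DiffContOnCl ℂ (fun z => Q.eval z) (Metric.ball (0:ℂ) 1) :=
    (Polynomial.differentiable Q).diffContOnCl
  have hw : (ρ:ℂ) * ee t ∈ Metric.ball (0:ℂ) 1 := by
    rw [mem_ball_zero_iff, norm_mul, h59_ee_norm, Complex.norm_real, Real.norm_of_nonneg h0]
    linarith
  have h := hd.circleAverage_poissonKernel_smul' hw
  rw [Real.circleAverage_def] at h
  have hn : ‖(ρ:ℂ) * ee t‖ = ρ := by
    rw [norm_mul, h59_ee_norm, Complex.norm_real, Real.norm_of_nonneg h0, mul_one]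
  have hcm : ∀ s : ℝ, circleMap 0 1 s = ee s := by intro s; simp [circleMap, ee]
  have h2 : (fun s : ℝ => ((‖circleMap 0 1 s - 0‖ ^ 2 - ‖(ρ:ℂ) * ee t - 0‖ ^ 2) /
      ‖circleMap 0 1 s - 0 - ((ρ:ℂ) * ee t - 0)‖ ^ 2) • Q.eval (circleMap 0 1 s)) =
      fun s : ℝ => (((1 - ρ ^ 2) / ‖ee s - ρ * ee t‖ ^ 2 : ℝ) : ℂ) * Q.eval (ee s) := by
    funext s
    simp only [sub_zero, hcm, hn, h59_ee_norm, one_pow]
    rw [Complex.real_smul]
  have h3 := congrArg Complex.re h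
  rw [← h3]
  unfold mean
  rw [Complex.smul_re]
  simp only [smul_eq_mul]
  congr 1
  have hci : IntervalIntegrable (fun s : ℝ => (((1 - ρ ^ 2) / ‖ee s - ρ * ee t‖ ^ 2 : ℝ) : ℂ) * Q.eval (ee s))
      MeasureTheory.volume 0 (2 * Real.pi) := by
    apply Continuous.intervalIntegrable
    have := h59_ker_cont h0 h1 t
    have hc := h59_ee_cont
    have hq : Continuous fun s => Q.eval (ee s) := (Polynomial.continuous Q).comp hc
    exact (Complex.continuous_ofReal.comp this).mul hq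
  have h4 : ∫ s in (0:ℝ)..(2 * Real.pi), ((‖circleMap 0 1 s - 0‖ ^ 2 - ‖(ρ:ℂ) * ee t - 0‖ ^ 2) /
      ‖circleMap 0 1 s - 0 - ((ρ:ℂ) * ee t - 0)‖ ^ 2) • Q.eval (circleMap 0 1 s) =
      ∫ s in (0:ℝ)..(2 * Real.pi), (((1 - ρ ^ 2) / ‖ee s - ρ * ee t‖ ^ 2 : ℝ) : ℂ) * Q.eval (ee s) := by
    rw [h2]
  rw [h4]
  have h5 := Complex.reCLM.intervalIntegral_comp_comm hci
  simp only [Complex.reCLM_apply, Complex.re_ofReal_mul] at h5
  exact h5

theorem h59_ker_mean {ρ : ℝ} (h0 : 0 ≤ ρ) (h1 : ρ < 1) (t : ℝ) :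
    mean (fun s => (1 - ρ ^ 2) / ‖ee s - ρ * ee t‖ ^ 2) = 1 := by
  have h := h59_poly_poisson 1 h0 h1 t
  simpa using h

/-- bound of the integral of the logarithm on a segment -/
theorem h59_seg (k g : ℝ → ℝ) (hk : Continuous k) (hg : Continuous g) (hk0 : ∀ s, 0 ≤ k s)
    (hg0 : ∀ s, 0 ≤ g s) (ε lam p q : ℝ) (hε : 0 < ε) (hlam : 0 < lam) (hpq : p ≤ q) :
    ∫ s in p..q, k s * (2 * Real.log (max (g s) ε)) ≤
      lam * (∫ s in p..q, k s * g s ^ 2) + (lam * ε ^ 2 - 1 - Real.log lam) * ∫ s in p..q, k s := by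
  have hm : Continuous fun s => max (g s) ε := hg.max continuous_const
  have hm0 : ∀ s, 0 < max (g s) ε := fun s => lt_max_of_lt_right hε
  have hlog : Continuous fun s => Real.log (max (g s) ε) :=
    hm.log fun s => (hm0 s).ne'
  have h1 : ∫ s in p..q, k s * (2 * Real.log (max (g s) ε)) ≤
      ∫ s in p..q, (lam * (k s * g s ^ 2) + (lam * ε ^ 2 - 1 - Real.log lam) * k s) := by
    apply intervalIntegral.integral_mono_on hpq
    · exact (hk.mul (continuous_const.mul hlog)).intervalIntegrable _ _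
    · exact ((continuous_const.mul (hk.mul (hg.pow 2))).add
        (continuous_const.mul hk)).intervalIntegrable _ _
    · intro s _
      have e1 : 2 * Real.log (max (g s) ε) = Real.log (max (g s) ε ^ 2) := by
        rw [Real.log_pow]; norm_num
      have e2 : Real.log (lam * max (g s) ε ^ 2) ≤ lam * max (g s) ε ^ 2 - 1 :=
        Real.log_le_sub_one_of_pos (by have := hm0 s; positivity)
      rw [Real.log_mul hlam.ne' (by have := hm0 s; positivity)] at e2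
      have e3 : max (g s) ε ^ 2 ≤ g s ^ 2 + ε ^ 2 := by
        rcases le_total (g s) ε with h | h
        · rw [max_eq_right h]; nlinarith [sq_nonneg (g s)]
        · rw [max_eq_left h]; nlinarith [sq_nonneg ε]
      have e4 : 2 * Real.log (max (g s) ε) ≤ lam * (g s ^ 2 + ε ^ 2) - 1 - Real.log lam := by
        rw [e1]
        have := mul_le_mul_of_nonneg_left e3 hlam.le
        linarith
      have := mul_le_mul_of_nonneg_left e4 (hk0 s)
      calc k s * (2 * Real.log (max (g s) ε)) ≤ k s * (lam * (g s ^ 2 + ε ^ 2) - 1 - Real.log lam) :=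
            this
        _ = _ := by ring
  rw [intervalIntegral.integral_add, intervalIntegral.integral_const_mul,
    intervalIntegral.integral_const_mul] at h1
  · exact h1
  · exact (continuous_const.mul (hk.mul (hg.pow 2))).intervalIntegrable _ _
  · exact (continuous_const.mul hk).intervalIntegrable _ _

/-- TARGET -/
theorem pointwise (f : ℂ → ℂ) (hf : DifferentiableOn ℂ f (Metric.ball (0:ℂ) 1)) (r R : ℝ)
    (hr : 0 ≤ r) (hrR : r < R) (hR : R < 1) (t c b ω Z κ : ℝ) (hc : 0 ≤ c) (hcb : c ≤ b)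
    (hb : b ≤ 2 * Real.pi) (hω0 : 0 < ω) (hZ0 : 0 < Z) (hκ : 0 < κ)
    (hω : ω ≤ (2 * Real.pi)⁻¹ * ∫ s in c..b, (1 - (r / R) ^ 2) / ‖ee s - (r / R : ℝ) * ee t‖ ^ 2)
    (hZ : (2 * Real.pi)⁻¹ * ∫ s in c..b,
        (1 - (r / R) ^ 2) / ‖ee s - (r / R : ℝ) * ee t‖ ^ 2 * ‖f (R * ee s)‖ ^ 2
      ≤ Z * ((2 * Real.pi)⁻¹ * ∫ s in c..b, (1 - (r / R) ^ 2) / ‖ee s - (r / R : ℝ) * ee t‖ ^ 2)) :
    ‖f (r * ee t)‖ ^ 2 ≤ Z * Real.exp (1 + κ) +
      (PS (r / R) (fun s => ‖f (R * ee s)‖ ^ 2) t - ‖f (r * ee t)‖ ^ 2) / (ω * κ) := by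
  by_cases hX : ‖f (r * ee t)‖ ^ 2 ≤ Z * Real.exp (1 + κ)
  · have h1 := sq_submean f hf r R hr hrR hR t
    have h2 : 0 ≤ (PS (r / R) (fun s => ‖f (R * ee s)‖ ^ 2) t - ‖f (r * ee t)‖ ^ 2) / (ω * κ) :=
      div_nonneg (by linarith) (by positivity)
    linarith
  push Not at hX
  have hRpos : 0 < R := lt_of_le_of_lt hr hrR
  have hρ0 : 0 ≤ r / R := div_nonneg hr hRpos.le
  have hρ1 : r / R < 1 := (div_lt_one hRpos).mpr hrR
  have h2pi : 0 < 2 * Real.pi := by positivity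
  obtain ⟨g, hgdef⟩ : ∃ g : ℝ → ℝ, g = fun s => ‖f (R * ee s)‖ := ⟨_, rfl⟩
  obtain ⟨k, hkdef⟩ : ∃ k : ℝ → ℝ, k = fun s =>
    (1 - (r / R) ^ 2) / ‖ee s - (r / R : ℝ) * ee t‖ ^ 2 := ⟨_, rfl⟩
  have hkc : Continuous k := by rw [hkdef]; exact h59_ker_cont hρ0 hρ1 t
  have hk0 : ∀ s, 0 ≤ k s := by intro s; rw [hkdef]; exact h59_ker_nonneg hρ0 hρ1 s t
  have hgc : Continuous g := by
    rw [hgdef]
    apply Continuous.norm
    apply hf.continuousOn.comp_continuous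
    · exact continuous_const.mul h59_ee_cont
    · intro s
      rw [mem_ball_zero_iff, norm_mul, h59_ee_norm, Complex.norm_real,
        Real.norm_of_nonneg hRpos.le, mul_one]
      exact hR
  have hg0 : ∀ s, 0 ≤ g s := by intro s; rw [hgdef]; exact norm_nonneg _
  have hkm : (2 * Real.pi)⁻¹ * ∫ s in (0:ℝ)..(2 * Real.pi), k s = 1 := by
    have := h59_ker_mean hρ0 hρ1 t
    rw [hkdef]
    exact this
  have hA := sq_submean f hf r R hr hrR hR t
  obtain ⟨A, hAdef⟩ : ∃ A : ℝ, A = PS (r / R) (fun s => ‖f (R * ee s)‖ ^ 2) t := ⟨_, rfl⟩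
  have hAint : A = (2 * Real.pi)⁻¹ * ∫ s in (0:ℝ)..(2 * Real.pi), k s * g s ^ 2 := by
    rw [hAdef, hkdef, hgdef]
    rfl
  have hω' : ω ≤ (2 * Real.pi)⁻¹ * ∫ s in c..b, k s := by rw [hkdef]; exact hω
  have hZ' : (2 * Real.pi)⁻¹ * ∫ s in c..b, k s * g s ^ 2 ≤
      Z * ((2 * Real.pi)⁻¹ * ∫ s in c..b, k s) := by rw [hkdef, hgdef]; exact hZ
  rw [← hAdef] at hA ⊢
  obtain ⟨X, hXdef⟩ : ∃ X : ℝ, X = ‖f (r * ee t)‖ ^ 2 := ⟨_, rfl⟩
  rw [← hXdef] at hA hX ⊢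
  have hXpos : 0 < X := lt_trans (by positivity) hX
  have hApos : 0 < A := lt_of_lt_of_le hXpos hA
  have hsub : ∀ ε : ℝ, 0 < ε → Real.log X ≤
      (2 * Real.pi)⁻¹ * ∫ s in (0:ℝ)..(2 * Real.pi), k s * (2 * Real.log (max (g s) ε)) := by
    intro ε hε
    have h1 := submean_an f hf ε hε r R hr hrR hR t
    have h2 : Real.log X ≤ 2 * Real.log (max ‖f (r * ee t)‖ ε) := by
      have e1 : 2 * Real.log (max ‖f (r * ee t)‖ ε) = Real.log (max ‖f (r * ee t)‖ ε ^ 2) := by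
        rw [Real.log_pow]; norm_num
      rw [e1]
      apply Real.log_le_log hXpos
      rw [hXdef]
      gcongr
      exact le_max_left _ _
    have h3 : (2 * Real.pi)⁻¹ * ∫ s in (0:ℝ)..(2 * Real.pi), k s * (2 * Real.log (max (g s) ε)) =
        2 * PS (r / R) (fun s => Real.log (max ‖f (R * ee s)‖ ε)) t := by
      unfold PS mean
      have e1 : (fun s => k s * (2 * Real.log (max (g s) ε))) = fun s =>
          2 * ((1 - (r / R) ^ 2) / ‖ee s - (r / R : ℝ) * ee t‖ ^ 2 *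
            Real.log (max ‖f (R * ee s)‖ ε)) := by
        rw [hkdef, hgdef]
        funext s
        ring
      rw [e1, intervalIntegral.integral_const_mul]
      ring
    rw [h3]
    linarith
  -- the three parts of the integrals
  have hint : ∀ (φ : ℝ → ℝ) (_ : Continuous φ), ∫ s in (0:ℝ)..(2 * Real.pi), φ s =
      (∫ s in (0:ℝ)..c, φ s) + (∫ s in c..b, φ s) + ∫ s in b..(2 * Real.pi), φ s := by
    intro φ hφ
    rw [intervalIntegral.integral_add_adjacent_intervals (hφ.intervalIntegrable _ _)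
      (hφ.intervalIntegrable _ _), intervalIntegral.integral_add_adjacent_intervals
      (hφ.intervalIntegrable _ _) (hφ.intervalIntegrable _ _)]
  have hnn : ∀ (φ : ℝ → ℝ) (_ : ∀ s, 0 ≤ φ s) (p q : ℝ), p ≤ q → 0 ≤ ∫ s in p..q, φ s := by
    intro φ hφ p q hpq
    exact intervalIntegral.integral_nonneg hpq fun s _ => hφ s
  have hkg : Continuous fun s => k s * g s ^ 2 := hkc.mul (hgc.pow 2)
  have hkg0 : ∀ s, 0 ≤ k s * g s ^ 2 := fun s => mul_nonneg (hk0 s) (sq_nonneg _)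
  rw [hint k hkc] at hkm
  rw [hint _ hkg] at hAint
  have hK0 := hnn k hk0 0 c hc
  have hK1 := hnn k hk0 c b hcb
  have hK2 := hnn k hk0 b (2 * Real.pi) hb
  have hF0 := hnn _ hkg0 0 c hc
  have hF1 := hnn _ hkg0 c b hcb
  have hF2 := hnn _ hkg0 b (2 * Real.pi) hb
  obtain ⟨K0, eK0⟩ : ∃ x, x = ∫ s in (0:ℝ)..c, k s := ⟨_, rfl⟩
  obtain ⟨K1, eK1⟩ : ∃ x, x = ∫ s in c..b, k s := ⟨_, rfl⟩
  obtain ⟨K2, eK2⟩ : ∃ x, x = ∫ s in b..(2 * Real.pi), k s := ⟨_, rfl⟩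
  obtain ⟨F0, eF0⟩ : ∃ x, x = ∫ s in (0:ℝ)..c, k s * g s ^ 2 := ⟨_, rfl⟩
  obtain ⟨F1, eF1⟩ : ∃ x, x = ∫ s in c..b, k s * g s ^ 2 := ⟨_, rfl⟩
  obtain ⟨F2, eF2⟩ : ∃ x, x = ∫ s in b..(2 * Real.pi), k s * g s ^ 2 := ⟨_, rfl⟩
  rw [← eK0] at hK0
  rw [← eK1] at hK1 hω' hZ'
  rw [← eK2] at hK2
  rw [← eF0] at hF0
  rw [← eF1] at hF1 hZ'
  rw [← eF2] at hF2
  rw [← eK0, ← eK1, ← eK2] at hkm
  rw [← eF0, ← eF1, ← eF2] at hAint
  have hkm' : K0 + K1 + K2 = 2 * Real.pi := by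
    field_simp at hkm
    linarith
  have hA' : F0 + F1 + F2 = A * (2 * Real.pi) := by
    rw [hAint]
    field_simp
  have hZ2 : F1 ≤ Z * K1 := by
    have : (2 * Real.pi)⁻¹ * F1 ≤ (2 * Real.pi)⁻¹ * (Z * K1) := by
      calc (2 * Real.pi)⁻¹ * F1 ≤ Z * ((2 * Real.pi)⁻¹ * K1) := hZ'
        _ = _ := by ring
    exact le_of_mul_le_mul_left this (by positivity)
  have hω2 : ω * (2 * Real.pi) ≤ K1 := by
    calc ω * (2 * Real.pi) ≤ ((2 * Real.pi)⁻¹ * K1) * (2 * Real.pi) := by gcongr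
      _ = K1 := by field_simp
  -- main inequality with ε
  have hmain : ∀ ε : ℝ, 0 < ε → 2 * Real.pi * Real.log X ≤
      K1 * Real.log Z + K1 + (K0 + K2) * Real.log A + ε ^ 2 * (K1 / Z + (K0 + K2) / A) := by
    intro ε hε
    have h1 := hsub ε hε
    have hcont : Continuous fun s => k s * (2 * Real.log (max (g s) ε)) :=
      hkc.mul (continuous_const.mul ((hgc.max continuous_const).log
        fun s => (lt_max_of_lt_right hε).ne'))
    rw [hint _ hcont] at h1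
    have s0 := h59_seg k g hkc hgc hk0 hg0 ε (1 / A) 0 c hε (by positivity) hc
    have s1 := h59_seg k g hkc hgc hk0 hg0 ε (1 / Z) c b hε (by positivity) hcb
    have s2 := h59_seg k g hkc hgc hk0 hg0 ε (1 / A) b (2 * Real.pi) hε (by positivity) hb
    rw [← eK0, ← eF0] at s0
    rw [← eK1, ← eF1] at s1
    rw [← eK2, ← eF2] at s2
    rw [one_div, Real.log_inv] at s0 s1 s2
    have h2 : 2 * Real.pi * Real.log X ≤
        (∫ s in (0:ℝ)..c, k s * (2 * Real.log (max (g s) ε))) +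
        (∫ s in c..b, k s * (2 * Real.log (max (g s) ε))) +
        ∫ s in b..(2 * Real.pi), k s * (2 * Real.log (max (g s) ε)) := by
      calc 2 * Real.pi * Real.log X ≤ 2 * Real.pi * ((2 * Real.pi)⁻¹ * _) :=
            mul_le_mul_of_nonneg_left h1 h2pi.le
        _ = _ := by rw [mul_inv_cancel_left₀ h2pi.ne']
    have h3 : Z⁻¹ * F1 ≤ K1 := by
      calc Z⁻¹ * F1 ≤ Z⁻¹ * (Z * K1) := by gcongr
        _ = K1 := by field_simp
    have h4 : A⁻¹ * F0 + A⁻¹ * F2 ≤ 2 * Real.pi := by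
      have : A⁻¹ * F0 + A⁻¹ * F2 ≤ A⁻¹ * (F0 + F1 + F2) := by
        have : 0 ≤ A⁻¹ * F1 := by positivity
        linarith
      rw [hA'] at this
      calc _ ≤ A⁻¹ * (A * (2 * Real.pi)) := this
        _ = _ := by field_simp
    have h5 : ε ^ 2 * (K1 / Z + (K0 + K2) / A) =
        (Z⁻¹ * ε ^ 2) * K1 + (A⁻¹ * ε ^ 2) * K0 + (A⁻¹ * ε ^ 2) * K2 := by
      field_simp
      ring
    rw [h5]
    have h6 := h2.trans (add_le_add (add_le_add s0 s1) s2)
    linarith [h6, h3, h4, hkm']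
  have hlim : 2 * Real.pi * Real.log X ≤
      K1 * Real.log Z + K1 + (K0 + K2) * Real.log A := by
    apply le_of_forall_pos_le_add
    intro δ hδ
    obtain ⟨M, hM⟩ : ∃ M : ℝ, M = K1 / Z + (K0 + K2) / A := ⟨_, rfl⟩
    have hM0 : 0 ≤ M := by rw [hM]; positivity
    have h1 := hmain (Real.sqrt (δ / (M + 1))) (Real.sqrt_pos.mpr (by positivity))
    rw [Real.sq_sqrt (by positivity), ← hM] at h1
    have h2 : δ / (M + 1) * M ≤ δ := by
      rw [div_mul_eq_mul_div, div_le_iff₀ (by positivity)]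
      nlinarith
    linarith
  -- conclusion
  have hlogXA : Real.log X ≤ Real.log A := Real.log_le_log hXpos hA
  have hlogX : Real.log Z + (1 + κ) ≤ Real.log X := by
    have := Real.log_le_log (by positivity) hX.le
    rwa [Real.log_mul hZ0.ne' (Real.exp_pos _).ne', Real.log_exp] at this
  have h7 : ω * κ ≤ Real.log A - Real.log X := by
    have e1 : K0 + K2 = 2 * Real.pi - K1 := by linarith
    rw [e1] at hlim
    have e2 : K1 * (Real.log A - Real.log Z - 1) ≤ 2 * Real.pi * (Real.log A - Real.log X) := by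
      linarith [hlim]
    have e3 : K1 * κ ≤ K1 * (Real.log A - Real.log Z - 1) := by
      apply mul_le_mul_of_nonneg_left _ hK1
      linarith
    have e4 : ω * (2 * Real.pi) * κ ≤ K1 * κ := by gcongr
    have e5 : 2 * Real.pi * (ω * κ) ≤ 2 * Real.pi * (Real.log A - Real.log X) := by
      calc 2 * Real.pi * (ω * κ) = ω * (2 * Real.pi) * κ := by ring
        _ ≤ _ := e4.trans (e3.trans e2)
    exact le_of_mul_le_mul_left e5 h2pi
  have h8 : X * (1 + ω * κ) ≤ A := by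
    have e1 : Real.exp (ω * κ) ≤ A / X := by
      rw [← Real.log_div hApos.ne' hXpos.ne'] at h7
      calc Real.exp (ω * κ) ≤ Real.exp (Real.log (A / X)) := Real.exp_le_exp.mpr h7
        _ = A / X := Real.exp_log (by positivity)
    have e2 : ω * κ + 1 ≤ Real.exp (ω * κ) := Real.add_one_le_exp _
    have e3 : 1 + ω * κ ≤ A / X := by linarith
    calc X * (1 + ω * κ) ≤ X * (A / X) := by gcongr
      _ = A := by field_simp
  have h9 : X ≤ (A - X) / (ω * κ) := by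
    rw [le_div_iff₀ (by positivity)]
    linarith
  have h10 : 0 ≤ Z * Real.exp (1 + κ) := by positivity
  linarith

end Pool.Agent.Helper655.DU.A7
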