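import Mathlib
import Pool.Agent.Helper655.DUDefs

set_option autoImplicit false
open Finset
open Pool.Agent.Helper655.BD (mean ee PS)

namespace Pool.Agent.Helper655.DU.A8



lemma norm_ee (t : ℝ) : ‖ee t‖ = 1 := Complex.norm_exp_ofReal_mul_I t

lemma norm_ee_sub (s t : ℝ) : ‖ee s - ee t‖ ≤ |s - t| := by
  have h : ee s - ee t = ee t * (Complex.exp (Complex.I * ((s - t : ℝ) : ℂ)) - 1) := by
    unfold ee
    rw [mul_sub, ← Complex.exp_add, mul_one]
    congr 2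
    push_cast
    ring
  rw [h, norm_mul, norm_ee, one_mul]
  exact Real.norm_exp_I_mul_ofReal_sub_one_le

/-- TARGET -/
theorem ker_bounds (δ η s t : ℝ) (hη : 0 < η) (h1 : η ≤ δ) (h2 : δ ≤ 2 * η) (h3 : δ ≤ 1 / 2) :
    (1 - Real.exp (-η) ^ 2) / ‖ee s - Real.exp (-η) * ee t‖ ^ 2 ≤ 16 / δ ∧
    (|s - t| ≤ δ → 1 / (8 * δ) ≤ (1 - Real.exp (-η) ^ 2) / ‖ee s - Real.exp (-η) * ee t‖ ^ 2) := by
  have hη2 : η ≤ 1 / 2 := h1.trans h3
  have hδ : 0 < δ := hη.trans_le h1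
  set ρ := Real.exp (-η) with hρ
  have hρ0 : 0 < ρ := Real.exp_pos _
  have hρ1 : 1 - η ≤ ρ := by
    have := Real.add_one_le_exp (-η); linarith
  have hprod : ρ * Real.exp η = 1 := by
    rw [hρ, ← Real.exp_add]; simp
  have hexp : 1 + η ≤ Real.exp η := by
    have := Real.add_one_le_exp η; linarith
  have hρ2 : ρ * (1 + η) ≤ 1 := by
    have := mul_le_mul_of_nonneg_left hexp hρ0.le
    linarith
  have hρ3 : ρ ≤ 1 - η / 2 := by nlinarith
  have hsq1 : 1 - ρ ^ 2 ≤ 2 * η := by nlinarith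
  have hexp2 : 1 + 2 * η ≤ Real.exp η ^ 2 := by
    rw [← Real.exp_nat_mul]
    have := Real.add_one_le_exp ((2 : ℕ) * η)
    push_cast at this ⊢
    linarith
  have hsq2 : η ≤ 1 - ρ ^ 2 := by
    have h4 : ρ ^ 2 * (1 + 2 * η) ≤ 1 := by
      have h5 : ρ ^ 2 * Real.exp η ^ 2 = 1 := by rw [← mul_pow, hprod, one_pow]
      have := mul_le_mul_of_nonneg_left hexp2 (sq_nonneg ρ)
      linarith
    nlinarith
  have hnρ : ‖(ρ : ℂ) * ee t‖ = ρ := by
    rw [norm_mul, norm_ee, mul_one, Complex.norm_real, Real.norm_eq_abs, abs_of_pos hρ0]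
  have hlow : η / 2 ≤ ‖ee s - ρ * ee t‖ := by
    have := norm_sub_norm_le (ee s) ((ρ : ℂ) * ee t)
    rw [norm_ee, hnρ] at this
    linarith
  have hpos : 0 < ‖ee s - ρ * ee t‖ := lt_of_lt_of_le (by positivity) hlow
  constructor
  · rw [div_le_div_iff₀ (by positivity) hδ]
    have h4 : (η / 2) ^ 2 ≤ ‖ee s - ρ * ee t‖ ^ 2 := pow_le_pow_left₀ (by positivity) hlow 2
    calc (1 - ρ ^ 2) * δ ≤ (2 * η) * (2 * η) := by
          apply mul_le_mul hsq1 h2 hδ.le (by positivity)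
      _ = 16 * (η / 2) ^ 2 := by ring
      _ ≤ 16 * ‖ee s - ρ * ee t‖ ^ 2 := by linarith
  · intro hst
    have hup : ‖ee s - ρ * ee t‖ ≤ 2 * δ := by
      have e : ee s - (ρ : ℂ) * ee t = (ee s - ee t) + ((1 - ρ : ℝ) : ℂ) * ee t := by
        push_cast; ring
      rw [e]
      calc ‖(ee s - ee t) + ((1 - ρ : ℝ) : ℂ) * ee t‖ ≤ ‖ee s - ee t‖ + ‖((1 - ρ : ℝ) : ℂ) * ee t‖ :=
            norm_add_le _ _
        _ ≤ |s - t| + |1 - ρ| := by
            apply add_le_add (norm_ee_sub s t)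
            rw [norm_mul, norm_ee, mul_one, Complex.norm_real, Real.norm_eq_abs]
        _ ≤ 2 * δ := by
            have : |1 - ρ| ≤ η := by
              rw [abs_le]; constructor <;> linarith
            linarith
    have h4 : ‖ee s - ρ * ee t‖ ^ 2 ≤ (2 * δ) ^ 2 := pow_le_pow_left₀ hpos.le hup 2
    rw [div_le_div_iff₀ (by positivity) (by positivity)]
    have h5 : δ / 2 * (8 * δ) ≤ (1 - ρ ^ 2) * (8 * δ) := by
      apply mul_le_mul_of_nonneg_right _ (by positivity)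
      linarith
    nlinarith

end Pool.Agent.Helper655.DU.A8
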