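import Mathlib
import Pool.Agent.Helper655.DUDefs
import Pool.Agent.Helper655.DUA6b
import Pool.Agent.Helper655.DUA7
import Pool.Agent.Helper655.DUA8

set_option autoImplicit false
open Finset
open Pool.Agent.Helper655.BD (mean ee PS)

namespace Pool.Agent.Helper655.DU.A9

open Pool.Agent.Helper655.DU.A6b (sq_submean)
open Pool.Agent.Helper655.DU.A7 (pointwise)
open Pool.Agent.Helper655.DU.A8 (ker_bounds)




theorem ee_norm (t : ℝ) : ‖ee t‖ = 1 := by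
  unfold ee
  exact Complex.norm_exp_ofReal_mul_I t

theorem ee_cont : Continuous ee := by unfold ee; fun_prop

theorem ker_cont (ρ t : ℝ) (h0 : 0 ≤ ρ) (h1 : ρ < 1) :
    Continuous fun s => (1 - ρ ^ 2) / ‖ee s - ρ * ee t‖ ^ 2 := by
  apply Continuous.div continuous_const
  · exact ((ee_cont.sub continuous_const).norm).pow 2
  · intro s
    apply pow_ne_zero
    rw [norm_ne_zero_iff, sub_ne_zero]
    intro h
    have h2 := congrArg norm h
    rw [norm_mul, ee_norm, ee_norm, Complex.norm_real, Real.norm_eq_abs, abs_of_nonneg h0, mul_one] at h2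
    linarith

/-- TARGET -/
theorem cell (f : ℂ → ℂ) (hf : DifferentiableOn ℂ f (Metric.ball (0:ℂ) 1)) (δ c t E : ℝ) (Q : ℕ)
    (hδ : 0 < δ) (hδ2 : δ ≤ 1 / 2) (hQ : 2 ≤ Q) (hc : 0 ≤ c) (hb : c + δ / Q ≤ 2 * Real.pi)
    (ht : ∀ s ∈ Set.Icc c (c + δ / Q), |s - t| ≤ δ) (hE : 0 < E)
    (hP : ∫ s in c..(c + δ / Q), ‖f (Real.exp (-(δ / Q / 2 ^ Q)) * ee s)‖ ^ 2 ≤
      2400 * (δ / Q / 2 ^ Q) * E) :
    ‖f (Real.exp (-δ) * ee t)‖ ^ 2 ≤ 10 ^ 6 * E / Real.sqrt (2 ^ Q) +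
      150 * (PS (Real.exp (-(δ - δ / Q / 2 ^ Q)))
        (fun s => ‖f (Real.exp (-(δ / Q / 2 ^ Q)) * ee s)‖ ^ 2) t - ‖f (Real.exp (-δ) * ee t)‖ ^ 2) := by
  have hpi := Real.pi_pos
  have hQ0 : (0 : ℝ) < Q := by
    have : 0 < Q := by omega
    exact_mod_cast this
  have hQ2 : (2 : ℝ) ≤ Q := by exact_mod_cast hQ
  have h2Q : (4 : ℝ) ≤ 2 ^ Q := by
    calc (4 : ℝ) = 2 ^ 2 := by norm_num
      _ ≤ 2 ^ Q := pow_le_pow_right₀ (by norm_num) hQ
  have h2Q0 : (0 : ℝ) < 2 ^ Q := by positivity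
  set σ : ℝ := δ / Q / 2 ^ Q with hσ
  have hσ0 : 0 < σ := by positivity
  have hσ8 : σ ≤ δ / 8 := by
    rw [hσ, div_div]
    apply div_le_div_of_nonneg_left hδ.le (by norm_num)
    nlinarith
  set η : ℝ := δ - σ with hη
  have hη0 : 0 < η := by linarith
  set r : ℝ := Real.exp (-δ) with hr
  set R : ℝ := Real.exp (-σ) with hR
  have hr0 : 0 < r := Real.exp_pos _
  have hR0 : 0 < R := Real.exp_pos _
  have hrR : r < R := Real.exp_lt_exp.2 (by linarith)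
  have hR1 : R < 1 := (Real.exp_lt_exp.2 (show _ < (0:ℝ) by linarith)).trans_eq Real.exp_zero
  have hquot : r / R = Real.exp (-η) := by
    rw [hr, hR, ← Real.exp_sub]
    congr 1
    rw [hη]; ring
  set ρ : ℝ := Real.exp (-η) with hρ
  have hρ0 : 0 < ρ := Real.exp_pos _
  have hρ1 : ρ < 1 := (Real.exp_lt_exp.2 (show _ < (0:ℝ) by linarith)).trans_eq Real.exp_zero
  have hδQ : 0 < δ / Q := by positivity
  have hcb : c ≤ c + δ / Q := by linarith
  -- kernel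
  have hkc := ker_cont ρ t hρ0.le hρ1
  have hker : ∀ s, (1 - ρ ^ 2) / ‖ee s - ρ * ee t‖ ^ 2 ≤ 16 / δ := fun s =>
    (ker_bounds δ η s t hη0 (by linarith) (by linarith) hδ2).1
  have hker2 : ∀ s ∈ Set.Icc c (c + δ / Q), 1 / (8 * δ) ≤ (1 - ρ ^ 2) / ‖ee s - ρ * ee t‖ ^ 2 :=
    fun s hs => (ker_bounds δ η s t hη0 (by linarith) (by linarith) hδ2).2 (ht s hs)
  have hfc : Continuous fun s : ℝ => ‖f (R * ee s)‖ ^ 2 := by
    have h1 : Continuous fun s : ℝ => (R : ℂ) * ee s := continuous_const.mul ee_cont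
    have h2 : ∀ s : ℝ, (R : ℂ) * ee s ∈ Metric.ball (0 : ℂ) 1 := by
      intro s
      rw [Metric.mem_ball, dist_zero_right, norm_mul, ee_norm, mul_one, Complex.norm_real,
        Real.norm_eq_abs, abs_of_pos hR0]
      exact hR1
    exact ((hf.continuousOn.comp_continuous h1 h2).norm).pow 2
  have hI : 1 / (8 * (Q:ℝ)) ≤ ∫ s in c..(c + δ / Q), (1 - ρ ^ 2) / ‖ee s - ρ * ee t‖ ^ 2 := by
    have h1 : ∫ _ in c..(c + δ / Q), 1 / (8 * δ) = 1 / (8 * (Q:ℝ)) := by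
      rw [intervalIntegral.integral_const, smul_eq_mul]
      field_simp
      ring
    rw [← h1]
    apply intervalIntegral.integral_mono_on hcb intervalIntegrable_const
      (hkc.intervalIntegrable _ _)
    exact hker2
  have hinv : 0 < (2 * Real.pi)⁻¹ := by positivity
  set ω : ℝ := 1 / (16 * Real.pi * Q) with hω
  set Z : ℝ := 307200 * E / 2 ^ Q with hZ
  set κ : ℝ := Q * Real.log 2 / 2 with hκ
  have hlog : 0 < Real.log 2 := Real.log_pos (by norm_num)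
  have hω0 : 0 < ω := by positivity
  have hZ0 : 0 < Z := by positivity
  have hκ0 : 0 < κ := by positivity
  have hωle : ω ≤ (2 * Real.pi)⁻¹ * ∫ s in c..(c + δ / Q),
      (1 - (r / R) ^ 2) / ‖ee s - (r / R : ℝ) * ee t‖ ^ 2 := by
    rw [hquot]
    calc ω = (2 * Real.pi)⁻¹ * (1 / (8 * (Q:ℝ))) := by
          rw [hω]; field_simp; ring
      _ ≤ _ := by gcongr
  have hZle : (2 * Real.pi)⁻¹ * ∫ s in c..(c + δ / Q),
        (1 - (r / R) ^ 2) / ‖ee s - (r / R : ℝ) * ee t‖ ^ 2 * ‖f (R * ee s)‖ ^ 2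
      ≤ Z * ((2 * Real.pi)⁻¹ * ∫ s in c..(c + δ / Q),
        (1 - (r / R) ^ 2) / ‖ee s - (r / R : ℝ) * ee t‖ ^ 2) := by
    rw [hquot]
    have h1 : ∫ s in c..(c + δ / Q), (1 - ρ ^ 2) / ‖ee s - ρ * ee t‖ ^ 2 * ‖f (R * ee s)‖ ^ 2 ≤
        ∫ s in c..(c + δ / Q), 16 / δ * ‖f (R * ee s)‖ ^ 2 := by
      apply intervalIntegral.integral_mono_on hcb
        ((hkc.mul hfc).intervalIntegrable _ _) ((continuous_const.mul hfc).intervalIntegrable _ _)
      intro s _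
      exact mul_le_mul_of_nonneg_right (hker s) (by positivity)
    rw [intervalIntegral.integral_const_mul] at h1
    calc (2 * Real.pi)⁻¹ * ∫ s in c..(c + δ / Q),
          (1 - ρ ^ 2) / ‖ee s - ρ * ee t‖ ^ 2 * ‖f (R * ee s)‖ ^ 2
        ≤ (2 * Real.pi)⁻¹ * (16 / δ * (2400 * σ * E)) := by
          gcongr
          exact h1.trans (by gcongr)
      _ = Z * ((2 * Real.pi)⁻¹ * (1 / (8 * (Q:ℝ)))) := by
          rw [hZ, hσ]
          field_simp
          ring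
      _ ≤ _ := by gcongr
  have hmain := pointwise f hf r R hr0.le hrR hR1 t c (c + δ / Q) ω Z κ hc hcb hb hω0 hZ0 hκ0
    hωle hZle
  have hsub := sq_submean f hf r R hr0.le hrR hR1 t
  rw [hquot] at hmain hsub
  have hprod : 1 / (ω * κ) ≤ 150 := by
    have h1 : ω * κ = Real.log 2 / (32 * Real.pi) := by
      rw [hω, hκ]; field_simp; ring
    rw [h1, one_div_div, div_le_iff₀ hlog]
    have h2 := Real.log_two_gt_d9
    have h3 := Real.pi_lt_d6
    nlinarith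
  have hexp : Z * Real.exp (1 + κ) ≤ 10 ^ 6 * E / Real.sqrt (2 ^ Q) := by
    have h1 : Real.exp κ = Real.sqrt (2 ^ Q) := by
      rw [Real.sqrt_eq_rpow, ← Real.rpow_natCast, ← Real.rpow_mul (by norm_num),
        Real.rpow_def_of_pos (by norm_num)]
      congr 1
      rw [hκ]; ring
    have hsq : 0 < Real.sqrt (2 ^ Q) := Real.sqrt_pos.2 h2Q0
    have hss : Real.sqrt (2 ^ Q) * Real.sqrt (2 ^ Q) = 2 ^ Q := Real.mul_self_sqrt h2Q0.le
    rw [Real.exp_add, h1, hZ, div_mul_eq_mul_div, div_le_div_iff₀ h2Q0 hsq]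
    have h2 := Real.exp_one_lt_d9
    calc 307200 * E * (Real.exp 1 * Real.sqrt (2 ^ Q)) * Real.sqrt (2 ^ Q)
        = (307200 * Real.exp 1) * E * (Real.sqrt (2 ^ Q) * Real.sqrt (2 ^ Q)) := by ring
      _ = (307200 * Real.exp 1) * E * 2 ^ Q := by rw [hss]
      _ ≤ 10 ^ 6 * E * 2 ^ Q := by
          gcongr
          linarith
  have hdiff : 0 ≤ PS ρ (fun s => ‖f (R * ee s)‖ ^ 2) t - ‖f (r * ee t)‖ ^ 2 := by linarith
  calc ‖f (r * ee t)‖ ^ 2 ≤ Z * Real.exp (1 + κ) +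
      (PS ρ (fun s => ‖f (R * ee s)‖ ^ 2) t - ‖f (r * ee t)‖ ^ 2) / (ω * κ) := hmain
    _ = Z * Real.exp (1 + κ) +
      (1 / (ω * κ)) * (PS ρ (fun s => ‖f (R * ee s)‖ ^ 2) t - ‖f (r * ee t)‖ ^ 2) := by ring
    _ ≤ _ := by gcongr

end Pool.Agent.Helper655.DU.A9
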