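import Mathlib
import Pool.Agent.Helper655.DUDefs
import Pool.Agent.Helper655.DUA6b
import Pool.Agent.Helper655.DUA9
import Pool.Agent.Helper655.BDJ12

set_option autoImplicit false
open Finset
open Pool.Agent.Helper655.BD (mean ee PS)

namespace Pool.Agent.Helper655.DU.A10

open Pool.Agent.Helper655.DU.A6b (sq_submean)
open Pool.Agent.Helper655.DU.A9 (cell)
open Pool.Agent.Helper655.BD.J12 (ps_mean ps_cont)





theorem blk_norm_ee (t : ℝ) : ‖ee t‖ = 1 := by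
  unfold ee
  exact Complex.norm_exp_ofReal_mul_I t

theorem blk_cont_ee : Continuous ee := by
  unfold ee
  fun_prop

theorem blk_cont (f : ℂ → ℂ) (hf : DifferentiableOn ℂ f (Metric.ball (0:ℂ) 1)) (R : ℝ) (h0 : 0 ≤ R)
    (h1 : R < 1) : Continuous (fun s => ‖f (R * ee s)‖ ^ 2) := by
  have h2 : Continuous (fun s => f (R * ee s)) := by
    rw [← continuousOn_univ]
    apply hf.continuousOn.comp (t := Metric.ball (0:ℂ) 1)
    · exact (continuous_const.mul blk_cont_ee).continuousOn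
    · intro s _
      rw [mem_ball_zero_iff, norm_mul, blk_norm_ee, mul_one, Complex.norm_real, Real.norm_eq_abs,
        abs_of_nonneg h0]
      exact h1
  exact h2.norm.pow 2

/-- TARGET -/
theorem block (f : ℂ → ℂ) (hf : DifferentiableOn ℂ f (Metric.ball (0:ℂ) 1)) (ℓ E D : ℝ) (N Q : ℕ)
    (hℓ : 0 < ℓ) (hℓ2 : ℓ ≤ 1 / 2) (hN : 0 < N) (hQ : 2 ≤ Q) (hE : 0 < E)
    (hP : ∀ j < N, ∫ s in (ℓ + (j + 1 / 2) * (ℓ / N))..(ℓ + (j + 1 / 2) * (ℓ / N) + ℓ / N / Q),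
        ‖f (Real.exp (-(ℓ / N / Q / 2 ^ Q)) * ee s)‖ ^ 2 ≤ 2400 * (ℓ / N / Q / 2 ^ Q) * E)
    (hD : mean (fun s => ‖f (Real.exp (-(ℓ / N / Q / 2 ^ Q)) * ee s)‖ ^ 2) -
        mean (fun s => ‖f (Real.exp (-(ℓ / N)) * ee s)‖ ^ 2) ≤ 2 * (ℓ / N) * D) :
    ∫ t in ℓ..(2 * ℓ), ‖f (Real.exp (-(ℓ / N)) * ee t)‖ ^ 2 ≤
      ℓ * (10 ^ 6 * E / Real.sqrt (2 ^ Q)) + 2000 * (ℓ / N) * D := by
  have hNR : (0 : ℝ) < N := by exact_mod_cast hN
  have hN1 : (1 : ℝ) ≤ N := by exact_mod_cast hN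
  have hQR : (2 : ℝ) ≤ Q := by exact_mod_cast hQ
  obtain ⟨δ, hδdef⟩ : ∃ δ : ℝ, δ = ℓ / N := ⟨_, rfl⟩
  rw [← hδdef] at hP hD ⊢
  have hδ : 0 < δ := by rw [hδdef]; positivity
  have hNδ : (N : ℝ) * δ = ℓ := by rw [hδdef]; field_simp
  have hδℓ : δ ≤ ℓ := by nlinarith
  have hδ2 : δ ≤ 1 / 2 := hδℓ.trans hℓ2
  obtain ⟨σ, hσdef⟩ : ∃ σ : ℝ, σ = δ / Q / 2 ^ Q := ⟨_, rfl⟩
  have hδQ : δ / Q ≤ δ / 2 := div_le_div_of_nonneg_left hδ.le (by norm_num) hQR
  have hσ : 0 < σ := by rw [hσdef]; positivity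
  have hσδ : σ < δ := by
    have h1 : δ / Q / 2 ^ Q ≤ δ / Q := by
      apply div_le_self (by positivity)
      exact one_le_pow₀ (by norm_num)
    rw [hσdef]
    linarith
  have hpi := Real.pi_gt_three
  have hpi2 := Real.pi_lt_d2
  -- the functions
  set φ : ℝ → ℝ := fun s => ‖f (Real.exp (-(δ / Q / 2 ^ Q)) * ee s)‖ ^ 2 with hφ
  set X : ℝ → ℝ := fun t => ‖f (Real.exp (-δ) * ee t)‖ ^ 2 with hX
  have hRlt : Real.exp (-(δ / Q / 2 ^ Q)) < 1 := by
    rw [Real.exp_lt_one_iff, ← hσdef]; linarith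
  have hrlt : Real.exp (-δ) < 1 := by rw [Real.exp_lt_one_iff]; linarith
  have hφc : Continuous φ := blk_cont f hf _ (Real.exp_pos _).le hRlt
  have hXc : Continuous X := blk_cont f hf _ (Real.exp_pos _).le hrlt
  set ρ : ℝ := Real.exp (-(δ - δ / Q / 2 ^ Q)) with hρ
  have hρ0 : 0 ≤ ρ := (Real.exp_pos _).le
  have hρ1 : ρ < 1 := by
    rw [hρ, Real.exp_lt_one_iff, ← hσdef]; linarith
  have hρeq : Real.exp (-δ) / Real.exp (-(δ / Q / 2 ^ Q)) = ρ := by
    rw [hρ, ← Real.exp_sub]; congr 1; ring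
  have hPc : Continuous (PS ρ φ) := ps_cont hφc hρ0 hρ1
  have hsub : ∀ t, X t ≤ PS ρ φ t := by
    intro t
    have h1 := sq_submean f hf (Real.exp (-δ)) (Real.exp (-(δ / Q / 2 ^ Q))) (Real.exp_pos _).le
      (by rw [Real.exp_lt_exp, ← hσdef]; linarith) hRlt t
    rw [hρeq] at h1
    exact h1
  -- pointwise
  have hpt : ∀ t ∈ Set.Icc ℓ (2 * ℓ), X t ≤ 10 ^ 6 * E / Real.sqrt (2 ^ Q) + 150 * (PS ρ φ t - X t) := by
    intro t ht
    obtain ⟨j, hjN, hj1, hj2⟩ : ∃ j : ℕ, j < N ∧ ℓ + j * δ ≤ t ∧ t ≤ ℓ + (j + 1) * δ := by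
      by_cases hlt : t < 2 * ℓ
      · refine ⟨⌊(t - ℓ) / δ⌋₊, ?_, ?_, ?_⟩
        · rw [Nat.floor_lt (div_nonneg (by linarith [ht.1]) hδ.le), div_lt_iff₀ hδ, hNδ]
          linarith
        · have h1 := Nat.floor_le (div_nonneg (by linarith [ht.1]) hδ.le : 0 ≤ (t - ℓ) / δ)
          rw [le_div_iff₀ hδ] at h1
          linarith
        · have h1 := Nat.lt_floor_add_one ((t - ℓ) / δ)
          rw [div_lt_iff₀ hδ] at h1
          linarith
      · have hte : t = 2 * ℓ := le_antisymm ht.2 (not_lt.1 hlt)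
        obtain ⟨M, rfl⟩ : ∃ M, N = M + 1 := ⟨N - 1, by omega⟩
        push_cast at hNδ
        refine ⟨M, by omega, ?_, ?_⟩
        · rw [hte]; nlinarith
        · rw [hte]; linarith
    have hjR : (j : ℝ) + 1 ≤ N := by exact_mod_cast hjN
    have hc0 : 0 ≤ ℓ + ((j : ℝ) + 1 / 2) * δ := by positivity
    have hle : ℓ + ((j : ℝ) + 1) * δ ≤ 2 * ℓ := by nlinarith
    have h1 := cell f hf δ (ℓ + (j + 1 / 2) * δ) t E Q hδ hδ2 hQ hc0 (by nlinarith)
      (by
        intro s hs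
        rw [abs_le]
        constructor
        · nlinarith [hs.1]
        · nlinarith [hs.2]) hE (hP j hjN)
    exact h1
  -- integrate
  have hint : ∫ t in ℓ..(2 * ℓ), X t ≤
      ∫ t in ℓ..(2 * ℓ), (10 ^ 6 * E / Real.sqrt (2 ^ Q) + 150 * (PS ρ φ t - X t)) := by
    apply intervalIntegral.integral_mono_on (by linarith)
    · exact hXc.intervalIntegrable _ _
    · exact (continuous_const.add (continuous_const.mul (hPc.sub hXc))).intervalIntegrable _ _
    · exact hpt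
  have hcalc : ∫ t in ℓ..(2 * ℓ), (10 ^ 6 * E / Real.sqrt (2 ^ Q) + 150 * (PS ρ φ t - X t))
      = ℓ * (10 ^ 6 * E / Real.sqrt (2 ^ Q)) + 150 * ∫ t in ℓ..(2 * ℓ), (PS ρ φ t - X t) := by
    have hcd : Continuous (fun t => 150 * (PS ρ φ t - X t)) := continuous_const.mul (hPc.sub hXc)
    rw [intervalIntegral.integral_add (continuous_const.intervalIntegrable _ _)
      (hcd.intervalIntegrable _ _), intervalIntegral.integral_const,
      intervalIntegral.integral_const_mul, smul_eq_mul]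
    congr 1
    ring
  have hmono : ∫ t in ℓ..(2 * ℓ), (PS ρ φ t - X t) ≤ ∫ t in (0:ℝ)..(2 * Real.pi), (PS ρ φ t - X t) := by
    apply intervalIntegral.integral_mono_interval hℓ.le (by linarith) (by linarith)
    · exact Filter.Eventually.of_forall fun t => sub_nonneg.2 (hsub t)
    · exact (hPc.sub hXc).intervalIntegrable _ _
  have hmean : ∫ t in (0:ℝ)..(2 * Real.pi), (PS ρ φ t - X t) = 2 * Real.pi * (mean φ - mean X) := by
    rw [intervalIntegral.integral_sub (hPc.intervalIntegrable _ _) (hXc.intervalIntegrable _ _)]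
    have h1 := ps_mean hφc hρ0 hρ1
    have h2 : ∫ t in (0:ℝ)..(2 * Real.pi), PS ρ φ t = 2 * Real.pi * mean φ := by
      rw [← h1]
      unfold mean
      field_simp
    have h3 : ∫ t in (0:ℝ)..(2 * Real.pi), X t = 2 * Real.pi * mean X := by
      unfold mean
      field_simp
    rw [h2, h3]; ring
  have hnn : 0 ≤ mean φ - mean X := by
    have h1 : 0 ≤ ∫ t in (0:ℝ)..(2 * Real.pi), (PS ρ φ t - X t) :=
      intervalIntegral.integral_nonneg (by linarith) (fun t _ => sub_nonneg.2 (hsub t))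
    rw [hmean] at h1
    exact nonneg_of_mul_nonneg_right h1 (by linarith)
  have hD' : mean φ - mean X ≤ 2 * δ * D := hD
  have hD0 : 0 ≤ D := by
    have : 0 ≤ 2 * δ * D := hnn.trans hD'
    exact nonneg_of_mul_nonneg_right this (by linarith)
  have hfinal : ∫ t in ℓ..(2 * ℓ), (PS ρ φ t - X t) ≤ 2 * Real.pi * (2 * δ * D) := by
    refine hmono.trans ?_
    rw [hmean]
    apply mul_le_mul_of_nonneg_left hD' (by linarith)
  have hδD : 0 ≤ δ * D := by positivity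
  rw [hcalc] at hint
  refine hint.trans ?_
  have : 150 * (2 * Real.pi * (2 * δ * D)) ≤ 2000 * δ * D := by
    have h2 : 150 * (2 * Real.pi * (2 * δ * D)) = (600 * Real.pi) * (δ * D) := by ring
    rw [h2]
    have h3 : 600 * Real.pi ≤ 2000 := by linarith
    calc (600 * Real.pi) * (δ * D) ≤ 2000 * (δ * D) := mul_le_mul_of_nonneg_right h3 hδD
      _ = _ := by ring
  linarith

end Pool.Agent.Helper655.DU.A10
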