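import Mathlib
import Pool.Agent.Helper655.DUDefs

set_option autoImplicit false
open Finset
open Pool.Agent.Helper655.BD (mean ee PS)

namespace Pool.Agent.Helper655.DU.A2


theorem det_smul_one (c : ℂ) : (c • (1 : ℂ →L[ℝ] ℂ)).det = Complex.normSq c := by
  have h := Algebra.norm_complex_apply c
  rw [Algebra.norm_apply] at h
  rw [← h]
  unfold ContinuousLinearMap.det
  congr 1

theorem cexp_norm (w : ℂ) : ‖Complex.exp (Complex.I * w)‖ = Real.exp (-w.im) := by
  rw [Complex.norm_exp]
  simp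

theorem gderiv (w : ℂ) : HasDerivAt (fun w => Complex.exp (Complex.I * w))
    (Complex.exp (Complex.I * w) * Complex.I) w := by
  have h1 : HasDerivAt (fun w : ℂ => Complex.I * w) Complex.I w := by
    simpa using (hasDerivAt_id w).const_mul Complex.I
  exact h1.cexp

/-- TARGET -/
theorem strip_energy (f : ℂ → ℂ) (hf : DifferentiableOn ℂ f (Metric.ball (0:ℂ) 1)) :
    ∫⁻ w in {w : ℂ | w.re ∈ Set.Ioo (-Real.pi) Real.pi ∧ 0 < w.im}, ‖deriv (hp f) w‖ₑ ^ 2
      ≤ ∫⁻ z in Metric.ball (0:ℂ) 1, ‖deriv f z‖ₑ ^ 2 := by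
  set S : Set ℂ := {w : ℂ | w.re ∈ Set.Ioo (-Real.pi) Real.pi ∧ 0 < w.im} with hS
  have hSm : MeasurableSet S := by
    apply MeasurableSet.inter
    · exact Complex.measurable_re measurableSet_Ioo
    · exact Complex.measurable_im measurableSet_Ioi
  have hinj : Set.InjOn (fun w => Complex.exp (Complex.I * w)) S := by
    intro w₁ h1 w₂ h2 h
    obtain ⟨n, hn⟩ := Complex.exp_eq_exp_iff_exists_int.1 h
    have h3 : w₁ = w₂ + n * (2 * Real.pi) := by
      apply mul_left_cancel₀ Complex.I_ne_zero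
      rw [hn]; ring
    have h4 : w₁.re = w₂.re + n * (2 * Real.pi) := by
      rw [h3]; simp
    have hpi := Real.pi_pos
    obtain ⟨⟨a1, a2⟩, -⟩ := h1
    obtain ⟨⟨b1, b2⟩, -⟩ := h2
    have hn0 : n = 0 := by
      have c1 : (n : ℝ) < 1 := by
        by_contra hcon
        have := not_lt.1 hcon
        nlinarith
      have c2 : (-1 : ℝ) < n := by
        by_contra hcon
        have := not_lt.1 hcon
        nlinarith
      have c1' : n < 1 := by exact_mod_cast c1
      have c2' : -1 < n := by exact_mod_cast c2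
      omega
    rw [h3, hn0]; simp
  have hsub : (fun w => Complex.exp (Complex.I * w)) '' S ⊆ Metric.ball 0 1 := by
    rintro _ ⟨w, hw, rfl⟩
    rw [mem_ball_zero_iff, cexp_norm, Real.exp_lt_one_iff]
    have := hw.2
    linarith
  have hcv := MeasureTheory.lintegral_image_eq_lintegral_abs_det_fderiv_mul
    (MeasureTheory.volume : MeasureTheory.Measure ℂ) hSm
    (f := fun w => Complex.exp (Complex.I * w))
    (f' := fun w => (Complex.exp (Complex.I * w) * Complex.I) • (1 : ℂ →L[ℝ] ℂ))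
    (fun w _ => ((gderiv w).complexToReal_fderiv).hasFDerivWithinAt) hinj
    (fun z => ‖deriv f z‖ₑ ^ 2)
  have heq : ∫⁻ w in S, ‖deriv (hp f) w‖ₑ ^ 2 =
      ∫⁻ w in S, ENNReal.ofReal |((Complex.exp (Complex.I * w) * Complex.I) •
        (1 : ℂ →L[ℝ] ℂ)).det| * ‖deriv f (Complex.exp (Complex.I * w))‖ₑ ^ 2 := by
    apply MeasureTheory.setLIntegral_congr_fun hSm
    intro w hw
    simp only
    have hb : Complex.exp (Complex.I * w) ∈ Metric.ball (0 : ℂ) 1 := hsub ⟨w, hw, rfl⟩
    have hd : DifferentiableAt ℂ f (Complex.exp (Complex.I * w)) :=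
      (hf _ hb).differentiableAt (Metric.isOpen_ball.mem_nhds hb)
    have h1 : HasDerivAt (hp f) (deriv f (Complex.exp (Complex.I * w)) *
        (Complex.exp (Complex.I * w) * Complex.I)) w :=
      HasDerivAt.comp w hd.hasDerivAt (gderiv w)
    rw [h1.deriv, det_smul_one, abs_of_nonneg (Complex.normSq_nonneg _), enorm_mul, mul_pow,
      mul_comm]
    congr 1
    rw [Complex.normSq_eq_norm_sq, ENNReal.ofReal_pow (norm_nonneg _), ofReal_norm_eq_enorm]
  rw [heq, ← hcv]
  exact MeasureTheory.lintegral_mono_set hsub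

end Pool.Agent.Helper655.DU.A2
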