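import Mathlib
import Pool.Agent.Helper655.DUDefs

set_option autoImplicit false
open Finset
open Pool.Agent.Helper655.BD (mean ee PS)

namespace Pool.Agent.Helper655.DU.A3



theorem pv_norm_ee (t : ℝ) : ‖ee t‖ = 1 := by
  unfold ee
  exact Complex.norm_exp_ofReal_mul_I t

theorem pv_continuous_ee : Continuous ee := by
  unfold ee
  fun_prop

theorem pv_orth (m n : ℕ) (h : m ≠ n) :
    ∫ t in (0:ℝ)..(2 * Real.pi), ee t ^ m * (starRingEnd ℂ) (ee t ^ n) = 0 := by
  have hc : ((m : ℂ) - n) * Complex.I ≠ 0 := by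
    apply mul_ne_zero _ Complex.I_ne_zero
    rw [sub_ne_zero]
    exact_mod_cast h
  have h1 : (fun t : ℝ => ee t ^ m * (starRingEnd ℂ) (ee t ^ n)) =
      fun t : ℝ => Complex.exp (((m : ℂ) - n) * Complex.I * t) := by
    funext t
    unfold ee
    rw [map_pow, ← Complex.exp_conj, ← Complex.exp_nat_mul, ← Complex.exp_nat_mul,
      ← Complex.exp_add]
    congr 1
    simp only [map_mul, Complex.conj_ofReal, Complex.conj_I]
    ring
  rw [h1, integral_exp_mul_complex hc]
  have h2 : Complex.exp (((m : ℂ) - n) * Complex.I * ((2 * Real.pi : ℝ) : ℂ)) = 1 := by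
    rw [Complex.exp_eq_one_iff]
    refine ⟨(m : ℤ) - n, ?_⟩
    push_cast
    ring
  rw [h2]
  simp

theorem pv_fin (a : ℕ → ℂ) (N : ℕ) :
    mean (fun t => ‖∑ n ∈ range N, a n * ee t ^ n‖ ^ 2) = ∑ n ∈ range N, ‖a n‖ ^ 2 := by
  have hpi : (2 * Real.pi) ≠ 0 := by positivity
  induction N with
  | zero => simp [mean]
  | succ N ih =>
    have hce := pv_continuous_ee
    have hS : Continuous fun t => ∑ n ∈ range N, a n * ee t ^ n := by fun_prop
    have h1 : (fun t => ‖∑ n ∈ range (N + 1), a n * ee t ^ n‖ ^ 2) =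
        fun t => ‖∑ n ∈ range N, a n * ee t ^ n‖ ^ 2 + ‖a N‖ ^ 2 +
          2 * ((∑ n ∈ range N, a n * ee t ^ n) * (starRingEnd ℂ) (a N * ee t ^ N)).re := by
      funext t
      rw [sum_range_succ, ← Complex.normSq_eq_norm_sq, Complex.normSq_add,
        Complex.normSq_eq_norm_sq, Complex.normSq_eq_norm_sq, norm_mul, norm_pow, pv_norm_ee]
      simp
    have h2 : ∫ t in (0:ℝ)..(2 * Real.pi),
        (∑ n ∈ range N, a n * ee t ^ n) * (starRingEnd ℂ) (a N * ee t ^ N) = 0 := by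
      have : (fun t : ℝ => (∑ n ∈ range N, a n * ee t ^ n) * (starRingEnd ℂ) (a N * ee t ^ N)) =
          fun t => ∑ n ∈ range N, (a n * (starRingEnd ℂ) (a N)) *
            (ee t ^ n * (starRingEnd ℂ) (ee t ^ N)) := by
        funext t
        rw [sum_mul]
        refine sum_congr rfl fun n _ => ?_
        rw [map_mul]
        ring
      rw [this, intervalIntegral.integral_finsetSum]
      · refine sum_eq_zero fun n hn => ?_
        rw [intervalIntegral.integral_const_mul, pv_orth n N (by rw [mem_range] at hn; omega),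
          mul_zero]
      · intro n _
        apply Continuous.intervalIntegrable
        fun_prop
    have h3 : ∫ t in (0:ℝ)..(2 * Real.pi),
        ((∑ n ∈ range N, a n * ee t ^ n) * (starRingEnd ℂ) (a N * ee t ^ N)).re = 0 := by
      have h4 := Complex.reCLM.intervalIntegral_comp_comm (μ := MeasureTheory.volume)
        (a := (0:ℝ)) (b := 2 * Real.pi)
        (f := fun t => (∑ n ∈ range N, a n * ee t ^ n) * (starRingEnd ℂ) (a N * ee t ^ N))
        (Continuous.intervalIntegrable (by fun_prop) _ _)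
      simp only [Complex.reCLM_apply] at h4
      rw [h4, h2]
      simp
    rw [sum_range_succ, ← ih]
    unfold mean
    rw [h1, intervalIntegral.integral_add, intervalIntegral.integral_add,
      intervalIntegral.integral_const_mul, h3]
    · simp only [intervalIntegral.integral_const, sub_zero, smul_eq_mul, mul_zero, add_zero]
      field_simp
    · apply Continuous.intervalIntegrable
      fun_prop
    · exact intervalIntegrable_const
    · apply Continuous.intervalIntegrable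
      fun_prop
    · apply Continuous.intervalIntegrable
      apply Continuous.const_mul
      apply Complex.continuous_re.comp
      fun_prop

theorem pv_main (a : ℕ → ℂ) (h : Summable fun n => ‖a n‖) :
    (Summable fun n => ‖a n‖ ^ 2) ∧
    mean (fun t => ‖∑' n, a n * ee t ^ n‖ ^ 2) = ∑' n, ‖a n‖ ^ 2 := by
  have hs2 : Summable fun n => ‖a n‖ ^ 2 := by
    refine Summable.of_nonneg_of_le (fun n => by positivity) (fun n => ?_)
      (h.mul_left (∑' n, ‖a n‖))
    rw [sq]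
    exact mul_le_mul_of_nonneg_right (h.le_tsum n (fun _ _ => norm_nonneg _)) (norm_nonneg _)
  refine ⟨hs2, ?_⟩
  have hce := pv_continuous_ee
  have hL : Filter.Tendsto (fun N => mean (fun t => ‖∑ n ∈ range N, a n * ee t ^ n‖ ^ 2))
      Filter.atTop (nhds (∑' n, ‖a n‖ ^ 2)) := by
    simp only [pv_fin]
    exact hs2.hasSum.tendsto_sum_nat
  refine tendsto_nhds_unique ?_ hL
  unfold mean
  apply Filter.Tendsto.const_mul
  have hn : ∀ t n, ‖a n * ee t ^ n‖ = ‖a n‖ := by
    intro t n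
    rw [norm_mul, norm_pow, pv_norm_ee]
    simp
  apply intervalIntegral.tendsto_integral_filter_of_dominated_convergence
    (fun _ => (∑' n, ‖a n‖) ^ 2)
  · refine Filter.Eventually.of_forall fun N => ?_
    apply Continuous.aestronglyMeasurable
    fun_prop
  · refine Filter.Eventually.of_forall fun N => Filter.Eventually.of_forall fun t _ => ?_
    rw [Real.norm_of_nonneg (by positivity)]
    apply pow_le_pow_left₀ (norm_nonneg _)
    refine (norm_sum_le _ _).trans ?_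
    simp only [hn]
    exact h.sum_le_tsum _ (fun _ _ => norm_nonneg _)
  · exact intervalIntegrable_const
  · refine Filter.Eventually.of_forall fun t _ => ?_
    have hst : Summable fun n => a n * ee t ^ n := by
      apply Summable.of_norm
      simpa only [hn] using h
    exact (hst.hasSum.tendsto_sum_nat.norm).pow 2

/-- TARGET 1 -/
theorem parseval (e : ℕ → ℂ) (r : ℝ) (hr : 0 ≤ r) (h : Summable fun n => ‖e n‖ * r ^ n) :
    (Summable fun n => ‖e n‖ ^ 2 * r ^ (2 * n)) ∧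
    mean (fun t => ‖∑' n, e n * (r * ee t) ^ n‖ ^ 2) = ∑' n, ‖e n‖ ^ 2 * r ^ (2 * n) := by
  have h1 : ∀ n, ‖e n * (r : ℂ) ^ n‖ = ‖e n‖ * r ^ n := by
    intro n
    rw [norm_mul, norm_pow, Complex.norm_real, Real.norm_of_nonneg hr]
  have h2 : ∀ n, ‖e n * (r : ℂ) ^ n‖ ^ 2 = ‖e n‖ ^ 2 * r ^ (2 * n) := by
    intro n
    rw [h1]
    ring
  have h3 := pv_main (fun n => e n * (r : ℂ) ^ n) (by simpa only [h1] using h)
  simp only [h2] at h3
  refine ⟨h3.1, ?_⟩
  rw [← h3.2]
  simp only [mul_pow, mul_assoc]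

/-- TARGET -/
theorem mean_diff (f : ℂ → ℂ) (a : ℕ → ℂ)
    (ha : ∀ z ∈ Metric.ball (0:ℂ) 1, HasSum (fun n => a n * z ^ n) (f z))
    (hs : ∀ r : ℝ, 0 ≤ r → r < 1 → Summable fun n => ‖a n‖ * r ^ n)
    (hS : Summable fun n : ℕ => (n:ℝ) * ‖a n‖ ^ 2) :
    (∀ r R : ℝ, 0 < r → r ≤ R → R < 1 →
      mean (fun t => ‖f (R * ee t)‖ ^ 2) - mean (fun t => ‖f (r * ee t)‖ ^ 2) ≤
        2 * Real.log (R / r) * ∑' n : ℕ, (n:ℝ) * ‖a n‖ ^ 2) ∧
    (∀ R : ℝ, 0 < R → R < 1 →
      mean (fun t => ‖f (R * ee t)‖ ^ 2) ≤ ‖a 0‖ ^ 2 + ∑' n : ℕ, (n:ℝ) * ‖a n‖ ^ 2) := by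
  have key : ∀ r : ℝ, 0 < r → r < 1 →
      (Summable fun n => ‖a n‖ ^ 2 * r ^ (2 * n)) ∧
      mean (fun t => ‖f (r * ee t)‖ ^ 2) = ∑' n, ‖a n‖ ^ 2 * r ^ (2 * n) := by
    intro r hr hr1
    obtain ⟨h1, h2⟩ := parseval a r hr.le (hs r hr.le hr1)
    refine ⟨h1, ?_⟩
    rw [← h2]
    congr 1
    funext t
    have hmem : (r * ee t : ℂ) ∈ Metric.ball (0:ℂ) 1 := by
      rw [mem_ball_zero_iff, norm_mul, pv_norm_ee, Complex.norm_real, Real.norm_of_nonneg hr.le,
        mul_one]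
      exact hr1
    rw [(ha _ hmem).tsum_eq]
  constructor
  · intro r R hr hrR hR
    have hR0 : 0 < R := hr.trans_le hrR
    obtain ⟨s1, e1⟩ := key r hr (hrR.trans_lt hR)
    obtain ⟨s2, e2⟩ := key R hR0 hR
    rw [e1, e2, ← s2.tsum_sub s1, ← tsum_mul_left]
    refine Summable.tsum_le_tsum (fun n => ?_) (s2.sub s1) (hS.mul_left _)
    have hlog : 0 ≤ Real.log (R / r) := Real.log_nonneg ((one_le_div hr).2 hrR)
    have hx : R ^ (2 * n) - r ^ (2 * n) ≤ 2 * Real.log (R / r) * n := by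
      have h3 : r ^ (2 * n) = R ^ (2 * n) * Real.exp (-(2 * Real.log (R / r) * n)) := by
        have h4 : Real.exp (-(2 * Real.log (R / r) * n)) = (r / R) ^ (2 * n) := by
          rw [show -(2 * Real.log (R / r) * n) = ((2 * n : ℕ) : ℝ) * Real.log (r / R) by
            rw [show r / R = (R / r)⁻¹ by rw [inv_div], Real.log_inv]; push_cast; ring,
            Real.exp_nat_mul, Real.exp_log (div_pos hr hR0)]
        rw [h4, div_pow]
        field_simp
      have h5 := Real.add_one_le_exp (-(2 * Real.log (R / r) * n))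
      have h6 : R ^ (2 * n) ≤ 1 := pow_le_one₀ hR0.le hR.le
      have h7 : 0 ≤ R ^ (2 * n) := by positivity
      have h8 : 0 ≤ 2 * Real.log (R / r) * n := by positivity
      rw [h3]
      nlinarith
    calc ‖a n‖ ^ 2 * R ^ (2 * n) - ‖a n‖ ^ 2 * r ^ (2 * n)
        = ‖a n‖ ^ 2 * (R ^ (2 * n) - r ^ (2 * n)) := by ring
      _ ≤ ‖a n‖ ^ 2 * (2 * Real.log (R / r) * n) :=
          mul_le_mul_of_nonneg_left hx (by positivity)
      _ = 2 * Real.log (R / r) * (n * ‖a n‖ ^ 2) := by ring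
  · intro R hR0 hR
    obtain ⟨s2, e2⟩ := key R hR0 hR
    rw [e2, s2.tsum_eq_zero_add]
    have hS' : Summable fun n : ℕ => ((n + 1 : ℕ):ℝ) * ‖a (n + 1)‖ ^ 2 :=
      (summable_nat_add_iff (f := fun n : ℕ => (n:ℝ) * ‖a n‖ ^ 2) 1).2 hS
    have s2' : Summable fun n : ℕ => ‖a (n + 1)‖ ^ 2 * R ^ (2 * (n + 1)) :=
      (summable_nat_add_iff (f := fun n : ℕ => ‖a n‖ ^ 2 * R ^ (2 * n)) 1).2 s2
    rw [hS.tsum_eq_zero_add]
    simp only [mul_zero, pow_zero, mul_one, Nat.cast_zero, zero_mul, zero_add]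
    have : ∑' n, ‖a (n + 1)‖ ^ 2 * R ^ (2 * (n + 1)) ≤
        ∑' n : ℕ, ((n + 1 : ℕ):ℝ) * ‖a (n + 1)‖ ^ 2 := by
      refine Summable.tsum_le_tsum (fun n => ?_) s2' hS'
      have h6 : R ^ (2 * (n + 1)) ≤ 1 := pow_le_one₀ hR0.le hR.le
      have h7 : (1:ℝ) ≤ ((n + 1 : ℕ):ℝ) := by push_cast; linarith [Nat.cast_nonneg (α := ℝ) n]
      have h8 : (0:ℝ) ≤ ‖a (n + 1)‖ ^ 2 := by positivity
      nlinarith
    linarith

end Pool.Agent.Helper655.DU.A3
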