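import Mathlib
import Pool.Agent.Helper655.DUDefs

set_option autoImplicit false
open Finset
open Pool.Agent.Helper655.BD (mean ee PS)

namespace Pool.Agent.Helper655.DU.A4



open MeasureTheory Set in
theorem cp_circle {g : ℂ → ℂ} {w : ℂ} {r ρ : ℝ} (hρ : 0 < ρ) (hρr : ρ < r)
    (hd : DifferentiableOn ℂ g (Metric.ball w r)) :
    ENNReal.ofReal (2 * Real.pi) * ‖g w‖ₑ ≤
      ∫⁻ θ in Ioo (-Real.pi) Real.pi, ‖g (w + ρ * Complex.exp (θ * Complex.I))‖ₑ := by
  have h1 : DiffContOnCl ℂ g (Metric.ball w |ρ|) := by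
    rw [abs_of_pos hρ]
    exact hd.diffContOnCl_ball (Metric.closedBall_subset_ball hρr)
  have h2 := h1.circleAverage
  rw [Real.circleAverage_def] at h2
  have h3 : ∫ θ in (0:ℝ)..2 * Real.pi, g (circleMap w ρ θ) =
      ∫ θ in (-Real.pi)..Real.pi, g (circleMap w ρ θ) := by
    have hp : Function.Periodic (fun θ => g (circleMap w ρ θ)) (2 * Real.pi) := by
      intro θ
      simp only [periodic_circleMap w ρ θ]
    have := hp.intervalIntegral_add_eq 0 (-Real.pi)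
    rw [zero_add, show -Real.pi + 2 * Real.pi = Real.pi by ring] at this
    exact this
  have h4 : (2 * Real.pi) • g w = ∫ θ in Ioo (-Real.pi) Real.pi, g (circleMap w ρ θ) := by
    rw [← integral_Ioc_eq_integral_Ioo, ← intervalIntegral.integral_of_le
      (by linarith [Real.pi_pos]), ← h3, ← h2, smul_smul, mul_inv_cancel₀ (by positivity), one_smul]
  calc ENNReal.ofReal (2 * Real.pi) * ‖g w‖ₑ = ‖(2 * Real.pi) • g w‖ₑ := by
        rw [enorm_smul, Real.enorm_eq_ofReal (by positivity)]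
    _ = ‖∫ θ in Ioo (-Real.pi) Real.pi, g (circleMap w ρ θ)‖ₑ := by rw [h4]
    _ ≤ ∫⁻ θ in Ioo (-Real.pi) Real.pi, ‖g (circleMap w ρ θ)‖ₑ :=
        enorm_integral_le_lintegral_enorm _

open MeasureTheory Set in
theorem cp_mv {g : ℂ → ℂ} (hg : Measurable g) {w : ℂ} {r : ℝ} (hr : 0 < r)
    (hd : DifferentiableOn ℂ g (Metric.ball w r)) :
    ENNReal.ofReal (Real.pi * r ^ 2) * ‖g w‖ₑ ≤ ∫⁻ z in Metric.ball w r, ‖g z‖ₑ := by
  set G : ℂ → ENNReal := (Metric.ball w r).indicator (fun z => ‖g z‖ₑ) with hG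
  have hGm : Measurable G := (hg.enorm).indicator Metric.isOpen_ball.measurableSet
  have e1 : ∫⁻ z in Metric.ball w r, ‖g z‖ₑ = ∫⁻ z, G (w + z) := by
    rw [lintegral_add_left_eq_self, hG, lintegral_indicator Metric.isOpen_ball.measurableSet]
  rw [e1, ← Complex.lintegral_comp_polarCoord_symm]
  have e2 : (volume : Measure (ℝ × ℝ)).restrict polarCoord.target =
      ((volume : Measure ℝ).restrict (Ioi 0)).prod
        ((volume : Measure ℝ).restrict (Ioo (-Real.pi) Real.pi)) := by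
    rw [polarCoord_target, Measure.volume_eq_prod, Measure.prod_restrict]
  have hm : Measurable (fun p : ℝ × ℝ => ENNReal.ofReal p.1 • G (w + Complex.polarCoord.symm p)) := by
    simp only [smul_eq_mul]
    apply Measurable.mul (by fun_prop)
    apply hGm.comp
    have : Measurable (fun p : ℝ × ℝ => Complex.polarCoord.symm p) := by
      have : (fun p : ℝ × ℝ => Complex.polarCoord.symm p) =
          fun p => (p.1 : ℂ) * (Real.cos p.2 + Real.sin p.2 * Complex.I) := by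
        funext p
        rw [Complex.polarCoord_symm_apply]
      rw [this]
      fun_prop
    fun_prop
  rw [e2, lintegral_prod _ hm.aemeasurable]
  have key : ∀ ρ ∈ Ioo (0:ℝ) r, ENNReal.ofReal ρ * (ENNReal.ofReal (2 * Real.pi) * ‖g w‖ₑ) ≤
      ∫⁻ θ in Ioo (-Real.pi) Real.pi, ENNReal.ofReal ρ • G (w + Complex.polarCoord.symm (ρ, θ)) := by
    intro ρ hρ
    simp only [smul_eq_mul]
    rw [lintegral_const_mul' _ _ ENNReal.ofReal_ne_top]
    gcongr
    refine (cp_circle hρ.1 hρ.2 hd).trans ?_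
    apply lintegral_mono
    intro θ
    have hval : w + Complex.polarCoord.symm (ρ, θ) = w + ρ * Complex.exp (θ * Complex.I) := by
      rw [Complex.polarCoord_symm_apply, Complex.exp_mul_I]
      push_cast
      rfl
    show _ ≤ G (w + Complex.polarCoord.symm (ρ, θ))
    rw [hval, hG]
    have hmem : w + ρ * Complex.exp (θ * Complex.I) ∈ Metric.ball w r := by
      rw [Metric.mem_ball, dist_eq_norm, add_sub_cancel_left, norm_mul,
        Complex.norm_exp_ofReal_mul_I, mul_one, Complex.norm_real, Real.norm_eq_abs,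
        abs_of_pos hρ.1]
      exact hρ.2
    rw [indicator_of_mem hmem]
  have hint : ∫⁻ ρ in Ioo (0:ℝ) r, ENNReal.ofReal ρ = ENNReal.ofReal (r ^ 2 / 2) := by
    rw [← ofReal_integral_eq_lintegral_ofReal]
    · congr 1
      rw [← integral_Ioc_eq_integral_Ioo, ← intervalIntegral.integral_of_le hr.le, integral_id]
      ring
    · have : IntegrableOn (fun x : ℝ => x) (Icc 0 r) := continuous_id.continuousOn.integrableOn_Icc
      exact this.mono_set Ioo_subset_Icc_self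
    · exact (ae_restrict_iff' measurableSet_Ioo).mpr (Filter.Eventually.of_forall fun x hx => hx.1.le)
  calc ENNReal.ofReal (Real.pi * r ^ 2) * ‖g w‖ₑ
      = ∫⁻ ρ in Ioo (0:ℝ) r, ENNReal.ofReal ρ * (ENNReal.ofReal (2 * Real.pi) * ‖g w‖ₑ) := by
        rw [lintegral_mul_const _ (by fun_prop), hint, ← mul_assoc, ← ENNReal.ofReal_mul
          (by positivity)]
        congr 2
        ring
    _ ≤ ∫⁻ ρ in Ioo (0:ℝ) r, ∫⁻ θ in Ioo (-Real.pi) Real.pi,
          ENNReal.ofReal ρ • G (w + Complex.polarCoord.symm (ρ, θ)) :=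
        setLIntegral_mono' measurableSet_Ioo key
    _ ≤ ∫⁻ ρ in Ioi (0:ℝ), ∫⁻ θ in Ioo (-Real.pi) Real.pi,
          ENNReal.ofReal ρ • G (w + Complex.polarCoord.symm (ρ, θ)) :=
        lintegral_mono_set Ioo_subset_Ioi_self

/-- box -/
def QQ (b l : ℝ) : Set ℂ :=
  {w : ℂ | w.re ∈ Set.Ioo (b - l / 2) (b + 3 * l / 2) ∧ 0 < w.im ∧ w.im < 2 * l}

/-- inner rectangle -/
def RR (b l : ℝ) : Set ℂ :=
  {w : ℂ | w.re ∈ Set.Icc b (b + l) ∧ w.im ∈ Set.Icc (l / 4) l}

theorem RR_convex (b l : ℝ) : Convex ℝ (RR b l) := by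
  have : RR b l = (Complex.reCLM ⁻¹' Set.Icc b (b + l)) ∩ (Complex.imCLM ⁻¹' Set.Icc (l / 4) l) := by
    ext w; rfl
  rw [this]
  exact ((convex_Icc _ _).linear_preimage Complex.reCLM.toLinearMap).inter
    ((convex_Icc _ _).linear_preimage Complex.imCLM.toLinearMap)

open MeasureTheory in
theorem cp_deriv {F : ℂ → ℂ} (hF : DifferentiableOn ℂ F {w : ℂ | 0 < w.im}) {b l S : ℝ}
    (hl : 0 < l) (hS : 0 ≤ S)
    (he : ∫⁻ w in QQ b l, ‖deriv F w‖ₑ ^ 2 ≤ ENNReal.ofReal (S ^ 2)) {w : ℂ} (hw : w ∈ RR b l) :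
    ‖deriv F w‖ ≤ 5 * S / l := by
  obtain ⟨⟨h1, h2⟩, h3, h4⟩ := hw
  have hsub : Metric.ball w (l / 8) ⊆ QQ b l := by
    intro z hz
    rw [Metric.mem_ball, dist_eq_norm] at hz
    have k1 := (abs_le.mp ((Complex.abs_re_le_norm (z - w)).trans hz.le))
    have k2 := (abs_le.mp ((Complex.abs_im_le_norm (z - w)).trans hz.le))
    simp only [Complex.sub_re, Complex.sub_im] at k1 k2
    refine ⟨⟨?_, ?_⟩, ?_, ?_⟩ <;> linarith
  have hopen : IsOpen {w : ℂ | 0 < w.im} := isOpen_lt continuous_const Complex.continuous_im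
  have hdd : DifferentiableOn ℂ (fun z => deriv F z ^ 2) (Metric.ball w (l / 8)) := by
    have := (hF.deriv hopen).pow 2
    exact this.mono (fun z hz => (hsub hz).2.1)
  have hmv := cp_mv (g := fun z => deriv F z ^ 2) ((measurable_deriv F).pow_const 2)
    (w := w) (r := l / 8) (by positivity) hdd
  have hle : ENNReal.ofReal (Real.pi * (l / 8) ^ 2) * ‖deriv F w ^ 2‖ₑ ≤ ENNReal.ofReal (S ^ 2) := by
    refine hmv.trans (le_trans ?_ he)
    refine (lintegral_mono_set hsub).trans (le_of_eq ?_)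
    simp only [enorm_pow]
  rw [← ofReal_norm, ← ENNReal.ofReal_mul (by positivity),
    ENNReal.ofReal_le_ofReal_iff (by positivity), norm_pow] at hle
  rw [le_div_iff₀ hl]
  apply le_of_sq_le_sq _ (by positivity)
  have hpi := Real.pi_gt_three
  have : 3 * (l / 8) ^ 2 * ‖deriv F w‖ ^ 2 ≤ S ^ 2 := by
    refine le_trans ?_ hle
    gcongr
  nlinarith

theorem cp_seg {F : ℂ → ℂ} (hF : DifferentiableOn ℂ F {w : ℂ | 0 < w.im}) {b l S : ℝ}
    (hl : 0 < l) (hS : 0 ≤ S)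
    (he : ∫⁻ w in QQ b l, ‖deriv F w‖ₑ ^ 2 ≤ ENNReal.ofReal (S ^ 2)) {z w : ℂ} (hz : z ∈ RR b l)
    (hw : w ∈ RR b l) : ‖F w - F z‖ ≤ 5 * S / l * ‖w - z‖ := by
  have hopen : IsOpen {w : ℂ | 0 < w.im} := isOpen_lt continuous_const Complex.continuous_im
  apply (RR_convex b l).norm_image_sub_le_of_norm_deriv_le (𝕜 := ℂ) _ _ hz hw
  · intro x hx
    have : (0:ℝ) < x.im := lt_of_lt_of_le (by positivity) hx.2.1
    exact hF.differentiableAt (hopen.mem_nhds this)
  · intro x hx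
    exact cp_deriv hF hl hS he hx

open MeasureTheory in
theorem cp_half {F : ℂ → ℂ} {b l S : ℝ} (hl : 0 < l)
    (he : ∫⁻ w in QQ b l, ‖deriv F w‖ₑ ^ 2 ≤ ENNReal.ofReal (S ^ 2)) :
    ∫⁻ w in QQ (b + 3 * (l / 4)) (l / 4), ‖deriv F w‖ₑ ^ 2 ≤ ENNReal.ofReal ((71 / 100 * S) ^ 2) ∨
    ∫⁻ w in QQ b (l / 4), ‖deriv F w‖ₑ ^ 2 ≤ ENNReal.ofReal ((71 / 100 * S) ^ 2) := by
  by_contra hcon
  push Not at hcon
  obtain ⟨h1, h2⟩ := hcon
  have hdisj : Disjoint (QQ (b + 3 * (l / 4)) (l / 4)) (QQ b (l / 4)) := by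
    rw [Set.disjoint_left]
    rintro z ⟨⟨h1, -⟩, -⟩ ⟨⟨-, h2⟩, -⟩
    linarith
  have hmeas : MeasurableSet (QQ b (l / 4)) := by
    have : QQ b (l / 4) = (Complex.re ⁻¹' Set.Ioo (b - l / 4 / 2) (b + 3 * (l / 4) / 2)) ∩
      (Complex.im ⁻¹' Set.Ioo 0 (2 * (l / 4))) := by
      ext w; rfl
    rw [this]
    exact (Complex.measurable_re measurableSet_Ioo).inter (Complex.measurable_im measurableSet_Ioo)
  have hsub : QQ (b + 3 * (l / 4)) (l / 4) ∪ QQ b (l / 4) ⊆ QQ b l := by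
    rintro z (⟨⟨h1, h2⟩, h3, h4⟩ | ⟨⟨h1, h2⟩, h3, h4⟩)
    · refine ⟨⟨?_, ?_⟩, h3, ?_⟩ <;> linarith
    · refine ⟨⟨?_, ?_⟩, h3, ?_⟩ <;> linarith
  have h3 := lintegral_union (f := fun w => ‖deriv F w‖ₑ ^ 2) (μ := volume) hmeas hdisj
  have h4 := (lintegral_mono_set hsub (f := fun w => ‖deriv F w‖ₑ ^ 2) (μ := volume)).trans he
  rw [h3] at h4
  have h5 := (ENNReal.add_lt_add h1 h2).trans_le h4
  rw [← ENNReal.ofReal_add (by positivity) (by positivity)] at h5
  have h6 := (ENNReal.ofReal_lt_ofReal_iff_of_nonneg (by positivity)).mp h5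
  nlinarith [sq_nonneg S]

open MeasureTheory in
open Classical in
/-- left ends -/
noncomputable def bb (F : ℂ → ℂ) (a s S : ℝ) : ℕ → ℝ
  | 0 => a
  | j + 1 => bb F a s S j + (if ∫⁻ w in QQ (bb F a s S j + 3 * (s / 4 ^ j / 4)) (s / 4 ^ j / 4),
      ‖deriv F w‖ₑ ^ 2 ≤ ENNReal.ofReal ((71 / 100 * ((71 / 100) ^ j * S)) ^ 2) then
        3 * (s / 4 ^ j / 4) else 0)

open MeasureTheory in
theorem cp_seq {F : ℂ → ℂ} {a s S : ℝ} (hs : 0 < s)
    (he : ∫⁻ w in QQ a s, ‖deriv F w‖ₑ ^ 2 ≤ ENNReal.ofReal (S ^ 2)) :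
    ∃ (ε : ℕ → Bool) (b : ℕ → ℝ), b 0 = a ∧
      (∀ j, b (j + 1) = b j + (if ε j then 3 * (s / 4 ^ j / 4) else 0)) ∧
      ∀ j, ∫⁻ w in QQ (b j) (s / 4 ^ j), ‖deriv F w‖ₑ ^ 2 ≤
        ENNReal.ofReal (((71 / 100) ^ j * S) ^ 2) := by
  classical
  refine ⟨fun j => decide (∫⁻ w in QQ (bb F a s S j + 3 * (s / 4 ^ j / 4)) (s / 4 ^ j / 4),
      ‖deriv F w‖ₑ ^ 2 ≤ ENNReal.ofReal ((71 / 100 * ((71 / 100) ^ j * S)) ^ 2)),
    bb F a s S, rfl, ?_, ?_⟩
  · intro j
    simp only [decide_eq_true_eq]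
    rw [bb]
  · intro j
    induction j with
    | zero => simpa [bb] using he
    | succ j ih =>
      have h := cp_half (F := F) (b := bb F a s S j) (l := s / 4 ^ j) (by positivity) ih
      have e1 : s / 4 ^ (j + 1) = s / 4 ^ j / 4 := by rw [pow_succ]; field_simp
      have e2 : (71 / 100 : ℝ) ^ (j + 1) * S = 71 / 100 * ((71 / 100) ^ j * S) := by
        rw [pow_succ]; ring
      rw [e1, e2, bb]
      by_cases hc : ∫⁻ w in QQ (bb F a s S j + 3 * (s / 4 ^ j / 4)) (s / 4 ^ j / 4),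
        ‖deriv F w‖ₑ ^ 2 ≤ ENNReal.ofReal ((71 / 100 * ((71 / 100) ^ j * S)) ^ 2)
      · rw [if_pos hc]; exact hc
      · rw [if_neg hc, add_zero]
        exact h.resolve_left hc

open MeasureTheory in
theorem cp_main {F : ℂ → ℂ} (hF : DifferentiableOn ℂ F {w : ℂ | 0 < w.im}) {a s S x : ℝ}
    (hs : 0 < s) (hS : 0 ≤ S) (hx : x ∈ Set.Icc a (a + s))
    (h0 : ∀ κ ∈ K4, Filter.Tendsto (fun y : ℝ => F (((a + s * κ : ℝ) : ℂ) + y * Complex.I))
      (nhdsWithin 0 (Set.Ioi 0)) (nhds 0))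
    (he : ∫⁻ w in QQ a s, ‖deriv F w‖ₑ ^ 2 ≤ ENNReal.ofReal (S ^ 2)) :
    ‖F ((x : ℂ) + s * Complex.I)‖ ≤ 22 * S := by
  obtain ⟨ε, b, hb0, hb, hE⟩ := cp_seq hs he
  set L : ℕ → ℝ := fun j => s / 4 ^ j with hL
  have hLpos : ∀ j, 0 < L j := fun j => by simp only [hL]; positivity
  have hLs : ∀ j, L (j + 1) = L j / 4 := fun j => by simp only [hL]; rw [pow_succ]; field_simp
  have hb' : ∀ j, b (j + 1) = b j + (if ε j then 3 * (L j / 4) else 0) := hb
  set κ : ℝ := ∑' n : ℕ, (if ε n then (3:ℝ) else 0) / 4 ^ (n + 1) with hκ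
  have hκK : κ ∈ K4 := ⟨ε, rfl⟩
  have hsum : Summable (fun n : ℕ => (if ε n then (3:ℝ) else 0) / 4 ^ (n + 1)) := by
    refine Summable.of_nonneg_of_le (fun n => ?_) (fun n => ?_)
      ((summable_geometric_of_lt_one (r := 1 / 4) (by norm_num) (by norm_num)).mul_left 3)
    · split_ifs <;> positivity
    · rw [one_div_pow, mul_one_div]
      apply div_le_div₀ (by norm_num)
      · split_ifs <;> norm_num
      · positivity
      · exact pow_le_pow_right₀ (by norm_num) (Nat.le_succ n)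
  have hbsum : ∀ j, b j = a + s * ∑ i ∈ Finset.range j, (if ε i then (3:ℝ) else 0) / 4 ^ (i + 1) := by
    intro j
    induction j with
    | zero => simp [hb0]
    | succ j ih =>
      rw [hb' j, Finset.sum_range_succ, mul_add, ← add_assoc, ← ih]
      congr 1
      simp only [hL]
      split_ifs
      · rw [pow_succ]; field_simp
      · simp
  have hblim : Filter.Tendsto b Filter.atTop (nhds (a + s * κ)) := by
    have := (hsum.hasSum.tendsto_sum_nat.const_mul s).const_add a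
    refine this.congr (fun j => (hbsum j).symm)
  have hLlim : Filter.Tendsto L Filter.atTop (nhds 0) := by
    have h1 := (tendsto_pow_atTop_nhds_zero_of_lt_one (r := (1 / 4 : ℝ)) (by norm_num)
      (by norm_num)).const_mul s
    rw [mul_zero] at h1
    refine h1.congr (fun j => ?_)
    simp only [hL]
    rw [one_div_pow, mul_one_div]
  have hmono : Monotone b := monotone_nat_of_le_succ (fun j => by
    rw [hb' j]
    have := hLpos j
    split_ifs <;> linarith)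
  have hanti : Antitone (fun j => b j + L j) := antitone_nat_of_succ_le (fun j => by
    rw [hb' j, hLs j]
    have := hLpos j
    split_ifs <;> linarith)
  have hκ1 : ∀ j, b j ≤ a + s * κ := fun j => hmono.ge_of_tendsto hblim j
  have hκ2 : ∀ j, a + s * κ ≤ b j + L j := fun j => by
    have h1 := hblim.add hLlim
    rw [add_zero] at h1
    exact hanti.le_of_tendsto h1 j
  set zz : ℕ → ℂ := fun j => ((b j + L j / 2 : ℝ) : ℂ) + (L j : ℝ) * Complex.I with hzz
  have zre : ∀ j, (zz j).re = b j + L j / 2 := fun j => by simp [hzz]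
  have zim : ∀ j, (zz j).im = L j := fun j => by simp [hzz]
  have hz1 : ∀ j, zz j ∈ RR (b j) (L j) := by
    intro j
    have := hLpos j
    refine ⟨⟨?_, ?_⟩, ?_, ?_⟩ <;> simp only [zre, zim] <;> linarith
  have hz2 : ∀ j, zz (j + 1) ∈ RR (b j) (L j) := by
    intro j
    have := hLpos j
    refine ⟨⟨?_, ?_⟩, ?_, ?_⟩ <;> simp only [zre, zim, hb' j, hLs j] <;> (try split_ifs) <;> linarith
  have hstep : ∀ j, ‖F (zz (j + 1)) - F (zz j)‖ ≤ 45 / 8 * ((71 / 100) ^ j * S) := by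
    intro j
    have hl := hLpos j
    have h1 := cp_seg hF hl (S := (71 / 100) ^ j * S) (by positivity) (hE j) (hz1 j) (hz2 j)
    have h2 : ‖zz (j + 1) - zz j‖ ≤ 9 / 8 * L j := by
      refine (Complex.norm_le_abs_re_add_abs_im _).trans ?_
      rw [Complex.sub_re, Complex.sub_im, zre, zre, zim, zim, hb' j, hLs j]
      have e1 : |b j + (if ε j then 3 * (L j / 4) else 0) + L j / 4 / 2 - (b j + L j / 2)| ≤
          3 / 8 * L j := by
        rw [abs_le]
        split_ifs <;> constructor <;> linarith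
      have e2 : |L j / 4 - L j| ≤ 3 / 4 * L j := by
        rw [abs_le]
        constructor <;> linarith
      linarith
    refine h1.trans ?_
    calc 5 * ((71 / 100) ^ j * S) / L j * ‖zz (j + 1) - zz j‖
        ≤ 5 * ((71 / 100) ^ j * S) / L j * (9 / 8 * L j) := by gcongr
      _ = 45 / 8 * ((71 / 100) ^ j * S) := by field_simp; ring
  have htel : ∀ n, ‖F (zz n) - F (zz 0)‖ ≤ 45 / 8 * S * ((1 - (71 / 100) ^ n) / (29 / 100)) := by
    intro n
    induction n with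
    | zero => simp
    | succ n ih =>
      have e : F (zz (n + 1)) - F (zz 0) = (F (zz (n + 1)) - F (zz n)) + (F (zz n) - F (zz 0)) := by
        ring
      rw [e]
      refine (norm_add_le _ _).trans ((add_le_add (hstep n) ih).trans (le_of_eq ?_))
      rw [pow_succ]; ring
  set pp : ℕ → ℂ := fun n => ((a + s * κ : ℝ) : ℂ) + (L n : ℝ) * Complex.I with hpp
  have pre : ∀ j, (pp j).re = a + s * κ := fun j => by simp [hpp]
  have pim : ∀ j, (pp j).im = L j := fun j => by simp [hpp]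
  have hp1 : ∀ j, pp j ∈ RR (b j) (L j) := by
    intro j
    have := hLpos j
    refine ⟨⟨?_, ?_⟩, ?_, ?_⟩ <;> simp only [pre, pim]
    · exact hκ1 j
    · exact hκ2 j
    · linarith
    · exact le_rfl
  have hpz : ∀ n, ‖F (zz n) - F (pp n)‖ ≤ 5 * ((71 / 100) ^ n * S) := by
    intro n
    have hl := hLpos n
    have h1 := cp_seg hF hl (S := (71 / 100) ^ n * S) (by positivity) (hE n) (hp1 n) (hz1 n)
    have h2 : ‖zz n - pp n‖ ≤ L n := by
      refine (Complex.norm_le_abs_re_add_abs_im _).trans ?_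
      rw [Complex.sub_re, Complex.sub_im, zre, zim, pre, pim, sub_self, abs_zero, add_zero, abs_le]
      have := hκ1 n
      have := hκ2 n
      constructor <;> linarith
    refine h1.trans ?_
    calc 5 * ((71 / 100) ^ n * S) / L n * ‖zz n - pp n‖
        ≤ 5 * ((71 / 100) ^ n * S) / L n * L n := by gcongr
      _ = 5 * ((71 / 100) ^ n * S) := by field_simp
  have hplim : Filter.Tendsto (fun n => ‖F (pp n)‖) Filter.atTop (nhds 0) := by
    have h1 : Filter.Tendsto L Filter.atTop (nhdsWithin 0 (Set.Ioi 0)) :=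
      tendsto_nhdsWithin_iff.mpr ⟨hLlim, Filter.Eventually.of_forall hLpos⟩
    have h2 := ((h0 κ hκK).comp h1).norm
    rw [norm_zero] at h2
    exact h2
  have hz0 : ‖F (zz 0)‖ ≤ 45 / 8 * S * (1 / (29 / 100)) := by
    have hb1 : ∀ n, ‖F (zz 0)‖ ≤ 45 / 8 * S * ((1 - (71 / 100) ^ n) / (29 / 100)) +
        5 * ((71 / 100) ^ n * S) + ‖F (pp n)‖ := by
      intro n
      have e : F (zz 0) = -(F (zz n) - F (zz 0)) + (F (zz n) - F (pp n)) + F (pp n) := by ring
      calc ‖F (zz 0)‖ = ‖-(F (zz n) - F (zz 0)) + (F (zz n) - F (pp n)) + F (pp n)‖ := by rw [← e]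
        _ ≤ ‖-(F (zz n) - F (zz 0))‖ + ‖F (zz n) - F (pp n)‖ + ‖F (pp n)‖ := norm_add₃_le
        _ ≤ _ := by rw [norm_neg]; gcongr; exact htel n; exact hpz n
    have hpow := tendsto_pow_atTop_nhds_zero_of_lt_one (r := (71 / 100 : ℝ)) (by norm_num)
      (by norm_num)
    have hlim : Filter.Tendsto (fun n : ℕ => 45 / 8 * S * ((1 - (71 / 100 : ℝ) ^ n) / (29 / 100)) +
        5 * ((71 / 100) ^ n * S) + ‖F (pp n)‖) Filter.atTop
        (nhds (45 / 8 * S * ((1 - 0) / (29 / 100)) + 5 * (0 * S) + 0)) := by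
      apply Filter.Tendsto.add _ hplim
      apply Filter.Tendsto.add
      · exact ((hpow.const_sub 1).div_const _).const_mul _
      · exact (hpow.mul_const S).const_mul 5
    have := ge_of_tendsto' hlim hb1
    simpa using this
  -- final step
  have hL0 : L 0 = s := by simp [hL]
  have hx1 : ((x : ℂ) + s * Complex.I) ∈ RR (b 0) (L 0) := by
    rw [hb0, hL0]
    refine ⟨⟨?_, ?_⟩, ?_, ?_⟩ <;> simp
    · exact hx.1
    · exact hx.2
    · linarith
  have h1 := cp_seg hF (hLpos 0) (S := (71 / 100) ^ 0 * S) (by positivity) (hE 0) (hz1 0) hx1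
  have h2 : ‖((x : ℂ) + s * Complex.I) - zz 0‖ ≤ s / 2 := by
    refine (Complex.norm_le_abs_re_add_abs_im _).trans ?_
    rw [Complex.sub_re, Complex.sub_im, zre, zim, hb0, hL0]
    simp
    rw [abs_le]
    have := hx.1
    have := hx.2
    constructor <;> linarith
  have h3 : ‖F ((x : ℂ) + s * Complex.I) - F (zz 0)‖ ≤ 5 / 2 * S := by
    refine h1.trans ?_
    rw [hL0, pow_zero, one_mul]
    calc 5 * S / s * ‖((x : ℂ) + s * Complex.I) - zz 0‖ ≤ 5 * S / s * (s / 2) := by gcongr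
      _ = 5 / 2 * S := by field_simp
  have e : F ((x : ℂ) + s * Complex.I) = (F ((x : ℂ) + s * Complex.I) - F (zz 0)) + F (zz 0) := by
    ring
  rw [e]
  refine (norm_add_le _ _).trans ((add_le_add h3 hz0).trans ?_)
  linarith

/-- TARGET -/
theorem cantor_path (F : ℂ → ℂ) (hF : DifferentiableOn ℂ F {w : ℂ | 0 < w.im}) (a s x : ℝ)
    (hs : 0 < s) (hx : x ∈ Set.Icc a (a + s))
    (h0 : ∀ κ ∈ K4, Filter.Tendsto (fun y : ℝ => F (((a + s * κ : ℝ) : ℂ) + y * Complex.I))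
      (nhdsWithin 0 (Set.Ioi 0)) (nhds 0)) :
    ‖F ((x : ℂ) + s * Complex.I)‖ₑ ^ 2 ≤ 600 *
      ∫⁻ w in {w : ℂ | w.re ∈ Set.Ioo (x - 2 * s) (x + 2 * s) ∧ 0 < w.im ∧ w.im < 2 * s},
        ‖deriv F w‖ₑ ^ 2 := by
  set e0 := ∫⁻ w in {w : ℂ | w.re ∈ Set.Ioo (x - 2 * s) (x + 2 * s) ∧ 0 < w.im ∧ w.im < 2 * s},
        ‖deriv F w‖ₑ ^ 2 with he0
  by_cases htop : e0 = ⊤
  · rw [htop, ENNReal.mul_top (by norm_num)]
    exact le_top
  · have hsub : QQ a s ⊆ {w : ℂ | w.re ∈ Set.Ioo (x - 2 * s) (x + 2 * s) ∧ 0 < w.im ∧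
        w.im < 2 * s} := by
      rintro w ⟨⟨h1, h2⟩, h3, h4⟩
      have := hx.1
      have := hx.2
      refine ⟨⟨?_, ?_⟩, h3, h4⟩ <;> linarith
    have hle : ∫⁻ w in QQ a s, ‖deriv F w‖ₑ ^ 2 ≤ ENNReal.ofReal ((Real.sqrt e0.toReal) ^ 2) := by
      rw [Real.sq_sqrt ENNReal.toReal_nonneg, ENNReal.ofReal_toReal htop]
      exact MeasureTheory.lintegral_mono_set hsub
    have hmain := cp_main hF hs (Real.sqrt_nonneg _) hx h0 hle
    rw [← ofReal_norm, ← ENNReal.ofReal_pow (norm_nonneg _)]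
    have h1 : ‖F ((x : ℂ) + s * Complex.I)‖ ^ 2 ≤ 600 * e0.toReal := by
      have h2 := Real.sq_sqrt (ENNReal.toReal_nonneg (a := e0))
      nlinarith [norm_nonneg (F ((x : ℂ) + s * Complex.I)), Real.sqrt_nonneg e0.toReal]
    refine (ENNReal.ofReal_le_ofReal h1).trans (le_of_eq ?_)
    rw [ENNReal.ofReal_mul (by norm_num), ENNReal.ofReal_toReal htop]
    norm_num

end Pool.Agent.Helper655.DU.A4
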