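import Mathlib
import Pool.Agent.Helper655.DUDefs
import Pool.Agent.Helper655.DUA4

set_option autoImplicit false
open Finset
open Pool.Agent.Helper655.BD (mean ee PS)

namespace Pool.Agent.Helper655.DU.A5

open Pool.Agent.Helper655.DU.A4 (cantor_path)


open MeasureTheory in
/-- TARGET -/
theorem piece (F : ℂ → ℂ) (hF : DifferentiableOn ℂ F {w : ℂ | 0 < w.im}) (c s : ℝ) (M : ℕ)
    (hs : 0 < s) (hM : 0 < M) (hlo : -Real.pi ≤ c - 2 * s) (hhi : c + M * s + 2 * s ≤ Real.pi)
    (h0 : ∀ k < M, ∀ κ ∈ K4,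
      Filter.Tendsto (fun y : ℝ => F (((c + s * (k + κ) : ℝ) : ℂ) + y * Complex.I))
        (nhdsWithin 0 (Set.Ioi 0)) (nhds 0)) :
    ∫⁻ x in Set.Icc c (c + M * s), ‖F ((x : ℂ) + s * Complex.I)‖ₑ ^ 2 ≤
      ENNReal.ofReal (2400 * s) *
        ∫⁻ w in {w : ℂ | w.re ∈ Set.Ioo (-Real.pi) Real.pi ∧ 0 < w.im}, ‖deriv F w‖ₑ ^ 2 := by
  classical
  have hUo : IsOpen {w : ℂ | 0 < w.im} := isOpen_lt continuous_const Complex.continuous_im
  have hdc : ContinuousOn (deriv F) {w : ℂ | 0 < w.im} := (hF.deriv hUo).continuousOn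
  set G : ℂ → ENNReal := Set.indicator {w : ℂ | 0 < w.im} (fun w => ‖deriv F w‖ₑ ^ 2) with hG
  have hGm : Measurable G := by
    rw [hG, ← Set.piecewise_eq_indicator]
    refine ContinuousOn.measurable_piecewise ?_ continuousOn_const hUo.measurableSet
    exact (ENNReal.continuous_pow 2).comp_continuousOn hdc.enorm
  set P : Set (ℝ × ℂ) := {p | |p.2.re - p.1| < 2 * s ∧ 0 < p.2.im ∧ p.2.im < 2 * s} with hP
  have hPm : MeasurableSet P := by
    have c1 : Continuous fun p : ℝ × ℂ => |p.2.re - p.1| :=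
      ((Complex.continuous_re.comp continuous_snd).sub continuous_fst).abs
    have c2 : Continuous fun p : ℝ × ℂ => p.2.im := Complex.continuous_im.comp continuous_snd
    have o1 : IsOpen {p : ℝ × ℂ | |p.2.re - p.1| < 2 * s} := isOpen_lt c1 continuous_const
    have o2 : IsOpen {p : ℝ × ℂ | 0 < p.2.im} := isOpen_lt continuous_const c2
    have o3 : IsOpen {p : ℝ × ℂ | p.2.im < 2 * s} := isOpen_lt c2 continuous_const
    exact (o1.inter (o2.inter o3)).measurableSet
  set Φ : ℝ → ℂ → ENNReal := fun x w => P.indicator (fun p => G p.2) (x, w) with hΦ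
  have hb : ∀ x ∈ Set.Icc c (c + M * s), ‖F ((x : ℂ) + s * Complex.I)‖ₑ ^ 2 ≤
      600 * ∫⁻ w, Φ x w := by
    intro x hx
    have hk : ∃ k < M, c + k * s ≤ x ∧ x ≤ c + k * s + s := by
      have h1 : (0:ℝ) ≤ (x - c) / s := div_nonneg (by linarith [hx.1]) hs.le
      have h2 := Nat.floor_le h1
      have h3 := Nat.lt_floor_add_one ((x - c) / s)
      rw [le_div_iff₀ hs] at h2
      rw [div_lt_iff₀ hs] at h3
      by_cases hlt : ⌊(x - c) / s⌋₊ < M
      · exact ⟨_, hlt, by linarith, by linarith⟩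
      · push Not at hlt
        have h4 : (M : ℝ) ≤ ⌊(x - c) / s⌋₊ := by exact_mod_cast hlt
        have h5 : (M : ℝ) * s ≤ ⌊(x - c) / s⌋₊ * s := by gcongr
        refine ⟨M - 1, by omega, ?_, ?_⟩
        · rw [Nat.cast_sub hM]; push_cast; linarith
        · rw [Nat.cast_sub hM]; push_cast; linarith [hx.2]
    obtain ⟨k, hkM, hk1, hk2⟩ := hk
    have hcp := cantor_path F hF (c + k * s) s x hs ⟨hk1, hk2⟩ (fun κ hκ => by
      have := h0 k hkM κ hκ
      have e : c + s * (k + κ) = c + k * s + s * κ := by ring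
      rw [e] at this
      exact this)
    refine hcp.trans (le_of_eq ?_)
    congr 1
    have hbox : MeasurableSet {w : ℂ | w.re ∈ Set.Ioo (x - 2 * s) (x + 2 * s) ∧ 0 < w.im ∧
        w.im < 2 * s} := by
      have o1 : IsOpen {w : ℂ | w.re ∈ Set.Ioo (x - 2 * s) (x + 2 * s)} :=
        isOpen_Ioo.preimage Complex.continuous_re
      have o3 : IsOpen {w : ℂ | w.im < 2 * s} := isOpen_lt Complex.continuous_im continuous_const
      exact (o1.inter (hUo.inter o3)).measurableSet
    rw [← lintegral_indicator hbox]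
    refine lintegral_congr fun w => ?_
    simp only [hΦ, Set.indicator_apply, hP, hG, Set.mem_ofPred_eq, Set.mem_Ioo, abs_lt]
    by_cases h1 : 0 < w.im ∧ w.im < 2 * s
    · by_cases h2 : x - 2 * s < w.re ∧ w.re < x + 2 * s
      · rw [if_pos ⟨h2, h1⟩, if_pos ⟨⟨by linarith [h2.1], by linarith [h2.2]⟩, h1⟩, if_pos h1.1]
      · rw [if_neg (fun h => h2 h.1), if_neg (fun h => h2 ⟨by linarith [h.1.1], by linarith [h.1.2]⟩)]
    · rw [if_neg (fun h => h1 h.2), if_neg (fun h => h1 h.2)]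
  have hΦm : Measurable (Function.uncurry Φ) := by
    have : Function.uncurry Φ = P.indicator (fun p => G p.2) := by
      funext p; rfl
    rw [this]
    exact (hGm.comp measurable_snd).indicator hPm
  have hSm : MeasurableSet {w : ℂ | w.re ∈ Set.Ioo (-Real.pi) Real.pi ∧ 0 < w.im} := by
    have o1 : IsOpen {w : ℂ | w.re ∈ Set.Ioo (-Real.pi) Real.pi} :=
      isOpen_Ioo.preimage Complex.continuous_re
    exact (o1.inter hUo).measurableSet
  have hin : ∀ w : ℂ, ∫⁻ x in Set.Icc c (c + M * s), Φ x w ≤ ENNReal.ofReal (4 * s) *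
      Set.indicator {w : ℂ | w.re ∈ Set.Ioo (-Real.pi) Real.pi ∧ 0 < w.im}
        (fun w => ‖deriv F w‖ₑ ^ 2) w := by
    intro w
    by_cases hw : w ∈ {w : ℂ | w.re ∈ Set.Ioo (-Real.pi) Real.pi ∧ 0 < w.im}
    · rw [Set.indicator_of_mem hw]
      calc ∫⁻ x in Set.Icc c (c + M * s), Φ x w ≤ ∫⁻ x, Φ x w := setLIntegral_le_lintegral _ _
        _ ≤ ∫⁻ x, (Set.Ioo (w.re - 2 * s) (w.re + 2 * s)).indicator
              (fun _ => ‖deriv F w‖ₑ ^ 2) x := by
            refine lintegral_mono fun x => ?_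
            simp only [hΦ, Set.indicator_apply, hP, hG, Set.mem_ofPred_eq, Set.mem_Ioo, abs_lt]
            by_cases h1 : (-(2 * s) < w.re - x ∧ w.re - x < 2 * s) ∧ 0 < w.im ∧ w.im < 2 * s
            · rw [if_pos h1, if_pos h1.2.1, if_pos ⟨by linarith [h1.1.2], by linarith [h1.1.1]⟩]
            · rw [if_neg h1]; exact zero_le
        _ = ENNReal.ofReal (4 * s) * ‖deriv F w‖ₑ ^ 2 := by
            rw [lintegral_indicator measurableSet_Ioo, setLIntegral_const, Real.volume_Ioo,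
              mul_comm]
            congr 2
            ring
    · have : ∫⁻ x in Set.Icc c (c + M * s), Φ x w = 0 := by
        rw [← nonpos_iff_eq_zero]
        calc ∫⁻ x in Set.Icc c (c + M * s), Φ x w ≤ ∫⁻ x in Set.Icc c (c + M * s), 0 := by
              refine setLIntegral_mono' measurableSet_Icc fun x hx => ?_
              simp only [hΦ, Set.indicator_apply, hP, Set.mem_ofPred_eq, abs_lt]
              rw [if_neg]
              rintro ⟨⟨h1, h2⟩, h3, h4⟩
              exact hw ⟨⟨by linarith [hx.1, hx.2], by linarith [hx.1, hx.2]⟩, h3⟩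
          _ = 0 := by simp
      rw [this]
      exact zero_le
  calc ∫⁻ x in Set.Icc c (c + M * s), ‖F ((x : ℂ) + s * Complex.I)‖ₑ ^ 2
      ≤ ∫⁻ x in Set.Icc c (c + M * s), 600 * ∫⁻ w, Φ x w :=
        setLIntegral_mono' measurableSet_Icc hb
    _ = 600 * ∫⁻ x in Set.Icc c (c + M * s), ∫⁻ w, Φ x w :=
        lintegral_const_mul' _ _ (by simp)
    _ = 600 * ∫⁻ w, ∫⁻ x in Set.Icc c (c + M * s), Φ x w := by
        rw [lintegral_lintegral_swap hΦm.aemeasurable]
    _ ≤ 600 * ∫⁻ w, ENNReal.ofReal (4 * s) *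
          Set.indicator {w : ℂ | w.re ∈ Set.Ioo (-Real.pi) Real.pi ∧ 0 < w.im}
            (fun w => ‖deriv F w‖ₑ ^ 2) w := by
        gcongr with w
        exact hin w
    _ = ENNReal.ofReal (2400 * s) *
        ∫⁻ w in {w : ℂ | w.re ∈ Set.Ioo (-Real.pi) Real.pi ∧ 0 < w.im}, ‖deriv F w‖ₑ ^ 2 := by
        rw [lintegral_const_mul' _ _ ENNReal.ofReal_ne_top, lintegral_indicator hSm, ← mul_assoc]
        congr 1
        have : (600 : ENNReal) = ENNReal.ofReal 600 := by norm_num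
        rw [this, ← ENNReal.ofReal_mul (by norm_num)]
        congr 1
        ring

end Pool.Agent.Helper655.DU.A5
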