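import Mathlib
import Pool.Agent.Helper655.DUDefs

set_option autoImplicit false
open Finset
open Pool.Agent.Helper655.BD (mean ee PS)

namespace Pool.Agent.Helper655.DU.B1


/-- TARGET -/
theorem weak_lim (H : ℂ → ℝ) (Hk : ℕ → ℂ → ℝ) (G : ℂ → ℂ →L[ℝ] ℝ) (g : ℂ → ℝ) (B : ℝ)
    (hLip : ∀ k, ∃ C : NNReal, LipschitzWith C (Hk k))
    (hb : ∀ k z, |Hk k z| ≤ B)
    (hlim : ∀ᵐ z : ℂ, Filter.Tendsto (fun k => Hk k z) Filter.atTop (nhds (H z)))
    (hg : MeasureTheory.MemLp g 2)
    (hdom : ∀ k, ∀ᵐ z : ℂ, ‖fderiv ℝ (Hk k) z‖ ≤ g z)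
    (hGlim : ∀ᵐ z : ℂ, Filter.Tendsto (fun k => fderiv ℝ (Hk k) z) Filter.atTop (nhds (G z)))
    (φ : ℂ → ℝ) (hφ : ContDiff ℝ 1 φ) (hφc : HasCompactSupport φ) (v : ℂ) :
    ∫ z, H z * fderiv ℝ φ z v = - ∫ z, G z v * φ z := by
  have hφL : ∃ C, LipschitzWith C φ := ContDiff.lipschitzWith_of_hasCompactSupport hφc hφ (by simp)
  obtain ⟨D, hD⟩ := hφL
  have hφd : Differentiable ℝ φ := hφ.differentiable (by simp)
  have hcont : Continuous (fun z => fderiv ℝ φ z v) := (hφ.continuous_fderiv (by simp)).clm_apply continuous_const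
  have hcs : HasCompactSupport (fun z => fderiv ℝ φ z v) := by
    refine (hφc.fderiv ℝ).mono' ?_
    intro z hz
    refine subset_tsupport _ ?_
    rw [Function.mem_support] at hz ⊢
    intro h0
    apply hz
    rw [h0]
    rfl
  have key : ∀ k, ∫ z, Hk k z * fderiv ℝ φ z v = - ∫ z, fderiv ℝ (Hk k) z v * φ z := by
    intro k
    obtain ⟨C, hC⟩ := hLip k
    have h1 := LipschitzWith.integral_lineDeriv_mul_eq (μ := MeasureTheory.volume) hC hD hφc v
    have h2 : ∫ z, lineDeriv ℝ (Hk k) z v * φ z = ∫ z, fderiv ℝ (Hk k) z v * φ z := by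
      refine MeasureTheory.integral_congr_ae ?_
      filter_upwards [hC.ae_differentiableAt] with z hz
      rw [hz.lineDeriv_eq_fderiv]
    have h3 : ∫ z, lineDeriv ℝ φ z (-v) * Hk k z = - ∫ z, Hk k z * fderiv ℝ φ z v := by
      rw [← MeasureTheory.integral_neg]
      refine MeasureTheory.integral_congr_ae (Filter.Eventually.of_forall fun z => ?_)
      simp only
      rw [(hφd z).lineDeriv_eq_fderiv, map_neg]
      ring
    rw [h2, h3] at h1
    rw [h1, neg_neg]
  have L1 : Filter.Tendsto (fun k => ∫ z, Hk k z * fderiv ℝ φ z v) Filter.atTop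
      (nhds (∫ z, H z * fderiv ℝ φ z v)) := by
    refine MeasureTheory.tendsto_integral_of_dominated_convergence (fun z => B * ‖fderiv ℝ φ z v‖) ?_ ?_ ?_ ?_
    · intro k
      obtain ⟨C, hC⟩ := hLip k
      exact (hC.continuous.mul hcont).aestronglyMeasurable
    · exact (hcont.norm.integrable_of_hasCompactSupport hcs.norm).const_mul B
    · intro k
      refine Filter.Eventually.of_forall fun z => ?_
      rw [norm_mul]
      exact mul_le_mul_of_nonneg_right (hb k z) (norm_nonneg _)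
    · filter_upwards [hlim] with z hz
      exact hz.mul_const _
  have L2 : Filter.Tendsto (fun k => ∫ z, fderiv ℝ (Hk k) z v * φ z) Filter.atTop
      (nhds (∫ z, G z v * φ z)) := by
    refine MeasureTheory.tendsto_integral_of_dominated_convergence (fun z => g z * (‖v‖ * ‖φ z‖)) ?_ ?_ ?_ ?_
    · intro k
      exact ((measurable_fderiv_apply_const ℝ (Hk k) v).mul hφ.continuous.measurable).aestronglyMeasurable
    · have hm : MeasureTheory.MemLp (fun z => ‖v‖ * ‖φ z‖) 2 MeasureTheory.volume := by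
        refine Continuous.memLp_of_hasCompactSupport (continuous_const.mul hφ.continuous.norm) ?_
        exact hφc.norm.mul_left
      exact MeasureTheory.MemLp.integrable_mul hg hm
    · intro k
      filter_upwards [hdom k] with z hz
      rw [norm_mul]
      calc ‖fderiv ℝ (Hk k) z v‖ * ‖φ z‖ ≤ (‖fderiv ℝ (Hk k) z‖ * ‖v‖) * ‖φ z‖ :=
            mul_le_mul_of_nonneg_right (ContinuousLinearMap.le_opNorm _ _) (norm_nonneg _)
        _ ≤ (g z * ‖v‖) * ‖φ z‖ := by gcongr
        _ = g z * (‖v‖ * ‖φ z‖) := by ring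
    · filter_upwards [hGlim] with z hz
      have h5 : Filter.Tendsto (fun k => fderiv ℝ (Hk k) z v) Filter.atTop (nhds (G z v)) :=
        ((ContinuousLinearMap.apply ℝ ℝ v).continuous.tendsto (G z)).comp hz
      exact h5.mul_const _
  have L3 := L2.neg
  have L4 : Filter.Tendsto (fun k => ∫ z, Hk k z * fderiv ℝ φ z v) Filter.atTop
      (nhds (- ∫ z, G z v * φ z)) := by
    refine L3.congr fun k => ?_
    exact (key k).symm
  exact tendsto_nhds_unique L1 L4

end Pool.Agent.Helper655.DU.B1
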