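import Mathlib
import Pool.Agent.Helper655.DUDefs

set_option autoImplicit false
open Finset
open Pool.Agent.Helper655.BD (mean ee PS)

namespace Pool.Agent.Helper655.DU.B2



theorem log_sub_le {a b : ℝ} (ha : 1 ≤ a) (hb : 1 ≤ b) : |Real.log a - Real.log b| ≤ |a - b| := by
  have key : ∀ x y : ℝ, 1 ≤ x → x ≤ y → Real.log y - Real.log x ≤ y - x := by
    intro x y hx hxy
    have hx0 : 0 < x := by linarith
    have hy0 : 0 < y := by linarith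
    rw [← Real.log_div hy0.ne' hx0.ne']
    have h1 := Real.log_le_sub_one_of_pos (div_pos hy0 hx0)
    have h2 : y / x - 1 = (y - x) / x := by field_simp
    have h3 : (y - x) / x ≤ y - x := by
      rw [div_le_iff₀ hx0]
      nlinarith
    linarith
  rcases le_total a b with h | h
  · have h1 := key a b ha h
    have h2 : Real.log a ≤ Real.log b := Real.log_le_log (by linarith) h
    rw [abs_sub_comm, abs_of_nonneg (by linarith), abs_sub_comm, abs_of_nonneg (by linarith)]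
    exact h1
  · have h1 := key b a hb h
    have h2 : Real.log b ≤ Real.log a := Real.log_le_log (by linarith) h
    rw [abs_of_nonneg (by linarith), abs_of_nonneg (by linarith)]
    exact h1

theorem Mx_ge (c : ℂ) {ρ : ℝ} (hρ : 0 < ρ) (z : ℂ) : 1 ≤ max ‖z - c‖ (2 * ρ) / (2 * ρ) := by
  rw [le_div_iff₀ (by linarith)]
  rw [one_mul]
  exact le_max_right _ _

theorem Lp_mem (c : ℂ) {ρ Λ : ℝ} (hρ : 0 < ρ) (hΛ : 0 < Λ) (z : ℂ) :
    0 ≤ Lp c ρ Λ z ∧ Lp c ρ Λ z ≤ 1 := by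
  unfold Lp
  refine ⟨le_min zero_le_one (div_nonneg (Real.log_nonneg (Mx_ge c hρ z)) hΛ.le), min_le_left _ _⟩

theorem Dp_mem (S : Set ℂ) {σ : ℝ} (hσ : 0 < σ) (z : ℂ) : 0 ≤ Dp S σ z ∧ Dp S σ z ≤ 1 := by
  unfold Dp
  exact ⟨le_min zero_le_one (div_nonneg Metric.infDist_nonneg hσ.le), min_le_left _ _⟩

theorem abs_min_one_sub (a b : ℝ) : |min 1 a - min 1 b| ≤ |a - b| := by
  have := abs_min_sub_min_le_max 1 a 1 b
  simpa using this

theorem Lp_lip (c : ℂ) {ρ Λ : ℝ} (hρ : 0 < ρ) (hΛ : 0 < Λ) (z w : ℂ) :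
    |Lp c ρ Λ z - Lp c ρ Λ w| ≤ (1 / (2 * ρ * Λ)) * ‖z - w‖ := by
  unfold Lp
  refine (abs_min_one_sub _ _).trans ?_
  rw [← sub_div, abs_div, abs_of_pos hΛ]
  have h1 := log_sub_le (Mx_ge c hρ z) (Mx_ge c hρ w)
  have h2 : |max ‖z - c‖ (2 * ρ) / (2 * ρ) - max ‖w - c‖ (2 * ρ) / (2 * ρ)| ≤ ‖z - w‖ / (2 * ρ) := by
    rw [← sub_div, abs_div, abs_of_pos (by linarith : (0:ℝ) < 2 * ρ)]
    apply div_le_div_of_nonneg_right _ (by linarith)
    have h3 := abs_max_sub_max_le_max ‖z - c‖ (2 * ρ) ‖w - c‖ (2 * ρ)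
    have h4 : |‖z - c‖ - ‖w - c‖| ≤ ‖z - w‖ := by
      have := abs_norm_sub_norm_le (z - c) (w - c)
      simpa using this
    refine h3.trans (max_le h4 ?_)
    simp
  calc |Real.log (max ‖z - c‖ (2 * ρ) / (2 * ρ)) - Real.log (max ‖w - c‖ (2 * ρ) / (2 * ρ))| / Λ
      ≤ (‖z - w‖ / (2 * ρ)) / Λ := div_le_div_of_nonneg_right (h1.trans h2) hΛ.le
    _ = (1 / (2 * ρ * Λ)) * ‖z - w‖ := by field_simp

theorem Dp_lip (S : Set ℂ) {σ : ℝ} (hσ : 0 < σ) (z w : ℂ) :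
    |Dp S σ z - Dp S σ w| ≤ (1 / σ) * ‖z - w‖ := by
  unfold Dp
  refine (abs_min_one_sub _ _).trans ?_
  rw [← sub_div, abs_div, abs_of_pos hσ]
  have h1 : |Metric.infDist z S - Metric.infDist w S| ≤ ‖z - w‖ := by
    have := (Metric.lipschitz_infDist_pt S).dist_le_mul z w
    rw [Real.dist_eq, dist_eq_norm] at this
    simpa using this
  rw [one_div, inv_mul_eq_div]
  exact div_le_div_of_nonneg_right h1 hσ.le

/-- TARGET -/
theorem uc_basic (c : ℂ) (S : Set ℂ) (ρ σ Λ μ : ℝ) (hS : IsCompact S) (hSne : S.Nonempty)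
    (hSc : S ⊆ Metric.closedBall c ρ) (hσ : 0 < σ) (hσρ : σ < ρ) (hΛ : 0 < Λ) (hμ : 0 < μ)
    (hμ1 : μ ≤ 1) :
    (∀ z, 0 ≤ uc c S ρ σ Λ μ z ∧ uc c S ρ σ Λ μ z ≤ 1) ∧
    (∀ z, 2 * ρ * Real.exp Λ ≤ ‖z - c‖ → uc c S ρ σ Λ μ z = 0) ∧
    (∀ z ∈ S, uc c S ρ σ Λ μ z = 1) ∧
    (∀ z, z ∉ S → uc c S ρ σ Λ μ z < 1) ∧
    (∃ C : NNReal, LipschitzWith C (uc c S ρ σ Λ μ)) ∧
    (∀ z, 2 * ρ ≤ ‖z - c‖ → Lp c ρ Λ z ≤ 1 - uc c S ρ σ Λ μ z) ∧
    (∀ z, μ * Dp S σ z ≤ 1 - uc c S ρ σ Λ μ z) := by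
  have hρ : 0 < ρ := hσ.trans hσρ
  refine ⟨?_, ?_, ?_, ?_, ?_, ?_, ?_⟩
  · intro z
    obtain ⟨h1, h2⟩ := Lp_mem c hρ hΛ z
    obtain ⟨h3, h4⟩ := Dp_mem S hσ z
    have h5 : μ * Dp S σ z ≤ 1 := by nlinarith
    have h6 : 0 ≤ μ * Dp S σ z := mul_nonneg hμ.le h3
    unfold uc
    constructor
    · exact mul_nonneg (by linarith) (by linarith)
    · nlinarith
  · intro z hz
    have h1 : Lp c ρ Λ z = 1 := by
      unfold Lp
      apply min_eq_left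
      rw [le_div_iff₀ hΛ, one_mul]
      have h2 : Real.exp Λ ≤ max ‖z - c‖ (2 * ρ) / (2 * ρ) := by
        rw [le_div_iff₀ (by linarith)]
        calc Real.exp Λ * (2 * ρ) = 2 * ρ * Real.exp Λ := by ring
          _ ≤ ‖z - c‖ := hz
          _ ≤ _ := le_max_left _ _
      rw [Real.le_log_iff_exp_le (lt_of_lt_of_le (Real.exp_pos _) h2)]
      exact h2
    unfold uc
    rw [h1]
    ring
  · intro z hz
    have h1 : ‖z - c‖ ≤ ρ := by
      have := hSc hz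
      rwa [Metric.mem_closedBall, dist_eq_norm] at this
    have h2 : Lp c ρ Λ z = 0 := by
      unfold Lp
      have h2ρ : (2 * ρ) ≠ 0 := by positivity
      rw [max_eq_right (by linarith : ‖z - c‖ ≤ 2 * ρ), div_self h2ρ]
      simp
    have h3 : Dp S σ z = 0 := by
      unfold Dp
      rw [Metric.infDist_zero_of_mem hz]
      simp
    unfold uc
    rw [h2, h3]
    ring
  · intro z hz
    obtain ⟨h1, h2⟩ := Lp_mem c hρ hΛ z
    obtain ⟨h3, h4⟩ := Dp_mem S hσ z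
    have h5 : 0 < Metric.infDist z S := (hS.isClosed.notMem_iff_infDist_pos hSne).1 hz
    have h6 : 0 < Dp S σ z := by
      unfold Dp
      exact lt_min one_pos (div_pos h5 hσ)
    have h7 : 0 < μ * Dp S σ z := mul_pos hμ h6
    have h8 : μ * Dp S σ z ≤ 1 := by nlinarith
    unfold uc
    nlinarith
  · refine ⟨⟨1 / (2 * ρ * Λ) + 1 / σ, by positivity⟩, LipschitzWith.of_dist_le_mul fun z w => ?_⟩
    rw [Real.dist_eq, dist_eq_norm]
    show _ ≤ (1 / (2 * ρ * Λ) + 1 / σ) * ‖z - w‖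
    obtain ⟨h1, h2⟩ := Lp_mem c hρ hΛ z
    obtain ⟨h3, h4⟩ := Dp_mem S hσ z
    obtain ⟨h1', h2'⟩ := Lp_mem c hρ hΛ w
    obtain ⟨h3', h4'⟩ := Dp_mem S hσ w
    have l1 := Lp_lip c hρ hΛ z w
    have l2 := Dp_lip S hσ z w
    have e : uc c S ρ σ Λ μ z - uc c S ρ σ Λ μ w
        = -(Lp c ρ Λ z - Lp c ρ Λ w) * (1 - μ * Dp S σ z)
          + (1 - Lp c ρ Λ w) * (-(μ * (Dp S σ z - Dp S σ w))) := by
      unfold uc; ring
    have h6 : 0 ≤ μ * Dp S σ z := mul_nonneg hμ.le h3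
    have h8 : μ * Dp S σ z ≤ 1 := by nlinarith
    have m1 : |-(Lp c ρ Λ z - Lp c ρ Λ w) * (1 - μ * Dp S σ z)| ≤ |Lp c ρ Λ z - Lp c ρ Λ w| := by
      rw [abs_mul, abs_neg]
      have : |1 - μ * Dp S σ z| ≤ 1 := by rw [abs_le]; constructor <;> linarith
      exact mul_le_of_le_one_right (abs_nonneg _) this
    have m2 : |(1 - Lp c ρ Λ w) * (-(μ * (Dp S σ z - Dp S σ w)))| ≤ |Dp S σ z - Dp S σ w| := by
      rw [abs_mul, abs_neg, abs_mul, abs_of_pos hμ]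
      have t1 : |1 - Lp c ρ Λ w| ≤ 1 := by rw [abs_le]; constructor <;> linarith
      have t2 : μ * |Dp S σ z - Dp S σ w| ≤ |Dp S σ z - Dp S σ w| :=
        mul_le_of_le_one_left (abs_nonneg _) hμ1
      calc |1 - Lp c ρ Λ w| * (μ * |Dp S σ z - Dp S σ w|)
          ≤ 1 * |Dp S σ z - Dp S σ w| :=
            mul_le_mul t1 t2 (mul_nonneg hμ.le (abs_nonneg _)) zero_le_one
        _ = _ := one_mul _
    rw [e]
    calc _ ≤ _ := abs_add_le _ _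
      _ ≤ |Lp c ρ Λ z - Lp c ρ Λ w| + |Dp S σ z - Dp S σ w| := add_le_add m1 m2
      _ ≤ (1 / (2 * ρ * Λ)) * ‖z - w‖ + (1 / σ) * ‖z - w‖ := add_le_add l1 l2
      _ = _ := by ring
  · intro z _
    obtain ⟨h1, h2⟩ := Lp_mem c hρ hΛ z
    obtain ⟨h3, h4⟩ := Dp_mem S hσ z
    have h6 : 0 ≤ μ * Dp S σ z := mul_nonneg hμ.le h3
    unfold uc
    nlinarith
  · intro z
    obtain ⟨h1, h2⟩ := Lp_mem c hρ hΛ z
    obtain ⟨h3, h4⟩ := Dp_mem S hσ z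
    have h6 : 0 ≤ μ * Dp S σ z := mul_nonneg hμ.le h3
    have h8 : μ * Dp S σ z ≤ 1 := by nlinarith
    unfold uc
    nlinarith

end Pool.Agent.Helper655.DU.B2
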