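import Mathlib
import Pool.Agent.Helper655.DUDefs
import Pool.Agent.Helper655.DUB2

set_option autoImplicit false
open Finset
open Pool.Agent.Helper655.BD (mean ee PS)

namespace Pool.Agent.Helper655.DU.B3

open Pool.Agent.Helper655.DU.B2 (uc_basic)


open MeasureTheory Set in
theorem radial (F : ℝ → ENNReal) (hF : Measurable F) (c : ℂ) :
    ∫⁻ z : ℂ, F ‖z - c‖ = ENNReal.ofReal (2 * Real.pi) * ∫⁻ r in Ioi (0:ℝ), ENNReal.ofReal r * F r := by
  rw [lintegral_sub_right_eq_self (fun z : ℂ => F ‖z‖) c, ← Complex.lintegral_comp_polarCoord_symm]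
  have h1 : ∀ p ∈ polarCoord.target, ENNReal.ofReal p.1 • F ‖Complex.polarCoord.symm p‖ =
      ENNReal.ofReal p.1 * F p.1 := by
    intro p hp
    rw [polarCoord_target] at hp
    have : (0:ℝ) < p.1 := hp.1
    rw [Complex.norm_polarCoord_symm, abs_of_pos this, smul_eq_mul]
  rw [setLIntegral_congr_fun polarCoord.open_target.measurableSet h1, polarCoord_target,
    Measure.volume_eq_prod, ← Measure.prod_restrict,
    lintegral_prod _ (by fun_prop)]
  have h2 : ∀ r : ℝ, ∫⁻ _ : ℝ in Ioo (-Real.pi) Real.pi, ENNReal.ofReal r * F r =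
      ENNReal.ofReal (2 * Real.pi) * (ENNReal.ofReal r * F r) := by
    intro r
    rw [setLIntegral_const, Real.volume_Ioo, mul_comm]
    congr 2
    ring
  simp_rw [h2]
  rw [lintegral_const_mul' _ _ ENNReal.ofReal_ne_top]

open MeasureTheory Set in
theorem annulus (A Λ : ℝ) (hA : 0 < A) (hΛ : 0 < Λ) (c : ℂ) :
    ∫⁻ z : ℂ, (if A < ‖z - c‖ ∧ ‖z - c‖ ≤ A * Real.exp Λ then
      ENNReal.ofReal ((1 / (‖z - c‖ * Λ)) ^ 2) else 0) = ENNReal.ofReal (2 * Real.pi / Λ) := by
  have hB : A < A * Real.exp Λ := by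
    have := Real.one_lt_exp_iff.mpr hΛ
    nlinarith
  have hm : Measurable fun r : ℝ => (if A < r ∧ r ≤ A * Real.exp Λ then
      ENNReal.ofReal ((1 / (r * Λ)) ^ 2) else 0) :=
    Measurable.ite (measurableSet_Ioc (a := A) (b := A * Real.exp Λ)) (by fun_prop) measurable_const
  rw [radial (fun r => (if A < r ∧ r ≤ A * Real.exp Λ then
      ENNReal.ofReal ((1 / (r * Λ)) ^ 2) else 0)) hm c]
  have h1 : ∀ r ∈ Ioi (0:ℝ), ENNReal.ofReal r * (if A < r ∧ r ≤ A * Real.exp Λ then
      ENNReal.ofReal ((1 / (r * Λ)) ^ 2) else 0) =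
      (Ioc A (A * Real.exp Λ)).indicator (fun r => ENNReal.ofReal (1 / Λ ^ 2 * r⁻¹)) r := by
    intro r hr
    have hr0 : 0 < r := hr
    by_cases h : A < r ∧ r ≤ A * Real.exp Λ
    · rw [if_pos h, indicator_of_mem (show r ∈ Ioc A (A * Real.exp Λ) from h),
        ← ENNReal.ofReal_mul hr0.le]
      congr 1
      field_simp
    · rw [if_neg h, mul_zero, indicator_of_notMem (show r ∉ Ioc A (A * Real.exp Λ) from h)]
  rw [setLIntegral_congr_fun measurableSet_Ioi h1, lintegral_indicator measurableSet_Ioc,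
    Measure.restrict_restrict measurableSet_Ioc]
  have h2 : Ioc A (A * Real.exp Λ) ∩ Ioi (0:ℝ) = Ioc A (A * Real.exp Λ) := by
    apply inter_eq_left.mpr
    intro r hr
    exact lt_trans hA hr.1
  rw [h2, ← ofReal_integral_eq_lintegral_ofReal]
  · rw [← intervalIntegral.integral_of_le hB.le, intervalIntegral.integral_const_mul,
      integral_inv_of_pos hA (by positivity), ← ENNReal.ofReal_mul (by positivity)]
    congr 1
    rw [mul_comm A, mul_div_assoc, div_self hA.ne', mul_one, Real.log_exp]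
    field_simp
  · have : IntervalIntegrable (fun r : ℝ => 1 / Λ ^ 2 * r⁻¹) volume A (A * Real.exp Λ) := by
      apply ContinuousOn.intervalIntegrable
      rw [uIcc_of_le hB.le]
      intro r hr
      have : r ≠ 0 := (lt_of_lt_of_le hA hr.1).ne'
      exact (continuousAt_const.mul (continuousAt_inv₀ this)).continuousWithinAt
    rw [intervalIntegrable_iff_integrableOn_Ioc_of_le hB.le] at this
    exact this
  · filter_upwards [ae_restrict_mem measurableSet_Ioc] with r hr
    have : 0 < r := lt_trans hA hr.1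
    show 0 ≤ 1 / Λ ^ 2 * r⁻¹
    positivity

open MeasureTheory Set in
theorem Dp_lip (S : Set ℂ) (σ : ℝ) (hσ : 0 < σ) (x z : ℂ) :
    |Dp S σ x - Dp S σ z| ≤ ‖x - z‖ / σ := by
  unfold Dp
  refine (abs_min_sub_min_le_max _ _ _ _).trans ?_
  rw [sub_self, abs_zero]
  refine max_le (by positivity) ?_
  rw [← sub_div, abs_div, abs_of_pos hσ]
  gcongr
  have h1 := Metric.lipschitz_infDist_pt S |>.dist_le_mul x z
  rw [Real.dist_eq, dist_eq_norm] at h1
  simpa using h1

open MeasureTheory Set Filter Topology in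
/-- TARGET -/
theorem uc_energy (c : ℂ) (S : Set ℂ) (ρ σ Λ μ : ℝ) (hS : IsCompact S) (hSne : S.Nonempty)
    (hSc : S ⊆ Metric.closedBall c ρ) (hσ : 0 < σ) (hσρ : σ < ρ) (hΛ : 0 < Λ) (hμ : 0 < μ)
    (hμ1 : μ ≤ 1) :
    ∃ g : ℂ → ℝ, Measurable g ∧ (∀ z, 0 ≤ g z) ∧ (∀ z, 2 * ρ * Real.exp Λ < ‖z - c‖ → g z = 0) ∧
      (∀ᵐ z : ℂ, ‖fderiv ℝ (uc c S ρ σ Λ μ) z‖ ≤ g z) ∧
      ∫⁻ z, ENNReal.ofReal (g z ^ 2) ≤
        ENNReal.ofReal (13 * (μ * ρ / σ) ^ 2 + 7 / Λ) := by
  have hρ : 0 < ρ := hσ.trans hσρ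
  have hA : 0 < 2 * ρ := by linarith
  have hB : 2 * ρ < 2 * ρ * Real.exp Λ := by
    have := Real.one_lt_exp_iff.mpr hΛ
    nlinarith
  have hmn : Measurable fun z : ℂ => ‖z - c‖ := by fun_prop
  refine ⟨fun z => if ‖z - c‖ ≤ 2 * ρ then μ / σ else
    if ‖z - c‖ ≤ 2 * ρ * Real.exp Λ then 1 / (‖z - c‖ * Λ) else 0, ?_, ?_, ?_, ?_, ?_⟩
  · refine Measurable.ite (measurableSet_le hmn measurable_const) measurable_const
      (Measurable.ite (measurableSet_le hmn measurable_const) (by fun_prop) measurable_const)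
  · intro z
    simp only
    split_ifs <;> positivity
  · intro z hz
    simp only
    rw [if_neg (by linarith), if_neg (by linarith)]
  · have hn1 : ∀ᵐ z : ℂ, z ∉ Metric.sphere c (2 * ρ) := by
      rw [← measure_eq_zero_iff_ae_notMem]
      exact Measure.addHaar_sphere _ _ _
    have hn2 : ∀ᵐ z : ℂ, z ∉ Metric.sphere c (2 * ρ * Real.exp Λ) := by
      rw [← measure_eq_zero_iff_ae_notMem]
      exact Measure.addHaar_sphere _ _ _
    filter_upwards [hn1, hn2] with z h1 h2
    rw [mem_sphere_iff_norm] at h1 h2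
    have hcn : Continuous fun x : ℂ => ‖x - c‖ := by fun_prop
    rcases lt_or_gt_of_ne h1 with h | h
    · -- inner disc
      rw [if_pos h.le]
      have hev : ∀ᶠ x in 𝓝 z, ‖x - c‖ < 2 * ρ := hcn.continuousAt.eventually (gt_mem_nhds h)
      have hval : ∀ x : ℂ, ‖x - c‖ < 2 * ρ → uc c S ρ σ Λ μ x = 1 - μ * Dp S σ x := by
        intro x hx
        unfold uc Lp
        rw [max_eq_right hx.le, div_self hA.ne', Real.log_one, zero_div,
          min_eq_right zero_le_one]
        ring
      apply norm_fderiv_le_of_lip' ℝ (by positivity)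
      filter_upwards [hev] with x hx
      rw [hval x hx, hval z h, Real.norm_eq_abs]
      have e : 1 - μ * Dp S σ x - (1 - μ * Dp S σ z) = -(μ * (Dp S σ x - Dp S σ z)) := by ring
      rw [e, abs_neg, abs_mul, abs_of_pos hμ]
      calc μ * |Dp S σ x - Dp S σ z| ≤ μ * (‖x - z‖ / σ) := by
            gcongr
            exact Dp_lip S σ hσ x z
        _ = μ / σ * ‖x - z‖ := by ring
    · rw [if_neg (not_le.mpr h)]
      rcases lt_or_gt_of_ne h2 with h' | h'
      · -- annulus
        rw [if_pos h'.le]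
        have hev : ∀ᶠ x in 𝓝 z, 2 * ρ < ‖x - c‖ := hcn.continuousAt.eventually (lt_mem_nhds h)
        have hev' : ∀ᶠ x in 𝓝 z, ‖x - c‖ < 2 * ρ * Real.exp Λ :=
          hcn.continuousAt.eventually (gt_mem_nhds h')
        have hval : ∀ᶠ x in 𝓝 z, uc c S ρ σ Λ μ x =
            (1 - μ) * (1 - (Real.log ‖x - c‖ - Real.log (2 * ρ)) / Λ) := by
          filter_upwards [hev, hev'] with x hx hx'
          have hx0 : 0 < ‖x - c‖ := hA.trans hx
          have hDp : Dp S σ x = 1 := by
            unfold Dp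
            apply min_eq_left
            rw [one_le_div hσ]
            apply (Metric.le_infDist hSne).mpr
            intro y hy
            have hy' : ‖y - c‖ ≤ ρ := by
              have := hSc hy
              rwa [mem_closedBall_iff_norm] at this
            rw [dist_eq_norm]
            have : ‖x - c‖ ≤ ‖x - y‖ + ‖y - c‖ := norm_sub_le_norm_sub_add_norm_sub x y c
            linarith
          have hLp : Lp c ρ Λ x = (Real.log ‖x - c‖ - Real.log (2 * ρ)) / Λ := by
            unfold Lp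
            rw [max_eq_left hx.le, Real.log_div hx0.ne' hA.ne']
            apply min_eq_right
            rw [div_le_one hΛ]
            have : Real.log ‖x - c‖ ≤ Real.log (2 * ρ * Real.exp Λ) :=
              Real.log_le_log hx0 hx'.le
            rw [Real.log_mul hA.ne' (Real.exp_ne_zero _), Real.log_exp] at this
            linarith
          unfold uc
          rw [hDp, hLp]
          ring
        rw [Filter.EventuallyEq.fderiv_eq hval]
        have hz0 : 0 < ‖z - c‖ := hA.trans h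
        have hne : z - c ≠ 0 := norm_pos_iff.mp hz0
        have hN : DifferentiableAt ℝ (fun x : ℂ => ‖x - c‖) z :=
          (differentiableAt_id.sub_const c).norm ℝ hne
        have hN1 : ‖fderiv ℝ (fun x : ℂ => ‖x - c‖) z‖ ≤ 1 := by
          apply norm_fderiv_le_of_lip' ℝ zero_le_one
          filter_upwards with x
          rw [one_mul, Real.norm_eq_abs]
          refine (abs_norm_sub_norm_le _ _).trans (le_of_eq ?_)
          congr 1; ring
        have hd : HasDerivAt (fun r : ℝ => (1 - μ) * (1 - (Real.log r - Real.log (2 * ρ)) / Λ))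
            ((1 - μ) * (-(‖z - c‖⁻¹ / Λ))) ‖z - c‖ := by
          have h3 := (((Real.hasDerivAt_log hz0.ne').sub_const (Real.log (2 * ρ))).div_const Λ)
          exact (h3.const_sub 1).const_mul (1 - μ)
        have hcomp := hd.comp_hasFDerivAt z hN.hasFDerivAt
        have h4 : fderiv ℝ (fun x : ℂ => (1 - μ) * (1 - (Real.log ‖x - c‖ - Real.log (2 * ρ)) / Λ)) z
            = ((1 - μ) * (-(‖z - c‖⁻¹ / Λ))) • fderiv ℝ (fun x : ℂ => ‖x - c‖) z := hcomp.fderiv
        rw [h4, norm_smul]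
        have h5 : ‖(1 - μ) * (-(‖z - c‖⁻¹ / Λ))‖ ≤ 1 / (‖z - c‖ * Λ) := by
          rw [Real.norm_eq_abs, abs_mul, abs_neg, abs_of_nonneg (by linarith : (0:ℝ) ≤ 1 - μ),
            abs_of_nonneg (by positivity)]
          have : ‖z - c‖⁻¹ / Λ = 1 / (‖z - c‖ * Λ) := by
            field_simp
          rw [this]
          have h6 : 0 ≤ 1 / (‖z - c‖ * Λ) := by positivity
          nlinarith
        calc _ ≤ 1 / (‖z - c‖ * Λ) * 1 := by gcongr
          _ = _ := mul_one _
      · -- outside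
        rw [if_neg (not_le.mpr h')]
        have hev : ∀ᶠ x in 𝓝 z, uc c S ρ σ Λ μ x = (fun _ : ℂ => (0:ℝ)) x := by
          have : ∀ᶠ x in 𝓝 z, 2 * ρ * Real.exp Λ < ‖x - c‖ :=
            hcn.continuousAt.eventually (lt_mem_nhds h')
          filter_upwards [this] with x hx
          exact (uc_basic c S ρ σ Λ μ hS hSne hSc hσ hσρ hΛ hμ hμ1).2.1 x hx.le
        rw [Filter.EventuallyEq.fderiv_eq hev]
        simp
  · have hsplit : ∀ z : ℂ, ENNReal.ofReal ((if ‖z - c‖ ≤ 2 * ρ then μ / σ else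
        if ‖z - c‖ ≤ 2 * ρ * Real.exp Λ then 1 / (‖z - c‖ * Λ) else 0) ^ 2) =
        (Metric.closedBall c (2 * ρ)).indicator (fun _ => ENNReal.ofReal ((μ / σ) ^ 2)) z +
        (if 2 * ρ < ‖z - c‖ ∧ ‖z - c‖ ≤ 2 * ρ * Real.exp Λ then
          ENNReal.ofReal ((1 / (‖z - c‖ * Λ)) ^ 2) else 0) := by
      intro z
      by_cases h : ‖z - c‖ ≤ 2 * ρ
      · rw [if_pos h, indicator_of_mem (mem_closedBall_iff_norm.mpr h), if_neg (by
          rintro ⟨h1, -⟩; linarith), add_zero]
      · rw [if_neg h, indicator_of_notMem (fun hh => h (mem_closedBall_iff_norm.mp hh)), zero_add]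
        by_cases h' : ‖z - c‖ ≤ 2 * ρ * Real.exp Λ
        · rw [if_pos h', if_pos ⟨not_le.mp h, h'⟩]
        · rw [if_neg h', if_neg (fun hh => h' hh.2)]
          simp
    simp_rw [hsplit]
    rw [lintegral_add_left (measurable_const.indicator measurableSet_closedBall),
      lintegral_indicator measurableSet_closedBall, setLIntegral_const, annulus (2 * ρ) Λ hA hΛ c,
      Complex.volume_closedBall]
    have hpi := Real.pi_lt_d2
    have hpi0 := Real.pi_pos
    have e1 : ENNReal.ofReal ((μ / σ) ^ 2) * (ENNReal.ofReal (2 * ρ) ^ 2 * (NNReal.pi : ENNReal)) =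
        ENNReal.ofReal ((μ / σ) ^ 2 * ((2 * ρ) ^ 2 * Real.pi)) := by
      have hpe : (NNReal.pi : ENNReal) = ENNReal.ofReal Real.pi := by
        rw [← NNReal.coe_real_pi, ENNReal.ofReal_coe_nnreal]
      rw [hpe, ← ENNReal.ofReal_pow hA.le, ← ENNReal.ofReal_mul (sq_nonneg _),
        ← ENNReal.ofReal_mul (sq_nonneg _)]
    rw [e1, ← ENNReal.ofReal_add (by positivity) (by positivity)]
    apply ENNReal.ofReal_le_ofReal
    have e2 : (μ / σ) ^ 2 * ((2 * ρ) ^ 2 * Real.pi) = (4 * Real.pi) * (μ * ρ / σ) ^ 2 := by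
      field_simp; ring
    rw [e2]
    have h7 : (4 * Real.pi) * (μ * ρ / σ) ^ 2 ≤ 13 * (μ * ρ / σ) ^ 2 := by
      have : 0 ≤ (μ * ρ / σ) ^ 2 := by positivity
      nlinarith
    have h8 : 2 * Real.pi / Λ ≤ 7 / Λ := by
      gcongr
      linarith
    linarith

end Pool.Agent.Helper655.DU.B3
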