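import Mathlib
import Pool.Agent.Helper655.DUDefs

set_option autoImplicit false
open Finset
open Pool.Agent.Helper655.BD (mean ee PS)

namespace Pool.Agent.Helper655.DU.B4



noncomputable def hBX (ε : ℕ → Bool) : ℝ := ∑' n : ℕ, (if ε n then (3:ℝ) else 0) / 4 ^ (n + 1)

theorem hB_K4_eq : K4 = Set.range hBX := by
  ext x
  constructor
  · rintro ⟨ε, h⟩; exact ⟨ε, h.symm⟩
  · rintro ⟨ε, h⟩; exact ⟨ε, h.symm⟩

theorem hB_term_nonneg (ε : ℕ → Bool) (n : ℕ) : 0 ≤ (if ε n then (3:ℝ) else 0) / 4 ^ (n + 1) := by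
  split_ifs <;> positivity

theorem hB_term_le (ε : ℕ → Bool) (n : ℕ) :
    (if ε n then (3:ℝ) else 0) / 4 ^ (n + 1) ≤ 3 / 4 * (1 / 4) ^ n := by
  have : (3:ℝ) / 4 * (1 / 4) ^ n = 3 / 4 ^ (n + 1) := by
    rw [pow_succ, one_div, inv_pow]; field_simp
  rw [this]
  apply div_le_div_of_nonneg_right _ (by positivity)
  split_ifs <;> norm_num

theorem hB_geom_sum : Summable (fun n : ℕ => (3:ℝ) / 4 * (1 / 4) ^ n) :=
  (summable_geometric_of_lt_one (by norm_num) (by norm_num)).mul_left _

theorem hB_summ (ε : ℕ → Bool) : Summable (fun n : ℕ => (if ε n then (3:ℝ) else 0) / 4 ^ (n + 1)) :=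
  Summable.of_nonneg_of_le (hB_term_nonneg ε) (hB_term_le ε) hB_geom_sum

theorem hBX_nonneg (ε : ℕ → Bool) : 0 ≤ hBX ε := tsum_nonneg (hB_term_nonneg ε)

theorem hBX_le (ε : ℕ → Bool) : hBX ε ≤ 1 := by
  have h1 : hBX ε ≤ ∑' n : ℕ, (3:ℝ) / 4 * (1 / 4) ^ n :=
    (hB_summ ε).tsum_le_tsum (hB_term_le ε) hB_geom_sum
  have h2 : ∑' n : ℕ, (3:ℝ) / 4 * (1 / 4) ^ n = 1 := by
    rw [tsum_mul_left, tsum_geometric_of_lt_one (by norm_num) (by norm_num)]
    norm_num
  linarith

theorem hBX_split (ε : ℕ → Bool) (n : ℕ) : hBX ε =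
    (∑ i ∈ range n, (if ε i then (3:ℝ) else 0) / 4 ^ (i + 1)) +
      (1 / 4) ^ n * hBX (fun k => ε (k + n)) := by
  have h := (hB_summ ε).sum_add_tsum_nat_add n
  rw [hBX, ← h]
  congr 1
  rw [hBX, ← tsum_mul_left]
  congr 1
  ext k
  have : (4:ℝ) ^ (k + n + 1) = 4 ^ n * 4 ^ (k + 1) := by ring
  rw [this, one_div, inv_pow]
  field_simp

theorem hBX_cont : Continuous hBX := by
  unfold hBX
  refine continuous_tsum (u := fun n : ℕ => (3:ℝ) / 4 * (1 / 4) ^ n) (fun i => ?_) hB_geom_sum ?_
  · have h1 : Continuous (fun ε : ℕ → Bool => ε i) := continuous_apply i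
    have h2 : Continuous (fun b : Bool => (if b then (3:ℝ) else 0) / 4 ^ (i + 1)) :=
      continuous_of_discreteTopology
    exact h2.comp h1
  · intro n ε
    rw [Real.norm_of_nonneg (hB_term_nonneg ε n)]
    exact hB_term_le ε n

theorem hB_compact : IsCompact K4 := by
  rw [hB_K4_eq]; exact isCompact_range hBX_cont

theorem hB_nonempty : K4.Nonempty := by
  rw [hB_K4_eq]; exact Set.range_nonempty _

theorem hB_vol (n : ℕ) (r : ℝ) (_ : 0 ≤ r) :
    MeasureTheory.volume {x : ℝ | Metric.infDist x K4 < r} ≤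
      ENNReal.ofReal (2 ^ n * ((1 / 4) ^ n + 2 * r)) := by
  classical
  let c : (Fin n → Bool) → ℝ := fun w => ∑ i : Fin n, (if w i then (3:ℝ) else 0) / 4 ^ ((i:ℕ) + 1)
  have hsub : {x : ℝ | Metric.infDist x K4 < r} ⊆
      ⋃ w : Fin n → Bool, Set.Icc (c w - r) (c w + (1 / 4) ^ n + r) := by
    intro x hx
    have hx' : Metric.infDist x K4 < r := hx
    rw [Metric.infDist_lt_iff hB_nonempty] at hx'
    obtain ⟨y, hy, hxy⟩ := hx'
    rw [hB_K4_eq] at hy
    obtain ⟨ε, rfl⟩ := hy
    rw [Set.mem_iUnion]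
    refine ⟨fun i => ε i, ?_⟩
    have h1 := hBX_split ε n
    have h2 : (∑ i ∈ range n, (if ε i then (3:ℝ) else 0) / 4 ^ (i + 1)) = c (fun i => ε i) := by
      rw [Finset.sum_range]
    have h3 := hBX_nonneg (fun k => ε (k + n))
    have h4 := hBX_le (fun k => ε (k + n))
    have h5 : (0:ℝ) < (1 / 4) ^ n := by positivity
    rw [Real.dist_eq, abs_lt] at hxy
    rw [h2] at h1
    constructor
    · nlinarith
    · nlinarith
  refine (MeasureTheory.measure_mono hsub).trans ?_
  refine (MeasureTheory.measure_iUnion_fintype_le _ _).trans ?_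
  have hv : ∀ w : Fin n → Bool, MeasureTheory.volume (Set.Icc (c w - r) (c w + (1 / 4) ^ n + r)) =
      ENNReal.ofReal ((1 / 4) ^ n + 2 * r) := by
    intro w
    rw [Real.volume_Icc]
    congr 1; ring
  rw [Finset.sum_congr rfl (fun w _ => hv w), Finset.sum_const, Finset.card_univ]
  rw [ENNReal.ofReal_mul (by positivity)]
  simp [nsmul_eq_mul]

theorem hB_pt (x : ℝ) : ENNReal.ofReal (Real.log (max 1 (2 / Metric.infDist x K4))) ≤
    Set.indicator {x : ℝ | Metric.infDist x K4 < 2} (fun _ => ENNReal.ofReal (Real.log 8)) x +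
    ∑' k : ℕ, Set.indicator {x : ℝ | Metric.infDist x K4 < (1 / 4) ^ k}
      (fun _ => ENNReal.ofReal (Real.log 4)) x := by
  set d := Metric.infDist x K4 with hd
  have hd0 : 0 ≤ d := Metric.infDist_nonneg
  rcases hd0.eq_or_lt with h | h
  · rw [← h]; simp
  by_cases h2 : 2 ≤ d
  · have : max 1 (2 / d) = 1 := by
      rw [max_eq_left]
      rw [div_le_one h]; exact h2
    rw [this]; simp
  · push Not at h2
    have hind : Set.indicator {x : ℝ | Metric.infDist x K4 < 2}
        (fun _ => ENNReal.ofReal (Real.log 8)) x = ENNReal.ofReal (Real.log 8) :=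
      Set.indicator_of_mem (show x ∈ {x : ℝ | Metric.infDist x K4 < 2} from h2) _
    rw [hind]
    have hmax : max 1 (2 / d) = 2 / d := by
      rw [max_eq_right]; rw [le_div_iff₀ h]; linarith
    rw [hmax]
    by_cases h1 : 1 ≤ d
    · refine le_trans ?_ le_self_add
      apply ENNReal.ofReal_le_ofReal
      apply Real.log_le_log (by positivity)
      rw [div_le_iff₀ h]; linarith
    · push Not at h1
      obtain ⟨n, hn1, hn2⟩ := exists_nat_pow_near_of_lt_one h h1.le
        (show (0:ℝ) < 1 / 4 by norm_num) (by norm_num)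
      have hs : (n : ENNReal) * ENNReal.ofReal (Real.log 4) ≤
          ∑' k : ℕ, Set.indicator {x : ℝ | Metric.infDist x K4 < (1 / 4) ^ k}
            (fun _ => ENNReal.ofReal (Real.log 4)) x := by
        refine le_trans ?_ (ENNReal.sum_le_tsum (range n))
        have : ∀ k ∈ range n, Set.indicator {x : ℝ | Metric.infDist x K4 < (1 / 4) ^ k}
            (fun _ => ENNReal.ofReal (Real.log 4)) x = ENNReal.ofReal (Real.log 4) := by
          intro k hk
          rw [mem_range] at hk
          refine Set.indicator_of_mem ?_ _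
          show Metric.infDist x K4 < (1 / 4) ^ k
          refine lt_of_le_of_lt hn2 ?_
          exact pow_lt_pow_right_of_lt_one₀ (by norm_num) (by norm_num) hk
        rw [Finset.sum_congr rfl this, Finset.sum_const, card_range, nsmul_eq_mul]
      refine le_trans ?_ (add_le_add_right hs _)
      have h8 : (0:ℝ) ≤ Real.log 8 := Real.log_nonneg (by norm_num)
      have h4 : (0:ℝ) ≤ Real.log 4 := Real.log_nonneg (by norm_num)
      have hcast : (n : ENNReal) = ENNReal.ofReal n := by simp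
      rw [hcast, ← ENNReal.ofReal_mul (by positivity), ← ENNReal.ofReal_add h8 (by positivity)]
      apply ENNReal.ofReal_le_ofReal
      have e1 : Real.log 8 + n * Real.log 4 = Real.log (8 * 4 ^ n) := by
        rw [Real.log_mul (by norm_num) (by positivity), Real.log_pow]
      rw [e1]
      apply Real.log_le_log (by positivity)
      rw [div_le_iff₀ h]
      have e2 : (8 * 4 ^ n : ℝ) * (1 / 4) ^ (n + 1) = 2 := by
        rw [pow_succ, one_div, inv_pow]; field_simp; norm_num
      calc (2:ℝ) = (8 * 4 ^ n : ℝ) * (1 / 4) ^ (n + 1) := e2.symm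
        _ ≤ 8 * 4 ^ n * d := by
          apply mul_le_mul_of_nonneg_left hn1.le (by positivity)

theorem hB_meas (r : ℝ) : MeasurableSet {x : ℝ | Metric.infDist x K4 < r} :=
  measurableSet_lt (Metric.continuous_infDist_pt K4).measurable measurable_const

/-- TARGET -/
theorem K4_facts : IsCompact K4 ∧ K4.Nonempty ∧ K4 ⊆ Set.Icc 0 1 ∧ MeasureTheory.volume K4 = 0 ∧
    ∫⁻ x : ℝ, ENNReal.ofReal (Real.log (max 1 (2 / Metric.infDist x K4))) < ⊤ := by
  refine ⟨hB_compact, hB_nonempty, ?_, ?_, ?_⟩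
  · rw [hB_K4_eq]
    rintro _ ⟨ε, rfl⟩
    exact ⟨hBX_nonneg ε, hBX_le ε⟩
  · have h : ∀ n : ℕ, MeasureTheory.volume K4 ≤ ENNReal.ofReal (3 * (1 / 2) ^ n) := by
      intro n
      refine (MeasureTheory.measure_mono (fun x hx => ?_)).trans
        ((hB_vol n ((1 / 4) ^ n) (by positivity)).trans ?_)
      · show Metric.infDist x K4 < (1 / 4) ^ n
        rw [Metric.infDist_zero_of_mem hx]; positivity
      · apply ENNReal.ofReal_le_ofReal
        apply le_of_eq
        have : (2:ℝ) ^ n * (1 / 4) ^ n = (1 / 2) ^ n := by rw [← mul_pow]; norm_num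
        linear_combination 3 * this
    have hlim : Filter.Tendsto (fun n : ℕ => ENNReal.ofReal (3 * (1 / 2) ^ n)) Filter.atTop
        (nhds (ENNReal.ofReal (3 * 0))) :=
      ENNReal.tendsto_ofReal ((tendsto_pow_atTop_nhds_zero_of_lt_one (by norm_num)
        (by norm_num)).const_mul 3)
    have := ge_of_tendsto' hlim h
    simpa using this
  · refine lt_of_le_of_lt (MeasureTheory.lintegral_mono hB_pt) ?_
    rw [MeasureTheory.lintegral_add_left]
    swap
    · exact measurable_const.indicator (hB_meas 2)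
    rw [MeasureTheory.lintegral_tsum]
    swap
    · intro k
      exact (measurable_const.indicator (hB_meas _)).aemeasurable
    rw [MeasureTheory.lintegral_indicator_const (hB_meas 2)]
    refine ENNReal.add_lt_top.2 ⟨?_, ?_⟩
    · refine ENNReal.mul_lt_top ENNReal.ofReal_lt_top ?_
      exact lt_of_le_of_lt (hB_vol 0 2 (by norm_num)) ENNReal.ofReal_lt_top
    · have hb : ∀ k : ℕ, (∫⁻ x : ℝ, Set.indicator {x : ℝ | Metric.infDist x K4 < (1 / 4) ^ k}
          (fun _ => ENNReal.ofReal (Real.log 4)) x) ≤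
          ENNReal.ofReal (Real.log 4) * ENNReal.ofReal (3 * (1 / 2) ^ k) := by
        intro k
        rw [MeasureTheory.lintegral_indicator_const (hB_meas _)]
        refine mul_le_mul_right ?_ _
        refine (hB_vol k ((1 / 4) ^ k) (by positivity)).trans ?_
        apply ENNReal.ofReal_le_ofReal
        apply le_of_eq
        have : (2:ℝ) ^ k * (1 / 4) ^ k = (1 / 2) ^ k := by rw [← mul_pow]; norm_num
        linear_combination 3 * this
      refine lt_of_le_of_lt (ENNReal.tsum_le_tsum hb) ?_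
      rw [ENNReal.tsum_mul_left]
      refine ENNReal.mul_lt_top ENNReal.ofReal_lt_top ?_
      exact Summable.tsum_ofReal_lt_top
        ((summable_geometric_of_lt_one (by norm_num) (by norm_num)).mul_left _)

end Pool.Agent.Helper655.DU.B4
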