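import Mathlib
import Pool.Agent.Helper655.DUDefs

set_option autoImplicit false
open Finset
open Pool.Agent.Helper655.BD (mean ee PS)

namespace Pool.Agent.Helper655.DU.B5


lemma log_int_A (a c : ℝ) (hc : 0 < c) :
    ∫⁻ t in Set.Ioc a (a + c), ENNReal.ofReal (Real.log c - Real.log (t - a)) ≤
      ENNReal.ofReal c := by
  have h1 : IntervalIntegrable (fun t => Real.log (t - a)) MeasureTheory.volume a (a + c) := by
    have h := (intervalIntegral.intervalIntegrable_log' (a := 0) (b := c)).comp_sub_right a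
    rw [zero_add, add_comm c a] at h
    exact h
  have h0 : IntervalIntegrable (fun _ : ℝ => Real.log c) MeasureTheory.volume a (a + c) :=
    intervalIntegrable_const
  have h2 : IntervalIntegrable (fun t => Real.log c - Real.log (t - a)) MeasureTheory.volume a (a + c) :=
    h0.sub h1
  have h3 : ∫ t in a..(a + c), (Real.log c - Real.log (t - a)) = c := by
    rw [intervalIntegral.integral_sub h0 h1, intervalIntegral.integral_const,
      intervalIntegral.integral_comp_sub_right (fun t => Real.log t) a, integral_log]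
    simp
  rw [← MeasureTheory.ofReal_integral_eq_lintegral_ofReal]
  · rw [← intervalIntegral.integral_of_le (by linarith), h3]
  · exact (intervalIntegrable_iff_integrableOn_Ioc_of_le (by linarith)).1 h2
  · apply (MeasureTheory.ae_restrict_iff' measurableSet_Ioc).2
    refine Filter.Eventually.of_forall fun t ht => ?_
    have h4 : Real.log (t - a) ≤ Real.log c :=
      Real.log_le_log (by linarith [ht.1]) (by linarith [ht.2])
    show 0 ≤ Real.log c - Real.log (t - a)
    linarith

lemma log_int_B (b c : ℝ) (hc : 0 < c) :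
    ∫⁻ t in Set.Ico (b - c) b, ENNReal.ofReal (Real.log c - Real.log (b - t)) ≤
      ENNReal.ofReal c := by
  have h1 : IntervalIntegrable (fun t => Real.log (b - t)) MeasureTheory.volume (b - c) b := by
    have h := (intervalIntegral.intervalIntegrable_log' (a := c) (b := 0)).comp_sub_left b
    rw [sub_zero] at h
    exact h
  have h0 : IntervalIntegrable (fun _ : ℝ => Real.log c) MeasureTheory.volume (b - c) b :=
    intervalIntegrable_const
  have h2 : IntervalIntegrable (fun t => Real.log c - Real.log (b - t)) MeasureTheory.volume (b - c) b :=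
    h0.sub h1
  have h3 : ∫ t in (b - c)..b, (Real.log c - Real.log (b - t)) = c := by
    rw [intervalIntegral.integral_sub h0 h1, intervalIntegral.integral_const,
      intervalIntegral.integral_comp_sub_left (fun t => Real.log t) b, integral_log]
    simp
  rw [MeasureTheory.setLIntegral_congr MeasureTheory.Ico_ae_eq_Ioc, ← MeasureTheory.ofReal_integral_eq_lintegral_ofReal]
  · rw [← intervalIntegral.integral_of_le (by linarith), h3]
  · exact (intervalIntegrable_iff_integrableOn_Ioc_of_le (by linarith)).1 h2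
  · have h5 : ∀ᵐ t ∂(MeasureTheory.volume.restrict (Set.Ioo (b - c) b)),
        0 ≤ Real.log c - Real.log (b - t) := by
      apply (MeasureTheory.ae_restrict_iff' measurableSet_Ioo).2
      refine Filter.Eventually.of_forall fun t ht => ?_
      have h4 : Real.log (b - t) ≤ Real.log c :=
        Real.log_le_log (by linarith [ht.2]) (by linarith [ht.1])
      linarith
    rw [MeasureTheory.Measure.restrict_congr_set MeasureTheory.Ioo_ae_eq_Ioc] at h5
    exact h5

lemma norm_ee_sub (t θ : ℝ) : ‖ee t - ee θ‖ = 2 * |Real.sin ((t - θ) / 2)| := by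
  have h : ee t - ee θ = ee θ * (Complex.exp (Complex.I * ((t - θ : ℝ) : ℂ)) - 1) := by
    unfold ee
    rw [mul_sub, mul_one, ← Complex.exp_add]
    congr 2
    push_cast
    ring
  have h1 : ‖ee θ‖ = 1 := by
    unfold ee
    exact Complex.norm_exp_ofReal_mul_I θ
  rw [h, norm_mul, h1, one_mul, Complex.norm_exp_I_mul_ofReal_sub_one, Real.norm_eq_abs, abs_mul]
  simp

lemma sin_sub_ge {a b : ℝ} (hb : 0 ≤ b) (hab : b ≤ a) (ha : a ≤ 1) :
    (a - b) / 2 ≤ Real.sin a - Real.sin b := by
  have h : MonotoneOn (fun u : ℝ => Real.sin u - u / 2) (Set.Icc 0 1) := by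
    apply monotoneOn_of_deriv_nonneg (convex_Icc 0 1)
    · fun_prop
    · fun_prop
    · intro x hx
      rw [interior_Icc] at hx
      have h1 : deriv (fun u : ℝ => Real.sin u - u / 2) x = Real.cos x - 1 / 2 := by
        have h2 : HasDerivAt (fun u : ℝ => Real.sin u - u / 2) (Real.cos x - 1 / 2) x :=
          (Real.hasDerivAt_sin x).sub ((hasDerivAt_id x).div_const 2)
        exact h2.deriv
      rw [h1]
      have h3 := Real.one_sub_sq_div_two_le_cos (x := x)
      nlinarith [hx.1, hx.2]
  have h1 := h ⟨hb, hab.trans ha⟩ ⟨hb.trans hab, ha⟩ hab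
  simp only at h1
  linarith

lemma Lp_ge (ρ Λ x : ℝ) (hρ : 0 < ρ) (hΛ : 1 ≤ Λ) (h1 : 2 * ρ < x) (h2 : x < 2 * ρ * Real.exp Λ) :
    (x - 2 * ρ) / (2 * ρ * Real.exp Λ) ≤ min 1 (Real.log (max x (2 * ρ) / (2 * ρ)) / Λ) := by
  have he : 0 < Real.exp Λ := Real.exp_pos Λ
  have hR : 0 < 2 * ρ * Real.exp Λ := by positivity
  have hx : 0 < x := by linarith
  rw [max_eq_left h1.le]
  apply le_min
  · rw [div_le_one hR]; linarith
  · set t := Real.log (x / (2 * ρ)) with ht
    have hy : 0 < x / (2 * ρ) := by positivity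
    have et : Real.exp t = x / (2 * ρ) := Real.exp_log hy
    have ht0 : 0 ≤ t := Real.log_nonneg (by rw [le_div_iff₀ (by linarith)]; linarith)
    have ht1 : t ≤ Λ := by
      rw [← Real.exp_le_exp, et, div_le_iff₀ (by linarith)]
      linarith
    have hL : 0 < Λ := by linarith
    have q1 : 0 ≤ 1 - t / Λ := by rw [sub_nonneg, div_le_one hL]; exact ht1
    have q2 : 0 ≤ t / Λ := by positivity
    have hc := convexOn_exp.2 (Set.mem_univ (0:ℝ)) (Set.mem_univ Λ) q1 q2 (by ring)
    simp only [smul_eq_mul, mul_zero, zero_add, Real.exp_zero, mul_one] at hc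
    rw [div_mul_cancel₀ _ hL.ne', et] at hc
    have e1 : x - 2 * ρ = 2 * ρ * (x / (2 * ρ) - 1) := by field_simp
    rw [e1, mul_div_mul_left _ _ (by positivity), div_le_iff₀ he]
    have : 0 ≤ t / Λ := by positivity
    nlinarith

/-- TARGET -/
theorem log_profile (θ ρ Λ : ℝ) (hρ : 0 < ρ) (hΛ : 1 ≤ Λ) (hR : 2 * ρ * Real.exp Λ ≤ 1 / 2) :
    ∫⁻ t in {t : ℝ | t ∈ Set.Icc (θ - 2) (θ + 2) ∧ 2 * ρ < ‖ee t - ee θ‖ ∧
        ‖ee t - ee θ‖ < 2 * ρ * Real.exp Λ},
      ENNReal.ofReal (-Real.log (Lp (ee θ) ρ Λ (ee t))) ≤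
      ENNReal.ofReal (40 * ρ * Real.exp Λ) := by
  set R : ℝ := 2 * ρ * Real.exp Λ with hRdef
  have he : 1 ≤ Real.exp Λ := Real.one_le_exp (by linarith)
  have hR0 : 0 < R := by positivity
  have hρR : 2 * ρ ≤ R := by nlinarith
  set s0 : ℝ := 2 * Real.arcsin ρ with hs0
  have hsin0 : Real.sin (s0 / 2) = ρ := by
    rw [hs0, mul_div_cancel_left₀ _ (by norm_num)]
    exact Real.sin_arcsin (by linarith) (by linarith)
  have hs0pos : 0 ≤ s0 := by
    have := Real.arcsin_nonneg.2 hρ.le
    linarith
  have hs0le : s0 / 2 ≤ 1 := by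
    rw [hs0, mul_div_cancel_left₀ _ (by norm_num)]
    have h1 : Real.arcsin ρ ≤ Real.arcsin (Real.sin 1) := by
      apply Real.arcsin_le_arcsin
      have h2 := Real.mul_le_sin (x := 1) (by norm_num) (by linarith [Real.pi_gt_three])
      have h3 : (1:ℝ) / 2 ≤ 2 / Real.pi := by
        rw [div_le_div_iff₀ (by norm_num) Real.pi_pos]
        linarith [Real.pi_le_four]
      linarith
    rw [Real.arcsin_sin (by linarith [Real.pi_gt_three]) (by linarith [Real.pi_gt_three])] at h1
    exact h1
  -- pointwise facts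
  have key : ∀ t : ℝ, t ∈ Set.Icc (θ - 2) (θ + 2) → 2 * ρ < ‖ee t - ee θ‖ → ‖ee t - ee θ‖ < R →
      s0 < |t - θ| ∧ |t - θ| - s0 < 2 * R ∧
      (|t - θ| - s0) / (2 * R) ≤ Lp (ee θ) ρ Λ (ee t) := by
    intro t ht h1 h2
    have hs : |t - θ| ≤ 2 := abs_le.2 ⟨by linarith [ht.1], by linarith [ht.2]⟩
    have hx : ‖ee t - ee θ‖ = 2 * Real.sin (|t - θ| / 2) := by
      rw [norm_ee_sub, Real.abs_sin_eq_sin_abs_of_abs_le_pi]
      · rw [abs_div, abs_two]
      · rw [abs_div, abs_two]
        linarith [Real.pi_gt_three]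
    have h3 : s0 < |t - θ| := by
      by_contra hcon
      push Not at hcon
      have h4 : Real.sin (|t - θ| / 2) ≤ Real.sin (s0 / 2) :=
        Real.sin_le_sin_of_le_of_le_pi_div_two (by linarith [abs_nonneg (t - θ), Real.pi_gt_three])
          (by linarith [Real.pi_gt_three]) (by linarith)
      rw [hsin0] at h4
      rw [hx] at h1
      linarith
    have h4 := sin_sub_ge (a := |t - θ| / 2) (b := s0 / 2) (by linarith) (by linarith) (by linarith)
    rw [hsin0] at h4
    have h5 : (|t - θ| - s0) / 2 ≤ ‖ee t - ee θ‖ - 2 * ρ := by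
      rw [hx]; linarith
    refine ⟨h3, by linarith, ?_⟩
    have h6 := Lp_ge ρ Λ ‖ee t - ee θ‖ hρ hΛ h1 h2
    refine le_trans ?_ h6
    rw [← hRdef, div_le_div_iff₀ (by linarith) hR0]
    nlinarith
  set g : ℝ → ENNReal := fun t => ENNReal.ofReal (Real.log (2 * R) - Real.log (|t - θ| - s0)) with hg
  have hgm : Measurable g := by
    rw [hg]
    fun_prop
  calc _ ≤ ∫⁻ t in {t : ℝ | t ∈ Set.Icc (θ - 2) (θ + 2) ∧ 2 * ρ < ‖ee t - ee θ‖ ∧
        ‖ee t - ee θ‖ < R}, g t := by
        apply MeasureTheory.setLIntegral_mono hgm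
        rintro t ⟨ht, h1, h2⟩
        obtain ⟨h3, h4, h5⟩ := key t ht h1 h2
        apply ENNReal.ofReal_le_ofReal
        have h6 : 0 < (|t - θ| - s0) / (2 * R) := div_pos (by linarith) (by linarith)
        have h7 := Real.log_le_log h6 h5
        rw [Real.log_div (by linarith) (by linarith)] at h7
        linarith
    _ ≤ ∫⁻ t in Set.Ioc (θ + s0) (θ + s0 + 2 * R) ∪ Set.Ico (θ - s0 - 2 * R) (θ - s0), g t := by
        apply MeasureTheory.lintegral_mono_set
        rintro t ⟨ht, h1, h2⟩
        obtain ⟨h3, h4, h5⟩ := key t ht h1 h2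
        rcases le_total 0 (t - θ) with h | h
        · left
          rw [abs_of_nonneg h] at h3 h4
          exact ⟨by linarith, by linarith⟩
        · right
          rw [abs_of_nonpos h] at h3 h4
          exact ⟨by linarith, by linarith⟩
    _ ≤ (∫⁻ t in Set.Ioc (θ + s0) (θ + s0 + 2 * R), g t) +
        (∫⁻ t in Set.Ico (θ - s0 - 2 * R) (θ - s0), g t) := MeasureTheory.lintegral_union_le _ _ _
    _ ≤ ENNReal.ofReal (2 * R) + ENNReal.ofReal (2 * R) := by
        apply add_le_add
        · refine le_trans (le_of_eq ?_) (log_int_A (θ + s0) (2 * R) (by linarith))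
          apply MeasureTheory.setLIntegral_congr_fun measurableSet_Ioc
          intro t ht
          have h1 : |t - θ| = t - θ := abs_of_nonneg (by linarith [ht.1])
          simp only [hg, h1]
          congr 3
          ring
        · refine le_trans (le_of_eq ?_) (log_int_B (θ - s0) (2 * R) (by linarith))
          apply MeasureTheory.setLIntegral_congr_fun measurableSet_Ico
          intro t ht
          have h1 : |t - θ| = -(t - θ) := abs_of_nonpos (by linarith [ht.2])
          simp only [hg, h1]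
          congr 3
          ring
    _ ≤ ENNReal.ofReal (40 * ρ * Real.exp Λ) := by
        rw [← ENNReal.ofReal_add (by linarith) (by linarith)]
        apply ENNReal.ofReal_le_ofReal
        have : 40 * ρ * Real.exp Λ = 20 * R := by rw [hRdef]; ring
        rw [this]
        linarith

end Pool.Agent.Helper655.DU.B5
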