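import Mathlib
import Pool.Agent.Helper655.DUDefs
import Pool.Agent.Helper655.DUB4

set_option autoImplicit false
open Finset
open Pool.Agent.Helper655.BD (mean ee PS)

namespace Pool.Agent.Helper655.DU.B6

open Pool.Agent.Helper655.DU.B4 (K4_facts)



/-- the logarithmic potential -/
noncomputable def gK (x : ℝ) : ENNReal := ENNReal.ofReal (Real.log (max 1 (2 / Metric.infDist x K4)))

theorem gK_meas : Measurable gK := by
  unfold gK
  have h1 : Measurable (fun x : ℝ => Metric.infDist x K4) :=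
    (Metric.continuous_infDist_pt K4).measurable
  have h2 : Measurable (fun x : ℝ => max (1 : ℝ) (2 / Metric.infDist x K4)) :=
    measurable_const.max (measurable_const.div h1)
  exact (Real.measurable_log.comp h2).ennreal_ofReal

theorem gK_scale (θ σ c : ℝ) (hσ : 0 < σ) :
    ∫⁻ t : ℝ, gK ((t - θ) / σ - c) = ENNReal.ofReal σ * ∫⁻ x, gK x := by
  have h1 : ∫⁻ t : ℝ, gK ((t - θ) / σ - c) = ∫⁻ t : ℝ, gK (σ⁻¹ * t) := by
    have h2 : ∀ t : ℝ, gK ((t - θ) / σ - c) = (fun s : ℝ => gK (σ⁻¹ * s)) (t - (θ + σ * c)) := by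
      intro t
      simp only
      congr 1
      field_simp
      ring
    rw [MeasureTheory.lintegral_congr h2,
      MeasureTheory.lintegral_sub_right_eq_self (fun s : ℝ => gK (σ⁻¹ * s))]
  have h3 : ∫⁻ t : ℝ, gK (σ⁻¹ * t) =
      ∫⁻ x, gK x ∂(MeasureTheory.Measure.map (fun t : ℝ => σ⁻¹ * t) MeasureTheory.volume) := by
    rw [MeasureTheory.lintegral_map gK_meas (measurable_const_mul σ⁻¹)]
  rw [h1, h3, Real.map_volume_mul_left (inv_ne_zero hσ.ne'), inv_inv, abs_of_pos hσ,
    MeasureTheory.lintegral_smul_measure, smul_eq_mul]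

theorem ee_dist (t x : ℝ) : dist (ee t) (ee x) = 2 * |Real.sin ((t - x) / 2)| := by
  unfold ee
  rw [dist_eq_norm]
  have e : Complex.exp (t * Complex.I) - Complex.exp (x * Complex.I) =
      Complex.exp (((t + x) / 2 : ℝ) * Complex.I) *
        (2 * Complex.I * Complex.sin (((t - x) / 2 : ℝ))) := by
    rw [Complex.sin]
    have h1 : Complex.exp (t * Complex.I) = Complex.exp (((t + x) / 2 : ℝ) * Complex.I) *
        Complex.exp ((((t - x) / 2 : ℝ) : ℂ) * Complex.I) := by
      rw [← Complex.exp_add]; congr 1; push_cast; ring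
    have h2 : Complex.exp (x * Complex.I) = Complex.exp (((t + x) / 2 : ℝ) * Complex.I) *
        Complex.exp (-(((t - x) / 2 : ℝ) : ℂ) * Complex.I) := by
      rw [← Complex.exp_add]; congr 1; push_cast; ring
    rw [h1, h2]
    have h3 : (2 : ℂ) * Complex.I * ((Complex.exp (-(((t - x) / 2 : ℝ) : ℂ) * Complex.I) -
        Complex.exp ((((t - x) / 2 : ℝ) : ℂ) * Complex.I)) * Complex.I / 2) =
        (Complex.exp ((((t - x) / 2 : ℝ) : ℂ) * Complex.I) -
          Complex.exp (-(((t - x) / 2 : ℝ) : ℂ) * Complex.I)) := by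
      have : Complex.I * Complex.I = -1 := Complex.I_mul_I
      linear_combination (Complex.exp (-(((t - x) / 2 : ℝ) : ℂ) * Complex.I) -
        Complex.exp ((((t - x) / 2 : ℝ) : ℂ) * Complex.I)) * this
    rw [h3]
    ring
  rw [e, norm_mul, Complex.norm_exp_ofReal_mul_I, one_mul, norm_mul, norm_mul, Complex.norm_I,
    ← Complex.ofReal_sin, Complex.norm_real, Real.norm_eq_abs]
  norm_num

theorem chord_lower {t x : ℝ} (h : |t - x| ≤ 9 / 4) : |t - x| / 2 ≤ dist (ee t) (ee x) := by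
  rw [ee_dist]
  have hpi := Real.pi_gt_three
  have hpi2 := Real.pi_le_four
  have h1 : |(t - x) / 2| ≤ Real.pi / 2 := by
    rw [abs_div, abs_of_pos (by norm_num : (0:ℝ) < 2)]
    linarith
  have h2 := Real.mul_abs_le_abs_sin h1
  rw [abs_div, abs_of_pos (by norm_num : (0:ℝ) < 2)] at h2
  have h3 : 1 / 2 ≤ 2 / Real.pi := by
    rw [div_le_div_iff₀ (by norm_num) Real.pi_pos]
    linarith
  have h4 := abs_nonneg (t - x)
  nlinarith

/-- pointwise bound -/
theorem log_pt (θ σ : ℝ) (M : ℕ) (hσ : 0 < σ) (hM : 0 < M) (hMσ : M * σ ≤ 1 / 4) (t : ℝ)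
    (ht : t ∈ Set.Icc (θ - 2) (θ + 2)) :
    ENNReal.ofReal (-Real.log (Dp (ee '' {x : ℝ | ∃ k < M, ∃ κ ∈ K4, x = θ + σ * (k + κ)}) σ (ee t)))
      ≤ ∑ k ∈ range M, gK ((t - θ) / σ - k) := by
  obtain ⟨hKc, hKne, hK01, -, -⟩ := K4_facts
  set S := ee '' {x : ℝ | ∃ k < M, ∃ κ ∈ K4, x = θ + σ * (k + κ)} with hS
  obtain ⟨κ0, hκ0⟩ := hKne
  have hSne : S.Nonempty := ⟨_, ⟨θ + σ * ((0 : ℕ) + κ0), ⟨0, hM, κ0, hκ0, rfl⟩, rfl⟩⟩
  rcases eq_or_lt_of_le (Metric.infDist_nonneg (x := ee t) (s := S)) with h0 | hpos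
  · have : Dp S σ (ee t) = 0 := by
      unfold Dp
      rw [← h0, zero_div]
      exact min_eq_right zero_le_one
    rw [this, Real.log_zero, neg_zero, ENNReal.ofReal_zero]
    exact zero_le
  · -- all the distances are positive
    have hd : ∀ k ∈ range M, 0 < Metric.infDist ((t - θ) / σ - k) K4 := by
      intro k hk
      rcases eq_or_lt_of_le (Metric.infDist_nonneg (x := (t - θ) / σ - k) (s := K4)) with h1 | h1
      · exfalso
        have h2 : (t - θ) / σ - k ∈ K4 :=
          (hKc.isClosed.mem_iff_infDist_zero ⟨κ0, hκ0⟩).2 h1.symm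
        have h3 : ee t ∈ S := by
          refine ⟨t, ⟨k, Finset.mem_range.1 hk, (t - θ) / σ - k, h2, ?_⟩, rfl⟩
          field_simp
          ring
        have h4 := Metric.infDist_zero_of_mem h3
        linarith
      · exact h1
    obtain ⟨k0, hk0, hmin⟩ := Finset.exists_min_image (range M)
      (fun k : ℕ => Metric.infDist ((t - θ) / σ - k) K4) ⟨0, Finset.mem_range.2 hM⟩
    set d := Metric.infDist ((t - θ) / σ - k0) K4 with hdd
    have hd0 : 0 < d := hd k0 hk0
    have hlow : σ * d / 2 ≤ Metric.infDist (ee t) S := by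
      rw [Metric.le_infDist hSne]
      rintro _ ⟨x, ⟨k, hk, κ, hκ, rfl⟩, rfl⟩
      have hκ1 := hK01 hκ
      have hkM : (k : ℝ) + 1 ≤ M := by exact_mod_cast hk
      have hk0' : (0 : ℝ) ≤ k := Nat.cast_nonneg k
      have hx1 : 0 ≤ σ * (k + κ) := mul_nonneg hσ.le (by linarith [hκ1.1])
      have hx2 : σ * (k + κ) ≤ 1 / 4 := by
        have : σ * (k + κ) ≤ σ * M := mul_le_mul_of_nonneg_left (by linarith [hκ1.2]) hσ.le
        linarith
      have h1 : |t - (θ + σ * (k + κ))| ≤ 9 / 4 := by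
        rw [abs_le]
        constructor <;> linarith [ht.1, ht.2]
      refine le_trans ?_ (chord_lower h1)
      have h2 : |t - (θ + σ * (k + κ))| = σ * |((t - θ) / σ - k) - κ| := by
        have e : t - (θ + σ * (k + κ)) = σ * (((t - θ) / σ - k) - κ) := by
          field_simp
          ring
        rw [e, abs_mul, abs_of_pos hσ]
      rw [h2]
      have h3 : d ≤ |((t - θ) / σ - k) - κ| := by
        refine (hmin k (Finset.mem_range.2 hk)).trans ?_
        have := Metric.infDist_le_dist_of_mem (x := (t - θ) / σ - k) hκ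
        rwa [Real.dist_eq] at this
      have := mul_le_mul_of_nonneg_left h3 hσ.le
      linarith
    have hle : -Real.log (Dp S σ (ee t)) ≤ Real.log (max 1 (2 / d)) := by
      set D := Metric.infDist (ee t) S with hD
      have hDσ : 0 < D / σ := div_pos hpos hσ
      have hDp : 0 < Dp S σ (ee t) := lt_min one_pos hDσ
      rw [← Real.log_inv]
      apply Real.log_le_log (inv_pos.2 hDp)
      unfold Dp
      rw [← hD]
      rcases min_cases 1 (D / σ) with ⟨h1, _⟩ | ⟨h1, _⟩
      · rw [h1, inv_one]; exact le_max_left _ _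
      · rw [h1, inv_div]
        refine le_trans ?_ (le_max_right _ _)
        rw [div_le_div_iff₀ hpos hd0]
        linarith
    calc ENNReal.ofReal (-Real.log (Dp S σ (ee t)))
        ≤ gK ((t - θ) / σ - k0) := ENNReal.ofReal_le_ofReal hle
      _ ≤ ∑ k ∈ range M, gK ((t - θ) / σ - k) :=
          Finset.single_le_sum (f := fun k : ℕ => gK ((t - θ) / σ - k)) (fun _ _ => zero_le) hk0

/-- TARGET -/
theorem log_piece : ∃ C : ℝ, 0 < C ∧ ∀ (θ σ : ℝ) (M : ℕ), 0 < σ → 0 < M → M * σ ≤ 1 / 4 →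
    ∫⁻ t in Set.Icc (θ - 2) (θ + 2),
      ENNReal.ofReal (-Real.log (Dp (ee '' {x : ℝ | ∃ k < M, ∃ κ ∈ K4, x = θ + σ * (k + κ)}) σ (ee t)))
      ≤ ENNReal.ofReal (C * (M * σ)) := by
  have hfin := K4_facts.2.2.2.2
  have hfin' : ∫⁻ x, gK x < ⊤ := hfin
  refine ⟨(∫⁻ x, gK x).toReal + 1, by positivity, ?_⟩
  intro θ σ M hσ hM hMσ
  calc ∫⁻ t in Set.Icc (θ - 2) (θ + 2),
      ENNReal.ofReal (-Real.log (Dp (ee '' {x : ℝ | ∃ k < M, ∃ κ ∈ K4, x = θ + σ * (k + κ)}) σ (ee t)))
      ≤ ∫⁻ t in Set.Icc (θ - 2) (θ + 2), ∑ k ∈ range M, gK ((t - θ) / σ - k) := by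
        apply MeasureTheory.setLIntegral_mono' measurableSet_Icc
        intro t ht
        exact log_pt θ σ M hσ hM hMσ t ht
    _ ≤ ∫⁻ t, ∑ k ∈ range M, gK ((t - θ) / σ - k) :=
        MeasureTheory.setLIntegral_le_lintegral _ _
    _ = ∑ k ∈ range M, ∫⁻ t, gK ((t - θ) / σ - k) := by
        rw [MeasureTheory.lintegral_finsetSum]
        intro k _
        apply gK_meas.comp
        fun_prop
    _ = ∑ k ∈ range M, ENNReal.ofReal σ * ∫⁻ x, gK x := by
        apply Finset.sum_congr rfl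
        intro k _
        exact gK_scale θ σ k hσ
    _ = M * (ENNReal.ofReal σ * ∫⁻ x, gK x) := by
        rw [Finset.sum_const, Finset.card_range, nsmul_eq_mul]
    _ = ENNReal.ofReal ((∫⁻ x, gK x).toReal * (M * σ)) := by
        rw [ENNReal.ofReal_mul ENNReal.toReal_nonneg, ENNReal.ofReal_toReal hfin'.ne,
          ENNReal.ofReal_mul (Nat.cast_nonneg M), ENNReal.ofReal_natCast]
        ring
    _ ≤ ENNReal.ofReal (((∫⁻ x, gK x).toReal + 1) * (M * σ)) := by
        apply ENNReal.ofReal_le_ofReal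
        apply mul_le_mul_of_nonneg_right (by linarith) (by positivity)

end Pool.Agent.Helper655.DU.B6
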