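import Mathlib
import Pool.Agent.Helper655.DUDefs

set_option autoImplicit false
open Finset
open Pool.Agent.Helper655.BD (mean ee PS)

namespace Pool.Agent.Helper655.DU

/-- length of the blocks -/
noncomputable def len (i : ℕ) : ℝ := (1 / 2) ^ (i + 1)

/-- number of cells of a block -/
def Nc (i : ℕ) : ℕ := 2 ^ (4 ^ (i + 2))

/-- ratio between cell and piece -/
def Qc (i : ℕ) : ℕ := 2 ^ (2 ^ i * Nc i)

/-- centre of a cell -/
noncomputable def cen (i j : ℕ) : ℝ := len i + (j + 1 / 2) * (len i / Nc i)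

/-- smallest scale -/
noncomputable def sg (i : ℕ) : ℝ := len i / Nc i / Qc i / 2 ^ Qc i

/-- the angular set of one cell -/
def Ecell (i j : ℕ) : Set ℝ :=
  {x | ∃ k : ℕ, k < 2 ^ Qc i ∧ ∃ κ ∈ K4, x = cen i j + sg i * (k + κ)}

/-- the closed set on the circle -/
def EE : Set ℂ := {1} ∪ ⋃ i : ℕ, ⋃ j ∈ Finset.range (Nc i), ee '' Ecell i j

/-- cell length -/
noncomputable def dl (i : ℕ) : ℝ := len i / Nc i

/-- piece length -/
noncomputable def rh (i : ℕ) : ℝ := len i / Nc i / Qc i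

/-- number of scales between piece and cell -/
noncomputable def La (i : ℕ) : ℝ := Real.log (Qc i / 16)

/-- height of the floor -/
noncomputable def mu (i : ℕ) : ℝ := 1 / (2 ^ Qc i) ^ 2

/-- dip of the cell `(i, j)` -/
noncomputable def uu (i j : ℕ) (z : ℂ) : ℝ :=
  uc (ee (cen i j)) (ee '' Ecell i j) (rh i) (sg i) (La i) (mu i) z

/-- sum over a block -/
noncomputable def ug (i : ℕ) (z : ℂ) : ℝ := ∑ j ∈ range (Nc i), uu i j z

/-- partial sums -/
noncomputable def Uk (k : ℕ) (z : ℂ) : ℝ := ∑ i ∈ range k, ug i z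

/-- full sum -/
noncomputable def UU (z : ℂ) : ℝ := ∑' i, ug i z

/-- factor vanishing at one -/
noncomputable def VV (z : ℂ) : ℝ := min 1 ‖z - 1‖

/-- cutoff -/
noncomputable def XX (z : ℂ) : ℝ := max 0 (min 1 (3 - ‖z‖))

/-- the function -/
noncomputable def HH (z : ℂ) : ℝ := XX z * VV z * (1 - UU z)

/-- partial versions -/
noncomputable def Hk (k : ℕ) (z : ℂ) : ℝ := XX z * VV z * (1 - Uk k z)

end Pool.Agent.Helper655.DU
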