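import Mathlib
import Pool.Agent.Helper655.DUDefs
import Pool.Agent.Helper655.DUDefs2

set_option autoImplicit false
open Finset
open Pool.Agent.Helper655.BD (mean ee PS)

namespace Pool.Agent.Helper655.DU.C1


/-- TARGET -/
theorem params (i : ℕ) :
    0 < len i ∧ len i ≤ 1 / 2 ∧ (16:ℝ) ≤ Nc i ∧ (16:ℝ) ≤ Qc i ∧ 0 < dl i ∧ dl i ≤ 1 / 32 ∧ 0 < rh i ∧
    0 < sg i ∧ sg i < rh i ∧ rh i ≤ dl i / 16 ∧ 2 * rh i * Real.exp (La i) = dl i / 8 ∧
    1 ≤ La i ∧ (2:ℝ) ^ i * Nc i / 2 ≤ La i ∧ 0 < mu i ∧ mu i ≤ 1 ∧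
    (2 ^ Qc i : ℕ) * sg i = rh i ∧ mu i * rh i / sg i = 1 / 2 ^ Qc i ∧
    rh i * Qc i = dl i ∧ dl i * Nc i = len i ∧ -Real.log (mu i) = 2 * Qc i * Real.log 2 ∧
    (Nc i : ℝ) * (13 * (1 / 2 ^ Qc i) ^ 2 + 7 / La i) ≤ 30 * (1 / 2) ^ i := by
  have hp : (0:ℝ) < (2:ℝ) ^ i := by positivity
  have hlen : 0 < len i := by unfold len; positivity
  have hlen2 : len i ≤ 1 / 2 := by
    unfold len
    rw [pow_succ]
    have : (1 / 2 : ℝ) ^ i ≤ 1 := pow_le_one₀ (by norm_num) (by norm_num)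
    linarith
  -- N
  have h4 : 16 ≤ 4 ^ (i + 2) := by
    have : 4 ^ 2 ≤ 4 ^ (i + 2) := Nat.pow_le_pow_right (by norm_num) (by omega)
    simpa using this
  have hNnat : 65536 ≤ Nc i := by
    have : 2 ^ 16 ≤ 2 ^ (4 ^ (i + 2)) := Nat.pow_le_pow_right (by norm_num) h4
    unfold Nc
    calc 65536 = 2 ^ 16 := by norm_num
      _ ≤ _ := this
  have hN : (65536:ℝ) ≤ (Nc i : ℝ) := by exact_mod_cast hNnat
  -- m
  have hmnat : 65536 ≤ 2 ^ i * Nc i := by
    have h1 : 1 ≤ 2 ^ i := Nat.one_le_two_pow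
    calc 65536 = 1 * 65536 := by norm_num
      _ ≤ 2 ^ i * Nc i := Nat.mul_le_mul h1 hNnat
  have hQm : 2 ^ i * Nc i < Qc i := by
    unfold Qc; exact Nat.lt_two_pow_self
  have hQlog : Real.log (Qc i : ℝ) = ((2:ℝ) ^ i * Nc i) * Real.log 2 := by
    unfold Qc
    rw [Nat.cast_pow, Real.log_pow]
    push_cast
    rfl
  have hWQ : Qc i < 2 ^ Qc i := Nat.lt_two_pow_self
  have hWQ' : (Qc i : ℝ) < (2:ℝ) ^ Qc i := by exact_mod_cast hWQ
  have hQm' : (2:ℝ) ^ i * (Nc i : ℝ) < (Qc i : ℝ) := by exact_mod_cast hQm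
  have hm' : (65536:ℝ) ≤ (2:ℝ) ^ i * (Nc i : ℝ) := by exact_mod_cast hmnat
  have hmulog : -Real.log (mu i) = 2 * Qc i * Real.log 2 := by
    unfold mu
    rw [one_div, Real.log_inv, Real.log_pow, Real.log_pow]
    push_cast
    ring
  have hcast : ((2 ^ Qc i : ℕ) : ℝ) = (2:ℝ) ^ Qc i := by push_cast; rfl
  have hLa : La i = ((2:ℝ) ^ i * Nc i - 4) * Real.log 2 := by
    unfold La
    rw [Real.log_div (by linarith) (by norm_num), hQlog,
      show (16:ℝ) = 2 ^ 4 by norm_num, Real.log_pow]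
    push_cast
    ring
  have hexp : Real.exp (La i) = Qc i / 16 := by
    unfold La
    rw [Real.exp_log]
    have : (0:ℝ) < Qc i := by linarith
    positivity
  have hlog2 := Real.log_two_gt_d9
  have hdl : dl i = len i / Nc i := rfl
  have hrh : rh i = len i / Nc i / Qc i := rfl
  have hsg : sg i = len i / Nc i / Qc i / (2:ℝ) ^ Qc i := rfl
  have hmu : mu i = 1 / ((2:ℝ) ^ Qc i) ^ 2 := rfl
  have hhalf : (1 / 2 : ℝ) ^ i = 1 / (2:ℝ) ^ i := by rw [one_div_pow]
  rw [hmulog, hcast, hexp, hdl, hrh, hsg, hmu, hhalf, hLa]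
  generalize (2:ℝ) ^ Qc i = W at *
  generalize (Qc i : ℝ) = Q at *
  generalize (Nc i : ℝ) = N at *
  generalize (2:ℝ) ^ i = p at *
  generalize len i = l at *
  generalize Real.log 2 = L at *
  clear hmulog hcast hexp hdl hrh hsg hmu hhalf hLa hQlog hWQ hQm hmnat hNnat h4
  have hN0 : 0 < N := by linarith
  have hQ0 : 0 < Q := by linarith
  have hW0 : 0 < W := by linarith
  have hQ16 : 16 ≤ Q := by linarith
  have hLa2 : p * N / 2 ≤ (p * N - 4) * L := by
    have h1 : (p * N - 4) * 0.6931471803 ≤ (p * N - 4) * L :=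
      mul_le_mul_of_nonneg_left hlog2.le (by linarith)
    linarith
  have hW2 : W ≤ W ^ 2 := by nlinarith
  refine ⟨hlen, hlen2, by linarith, hQ16, by positivity, ?_, by positivity, by positivity, ?_, ?_,
    ?_, by linarith, hLa2, by positivity, ?_, ?_, ?_, ?_, ?_, rfl, ?_⟩
  · rw [div_le_iff₀ hN0]; linarith
  · exact div_lt_self (by positivity) (by linarith)
  · rw [div_le_div_iff_of_pos_left (by positivity) hQ0 (by norm_num)]; exact hQ16
  · field_simp; norm_num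
  · rw [div_le_one (by positivity)]; linarith
  · field_simp
  · field_simp
  · field_simp
  · field_simp
  · have hLpos : 0 < (p * N - 4) * L := by
      have : 0 < p * N / 2 := by linarith
      linarith
    have e1 : 7 / ((p * N - 4) * L) ≤ 14 / (p * N) := by
      rw [div_le_div_iff₀ hLpos (by linarith)]
      linarith
    have e2 : N * (7 / ((p * N - 4) * L)) ≤ 14 / p := by
      calc N * (7 / ((p * N - 4) * L)) ≤ N * (14 / (p * N)) :=
            mul_le_mul_of_nonneg_left e1 hN0.le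
        _ = 14 / p := by field_simp
    have e3 : N * (13 * (1 / W) ^ 2) ≤ 13 / p := by
      have e4 : N * (13 * (1 / W) ^ 2) = 13 * N / W ^ 2 := by field_simp
      rw [e4, div_le_div_iff₀ (by positivity) hp]
      have : p * N ≤ W ^ 2 := by linarith
      linarith
    have e5 : 14 / p + 13 / p ≤ 30 * (1 / p) := by
      rw [← add_div, mul_one_div]
      exact div_le_div_of_nonneg_right (by norm_num) hp.le
    rw [mul_add]
    linarith

end Pool.Agent.Helper655.DU.C1
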