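import Mathlib
import Pool.Agent.Helper655.DUDefs
import Pool.Agent.Helper655.DUDefs2
import Pool.Agent.Helper655.DUC1
import Pool.Agent.Helper655.DUB4

set_option autoImplicit false
open Finset
open Pool.Agent.Helper655.BD (mean ee PS)

namespace Pool.Agent.Helper655.DU.C2

open Pool.Agent.Helper655.DU.C1 (params)
open Pool.Agent.Helper655.DU.B4 (K4_facts)



theorem ecell_ee_lip (x c : ℝ) : ‖ee x - ee c‖ ≤ |x - c| := by
  have h1 : ee x - ee c = ee c * (Complex.exp (Complex.I * ((x - c : ℝ) : ℂ)) - 1) := by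
    unfold ee
    rw [mul_sub, mul_one, ← Complex.exp_add]
    congr 2
    push_cast
    ring
  have h2 : ‖ee c‖ = 1 := by
    unfold ee
    exact Complex.norm_exp_ofReal_mul_I c
  rw [h1, norm_mul, h2, one_mul]
  exact Real.norm_exp_I_mul_ofReal_sub_one_le

theorem ecell_ee_cont : Continuous ee := by
  unfold ee
  fun_prop

theorem ecell_eq (i j : ℕ) : Ecell i j =
    ⋃ k ∈ Finset.range (2 ^ Qc i), (fun κ : ℝ => cen i j + sg i * ((k : ℝ) + κ)) '' K4 := by
  ext x
  simp only [Ecell, Set.mem_ofPred_eq, Set.mem_iUnion, Finset.mem_range, Set.mem_image, exists_prop]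
  constructor
  · rintro ⟨k, hk, κ, hκ, rfl⟩
    exact ⟨k, hk, κ, hκ, rfl⟩
  · rintro ⟨k, hk, κ, hκ, rfl⟩
    exact ⟨k, hk, κ, hκ, rfl⟩

/-- TARGET -/
theorem Ecell_facts (i j : ℕ) :
    IsCompact (Ecell i j) ∧ (Ecell i j).Nonempty ∧ Ecell i j ⊆ Set.Icc (cen i j) (cen i j + rh i) ∧
    MeasureTheory.volume (Ecell i j) = 0 ∧ IsCompact (ee '' Ecell i j) ∧ (ee '' Ecell i j).Nonempty ∧
    ee '' Ecell i j ⊆ Metric.closedBall (ee (cen i j)) (rh i) := by
  obtain ⟨hK1, hK2, hK3, hK4, -⟩ := K4_facts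
  obtain ⟨-, -, -, -, -, -, hrh, hsg, -, -, -, -, -, -, -, hsr, -⟩ := params i
  have hcomp : IsCompact (Ecell i j) := by
    rw [ecell_eq]
    apply Finset.isCompact_biUnion
    intro k _
    exact hK1.image (by fun_prop)
  have hne : (Ecell i j).Nonempty := by
    obtain ⟨κ, hκ⟩ := hK2
    exact ⟨_, 0, by positivity, κ, hκ, rfl⟩
  have hsub : Ecell i j ⊆ Set.Icc (cen i j) (cen i j + rh i) := by
    rintro x ⟨k, hk, κ, hκ, rfl⟩
    obtain ⟨h0, h1⟩ := hK3 hκ
    have hk' : (k : ℝ) + 1 ≤ ((2 ^ Qc i : ℕ) : ℝ) := by exact_mod_cast hk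
    have hk0 : (0 : ℝ) ≤ k := Nat.cast_nonneg k
    constructor
    · have : 0 ≤ sg i * ((k : ℝ) + κ) := by positivity
      linarith
    · have : sg i * ((k : ℝ) + κ) ≤ sg i * ((2 ^ Qc i : ℕ) : ℝ) := by
        apply mul_le_mul_of_nonneg_left _ hsg.le
        linarith
      rw [mul_comm (sg i) ((2 ^ Qc i : ℕ) : ℝ), hsr] at this
      linarith
  have hnull : MeasureTheory.volume (Ecell i j) = 0 := by
    rw [ecell_eq]
    refine MeasureTheory.measure_iUnion_null fun k => MeasureTheory.measure_iUnion_null fun _ => ?_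
    apply MeasureTheory.addHaar_image_eq_zero_of_differentiableOn_of_addHaar_eq_zero
      MeasureTheory.volume _ hK4
    apply Differentiable.differentiableOn
    fun_prop
  refine ⟨hcomp, hne, hsub, hnull, hcomp.image ecell_ee_cont, hne.image _, ?_⟩
  rintro _ ⟨x, hx, rfl⟩
  obtain ⟨h0, h1⟩ := hsub hx
  rw [Metric.mem_closedBall, dist_eq_norm]
  refine (ecell_ee_lip _ _).trans ?_
  rw [abs_of_nonneg (by linarith)]
  linarith

end Pool.Agent.Helper655.DU.C2
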