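import Mathlib
import Pool.Agent.Helper655.DUDefs
import Pool.Agent.Helper655.DUDefs2
import Pool.Agent.Helper655.DUC1

set_option autoImplicit false
open Finset
open Pool.Agent.Helper655.BD (mean ee PS)

namespace Pool.Agent.Helper655.DU.C3

open Pool.Agent.Helper655.DU.C1 (params)


/-- distance between points of the circle -/
theorem disj_ee (a b : ℝ) (hab : |a - b| ≤ 1) : |a - b| / 2 ≤ ‖ee a - ee b‖ := by
  have h1 : ee a - ee b = ee b * (Complex.exp (Complex.I * ((a - b : ℝ) : ℂ)) - 1) := by
    unfold ee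
    rw [mul_sub, ← Complex.exp_add, mul_one]
    congr 2
    push_cast
    ring
  have h2 : ‖ee b‖ = 1 := by
    unfold ee
    exact Complex.norm_exp_ofReal_mul_I b
  rw [h1, norm_mul, h2, one_mul, Complex.norm_exp_I_mul_ofReal_sub_one, norm_mul, Real.norm_eq_abs,
    Real.norm_eq_abs, abs_two]
  have h3 : |Real.sin ((a - b) / 2)| = Real.sin (|a - b| / 2) := by
    rcases abs_cases (a - b) with ⟨h, h'⟩ | ⟨h, h'⟩
    · rw [h] at hab ⊢
      rw [abs_of_nonneg]
      apply Real.sin_nonneg_of_nonneg_of_le_pi (by linarith)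
      have := Real.pi_gt_three; linarith
    · rw [h] at hab ⊢
      rw [show -(a - b) / 2 = -((a - b) / 2) by ring, Real.sin_neg, abs_of_nonpos]
      apply Real.sin_nonpos_of_nonpos_of_neg_pi_le (by linarith)
      have := Real.pi_gt_three; linarith
  rw [h3]
  have h4 := Real.mul_le_sin (x := |a - b| / 2) (by positivity) (by
    have := Real.pi_gt_three; linarith)
  have h5 : (1 / 2 : ℝ) ≤ 2 / Real.pi := by
    rw [div_le_div_iff₀ (by norm_num) Real.pi_pos]
    have := Real.pi_le_four; linarith
  have h6 : 0 ≤ |a - b| := abs_nonneg _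
  nlinarith

theorem disj_cen (i j : ℕ) (hj : j < Nc i) :
    len i + dl i / 2 ≤ cen i j ∧ cen i j ≤ 2 * len i - dl i / 2 := by
  obtain ⟨p1, p2, p3, p4, p5, p6, p7, p8, p9, p10, p11, p12, p13, p14, p15, p16, p17, p18, p19,
    p20⟩ := params i
  have hc : cen i j = len i + (j + 1 / 2) * dl i := rfl
  have hj0 : (0 : ℝ) ≤ j := by positivity
  have hj1 : (j : ℝ) + 1 ≤ Nc i := by exact_mod_cast hj
  rw [hc]
  constructor
  · nlinarith
  · nlinarith

theorem disj_lt (i j i' j' : ℕ) (hj : j < Nc i) (hj' : j' < Nc i') (hii : i < i') :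
    (dl i + dl i') / 2 ≤ cen i j - cen i' j' ∧ cen i j - cen i' j' ≤ 1 := by
  have h1 := disj_cen i j hj
  have h2 := disj_cen i' j' hj'
  have p1 := (params i).1
  have p1' := (params i').1
  have p2 := (params i).2.1
  have p5 := (params i).2.2.2.2.1
  have p5' := (params i').2.2.2.2.1
  have h3 : 2 * len i' ≤ len i := by
    unfold len
    rw [show (2 : ℝ) * (1 / 2) ^ (i' + 1) = (1 / 2) ^ i' by rw [pow_succ]; ring]
    exact pow_le_pow_of_le_one (by norm_num) (by norm_num) (by omega)
  constructor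
  · linarith
  · linarith

/-- TARGET -/
theorem disj (i j i' j' : ℕ) (z : ℂ) (hj : j < Nc i) (hj' : j' < Nc i')
    (h : ‖z - ee (cen i j)‖ ≤ dl i / 8) (h' : ‖z - ee (cen i' j')‖ ≤ dl i' / 8) :
    i = i' ∧ j = j' := by
  have p5 := (params i).2.2.2.2.1
  have p5' := (params i').2.2.2.2.1
  have htri : ‖ee (cen i j) - ee (cen i' j')‖ ≤ dl i / 8 + dl i' / 8 := by
    have : ee (cen i j) - ee (cen i' j') = (z - ee (cen i' j')) - (z - ee (cen i j)) := by ring
    rw [this]
    refine (norm_sub_le _ _).trans ?_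
    linarith
  have key : ¬ ((dl i + dl i') / 2 ≤ |cen i j - cen i' j'| ∧ |cen i j - cen i' j'| ≤ 1) := by
    rintro ⟨h1, h2⟩
    have := disj_ee _ _ h2
    linarith
  rcases lt_trichotomy i i' with hlt | heq | hgt
  · exfalso
    apply key
    obtain ⟨h1, h2⟩ := disj_lt i j i' j' hj hj' hlt
    have h3 : 0 ≤ cen i j - cen i' j' := by linarith
    rw [abs_of_nonneg h3]
    exact ⟨h1, h2⟩
  · subst heq
    refine ⟨rfl, ?_⟩
    by_contra hne
    apply key
    have c1 := disj_cen i j hj
    have c2 := disj_cen i j' hj'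
    have p2 := (params i).2.1
    have p1 := (params i).1
    have hc : cen i j - cen i j' = ((j : ℝ) - j') * dl i := by
      change (len i + (j + 1 / 2) * dl i) - (len i + (j' + 1 / 2) * dl i) = _
      ring
    constructor
    · rw [hc, abs_mul, abs_of_pos p5]
      have : (1 : ℝ) ≤ |(j : ℝ) - j'| := by
        rcases lt_or_gt_of_ne hne with hl | hl
        · have : (j : ℝ) + 1 ≤ j' := by exact_mod_cast hl
          rw [abs_of_neg (by linarith)]; linarith
        · have : (j' : ℝ) + 1 ≤ j := by exact_mod_cast hl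
          rw [abs_of_pos (by linarith)]; linarith
      nlinarith
    · rw [abs_le]
      constructor <;> linarith
  · exfalso
    apply key
    obtain ⟨h1, h2⟩ := disj_lt i' j' i j hj' hj hgt
    have h3 : cen i j - cen i' j' ≤ 0 := by linarith
    rw [abs_of_nonpos h3]
    constructor <;> linarith

end Pool.Agent.Helper655.DU.C3
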