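import Mathlib
import Pool.Agent.Helper655.DUDefs
import Pool.Agent.Helper655.DUDefs2
import Pool.Agent.Helper655.DUC1

set_option autoImplicit false
open Finset
open Pool.Agent.Helper655.BD (mean ee PS)

namespace Pool.Agent.Helper655.DU.C4

open Pool.Agent.Helper655.DU.C1 (params)


/-- TARGET -/
theorem near_one (i j : ℕ) (hj : j < Nc i) (z : ℂ) (h : ‖z - ee (cen i j)‖ ≤ dl i / 8) :
    ‖z - 1‖ ≤ 3 * len i := by
  obtain ⟨hl, hl2, hN, hQ, hd, hd2, -, -, -, -, -, -, -, -, -, -, -, -, hdN, -, -⟩ := params i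
  have h1 : ‖ee (cen i j) - 1‖ ≤ |cen i j| := by
    unfold ee
    rw [mul_comm]
    exact Real.norm_exp_I_mul_ofReal_sub_one_le
  have hj' : (j : ℝ) + 1 / 2 ≤ Nc i := by
    have : (j : ℝ) + 1 ≤ Nc i := by exact_mod_cast hj
    linarith
  have h2 : cen i j = len i + (j + 1 / 2) * dl i := rfl
  have h3 : (j + 1 / 2) * dl i ≤ len i := by
    rw [← hdN, mul_comm (dl i)]
    exact mul_le_mul_of_nonneg_right hj' hd.le
  have h4 : 0 ≤ (j + 1 / 2 : ℝ) * dl i := by positivity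
  have h5 : |cen i j| ≤ 2 * len i := by
    rw [h2, abs_of_nonneg (by linarith)]
    linarith
  have h6 : dl i ≤ len i := by nlinarith
  calc ‖z - 1‖ = ‖(z - ee (cen i j)) + (ee (cen i j) - 1)‖ := by ring_nf
    _ ≤ ‖z - ee (cen i j)‖ + ‖ee (cen i j) - 1‖ := norm_add_le _ _
    _ ≤ dl i / 8 + 2 * len i := add_le_add h (h1.trans h5)
    _ ≤ 3 * len i := by linarith

end Pool.Agent.Helper655.DU.C4
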