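import Mathlib
import Pool.Agent.Helper655.DUDefs
import Pool.Agent.Helper655.DUDefs2
import Pool.Agent.Helper655.DUC1
import Pool.Agent.Helper655.DUC2

set_option autoImplicit false
open Finset
open Pool.Agent.Helper655.BD (mean ee PS)

namespace Pool.Agent.Helper655.DU.C5

open Pool.Agent.Helper655.DU.C1 (params)
open Pool.Agent.Helper655.DU.C2 (Ecell_facts)




theorem hE_closed {K : ℕ → Set ℂ} (x0 : ℂ) (r : ℕ → ℝ) (hK : ∀ i, IsCompact (K i))
    (hsub : ∀ i, K i ⊆ Metric.closedBall x0 (r i))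
    (hr : Filter.Tendsto r Filter.atTop (nhds 0)) : IsClosed ({x0} ∪ ⋃ i, K i) := by
  rw [← closure_subset_iff_isClosed]
  intro y hy
  by_cases hy0 : y = x0
  · exact Or.inl hy0
  have hd : 0 < dist y x0 := dist_pos.2 hy0
  have hev : ∀ᶠ i in Filter.atTop, r i < dist y x0 / 2 := hr.eventually_lt_const (by linarith)
  obtain ⟨N, hN⟩ := Filter.eventually_atTop.1 hev
  have hS : ({x0} ∪ ⋃ i, K i) ⊆ (⋃ i ∈ Finset.range N, K i) ∪ Metric.closedBall x0 (dist y x0 / 2) := by
    rintro z (hz | hz)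
    · right
      rw [Set.mem_singleton_iff.1 hz]
      exact Metric.mem_closedBall_self (by linarith)
    · rw [Set.mem_iUnion] at hz
      obtain ⟨i, hi⟩ := hz
      by_cases h : i < N
      · left
        simp only [Set.mem_iUnion]
        exact ⟨i, Finset.mem_range.2 h, hi⟩
      · right
        push Not at h
        exact Metric.closedBall_subset_closedBall (hN i h).le (hsub i hi)
  have hcl : IsClosed ((⋃ i ∈ Finset.range N, K i) ∪ Metric.closedBall x0 (dist y x0 / 2)) :=
    ((Finset.range N).isCompact_biUnion (fun i _ => hK i)).isClosed.union Metric.isClosed_closedBall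
  rcases (closure_minimal hS hcl) hy with h | h
  · right
    simp only [Set.mem_iUnion] at h ⊢
    obtain ⟨i, _, hi⟩ := h
    exact ⟨i, hi⟩
  · rw [Metric.mem_closedBall] at h
    linarith

theorem hE_loc (i j : ℕ) (hj : j < Nc i) : Ecell i j ⊆ Set.Icc (len i) (2 * len i) := by
  obtain ⟨h1, h2, h3, h4, h5, h6, h7, h8, h9, h10, _⟩ := params i
  intro x hx
  obtain ⟨hx1, hx2⟩ := (Ecell_facts i j).2.2.1 hx
  have hdl : dl i = len i / Nc i := rfl
  have hcen : cen i j = len i + (j + 1 / 2) * dl i := by rw [hdl]; rfl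
  have hN : (Nc i : ℝ) * dl i = len i := by
    rw [hdl]; field_simp
  have hj' : (j : ℝ) + 1 ≤ Nc i := by exact_mod_cast hj
  have hj0 : (0:ℝ) ≤ j := by positivity
  constructor
  · rw [hcen] at hx1
    have : 0 ≤ ((j:ℝ) + 1 / 2) * dl i := by positivity
    linarith
  · rw [hcen] at hx2
    have : ((j:ℝ) + 1) * dl i ≤ Nc i * dl i := mul_le_mul_of_nonneg_right hj' h5.le
    nlinarith

theorem hE_norm (t : ℝ) : ‖ee t‖ = 1 := Complex.norm_exp_ofReal_mul_I t

theorem hE_ee_sub (t : ℝ) : ‖ee t - 1‖ ≤ |t| := by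
  unfold ee
  rw [mul_comm]
  exact Real.norm_exp_I_mul_ofReal_sub_one_le

theorem hE_EE : EE = {1} ∪ ⋃ i : ℕ, ⋃ j ∈ Finset.range (Nc i), ee '' Ecell i j := rfl

theorem hE_inj (t x : ℝ) (ht : t ∈ Set.Ioc (-Real.pi) Real.pi) (hx : x ∈ Set.Ioc (-Real.pi) Real.pi)
    (h : ee t = ee x) : t = x := by
  unfold ee at h
  have := Complex.exp_inj_of_neg_pi_lt_of_le_pi (x := t * Complex.I) (y := x * Complex.I)
    (by simpa using ht.1) (by simpa using ht.2) (by simpa using hx.1) (by simpa using hx.2) h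
  have h2 := congrArg Complex.im this
  simpa using h2

/-- TARGET -/
theorem EE_facts : IsClosed EE ∧ EE ⊆ Metric.sphere 0 1 ∧
    (∀ᵐ t : ℝ, t ∈ Set.Ioc (-Real.pi) Real.pi → ee t ∉ EE) := by
  refine ⟨?_, ?_, ?_⟩
  · rw [hE_EE]
    refine hE_closed 1 (fun i => 2 * len i) (fun i => ?_) (fun i => ?_) ?_
    · exact (Finset.range (Nc i)).isCompact_biUnion (fun j _ => (Ecell_facts i j).2.2.2.2.1)
    · intro z hz
      simp only [Set.mem_iUnion] at hz
      obtain ⟨j, hj, x, hx, rfl⟩ := hz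
      rw [Metric.mem_closedBall, dist_eq_norm]
      have h := hE_loc i j (Finset.mem_range.1 hj) hx
      refine (hE_ee_sub x).trans ?_
      have h0 : 0 < len i := (params i).1
      rw [abs_of_nonneg (h0.le.trans h.1)]
      exact h.2
    · have : Filter.Tendsto (fun i : ℕ => 2 * ((1 / 2 : ℝ) ^ (i + 1))) Filter.atTop (nhds (2 * 0)) :=
        (((tendsto_pow_atTop_nhds_zero_of_lt_one (by norm_num) (by norm_num)).comp
          (Filter.tendsto_add_atTop_nat 1))).const_mul 2
      rw [mul_zero] at this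
      exact this
  · rw [hE_EE]
    rintro z (hz | hz)
    · rw [Set.mem_singleton_iff.1 hz]; simp
    · simp only [Set.mem_iUnion] at hz
      obtain ⟨i, j, hj, x, hx, rfl⟩ := hz
      rw [mem_sphere_zero_iff_norm]
      exact hE_norm x
  · rw [MeasureTheory.ae_iff]
    have hnull : MeasureTheory.volume (({0} : Set ℝ) ∪ ⋃ i : ℕ, ⋃ j : ℕ, Ecell i j) = 0 := by
      rw [MeasureTheory.measure_union_null_iff]
      refine ⟨by simp, ?_⟩
      rw [MeasureTheory.measure_iUnion_null_iff]
      intro i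
      rw [MeasureTheory.measure_iUnion_null_iff]
      intro j
      exact (Ecell_facts i j).2.2.2.1
    refine MeasureTheory.measure_mono_null ?_ hnull
    intro t ht
    have ht' : ¬ (t ∈ Set.Ioc (-Real.pi) Real.pi → ee t ∉ EE) := ht
    push Not at ht'
    obtain ⟨h1, h2⟩ := ht'
    have hpi := Real.pi_gt_three
    rw [hE_EE] at h2
    rcases h2 with h2 | h2
    · left
      rw [Set.mem_singleton_iff] at h2 ⊢
      refine hE_inj t 0 h1 ⟨by linarith, by linarith⟩ ?_
      rw [h2]; simp [ee]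
    · right
      simp only [Set.mem_iUnion] at h2 ⊢
      obtain ⟨i, j, hj, x, hx, hxt⟩ := h2
      have h := hE_loc i j (Finset.mem_range.1 hj) hx
      have h0 : 0 < len i := (params i).1
      have h3 : len i ≤ 1 / 2 := (params i).2.1
      have : t = x := hE_inj t x h1 ⟨by linarith [h.1], by linarith [h.2]⟩ hxt.symm
      exact ⟨i, j, this ▸ hx⟩

end Pool.Agent.Helper655.DU.C5
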