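import Mathlib
import Pool.Agent.Helper655.DUDefs
import Pool.Agent.Helper655.DUDefs2
import Pool.Agent.Helper655.DUC1
import Pool.Agent.Helper655.DUC2
import Pool.Agent.Helper655.DUB2
import Pool.Agent.Helper655.DUB4
import Pool.Agent.Helper655.DUB5
import Pool.Agent.Helper655.DUB6

set_option autoImplicit false
open Finset
open Pool.Agent.Helper655.BD (mean ee PS)

namespace Pool.Agent.Helper655.DU.C6

open Pool.Agent.Helper655.DU.C1 (params)
open Pool.Agent.Helper655.DU.C2 (Ecell_facts)
open Pool.Agent.Helper655.DU.B4 (K4_facts)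
open Pool.Agent.Helper655.DU.B2 (uc_basic)
open Pool.Agent.Helper655.DU.B5 (log_profile)
open Pool.Agent.Helper655.DU.B6 (log_piece)







theorem chord (t θ : ℝ) : ‖ee t - ee θ‖ = 2 * |Real.sin ((t - θ) / 2)| := by
  have h1 : ee t - ee θ = ee θ * (Complex.exp (Complex.I * ((t - θ : ℝ) : ℂ)) - 1) := by
    unfold ee
    rw [mul_sub, mul_one, ← Complex.exp_add]
    congr 2
    push_cast; ring
  rw [h1, norm_mul, Complex.norm_exp_I_mul_ofReal_sub_one]
  have h2 : ‖ee θ‖ = 1 := by
    unfold ee; exact Complex.norm_exp_ofReal_mul_I θ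
  rw [h2, one_mul, norm_mul, Real.norm_eq_abs, Real.norm_eq_abs, abs_of_pos (by norm_num : (0 : ℝ) < 2)]

theorem chord_lower {t θ : ℝ} (h : |t - θ| ≤ 2) : |t - θ| / 2 ≤ ‖ee t - ee θ‖ := by
  rw [chord]
  have hpi := Real.pi_gt_three
  have hpi4 := Real.pi_le_four
  have h0 : |(t - θ) / 2| ≤ Real.pi / 2 := by
    rw [abs_div, abs_of_pos (by norm_num : (0 : ℝ) < 2)]
    linarith
  have h1 := Real.mul_abs_le_abs_sin h0
  rw [abs_div, abs_of_pos (by norm_num : (0 : ℝ) < 2)] at h1
  have h2 : 1 / 2 ≤ 2 / Real.pi := by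
    rw [div_le_div_iff₀ (by norm_num) (by linarith)]; linarith
  have h3 := mul_le_mul_of_nonneg_right h2 (by positivity : 0 ≤ |t - θ| / 2)
  linarith

theorem chord_far {t θ : ℝ} (ht : t ∈ Set.Ioc (-Real.pi) Real.pi) (hθ0 : 0 ≤ θ) (hθ1 : θ ≤ 1)
    (h : ‖ee t - ee θ‖ ≤ 1) : |t - θ| ≤ 2 := by
  by_contra hcon
  push Not at hcon
  have hpi := Real.pi_gt_three
  have hpi4 := Real.pi_lt_d2
  rw [chord] at h
  have hle : |t - θ| ≤ Real.pi + 1 := by
    rw [abs_le]; constructor <;> linarith [ht.1, ht.2]
  set y := |t - θ| / 2 with hy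
  have hy1 : 1 < y := by rw [hy]; linarith
  have hy2 : y ≤ (Real.pi + 1) / 2 := by rw [hy]; linarith
  have hsin : |Real.sin ((t - θ) / 2)| = |Real.sin y| := by
    rw [hy]
    rcases le_total 0 (t - θ) with h' | h'
    · rw [abs_of_nonneg h']
    · rw [abs_of_nonpos h', neg_div, Real.sin_neg, abs_neg]
  have hp2 : 0.63 ≤ 2 / Real.pi := by
    rw [le_div_iff₀ (by linarith)]; norm_num; linarith
  have h63 : 0.63 ≤ Real.sin y := by
    rcases le_total y (Real.pi / 2) with h' | h'
    · have h1 := Real.mul_le_sin (by linarith : 0 ≤ y) h'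
      have h2 : 2 / Real.pi * 1 ≤ 2 / Real.pi * y :=
        mul_le_mul_of_nonneg_left hy1.le (by positivity)
      linarith
    · have h1 := Real.mul_le_sin (by linarith : 0 ≤ Real.pi - y) (by linarith)
      rw [Real.sin_pi_sub] at h1
      have h2 : 2 / Real.pi * 1 ≤ 2 / Real.pi * (Real.pi - y) :=
        mul_le_mul_of_nonneg_left (by linarith) (by positivity)
      linarith
  rw [hsin, abs_of_pos (by linarith [h63, (by norm_num : (0 : ℝ) < 0.63)])] at h
  norm_num at h63
  linarith

theorem cont_ee : Continuous ee := by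
  unfold ee; fun_prop

open MeasureTheory in
/-- TARGET -/
theorem cell_log : ∃ C : ℝ, 0 < C ∧ ∀ i j : ℕ, j < Nc i →
    ∫⁻ t in Set.Ioc (-Real.pi) Real.pi, ENNReal.ofReal (-Real.log (1 - uu i j (ee t))) ≤
      ENNReal.ofReal (C * dl i) := by
  obtain ⟨C, hC, hpiece⟩ := log_piece
  refine ⟨2.5 + 12 + C, by norm_num; linarith, ?_⟩
  intro i j hj
  obtain ⟨hlen0, hlen1, hN, hQ, hdl0, hdl1, hrh0, hsg0, hsr, hrd, hexp, hLa1, -, hmu0, hmu1, hMs,
    -, hrQ, hdN, hlogmu, -⟩ := params i
  obtain ⟨-, -, -, -, hScomp, hSne, hSball⟩ := Ecell_facts i j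
  set θ := cen i j with hθ
  set c := ee θ with hc
  set S := ee '' Ecell i j with hS
  obtain ⟨hu1, hu2, hu3, hu4, -, hu6, hu7⟩ := uc_basic c S (rh i) (sg i) (La i) (mu i)
    hScomp hSne hSball hsg0 hsr (by linarith) hmu0 hmu1
  -- θ in [0,1]
  have hN0 : (0 : ℝ) < Nc i := by linarith
  have hθ0 : 0 ≤ θ := by
    rw [hθ]; unfold cen; positivity
  have hθ1 : θ ≤ 1 := by
    rw [hθ]; unfold cen
    have h1 : (j : ℝ) + 1 / 2 ≤ Nc i := by
      have : (j : ℝ) + 1 ≤ Nc i := by exact_mod_cast hj
      linarith
    have h2 : ((j : ℝ) + 1 / 2) * (len i / Nc i) ≤ Nc i * (len i / Nc i) :=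
      mul_le_mul_of_nonneg_right h1 (by positivity)
    have h3 : (Nc i : ℝ) * (len i / Nc i) = len i := by field_simp
    linarith
  set f : ℝ → ENNReal := fun t => ENNReal.ofReal (-Real.log (1 - uu i j (ee t))) with hf
  set A1 : Set ℝ := {t : ℝ | t ∈ Set.Icc (θ - 2) (θ + 2) ∧ 2 * rh i < ‖ee t - ee θ‖ ∧
        ‖ee t - ee θ‖ < 2 * rh i * Real.exp (La i)} with hA1
  set A2 : Set ℝ := {t : ℝ | t ∈ Set.Icc (θ - 2) (θ + 2) ∧ ‖ee t - ee θ‖ ≤ 2 * rh i} with hA2
  set A3 : Set ℝ := {t : ℝ | 2 * rh i * Real.exp (La i) ≤ ‖ee t - ee θ‖} with hA3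
  have hcn : Continuous fun t => ‖ee t - ee θ‖ := (cont_ee.sub continuous_const).norm
  have hA1m : MeasurableSet A1 := by
    apply MeasurableSet.inter measurableSet_Icc
    apply MeasurableSet.inter
    · exact measurableSet_lt measurable_const hcn.measurable
    · exact measurableSet_lt hcn.measurable measurable_const
  have hA2m : MeasurableSet A2 := by
    apply MeasurableSet.inter measurableSet_Icc
    exact measurableSet_le hcn.measurable measurable_const
  have hcover : Set.Ioc (-Real.pi) Real.pi ⊆ A1 ∪ (A2 ∪ A3) := by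
    intro t ht
    by_cases h3 : 2 * rh i * Real.exp (La i) ≤ ‖ee t - ee θ‖
    · exact Or.inr (Or.inr h3)
    · push Not at h3
      have h4 : |t - θ| ≤ 2 := chord_far ht hθ0 hθ1 (by rw [hexp] at h3; linarith)
      have h5 : t ∈ Set.Icc (θ - 2) (θ + 2) := by
        rw [abs_le] at h4
        constructor <;> linarith [h4.1, h4.2]
      by_cases h6 : ‖ee t - ee θ‖ ≤ 2 * rh i
      · exact Or.inr (Or.inl ⟨h5, h6⟩)
      · push Not at h6
        exact Or.inl ⟨h5, h6, h3⟩
  have huu : ∀ z, uu i j z = uc c S (rh i) (sg i) (La i) (mu i) z := fun z => rfl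
  have hI1 : ∫⁻ t in A1, f t ≤ ENNReal.ofReal (2.5 * dl i) := by
    have h1 := log_profile θ (rh i) (La i) hrh0 hLa1 (by rw [hexp]; linarith)
    calc ∫⁻ t in A1, f t ≤ ∫⁻ t in A1, ENNReal.ofReal (-Real.log (Lp (ee θ) (rh i) (La i) (ee t))) := by
          apply setLIntegral_mono' hA1m
          intro t ht
          apply ENNReal.ofReal_le_ofReal
          have h2 : 0 < Lp (ee θ) (rh i) (La i) (ee t) := by
            unfold Lp
            apply lt_min one_pos
            apply div_pos _ (by linarith)
            apply Real.log_pos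
            rw [one_lt_div (by linarith)]
            exact lt_of_lt_of_le ht.2.1 (le_max_left _ _)
          have h3 : Lp (ee θ) (rh i) (La i) (ee t) ≤ 1 - uu i j (ee t) := by
            rw [huu]; exact hu6 _ ht.2.1.le
          have := Real.log_le_log h2 h3
          linarith
      _ ≤ ENNReal.ofReal (40 * rh i * Real.exp (La i)) := h1
      _ ≤ ENNReal.ofReal (2.5 * dl i) := by
          apply ENNReal.ofReal_le_ofReal
          have : 40 * rh i * Real.exp (La i) = 20 * (2 * rh i * Real.exp (La i)) := by ring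
          rw [this, hexp]; norm_num; linarith
  have hI3 : ∫⁻ t in A3, f t ≤ 0 := by
    calc ∫⁻ t in A3, f t ≤ ∫⁻ t in A3, (fun _ => (0 : ENNReal)) t := by
          apply setLIntegral_mono measurable_const
          intro t ht
          rw [hf]; dsimp only
          rw [huu, hu2 _ ht]
          simp
      _ = 0 := by simp
  have hvol : volume A2 ≤ ENNReal.ofReal (8 * rh i) := by
    have h1 : A2 ⊆ Set.Icc (θ - 4 * rh i) (θ + 4 * rh i) := by
      intro t ht
      have h2 : |t - θ| ≤ 2 := by
        rw [abs_le]; constructor <;> linarith [ht.1.1, ht.1.2]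
      have h3 := chord_lower h2
      have h4 : |t - θ| ≤ 4 * rh i := by linarith [ht.2]
      rw [abs_le] at h4
      constructor <;> linarith [h4.1, h4.2]
    refine (measure_mono h1).trans ?_
    rw [Real.volume_Icc]
    apply ENNReal.ofReal_le_ofReal
    linarith
  have hI2 : ∫⁻ t in A2, f t ≤ ENNReal.ofReal (12 * dl i) + ENNReal.ofReal (C * dl i) := by
    have h1 := hpiece θ (sg i) (2 ^ Qc i) hsg0 (by positivity) (by
      rw [hMs]; linarith)
    rw [hMs] at h1
    calc ∫⁻ t in A2, f t ≤ ∫⁻ t in A2, (ENNReal.ofReal (-Real.log (mu i)) +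
            ENNReal.ofReal (-Real.log (Dp S (sg i) (ee t)))) := by
          apply setLIntegral_mono' hA2m
          intro t ht
          have hD0 : 0 ≤ Dp S (sg i) (ee t) := by
            unfold Dp
            apply le_min zero_le_one
            exact div_nonneg Metric.infDist_nonneg hsg0.le
          rcases hD0.eq_or_lt with hD | hD
          · have h3 : Metric.infDist (ee t) S = 0 := by
              unfold Dp at hD
              by_contra hne
              have h4 : 0 < Metric.infDist (ee t) S :=
                lt_of_le_of_ne Metric.infDist_nonneg (Ne.symm hne)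
              have h5 : 0 < min 1 (Metric.infDist (ee t) S / sg i) :=
                lt_min one_pos (div_pos h4 hsg0)
              linarith
            have h4 : ee t ∈ S := by
              rw [← hScomp.isClosed.closure_eq, Metric.mem_closure_iff_infDist_zero hSne]
              exact h3
            rw [hf]; dsimp only
            rw [huu, hu3 _ h4]
            simp
          · rw [← ENNReal.ofReal_add]
            · apply ENNReal.ofReal_le_ofReal
              have h3 := hu7 (ee t)
              rw [← huu] at h3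
              have h4 := Real.log_le_log (mul_pos hmu0 hD) h3
              rw [Real.log_mul hmu0.ne' hD.ne'] at h4
              linarith
            · have := Real.log_nonpos hmu0.le hmu1
              linarith
            · have := Real.log_nonpos hD0 (min_le_left _ _)
              linarith
      _ = ENNReal.ofReal (-Real.log (mu i)) * volume A2 +
            ∫⁻ t in A2, ENNReal.ofReal (-Real.log (Dp S (sg i) (ee t))) := by
          rw [lintegral_add_left measurable_const, setLIntegral_const]
      _ ≤ ENNReal.ofReal (-Real.log (mu i)) * ENNReal.ofReal (8 * rh i) +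
            ∫⁻ t in Set.Icc (θ - 2) (θ + 2), ENNReal.ofReal (-Real.log (Dp S (sg i) (ee t))) := by
          apply add_le_add
          · gcongr
          · exact lintegral_mono_set (fun t ht => ht.1)
      _ ≤ ENNReal.ofReal (12 * dl i) + ENNReal.ofReal (C * dl i) := by
          apply add_le_add
          · have hl2 := Real.log_two_lt_d9
            have hl0 : 0 < Real.log 2 := Real.log_pos (by norm_num)
            have hQ0 : (0 : ℝ) < Qc i := by linarith
            rw [hlogmu, ← ENNReal.ofReal_mul (by positivity)]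
            apply ENNReal.ofReal_le_ofReal
            have : 2 * (Qc i : ℝ) * Real.log 2 * (8 * rh i) = 16 * Real.log 2 * (rh i * Qc i) := by
              ring
            rw [this, hrQ]
            apply mul_le_mul_of_nonneg_right _ hdl0.le
            linarith
          · refine h1.trans ?_
            apply ENNReal.ofReal_le_ofReal
            apply mul_le_mul_of_nonneg_left _ hC.le
            linarith
  calc ∫⁻ t in Set.Ioc (-Real.pi) Real.pi, f t ≤ ∫⁻ t in A1 ∪ (A2 ∪ A3), f t :=
        lintegral_mono_set hcover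
    _ ≤ (∫⁻ t in A1, f t) + ((∫⁻ t in A2, f t) + ∫⁻ t in A3, f t) :=
        (lintegral_union_le _ _ _).trans (add_le_add le_rfl (lintegral_union_le _ _ _))
    _ ≤ ENNReal.ofReal (2.5 * dl i) + ((ENNReal.ofReal (12 * dl i) + ENNReal.ofReal (C * dl i)) + 0) :=
        add_le_add hI1 (add_le_add hI2 hI3)
    _ = ENNReal.ofReal ((2.5 + 12 + C) * dl i) := by
        rw [add_zero, ← ENNReal.ofReal_add (by positivity) (by positivity),
          ← ENNReal.ofReal_add (by positivity) (by positivity)]
        congr 1; ring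

end Pool.Agent.Helper655.DU.C6
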