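import Mathlib
import Pool.Agent.Helper655.DUDefs
import Pool.Agent.Helper655.DUDefs2
import Pool.Agent.Helper655.DUC1
import Pool.Agent.Helper655.DUC2
import Pool.Agent.Helper655.DUC3
import Pool.Agent.Helper655.DUB2
import Pool.Agent.Helper655.DUB3

set_option autoImplicit false
open Finset
open Pool.Agent.Helper655.BD (mean ee PS)

namespace Pool.Agent.Helper655.DU.C7

open Pool.Agent.Helper655.DU.C1 (params)
open Pool.Agent.Helper655.DU.C2 (Ecell_facts)
open Pool.Agent.Helper655.DU.C3 (disj)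
open Pool.Agent.Helper655.DU.B2 (uc_basic)
open Pool.Agent.Helper655.DU.B3 (uc_energy)







theorem sum_one {a : ℕ → ℕ → ℝ} {M : ℝ} (hM : 0 ≤ M) (k : ℕ)
    (hle : ∀ i j, j < Nc i → a i j ≤ M)
    (hun : ∀ i j i' j', j < Nc i → j' < Nc i' → a i j ≠ 0 → a i' j' ≠ 0 → i = i' ∧ j = j') :
    ∑ i ∈ range k, ∑ j ∈ range (Nc i), a i j ≤ M := by
  classical
  rw [Finset.sum_sigma']
  by_cases h : ∃ p ∈ (range k).sigma (fun i => range (Nc i)), a p.1 p.2 ≠ 0
  · obtain ⟨p, hp, hp0⟩ := h
    have hpj : p.2 < Nc p.1 := by simpa using (Finset.mem_sigma.mp hp).2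
    rw [Finset.sum_eq_single_of_mem p hp]
    · exact hle _ _ hpj
    · intro q hq hne
      by_contra hq0
      have hqj : q.2 < Nc q.1 := by simpa using (Finset.mem_sigma.mp hq).2
      have := hun q.1 q.2 p.1 p.2 hqj hpj hq0 hp0
      apply hne
      exact Sigma.ext this.1 (heq_of_eq this.2)
  · push Not at h
    rw [Finset.sum_eq_zero h]
    exact hM

theorem uu_basic (i j : ℕ) :
    (∀ z, 0 ≤ uu i j z ∧ uu i j z ≤ 1) ∧ (∀ z, dl i / 8 ≤ ‖z - ee (cen i j)‖ → uu i j z = 0) ∧
    (∃ C : NNReal, LipschitzWith C (uu i j)) := by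
  obtain ⟨h1, h2, h3, h4, h5, h6, h7, h8, h9, h10, h11, h12, h13, h14, h15, h16, h17, h18⟩ := params i
  obtain ⟨e1, e2, e3, e4, e5, e6, e7⟩ := Ecell_facts i j
  obtain ⟨b1, b2, b3, b4, b5, b6, b7⟩ := uc_basic (ee (cen i j)) (ee '' Ecell i j) (rh i) (sg i) (La i)
    (mu i) e5 e6 e7 h8 h9 (by linarith) h14 h15
  refine ⟨b1, ?_, b5⟩
  intro z hz
  apply b2
  rw [h11]; exact hz

theorem Uk_mem (k : ℕ) (z : ℂ) : 0 ≤ Uk k z ∧ Uk k z ≤ 1 := by
  constructor
  · exact Finset.sum_nonneg fun i _ => Finset.sum_nonneg fun j _ => ((uu_basic i j).1 z).1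
  · refine sum_one zero_le_one k (fun i j _ => ((uu_basic i j).1 z).2) ?_
    intro i j i' j' hj hj' h h'
    refine disj i j i' j' z hj hj' ?_ ?_
    · by_contra hc
      push Not at hc
      exact h ((uu_basic i j).2.1 z hc.le)
    · by_contra hc
      push Not at hc
      exact h' ((uu_basic i' j').2.1 z hc.le)

theorem XX_lip : LipschitzWith 1 XX := by
  have h1 : LipschitzWith 1 (fun z : ℂ => 3 - ‖z‖) := by
    refine LipschitzWith.of_dist_le_mul fun x y => ?_
    rw [Real.dist_eq, dist_eq_norm]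
    have := abs_norm_sub_norm_le y x
    rw [show (3 - ‖x‖ - (3 - ‖y‖)) = ‖y‖ - ‖x‖ by ring]
    rw [norm_sub_rev x y]
    simpa using this
  exact (h1.const_min 1).const_max 0

theorem VV_lip : LipschitzWith 1 VV := by
  have h1 : LipschitzWith 1 (fun z : ℂ => ‖z - 1‖) := by
    refine LipschitzWith.of_dist_le_mul fun x y => ?_
    rw [Real.dist_eq, dist_eq_norm]
    have := abs_norm_sub_norm_le (x - 1) (y - 1)
    rw [show x - 1 - (y - 1) = x - y by ring] at this
    simpa using this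
  exact h1.const_min 1

theorem XX_mem (z : ℂ) : 0 ≤ XX z ∧ XX z ≤ 1 := by
  unfold XX
  constructor
  · exact le_max_left _ _
  · exact max_le zero_le_one (min_le_left _ _)

theorem VV_mem (z : ℂ) : 0 ≤ VV z ∧ VV z ≤ 1 := by
  unfold VV
  constructor
  · exact le_min zero_le_one (norm_nonneg _)
  · exact min_le_left _ _

theorem Hk_far (k : ℕ) (z : ℂ) (hz : 3 < ‖z‖) : fderiv ℝ (Hk k) z = 0 := by
  have h1 : Hk k =ᶠ[nhds z] fun _ => (0 : ℝ) := by
    have h2 : ∀ᶠ w : ℂ in nhds z, 3 < ‖w‖ := by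
      exact (continuous_norm.tendsto z).eventually (lt_mem_nhds hz)
    filter_upwards [h2] with w hw
    have : XX w = 0 := by
      unfold XX
      rw [max_eq_left]
      exact (min_le_right _ _).trans (by linarith)
    unfold Hk
    rw [this]; ring
  rw [h1.fderiv_eq]
  simp

/-- TARGET -/
theorem grad_dom : ∃ g : ℂ → ℝ, MeasureTheory.MemLp g 2 ∧
    ∀ k, ∀ᵐ z : ℂ, ‖fderiv ℝ (Hk k) z‖ ≤ g z := by
  classical
  -- the dominating functions
  have hex : ∀ i j : ℕ, ∃ g : ℂ → ℝ, Measurable g ∧ (∀ z, 0 ≤ g z) ∧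
      (∀ z, dl i / 8 < ‖z - ee (cen i j)‖ → g z = 0) ∧
      (∀ᵐ z : ℂ, ‖fderiv ℝ (uu i j) z‖ ≤ g z) ∧
      ∫⁻ z, ENNReal.ofReal (g z ^ 2) ≤
        ENNReal.ofReal (13 * (1 / 2 ^ Qc i) ^ 2 + 7 / La i) := by
    intro i j
    obtain ⟨h1, h2, h3, h4, h5, h6, h7, h8, h9, h10, h11, h12, h13, h14, h15, h16, h17, h18⟩ := params i
    obtain ⟨e1, e2, e3, e4, e5, e6, e7⟩ := Ecell_facts i j
    obtain ⟨g, g1, g2, g3, g4, g5⟩ := uc_energy (ee (cen i j)) (ee '' Ecell i j) (rh i) (sg i) (La i)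
      (mu i) e5 e6 e7 h8 h9 (by linarith) h14 h15
    refine ⟨g, g1, g2, ?_, g4, ?_⟩
    · intro z hz
      apply g3
      rw [h11]; exact hz
    · rw [h17] at g5
      exact g5
  choose g g1 g2 g3 g4 g5 using hex
  set W : ℂ → ENNReal := fun z => ∑' i, ∑ j ∈ range (Nc i), ENNReal.ofReal (g i j z ^ 2) with hW
  have hWterm : ∀ i, Measurable fun z => ∑ j ∈ range (Nc i), ENNReal.ofReal (g i j z ^ 2) := by
    intro i
    exact Finset.measurable_fun_sum _ fun j _ => ((g1 i j).pow_const 2).ennreal_ofReal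
  have hWm : Measurable W := Measurable.ennreal_tsum hWterm
  have hWint : ∫⁻ z, W z ≠ ⊤ := by
    have h1 : ∫⁻ z, W z = ∑' i, ∑ j ∈ range (Nc i), ∫⁻ z, ENNReal.ofReal (g i j z ^ 2) := by
      rw [hW, MeasureTheory.lintegral_tsum fun i => (hWterm i).aemeasurable]
      congr 1
      ext i
      exact MeasureTheory.lintegral_finsetSum _ fun j _ => ((g1 i j).pow_const 2).ennreal_ofReal
    have h2 : ∀ i, ∑ j ∈ range (Nc i), ∫⁻ z, ENNReal.ofReal (g i j z ^ 2) ≤
        ENNReal.ofReal (30 * (1 / 2) ^ i) := by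
      intro i
      obtain ⟨p1, p2, p3, p4, p5, p6, p7, p8, p9, p10, p11, p12, p13, p14, p15, p16, p17, p18, p19,
        p20, p21⟩ := params i
      calc ∑ j ∈ range (Nc i), ∫⁻ z, ENNReal.ofReal (g i j z ^ 2)
          ≤ ∑ j ∈ range (Nc i), ENNReal.ofReal (13 * (1 / 2 ^ Qc i) ^ 2 + 7 / La i) :=
            Finset.sum_le_sum fun j _ => g5 i j
        _ = (Nc i : ENNReal) * ENNReal.ofReal (13 * (1 / 2 ^ Qc i) ^ 2 + 7 / La i) := by
            rw [Finset.sum_const, Finset.card_range, nsmul_eq_mul]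
        _ = ENNReal.ofReal ((Nc i : ℝ) * (13 * (1 / 2 ^ Qc i) ^ 2 + 7 / La i)) := by
            rw [ENNReal.ofReal_mul (Nat.cast_nonneg _), ENNReal.ofReal_natCast]
        _ ≤ ENNReal.ofReal (30 * (1 / 2) ^ i) := ENNReal.ofReal_le_ofReal p21
    have h3 : ∑' i : ℕ, ENNReal.ofReal (30 * (1 / 2) ^ i) ≠ ⊤ := by
      have hs : Summable fun i : ℕ => (30 : ℝ) * (1 / 2) ^ i :=
        (summable_geometric_of_lt_one (by norm_num) (by norm_num)).mul_left _
      exact hs.tsum_ofReal_ne_top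
    rw [h1]
    exact ne_top_of_le_ne_top h3 (ENNReal.tsum_le_tsum h2)
  refine ⟨fun z => Set.indicator (Metric.closedBall (0 : ℂ) 3) (fun _ => (2 : ℝ)) z +
    Real.sqrt (W z).toReal, ?_, ?_⟩
  · refine MeasureTheory.MemLp.add ?_ ?_
    · refine MeasureTheory.memLp_indicator_const 2 Metric.isClosed_closedBall.measurableSet 2 ?_
      right
      exact (isCompact_closedBall (0 : ℂ) 3).measure_lt_top.ne
    · have hm : Measurable fun z => Real.sqrt (W z).toReal := (hWm.ennreal_toReal).sqrt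
      rw [MeasureTheory.memLp_two_iff_integrable_sq hm.aestronglyMeasurable]
      have : (fun z => Real.sqrt (W z).toReal ^ 2) = fun z => (W z).toReal := by
        ext z
        exact Real.sq_sqrt ENNReal.toReal_nonneg
      rw [this]
      exact MeasureTheory.integrable_toReal_of_lintegral_ne_top hWm.aemeasurable hWint
  · intro k
    have ae1 : ∀ᵐ z : ℂ, W z < ⊤ := MeasureTheory.ae_lt_top hWm hWint
    have ae2 : ∀ᵐ z : ℂ, ∀ i j, ‖fderiv ℝ (uu i j) z‖ ≤ g i j z := by
      rw [MeasureTheory.ae_all_iff]; intro i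
      rw [MeasureTheory.ae_all_iff]; intro j
      exact g4 i j
    have ae3 : ∀ᵐ z : ℂ, ∀ i j, DifferentiableAt ℝ (uu i j) z := by
      rw [MeasureTheory.ae_all_iff]; intro i
      rw [MeasureTheory.ae_all_iff]; intro j
      obtain ⟨C, hC⟩ := (uu_basic i j).2.2
      exact hC.ae_differentiableAt
    have ae4 : ∀ᵐ z : ℂ, DifferentiableAt ℝ XX z := XX_lip.ae_differentiableAt
    have ae5 : ∀ᵐ z : ℂ, DifferentiableAt ℝ VV z := VV_lip.ae_differentiableAt
    filter_upwards [ae1, ae2, ae3, ae4, ae5] with z h1 h2 h3 h4 h5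
    have hsq0 : 0 ≤ Real.sqrt (W z).toReal := Real.sqrt_nonneg _
    by_cases hz : 3 < ‖z‖
    · rw [Hk_far k z hz, norm_zero]
      have : 0 ≤ Set.indicator (Metric.closedBall (0 : ℂ) 3) (fun _ => (2 : ℝ)) z :=
        Set.indicator_nonneg (fun _ _ => by norm_num) z
      linarith
    · push Not at hz
      have hind : Set.indicator (Metric.closedBall (0 : ℂ) 3) (fun _ => (2 : ℝ)) z = 2 := by
        rw [Set.indicator_of_mem]
        simpa using hz
      rw [hind]
      -- derivative of Uk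
      have hgle : ∀ i j, j < Nc i → g i j z ≤ Real.sqrt (W z).toReal := by
        intro i j hj
        apply Real.le_sqrt_of_sq_le
        have e1 : ENNReal.ofReal (g i j z ^ 2) ≤ W z := by
          calc ENNReal.ofReal (g i j z ^ 2)
              ≤ ∑ j ∈ range (Nc i), ENNReal.ofReal (g i j z ^ 2) :=
                Finset.single_le_sum (f := fun j => ENNReal.ofReal (g i j z ^ 2))
                  (fun _ _ => zero_le) (Finset.mem_range.mpr hj)
            _ ≤ W z := ENNReal.le_tsum i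
        have e2 := ENNReal.toReal_mono h1.ne e1
        rwa [ENNReal.toReal_ofReal (sq_nonneg _)] at e2
      have hUd : DifferentiableAt ℝ (Uk k) z := by
        have : Uk k = fun z => ∑ i ∈ range k, ∑ j ∈ range (Nc i), uu i j z := rfl
        rw [this]
        exact DifferentiableAt.fun_sum fun i _ => DifferentiableAt.fun_sum fun j _ => h3 i j
      have hUf : fderiv ℝ (Uk k) z = ∑ i ∈ range k, ∑ j ∈ range (Nc i), fderiv ℝ (uu i j) z := by
        have : Uk k = fun z => ∑ i ∈ range k, ∑ j ∈ range (Nc i), uu i j z := rfl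
        rw [this, fderiv_fun_sum fun i _ => DifferentiableAt.fun_sum fun j _ => h3 i j]
        refine Finset.sum_congr rfl fun i _ => ?_
        rw [fderiv_fun_sum fun j _ => h3 i j]
      have hUn : ‖fderiv ℝ (Uk k) z‖ ≤ Real.sqrt (W z).toReal := by
        rw [hUf]
        calc ‖∑ i ∈ range k, ∑ j ∈ range (Nc i), fderiv ℝ (uu i j) z‖
            ≤ ∑ i ∈ range k, ‖∑ j ∈ range (Nc i), fderiv ℝ (uu i j) z‖ := norm_sum_le _ _
          _ ≤ ∑ i ∈ range k, ∑ j ∈ range (Nc i), ‖fderiv ℝ (uu i j) z‖ :=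
              Finset.sum_le_sum fun i _ => norm_sum_le _ _
          _ ≤ ∑ i ∈ range k, ∑ j ∈ range (Nc i), g i j z :=
              Finset.sum_le_sum fun i _ => Finset.sum_le_sum fun j _ => h2 i j
          _ ≤ Real.sqrt (W z).toReal := by
              refine sum_one hsq0 k hgle ?_
              intro i j i' j' hj hj' h h'
              refine disj i j i' j' z hj hj' ?_ ?_
              · by_contra hc
                push Not at hc
                exact h (g3 i j z hc)
              · by_contra hc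
                push Not at hc
                exact h' (g3 i' j' z hc)
      have hX1 : ‖fderiv ℝ XX z‖ ≤ 1 := by
        simpa using norm_fderiv_le_of_lipschitz ℝ XX_lip (x₀ := z)
      have hV1 : ‖fderiv ℝ VV z‖ ≤ 1 := by
        simpa using norm_fderiv_le_of_lipschitz ℝ VV_lip (x₀ := z)
      have hHf : fderiv ℝ (Hk k) z = (XX z * VV z) • (- fderiv ℝ (Uk k) z) +
          (1 - Uk k z) • (XX z • fderiv ℝ VV z + VV z • fderiv ℝ XX z) := by
        have : HasFDerivAt (Hk k) ((XX z * VV z) • (- fderiv ℝ (Uk k) z) +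
          (1 - Uk k z) • (XX z • fderiv ℝ VV z + VV z • fderiv ℝ XX z)) z := by
          exact (h4.hasFDerivAt.mul h5.hasFDerivAt).mul (hUd.hasFDerivAt.const_sub 1)
        exact this.fderiv
      rw [hHf]
      have x0 := (XX_mem z).1
      have x1 := (XX_mem z).2
      have v0 := (VV_mem z).1
      have v1 := (VV_mem z).2
      have u0 := (Uk_mem k z).1
      have u1 := (Uk_mem k z).2
      calc ‖(XX z * VV z) • (- fderiv ℝ (Uk k) z) +
          (1 - Uk k z) • (XX z • fderiv ℝ VV z + VV z • fderiv ℝ XX z)‖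
          ≤ ‖(XX z * VV z) • (- fderiv ℝ (Uk k) z)‖ +
            ‖(1 - Uk k z) • (XX z • fderiv ℝ VV z + VV z • fderiv ℝ XX z)‖ := norm_add_le _ _
        _ = (XX z * VV z) * ‖fderiv ℝ (Uk k) z‖ +
            (1 - Uk k z) * ‖XX z • fderiv ℝ VV z + VV z • fderiv ℝ XX z‖ := by
            rw [norm_smul, norm_smul, norm_neg, Real.norm_of_nonneg (mul_nonneg x0 v0),
              Real.norm_of_nonneg (by linarith : (0:ℝ) ≤ 1 - Uk k z)]
        _ ≤ 1 * Real.sqrt (W z).toReal + 1 * 2 := by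
            apply add_le_add
            · exact mul_le_mul (mul_le_one₀ x1 v0 v1) hUn (norm_nonneg _) zero_le_one
            · refine mul_le_mul (by linarith) ?_ (norm_nonneg _) zero_le_one
              calc ‖XX z • fderiv ℝ VV z + VV z • fderiv ℝ XX z‖
                  ≤ ‖XX z • fderiv ℝ VV z‖ + ‖VV z • fderiv ℝ XX z‖ := norm_add_le _ _
                _ = XX z * ‖fderiv ℝ VV z‖ + VV z * ‖fderiv ℝ XX z‖ := by
                    rw [norm_smul, norm_smul, Real.norm_of_nonneg x0, Real.norm_of_nonneg v0]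
                _ ≤ 1 * 1 + 1 * 1 :=
                    add_le_add (mul_le_mul x1 hV1 (norm_nonneg _) zero_le_one)
                      (mul_le_mul v1 hX1 (norm_nonneg _) zero_le_one)
                _ = 2 := by norm_num
        _ = 2 + Real.sqrt (W z).toReal := by ring

end Pool.Agent.Helper655.DU.C7
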