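import Mathlib
import Pool.Agent.Helper655.DUDefs
import Pool.Agent.Helper655.DUDefs2

set_option autoImplicit false
open Finset
open Pool.Agent.Helper655.BD (mean ee PS)

namespace Pool.Agent.Helper655.DU.C8


/-- TARGET -/
theorem V_log : ∫⁻ t in Set.Ioc (-Real.pi) Real.pi, ENNReal.ofReal (-Real.log (VV (ee t))) < ⊤ := by
  have hpi := Real.pi_pos
  have hint : IntervalIntegrable (fun t : ℝ => Real.log Real.pi - Real.log t) MeasureTheory.volume (-Real.pi) Real.pi :=
    (intervalIntegrable_const).sub intervalIntegral.intervalIntegrable_log'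
  have hint2 : MeasureTheory.IntegrableOn (fun t : ℝ => Real.log Real.pi - Real.log t) (Set.Ioc (-Real.pi) Real.pi) :=
    (intervalIntegrable_iff_integrableOn_Ioc_of_le (by linarith)).1 hint
  refine lt_of_le_of_lt ?_ hint2.2
  refine MeasureTheory.lintegral_mono_ae ?_
  have hne : ∀ᵐ t : ℝ ∂(MeasureTheory.volume.restrict (Set.Ioc (-Real.pi) Real.pi)), t ≠ 0 := by
    refine MeasureTheory.ae_restrict_of_ae ?_
    exact MeasureTheory.Measure.ae_ne MeasureTheory.volume 0
  filter_upwards [hne, MeasureTheory.ae_restrict_mem measurableSet_Ioc] with t ht0 ht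
  rw [← ofReal_norm]
  refine ENNReal.ofReal_le_ofReal (le_trans ?_ (le_abs_self _))
  have habs : 0 < |t| := abs_pos.2 ht0
  have hle : |t| ≤ Real.pi := abs_le.2 ⟨ht.1.le, ht.2⟩
  have h1 : ‖ee t - 1‖ = 2 * |Real.sin (t / 2)| := by
    rw [ee, mul_comm, Complex.norm_exp_I_mul_ofReal_sub_one, norm_mul]
    simp
  have h2 : 2 / Real.pi * (|t| / 2) ≤ |Real.sin (t / 2)| := by
    have h3 := Real.mul_le_sin (x := |t| / 2) (by positivity) (by linarith)
    have h4 : Real.sin (|t| / 2) ≤ |Real.sin (t / 2)| := by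
      rcases abs_cases t with ⟨h, _⟩ | ⟨h, _⟩
      · rw [h]; exact le_abs_self _
      · rw [h, show -t / 2 = -(t / 2) by ring, Real.sin_neg]; exact neg_le_abs _
    exact h3.trans h4
  have h5 : |t| / Real.pi ≤ VV (ee t) := by
    rw [VV, h1]
    refine le_min ?_ ?_
    · rw [div_le_one hpi]; exact hle
    · calc |t| / Real.pi ≤ 2 * (2 / Real.pi * (|t| / 2)) := by
            have : 0 ≤ |t| / Real.pi := by positivity
            calc |t| / Real.pi ≤ 2 * (|t| / Real.pi) := by linarith
              _ = _ := by ring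
        _ ≤ _ := by linarith
  have h6 : Real.log (|t| / Real.pi) ≤ Real.log (VV (ee t)) := Real.log_le_log (by positivity) h5
  rw [Real.log_div habs.ne' hpi.ne', Real.log_abs] at h6
  linarith

end Pool.Agent.Helper655.DU.C8
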