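import Mathlib
import Pool.Agent.Helper655.DUDefs
import Pool.Agent.Helper655.DUDefs2
import Pool.Agent.Helper655.DUC1
import Pool.Agent.Helper655.DUC2
import Pool.Agent.Helper655.DUC3
import Pool.Agent.Helper655.DUC4
import Pool.Agent.Helper655.DUC5
import Pool.Agent.Helper655.DUC6
import Pool.Agent.Helper655.DUC7
import Pool.Agent.Helper655.DUC8
import Pool.Agent.Helper655.DUB1
import Pool.Agent.Helper655.DUB2

set_option autoImplicit false
open Finset
open Pool.Agent.Helper655.BD (mean ee PS)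

namespace Pool.Agent.Helper655.DU.Fin

open Pool.Agent.Helper655.DU.C1 (params)
open Pool.Agent.Helper655.DU.C2 (Ecell_facts)
open Pool.Agent.Helper655.DU.C3 (disj)
open Pool.Agent.Helper655.DU.C4 (near_one)
open Pool.Agent.Helper655.DU.C5 (EE_facts)
open Pool.Agent.Helper655.DU.C6 (cell_log)
open Pool.Agent.Helper655.DU.C7 (grad_dom)
open Pool.Agent.Helper655.DU.C8 (V_log)
open Pool.Agent.Helper655.DU.B1 (weak_lim)
open Pool.Agent.Helper655.DU.B2 (uc_basic)
theorem nee (t : ℝ) : ‖ee t‖ = 1 := by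
  unfold ee
  exact Complex.norm_exp_ofReal_mul_I t

theorem cee : Continuous ee := by
  unfold ee
  fun_prop

theorem uu_all (i j : ℕ) :
    (∀ z, 0 ≤ uu i j z ∧ uu i j z ≤ 1) ∧
    (∀ z, dl i / 8 ≤ ‖z - ee (cen i j)‖ → uu i j z = 0) ∧
    (∀ z ∈ ee '' Ecell i j, uu i j z = 1) ∧
    (∀ z, z ∉ ee '' Ecell i j → uu i j z < 1) ∧
    (∃ C : NNReal, LipschitzWith C (uu i j)) := by
  obtain ⟨h1, h2, h3, h4, h5, h6, h7, h8, h9, h10, h11, h12, h13, h14, h15, h16, h17, h18, h19,
    h20, h21⟩ := params i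
  obtain ⟨e1, e2, e3, e4, e5, e6, e7⟩ := Ecell_facts i j
  obtain ⟨b1, b2, b3, b4, b5, b6, b7⟩ := uc_basic (ee (cen i j)) (ee '' Ecell i j) (rh i) (sg i)
    (La i) (mu i) e5 e6 e7 h8 h9 (by linarith) h14 h15
  refine ⟨b1, ?_, b3, b4, b5⟩
  intro z hz
  apply b2
  rw [h11]
  exact hz

theorem uu_near {i j : ℕ} {z : ℂ} (h : uu i j z ≠ 0) : ‖z - ee (cen i j)‖ ≤ dl i / 8 := by
  by_contra hc
  push Not at hc
  exact h ((uu_all i j).2.1 z hc.le)

/-- at most one dip is active -/
theorem point_cases (z : ℂ) : (∀ i j, j < Nc i → uu i j z = 0) ∨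
    ∃ i0 j0, j0 < Nc i0 ∧ uu i0 j0 z ≠ 0 ∧
      ∀ i j, j < Nc i → (i ≠ i0 ∨ j ≠ j0) → uu i j z = 0 := by
  by_cases h : ∀ i j, j < Nc i → uu i j z = 0
  · exact Or.inl h
  · right
    push Not at h
    obtain ⟨i0, j0, hj0, h0⟩ := h
    refine ⟨i0, j0, hj0, h0, ?_⟩
    intro i j hj hne
    by_contra hc
    have := disj i j i0 j0 z hj hj0 (uu_near hc) (uu_near h0)
    rcases hne with h1 | h1
    · exact h1 this.1
    · exact h1 this.2

theorem sums_zero {z : ℂ} (h : ∀ i j, j < Nc i → uu i j z = 0) :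
    (∀ i, ug i z = 0) ∧ (∀ k, Uk k z = 0) ∧ UU z = 0 := by
  have h1 : ∀ i, ug i z = 0 := by
    intro i
    unfold ug
    exact sum_eq_zero fun j hj => h i j (mem_range.1 hj)
  refine ⟨h1, ?_, ?_⟩
  · intro k
    unfold Uk
    exact sum_eq_zero fun i _ => h1 i
  · unfold UU
    simp only [h1, tsum_zero]

theorem sums_one {z : ℂ} {i0 j0 : ℕ} (hj0 : j0 < Nc i0)
    (h : ∀ i j, j < Nc i → (i ≠ i0 ∨ j ≠ j0) → uu i j z = 0) :
    (∀ i, ug i z = if i = i0 then uu i0 j0 z else 0) ∧
    (∀ k, Uk k z = if i0 < k then uu i0 j0 z else 0) ∧ UU z = uu i0 j0 z := by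
  have h1 : ∀ i, ug i z = if i = i0 then uu i0 j0 z else 0 := by
    intro i
    unfold ug
    split_ifs with hi
    · subst hi
      apply sum_eq_single_of_mem j0 (mem_range.2 hj0)
      intro j hj hne
      exact h i j (mem_range.1 hj) (Or.inr hne)
    · exact sum_eq_zero fun j hj => h i j (mem_range.1 hj) (Or.inl hi)
  refine ⟨h1, ?_, ?_⟩
  · intro k
    unfold Uk
    simp only [h1]
    rw [Finset.sum_ite_eq' (range k) i0 (fun _ => uu i0 j0 z)]
    simp only [mem_range]
  · unfold UU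
    simp only [h1]
    exact tsum_ite_eq i0 _

theorem bounds (z : ℂ) : (0 ≤ UU z ∧ UU z ≤ 1) ∧ (∀ k, 0 ≤ Uk k z ∧ Uk k z ≤ 1) ∧
    Filter.Tendsto (fun k => Uk k z) Filter.atTop (nhds (UU z)) := by
  rcases point_cases z with h | ⟨i0, j0, hj0, _, h⟩
  · obtain ⟨_, h2, h3⟩ := sums_zero h
    refine ⟨?_, ?_, ?_⟩
    · rw [h3]; norm_num
    · intro k; rw [h2]; norm_num
    · simp only [h2, h3]
      exact tendsto_const_nhds
  · obtain ⟨_, h2, h3⟩ := sums_one hj0 h
    have hb := (uu_all i0 j0).1 z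
    refine ⟨?_, ?_, ?_⟩
    · rw [h3]; exact hb
    · intro k; rw [h2]
      split_ifs
      · exact hb
      · norm_num
    · rw [h3]
      apply tendsto_const_nhds.congr'
      filter_upwards [Filter.eventually_gt_atTop i0] with k hk
      rw [h2, if_pos hk]

theorem VV_bounds (z : ℂ) : 0 ≤ VV z ∧ VV z ≤ 1 ∧ VV z ≤ ‖z - 1‖ :=
  ⟨le_min zero_le_one (norm_nonneg _), min_le_left _ _, min_le_right _ _⟩

theorem XX_bounds (z : ℂ) : 0 ≤ XX z ∧ XX z ≤ 1 :=
  ⟨le_max_left _ _, max_le zero_le_one (min_le_left _ _)⟩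

theorem XX_zero {z : ℂ} (h : 3 ≤ ‖z‖) : XX z = 0 := by
  unfold XX
  apply max_eq_left
  exact (min_le_right _ _).trans (by linarith)

theorem XX_one {z : ℂ} (h : ‖z‖ ≤ 2) : XX z = 1 := by
  unfold XX
  rw [min_eq_left (by linarith)]
  norm_num

theorem lip_VV : LipschitzWith 1 VV := by
  unfold VV
  have h : LipschitzWith 1 (fun z : ℂ => ‖z - 1‖) := by
    apply LipschitzWith.of_dist_le_mul
    intro x y
    rw [NNReal.coe_one, one_mul, Real.dist_eq, dist_eq_norm]
    have := abs_norm_sub_norm_le (x - 1) (y - 1)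
    simpa using this
  have h2 := (LipschitzWith.const (α := ℂ) (1:ℝ)).min h
  simpa using h2

theorem lip_XX : LipschitzWith 1 XX := by
  unfold XX
  have h : LipschitzWith 1 (fun z : ℂ => 3 - ‖z‖) := by
    apply LipschitzWith.of_dist_le_mul
    intro x y
    rw [NNReal.coe_one, one_mul, Real.dist_eq, dist_eq_norm]
    have := abs_norm_sub_norm_le y x
    rw [norm_sub_rev y x] at this
    convert this using 2
    ring
  have h2 := (LipschitzWith.const (α := ℂ) (1:ℝ)).min h
  have h3 := (LipschitzWith.const (α := ℂ) (0:ℝ)).max h2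
  simpa using h3

theorem lip_mul {f g : ℂ → ℝ} (hf : ∃ C : NNReal, LipschitzWith C f)
    (hg : ∃ C : NNReal, LipschitzWith C g) (hf1 : ∀ z, |f z| ≤ 1) (hg1 : ∀ z, |g z| ≤ 1) :
    ∃ C : NNReal, LipschitzWith C (fun z => f z * g z) := by
  obtain ⟨C, hC⟩ := hf
  obtain ⟨D, hD⟩ := hg
  refine ⟨C + D, LipschitzWith.of_dist_le_mul ?_⟩
  intro x y
  have h1 := hC.dist_le_mul x y
  have h2 := hD.dist_le_mul x y
  rw [Real.dist_eq] at h1 h2 ⊢
  have e : f x * g x - f y * g y = f x * (g x - g y) + (f x - f y) * g y := by ring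
  rw [e]
  calc |f x * (g x - g y) + (f x - f y) * g y|
      ≤ |f x * (g x - g y)| + |(f x - f y) * g y| := abs_add_le _ _
    _ = |f x| * |g x - g y| + |f x - f y| * |g y| := by rw [abs_mul, abs_mul]
    _ ≤ 1 * (D * dist x y) + (C * dist x y) * 1 := by
        have h3 := hf1 x
        have h4 := hg1 y
        gcongr
    _ = ((C + D : NNReal) : ℝ) * dist x y := by
        push_cast
        ring

theorem lip_sum {ι : Type} (s : Finset ι) (f : ι → ℂ → ℝ)
    (h : ∀ i ∈ s, ∃ C : NNReal, LipschitzWith C (f i)) :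
    ∃ C : NNReal, LipschitzWith C (fun z => ∑ i ∈ s, f i z) := by
  classical
  induction s using Finset.induction_on with
  | empty => exact ⟨0, by simpa using LipschitzWith.const (0:ℝ)⟩
  | insert a s ha ih =>
    obtain ⟨C, hC⟩ := ih fun i hi => h i (mem_insert_of_mem hi)
    obtain ⟨D, hD⟩ := h a (mem_insert_self a s)
    refine ⟨D + C, ?_⟩
    simp only [sum_insert ha]
    exact hD.add hC

theorem lip_Uk (k : ℕ) : ∃ C : NNReal, LipschitzWith C (Uk k) := by
  unfold Uk
  apply lip_sum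
  intro i _
  unfold ug
  apply lip_sum
  intro j _
  exact (uu_all i j).2.2.2.2

theorem lip_Hk (k : ℕ) : ∃ C : NNReal, LipschitzWith C (Hk k) := by
  unfold Hk
  apply lip_mul
  · apply lip_mul ⟨1, lip_XX⟩ ⟨1, lip_VV⟩
    · intro z
      rw [abs_of_nonneg (XX_bounds z).1]
      exact (XX_bounds z).2
    · intro z
      rw [abs_of_nonneg (VV_bounds z).1]
      exact (VV_bounds z).2.1
  · obtain ⟨C, hC⟩ := lip_Uk k
    refine ⟨0 + C, ?_⟩
    exact (LipschitzWith.const (1:ℝ)).sub hC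
  · intro z
    have h1 := XX_bounds z
    have h2 := VV_bounds z
    rw [abs_of_nonneg (mul_nonneg h1.1 h2.1)]
    nlinarith
  · intro z
    have h1 := (bounds z).2.1 k
    rw [abs_le]
    constructor <;> linarith

theorem Hk_bound (k : ℕ) (z : ℂ) : |Hk k z| ≤ 1 := by
  unfold Hk
  have h1 := XX_bounds z
  have h2 := VV_bounds z
  have h3 := (bounds z).2.1 k
  have h4 : 0 ≤ 1 - Uk k z := by linarith
  have h5 : XX z * VV z ≤ 1 := by nlinarith
  have h6 : 0 ≤ XX z * VV z := mul_nonneg h1.1 h2.1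
  rw [abs_of_nonneg (mul_nonneg h6 h4)]
  nlinarith

theorem HH_nonneg (z : ℂ) : 0 ≤ HH z := by
  unfold HH
  have h1 := XX_bounds z
  have h2 := VV_bounds z
  have h3 := (bounds z).1
  have h4 : 0 ≤ 1 - UU z := by linarith
  exact mul_nonneg (mul_nonneg h1.1 h2.1) h4

theorem HH_le_VV (z : ℂ) : HH z ≤ VV z := by
  unfold HH
  have h1 := XX_bounds z
  have h2 := VV_bounds z
  have h3 := (bounds z).1
  have h5 : XX z * VV z ≤ VV z := by nlinarith
  have h6 : 0 ≤ XX z * VV z := mul_nonneg h1.1 h2.1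
  nlinarith

theorem len_anti {i k : ℕ} (h : k ≤ i) : len i ≤ len k := by
  unfold len
  exact pow_le_pow_of_le_one (by norm_num) (by norm_num) (by omega)

theorem ug_far {i k : ℕ} (hk : k ≤ i) {w : ℂ} (hw : 3 * len k < ‖w - 1‖) : ug i w = 0 := by
  unfold ug
  apply sum_eq_zero
  intro j hj
  by_contra hc
  have h1 := near_one i j (mem_range.1 hj) w (uu_near hc)
  have h2 := len_anti hk
  linarith

theorem Uk_far {K k : ℕ} (hk : K ≤ k) {w : ℂ} (hw : 3 * len K < ‖w - 1‖) : Uk k w = UU w := by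
  unfold Uk UU
  rw [tsum_eq_sum (s := range k)]
  intro i hi
  rw [mem_range, not_lt] at hi
  exact ug_far (hk.trans hi) hw

theorem Hk_far {K k : ℕ} (hk : K ≤ k) {w : ℂ} (hw : 3 * len K < ‖w - 1‖) : Hk k w = HH w := by
  unfold Hk HH
  rw [Uk_far hk hw]

theorem exists_len_small {d : ℝ} (hd : 0 < d) : ∃ K, 3 * len K < d := by
  obtain ⟨n, hn⟩ := exists_pow_lt_of_lt_one (show (0:ℝ) < d / 3 by positivity)
    (by norm_num : (1:ℝ) / 2 < 1)
  refine ⟨n, ?_⟩
  unfold len
  rw [pow_succ]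
  have : (0:ℝ) < (1 / 2) ^ n := by positivity
  linarith

/-- locally the partial functions are eventually equal to the full one -/
theorem loc_eq {z : ℂ} (hz : z ≠ 1) : ∃ K, ∀ k, K ≤ k → HH =ᶠ[nhds z] Hk k := by
  have hd : 0 < ‖z - 1‖ := norm_pos_iff.2 (sub_ne_zero.2 hz)
  obtain ⟨K, hK⟩ := exists_len_small hd
  refine ⟨K, fun k hk => ?_⟩
  have hopen : IsOpen {w : ℂ | 3 * len K < ‖w - 1‖} :=
    isOpen_lt continuous_const (by fun_prop)
  filter_upwards [hopen.mem_nhds hK] with w hw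
  exact (Hk_far hk hw).symm

theorem HH_cont : Continuous HH := by
  rw [continuous_iff_continuousAt]
  intro z
  by_cases hz : z = 1
  · subst hz
    have h0 : HH 1 = 0 := by
      have h1 := HH_le_VV 1
      have h2 := HH_nonneg 1
      have h3 := (VV_bounds 1).2.2
      simp only [sub_self, norm_zero] at h3
      linarith
    unfold ContinuousAt
    rw [h0]
    have h4 : Filter.Tendsto (fun w : ℂ => ‖w - 1‖) (nhds 1) (nhds 0) := by
      have : Continuous fun w : ℂ => ‖w - 1‖ := by fun_prop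
      have h5 := this.tendsto 1
      simpa using h5
    exact squeeze_zero HH_nonneg (fun w => (HH_le_VV w).trans (VV_bounds w).2.2) h4
  · obtain ⟨K, hK⟩ := loc_eq hz
    obtain ⟨C, hC⟩ := lip_Hk K
    exact (hC.continuous.continuousAt).congr (hK K le_rfl).symm

theorem HH_zero_far {z : ℂ} (h : 3 ≤ ‖z‖) : HH z = 0 := by
  unfold HH
  rw [XX_zero h]
  ring

theorem HH_memLp : MeasureTheory.MemLp HH 2 := by
  apply HH_cont.memLp_of_hasCompactSupport
  apply HasCompactSupport.intro (isCompact_closedBall (0:ℂ) 3)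
  intro z hz
  apply HH_zero_far
  rw [mem_closedBall_zero_iff, not_le] at hz
  exact hz.le

theorem G_lim : ∀ᵐ z : ℂ, Filter.Tendsto (fun k => fderiv ℝ (Hk k) z) Filter.atTop
    (nhds (fderiv ℝ HH z)) := by
  have h1 : ∀ᵐ z : ℂ, z ≠ 1 := by
    rw [MeasureTheory.ae_iff]
    simp
  filter_upwards [h1] with z hz
  obtain ⟨K, hK⟩ := loc_eq hz
  apply tendsto_const_nhds.congr'
  filter_upwards [Filter.eventually_ge_atTop K] with k hk
  exact (hK k hk).fderiv_eq

theorem G_memLp : MeasureTheory.MemLp (fderiv ℝ HH) 2 := by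
  obtain ⟨g, hg, hdom⟩ := grad_dom
  apply hg.mono (measurable_fderiv ℝ HH).aestronglyMeasurable
  rw [← MeasureTheory.ae_all_iff] at hdom
  filter_upwards [hdom, G_lim] with z h1 h2
  have h3 : ‖fderiv ℝ HH z‖ ≤ g z := le_of_tendsto h2.norm (Filter.Eventually.of_forall h1)
  exact h3.trans (le_abs_self _)

theorem weak_HH (φ : ℂ → ℝ) (hφ : ContDiff ℝ 1 φ) (hφc : HasCompactSupport φ) (v : ℂ) :
    ∫ z, HH z * fderiv ℝ φ z v = - ∫ z, fderiv ℝ HH z v * φ z := by
  obtain ⟨g, hg, hdom⟩ := grad_dom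
  apply weak_lim HH Hk (fderiv ℝ HH) g 1 lip_Hk Hk_bound ?_ hg hdom G_lim φ hφ hφc v
  apply Filter.Eventually.of_forall
  intro z
  unfold Hk HH
  exact (tendsto_const_nhds.sub (bounds z).2.2).const_mul _

theorem HH_zero_on : ∀ z ∈ EE, HH z = 0 := by
  intro z hz
  unfold EE at hz
  rcases hz with hz | hz
  · rw [Set.mem_singleton_iff] at hz
    have h1 := HH_le_VV z
    have h2 := HH_nonneg z
    have h3 := (VV_bounds z).2.2
    rw [hz, sub_self, norm_zero, ← hz] at h3
    linarith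
  · rw [Set.mem_iUnion] at hz
    obtain ⟨i, hi⟩ := hz
    rw [Set.mem_iUnion₂] at hi
    obtain ⟨j, hj, hz⟩ := hi
    have h1 : uu i j z = 1 := (uu_all i j).2.2.1 z hz
    have hj' := Finset.mem_range.1 hj
    rcases point_cases z with h | ⟨i0, j0, hj0, h0, h⟩
    · have := h i j hj'
      rw [h1] at this
      norm_num at this
    · have h2 : i = i0 ∧ j = j0 := by
        by_contra hc
        rw [not_and_or] at hc
        have := h i j hj' hc
        rw [h1] at this
        norm_num at this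
      obtain ⟨_, _, h3⟩ := sums_one hj0 h
      unfold HH
      rw [h3, ← h2.1, ← h2.2, h1]
      ring

theorem one_sub_UU_pos {z : ℂ} (hz : z ∉ EE) : 0 < 1 - UU z := by
  rcases point_cases z with h | ⟨i0, j0, hj0, h0, h⟩
  · obtain ⟨_, _, h3⟩ := sums_zero h
    rw [h3]; norm_num
  · obtain ⟨_, _, h3⟩ := sums_one hj0 h
    rw [h3]
    have h4 : z ∉ ee '' Ecell i0 j0 := by
      intro hc
      apply hz
      unfold EE
      refine Or.inr ?_
      rw [Set.mem_iUnion]
      refine ⟨i0, ?_⟩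
      rw [Set.mem_iUnion₂]
      exact ⟨j0, Finset.mem_range.2 hj0, hc⟩
    have := (uu_all i0 j0).2.2.2.1 z h4
    linarith

theorem HH_pos {t : ℝ} (ht : ee t ∉ EE) : 0 < HH (ee t) := by
  unfold HH
  have h1 : XX (ee t) = 1 := XX_one (by rw [nee]; norm_num)
  have h2 : 0 < VV (ee t) := by
    unfold VV
    apply lt_min one_pos
    rw [norm_pos_iff, sub_ne_zero]
    intro hc
    apply ht
    unfold EE
    rw [hc]
    exact Or.inl rfl
  have h3 := one_sub_UU_pos ht
  rw [h1]
  positivity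

theorem log_split {t : ℝ} (ht : ee t ∉ EE) :
    ENNReal.ofReal (-Real.log (HH (ee t))) ≤ ENNReal.ofReal (-Real.log (VV (ee t))) +
      ∑' i, ∑ j ∈ range (Nc i), ENNReal.ofReal (-Real.log (1 - uu i j (ee t))) := by
  have h1 : XX (ee t) = 1 := XX_one (by rw [nee]; norm_num)
  have h2 : 0 < VV (ee t) := by
    unfold VV
    apply lt_min one_pos
    rw [norm_pos_iff, sub_ne_zero]
    intro hc
    apply ht
    unfold EE
    rw [hc]
    exact Or.inl rfl
  have h3 := one_sub_UU_pos ht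
  have h4 : -Real.log (HH (ee t)) = -Real.log (VV (ee t)) + -Real.log (1 - UU (ee t)) := by
    unfold HH
    rw [h1, one_mul, Real.log_mul h2.ne' h3.ne']
    ring
  rw [h4]
  refine ENNReal.ofReal_add_le.trans ?_
  gcongr
  rcases point_cases (ee t) with h | ⟨i0, j0, hj0, h0, h⟩
  · obtain ⟨_, _, h5⟩ := sums_zero h
    rw [h5]
    simp
  · obtain ⟨_, _, h5⟩ := sums_one hj0 h
    rw [h5]
    refine le_trans ?_ (ENNReal.le_tsum i0)
    exact Finset.single_le_sum (f := fun j => ENNReal.ofReal (-Real.log (1 - uu i0 j (ee t))))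
      (fun _ _ => zero_le) (mem_range.2 hj0)

theorem uu_meas (i j : ℕ) : Measurable (uu i j) := by
  obtain ⟨C, hC⟩ := (uu_all i j).2.2.2.2
  exact hC.continuous.measurable

theorem HH_log : MeasureTheory.IntegrableOn (fun t : ℝ => Real.log (HH (ee t)))
    (Set.Ioc (-Real.pi) Real.pi) := by
  obtain ⟨C, hC, hcell⟩ := cell_log
  have hm : Measurable fun t : ℝ => Real.log (HH (ee t)) :=
    Real.measurable_log.comp (HH_cont.comp cee).measurable
  have hlin : ∫⁻ t in Set.Ioc (-Real.pi) Real.pi, ENNReal.ofReal (-Real.log (HH (ee t))) < ⊤ := by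
    have hmono : ∫⁻ t in Set.Ioc (-Real.pi) Real.pi, ENNReal.ofReal (-Real.log (HH (ee t))) ≤
        ∫⁻ t in Set.Ioc (-Real.pi) Real.pi, (ENNReal.ofReal (-Real.log (VV (ee t))) +
          ∑' i, ∑ j ∈ range (Nc i), ENNReal.ofReal (-Real.log (1 - uu i j (ee t)))) := by
      apply MeasureTheory.lintegral_mono_ae
      rw [MeasureTheory.ae_restrict_iff' measurableSet_Ioc]
      filter_upwards [EE_facts.2.2] with t ht htm
      exact log_split (ht htm)
    refine lt_of_le_of_lt hmono ?_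
    have hmV : Measurable fun t : ℝ => ENNReal.ofReal (-Real.log (VV (ee t))) :=
      ((Real.measurable_log.comp (lip_VV.continuous.comp cee).measurable).neg).ennreal_ofReal
    rw [MeasureTheory.lintegral_add_left hmV]
    have hmu : ∀ i j, Measurable fun t : ℝ => ENNReal.ofReal (-Real.log (1 - uu i j (ee t))) := by
      intro i j
      exact ((Real.measurable_log.comp (measurable_const.sub
        ((uu_meas i j).comp cee.measurable))).neg).ennreal_ofReal
    rw [MeasureTheory.lintegral_tsum (fun i =>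
      (Finset.measurable_sum _ fun j _ => hmu i j).aemeasurable)]
    apply ENNReal.add_lt_top.2 ⟨V_log, ?_⟩
    have hsum : ∀ i, ∫⁻ t in Set.Ioc (-Real.pi) Real.pi,
        ∑ j ∈ range (Nc i), ENNReal.ofReal (-Real.log (1 - uu i j (ee t))) ≤
        ENNReal.ofReal (C * (1 / 2) ^ (i + 1)) := by
      intro i
      rw [MeasureTheory.lintegral_finsetSum _ (fun j _ => hmu i j)]
      calc ∑ j ∈ range (Nc i), ∫⁻ t in Set.Ioc (-Real.pi) Real.pi,
            ENNReal.ofReal (-Real.log (1 - uu i j (ee t)))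
          ≤ ∑ j ∈ range (Nc i), ENNReal.ofReal (C * dl i) :=
            sum_le_sum fun j hj => hcell i j (mem_range.1 hj)
        _ = ENNReal.ofReal (C * (1 / 2) ^ (i + 1)) := by
            rw [sum_const, card_range, nsmul_eq_mul]
            have h5 : ((Nc i : ℕ) : ENNReal) = ENNReal.ofReal (Nc i : ℝ) := by
              rw [ENNReal.ofReal_natCast]
            rw [h5, ← ENNReal.ofReal_mul (by positivity)]
            congr 1
            obtain ⟨-, -, -, -, -, -, -, -, -, -, -, -, -, -, -, -, -, -, h19, -⟩ := params i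
            have h6 : (Nc i : ℝ) * (C * dl i) = C * (dl i * Nc i) := by ring
            rw [h6, h19]
            rfl
    refine lt_of_le_of_lt (ENNReal.tsum_le_tsum hsum) ?_
    have hs : Summable fun i : ℕ => C * (1 / 2 : ℝ) ^ (i + 1) := by
      apply Summable.mul_left
      exact (summable_nat_add_iff 1).2 summable_geometric_two
    rw [← ENNReal.ofReal_tsum_of_nonneg (fun i => by positivity) hs]
    exact ENNReal.ofReal_lt_top
  have hneg : MeasureTheory.IntegrableOn (fun t : ℝ => -Real.log (HH (ee t)))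
      (Set.Ioc (-Real.pi) Real.pi) := by
    refine ⟨hm.neg.aestronglyMeasurable, ?_⟩
    rw [MeasureTheory.hasFiniteIntegral_iff_ofReal]
    · exact hlin
    · apply Filter.Eventually.of_forall
      intro t
      have h1 : HH (ee t) ≤ 1 := (HH_le_VV _).trans (VV_bounds _).2.1
      have h2 := Real.log_nonpos (HH_nonneg _) h1
      show 0 ≤ -Real.log (HH (ee t))
      linarith
  have := hneg.neg
  simpa using this


end Pool.Agent.Helper655.DU.Fin
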