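import Mathlib
import Pool.Agent.Helper655.DUDefs
import Pool.Agent.Helper655.DUDefs2
import Pool.Agent.Helper655.DUA1
import Pool.Agent.Helper655.DUA2
import Pool.Agent.Helper655.DUA3
import Pool.Agent.Helper655.DUA5
import Pool.Agent.Helper655.DUA6
import Pool.Agent.Helper655.DUA10

set_option autoImplicit false
open Finset
open Pool.Agent.Helper655.BD (mean ee PS)

namespace Pool.Agent.Helper655.DU.Uniq

open Pool.Agent.Helper655.DU.A1 (coeff_energy)
open Pool.Agent.Helper655.DU.A2 (strip_energy)
open Pool.Agent.Helper655.DU.A3 (mean_diff)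
open Pool.Agent.Helper655.DU.A5 (piece)
open Pool.Agent.Helper655.DU.A6 (submean_an)
open Pool.Agent.Helper655.DU.A10 (block)
theorem exp_lt_one' {x : ℝ} (h : x < 0) : Real.exp x < 1 := Real.exp_lt_one_iff.2 h

theorem len_pos (i : ℕ) : 0 < len i := by unfold len; positivity

theorem len_le (i : ℕ) : len i ≤ 1 / 2 := by
  unfold len
  rw [pow_succ]
  have : ((1:ℝ) / 2) ^ i ≤ 1 := pow_le_one₀ (by norm_num) (by norm_num)
  linarith

theorem Nc_pos (i : ℕ) : 0 < Nc i := by unfold Nc; positivity

theorem Qc_pos (i : ℕ) : 0 < Qc i := by unfold Qc; positivity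

theorem Nc_ge (i : ℕ) : 16 ≤ Nc i := by
  unfold Nc
  have h : 4 ≤ 4 ^ (i + 2) := by
    calc 4 = 4 ^ 1 := by norm_num
      _ ≤ 4 ^ (i + 2) := Nat.pow_le_pow_right (by norm_num) (by omega)
  calc 16 = 2 ^ 4 := by norm_num
    _ ≤ 2 ^ (4 ^ (i + 2)) := Nat.pow_le_pow_right (by norm_num) h

theorem Nc_lt_Qc (i : ℕ) : Nc i < Qc i := by
  unfold Qc
  have h1 : Nc i ≤ 2 ^ i * Nc i := Nat.le_mul_of_pos_left _ (by positivity)
  calc Nc i < 2 ^ (Nc i) := Nat.lt_two_pow_self
    _ ≤ 2 ^ (2 ^ i * Nc i) := Nat.pow_le_pow_right (by norm_num) h1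

theorem sg_pos (i : ℕ) : 0 < sg i := by
  unfold sg
  have := len_pos i
  have := Nc_pos i
  have := Qc_pos i
  positivity

/-- `2^Q sg = δ/Q` -/
theorem sg_mul (i : ℕ) : ((2 ^ Qc i : ℕ) : ℝ) * sg i = len i / Nc i / Qc i := by
  unfold sg
  push_cast
  field_simp

theorem sqrt_ge (i : ℕ) : (Nc i : ℝ) ≤ Real.sqrt (2 ^ Qc i) := by
  apply Real.le_sqrt_of_sq_le
  have h1 : 2 * 4 ^ (i + 2) ≤ Qc i := by
    have h2 : 2 * 4 ^ (i + 2) ≤ Nc i := by
      unfold Nc
      have h3 : ∀ n : ℕ, 4 ≤ n → 2 * n ≤ 2 ^ n := by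
        intro n hn
        induction n, hn using Nat.le_induction with
        | base => norm_num
        | succ n _ ih => rw [pow_succ]; omega
      apply h3
      calc 4 = 4 ^ 1 := by norm_num
        _ ≤ 4 ^ (i + 2) := Nat.pow_le_pow_right (by norm_num) (by omega)
    exact h2.trans (Nc_lt_Qc i).le
  have h4 : ((Nc i : ℝ)) ^ 2 = 2 ^ (2 * 4 ^ (i + 2)) := by
    unfold Nc
    push_cast
    rw [← pow_mul, mul_comm]
  rw [h4]
  exact pow_le_pow_right₀ (by norm_num) h1

theorem ee_norm (t : ℝ) : ‖ee t‖ = 1 := by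
  unfold ee
  exact Complex.norm_exp_ofReal_mul_I t

theorem ee_cont : Continuous ee := by
  unfold ee
  fun_prop

theorem hp_apply (f : ℂ → ℂ) (x y : ℝ) :
    hp f ((x : ℂ) + y * Complex.I) = f (Real.exp (-y) * ee x) := by
  unfold hp ee
  congr 1
  rw [Complex.ofReal_exp, ← Complex.exp_add]
  congr 1
  push_cast
  linear_combination (y : ℂ) * Complex.I_mul_I

theorem hp_diff (f : ℂ → ℂ) (hf : DifferentiableOn ℂ f (Metric.ball (0:ℂ) 1)) :
    DifferentiableOn ℂ (hp f) {w : ℂ | 0 < w.im} := by
  unfold hp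
  apply hf.comp
  · fun_prop
  · intro w hw
    rw [mem_ball_zero_iff, Complex.norm_exp]
    have : (Complex.I * w).re = - w.im := by simp
    rw [this]
    exact exp_lt_one' (by simpa using hw)

/-- radial limits of the disc function become vertical limits -/
theorem hp_lim (f : ℂ → ℂ) (x : ℝ)
    (h : Filter.Tendsto (fun r : ℝ => f (r * ee x)) (nhdsWithin 1 (Set.Iio 1)) (nhds 0)) :
    Filter.Tendsto (fun y : ℝ => hp f ((x : ℂ) + y * Complex.I)) (nhdsWithin 0 (Set.Ioi 0))
      (nhds 0) := by
  have h1 : Filter.Tendsto (fun y : ℝ => Real.exp (-y)) (nhdsWithin 0 (Set.Ioi 0))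
      (nhdsWithin 1 (Set.Iio 1)) := by
    apply tendsto_nhdsWithin_iff.2
    constructor
    · have : Continuous fun y : ℝ => Real.exp (-y) := by fun_prop
      have h2 := this.tendsto 0
      simp only [neg_zero, Real.exp_zero] at h2
      exact h2.mono_left nhdsWithin_le_nhds
    · filter_upwards [self_mem_nhdsWithin] with y hy
      exact exp_lt_one' (by simpa using hy)
  refine (h.comp h1).congr ?_
  intro y
  simp only [Function.comp]
  rw [hp_apply]

/-- the blockwise estimate -/
theorem block_est (f : ℂ → ℂ) (hf : DifferentiableOn ℂ f (Metric.ball (0:ℂ) 1))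
    (hE : ∫⁻ z in Metric.ball (0:ℂ) 1, ‖deriv f z‖ₑ ^ 2 < ⊤)
    (hz : ∀ ζ ∈ EE, Filter.Tendsto (fun r : ℝ => f (r * ζ)) (nhdsWithin 1 (Set.Iio 1)) (nhds 0)) :
    ∃ C A : ℝ, 0 < C ∧ (∀ i, ∫ t in (len i)..(2 * len i),
        ‖f (Real.exp (-(len i / Nc i)) * ee t)‖ ^ 2 ≤ C * len i / Nc i) ∧
      (∀ R : ℝ, 0 < R → R < 1 → mean (fun t => ‖f (R * ee t)‖ ^ 2) ≤ A) := by
  obtain ⟨a, ha, hs, hS⟩ := coeff_energy f hf hE
  obtain ⟨hm1, hm2⟩ := mean_diff f a ha hs hS
  set D : ℝ := ∑' n : ℕ, (n:ℝ) * ‖a n‖ ^ 2 with hD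
  have hD0 : 0 ≤ D := tsum_nonneg fun n => by positivity
  set T : ENNReal := ∫⁻ w in {w : ℂ | w.re ∈ Set.Ioo (-Real.pi) Real.pi ∧ 0 < w.im},
    ‖deriv (hp f) w‖ₑ ^ 2 with hT
  have hTt : T < ⊤ := lt_of_le_of_lt (strip_energy f hf) hE
  set E : ℝ := T.toReal + 1 with hEd
  have hE0 : 0 < E := by positivity
  have hTE : T ≤ ENNReal.ofReal E := by
    rw [← ENNReal.ofReal_toReal hTt.ne]
    exact ENNReal.ofReal_le_ofReal (by rw [hEd]; linarith)
  refine ⟨10 ^ 6 * E + 2000 * D, ‖a 0‖ ^ 2 + D, by positivity, ?_, hm2⟩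
  intro i
  have hl := len_pos i
  have hl2 := len_le i
  have hNr : (0:ℝ) < Nc i := by exact_mod_cast Nc_pos i
  have hN16 : (16:ℝ) ≤ Nc i := by exact_mod_cast Nc_ge i
  have hQr : (0:ℝ) < Qc i := by exact_mod_cast Qc_pos i
  have hQ16 : (16:ℝ) ≤ Qc i := by
    exact_mod_cast (Nc_ge i).trans (Nc_lt_Qc i).le
  have hsg := sg_pos i
  have hδ : 0 < len i / Nc i := by positivity
  have hδ' : len i / Nc i ≤ 1 / 32 := by
    rw [div_le_iff₀ hNr]
    nlinarith
  have hQδ : len i / Nc i / Qc i ≤ len i / Nc i / 16 := by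
    apply div_le_div_of_nonneg_left hδ.le (by norm_num) hQ16
  have hsgle : sg i ≤ len i / Nc i / Qc i := by
    unfold sg
    apply div_le_self (by positivity)
    exact one_le_pow₀ (by norm_num)
  have hsgδ : sg i ≤ len i / Nc i := by
    refine hsgle.trans (div_le_self hδ.le ?_)
    linarith
  have key := block f hf (len i) E D (Nc i) (Qc i) hl hl2 (Nc_pos i)
    (by exact_mod_cast (by linarith : (2:ℝ) ≤ Qc i)) hE0 ?_ ?_
  · refine key.trans ?_
    have hsq := sqrt_ge i
    have h1 : 10 ^ 6 * E / Real.sqrt (2 ^ Qc i) ≤ 10 ^ 6 * E / Nc i :=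
      div_le_div_of_nonneg_left (by positivity) hNr hsq
    calc len i * (10 ^ 6 * E / Real.sqrt (2 ^ Qc i)) + 2000 * (len i / Nc i) * D
        ≤ len i * (10 ^ 6 * E / Nc i) + 2000 * (len i / Nc i) * D := by gcongr
      _ = (10 ^ 6 * E + 2000 * D) * len i / Nc i := by ring
  · intro j hj
    have hjr : (j:ℝ) + 1 ≤ Nc i := by exact_mod_cast hj
    have hcen0 : 0 < cen i j := by unfold cen; positivity
    have hcen1 : cen i j ≤ 2 * len i := by
      unfold cen
      have h1 : ((j:ℝ) + 1 / 2) * (len i / Nc i) ≤ Nc i * (len i / Nc i) := by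
        gcongr
        linarith
      have h2 : (Nc i : ℝ) * (len i / Nc i) = len i := by field_simp
      linarith
    have hpi := Real.pi_gt_three
    have hp1 := piece (hp f) (hp_diff f hf) (cen i j) (sg i) (2 ^ Qc i) hsg (by positivity)
      (by nlinarith) (by rw [sg_mul]; nlinarith) (by
        intro k hk κ hκ
        apply hp_lim
        apply hz
        refine Set.mem_union_right _ ?_
        rw [Set.mem_iUnion]
        refine ⟨i, ?_⟩
        rw [Set.mem_iUnion₂]
        exact ⟨j, Finset.mem_range.2 hj, ⟨_, ⟨k, hk, κ, hκ, rfl⟩, rfl⟩⟩)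
    rw [sg_mul] at hp1
    have e1 : len i + ((j:ℝ) + 1 / 2) * (len i / Nc i) = cen i j := rfl
    rw [e1]
    have e2 : len i / ↑(Nc i) / ↑(Qc i) / 2 ^ Qc i = sg i := rfl
    rw [e2]
    have hcont : Continuous fun s : ℝ => ‖f (Real.exp (-sg i) * ee s)‖ ^ 2 := by
      apply Continuous.pow
      apply Continuous.norm
      apply hf.continuousOn.comp_continuous
      · exact continuous_const.mul ee_cont
      · intro s
        rw [mem_ball_zero_iff, norm_mul, ee_norm, mul_one, Complex.norm_real, Real.norm_eq_abs,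
          Real.abs_exp]
        exact exp_lt_one' (by linarith)
    have hle : cen i j ≤ cen i j + len i / Nc i / Qc i := by
      have : 0 < len i / Nc i / Qc i := by positivity
      linarith
    rw [intervalIntegral.integral_of_le hle, ← MeasureTheory.integral_Icc_eq_integral_Ioc]
    have h2 : ENNReal.ofReal (∫ s in Set.Icc (cen i j) (cen i j + len i / Nc i / Qc i),
        ‖f (Real.exp (-sg i) * ee s)‖ ^ 2) ≤ ENNReal.ofReal (2400 * sg i * E) := by
      rw [MeasureTheory.ofReal_integral_eq_lintegral_ofReal]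
      · have h3 : ∀ s : ℝ, ENNReal.ofReal (‖f (Real.exp (-sg i) * ee s)‖ ^ 2) =
            ‖hp f ((s:ℂ) + sg i * Complex.I)‖ₑ ^ 2 := by
          intro s
          rw [hp_apply, ENNReal.ofReal_pow (norm_nonneg _), ofReal_norm]
        simp only [h3]
        refine hp1.trans ?_
        rw [ENNReal.ofReal_mul (by positivity : (0:ℝ) ≤ 2400 * sg i)]
        gcongr
      · exact hcont.continuousOn.integrableOn_compact isCompact_Icc
      · exact Filter.Eventually.of_forall fun s => by positivity
    exact (ENNReal.ofReal_le_ofReal_iff (by positivity)).1 h2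
  · have e2 : len i / ↑(Nc i) / ↑(Qc i) / 2 ^ Qc i = sg i := rfl
    rw [e2]
    have h3 := hm1 (Real.exp (-(len i / Nc i))) (Real.exp (-sg i)) (Real.exp_pos _)
      (Real.exp_le_exp.2 (by linarith)) (exp_lt_one' (by linarith))
    refine h3.trans ?_
    have h4 : Real.log (Real.exp (-sg i) / Real.exp (-(len i / Nc i))) ≤ len i / Nc i := by
      rw [← Real.exp_sub, Real.log_exp]
      linarith
    gcongr

theorem uniq (f : ℂ → ℂ) (hf : DifferentiableOn ℂ f (Metric.ball (0:ℂ) 1))
    (hE : ∫⁻ z in Metric.ball (0:ℂ) 1, ‖deriv f z‖ₑ ^ 2 < ⊤)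
    (hz : ∀ ζ ∈ EE, Filter.Tendsto (fun r : ℝ => f (r * ζ)) (nhdsWithin 1 (Set.Iio 1)) (nhds 0)) :
    ∀ z ∈ Metric.ball (0:ℂ) 1, f z = 0 := by
  obtain ⟨C, A, hC, hblk, hA⟩ := block_est f hf hE hz
  -- it is enough to treat small z
  have hsmall : ∀ z : ℂ, ‖z‖ ≤ 1 / 2 → f z = 0 := by
    intro z0 hz0
    by_contra hne
    set r0 := ‖z0‖ with hr0
    obtain ⟨t0, ht0⟩ : ∃ t0 : ℝ, z0 = r0 * ee t0 := by
      refine ⟨z0.arg, ?_⟩
      unfold ee
      exact (Complex.norm_mul_exp_arg_mul_I z0).symm
    have hr00 : 0 ≤ r0 := norm_nonneg _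
    -- main inequality for every i
    have main : ∀ i, 2 * Real.log ‖f z0‖ ≤ 5 * (C + 1) + 5 * (A + 1) -
        (1 / 40) * (len i * Real.log (Nc i)) := by
      intro i
      have hl := len_pos i
      have hl2 := len_le i
      have hNr : (0:ℝ) < Nc i := by exact_mod_cast Nc_pos i
      have hN16 : (16:ℝ) ≤ Nc i := by exact_mod_cast Nc_ge i
      have hδ : 0 < len i / Nc i := by positivity
      have hδ' : len i / Nc i ≤ 1 / 32 := by
        rw [div_le_iff₀ hNr]
        nlinarith
      set R : ℝ := Real.exp (-(len i / Nc i)) with hR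
      have hR1 : R < 1 := exp_lt_one' (by linarith)
      have hR34 : 3 / 4 ≤ R := by
        have := Real.add_one_le_exp (-(len i / Nc i))
        rw [← hR] at this
        linarith
      have hR0 : 0 < R := Real.exp_pos _
      set τ : ℝ := 1 / Nc i with hτ
      have hτ0 : 0 < τ := by positivity
      have hτ1 : τ ≤ 1 := by
        rw [hτ, div_le_one hNr]
        linarith
      set ρ : ℝ := r0 / R with hρ
      have hρ0 : 0 ≤ ρ := by positivity
      have hρ1 : ρ ≤ 2 / 3 := by
        rw [hρ, div_le_iff₀ hR0]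
        linarith
      have h1 := submean_an f hf τ hτ0 r0 R hr00 (by linarith) hR1 t0
      rw [← ht0] at h1
      set k : ℝ → ℝ := fun s => (1 - ρ ^ 2) / ‖ee s - ρ * ee t0‖ ^ 2 with hk
      have hden : ∀ s, 1 - ρ ≤ ‖ee s - ρ * ee t0‖ ∧ ‖ee s - ρ * ee t0‖ ≤ 1 + ρ := by
        intro s
        have e1 : ‖(ρ:ℂ) * ee t0‖ = ρ := by
          rw [norm_mul, ee_norm, mul_one, Complex.norm_real, Real.norm_eq_abs, abs_of_nonneg hρ0]
        constructor
        · have := norm_sub_norm_le (ee s) (ρ * ee t0)
          rw [ee_norm, e1] at this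
          exact this
        · have := norm_sub_le (ee s) (ρ * ee t0)
          rw [ee_norm, e1] at this
          exact this
      have hk1 : ∀ s, 1 / 5 ≤ k s ∧ k s ≤ 5 := by
        intro s
        obtain ⟨h2, h3⟩ := hden s
        have h4 : 0 < ‖ee s - ρ * ee t0‖ := by linarith
        simp only [hk]
        constructor
        · rw [le_div_iff₀ (by positivity)]
          have h5 : ‖ee s - ρ * ee t0‖ ^ 2 ≤ (1 + ρ) ^ 2 := by gcongr
          nlinarith
        · rw [div_le_iff₀ (by positivity)]
          have h5 : (1 - ρ) ^ 2 ≤ ‖ee s - ρ * ee t0‖ ^ 2 := by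
            apply pow_le_pow_left₀ (by linarith) h2
          nlinarith
      have hkc : Continuous k := by
        simp only [hk]
        apply Continuous.div continuous_const
        · exact ((ee_cont.sub continuous_const).norm).pow 2
        · intro s
          have := (hden s).1
          have h4 : 0 < ‖ee s - ρ * ee t0‖ := by linarith
          positivity
      set φ : ℝ → ℝ := fun s => ‖f (R * ee s)‖ ^ 2 with hφ
      have hfc : Continuous fun s : ℝ => ‖f (R * ee s)‖ := by
        apply Continuous.norm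
        apply hf.continuousOn.comp_continuous
        · exact continuous_const.mul ee_cont
        · intro s
          rw [mem_ball_zero_iff, norm_mul, ee_norm, mul_one, Complex.norm_real, Real.norm_eq_abs,
            abs_of_pos hR0]
          exact hR1
      have hφc : Continuous φ := hfc.pow 2
      have hlogc : Continuous fun s : ℝ => Real.log (max ‖f (R * ee s)‖ τ) := by
        apply Continuous.log
        · exact hfc.max continuous_const
        · intro s
          have : 0 < max ‖f (R * ee s)‖ τ := lt_max_of_lt_right hτ0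
          exact this.ne'
      have hpi := Real.pi_gt_three
      -- pointwise bound of twice the logarithm
      have hpt : ∀ (lam : ℝ), 0 < lam → ∀ s, 2 * Real.log (max ‖f (R * ee s)‖ τ) ≤
          lam * (φ s + τ ^ 2) - 1 - Real.log lam := by
        intro lam hlam s
        set y := max ‖f (R * ee s)‖ τ with hy
        have hy0 : 0 < y := lt_max_of_lt_right hτ0
        have hy2 : y ^ 2 ≤ φ s + τ ^ 2 := by
          rcases le_total ‖f (R * ee s)‖ τ with h | h
          · rw [hy, max_eq_right h]
            simp only [hφ]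
            nlinarith [sq_nonneg ‖f (R * ee s)‖]
          · rw [hy, max_eq_left h]
            simp only [hφ]
            nlinarith [sq_nonneg τ]
        have h2 := Real.log_le_sub_one_of_pos (mul_pos hlam (pow_pos hy0 2))
        rw [Real.log_mul hlam.ne' (pow_pos hy0 2).ne', Real.log_pow] at h2
        push_cast at h2
        nlinarith
      have hlogN : 0 ≤ Real.log (Nc i) := Real.log_nonneg (by linarith)
      -- integrals
      have hPS : PS ρ (fun s => Real.log (max ‖f (R * ee s)‖ τ)) t0 =
          (2 * Real.pi)⁻¹ * ∫ s in (0:ℝ)..(2 * Real.pi), k s * Real.log (max ‖f (R * ee s)‖ τ) := rfl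
      rw [hPS] at h1
      have hI : ∀ a b : ℝ, IntervalIntegrable
          (fun s => k s * (2 * Real.log (max ‖f (R * ee s)‖ τ))) MeasureTheory.volume a b :=
        fun a b => (hkc.mul (hlogc.const_mul 2 |> fun h => by simpa using h)).intervalIntegrable _ _
      have hJ1 : ∀ (lam a b : ℝ), 0 < lam → a ≤ b →
          ∫ s in a..b, k s * (2 * Real.log (max ‖f (R * ee s)‖ τ)) ≤
            ∫ s in a..b, (5 * lam * (φ s + τ ^ 2) - (1 / 5) * max 0 (1 + Real.log lam)
              + 5 * max 0 (- (1 + Real.log lam))) := by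
        intro lam a b hlam hab
        apply intervalIntegral.integral_mono_on hab (hI a b)
        · apply Continuous.intervalIntegrable
          fun_prop
        · intro s _
          have h2 := hpt lam hlam s
          have h3 := hk1 s
          have h4 : 0 ≤ lam * (φ s + τ ^ 2) := by
            simp only [hφ]
            positivity
          have h5 : k s * (2 * Real.log (max ‖f (R * ee s)‖ τ)) ≤
              k s * (lam * (φ s + τ ^ 2)) - k s * (1 + Real.log lam) := by
            nlinarith
          have h6 : k s * (lam * (φ s + τ ^ 2)) ≤ 5 * (lam * (φ s + τ ^ 2)) := by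
            apply mul_le_mul_of_nonneg_right h3.2 h4
          rcases le_total 0 (1 + Real.log lam) with h7 | h7
          · rw [max_eq_right h7, max_eq_left (by linarith : -(1 + Real.log lam) ≤ 0)]
            nlinarith
          · rw [max_eq_left h7, max_eq_right (by linarith : 0 ≤ -(1 + Real.log lam))]
            nlinarith
      -- split the circle
      have hsplit : ∫ s in (0:ℝ)..(2 * Real.pi), k s * (2 * Real.log (max ‖f (R * ee s)‖ τ)) =
          (∫ s in (0:ℝ)..(len i), k s * (2 * Real.log (max ‖f (R * ee s)‖ τ))) +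
          (∫ s in (len i)..(2 * len i), k s * (2 * Real.log (max ‖f (R * ee s)‖ τ))) +
          ∫ s in (2 * len i)..(2 * Real.pi), k s * (2 * Real.log (max ‖f (R * ee s)‖ τ)) := by
        rw [intervalIntegral.integral_add_adjacent_intervals (hI _ _) (hI _ _),
          intervalIntegral.integral_add_adjacent_intervals (hI _ _) (hI _ _)]
      have hφi : ∀ a b : ℝ, IntervalIntegrable φ MeasureTheory.volume a b :=
        fun a b => hφc.intervalIntegrable _ _
      have hφs : (∫ s in (0:ℝ)..(len i), φ s) + (∫ s in (len i)..(2 * len i), φ s) +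
          (∫ s in (2 * len i)..(2 * Real.pi), φ s) = ∫ s in (0:ℝ)..(2 * Real.pi), φ s := by
        rw [intervalIntegral.integral_add_adjacent_intervals (hφi _ _) (hφi _ _),
          intervalIntegral.integral_add_adjacent_intervals (hφi _ _) (hφi _ _)]
      have hφB : 0 ≤ ∫ s in (len i)..(2 * len i), φ s := by
        apply intervalIntegral.integral_nonneg (by linarith)
        intro s _
        simp only [hφ]
        positivity
      have hmean : ∫ s in (0:ℝ)..(2 * Real.pi), φ s ≤ 2 * Real.pi * A := by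
        have h2 := hA R hR0 hR1
        unfold mean at h2
        rw [inv_mul_le_iff₀ (by positivity)] at h2
        exact h2
      have g1 := hJ1 1 0 (len i) one_pos hl.le
      have g3 := hJ1 1 (2 * len i) (2 * Real.pi) one_pos (by linarith)
      have g2 := hJ1 (Nc i) (len i) (2 * len i) hNr (by linarith)
      have hlog1 : Real.log 1 = 0 := Real.log_one
      rw [hlog1] at g1 g3
      have em1 : max (0:ℝ) (1 + 0) = 1 := by norm_num
      have em2 : max (0:ℝ) (-(1 + 0)) = 0 := by norm_num
      rw [em1, em2] at g1 g3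
      rw [max_eq_right (by linarith : (0:ℝ) ≤ 1 + Real.log (Nc i)),
        max_eq_left (by linarith : -(1 + Real.log (Nc i)) ≤ 0)] at g2
      have calcI : ∀ (lam e a b : ℝ), ∫ s in a..b, (5 * lam * (φ s + τ ^ 2) - (1 / 5) * e + 5 * 0) =
          5 * lam * (∫ s in a..b, φ s) + (5 * lam * τ ^ 2 - (1 / 5) * e) * (b - a) := by
        intro lam e a b
        have : (fun s => 5 * lam * (φ s + τ ^ 2) - (1 / 5) * e + 5 * 0) =
            fun s => 5 * lam * φ s + (5 * lam * τ ^ 2 - (1 / 5) * e) := by
          funext s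
          ring
        rw [this, intervalIntegral.integral_add ((hφi a b).const_mul _) (by simp),
          intervalIntegral.integral_const_mul, intervalIntegral.integral_const, smul_eq_mul]
        ring
      rw [calcI] at g1 g2 g3
      have hblki := hblk i
      have hbl2 : (Nc i : ℝ) * ∫ s in (len i)..(2 * len i), φ s ≤ C * len i := by
        have : ∫ s in (len i)..(2 * len i), φ s ≤ C * len i / Nc i := hblki
        calc (Nc i : ℝ) * ∫ s in (len i)..(2 * len i), φ s ≤ Nc i * (C * len i / Nc i) := by gcongr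
          _ = C * len i := by field_simp
      have hτN : (Nc i : ℝ) * τ ^ 2 ≤ 1 := by
        rw [hτ]
        have : (Nc i : ℝ) * (1 / Nc i) ^ 2 = 1 / Nc i := by field_simp
        rw [this]
        exact hτ1
      have hτ2 : τ ^ 2 ≤ 1 := by nlinarith
      have hlogz : 2 * Real.log ‖f z0‖ ≤ 2 * Real.log (max ‖f z0‖ τ) := by
        have : Real.log ‖f z0‖ ≤ Real.log (max ‖f z0‖ τ) :=
          Real.log_le_log (norm_pos_iff.2 hne) (le_max_left _ _)
        linarith
      have hI2 : 2 * ∫ s in (0:ℝ)..(2 * Real.pi), k s * Real.log (max ‖f (R * ee s)‖ τ) =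
          ∫ s in (0:ℝ)..(2 * Real.pi), k s * (2 * Real.log (max ‖f (R * ee s)‖ τ)) := by
        rw [← intervalIntegral.integral_const_mul]
        congr 1
        funext s
        ring
      have htot : 2 * Real.log ‖f z0‖ ≤ (2 * Real.pi)⁻¹ *
          ∫ s in (0:ℝ)..(2 * Real.pi), k s * (2 * Real.log (max ‖f (R * ee s)‖ τ)) := by
        rw [← hI2]
        linarith
      rw [hsplit] at htot
      set I1 := ∫ s in (0:ℝ)..(len i), φ s
      set I2 := ∫ s in (len i)..(2 * len i), φ s
      set I3 := ∫ s in (2 * len i)..(2 * Real.pi), φ s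
      have hsum : (∫ s in (0:ℝ)..(len i), k s * (2 * Real.log (max ‖f (R * ee s)‖ τ))) +
          (∫ s in (len i)..(2 * len i), k s * (2 * Real.log (max ‖f (R * ee s)‖ τ))) +
          ∫ s in (2 * len i)..(2 * Real.pi), k s * (2 * Real.log (max ‖f (R * ee s)‖ τ)) ≤
          2 * Real.pi * (5 * A) + 5 * C + 5 + 2 * Real.pi * 5 - (1 / 5) * len i * Real.log (Nc i) := by
        nlinarith
      have h9 : 2 * Real.log ‖f z0‖ ≤ (2 * Real.pi)⁻¹ *
          (2 * Real.pi * (5 * A) + 5 * C + 5 + 2 * Real.pi * 5 -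
            (1 / 5) * len i * Real.log (Nc i)) := by
        refine htot.trans ?_
        gcongr
      have h10 : (2 * Real.pi)⁻¹ *
          (2 * Real.pi * (5 * A) + 5 * C + 5 + 2 * Real.pi * 5 -
            (1 / 5) * len i * Real.log (Nc i)) =
          5 * A + 5 + (2 * Real.pi)⁻¹ * (5 * C + 5) -
            (2 * Real.pi)⁻¹ * (1 / 5) * (len i * Real.log (Nc i)) := by
        field_simp
        ring
      rw [h10] at h9
      have h11 : (2 * Real.pi)⁻¹ ≤ 1 := by
        rw [inv_le_one₀ (by positivity)]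
        linarith
      have h12 : 1 / 8 ≤ (2 * Real.pi)⁻¹ := by
        rw [one_div, inv_le_inv₀ (by norm_num) (by positivity)]
        have := Real.pi_le_four
        linarith
      have h13 : 0 ≤ len i * Real.log (Nc i) := by positivity
      have h14 : (2 * Real.pi)⁻¹ * (5 * C + 5) ≤ 5 * C + 5 := by
        have : 0 ≤ 5 * C + 5 := by positivity
        nlinarith
      nlinarith
    -- conclusion
    have hlenlog : ∀ i, len i * Real.log (Nc i) = 2 ^ (i + 3) * Real.log 2 := by
      intro i
      unfold len Nc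
      push_cast
      rw [Real.log_pow]
      push_cast
      have : ((1:ℝ) / 2) ^ (i + 1) * (4 ^ (i + 2) * Real.log 2) =
          ((1:ℝ) / 2 * 4) ^ (i + 1) * 4 * Real.log 2 := by
        rw [mul_pow]
        ring
      rw [this]
      norm_num
      ring
    have htop : Filter.Tendsto (fun i : ℕ => (1 / 40 : ℝ) * (2 ^ (i + 3) * Real.log 2))
        Filter.atTop Filter.atTop := by
      apply Filter.Tendsto.const_mul_atTop (by norm_num)
      apply Filter.Tendsto.atTop_mul_const (Real.log_pos (by norm_num))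
      exact (tendsto_pow_atTop_atTop_of_one_lt (by norm_num : (1:ℝ) < 2)).comp
        (Filter.tendsto_add_atTop_nat 3)
    obtain ⟨i, hi⟩ := (htop.eventually_gt_atTop
      (5 * (C + 1) + 5 * (A + 1) - 2 * Real.log ‖f z0‖)).exists
    have := main i
    rw [hlenlog] at this
    linarith
  -- identity theorem
  have hana : AnalyticOnNhd ℂ f (Metric.ball 0 1) := hf.analyticOnNhd Metric.isOpen_ball
  have hev : f =ᶠ[nhds 0] 0 := by
    filter_upwards [Metric.ball_mem_nhds (0:ℂ) (by norm_num : (0:ℝ) < 1 / 2)] with z hz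
    exact hsmall z (mem_ball_zero_iff.1 hz).le
  exact fun z hz => hana.eqOn_zero_of_preconnected_of_eventuallyEq_zero
    (convex_ball (0:ℂ) 1).isPreconnected (Metric.mem_ball_self one_pos) hev hz


end Pool.Agent.Helper655.DU.Uniq
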