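import Mathlib

set_option autoImplicit false

namespace Pool.Agent.Helper655.Split

open MeasureTheory Filter Topology Complex

/-- point of the unit circle -/
noncomputable def pt (θ : ℝ) : ℂ := Complex.exp ((θ : ℂ) * Complex.I)

theorem norm_pt (θ : ℝ) : ‖pt θ‖ = 1 := Complex.norm_exp_ofReal_mul_I θ

theorem pt_ne_zero (θ : ℝ) : pt θ ≠ 0 := Complex.exp_ne_zero _

theorem continuous_pt : Continuous pt := by unfold pt; fun_prop

theorem pt_periodic : Function.Periodic pt (2 * Real.pi) := by
  intro θ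
  unfold pt
  have : (((θ + 2 * Real.pi : ℝ) : ℂ)) * Complex.I = (θ : ℂ) * Complex.I
      + 2 * Real.pi * Complex.I := by push_cast; ring
  rw [this, Complex.exp_add, Complex.exp_two_pi_mul_I, mul_one]

theorem pt_zpow (θ : ℝ) (k : ℤ) : pt θ ^ k = Complex.exp (k * (θ * Complex.I)) := by
  unfold pt
  rw [← Complex.exp_int_mul]

/-- uniform approximation by trigonometric polynomials -/
theorem trig_approx (f : ℂ → ℂ) (hf : Continuous f) (ε : ℝ) (hε : 0 < ε) :
    ∃ c : ℤ →₀ ℂ, ∀ θ : ℝ, ‖f (pt θ) - c.sum (fun k a => a * pt θ ^ k)‖ ≤ ε := by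
  have : Fact (0 < 2 * Real.pi) := ⟨Real.two_pi_pos⟩
  have hper : Function.Periodic (fun θ : ℝ => f (pt θ)) (2 * Real.pi) := by
    intro θ
    simp only
    rw [pt_periodic]
  let F : C(AddCircle (2 * Real.pi), ℂ) :=
    ⟨hper.lift, by
      have hc : Continuous (fun θ : ℝ => f (pt θ)) := hf.comp continuous_pt
      exact continuous_coinduced_dom.mpr hc⟩
  have hF : ∀ θ : ℝ, F (θ : AddCircle (2 * Real.pi)) = f (pt θ) := fun θ => hper.lift_coe θ
  have h1 : F ∈ (Submodule.span ℂ (Set.range (@fourier (2 * Real.pi)))).topologicalClosure := by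
    rw [span_fourier_closure_eq_top]; trivial
  have h2 : F ∈ closure ((Submodule.span ℂ (Set.range (@fourier (2 * Real.pi)))) :
      Set C(AddCircle (2 * Real.pi), ℂ)) := h1
  rw [Metric.mem_closure_iff] at h2
  obtain ⟨g, hg, hgd⟩ := h2 ε hε
  obtain ⟨c, hc⟩ := Finsupp.mem_span_range_iff_exists_finsupp.mp hg
  refine ⟨c, fun θ => ?_⟩
  have h3 : ‖(F - g) (θ : AddCircle (2 * Real.pi))‖ ≤ ‖F - g‖ := ContinuousMap.norm_coe_le_norm _ _
  have h4 : g (θ : AddCircle (2 * Real.pi)) = c.sum (fun k a => a * pt θ ^ k) := by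
    rw [← hc, Finsupp.sum, ContinuousMap.sum_apply, Finsupp.sum]
    apply Finset.sum_congr rfl
    intro k _
    rw [ContinuousMap.smul_apply, fourier_coe_apply, smul_eq_mul, pt_zpow]
    congr 2
    have hpi : (Real.pi : ℂ) ≠ 0 := by exact_mod_cast Real.pi_ne_zero
    push_cast
    field_simp
  rw [ContinuousMap.sub_apply, hF, h4] at h3
  rw [dist_eq_norm] at hgd
  linarith

/-- real parts of polynomials approximate real continuous functions on the circle -/
theorem re_poly_approx (f : ℂ → ℝ) (hf : Continuous f) (ε : ℝ) (hε : 0 < ε) :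
    ∃ q : Polynomial ℂ, ∀ θ : ℝ, |f (pt θ) - (q.eval (pt θ)).re| ≤ ε := by
  obtain ⟨c, hc⟩ := trig_approx (fun z => (f z : ℂ)) (Complex.continuous_ofReal.comp hf) ε hε
  -- polynomial representation of real parts
  have key : ∀ c : ℤ →₀ ℂ, ∃ q : Polynomial ℂ, ∀ θ : ℝ,
      (q.eval (pt θ)).re = (c.sum (fun k a => a * pt θ ^ k)).re := by
    intro c
    induction c using Finsupp.induction with
    | zero => exact ⟨0, fun θ => by simp⟩
    | single_add k a c hk ha ih =>
      obtain ⟨q, hq⟩ := ih
      have hsum : ∀ θ : ℝ, (Finsupp.single k a + c).sum (fun k a => a * pt θ ^ k)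
          = a * pt θ ^ k + c.sum (fun k a => a * pt θ ^ k) := by
        intro θ
        rw [Finsupp.sum_add_index']
        · rw [Finsupp.sum_single_index]
          simp
        · intro k; simp
        · intro k a b; ring
      rcases Int.eq_nat_or_neg k with ⟨n, rfl | rfl⟩
      · refine ⟨Polynomial.monomial n a + q, fun θ => ?_⟩
        rw [hsum, Polynomial.eval_add, Complex.add_re, Complex.add_re, hq,
          Polynomial.eval_monomial, zpow_natCast]
      · refine ⟨Polynomial.monomial n (starRingEnd ℂ a) + q, fun θ => ?_⟩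
        rw [hsum, Polynomial.eval_add, Complex.add_re, Complex.add_re, hq,
          Polynomial.eval_monomial]
        congr 1
        have h1 : a * pt θ ^ (-(n : ℤ)) = starRingEnd ℂ (starRingEnd ℂ a * pt θ ^ n) := by
          rw [map_mul, Complex.conj_conj, map_pow, zpow_neg, zpow_natCast, ← inv_pow]
          congr 2
          rw [Complex.inv_def, Complex.normSq_eq_norm_sq, norm_pt]
          simp
        rw [h1, Complex.conj_re]
  obtain ⟨q, hq⟩ := key c
  refine ⟨q, fun θ => ?_⟩
  rw [hq]
  have h1 := hc θ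
  have h2 := Complex.abs_re_le_norm ((f (pt θ) : ℂ) - c.sum (fun k a => a * pt θ ^ k))
  rw [Complex.sub_re, Complex.ofReal_re] at h2
  exact h2.trans h1

end Pool.Agent.Helper655.Split
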