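import Mathlib
import Pool.Agent.Helper655.K1

set_option autoImplicit false

namespace Pool.Agent.Helper655.Split

open MeasureTheory Filter Topology Complex

/-- the argument in `(0, 2π]` -/
noncomputable def ang (z : ℂ) : ℝ := if Complex.arg z ≤ 0 then Complex.arg z + 2 * Real.pi
  else Complex.arg z

theorem measurable_ang : Measurable ang := by
  unfold ang
  exact Measurable.ite (measurableSet_le Complex.measurable_arg measurable_const)
    (Complex.measurable_arg.add_const _) Complex.measurable_arg

theorem ang_pt {θ : ℝ} (hθ : θ ∈ Set.Ioc 0 (2 * Real.pi)) : ang (pt θ) = θ := by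
  have hpi := Real.pi_pos
  unfold ang pt
  rcases le_or_gt θ Real.pi with h | h
  · have h1 : Complex.arg (Complex.exp ((θ : ℂ) * Complex.I)) = θ := by
      rw [Complex.arg_exp_mul_I, toIocMod_eq_self]
      constructor <;> [linarith [hθ.1]; linarith]
    rw [h1, if_neg (by linarith [hθ.1])]
  · have h1 : Complex.arg (Complex.exp ((θ : ℂ) * Complex.I)) = θ - 2 * Real.pi := by
      have h2 : Complex.exp ((θ : ℂ) * Complex.I)
          = Complex.exp (((θ - 2 * Real.pi : ℝ) : ℂ) * Complex.I) := by
        have : (((θ - 2 * Real.pi : ℝ) : ℂ)) * Complex.I = (θ : ℂ) * Complex.I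
            - 2 * Real.pi * Complex.I := by push_cast; ring
        rw [this, Complex.exp_sub, Complex.exp_two_pi_mul_I, div_one]
      rw [h2, Complex.arg_exp_mul_I, toIocMod_eq_self]
      constructor <;> linarith [hθ.2]
    rw [h1, if_pos (by linarith [hθ.2])]
    ring

/-- L1 approximation by continuous functions on the circle -/
theorem l1_approx (μ0 : Measure ℝ) [IsFiniteMeasure μ0]
    (hμ0 : ∀ᵐ θ ∂μ0, θ ∈ Set.Ioc 0 (2 * Real.pi)) (ψ : ℝ → ℝ) (hψ : Measurable ψ) (M : ℝ)
    (h0 : ∀ θ, 0 ≤ ψ θ) (hM : ∀ θ, ψ θ ≤ M) (ε : ℝ) (hε : 0 < ε) :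
    ∃ f : ℂ → ℝ, Continuous f ∧ (∀ z, 0 ≤ f z) ∧ (∀ z, f z ≤ M) ∧
      ∫⁻ θ, ENNReal.ofReal |ψ θ - f (pt θ)| ∂μ0 ≤ ENNReal.ofReal ε := by
  have hM0 : 0 ≤ M := (h0 0).trans (hM 0)
  have hpt : Measurable pt := continuous_pt.measurable
  have hint : Integrable (ψ ∘ ang) (μ0.map pt) := by
    apply Integrable.mono' (integrable_const M)
    · exact (hψ.comp measurable_ang).aestronglyMeasurable
    · refine Eventually.of_forall (fun z => ?_)
      rw [Function.comp_apply, Real.norm_eq_abs, abs_of_nonneg (h0 _)]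
      exact hM _
  obtain ⟨g, hg, _⟩ := hint.exists_boundedContinuous_lintegral_sub_le
    (ε := ENNReal.ofReal ε) (by simpa using hε)
  refine ⟨fun z => max 0 (min (g z) M), by fun_prop, fun z => le_max_left _ _,
    fun z => max_le hM0 (min_le_right _ _), ?_⟩
  refine le_trans ?_ hg
  rw [lintegral_map' _ hpt.aemeasurable]
  · apply lintegral_mono_ae
    filter_upwards [hμ0] with θ hθ
    rw [Function.comp_apply, ang_pt hθ, ← ofReal_norm, Real.norm_eq_abs]
    apply ENNReal.ofReal_le_ofReal
    have a1 := h0 θ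
    have a2 := hM θ
    rcases le_total (g (pt θ)) M with h | h
    · rw [min_eq_left h]
      rcases le_total 0 (g (pt θ)) with h' | h'
      · rw [max_eq_right h']
      · rw [max_eq_left h', sub_zero, abs_of_nonneg a1, abs_of_nonneg (by linarith)]
        linarith
    · rw [min_eq_right h, max_eq_right hM0, abs_of_nonpos (by linarith),
        abs_of_nonpos (by linarith)]
      linarith
  · apply Measurable.aemeasurable
    apply Measurable.enorm
    exact ((hψ.comp measurable_ang).sub g.continuous.measurable)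

/-- the Poisson formula for polynomials -/
theorem poisson_poly (q : Polynomial ℂ) (z : ℂ) (hz : ‖z‖ < 1) :
    (q.eval z).re = (2 * Real.pi)⁻¹ * ∫ θ in (0 : ℝ)..(2 * Real.pi),
      ((1 - ‖z‖ ^ 2) / ‖pt θ - z‖ ^ 2) * (q.eval (pt θ)).re := by
  have h1 := DiffContOnCl.circleAverage_poissonKernel_smul' (f := fun z => q.eval z) (c := 0)
    (R := 1) (w := z) (q.differentiable.diffContOnCl) (by simpa using hz)
  have h2 := congrArg Complex.re h1
  rw [← h2, Real.circleAverage_def, Complex.real_smul, Complex.re_ofReal_mul]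
  congr 1
  have h3 : ∀ θ : ℝ, circleMap 0 1 θ = pt θ := by
    intro θ; simp [circleMap, pt]
  have hcont : Continuous (fun θ : ℝ => (((‖circleMap 0 1 θ - 0‖ ^ 2 - ‖z - 0‖ ^ 2) /
      ‖circleMap 0 1 θ - 0 - (z - 0)‖ ^ 2) : ℝ) • (q.eval (circleMap 0 1 θ))) := by
    refine Continuous.fun_smul ?_ ?_
    · refine Continuous.div (by fun_prop) (by fun_prop) ?_
      intro θ
      simp only [sub_zero, h3]
      have : pt θ - z ≠ 0 := by
        intro h
        rw [sub_eq_zero] at h
        have := norm_pt θ
        rw [h] at this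
        linarith
      have : 0 < ‖pt θ - z‖ := norm_pos_iff.mpr this
      positivity
    · exact q.continuous.comp (continuous_circleMap 0 1)
  have h4 := Complex.reCLM.intervalIntegral_comp_comm (μ := volume)
    (hcont.intervalIntegrable (μ := volume) 0 (2 * Real.pi))
  rw [← Complex.reCLM_apply, ← h4]
  apply intervalIntegral.integral_congr
  intro θ _
  simp only [Complex.reCLM_apply, Complex.real_smul, Complex.re_ofReal_mul, sub_zero, h3, norm_pt]
  ring_nf

end Pool.Agent.Helper655.Split
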