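import Mathlib
import Pool.Agent.Helper655.K2

set_option autoImplicit false

namespace Pool.Agent.Helper655.Split

open MeasureTheory Filter Topology Complex

/-- negative logarithm in `[0,∞]` -/
noncomputable def nlog (x : ℝ) : ENNReal := if x = 0 then ⊤ else ENNReal.ofReal (-Real.log x)

theorem measurable_nlog : Measurable nlog := by
  unfold nlog
  exact Measurable.ite (measurableSet_singleton 0) measurable_const
    (Real.measurable_log.neg.ennreal_ofReal)

theorem exists_psi (w : ℝ → ℝ) (hw : Measurable w) (hw0 : ∀ θ, 0 ≤ w θ) (a b : ℝ) (ha : 0 ≤ a)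
    (hb : b ≤ 2 * Real.pi)
    (hlog : ∫⁻ θ in Set.Ioo a b, nlog (w θ) = ⊤) :
    ∃ (ψ : ℝ → ℝ) (M : ℝ), Measurable ψ ∧ (∀ θ, 0 ≤ ψ θ) ∧ (∀ θ, ψ θ ≤ M) ∧
      (∀ θ, θ ∉ Set.Ioo a b → ψ θ = 0) ∧ (∫ θ in Set.Ioc 0 (2 * Real.pi), ψ θ) = 1 ∧
      ∀ θ, w θ * Real.exp (2 * ψ θ) ≤ w θ + 1 := by
  let L : ℕ → ℝ → ENNReal := fun n θ => min (nlog (w θ)) n
  have hLm : ∀ n, Measurable (L n) := fun n =>
    (measurable_nlog.comp hw).min measurable_const
  have hsup : ∀ θ, ⨆ n, L n θ = nlog (w θ) := by
    intro θ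
    apply le_antisymm
    · exact iSup_le (fun n => min_le_left _ _)
    · rcases eq_or_ne (nlog (w θ)) ⊤ with h | h
      · rw [h]
        have : ∀ n, L n θ = n := fun n => by simp [L, h]
        simp only [this]
        rw [ENNReal.iSup_natCast]
      · obtain ⟨n, hn⟩ := ENNReal.exists_nat_gt h
        refine le_trans ?_ (le_iSup _ n)
        simp only [L]
        exact le_min le_rfl hn.le
  have hmono : Monotone L := by
    intro m n hmn θ
    simp only [L]
    exact min_le_min le_rfl (by exact_mod_cast hmn)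
  have hconv : ⨆ n, ∫⁻ θ in Set.Ioo a b, L n θ = ⊤ := by
    rw [← lintegral_iSup hLm hmono]
    simp only [hsup]
    exact hlog
  obtain ⟨n, hn⟩ : ∃ n, (2 : ENNReal) < ∫⁻ θ in Set.Ioo a b, L n θ := by
    have : (2 : ENNReal) < ⨆ n, ∫⁻ θ in Set.Ioo a b, L n θ := by rw [hconv]; simp
    exact lt_iSup_iff.mp this
  have hLfin : ∀ θ, L n θ ≠ ⊤ := fun θ =>
    ne_top_of_le_ne_top (ENNReal.natCast_ne_top n) (min_le_right _ _)
  have hSfin : ∫⁻ θ in Set.Ioo a b, L n θ ≠ ⊤ := by
    apply ne_top_of_le_ne_top _ (lintegral_mono (fun θ => (min_le_right _ _ : L n θ ≤ n)))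
    rw [lintegral_const]
    simp [ENNReal.mul_eq_top]
  set S := (∫⁻ θ in Set.Ioo a b, L n θ).toReal with hS
  have hS2 : 2 < S := by
    rw [hS]
    have := (ENNReal.toReal_lt_toReal (by simp) hSfin).mpr hn
    simpa using this
  have hSpos : 0 < S := by linarith
  let ψ : ℝ → ℝ := fun θ => S⁻¹ * Set.indicator (Set.Ioo a b) (fun θ => (L n θ).toReal) θ
  have hnn : ∀ θ, 0 ≤ Set.indicator (Set.Ioo a b) (fun θ => (L n θ).toReal) θ := fun θ =>
    Set.indicator_nonneg (fun _ _ => ENNReal.toReal_nonneg) θ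
  have hle : ∀ θ, Set.indicator (Set.Ioo a b) (fun θ => (L n θ).toReal) θ ≤ (L n θ).toReal := by
    intro θ
    exact Set.indicator_le_self' (fun _ _ => ENNReal.toReal_nonneg) θ
  refine ⟨ψ, S⁻¹ * n, ?_, ?_, ?_, ?_, ?_, ?_⟩
  · exact ((hLm n).ennreal_toReal.indicator measurableSet_Ioo).const_mul _
  · intro θ
    exact mul_nonneg (by positivity) (hnn θ)
  · intro θ
    apply mul_le_mul_of_nonneg_left _ (by positivity)
    refine (hle θ).trans ?_
    have : (L n θ).toReal ≤ ((n : ENNReal)).toReal :=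
      ENNReal.toReal_mono (ENNReal.natCast_ne_top n) (min_le_right _ _)
    simpa using this
  · intro θ hθ
    simp only [ψ]
    rw [Set.indicator_of_notMem hθ, mul_zero]
  · simp only [ψ]
    rw [integral_const_mul, integral_indicator measurableSet_Ioo,
      Measure.restrict_restrict measurableSet_Ioo]
    have hinter : Set.Ioo a b ∩ Set.Ioc 0 (2 * Real.pi) = Set.Ioo a b := by
      apply Set.inter_eq_left.mpr
      intro x hx
      exact ⟨by linarith [hx.1], by linarith [hx.2]⟩
    rw [hinter, integral_toReal (hLm n).aemeasurable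
      (Eventually.of_forall (fun θ => lt_top_iff_ne_top.mpr (hLfin θ)))]
    rw [← hS]
    field_simp
  · intro θ
    have h1 : 2 * ψ θ ≤ (L n θ).toReal := by
      simp only [ψ]
      have h2 := hle θ
      have h3 := hnn θ
      have h4 : 2 * S⁻¹ ≤ 1 := by
        rw [← div_eq_mul_inv, div_le_one hSpos]; exact hS2.le
      nlinarith
    rcases eq_or_lt_of_le (hw0 θ) with h0 | h0
    · rw [← h0]; norm_num
    · have h5 : (L n θ).toReal ≤ max (-Real.log (w θ)) 0 := by
        have h6 : L n θ ≤ nlog (w θ) := min_le_left _ _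
        have h7 : nlog (w θ) = ENNReal.ofReal (-Real.log (w θ)) := by
          unfold nlog; rw [if_neg h0.ne']
        rw [h7] at h6
        have h8 := ENNReal.toReal_mono ENNReal.ofReal_ne_top h6
        rw [ENNReal.toReal_ofReal'] at h8
        exact h8
      have h9 : Real.exp (2 * ψ θ) ≤ Real.exp (max (-Real.log (w θ)) 0) :=
        Real.exp_le_exp.mpr (h1.trans h5)
      rcases le_total (-Real.log (w θ)) 0 with h | h
      · rw [max_eq_right h, Real.exp_zero] at h9
        nlinarith
      · rw [max_eq_left h, Real.exp_neg, Real.exp_log h0] at h9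
        have : w θ * Real.exp (2 * ψ θ) ≤ w θ * (w θ)⁻¹ := by gcongr
        rw [mul_inv_cancel₀ h0.ne'] at this
        linarith

/-- approximation of `ψ` by real parts of polynomials -/
theorem exists_q (w : ℝ → ℝ) (hw : Measurable w) (hw0 : ∀ θ, 0 ≤ w θ)
    (hwi : (∫⁻ θ in Set.Ioc 0 (2 * Real.pi), ENNReal.ofReal (w θ)) < ⊤)
    (ψ : ℝ → ℝ) (M : ℝ) (hψ : Measurable ψ) (h0 : ∀ θ, 0 ≤ ψ θ) (hM : ∀ θ, ψ θ ≤ M)
    (δ : ℝ) (hδ : 0 < δ) :
    ∃ q : Polynomial ℂ,
      (∫⁻ θ in Set.Ioc 0 (2 * Real.pi), ENNReal.ofReal |(q.eval (pt θ)).re - ψ θ|)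
        ≤ ENNReal.ofReal δ ∧
      (∫⁻ θ in Set.Ioc 0 (2 * Real.pi), ENNReal.ofReal (w θ * Real.exp (2 * (q.eval (pt θ)).re)))
        ≤ 2 * ((∫⁻ θ in Set.Ioc 0 (2 * Real.pi), ENNReal.ofReal (w θ * Real.exp (2 * ψ θ))) + 1) := by
  have hpi := Real.pi_pos
  -- the measure (1 + w) dθ
  let μ0 : Measure ℝ := (volume.restrict (Set.Ioc 0 (2 * Real.pi))).withDensity
    (fun θ => ENNReal.ofReal (1 + w θ))
  have hdens : Measurable (fun θ => ENNReal.ofReal (1 + w θ)) :=
    (measurable_const.add hw).ennreal_ofReal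
  have hμ0fin : IsFiniteMeasure μ0 := by
    apply isFiniteMeasure_withDensity
    have : ∀ θ, ENNReal.ofReal (1 + w θ) = 1 + ENNReal.ofReal (w θ) := by
      intro θ
      rw [ENNReal.ofReal_add zero_le_one (hw0 θ), ENNReal.ofReal_one]
    simp only [this]
    rw [lintegral_add_left measurable_const]
    simp only [lintegral_const, one_mul]
    rw [Measure.restrict_apply_univ, Real.volume_Ioc]
    exact (ENNReal.add_lt_top.mpr ⟨ENNReal.ofReal_lt_top, hwi⟩).ne
  have hμ0supp : ∀ᵐ θ ∂μ0, θ ∈ Set.Ioc 0 (2 * Real.pi) := by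
    apply (withDensity_absolutelyContinuous _ _).ae_le
    exact ae_restrict_mem measurableSet_Ioc
  set δ' : ℝ := min (δ / 2) (Real.exp (-(2 * M)) / 2) with hδ'
  have hδ'pos : 0 < δ' := by
    rw [hδ']
    exact lt_min (by positivity) (by positivity)
  obtain ⟨f, hfc, hf0, hfM, hf1⟩ := l1_approx μ0 hμ0supp ψ hψ M h0 hM δ' hδ'pos
  set η : ℝ := min (1 / 4) (δ / (4 * Real.pi)) with hη
  have hηpos : 0 < η := by
    rw [hη]
    exact lt_min (by norm_num) (by positivity)
  obtain ⟨q, hq⟩ := re_poly_approx f hfc η hηpos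
  have hmf : Measurable (fun θ => ENNReal.ofReal |ψ θ - f (pt θ)|) := by
    apply Measurable.ennreal_ofReal
    exact (hψ.sub (hfc.comp continuous_pt).measurable).abs
  rw [lintegral_withDensity_eq_lintegral_mul _ hdens hmf] at hf1
  refine ⟨q, ?_, ?_⟩
  · calc ∫⁻ θ in Set.Ioc 0 (2 * Real.pi), ENNReal.ofReal |(q.eval (pt θ)).re - ψ θ|
        ≤ ∫⁻ θ in Set.Ioc 0 (2 * Real.pi),
          (ENNReal.ofReal η + ((fun θ => ENNReal.ofReal (1 + w θ)) *
            (fun θ => ENNReal.ofReal |ψ θ - f (pt θ)|)) θ) := by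
          apply lintegral_mono
          intro θ
          simp only [Pi.mul_apply]
          rw [← ENNReal.ofReal_mul (by linarith [hw0 θ]), ← ENNReal.ofReal_add hηpos.le
            (mul_nonneg (by linarith [hw0 θ]) (abs_nonneg _))]
          apply ENNReal.ofReal_le_ofReal
          have h1 := hq θ
          have h2 : |(q.eval (pt θ)).re - ψ θ| ≤ |f (pt θ) - (q.eval (pt θ)).re|
              + |ψ θ - f (pt θ)| := by
            have : (q.eval (pt θ)).re - ψ θ = -(f (pt θ) - (q.eval (pt θ)).re)
              + -(ψ θ - f (pt θ)) := by ring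
            rw [this]
            refine (abs_add_le _ _).trans ?_
            rw [abs_neg, abs_neg]
          have h3 : |ψ θ - f (pt θ)| ≤ (1 + w θ) * |ψ θ - f (pt θ)| := by
            nlinarith [abs_nonneg (ψ θ - f (pt θ)), hw0 θ]
          linarith
      _ = ENNReal.ofReal η * ENNReal.ofReal (2 * Real.pi) +
          ∫⁻ θ in Set.Ioc 0 (2 * Real.pi), ((fun θ => ENNReal.ofReal (1 + w θ)) *
            (fun θ => ENNReal.ofReal |ψ θ - f (pt θ)|)) θ := by
          rw [lintegral_add_left measurable_const, lintegral_const,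
            Measure.restrict_apply_univ, Real.volume_Ioc, sub_zero]
      _ ≤ ENNReal.ofReal (δ / 2) + ENNReal.ofReal (δ / 2) := by
          apply add_le_add
          · rw [← ENNReal.ofReal_mul hηpos.le]
            apply ENNReal.ofReal_le_ofReal
            have : η ≤ δ / (4 * Real.pi) := min_le_right _ _
            calc η * (2 * Real.pi) ≤ δ / (4 * Real.pi) * (2 * Real.pi) := by gcongr
              _ = δ / 2 := by field_simp; norm_num
          · refine hf1.trans (ENNReal.ofReal_le_ofReal (min_le_left _ _))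
      _ = ENNReal.ofReal δ := by
          rw [← ENNReal.ofReal_add (by positivity) (by positivity)]
          congr 1
          ring
  · calc ∫⁻ θ in Set.Ioc 0 (2 * Real.pi),
          ENNReal.ofReal (w θ * Real.exp (2 * (q.eval (pt θ)).re))
        ≤ ∫⁻ θ in Set.Ioc 0 (2 * Real.pi), 2 * (ENNReal.ofReal (w θ * Real.exp (2 * ψ θ)) +
          ENNReal.ofReal (2 * Real.exp (2 * M)) * ((fun θ => ENNReal.ofReal (1 + w θ)) *
            (fun θ => ENNReal.ofReal |ψ θ - f (pt θ)|)) θ) := by
          apply lintegral_mono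
          intro θ
          simp only [Pi.mul_apply]
          have e2 : (2 : ENNReal) = ENNReal.ofReal 2 := by simp
          rw [← ENNReal.ofReal_mul (by linarith [hw0 θ]), ← ENNReal.ofReal_mul (by positivity),
            ← ENNReal.ofReal_add (mul_nonneg (hw0 θ) (Real.exp_pos _).le)
              (mul_nonneg (by positivity) (mul_nonneg (by linarith [hw0 θ]) (abs_nonneg _))),
            e2, ← ENNReal.ofReal_mul (by norm_num)]
          apply ENNReal.ofReal_le_ofReal
          have h1 := hq θ
          have h1' : (q.eval (pt θ)).re ≤ f (pt θ) + 1 / 4 := by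
            have : η ≤ 1 / 4 := min_le_left _ _
            rw [abs_le] at h1
            linarith [h1.1]
          have h2 : Real.exp (2 * (q.eval (pt θ)).re) ≤ 2 * Real.exp (2 * f (pt θ)) := by
            have h3 : Real.exp (1 / 2) ≤ 2 := by
              have h5 := Real.exp_one_lt_d9
              have h6 : Real.exp (1 / 2) * Real.exp (1 / 2) = Real.exp 1 := by
                rw [← Real.exp_add]; norm_num
              have h7 := Real.exp_pos (1 / 2)
              nlinarith
            calc Real.exp (2 * (q.eval (pt θ)).re) ≤ Real.exp (1 / 2 + 2 * f (pt θ)) :=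
                  Real.exp_le_exp.mpr (by linarith)
              _ = Real.exp (1 / 2) * Real.exp (2 * f (pt θ)) := Real.exp_add _ _
              _ ≤ 2 * Real.exp (2 * f (pt θ)) := by gcongr
          have h4 : Real.exp (2 * f (pt θ)) ≤ Real.exp (2 * ψ θ)
              + 2 * Real.exp (2 * M) * |ψ θ - f (pt θ)| := by
            have h5 : Real.exp (2 * ψ θ) = Real.exp (2 * f (pt θ)) *
              Real.exp (2 * (ψ θ - f (pt θ))) := by rw [← Real.exp_add]; congr 1; ring
            have h6 := Real.add_one_le_exp (2 * (ψ θ - f (pt θ)))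
            have h7 : Real.exp (2 * f (pt θ)) ≤ Real.exp (2 * M) :=
              Real.exp_le_exp.mpr (by linarith [hfM (pt θ)])
            have h8 := Real.exp_pos (2 * f (pt θ))
            have h9 : -|ψ θ - f (pt θ)| ≤ ψ θ - f (pt θ) := neg_abs_le _
            have h10 := abs_nonneg (ψ θ - f (pt θ))
            calc Real.exp (2 * f (pt θ)) = Real.exp (2 * f (pt θ)) *
                  (2 * (ψ θ - f (pt θ)) + 1) - Real.exp (2 * f (pt θ)) * (2 * (ψ θ - f (pt θ))) := by
                  ring
              _ ≤ Real.exp (2 * f (pt θ)) * Real.exp (2 * (ψ θ - f (pt θ)))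
                  + Real.exp (2 * M) * (2 * |ψ θ - f (pt θ)|) := by
                  have t1 : Real.exp (2 * f (pt θ)) * (2 * (ψ θ - f (pt θ)) + 1)
                    ≤ Real.exp (2 * f (pt θ)) * Real.exp (2 * (ψ θ - f (pt θ))) := by gcongr
                  have t2 : -(Real.exp (2 * f (pt θ)) * (2 * (ψ θ - f (pt θ))))
                    ≤ Real.exp (2 * M) * (2 * |ψ θ - f (pt θ)|) := by
                    have : -(Real.exp (2 * f (pt θ)) * (2 * (ψ θ - f (pt θ))))
                      ≤ Real.exp (2 * f (pt θ)) * (2 * |ψ θ - f (pt θ)|) := by nlinarith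
                    refine this.trans ?_
                    gcongr
                  linarith
              _ = _ := by rw [← h5]; ring
          have h11 := hw0 θ
          have h12 : 0 ≤ Real.exp (2 * M) * |ψ θ - f (pt θ)| := by positivity
          calc w θ * Real.exp (2 * (q.eval (pt θ)).re)
              ≤ w θ * (2 * (Real.exp (2 * ψ θ) + 2 * Real.exp (2 * M) * |ψ θ - f (pt θ)|)) := by
                gcongr
                linarith
            _ ≤ 2 * (w θ * Real.exp (2 * ψ θ) + 2 * Real.exp (2 * M) *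
                ((1 + w θ) * |ψ θ - f (pt θ)|)) := by nlinarith
      _ = 2 * ((∫⁻ θ in Set.Ioc 0 (2 * Real.pi), ENNReal.ofReal (w θ * Real.exp (2 * ψ θ))) +
          ENNReal.ofReal (2 * Real.exp (2 * M)) *
          ∫⁻ θ in Set.Ioc 0 (2 * Real.pi), ((fun θ => ENNReal.ofReal (1 + w θ)) *
            (fun θ => ENNReal.ofReal |ψ θ - f (pt θ)|)) θ) := by
          rw [lintegral_const_mul' _ _ (by simp), lintegral_add_left, lintegral_const_mul' _ _
            ENNReal.ofReal_ne_top]
          exact (hw.mul (Real.measurable_exp.comp (hψ.const_mul 2))).ennreal_ofReal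
      _ ≤ _ := by
          gcongr
          calc ENNReal.ofReal (2 * Real.exp (2 * M)) *
              ∫⁻ θ in Set.Ioc 0 (2 * Real.pi), ((fun θ => ENNReal.ofReal (1 + w θ)) *
                (fun θ => ENNReal.ofReal |ψ θ - f (pt θ)|)) θ
              ≤ ENNReal.ofReal (2 * Real.exp (2 * M)) * ENNReal.ofReal δ' := by gcongr
            _ = ENNReal.ofReal (2 * Real.exp (2 * M) * δ') :=
                (ENNReal.ofReal_mul (by positivity)).symm
            _ ≤ ENNReal.ofReal 1 := by
                apply ENNReal.ofReal_le_ofReal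
                have h1 : δ' ≤ Real.exp (-(2 * M)) / 2 := min_le_right _ _
                calc 2 * Real.exp (2 * M) * δ'
                    ≤ 2 * Real.exp (2 * M) * (Real.exp (-(2 * M)) / 2) := by gcongr
                  _ = Real.exp (2 * M) * Real.exp (-(2 * M)) := by ring
                  _ = 1 := by rw [← Real.exp_add]; simp
            _ = 1 := ENNReal.ofReal_one

end Pool.Agent.Helper655.Split
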