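import Mathlib
import Pool.Agent.Helper655.K3

set_option autoImplicit false

namespace Pool.Agent.Helper655.Split

open MeasureTheory Filter Topology Complex

/-- polynomials approximate the exponential of a polynomial uniformly on the closed disc -/
theorem exp_poly_approx (q : Polynomial ℂ) (ε : ℝ) (hε : 0 < ε) :
    ∃ p : Polynomial ℂ, ∀ z : ℂ, ‖z‖ ≤ 1 → ‖p.eval z - Complex.exp (q.eval z)‖ ≤ ε := by
  obtain ⟨B, hB⟩ := (isCompact_closedBall (0 : ℂ) 1).exists_bound_of_continuousOn
    (f := fun z => q.eval z) q.continuous.continuousOn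
  have hB0 : 0 ≤ B := (norm_nonneg _).trans (hB 0 (by simp))
  -- uniform convergence of the exponential series on the ball of radius B
  have hsum : Tendsto (fun n : ℕ => ∑' k : ℕ, B ^ (k + n) / (Nat.factorial (k + n) : ℝ)) atTop
      (𝓝 0) := tendsto_sum_nat_add (fun k => B ^ k / (Nat.factorial k : ℝ))
  obtain ⟨n, hn⟩ := (hsum.eventually (gt_mem_nhds hε)).exists
  refine ⟨∑ k ∈ Finset.range n, Polynomial.C ((Nat.factorial k : ℂ)⁻¹) * q ^ k, fun z hz => ?_⟩
  have hqz : ‖q.eval z‖ ≤ B := hB z (by simpa using hz)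
  have hs : HasSum (fun k : ℕ => (q.eval z) ^ k / (Nat.factorial k : ℂ)) (Complex.exp (q.eval z)) := by
    have := NormedSpace.expSeries_div_hasSum_exp (q.eval z)
    rwa [← Complex.exp_eq_exp_ℂ] at this
  have hdiff : (∑ k ∈ Finset.range n, (q.eval z) ^ k / (Nat.factorial k : ℂ))
      - Complex.exp (q.eval z) = -∑' k : ℕ, (q.eval z) ^ (k + n) / (Nat.factorial (k + n) : ℂ) := by
    rw [← hs.tsum_eq, ← hs.summable.sum_add_tsum_nat_add n]
    ring
  have heval : (∑ k ∈ Finset.range n, Polynomial.C ((Nat.factorial k : ℂ)⁻¹) * q ^ k).eval z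
      = ∑ k ∈ Finset.range n, (q.eval z) ^ k / (Nat.factorial k : ℂ) := by
    rw [Polynomial.eval_finsetSum]
    apply Finset.sum_congr rfl
    intro k _
    rw [Polynomial.eval_mul, Polynomial.eval_C, Polynomial.eval_pow]
    field_simp
  rw [heval, hdiff, norm_neg]
  have hBs : Summable (fun k : ℕ => B ^ (k + n) / (Nat.factorial (k + n) : ℝ)) :=
    (summable_nat_add_iff n).mpr (Real.summable_pow_div_factorial B)
  refine (tsum_of_norm_bounded hBs.hasSum (fun k => ?_)).trans hn.le
  rw [norm_div, norm_pow, Complex.norm_natCast]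
  gcongr

theorem key_poly (w : ℝ → ℝ) (hw : Measurable w) (hw0 : ∀ θ, 0 ≤ w θ)
    (hwi : (∫⁻ θ in Set.Ioc 0 (2 * Real.pi), ENNReal.ofReal (w θ)) < ⊤)
    (hlog : ∀ a b : ℝ, 0 ≤ a → a < b → b ≤ 2 * Real.pi → ∫⁻ θ in Set.Ioo a b, nlog (w θ) = ⊤)
    (h : ℝ) (hh0 : 0 < h) (hh1 : h ≤ 1 / 2) (θ0 : ℝ) (hθ0 : 0 ≤ θ0) (hθ1 : θ0 ≤ 2 * Real.pi) :
    ∃ p : Polynomial ℂ,
      (∀ z : ℂ, ‖z‖ < 1 → ‖p.eval z‖ ≤ 2 * Real.exp (1 / (2 * (1 - ‖z‖)))) ∧
      Real.exp (1 / (64 * h)) / 2 ≤ ‖p.eval (((1 - h : ℝ) : ℂ) * pt θ0)‖ ∧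
      (∫⁻ θ in Set.Ioc 0 (2 * Real.pi), ENNReal.ofReal (w θ * ‖p.eval (pt θ)‖ ^ 2)) ≤
        5 * ((∫⁻ θ in Set.Ioc 0 (2 * Real.pi), ENNReal.ofReal (w θ)) + 8) := by
  have hpi := Real.pi_pos
  have hpi3 := Real.pi_gt_three
  have hpi4 := Real.pi_lt_four
  -- the arc
  obtain ⟨a, b, ha, hab, hb, hθa, hθb⟩ : ∃ a b : ℝ, 0 ≤ a ∧ a < b ∧ b ≤ 2 * Real.pi ∧
      θ0 - h ≤ a ∧ b ≤ θ0 + h := by
    rcases le_or_gt θ0 Real.pi with h1 | h1
    · exact ⟨θ0, θ0 + h, hθ0, by linarith, by linarith, by linarith, le_rfl⟩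
    · exact ⟨θ0 - h, θ0, by linarith, by linarith, hθ1, le_rfl, by linarith⟩
  obtain ⟨ψ, M, hψm, hψ0, hψM, hψsupp, hψ1, hψw⟩ :=
    exists_psi w hw hw0 a b ha hb (hlog a b ha hab hb)
  obtain ⟨q, hq1, hq2⟩ := exists_q w hw hw0 hwi ψ M hψm hψ0 hψM (1 / 16) (by norm_num)
  obtain ⟨p, hp⟩ := exp_poly_approx q (1 / 2) (by norm_num)
  -- real integral version of hq1
  have hcontq : Continuous (fun θ : ℝ => (q.eval (pt θ)).re) :=
    Complex.continuous_re.comp (q.continuous.comp continuous_pt)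
  have hψint : IntegrableOn ψ (Set.Ioc 0 (2 * Real.pi)) := by
    apply Integrable.mono' (integrable_const M) hψm.aestronglyMeasurable
    refine Eventually.of_forall (fun θ => ?_)
    rw [Real.norm_eq_abs, abs_of_nonneg (hψ0 θ)]
    exact hψM θ
  have hqint : IntegrableOn (fun θ : ℝ => (q.eval (pt θ)).re) (Set.Ioc 0 (2 * Real.pi)) :=
    (hcontq.integrableOn_Icc).mono_set Set.Ioc_subset_Icc_self
  have hdint : IntegrableOn (fun θ : ℝ => |(q.eval (pt θ)).re - ψ θ|)
      (Set.Ioc 0 (2 * Real.pi)) := (hqint.sub hψint).abs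
  have hq1' : (∫ θ in Set.Ioc 0 (2 * Real.pi), |(q.eval (pt θ)).re - ψ θ|) ≤ 1 / 16 := by
    rw [integral_eq_lintegral_of_nonneg_ae (Eventually.of_forall (fun θ => abs_nonneg _))
      hdint.aestronglyMeasurable]
    have := ENNReal.toReal_mono ENNReal.ofReal_ne_top hq1
    rwa [ENNReal.toReal_ofReal (by norm_num)] at this
  -- kernel facts
  have hker : ∀ z : ℂ, ‖z‖ < 1 → ∀ θ, 0 ≤ (1 - ‖z‖ ^ 2) / ‖pt θ - z‖ ^ 2 ∧
      (1 - ‖z‖ ^ 2) / ‖pt θ - z‖ ^ 2 ≤ 2 / (1 - ‖z‖) := by
    intro z hz θ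
    have hz0 := norm_nonneg z
    have h1 : 1 - ‖z‖ ≤ ‖pt θ - z‖ := by
      have := norm_sub_norm_le (pt θ) z
      rwa [norm_pt] at this
    have h2 : 0 < 1 - ‖z‖ := by linarith
    have h4 : 0 < ‖pt θ - z‖ ^ 2 := by
      have : 0 < ‖pt θ - z‖ := by linarith
      positivity
    constructor
    · apply div_nonneg _ (by positivity)
      nlinarith
    · rw [div_le_div_iff₀ h4 h2]
      have h3 : (1 - ‖z‖) ^ 2 ≤ ‖pt θ - z‖ ^ 2 := by gcongr
      nlinarith
  have hkercont : ∀ z : ℂ, ‖z‖ < 1 →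
      Continuous (fun θ : ℝ => (1 - ‖z‖ ^ 2) / ‖pt θ - z‖ ^ 2) := by
    intro z hz
    refine Continuous.div continuous_const
      ((continuous_norm.comp (continuous_pt.sub continuous_const)).pow 2) ?_
    intro θ
    have h1 : 1 - ‖z‖ ≤ ‖pt θ - z‖ := by
      have := norm_sub_norm_le (pt θ) z
      rwa [norm_pt] at this
    have : 0 < ‖pt θ - z‖ := by linarith
    positivity
  -- upper bound of the real part
  have hup : ∀ z : ℂ, ‖z‖ < 1 → (q.eval z).re ≤ 1 / (2 * (1 - ‖z‖)) := by
    intro z hz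
    have hz0 := norm_nonneg z
    have hz1 : 0 < 1 - ‖z‖ := by linarith
    rw [poisson_poly q z hz, intervalIntegral.integral_of_le (by positivity)]
    have hbound : ∫ θ in Set.Ioc 0 (2 * Real.pi),
        (1 - ‖z‖ ^ 2) / ‖pt θ - z‖ ^ 2 * (q.eval (pt θ)).re
        ≤ ∫ θ in Set.Ioc 0 (2 * Real.pi), (2 / (1 - ‖z‖)) *
          (ψ θ + |(q.eval (pt θ)).re - ψ θ|) := by
      apply integral_mono
      · exact (((hkercont z hz).mul hcontq).integrableOn_Icc).mono_set Set.Ioc_subset_Icc_self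
      · exact (hψint.add hdint).const_mul _
      · intro θ
        simp only
        have h1 := hker z hz θ
        have h2 : (q.eval (pt θ)).re ≤ ψ θ + |(q.eval (pt θ)).re - ψ θ| := by
          have := le_abs_self ((q.eval (pt θ)).re - ψ θ)
          linarith
        have h3 : 0 ≤ ψ θ + |(q.eval (pt θ)).re - ψ θ| := by
          have := hψ0 θ
          positivity
        calc (1 - ‖z‖ ^ 2) / ‖pt θ - z‖ ^ 2 * (q.eval (pt θ)).re
            ≤ (1 - ‖z‖ ^ 2) / ‖pt θ - z‖ ^ 2 * (ψ θ + |(q.eval (pt θ)).re - ψ θ|) :=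
              mul_le_mul_of_nonneg_left h2 h1.1
          _ ≤ _ := mul_le_mul_of_nonneg_right h1.2 h3
    rw [integral_const_mul, integral_add hψint hdint, hψ1] at hbound
    calc (2 * Real.pi)⁻¹ * ∫ θ in Set.Ioc 0 (2 * Real.pi),
          (1 - ‖z‖ ^ 2) / ‖pt θ - z‖ ^ 2 * (q.eval (pt θ)).re
        ≤ (2 * Real.pi)⁻¹ * (2 / (1 - ‖z‖) * (1 + 1 / 16)) := by
          apply mul_le_mul_of_nonneg_left _ (by positivity)
          refine hbound.trans ?_
          apply mul_le_mul_of_nonneg_left _ (by positivity)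
          linarith
      _ ≤ 1 / (2 * (1 - ‖z‖)) := by
          have h5 : (2 * Real.pi)⁻¹ * (2 / (1 - ‖z‖) * (1 + 1 / 16))
            = (17 / 16) / Real.pi * (1 / (1 - ‖z‖)) := by field_simp; norm_num
          have h6 : 1 / (2 * (1 - ‖z‖)) = (1 / 2) * (1 / (1 - ‖z‖)) := by field_simp
          rw [h5, h6]
          apply mul_le_mul_of_nonneg_right _ (by positivity)
          rw [div_le_iff₀ hpi]
          linarith
  -- lower bound at λ
  set lam : ℂ := ((1 - h : ℝ) : ℂ) * pt θ0 with hlam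
  have hlamn : ‖lam‖ = 1 - h := by
    rw [hlam, norm_mul, norm_pt, mul_one, Complex.norm_real, Real.norm_eq_abs,
      abs_of_nonneg (by linarith)]
  have hlam1 : ‖lam‖ < 1 := by rw [hlamn]; linarith
  have hlow : 1 / (64 * h) ≤ (q.eval lam).re := by
    have hbound : ∫ θ in Set.Ioc 0 (2 * Real.pi), ((1 / (4 * h)) * ψ θ
          - (2 / h) * |(q.eval (pt θ)).re - ψ θ|)
        ≤ ∫ θ in Set.Ioc 0 (2 * Real.pi),
        (1 - ‖lam‖ ^ 2) / ‖pt θ - lam‖ ^ 2 * (q.eval (pt θ)).re := by
      apply integral_mono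
      · exact (hψint.const_mul _).sub (hdint.const_mul _)
      · exact (((hkercont lam hlam1).mul hcontq).integrableOn_Icc).mono_set
          Set.Ioc_subset_Icc_self
      · intro θ
        simp only
        have h1 := hker lam hlam1 θ
        rw [show 1 - ‖lam‖ = h by rw [hlamn]; ring] at h1
        have h2 : ψ θ - |(q.eval (pt θ)).re - ψ θ| ≤ (q.eval (pt θ)).re := by
          have := neg_abs_le ((q.eval (pt θ)).re - ψ θ)
          linarith
        have h3 : (1 / (4 * h)) * ψ θ ≤ (1 - ‖lam‖ ^ 2) / ‖pt θ - lam‖ ^ 2 * ψ θ := by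
          by_cases hθ : θ ∈ Set.Ioo a b
          · apply mul_le_mul_of_nonneg_right _ (hψ0 θ)
            have h4 : ‖pt θ - lam‖ ≤ 2 * h := by
              have h5 : pt θ - lam = (pt θ - pt θ0) + (h : ℂ) * pt θ0 := by
                rw [hlam]; push_cast; ring
              rw [h5]
              have h6 : ‖pt θ - pt θ0‖ ≤ h := by
                have h7 : pt θ - pt θ0 = pt θ0 * (Complex.exp (Complex.I * ((θ - θ0 : ℝ) : ℂ)) - 1) := by
                  unfold pt
                  rw [mul_sub, mul_one, ← Complex.exp_add]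
                  congr 2
                  push_cast
                  ring
                rw [h7, norm_mul, norm_pt, one_mul]
                refine (Real.norm_exp_I_mul_ofReal_sub_one_le).trans ?_
                rw [Real.norm_eq_abs, abs_le]
                constructor <;> linarith [hθ.1, hθ.2]
              refine (norm_add_le _ _).trans ?_
              rw [norm_mul, norm_pt, mul_one, Complex.norm_real, Real.norm_eq_abs,
                abs_of_pos hh0]
              linarith
            have h8 : 0 < ‖pt θ - lam‖ := by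
              have := norm_sub_norm_le (pt θ) lam
              rw [norm_pt, hlamn] at this
              linarith
            rw [div_le_div_iff₀ (by positivity) (by positivity), hlamn]
            have h9 : ‖pt θ - lam‖ ^ 2 ≤ (2 * h) ^ 2 := by gcongr
            nlinarith
          · rw [hψsupp θ hθ, mul_zero, mul_zero]
        have h10 : (1 - ‖lam‖ ^ 2) / ‖pt θ - lam‖ ^ 2 * |(q.eval (pt θ)).re - ψ θ|
            ≤ (2 / h) * |(q.eval (pt θ)).re - ψ θ| :=
          mul_le_mul_of_nonneg_right h1.2 (abs_nonneg _)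
        have h11 := mul_le_mul_of_nonneg_left h2 h1.1
        rw [mul_sub] at h11
        linarith
    rw [integral_sub (hψint.const_mul _) (hdint.const_mul _), integral_const_mul,
      integral_const_mul, hψ1] at hbound
    rw [poisson_poly q lam hlam1, intervalIntegral.integral_of_le (by positivity)]
    have h12 : 1 / (4 * h) * 1 - 2 / h * (1 / 16) ≤ 1 / (4 * h) * 1 -
        2 / h * ∫ θ in Set.Ioc 0 (2 * Real.pi), |(q.eval (pt θ)).re - ψ θ| := by
      have : 2 / h * ∫ θ in Set.Ioc 0 (2 * Real.pi), |(q.eval (pt θ)).re - ψ θ|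
        ≤ 2 / h * (1 / 16) := mul_le_mul_of_nonneg_left hq1' (by positivity)
      linarith
    have h13 := h12.trans hbound
    have h14 : 1 / (4 * h) * 1 - 2 / h * (1 / 16) = 1 / (8 * h) := by field_simp; norm_num
    rw [h14] at h13
    calc 1 / (64 * h) ≤ (2 * Real.pi)⁻¹ * (1 / (8 * h)) := by
          rw [inv_mul_eq_div, div_div, div_le_div_iff₀ (by positivity) (by positivity)]
          nlinarith
      _ ≤ _ := mul_le_mul_of_nonneg_left h13 (by positivity)
  refine ⟨p, ?_, ?_, ?_⟩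
  · intro z hz
    have h1 := hp z hz.le
    have h2 := hup z hz
    have h3 : ‖Complex.exp (q.eval z)‖ ≤ Real.exp (1 / (2 * (1 - ‖z‖))) := by
      rw [Complex.norm_exp]
      exact Real.exp_le_exp.mpr h2
    have h4 : 1 ≤ Real.exp (1 / (2 * (1 - ‖z‖))) := by
      apply Real.one_le_exp
      have : 0 < 1 - ‖z‖ := by linarith
      positivity
    have h5 : ‖p.eval z‖ ≤ ‖p.eval z - Complex.exp (q.eval z)‖ + ‖Complex.exp (q.eval z)‖ := by
      have := norm_add_le (p.eval z - Complex.exp (q.eval z)) (Complex.exp (q.eval z))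
      simpa using this
    linarith
  · have h1 := hp lam hlam1.le
    have h3 : Real.exp (1 / (64 * h)) ≤ ‖Complex.exp (q.eval lam)‖ := by
      rw [Complex.norm_exp]
      exact Real.exp_le_exp.mpr hlow
    have h4 : 1 ≤ Real.exp (1 / (64 * h)) := by
      apply Real.one_le_exp
      positivity
    have h5 : ‖Complex.exp (q.eval lam)‖ ≤ ‖p.eval lam - Complex.exp (q.eval lam)‖
        + ‖p.eval lam‖ := by
      have := norm_sub_norm_le (Complex.exp (q.eval lam)) (p.eval lam)
      rw [norm_sub_rev] at this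
      linarith
    linarith
  · calc ∫⁻ θ in Set.Ioc 0 (2 * Real.pi), ENNReal.ofReal (w θ * ‖p.eval (pt θ)‖ ^ 2)
        ≤ ∫⁻ θ in Set.Ioc 0 (2 * Real.pi), (2 * ENNReal.ofReal (w θ * Real.exp (2 *
            (q.eval (pt θ)).re)) + ENNReal.ofReal (w θ)) := by
          apply lintegral_mono
          intro θ
          simp only
          have e2 : (2 : ENNReal) = ENNReal.ofReal 2 := by simp
          rw [e2, ← ENNReal.ofReal_mul (by norm_num), ← ENNReal.ofReal_add
            (by have := hw0 θ; positivity) (hw0 θ)]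
          apply ENNReal.ofReal_le_ofReal
          have h1 := hp (pt θ) (norm_pt θ).le
          have h5 : ‖p.eval (pt θ)‖ ≤ ‖p.eval (pt θ) - Complex.exp (q.eval (pt θ))‖
              + ‖Complex.exp (q.eval (pt θ))‖ := by
            have := norm_add_le (p.eval (pt θ) - Complex.exp (q.eval (pt θ)))
              (Complex.exp (q.eval (pt θ)))
            simpa using this
          have h6 : ‖p.eval (pt θ)‖ ≤ 1 / 2 + Real.exp ((q.eval (pt θ)).re) := by
            rw [Complex.norm_exp] at h5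
            linarith
          have h7 : ‖p.eval (pt θ)‖ ^ 2 ≤ 2 * Real.exp (2 * (q.eval (pt θ)).re) + 1 := by
            have h8 : Real.exp (2 * (q.eval (pt θ)).re) = Real.exp ((q.eval (pt θ)).re) ^ 2 := by
              rw [← Real.exp_nat_mul]; norm_num
            rw [h8]
            have h9 := Real.exp_pos ((q.eval (pt θ)).re)
            have h10 : ‖p.eval (pt θ)‖ ^ 2 ≤ (1 / 2 + Real.exp ((q.eval (pt θ)).re)) ^ 2 := by
              gcongr
            nlinarith [sq_nonneg (Real.exp ((q.eval (pt θ)).re) - 1 / 2)]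
          have h11 := hw0 θ
          calc w θ * ‖p.eval (pt θ)‖ ^ 2 ≤ w θ * (2 * Real.exp (2 * (q.eval (pt θ)).re) + 1) := by
                gcongr
            _ = _ := by ring
      _ = 2 * (∫⁻ θ in Set.Ioc 0 (2 * Real.pi), ENNReal.ofReal (w θ * Real.exp (2 *
            (q.eval (pt θ)).re))) + ∫⁻ θ in Set.Ioc 0 (2 * Real.pi), ENNReal.ofReal (w θ) := by
          rw [lintegral_add_right _ hw.ennreal_ofReal, lintegral_const_mul' _ _ (by simp)]
      _ ≤ 2 * (2 * ((∫⁻ θ in Set.Ioc 0 (2 * Real.pi), ENNReal.ofReal (w θ * Real.exp (2 * ψ θ)))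
            + 1)) + ∫⁻ θ in Set.Ioc 0 (2 * Real.pi), ENNReal.ofReal (w θ) := by gcongr
      _ ≤ 2 * (2 * (((∫⁻ θ in Set.Ioc 0 (2 * Real.pi), ENNReal.ofReal (w θ)) + 7)
            + 1)) + ∫⁻ θ in Set.Ioc 0 (2 * Real.pi), ENNReal.ofReal (w θ) := by
          gcongr
          calc ∫⁻ θ in Set.Ioc 0 (2 * Real.pi), ENNReal.ofReal (w θ * Real.exp (2 * ψ θ))
              ≤ ∫⁻ θ in Set.Ioc 0 (2 * Real.pi), (ENNReal.ofReal (w θ) + 1) := by
                apply lintegral_mono
                intro θ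
                simp only
                rw [← ENNReal.ofReal_one, ← ENNReal.ofReal_add (hw0 θ) zero_le_one]
                exact ENNReal.ofReal_le_ofReal (hψw θ)
            _ = (∫⁻ θ in Set.Ioc 0 (2 * Real.pi), ENNReal.ofReal (w θ)) +
                  ENNReal.ofReal (2 * Real.pi) := by
                rw [lintegral_add_right _ measurable_const, lintegral_const,
                  Measure.restrict_apply_univ, Real.volume_Ioc, sub_zero, one_mul]
            _ ≤ _ := by
                gcongr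
                rw [show (7 : ENNReal) = ENNReal.ofReal 7 by simp]
                apply ENNReal.ofReal_le_ofReal
                have := Real.pi_lt_d2
                linarith
      _ ≤ _ := by
          have e : ∀ x : ENNReal, 2 * (2 * ((x + 7) + 1)) + x ≤ 5 * (x + 8) := by
            intro x
            have : 2 * (2 * ((x + 7) + 1)) + x = 5 * x + 32 := by ring
            rw [this]
            have h2 : 5 * (x + 8) = 5 * x + 40 := by ring
            rw [h2]
            gcongr
            norm_num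
          exact e _

end Pool.Agent.Helper655.Split
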