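import Mathlib
import Pool.Agent.Helper655.K4

set_option autoImplicit false

namespace Pool.Agent.Helper655.Split

open MeasureTheory Filter Topology Complex

/-- partial fractions at the points `r ω ^ j` -/
theorem partial_frac (N n : ℕ) (hn : 1 ≤ n) (hnN : n ≤ N) (r : ℂ) (hr : r ≠ 0) (ω : ℂ)
    (hω : IsPrimitiveRoot ω N) (z : ℂ) (hz : z ^ N ≠ r ^ N) :
    ∑ j ∈ Finset.range N, ((r * ω ^ j) ^ (N + 1 - n) / (N * r ^ N)) / (r * ω ^ j - z)
      = z ^ (N - n) / (r ^ N - z ^ N) := by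
  have hN : 0 < N := by omega
  have hNC : (N : ℂ) ≠ 0 := by exact_mod_cast hN.ne'
  have hrN : r ^ N ≠ 0 := pow_ne_zero _ hr
  have hpow : ∀ j : ℕ, (r * ω ^ j) ^ N = r ^ N := by
    intro j
    rw [mul_pow, ← pow_mul, mul_comm j N, pow_mul, hω.pow_eq_one, one_pow, mul_one]
  have hdiff : r ^ N - z ^ N ≠ 0 := sub_ne_zero.mpr (Ne.symm hz)
  have hne : ∀ j : ℕ, r * ω ^ j - z ≠ 0 := by
    intro j h
    rw [sub_eq_zero] at h
    apply hz
    rw [← h, hpow]
  -- geometric sum
  have hgeom : ∀ j : ℕ, (r * ω ^ j - z)⁻¹ = (∑ k ∈ Finset.range N, (r * ω ^ j) ^ k * z ^ (N - 1 - k))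
      / (r ^ N - z ^ N) := by
    intro j
    have h1 := (Commute.all (r * ω ^ j) z).geom_sum₂_mul N
    rw [hpow] at h1
    rw [eq_div_iff hdiff, ← h1, mul_comm (∑ k ∈ Finset.range N, _), inv_mul_cancel_left₀ (hne j)]
  -- root of unity sums
  have hroot : ∀ e : ℕ, ¬ (N ∣ e) → ∑ j ∈ Finset.range N, (ω ^ j) ^ e = 0 := by
    intro e he
    have h1 : ω ^ e ≠ 1 := fun h => he ((hω.pow_eq_one_iff_dvd e).mp h)
    have h2 : ∑ j ∈ Finset.range N, (ω ^ j) ^ e = ∑ j ∈ Finset.range N, (ω ^ e) ^ j := by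
      apply Finset.sum_congr rfl
      intro j _
      rw [← pow_mul, ← pow_mul, mul_comm]
    rw [h2, geom_sum_eq h1, ← pow_mul, mul_comm, pow_mul, hω.pow_eq_one, one_pow, sub_self,
      zero_div]
  have hmain : ∑ j ∈ Finset.range N, ∑ k ∈ Finset.range N,
      (r * ω ^ j) ^ (N + 1 - n) * ((r * ω ^ j) ^ k * z ^ (N - 1 - k)) = N * r ^ N * z ^ (N - n) := by
    rw [Finset.sum_comm]
    have hk : ∀ k ∈ Finset.range N, ∑ j ∈ Finset.range N,
        (r * ω ^ j) ^ (N + 1 - n) * ((r * ω ^ j) ^ k * z ^ (N - 1 - k))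
        = if k = n - 1 then N * r ^ N * z ^ (N - n) else 0 := by
      intro k hk
      rw [Finset.mem_range] at hk
      have h1 : ∀ j, (r * ω ^ j) ^ (N + 1 - n) * ((r * ω ^ j) ^ k * z ^ (N - 1 - k))
          = (r ^ (N + 1 - n + k) * z ^ (N - 1 - k)) * (ω ^ j) ^ (N + 1 - n + k) := by
        intro j
        rw [← mul_assoc, ← pow_add, mul_pow]
        ring
      simp only [h1]
      rw [← Finset.mul_sum]
      split_ifs with hkn
      · have e1 : N + 1 - n + k = N := by omega
        have e2 : N - 1 - k = N - n := by omega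
        rw [e1, e2]
        have : ∀ j, (ω ^ j) ^ N = 1 := by
          intro j
          rw [← pow_mul, mul_comm, pow_mul, hω.pow_eq_one, one_pow]
        simp only [this, Finset.sum_const, Finset.card_range, nsmul_eq_mul, mul_one]
        ring
      · rw [hroot, mul_zero]
        intro ⟨c, hc⟩
        have hc1 : N * c < N * 2 := by rw [← hc]; omega
        have hc2 : 0 < N * c := by rw [← hc]; omega
        have hc3 : c < 2 := Nat.lt_of_mul_lt_mul_left hc1
        have hc4 : 0 < c := by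
          rcases Nat.eq_zero_or_pos c with h' | h'
          · rw [h', mul_zero] at hc2; exact absurd hc2 (lt_irrefl 0)
          · exact h'
        have hc5 : c = 1 := by omega
        rw [hc5, mul_one] at hc
        omega
    rw [Finset.sum_congr rfl hk, Finset.sum_ite_eq']
    rw [if_pos (Finset.mem_range.mpr (by omega))]
  calc ∑ j ∈ Finset.range N, ((r * ω ^ j) ^ (N + 1 - n) / (N * r ^ N)) / (r * ω ^ j - z)
      = (N * r ^ N)⁻¹ * (r ^ N - z ^ N)⁻¹ * ∑ j ∈ Finset.range N, ∑ k ∈ Finset.range N,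
      (r * ω ^ j) ^ (N + 1 - n) * ((r * ω ^ j) ^ k * z ^ (N - 1 - k)) := by
        rw [Finset.mul_sum]
        apply Finset.sum_congr rfl
        intro j _
        rw [div_eq_mul_inv _ (r * ω ^ j - z), hgeom j, ← Finset.mul_sum]
        ring
    _ = _ := by
        rw [hmain]
        field_simp

end Pool.Agent.Helper655.Split
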