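import Mathlib
import Pool.Agent.Helper655.K5

set_option autoImplicit false

namespace Pool.Agent.Helper655.Split

open MeasureTheory Filter Topology Complex

theorem exp_half_le {m : ℕ} (hm : 2 ≤ m) : Real.exp (-(m : ℝ)) ≤ 1 / 2 := by
  have h1 : Real.exp (-(m : ℝ)) ≤ Real.exp (-1) := by
    apply Real.exp_le_exp.mpr
    have : (2 : ℝ) ≤ m := by exact_mod_cast hm
    linarith
  have h2 := Real.exp_neg_one_lt_d9
  linarith

/-- the polynomial built from the family `p` : pointwise bounds -/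
theorem pointwise (m n : ℕ) (hm : 2 ≤ m) (hn : 1 ≤ n) (hnm : n ≤ m ^ 2) (ω : ℂ)
    (hω : IsPrimitiveRoot ω (m ^ 2)) (p : ℕ → Polynomial ℂ)
    (hp1 : ∀ j, ∀ z : ℂ, ‖z‖ < 1 → ‖(p j).eval z‖ ≤ 2 * Real.exp (1 / (2 * (1 - ‖z‖))))
    (hp2 : ∀ j ∈ Finset.range (m ^ 2),
      Real.exp ((m : ℝ) / 64) / 2 ≤ ‖(p j).eval (((1 - 1 / m : ℝ) : ℂ) * ω ^ j)‖) :
    ∃ Q : Polynomial ℂ,
      (∀ z : ℂ, ‖z‖ ≤ 1 - 2 / m → ‖Q.eval z‖ ≤ 6 * 4 ^ n * m * Real.exp (-(m : ℝ) / 64) *
        Real.exp (1 / (2 * (1 - ‖z‖)))) ∧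
      (∀ z : ℂ, 1 - 2 / m < ‖z‖ → ‖z‖ < 1 → ‖Q.eval z‖ ≤ 2 ^ n * 10 * m *
        Real.exp (3 / (2 * (1 - ‖z‖)))) ∧
      (∀ z : ℂ, ‖z‖ = 1 → ‖Q.eval z - (z ^ n)⁻¹‖ ≤ 2 * Real.exp (-(m : ℝ)) +
        2 * 2 ^ n * m * Real.exp (-(m : ℝ) / 64) *
          ((1 / (m : ℝ) ^ 2) * ∑ j ∈ Finset.range (m ^ 2), ‖(p j).eval z‖)) := by
  have hmR : (2 : ℝ) ≤ m := by exact_mod_cast hm
  have hm0 : (0 : ℝ) < m := by linarith
  set h : ℝ := 1 / m with hh
  have hh0 : 0 < h := by positivity
  have hh1 : h ≤ 1 / 2 := by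
    rw [hh, div_le_div_iff₀ hm0 (by norm_num)]; linarith
  have hhm : h * m = 1 := by rw [hh]; field_simp
  have h2m : 2 / (m : ℝ) = 2 * h := by rw [hh]; ring
  set r : ℝ := 1 - h with hr
  have hr0 : 0 < r := by linarith
  have hr1 : r < 1 := by linarith
  have hr2 : 1 / 2 ≤ r := by linarith
  set N : ℕ := m ^ 2 with hN
  have hNpos : 0 < N := by positivity
  have hNR : (N : ℝ) = (m : ℝ) ^ 2 := by rw [hN]; push_cast; ring
  have hNR0 : (0 : ℝ) < N := by exact_mod_cast hNpos
  have hrN : r ^ N ≤ Real.exp (-(m : ℝ)) := by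
    have h1 : r ≤ Real.exp (-h) := by
      have := Real.add_one_le_exp (-h)
      linarith
    calc r ^ N ≤ (Real.exp (-h)) ^ N := by gcongr
      _ = Real.exp (-(m : ℝ)) := by
          rw [← Real.exp_nat_mul, hNR]
          congr 1
          have : (m : ℝ) ^ 2 * -h = -(m * (h * m)) := by ring
          rw [this, hhm, mul_one]
  have hexp2 := exp_half_le hm
  have hrNpos : 0 < r ^ N := by positivity
  have hωn : ‖ω‖ = 1 := hω.norm'_eq_one hNpos.ne'
  have hωj : ∀ j, ‖ω ^ j‖ = 1 := fun j => by rw [norm_pow, hωn, one_pow]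
  set lam : ℕ → ℂ := fun j => (r : ℂ) * ω ^ j with hlam
  have hlamn : ∀ j, ‖lam j‖ = r := by
    intro j
    simp only [hlam]
    rw [norm_mul, hωj, mul_one, Complex.norm_real, Real.norm_eq_abs, abs_of_pos hr0]
  have hlamN : ∀ j, (lam j) ^ N = (r : ℂ) ^ N := by
    intro j
    simp only [hlam]
    rw [mul_pow, ← pow_mul, mul_comm j N, pow_mul, hω.pow_eq_one, one_pow, mul_one]
  set c : ℕ → ℂ := fun j => (p j).eval (lam j) with hc
  have hcn : ∀ j ∈ Finset.range N, Real.exp ((m : ℝ) / 64) / 2 ≤ ‖c j‖ := hp2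
  have hexp64 : 1 ≤ Real.exp ((m : ℝ) / 64) := Real.one_le_exp (by positivity)
  have hcn' : ∀ j ∈ Finset.range N, 1 / 2 ≤ ‖c j‖ := fun j hj => by
    have := hcn j hj; linarith
  have hc0 : ∀ j ∈ Finset.range N, c j ≠ 0 := by
    intro j hj h0
    have := hcn' j hj
    rw [h0, norm_zero] at this
    linarith
  have hcinv : ∀ j ∈ Finset.range N, ‖c j‖⁻¹ ≤ 2 * Real.exp (-(m : ℝ) / 64) := by
    intro j hj
    have h1 := hcn j hj
    have h2 : 0 < Real.exp ((m : ℝ) / 64) := Real.exp_pos _
    have h3 : Real.exp (-(m : ℝ) / 64) = (Real.exp ((m : ℝ) / 64))⁻¹ := by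
      rw [← Real.exp_neg]; congr 1; ring
    rw [h3, inv_eq_one_div, ← div_eq_mul_inv, div_le_div_iff₀ (by linarith) h2]
    linarith
  -- the quotient polynomials
  have hd : ∀ j, ∃ d : Polynomial ℂ, ∀ z, (z - lam j) * d.eval z = (p j).eval z - c j := by
    intro j
    have h1 : (p j - Polynomial.C (c j)).IsRoot (lam j) := by
      simp [hc]
    obtain ⟨d, hd⟩ := Polynomial.dvd_iff_isRoot.mpr h1
    refine ⟨d, fun z => ?_⟩
    have := congrArg (Polynomial.eval z) hd
    simp only [Polynomial.eval_sub, Polynomial.eval_C, Polynomial.eval_mul, Polynomial.eval_X] at this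
    exact this.symm
  choose d hd using hd
  set wt : ℕ → ℂ := fun j => (lam j) ^ (N + 1 - n) / (N * (r : ℂ) ^ N) with hwt
  have hwtn : ∀ j, ‖wt j‖ ≤ 2 ^ n / N := by
    intro j
    simp only [hwt]
    rw [norm_div, norm_pow, hlamn, norm_mul, norm_pow, Complex.norm_real, Real.norm_eq_abs,
      abs_of_pos hr0, Complex.norm_natCast, div_le_div_iff₀ (by positivity) hNR0]
    have h1 : 1 ≤ 2 ^ n * r ^ n := by
      rw [← mul_pow]
      apply one_le_pow₀
      linarith
    have h2 : r ^ (N + 1 - n) ≤ 2 ^ n * r ^ N := by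
      calc r ^ (N + 1 - n) ≤ (2 ^ n * r ^ n) * r ^ (N + 1 - n) :=
            le_mul_of_one_le_left (by positivity) h1
        _ = 2 ^ n * (r ^ n * r ^ (N + 1 - n)) := by ring
        _ = 2 ^ n * r ^ (N + 1) := by
            rw [← pow_add]
            congr 2
            omega
        _ ≤ 2 ^ n * r ^ N := by
            gcongr 2 ^ n * ?_
            exact pow_le_pow_of_le_one hr0.le hr1.le (by omega)
    nlinarith
  let Q : Polynomial ℂ := -∑ j ∈ Finset.range N, Polynomial.C (wt j / c j) * d j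
  have hQ : ∀ z, Q.eval z = -∑ j ∈ Finset.range N, (wt j / c j) * (d j).eval z := by
    intro z
    simp only [Q]
    rw [Polynomial.eval_neg, Polynomial.eval_finsetSum]
    simp [Polynomial.eval_mul]
  -- formula away from the nodes
  have hform : ∀ z : ℂ, z ^ N ≠ (r : ℂ) ^ N → Q.eval z =
      (∑ j ∈ Finset.range N, wt j * ((p j).eval z / c j) / (lam j - z))
        - z ^ (N - n) / ((r : ℂ) ^ N - z ^ N) := by
    intro z hz
    have hne : ∀ j, lam j - z ≠ 0 := by
      intro j h0
      rw [sub_eq_zero] at h0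
      apply hz
      rw [← h0, hlamN]
    have h1 := partial_frac N n hn hnm (r : ℂ) (by exact_mod_cast hr0.ne') ω hω z hz
    rw [← h1, ← Finset.sum_sub_distrib, hQ, ← Finset.sum_neg_distrib]
    apply Finset.sum_congr rfl
    intro j hj
    have h2 := hd j z
    have h3 : (d j).eval z = ((p j).eval z - c j) / (z - lam j) := by
      rw [eq_div_iff (sub_ne_zero.mpr (fun h => hne j (by rw [h]; ring))), mul_comm]
      exact h2
    have h4 : z - lam j = -(lam j - z) := by ring
    have h5 := hc0 j hj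
    have h6 := hne j
    have h7 : ((r : ℂ) * ω ^ j) ^ (N + 1 - n) / (N * (r : ℂ) ^ N) = wt j := rfl
    have h8 : (r : ℂ) * ω ^ j = lam j := rfl
    rw [h7, h8, h3, h4]
    field_simp
  clear_value Q
  clear_value wt
  clear_value c
  clear_value lam
  refine ⟨Q, ?_, ?_, ?_⟩
  · -- region A
    intro z hz
    rw [h2m] at hz
    have hz0 := norm_nonneg z
    have hz1 : 0 < 1 - ‖z‖ := by linarith
    have hzr : ‖z‖ ≤ r ^ 2 := by
      have : r ^ 2 = 1 - 2 * h + h ^ 2 := by rw [hr]; ring
      nlinarith [sq_nonneg h]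
    have hzN : ‖z‖ ^ N ≤ r ^ N / 2 := by
      calc ‖z‖ ^ N ≤ (r ^ 2) ^ N := by gcongr
        _ = r ^ N * r ^ N := by ring
        _ ≤ r ^ N * (1 / 2) := by gcongr; linarith
        _ = r ^ N / 2 := by ring
    have hzN2 : ‖z‖ ^ (N - n) ≤ 4 ^ n * (r ^ N * r ^ N) := by
      have h1 : 1 ≤ 4 ^ n * (r ^ 2) ^ n := by
        rw [← mul_pow]
        apply one_le_pow₀
        nlinarith
      calc ‖z‖ ^ (N - n) ≤ (r ^ 2) ^ (N - n) := by gcongr
        _ ≤ (4 ^ n * (r ^ 2) ^ n) * (r ^ 2) ^ (N - n) :=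
            le_mul_of_one_le_left (by positivity) h1
        _ = 4 ^ n * ((r ^ 2) ^ n * (r ^ 2) ^ (N - n)) := by ring
        _ = 4 ^ n * (r ^ 2) ^ N := by
            rw [← pow_add]
            congr 2
            omega
        _ = _ := by ring
    have hdenom : r ^ N / 2 ≤ ‖(r : ℂ) ^ N - z ^ N‖ := by
      have h1 := norm_sub_norm_le ((r : ℂ) ^ N) (z ^ N)
      rw [norm_pow, norm_pow, Complex.norm_real, Real.norm_eq_abs, abs_of_pos hr0] at h1
      linarith
    have hne : z ^ N ≠ (r : ℂ) ^ N := by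
      intro h0
      rw [h0, sub_self, norm_zero] at hdenom
      linarith
    rw [hform z hne]
    have hR : ‖z ^ (N - n) / ((r : ℂ) ^ N - z ^ N)‖ ≤ 2 * 4 ^ n * Real.exp (-(m : ℝ)) := by
      rw [norm_div, norm_pow, div_le_iff₀ (by linarith)]
      calc ‖z‖ ^ (N - n) ≤ 4 ^ n * (r ^ N * r ^ N) := hzN2
        _ = 2 * 4 ^ n * r ^ N * (r ^ N / 2) := by ring
        _ ≤ 2 * 4 ^ n * Real.exp (-(m : ℝ)) * ‖(r : ℂ) ^ N - z ^ N‖ := by gcongr
    have hE : ‖∑ j ∈ Finset.range N, wt j * ((p j).eval z / c j) / (lam j - z)‖ ≤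
        4 * 2 ^ n * m * Real.exp (-(m : ℝ) / 64) * Real.exp (1 / (2 * (1 - ‖z‖))) := by
      calc ‖∑ j ∈ Finset.range N, wt j * ((p j).eval z / c j) / (lam j - z)‖
          ≤ ∑ j ∈ Finset.range N, ‖wt j * ((p j).eval z / c j) / (lam j - z)‖ :=
            norm_sum_le _ _
        _ ≤ ∑ j ∈ Finset.range N, (2 ^ n / N) * (2 * Real.exp (1 / (2 * (1 - ‖z‖))) *
              (2 * Real.exp (-(m : ℝ) / 64))) * m := by
            apply Finset.sum_le_sum
            intro j hj
            rw [norm_div, norm_mul, norm_div ((p j).eval z) (c j), div_eq_mul_inv _ ‖lam j - z‖,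
              div_eq_mul_inv _ ‖c j‖]
            have h1 : h ≤ ‖lam j - z‖ := by
              have := norm_sub_norm_le (lam j) z
              rw [hlamn] at this
              linarith
            have h2 : ‖lam j - z‖⁻¹ ≤ m := by
              rw [inv_le_comm₀ (by linarith) hm0, inv_eq_one_div]
              exact h1
            gcongr
            · exact hwtn j
            · exact hp1 j z (by linarith)
            · exact hcinv j hj
        _ = _ := by
            rw [Finset.sum_const, Finset.card_range, nsmul_eq_mul]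
            field_simp
            ring
    have hexp1 : 1 ≤ Real.exp (1 / (2 * (1 - ‖z‖))) := Real.one_le_exp (by positivity)
    have hexp3 : Real.exp (-(m : ℝ)) ≤ m * Real.exp (-(m : ℝ) / 64) := by
      have h1 : Real.exp (-(m : ℝ)) ≤ Real.exp (-(m : ℝ) / 64) := by
        apply Real.exp_le_exp.mpr
        linarith
      have h2 : Real.exp (-(m : ℝ) / 64) ≤ m * Real.exp (-(m : ℝ) / 64) :=
        le_mul_of_one_le_left (Real.exp_pos _).le (by linarith)
      linarith
    have h24 : (2 : ℝ) ^ n ≤ 4 ^ n := by gcongr; norm_num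
    set e1 := Real.exp (1 / (2 * (1 - ‖z‖))) with he1
    set e2 := Real.exp (-(m : ℝ) / 64) with he2
    have he2' : 0 < e2 := Real.exp_pos _
    calc ‖(∑ j ∈ Finset.range N, wt j * ((p j).eval z / c j) / (lam j - z))
        - z ^ (N - n) / ((r : ℂ) ^ N - z ^ N)‖
        ≤ 4 * 2 ^ n * m * e2 * e1 + 2 * 4 ^ n * Real.exp (-(m : ℝ)) :=
          (norm_sub_le _ _).trans (add_le_add hE hR)
      _ ≤ 4 * 4 ^ n * m * e2 * e1 + 2 * 4 ^ n * (m * e2) * e1 := by
          apply add_le_add
          · gcongr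
          · have : 2 * 4 ^ n * Real.exp (-(m : ℝ)) ≤ 2 * 4 ^ n * (m * e2) := by gcongr
            refine this.trans ?_
            exact le_mul_of_one_le_right (by positivity) hexp1
      _ = _ := by ring
  · -- region B
    intro z hz hz1
    rw [h2m] at hz
    have hz0 := norm_nonneg z
    have hz2 : 0 < 1 - ‖z‖ := by linarith
    have hdb : ∀ j ∈ Finset.range N, ‖(d j).eval z‖ ≤
        ‖c j‖ * (10 * m * Real.exp (3 / (2 * (1 - ‖z‖)))) := by
      intro j hj
      have hcj := hcn' j hj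
      -- bound away from the node
      have hfar : ∀ ζ : ℂ, h / 2 ≤ ‖ζ - lam j‖ → ∀ B : ℝ, 1 ≤ B → ‖(p j).eval ζ‖ ≤ 2 * B →
          ‖(d j).eval ζ‖ ≤ ‖c j‖ * (10 * m * B) := by
        intro ζ hζ B hB1 hB
        have h1 := congrArg norm (hd j ζ)
        rw [norm_mul] at h1
        have h2 : ‖(p j).eval ζ - c j‖ ≤ 2 * B + ‖c j‖ := (norm_sub_le _ _).trans (by linarith)
        have h3 : h / 2 * ‖(d j).eval ζ‖ ≤ 2 * B + ‖c j‖ := by
          calc h / 2 * ‖(d j).eval ζ‖ ≤ ‖ζ - lam j‖ * ‖(d j).eval ζ‖ := by gcongr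
            _ ≤ _ := by rw [h1]; exact h2
        have h4 : ‖(d j).eval ζ‖ = (2 * m) * (h / 2 * ‖(d j).eval ζ‖) := by
          calc ‖(d j).eval ζ‖ = (h * m) * ‖(d j).eval ζ‖ := by rw [hhm, one_mul]
            _ = _ := by ring
        rw [h4]
        calc (2 * m) * (h / 2 * ‖(d j).eval ζ‖) ≤ (2 * m) * (2 * B + ‖c j‖) := by gcongr
          _ ≤ (2 * m) * (5 * B * ‖c j‖) := by
              gcongr
              nlinarith
          _ = _ := by ring
      rcases le_or_gt (h / 2) ‖z - lam j‖ with h1 | h1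
      · apply hfar z h1
        · exact Real.one_le_exp (by positivity)
        · refine (hp1 j z hz1).trans ?_
          gcongr
          norm_num
      · -- maximum principle
        have hb : ∀ ζ ∈ frontier (Metric.ball (lam j) (h / 2)),
            ‖(d j).eval ζ‖ ≤ ‖c j‖ * (10 * m * Real.exp m) := by
          intro ζ hζ
          rw [frontier_ball _ (by positivity), Metric.mem_sphere, dist_eq_norm] at hζ
          have hζ1 : ‖ζ‖ ≤ 1 - h / 2 := by
            have h2 := norm_add_le (ζ - lam j) (lam j)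
            rw [sub_add_cancel, hlamn, hζ] at h2
            linarith
          apply hfar ζ hζ.ge
          · exact Real.one_le_exp (by positivity)
          · refine (hp1 j ζ (by linarith)).trans ?_
            gcongr
            rw [div_le_iff₀ (by linarith)]
            nlinarith
        have hmax := Complex.norm_le_of_forall_mem_frontier_norm_le
          (Metric.isBounded_ball (x := lam j) (r := h / 2))
          ((d j).differentiable.diffContOnCl) hb (z := z)
          (subset_closure (by rw [Metric.mem_ball, dist_eq_norm]; exact h1))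
        refine hmax.trans ?_
        gcongr
        rw [le_div_iff₀ (by positivity)]
        have h2 : 1 - ‖z‖ ≤ 3 * h / 2 := by
          have h3 := norm_sub_norm_le (lam j) z
          rw [hlamn, norm_sub_rev] at h3
          linarith
        nlinarith
    rw [hQ, norm_neg]
    calc ‖∑ j ∈ Finset.range N, (wt j / c j) * (d j).eval z‖
        ≤ ∑ j ∈ Finset.range N, ‖(wt j / c j) * (d j).eval z‖ := norm_sum_le _ _
      _ ≤ ∑ j ∈ Finset.range N, (2 ^ n / N) * (10 * m * Real.exp (3 / (2 * (1 - ‖z‖)))) := by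
          apply Finset.sum_le_sum
          intro j hj
          have hcj := hcn' j hj
          rw [norm_mul, norm_div]
          calc ‖wt j‖ / ‖c j‖ * ‖(d j).eval z‖
              ≤ ‖wt j‖ / ‖c j‖ * (‖c j‖ * (10 * m * Real.exp (3 / (2 * (1 - ‖z‖))))) := by
                gcongr
                exact hdb j hj
            _ = ‖wt j‖ * (10 * m * Real.exp (3 / (2 * (1 - ‖z‖)))) := by
                have : ‖c j‖ ≠ 0 := by linarith
                field_simp
            _ ≤ _ := by
                gcongr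
                exact hwtn j
      _ = _ := by
          rw [Finset.sum_const, Finset.card_range, nsmul_eq_mul]
          field_simp
  · -- circle
    intro z hz
    have hdenom : 1 / 2 ≤ ‖(r : ℂ) ^ N - z ^ N‖ := by
      have h1 := norm_sub_norm_le (z ^ N) ((r : ℂ) ^ N)
      rw [norm_pow, norm_pow, Complex.norm_real, Real.norm_eq_abs, abs_of_pos hr0, hz,
        one_pow, norm_sub_rev] at h1
      linarith
    have hne : z ^ N ≠ (r : ℂ) ^ N := by
      intro h0
      rw [h0, sub_self, norm_zero] at hdenom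
      linarith
    have hzne : z ≠ 0 := by
      intro h0; rw [h0, norm_zero] at hz; linarith
    have hdne : (r : ℂ) ^ N - z ^ N ≠ 0 := sub_ne_zero.mpr (Ne.symm hne)
    have hzpow : z ^ (N - n) = z ^ N * (z ^ n)⁻¹ := by
      rw [eq_mul_inv_iff_mul_eq₀ (pow_ne_zero _ hzne), ← pow_add]
      congr 1
      omega
    rw [hform z hne]
    have h1 : (∑ j ∈ Finset.range N, wt j * ((p j).eval z / c j) / (lam j - z))
        - z ^ (N - n) / ((r : ℂ) ^ N - z ^ N) - (z ^ n)⁻¹ =
        (∑ j ∈ Finset.range N, wt j * ((p j).eval z / c j) / (lam j - z))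
        - (r : ℂ) ^ N * (z ^ n)⁻¹ / ((r : ℂ) ^ N - z ^ N) := by
      rw [hzpow]
      have hznn : z ^ n ≠ 0 := pow_ne_zero _ hzne
      field_simp
      ring
    rw [h1]
    have hR : ‖(r : ℂ) ^ N * (z ^ n)⁻¹ / ((r : ℂ) ^ N - z ^ N)‖ ≤ 2 * Real.exp (-(m : ℝ)) := by
      rw [norm_div, norm_mul, norm_inv, norm_pow, norm_pow, hz, one_pow, inv_one, mul_one,
        Complex.norm_real, Real.norm_eq_abs, abs_of_pos hr0, div_le_iff₀ (by linarith)]
      nlinarith [Real.exp_pos (-(m : ℝ))]
    have hE : ‖∑ j ∈ Finset.range N, wt j * ((p j).eval z / c j) / (lam j - z)‖ ≤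
        2 * 2 ^ n * m * Real.exp (-(m : ℝ) / 64) *
          ((1 / (m : ℝ) ^ 2) * ∑ j ∈ Finset.range N, ‖(p j).eval z‖) := by
      calc ‖∑ j ∈ Finset.range N, wt j * ((p j).eval z / c j) / (lam j - z)‖
          ≤ ∑ j ∈ Finset.range N, ‖wt j * ((p j).eval z / c j) / (lam j - z)‖ :=
            norm_sum_le _ _
        _ ≤ ∑ j ∈ Finset.range N, (2 ^ n / N) * (‖(p j).eval z‖ *
              (2 * Real.exp (-(m : ℝ) / 64))) * m := by
            apply Finset.sum_le_sum
            intro j hj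
            rw [norm_div, norm_mul, norm_div ((p j).eval z) (c j), div_eq_mul_inv _ ‖lam j - z‖,
              div_eq_mul_inv _ ‖c j‖]
            have h1 : h ≤ ‖lam j - z‖ := by
              have := norm_sub_norm_le z (lam j)
              rw [hlamn, hz, norm_sub_rev] at this
              linarith
            have h2 : ‖lam j - z‖⁻¹ ≤ m := by
              rw [inv_le_comm₀ (by linarith) hm0, inv_eq_one_div]
              exact h1
            gcongr
            · exact hwtn j
            · exact hcinv j hj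
        _ = _ := by
            rw [Finset.mul_sum, Finset.mul_sum]
            apply Finset.sum_congr rfl
            intro j _
            rw [hNR]
            field_simp
    calc _ ≤ _ := norm_sub_le _ _
      _ ≤ _ := by linarith

end Pool.Agent.Helper655.Split
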