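import Mathlib
import Pool.Agent.Helper655.K6

set_option autoImplicit false

namespace Pool.Agent.Helper655.Split

open MeasureTheory Filter Topology Complex

theorem enorm_sq_eq (z : ℂ) : ‖z‖ₑ ^ 2 = ENNReal.ofReal (‖z‖ ^ 2) := by
  rw [ENNReal.ofReal_pow (norm_nonneg _), ofReal_norm]

theorem beta_tendsto : Tendsto (fun m : ℕ => (m : ℝ) ^ 2 * Real.exp (-(m : ℝ) / 32)) atTop
    (𝓝 0) := by
  have h1 := Real.tendsto_pow_mul_exp_neg_atTop_nhds_zero 2
  have h2 : Tendsto (fun m : ℕ => (m : ℝ) / 32) atTop atTop :=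
    tendsto_natCast_atTop_atTop.atTop_div_const (by norm_num)
  have h3 := (h1.comp h2).const_mul (1024 : ℝ)
  rw [mul_zero] at h3
  refine h3.congr (fun m => ?_)
  simp only [Function.comp_apply]
  have : -((m : ℝ) / 32) = -(m : ℝ) / 32 := by ring
  rw [this]
  ring

/-- weighted exponential mass is finite -/
theorem KG_lt_top (V : ℂ → ENNReal) 
    (hVfin : (∫⁻ z in Metric.ball (0 : ℂ) 1, V z) < ⊤) (ρ : ℝ) (hρ : ρ < 1)
    (hVb : ∀ z : ℂ, ρ < ‖z‖ → ‖z‖ < 1 → V z ≤ ENNReal.ofReal (Real.exp (-5 / (1 - ‖z‖)))) :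
    (∫⁻ z in Metric.ball (0 : ℂ) 1, V z * ENNReal.ofReal (Real.exp (1 / (1 - ‖z‖)))) < ⊤ := by
  have hle : ∀ᵐ z ∂(volume.restrict (Metric.ball (0 : ℂ) 1)),
      V z * ENNReal.ofReal (Real.exp (1 / (1 - ‖z‖))) ≤
      ENNReal.ofReal (Real.exp (1 / (1 - ρ))) * V z + 1 := by
    filter_upwards [ae_restrict_mem Metric.isOpen_ball.measurableSet] with z hz
    rw [mem_ball_zero_iff] at hz
    rcases le_or_gt ‖z‖ ρ with h | h
    · refine le_trans ?_ (le_add_of_nonneg_right (zero_le_one))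
      rw [mul_comm]
      gcongr
    · refine le_trans ?_ (le_add_of_nonneg_left zero_le)
      calc V z * ENNReal.ofReal (Real.exp (1 / (1 - ‖z‖)))
          ≤ ENNReal.ofReal (Real.exp (-5 / (1 - ‖z‖))) *
            ENNReal.ofReal (Real.exp (1 / (1 - ‖z‖))) := by
            gcongr
            exact hVb z h hz
        _ = ENNReal.ofReal (Real.exp (-5 / (1 - ‖z‖) + 1 / (1 - ‖z‖))) := by
            rw [← ENNReal.ofReal_mul (Real.exp_pos _).le, ← Real.exp_add]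
        _ ≤ ENNReal.ofReal 1 := by
            apply ENNReal.ofReal_le_ofReal
            rw [Real.exp_le_one_iff]
            have h1 : 0 < 1 - ‖z‖ := by linarith
            have : -5 / (1 - ‖z‖) + 1 / (1 - ‖z‖) = -(4 / (1 - ‖z‖)) := by ring
            rw [this, neg_nonpos]
            positivity
        _ = 1 := ENNReal.ofReal_one
  refine lt_of_le_of_lt (lintegral_mono_ae hle) ?_
  rw [lintegral_add_right _ measurable_const, lintegral_const_mul' _ _ ENNReal.ofReal_ne_top,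
    lintegral_const, Measure.restrict_apply_univ, one_mul]
  exact ENNReal.add_lt_top.mpr ⟨ENNReal.mul_lt_top ENNReal.ofReal_lt_top hVfin,
    measure_ball_lt_top⟩

theorem approx_neg_power (V : ℂ → ENNReal) 
    (hVfin : (∫⁻ z in Metric.ball (0 : ℂ) 1, V z) < ⊤) (ρ : ℝ) (hρ : ρ < 1)
    (hVb : ∀ z : ℂ, ρ < ‖z‖ → ‖z‖ < 1 → V z ≤ ENNReal.ofReal (Real.exp (-5 / (1 - ‖z‖))))
    (w : ℝ → ℝ) (hw : Measurable w) (hw0 : ∀ θ, 0 ≤ w θ)
    (hwi : (∫⁻ θ in Set.Ioc 0 (2 * Real.pi), ENNReal.ofReal (w θ)) < ⊤)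
    (hlog : ∀ a b : ℝ, 0 ≤ a → a < b → b ≤ 2 * Real.pi → ∫⁻ θ in Set.Ioo a b, nlog (w θ) = ⊤)
    (n : ℕ) (hn : 1 ≤ n) (ε : ℝ) (hε : 0 < ε) :
    ∃ Q : Polynomial ℂ,
      (∫⁻ z in Metric.ball (0 : ℂ) 1, V z * ‖Q.eval z‖ₑ ^ 2) ≤ ENNReal.ofReal ε ∧
      (∫⁻ θ in Set.Ioc 0 (2 * Real.pi), ENNReal.ofReal (w θ) *
        ‖Q.eval (pt θ) - (pt θ ^ n)⁻¹‖ₑ ^ 2) ≤ ENNReal.ofReal ε := by
  have hpi := Real.pi_pos
  set KG := ∫⁻ z in Metric.ball (0 : ℂ) 1, V z * ENNReal.ofReal (Real.exp (1 / (1 - ‖z‖)))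
    with hKG
  have hKGfin : KG < ⊤ := KG_lt_top V hVfin ρ hρ hVb
  set Iw := ∫⁻ θ in Set.Ioc 0 (2 * Real.pi), ENNReal.ofReal (w θ) with hIw
  set C1 : ENNReal := ENNReal.ofReal (36 * 16 ^ n) * KG +
    ENNReal.ofReal (100 * 16 ^ n) * volume (Metric.ball (0 : ℂ) 1) with hC1
  set C2 : ENNReal := 8 * Iw + ENNReal.ofReal (8 * 4 ^ n) * (5 * (Iw + 8)) with hC2
  have hC1fin : C1 < ⊤ := ENNReal.add_lt_top.mpr ⟨ENNReal.mul_lt_top ENNReal.ofReal_lt_top hKGfin,
    ENNReal.mul_lt_top ENNReal.ofReal_lt_top measure_ball_lt_top⟩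
  have hC2fin : C2 < ⊤ := ENNReal.add_lt_top.mpr ⟨ENNReal.mul_lt_top (by simp) hwi,
    ENNReal.mul_lt_top ENNReal.ofReal_lt_top (ENNReal.mul_lt_top (by simp)
      (ENNReal.add_lt_top.mpr ⟨hwi, by simp⟩))⟩
  have hCfin : C1 + C2 < ⊤ := ENNReal.add_lt_top.mpr ⟨hC1fin, hC2fin⟩
  set C := (C1 + C2).toReal with hC
  have hCeq : C1 + C2 = ENNReal.ofReal C := (ENNReal.ofReal_toReal hCfin.ne).symm
  have hC0 : 0 ≤ C := ENNReal.toReal_nonneg
  -- choose m
  obtain ⟨m, hm1, hm2, hm3, hm4⟩ : ∃ m : ℕ, 2 ≤ m ∧ n ≤ m ∧ ρ ≤ 1 - 2 / (m : ℝ) ∧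
      (m : ℝ) ^ 2 * Real.exp (-(m : ℝ) / 32) * C ≤ ε := by
    have e1 : ∀ᶠ m : ℕ in atTop, (m : ℝ) ^ 2 * Real.exp (-(m : ℝ) / 32) * C ≤ ε := by
      have h1 := beta_tendsto.mul_const C
      rw [zero_mul] at h1
      exact (h1.eventually (gt_mem_nhds hε)).mono (fun m hm => hm.le)
    have e2 : ∀ᶠ m : ℕ in atTop, ρ ≤ 1 - 2 / (m : ℝ) := by
      have h1 : Tendsto (fun m : ℕ => 1 - 2 / (m : ℝ)) atTop (𝓝 (1 - 0)) :=
        tendsto_const_nhds.sub (tendsto_const_div_atTop_nhds_zero_nat 2)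
      rw [sub_zero] at h1
      exact (h1.eventually (lt_mem_nhds hρ)).mono (fun m hm => hm.le)
    obtain ⟨m, hm⟩ := (((eventually_ge_atTop 2).and (eventually_ge_atTop n)).and
      (e2.and e1)).exists
    exact ⟨m, hm.1.1, hm.1.2, hm.2.1, hm.2.2⟩
  have hmR : (2 : ℝ) ≤ m := by exact_mod_cast hm1
  have hm0 : (0 : ℝ) < m := by linarith
  set β : ℝ := (m : ℝ) ^ 2 * Real.exp (-(m : ℝ) / 32) with hβ
  have hβ0 : 0 < β := by positivity
  have hNpos : 0 < m ^ 2 := by positivity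
  -- the polynomials
  have hkp : ∀ j ∈ Finset.range (m ^ 2), ∃ p : Polynomial ℂ,
      (∀ z : ℂ, ‖z‖ < 1 → ‖p.eval z‖ ≤ 2 * Real.exp (1 / (2 * (1 - ‖z‖)))) ∧
      Real.exp (1 / (64 * (1 / (m : ℝ)))) / 2 ≤
        ‖p.eval (((1 - 1 / (m : ℝ) : ℝ) : ℂ) * pt (2 * Real.pi * j / (m : ℝ) ^ 2))‖ ∧
      (∫⁻ θ in Set.Ioc 0 (2 * Real.pi), ENNReal.ofReal (w θ * ‖p.eval (pt θ)‖ ^ 2)) ≤
        5 * ((∫⁻ θ in Set.Ioc 0 (2 * Real.pi), ENNReal.ofReal (w θ)) + 8) := by
    intro j hj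
    rw [Finset.mem_range] at hj
    have hjR : (j : ℝ) ≤ (m : ℝ) ^ 2 := by exact_mod_cast hj.le
    apply key_poly w hw hw0 hwi hlog (1 / (m : ℝ)) (by positivity)
    · rw [div_le_div_iff₀ hm0 (by norm_num)]; linarith
    · positivity
    · rw [div_le_iff₀ (by positivity)]
      gcongr
  have hkp' : ∀ j : ℕ, ∃ p : Polynomial ℂ,
      (∀ z : ℂ, ‖z‖ < 1 → ‖p.eval z‖ ≤ 2 * Real.exp (1 / (2 * (1 - ‖z‖)))) ∧
      (j ∈ Finset.range (m ^ 2) → Real.exp (1 / (64 * (1 / (m : ℝ)))) / 2 ≤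
        ‖p.eval (((1 - 1 / (m : ℝ) : ℝ) : ℂ) * pt (2 * Real.pi * j / (m : ℝ) ^ 2))‖ ∧
      (∫⁻ θ in Set.Ioc 0 (2 * Real.pi), ENNReal.ofReal (w θ * ‖p.eval (pt θ)‖ ^ 2)) ≤
        5 * ((∫⁻ θ in Set.Ioc 0 (2 * Real.pi), ENNReal.ofReal (w θ)) + 8)) := by
    intro j
    by_cases hj : j ∈ Finset.range (m ^ 2)
    · obtain ⟨p, h1, h2, h3⟩ := hkp j hj
      exact ⟨p, h1, fun _ => ⟨h2, h3⟩⟩
    · exact ⟨0, fun z _ => by simp; positivity, fun h => absurd h hj⟩
  choose p hp1 hp2 using hkp'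
  have hω := Complex.isPrimitiveRoot_exp (m ^ 2) hNpos.ne'
  set ω := Complex.exp (2 * Real.pi * Complex.I / ((m ^ 2 : ℕ) : ℂ)) with hωdef
  have hωj : ∀ j : ℕ, pt (2 * Real.pi * j / (m : ℝ) ^ 2) = ω ^ j := by
    intro j
    rw [hωdef, ← Complex.exp_nat_mul]
    unfold pt
    congr 1
    push_cast
    ring
  obtain ⟨Q, hQA, hQB, hQC⟩ := pointwise m n hm1 hn (by nlinarith) ω hω p hp1 (by
    intro j hj
    have h1 := (hp2 j hj).1
    rw [hωj] at h1
    have h2 : 1 / (64 * (1 / (m : ℝ))) = (m : ℝ) / 64 := by field_simp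
    rwa [h2] at h1)
  have he64 : Real.exp (-(m : ℝ) / 64) ^ 2 = Real.exp (-(m : ℝ) / 32) := by
    rw [← Real.exp_nat_mul]; congr 1; push_cast; ring
  refine ⟨Q, ?_, ?_⟩
  · have hle : ∀ᵐ z ∂(volume.restrict (Metric.ball (0 : ℂ) 1)),
        V z * ‖Q.eval z‖ₑ ^ 2 ≤
        ENNReal.ofReal (36 * 16 ^ n * β) * (V z * ENNReal.ofReal (Real.exp (1 / (1 - ‖z‖))))
          + ENNReal.ofReal (100 * 16 ^ n * β) := by
      filter_upwards [ae_restrict_mem Metric.isOpen_ball.measurableSet] with z hz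
      rw [mem_ball_zero_iff] at hz
      have hz1 : 0 < 1 - ‖z‖ := by linarith
      rw [enorm_sq_eq]
      rcases le_or_gt ‖z‖ (1 - 2 / (m : ℝ)) with h | h
      · refine le_trans ?_ (le_add_of_nonneg_right zero_le)
        have h1 := hQA z h
        have h2 : ‖Q.eval z‖ ^ 2 ≤ 36 * 16 ^ n * β * Real.exp (1 / (1 - ‖z‖)) := by
          calc ‖Q.eval z‖ ^ 2 ≤ (6 * 4 ^ n * m * Real.exp (-(m : ℝ) / 64) *
                Real.exp (1 / (2 * (1 - ‖z‖)))) ^ 2 := by gcongr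
            _ = 36 * (4 ^ n) ^ 2 * ((m : ℝ) ^ 2 * Real.exp (-(m : ℝ) / 64) ^ 2) *
                Real.exp (1 / (2 * (1 - ‖z‖))) ^ 2 := by ring
            _ = _ := by
                have e4 : ((4 : ℝ) ^ n) ^ 2 = 16 ^ n := by
                  rw [← pow_mul, mul_comm n 2, pow_mul]; norm_num
                have e5 : Real.exp (1 / (2 * (1 - ‖z‖))) ^ 2 = Real.exp (1 / (1 - ‖z‖)) := by
                  rw [← Real.exp_nat_mul]
                  congr 1
                  push_cast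
                  field_simp
                rw [he64, e4, e5, ← hβ]
        calc V z * ENNReal.ofReal (‖Q.eval z‖ ^ 2)
            ≤ V z * ENNReal.ofReal (36 * 16 ^ n * β * Real.exp (1 / (1 - ‖z‖))) := by gcongr
          _ = _ := by
              rw [ENNReal.ofReal_mul (by positivity)]
              ring
      · refine le_trans ?_ (le_add_of_nonneg_left zero_le)
        have h1 := hQB z h hz
        have h3 := hVb z (by linarith) hz
        calc V z * ENNReal.ofReal (‖Q.eval z‖ ^ 2)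
            ≤ ENNReal.ofReal (Real.exp (-5 / (1 - ‖z‖))) * ENNReal.ofReal (‖Q.eval z‖ ^ 2) := by
              gcongr
          _ = ENNReal.ofReal (Real.exp (-5 / (1 - ‖z‖)) * ‖Q.eval z‖ ^ 2) :=
              (ENNReal.ofReal_mul (Real.exp_pos _).le).symm
          _ ≤ _ := by
              apply ENNReal.ofReal_le_ofReal
              calc Real.exp (-5 / (1 - ‖z‖)) * ‖Q.eval z‖ ^ 2
                  ≤ Real.exp (-5 / (1 - ‖z‖)) * (2 ^ n * 10 * m *
                    Real.exp (3 / (2 * (1 - ‖z‖)))) ^ 2 := by gcongr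
                _ = 100 * (2 ^ n) ^ 2 * (m : ℝ) ^ 2 * (Real.exp (-5 / (1 - ‖z‖)) *
                    Real.exp (3 / (2 * (1 - ‖z‖))) ^ 2) := by ring
                _ = 100 * 4 ^ n * (m : ℝ) ^ 2 * Real.exp (-(2 / (1 - ‖z‖))) := by
                    rw [← Real.exp_nat_mul, ← Real.exp_add, ← pow_mul, mul_comm n 2, pow_mul]
                    norm_num
                    left
                    field_simp
                    ring
                _ ≤ 100 * 16 ^ n * (m : ℝ) ^ 2 * Real.exp (-(m : ℝ) / 32) := by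
                    gcongr
                    · norm_num
                    · have h4 : (m : ℝ) ≤ 2 / (1 - ‖z‖) := by
                        rw [le_div_iff₀ hz1]
                        have : 1 - ‖z‖ ≤ 2 / (m : ℝ) := by linarith
                        calc (m : ℝ) * (1 - ‖z‖) ≤ m * (2 / m) := by gcongr
                          _ = 2 := by field_simp
                      linarith
                _ = _ := by rw [hβ]; ring
    calc (∫⁻ z in Metric.ball (0 : ℂ) 1, V z * ‖Q.eval z‖ₑ ^ 2)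
        ≤ ∫⁻ z in Metric.ball (0 : ℂ) 1, (ENNReal.ofReal (36 * 16 ^ n * β) *
          (V z * ENNReal.ofReal (Real.exp (1 / (1 - ‖z‖))))
          + ENNReal.ofReal (100 * 16 ^ n * β)) := lintegral_mono_ae hle
      _ = ENNReal.ofReal (36 * 16 ^ n * β) * KG +
          ENNReal.ofReal (100 * 16 ^ n * β) * volume (Metric.ball (0 : ℂ) 1) := by
          rw [lintegral_add_right _ measurable_const, lintegral_const_mul' _ _
            ENNReal.ofReal_ne_top, lintegral_const, Measure.restrict_apply_univ]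
      _ = ENNReal.ofReal β * C1 := by
          rw [hC1, ENNReal.ofReal_mul (p := 36 * 16 ^ n) (by positivity),
            ENNReal.ofReal_mul (p := 100 * 16 ^ n) (by positivity)]
          ring
      _ ≤ ENNReal.ofReal β * (C1 + C2) := by gcongr; exact le_self_add
      _ = ENNReal.ofReal (β * C) := by rw [hCeq, ENNReal.ofReal_mul hβ0.le]
      _ ≤ ENNReal.ofReal ε := ENNReal.ofReal_le_ofReal hm4
  · have hle : ∀ θ : ℝ, ENNReal.ofReal (w θ) * ‖Q.eval (pt θ) - (pt θ ^ n)⁻¹‖ₑ ^ 2 ≤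
        ENNReal.ofReal (8 * β) * ENNReal.ofReal (w θ) + ENNReal.ofReal (8 * 4 ^ n * β) *
          (ENNReal.ofReal (1 / (m : ℝ) ^ 2) *
          ∑ j ∈ Finset.range (m ^ 2), ENNReal.ofReal (w θ * ‖(p j).eval (pt θ)‖ ^ 2)) := by
      intro θ
      have hwθ := hw0 θ
      rw [enorm_sq_eq, ← ENNReal.ofReal_mul hwθ, ← ENNReal.ofReal_sum_of_nonneg
        (fun j _ => by positivity), ← ENNReal.ofReal_mul (by positivity),
        ← ENNReal.ofReal_mul (by positivity), ← ENNReal.ofReal_mul (by positivity),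
        ← ENNReal.ofReal_add (by positivity) (by positivity)]
      apply ENNReal.ofReal_le_ofReal
      have h1 := hQC (pt θ) (norm_pt θ)
      set S1 := ∑ j ∈ Finset.range (m ^ 2), ‖(p j).eval (pt θ)‖ with hS1
      have hS1nn : 0 ≤ S1 := by positivity
      have hCS : S1 ^ 2 ≤ (m : ℝ) ^ 2 * ∑ j ∈ Finset.range (m ^ 2), ‖(p j).eval (pt θ)‖ ^ 2 := by
        have := sq_sum_le_card_mul_sum_sq (s := Finset.range (m ^ 2))
          (f := fun j => ‖(p j).eval (pt θ)‖)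
        rw [Finset.card_range] at this
        push_cast at this
        exact this
      set S2 := ∑ j ∈ Finset.range (m ^ 2), ‖(p j).eval (pt θ)‖ ^ 2 with hS2
      have hβ2 : Real.exp (-(m : ℝ)) ^ 2 ≤ β := by
        rw [← Real.exp_nat_mul, hβ]
        calc Real.exp ((2 : ℕ) * -(m : ℝ)) ≤ Real.exp (-(m : ℝ) / 32) := by
              apply Real.exp_le_exp.mpr
              push_cast
              linarith
          _ ≤ (m : ℝ) ^ 2 * Real.exp (-(m : ℝ) / 32) :=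
              le_mul_of_one_le_left (Real.exp_pos _).le (by nlinarith)
      have h2 : ‖Q.eval (pt θ) - (pt θ ^ n)⁻¹‖ ^ 2 ≤ 8 * β + 8 * 4 ^ n * β *
          (1 / (m : ℝ) ^ 2 * S2) := by
        calc ‖Q.eval (pt θ) - (pt θ ^ n)⁻¹‖ ^ 2
            ≤ (2 * Real.exp (-(m : ℝ)) + 2 * 2 ^ n * m * Real.exp (-(m : ℝ) / 64) *
              ((1 / (m : ℝ) ^ 2) * S1)) ^ 2 := by gcongr
          _ ≤ 2 * (2 * Real.exp (-(m : ℝ))) ^ 2 + 2 * (2 * 2 ^ n * m *
              Real.exp (-(m : ℝ) / 64) * ((1 / (m : ℝ) ^ 2) * S1)) ^ 2 := by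
              nlinarith [sq_nonneg (2 * Real.exp (-(m : ℝ)) - 2 * 2 ^ n * m *
                Real.exp (-(m : ℝ) / 64) * ((1 / (m : ℝ) ^ 2) * S1))]
          _ = 8 * Real.exp (-(m : ℝ)) ^ 2 + 8 * (2 ^ n) ^ 2 * ((m : ℝ) ^ 2 *
              Real.exp (-(m : ℝ) / 64) ^ 2) * ((1 / (m : ℝ) ^ 2) ^ 2 * S1 ^ 2) := by ring
          _ ≤ 8 * β + 8 * 4 ^ n * β * ((1 / (m : ℝ) ^ 2) ^ 2 * ((m : ℝ) ^ 2 * S2)) := by
              rw [he64, ← hβ]
              have e4 : ((2 : ℝ) ^ n) ^ 2 = 4 ^ n := by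
                rw [← pow_mul, mul_comm n 2, pow_mul]; norm_num
              rw [e4]
              gcongr
          _ = _ := by field_simp
      calc w θ * ‖Q.eval (pt θ) - (pt θ ^ n)⁻¹‖ ^ 2
          ≤ w θ * (8 * β + 8 * 4 ^ n * β * (1 / (m : ℝ) ^ 2 * S2)) := by gcongr
        _ = _ := by rw [hS2, ← Finset.mul_sum]; ring
    have hmeas : ∀ j, Measurable (fun θ => ENNReal.ofReal (w θ * ‖(p j).eval (pt θ)‖ ^ 2)) := by
      intro j
      exact (hw.mul (((p j).continuous.comp continuous_pt).norm.pow 2).measurable).ennreal_ofReal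
    calc (∫⁻ θ in Set.Ioc 0 (2 * Real.pi), ENNReal.ofReal (w θ) *
        ‖Q.eval (pt θ) - (pt θ ^ n)⁻¹‖ₑ ^ 2)
        ≤ ∫⁻ θ in Set.Ioc 0 (2 * Real.pi), (ENNReal.ofReal (8 * β) * ENNReal.ofReal (w θ) +
          ENNReal.ofReal (8 * 4 ^ n * β) * (ENNReal.ofReal (1 / (m : ℝ) ^ 2) *
          ∑ j ∈ Finset.range (m ^ 2), ENNReal.ofReal (w θ * ‖(p j).eval (pt θ)‖ ^ 2))) :=
          lintegral_mono (fun θ => hle θ)
      _ = ENNReal.ofReal (8 * β) * Iw + ENNReal.ofReal (8 * 4 ^ n * β) *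
          (ENNReal.ofReal (1 / (m : ℝ) ^ 2) * ∑ j ∈ Finset.range (m ^ 2),
            ∫⁻ θ in Set.Ioc 0 (2 * Real.pi), ENNReal.ofReal (w θ * ‖(p j).eval (pt θ)‖ ^ 2)) := by
          rw [lintegral_add_left (hw.ennreal_ofReal.const_mul _),
            lintegral_const_mul' _ _ ENNReal.ofReal_ne_top,
            lintegral_const_mul' _ _ ENNReal.ofReal_ne_top,
            lintegral_const_mul' _ _ ENNReal.ofReal_ne_top,
            lintegral_finsetSum _ (fun j _ => hmeas j)]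
      _ ≤ ENNReal.ofReal (8 * β) * Iw + ENNReal.ofReal (8 * 4 ^ n * β) *
          (ENNReal.ofReal (1 / (m : ℝ) ^ 2) * ∑ j ∈ Finset.range (m ^ 2), 5 * (Iw + 8)) := by
          gcongr with j hj
          exact (hp2 j hj).2
      _ = ENNReal.ofReal β * C2 := by
          rw [Finset.sum_const, Finset.card_range, nsmul_eq_mul, ← mul_assoc
            (ENNReal.ofReal (1 / (m : ℝ) ^ 2))]
          have e1 : ENNReal.ofReal (1 / (m : ℝ) ^ 2) * ((m ^ 2 : ℕ) : ENNReal) = 1 := by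
            rw [← ENNReal.ofReal_natCast, ← ENNReal.ofReal_mul (by positivity)]
            rw [← ENNReal.ofReal_one]
            congr 1
            push_cast
            field_simp
          have e8 : (8 : ENNReal) = ENNReal.ofReal 8 := by simp
          rw [e1, one_mul, hC2, ENNReal.ofReal_mul (p := 8) (by norm_num),
            ENNReal.ofReal_mul (p := 8 * 4 ^ n) (by positivity), ← e8]
          ring
      _ ≤ ENNReal.ofReal β * (C1 + C2) := by gcongr; exact le_add_self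
      _ = ENNReal.ofReal (β * C) := by rw [hCeq, ENNReal.ofReal_mul hβ0.le]
      _ ≤ ENNReal.ofReal ε := ENNReal.ofReal_le_ofReal hm4

end Pool.Agent.Helper655.Split
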