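import Mathlib
import Pool.Agent.Helper655.K7

set_option autoImplicit false

namespace Pool.Agent.Helper655.Split

open MeasureTheory Filter Topology Complex

theorem enorm_add_sq_le (a b : ℂ) : ‖a + b‖ₑ ^ 2 ≤ 2 * (‖a‖ₑ ^ 2 + ‖b‖ₑ ^ 2) := by
  rw [enorm_sq_eq, enorm_sq_eq, enorm_sq_eq, ← ENNReal.ofReal_add (by positivity) (by positivity)]
  have e2 : (2 : ENNReal) = ENNReal.ofReal 2 := by simp
  rw [e2, ← ENNReal.ofReal_mul (by norm_num)]
  apply ENNReal.ofReal_le_ofReal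
  have h1 := norm_add_le a b
  have h2 : ‖a + b‖ ^ 2 ≤ (‖a‖ + ‖b‖) ^ 2 := by gcongr
  nlinarith [sq_nonneg (‖a‖ - ‖b‖)]

/-- joint approximation: small on the disc, close to `f` on the circle -/
def Approx (V : ℂ → ENNReal) (w : ℝ → ℝ) (f : ℝ → ℂ) : Prop :=
  ∀ ε : ℝ, 0 < ε → ∃ Q : Polynomial ℂ,
    (∫⁻ z in Metric.ball (0 : ℂ) 1, V z * ‖Q.eval z‖ₑ ^ 2) ≤ ENNReal.ofReal ε ∧
    (∫⁻ θ in Set.Ioc 0 (2 * Real.pi), ENNReal.ofReal (w θ) *
      ‖Q.eval (pt θ) - f θ‖ₑ ^ 2) ≤ ENNReal.ofReal ε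

theorem Approx.zero (V : ℂ → ENNReal) (w : ℝ → ℝ) : Approx V w (fun _ => 0) := by
  intro ε hε
  exact ⟨0, by simp, by simp⟩

theorem Approx.add {V : ℂ → ENNReal} (hV : Measurable V) {w : ℝ → ℝ} (hw : Measurable w)
    {f g : ℝ → ℂ} (hfm : Measurable f) (hf : Approx V w f) (hg : Approx V w g) :
    Approx V w (fun θ => f θ + g θ) := by
  intro ε hε
  obtain ⟨Q1, h1, h2⟩ := hf (ε / 4) (by positivity)
  obtain ⟨Q2, h3, h4⟩ := hg (ε / 4) (by positivity)
  have hfin : 2 * (ENNReal.ofReal (ε / 4) + ENNReal.ofReal (ε / 4)) = ENNReal.ofReal ε := by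
    have e2 : (2 : ENNReal) = ENNReal.ofReal 2 := by simp
    rw [← ENNReal.ofReal_add (by positivity) (by positivity), e2, ← ENNReal.ofReal_mul (by norm_num)]
    congr 1
    ring
  refine ⟨Q1 + Q2, ?_, ?_⟩
  · calc (∫⁻ z in Metric.ball (0 : ℂ) 1, V z * ‖(Q1 + Q2).eval z‖ₑ ^ 2)
        ≤ ∫⁻ z in Metric.ball (0 : ℂ) 1, 2 * (V z * ‖Q1.eval z‖ₑ ^ 2 + V z * ‖Q2.eval z‖ₑ ^ 2) := by
          apply lintegral_mono
          intro z
          simp only
          rw [Polynomial.eval_add]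
          calc V z * ‖Q1.eval z + Q2.eval z‖ₑ ^ 2
              ≤ V z * (2 * (‖Q1.eval z‖ₑ ^ 2 + ‖Q2.eval z‖ₑ ^ 2)) := by
                gcongr
                exact enorm_add_sq_le _ _
            _ = _ := by ring
      _ = 2 * ((∫⁻ z in Metric.ball (0 : ℂ) 1, V z * ‖Q1.eval z‖ₑ ^ 2) +
          ∫⁻ z in Metric.ball (0 : ℂ) 1, V z * ‖Q2.eval z‖ₑ ^ 2) := by
          rw [lintegral_const_mul' _ _ (by simp), lintegral_add_left]
          exact hV.mul (Q1.continuous.measurable.enorm.pow_const 2)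
      _ ≤ 2 * (ENNReal.ofReal (ε / 4) + ENNReal.ofReal (ε / 4)) := by gcongr
      _ = _ := hfin
  · calc (∫⁻ θ in Set.Ioc 0 (2 * Real.pi), ENNReal.ofReal (w θ) *
        ‖(Q1 + Q2).eval (pt θ) - (f θ + g θ)‖ₑ ^ 2)
        ≤ ∫⁻ θ in Set.Ioc 0 (2 * Real.pi), 2 * (ENNReal.ofReal (w θ) *
            ‖Q1.eval (pt θ) - f θ‖ₑ ^ 2 + ENNReal.ofReal (w θ) *
            ‖Q2.eval (pt θ) - g θ‖ₑ ^ 2) := by
          apply lintegral_mono
          intro θ
          simp only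
          rw [Polynomial.eval_add, add_sub_add_comm]
          calc ENNReal.ofReal (w θ) * ‖(Q1.eval (pt θ) - f θ) + (Q2.eval (pt θ) - g θ)‖ₑ ^ 2
              ≤ ENNReal.ofReal (w θ) * (2 * (‖Q1.eval (pt θ) - f θ‖ₑ ^ 2
                + ‖Q2.eval (pt θ) - g θ‖ₑ ^ 2)) := by
                gcongr
                exact enorm_add_sq_le _ _
            _ = _ := by ring
      _ = 2 * ((∫⁻ θ in Set.Ioc 0 (2 * Real.pi), ENNReal.ofReal (w θ) *
            ‖Q1.eval (pt θ) - f θ‖ₑ ^ 2) + ∫⁻ θ in Set.Ioc 0 (2 * Real.pi), ENNReal.ofReal (w θ) *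
            ‖Q2.eval (pt θ) - g θ‖ₑ ^ 2) := by
          rw [lintegral_const_mul' _ _ (by simp), lintegral_add_left]
          exact hw.ennreal_ofReal.mul ((((Q1.continuous.comp continuous_pt).measurable.sub
            hfm).enorm).pow_const 2)
      _ ≤ 2 * (ENNReal.ofReal (ε / 4) + ENNReal.ofReal (ε / 4)) := by gcongr
      _ = _ := hfin

theorem Approx.const_mul {V : ℂ → ENNReal} {w : ℝ → ℝ} {f : ℝ → ℂ} (hf : Approx V w f) (a : ℂ) :
    Approx V w (fun θ => a * f θ) := by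
  intro ε hε
  obtain ⟨Q1, h1, h2⟩ := hf (ε / (‖a‖ ^ 2 + 1)) (by positivity)
  have hfin : ‖a‖ₑ ^ 2 * ENNReal.ofReal (ε / (‖a‖ ^ 2 + 1)) ≤ ENNReal.ofReal ε := by
    rw [enorm_sq_eq, ← ENNReal.ofReal_mul (by positivity)]
    apply ENNReal.ofReal_le_ofReal
    rw [← mul_div_assoc, div_le_iff₀ (by positivity)]
    nlinarith
  have hfin2 : ‖a‖ₑ ^ 2 ≠ ⊤ := by rw [enorm_sq_eq]; exact ENNReal.ofReal_ne_top
  refine ⟨Polynomial.C a * Q1, ?_, ?_⟩
  · calc (∫⁻ z in Metric.ball (0 : ℂ) 1, V z * ‖(Polynomial.C a * Q1).eval z‖ₑ ^ 2)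
        = ∫⁻ z in Metric.ball (0 : ℂ) 1, ‖a‖ₑ ^ 2 * (V z * ‖Q1.eval z‖ₑ ^ 2) := by
          apply lintegral_congr
          intro z
          rw [Polynomial.eval_mul, Polynomial.eval_C, enorm_mul]
          ring
      _ = ‖a‖ₑ ^ 2 * ∫⁻ z in Metric.ball (0 : ℂ) 1, V z * ‖Q1.eval z‖ₑ ^ 2 :=
          lintegral_const_mul' _ _ hfin2
      _ ≤ ‖a‖ₑ ^ 2 * ENNReal.ofReal (ε / (‖a‖ ^ 2 + 1)) := by gcongr
      _ ≤ _ := hfin
  · calc (∫⁻ θ in Set.Ioc 0 (2 * Real.pi), ENNReal.ofReal (w θ) *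
        ‖(Polynomial.C a * Q1).eval (pt θ) - a * f θ‖ₑ ^ 2)
        = ∫⁻ θ in Set.Ioc 0 (2 * Real.pi), ‖a‖ₑ ^ 2 * (ENNReal.ofReal (w θ) *
            ‖Q1.eval (pt θ) - f θ‖ₑ ^ 2) := by
          apply lintegral_congr
          intro θ
          rw [Polynomial.eval_mul, Polynomial.eval_C, ← mul_sub, enorm_mul]
          ring
      _ = ‖a‖ₑ ^ 2 * ∫⁻ θ in Set.Ioc 0 (2 * Real.pi), ENNReal.ofReal (w θ) *
            ‖Q1.eval (pt θ) - f θ‖ₑ ^ 2 := lintegral_const_mul' _ _ hfin2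
      _ ≤ ‖a‖ₑ ^ 2 * ENNReal.ofReal (ε / (‖a‖ ^ 2 + 1)) := by gcongr
      _ ≤ _ := hfin

theorem Approx.pow_mul {V : ℂ → ENNReal} {w : ℝ → ℝ} {f : ℝ → ℂ} (hf : Approx V w f) (k : ℕ) :
    Approx V w (fun θ => pt θ ^ k * f θ) := by
  intro ε hε
  obtain ⟨Q1, h1, h2⟩ := hf ε hε
  refine ⟨Polynomial.X ^ k * Q1, le_trans ?_ h1, le_trans (le_of_eq ?_) h2⟩
  · apply lintegral_mono_ae
    filter_upwards [ae_restrict_mem Metric.isOpen_ball.measurableSet] with z hz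
    rw [mem_ball_zero_iff] at hz
    gcongr V z * ?_
    rw [enorm_sq_eq, enorm_sq_eq]
    apply ENNReal.ofReal_le_ofReal
    rw [Polynomial.eval_mul, Polynomial.eval_pow, Polynomial.eval_X, norm_mul, norm_pow]
    have h3 : ‖z‖ ^ k ≤ 1 := pow_le_one₀ (norm_nonneg _) hz.le
    have h4 : ‖z‖ ^ k * ‖Q1.eval z‖ ≤ ‖Q1.eval z‖ := mul_le_of_le_one_left (norm_nonneg _) h3
    gcongr
  · apply lintegral_congr
    intro θ
    rw [Polynomial.eval_mul, Polynomial.eval_pow, Polynomial.eval_X, ← mul_sub, enorm_mul]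
    have : ‖pt θ ^ k‖ₑ = 1 := by
      rw [← ofReal_norm, norm_pow, norm_pt, one_pow, ENNReal.ofReal_one]
    rw [this, one_mul]

theorem Approx.limit {V : ℂ → ENNReal} {w : ℝ → ℝ} (hw : Measurable w)
    {g : ℝ → ℂ} 
    (h : ∀ ε : ℝ, 0 < ε → ∃ f : ℝ → ℂ, Measurable f ∧ Approx V w f ∧
      (∫⁻ θ in Set.Ioc 0 (2 * Real.pi), ENNReal.ofReal (w θ) *
        ‖f θ - g θ‖ₑ ^ 2) ≤ ENNReal.ofReal ε) : Approx V w g := by
  intro ε hε
  obtain ⟨f, hfm, hf, hfg⟩ := h (ε / 4) (by positivity)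
  obtain ⟨Q1, h1, h2⟩ := hf (ε / 4) (by positivity)
  have hfin : 2 * (ENNReal.ofReal (ε / 4) + ENNReal.ofReal (ε / 4)) = ENNReal.ofReal ε := by
    have e2 : (2 : ENNReal) = ENNReal.ofReal 2 := by simp
    rw [← ENNReal.ofReal_add (by positivity) (by positivity), e2, ← ENNReal.ofReal_mul (by norm_num)]
    congr 1
    ring
  refine ⟨Q1, h1.trans (ENNReal.ofReal_le_ofReal (by linarith)), ?_⟩
  calc (∫⁻ θ in Set.Ioc 0 (2 * Real.pi), ENNReal.ofReal (w θ) *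
        ‖Q1.eval (pt θ) - g θ‖ₑ ^ 2)
        ≤ ∫⁻ θ in Set.Ioc 0 (2 * Real.pi), 2 * (ENNReal.ofReal (w θ) *
            ‖Q1.eval (pt θ) - f θ‖ₑ ^ 2 + ENNReal.ofReal (w θ) *
            ‖f θ - g θ‖ₑ ^ 2) := by
          apply lintegral_mono
          intro θ
          simp only
          have e : Q1.eval (pt θ) - g θ = (Q1.eval (pt θ) - f θ) + (f θ - g θ) := by ring
          rw [e]
          calc ENNReal.ofReal (w θ) * ‖(Q1.eval (pt θ) - f θ) + (f θ - g θ)‖ₑ ^ 2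
              ≤ ENNReal.ofReal (w θ) * (2 * (‖Q1.eval (pt θ) - f θ‖ₑ ^ 2
                + ‖f θ - g θ‖ₑ ^ 2)) := by
                gcongr
                exact enorm_add_sq_le _ _
            _ = _ := by ring
      _ = 2 * ((∫⁻ θ in Set.Ioc 0 (2 * Real.pi), ENNReal.ofReal (w θ) *
            ‖Q1.eval (pt θ) - f θ‖ₑ ^ 2) + ∫⁻ θ in Set.Ioc 0 (2 * Real.pi), ENNReal.ofReal (w θ) *
            ‖f θ - g θ‖ₑ ^ 2) := by
          rw [lintegral_const_mul' _ _ (by simp), lintegral_add_left]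
          exact hw.ennreal_ofReal.mul ((((Q1.continuous.comp continuous_pt).measurable.sub
            hfm).enorm).pow_const 2)
      _ ≤ 2 * (ENNReal.ofReal (ε / 4) + ENNReal.ofReal (ε / 4)) := by gcongr
      _ = _ := hfin

theorem approx_all (V : ℂ → ENNReal) (hV : Measurable V)
    (hVfin : (∫⁻ z in Metric.ball (0 : ℂ) 1, V z) < ⊤) (ρ : ℝ) (hρ : ρ < 1)
    (hVb : ∀ z : ℂ, ρ < ‖z‖ → ‖z‖ < 1 → V z ≤ ENNReal.ofReal (Real.exp (-5 / (1 - ‖z‖))))
    (w : ℝ → ℝ) (hw : Measurable w) (hw0 : ∀ θ, 0 ≤ w θ)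
    (hwi : (∫⁻ θ in Set.Ioc 0 (2 * Real.pi), ENNReal.ofReal (w θ)) < ⊤)
    (hlog : ∀ a b : ℝ, 0 ≤ a → a < b → b ≤ 2 * Real.pi → ∫⁻ θ in Set.Ioo a b, nlog (w θ) = ⊤)
    (g : ℂ → ℂ) (hg : Measurable g)
    (hgi : (∫⁻ θ in Set.Ioc 0 (2 * Real.pi), ENNReal.ofReal (w θ) * ‖g (pt θ)‖ₑ ^ 2) < ⊤) :
    Approx V w (fun θ => g (pt θ)) := by
  have hmpt : Measurable pt := continuous_pt.measurable
  -- integer powers
  have hz : ∀ k : ℤ, Approx V w (fun θ => pt θ ^ k) := by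
    intro k
    have h1 : Approx V w (fun θ => (pt θ ^ (k.natAbs + 1))⁻¹) := by
      intro ε hε
      exact approx_neg_power V hVfin ρ hρ hVb w hw hw0 hwi hlog (k.natAbs + 1) (by omega) ε hε
    have h2 := h1.pow_mul (k + (k.natAbs + 1)).toNat
    have h3 : (fun θ => pt θ ^ k) = (fun θ => pt θ ^ (k + (k.natAbs + 1)).toNat *
        (pt θ ^ (k.natAbs + 1))⁻¹) := by
      funext θ
      rw [← zpow_natCast, ← zpow_natCast (pt θ) (k.natAbs + 1), ← zpow_neg, ← zpow_add₀ (pt_ne_zero θ)]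
      congr 1
      omega
    rw [h3]
    exact h2
  have hzm : ∀ k : ℤ, Measurable (fun θ => pt θ ^ k) := by
    intro k
    apply Continuous.measurable
    exact continuous_pt.zpow₀ k (fun θ => Or.inl (pt_ne_zero θ))
  have hsum : ∀ (c : ℤ → ℂ) (s : Finset ℤ), Approx V w (fun θ => ∑ k ∈ s, c k * pt θ ^ k) := by
    intro c s
    induction s using Finset.induction_on with
    | empty => simpa using Approx.zero V w
    | insert a s ha ih =>
      simp only [Finset.sum_insert ha]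
      exact Approx.add hV hw ((hzm a).const_mul (c a)) ((hz a).const_mul (c a)) ih
  have hsumm : ∀ (c : ℤ → ℂ) (s : Finset ℤ), Measurable (fun θ => ∑ k ∈ s, c k * pt θ ^ k) := by
    intro c s
    exact Finset.measurable_fun_sum _ (fun k _ => (hzm k).const_mul (c k))
  -- the boundary measure
  let μ0 : Measure ℝ := (volume.restrict (Set.Ioc 0 (2 * Real.pi))).withDensity
    (fun θ => ENNReal.ofReal (w θ))
  have hμ0fin : IsFiniteMeasure μ0 := isFiniteMeasure_withDensity hwi.ne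
  let μ : Measure ℂ := μ0.map pt
  have hμfin : IsFiniteMeasure μ := by
    simp only [μ]
    infer_instance
  have hμint : ∀ F : ℂ → ENNReal, Measurable F → ∫⁻ z, F z ∂μ =
      ∫⁻ θ in Set.Ioc 0 (2 * Real.pi), ENNReal.ofReal (w θ) * F (pt θ) := by
    intro F hF
    simp only [μ, μ0]
    rw [lintegral_map hF hmpt]
    exact lintegral_withDensity_eq_lintegral_mul _ hw.ennreal_ofReal (hF.comp hmpt)
  have hpow : ∀ F : ℂ → ℂ, ∫⁻ z, ‖F z‖ₑ ^ ((2 : ENNReal).toReal) ∂μ = ∫⁻ z, ‖F z‖ₑ ^ 2 ∂μ := by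
    intro F
    apply lintegral_congr
    intro z
    rw [ENNReal.toReal_ofNat]
    norm_cast
  have hgL : MemLp g 2 μ := by
    refine ⟨hg.aestronglyMeasurable, ?_⟩
    rw [eLpNorm_lt_top_iff_lintegral_rpow_enorm_lt_top (by norm_num) (by norm_num), hpow,
      hμint _ (hg.enorm.pow_const 2)]
    exact hgi
  apply Approx.limit hw
  intro ε hε
  set δ : ℝ := Real.sqrt (ε / 4) with hδ
  have hδ0 : 0 < δ := Real.sqrt_pos.mpr (by positivity)
  have hδ2 : δ ^ 2 = ε / 4 := Real.sq_sqrt (by positivity)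
  obtain ⟨f, hf1, hf2⟩ := hgL.exists_boundedContinuous_eLpNorm_sub_le (by norm_num)
    (ε := ENNReal.ofReal δ) (by simpa using hδ0)
  have hf3 : ∫⁻ θ in Set.Ioc 0 (2 * Real.pi), ENNReal.ofReal (w θ) *
      ‖g (pt θ) - f (pt θ)‖ₑ ^ 2 ≤ ENNReal.ofReal (ε / 4) := by
    have h1 := eLpNorm_nnreal_pow_eq_lintegral (f := g - ⇑f) (μ := μ) (p := 2) (by norm_num)
    have h2 : ∫⁻ z, ‖(g - ⇑f) z‖ₑ ^ ((2 : NNReal) : ℝ) ∂μ = ∫⁻ z, ‖(g - ⇑f) z‖ₑ ^ 2 ∂μ := by
      apply lintegral_congr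
      intro z
      rw [show ((2 : NNReal) : ℝ) = (2 : ℝ) from rfl, ENNReal.rpow_two]
    rw [h2, hμint _ ((hg.sub f.continuous.measurable).enorm.pow_const 2)] at h1
    simp only [Pi.sub_apply] at h1
    rw [← h1]
    calc eLpNorm (g - ⇑f) ((2 : NNReal) : ENNReal) μ ^ ((2 : NNReal) : ℝ)
        ≤ ENNReal.ofReal δ ^ ((2 : NNReal) : ℝ) := by
          gcongr
          exact hf1
      _ = ENNReal.ofReal (δ ^ 2) := by
          rw [ENNReal.ofReal_pow hδ0.le, show ((2 : NNReal) : ℝ) = (2 : ℝ) from rfl,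
            ENNReal.rpow_two]
      _ = _ := by rw [hδ2]
  -- trigonometric approximation of f
  set Iw := ∫⁻ θ in Set.Ioc 0 (2 * Real.pi), ENNReal.ofReal (w θ) with hIw
  set η : ℝ := Real.sqrt (ε / (4 * (Iw.toReal + 1))) with hη
  have hIw0 : 0 ≤ Iw.toReal := ENNReal.toReal_nonneg
  have hη0 : 0 < η := Real.sqrt_pos.mpr (by positivity)
  have hη2 : η ^ 2 = ε / (4 * (Iw.toReal + 1)) := Real.sq_sqrt (by positivity)
  obtain ⟨c, hc⟩ := trig_approx f f.continuous η hη0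
  have hc' : (fun θ => c.sum (fun k a => a * pt θ ^ k)) =
      (fun θ => ∑ k ∈ c.support, c k * pt θ ^ k) := rfl
  refine ⟨fun θ => c.sum (fun k a => a * pt θ ^ k), ?_, ?_, ?_⟩
  · rw [hc']; exact hsumm _ _
  · rw [hc']; exact hsum _ _
  · have hmeas1 : Measurable (fun θ => ENNReal.ofReal (w θ) * ‖g (pt θ) - f (pt θ)‖ₑ ^ 2) :=
      hw.ennreal_ofReal.mul ((((hg.comp hmpt).sub (f.continuous.comp continuous_pt).measurable
            ).enorm).pow_const 2)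
    calc (∫⁻ θ in Set.Ioc 0 (2 * Real.pi), ENNReal.ofReal (w θ) *
        ‖c.sum (fun k a => a * pt θ ^ k) - g (pt θ)‖ₑ ^ 2)
        ≤ ∫⁻ θ in Set.Ioc 0 (2 * Real.pi), 2 * (ENNReal.ofReal (w θ) *
            ‖g (pt θ) - f (pt θ)‖ₑ ^ 2 + ENNReal.ofReal (η ^ 2) * ENNReal.ofReal (w θ)) := by
          apply lintegral_mono
          intro θ
          simp only
          have e : c.sum (fun k a => a * pt θ ^ k) - g (pt θ)
              = -(g (pt θ) - f (pt θ)) + -(f (pt θ) - c.sum (fun k a => a * pt θ ^ k)) := by ring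
          rw [e]
          calc ENNReal.ofReal (w θ) * ‖-(g (pt θ) - f (pt θ)) +
                -(f (pt θ) - c.sum (fun k a => a * pt θ ^ k))‖ₑ ^ 2
              ≤ ENNReal.ofReal (w θ) * (2 * (‖g (pt θ) - f (pt θ)‖ₑ ^ 2
                + ENNReal.ofReal (η ^ 2))) := by
                gcongr
                refine (enorm_add_sq_le _ _).trans ?_
                rw [enorm_neg, enorm_neg]
                gcongr
                rw [enorm_sq_eq]
                apply ENNReal.ofReal_le_ofReal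
                have := hc θ
                gcongr
            _ = _ := by ring
      _ = 2 * ((∫⁻ θ in Set.Ioc 0 (2 * Real.pi), ENNReal.ofReal (w θ) *
            ‖g (pt θ) - f (pt θ)‖ₑ ^ 2) + ENNReal.ofReal (η ^ 2) * Iw) := by
          rw [lintegral_const_mul' _ _ (by simp), lintegral_add_left hmeas1,
            lintegral_const_mul' _ _ ENNReal.ofReal_ne_top]
      _ ≤ 2 * (ENNReal.ofReal (ε / 4) + ENNReal.ofReal (ε / 4)) := by
          gcongr
          have : Iw = ENNReal.ofReal Iw.toReal := (ENNReal.ofReal_toReal hwi.ne).symm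
          rw [this, ← ENNReal.ofReal_mul (by positivity)]
          apply ENNReal.ofReal_le_ofReal
          rw [hη2, div_mul_eq_mul_div, div_le_div_iff₀ (by positivity) (by norm_num)]
          nlinarith
      _ = ENNReal.ofReal ε := by
          have e2 : (2 : ENNReal) = ENNReal.ofReal 2 := by simp
          rw [← ENNReal.ofReal_add (by positivity) (by positivity), e2,
            ← ENNReal.ofReal_mul (by norm_num)]
          congr 1
          ring

end Pool.Agent.Helper655.Split
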