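import Mathlib
import Pool.Agent.Helper655.K8

set_option autoImplicit false

namespace Pool.Agent.Helper655.Split

open MeasureTheory Filter Topology Complex

/-- decay near the circle from the limit condition -/
theorem decay_of_tendsto (G : ℝ → ℝ) (hG : ∀ r : ℝ, 0 < r → r < 1 → 0 < G r)
    (ht : Tendsto (fun r : ℝ => (1 - r) * Real.log (1 / G r)) (𝓝[<] (1 : ℝ)) atTop) :
    ∃ ρ : ℝ, 0 ≤ ρ ∧ ρ < 1 ∧ ∀ r : ℝ, ρ < r → r < 1 → G r ≤ Real.exp (-5 / (1 - r)) := by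
  have h1 := ht.eventually_ge_atTop 5
  obtain ⟨l, hl1, hl2⟩ := (mem_nhdsLT_iff_exists_Ioo_subset).mp h1
  refine ⟨max l 0, le_max_right _ _, max_lt hl1 one_pos, fun r hr1 hr2 => ?_⟩
  have hr0 : 0 < r := lt_of_le_of_lt (le_max_right _ _) hr1
  have hrl : l < r := lt_of_le_of_lt (le_max_left _ _) hr1
  have h2 : 5 ≤ (1 - r) * Real.log (1 / G r) := hl2 ⟨hrl, hr2⟩
  have h3 := hG r hr0 hr2
  have h4 : 0 < 1 - r := by linarith
  rw [one_div, Real.log_inv] at h2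
  rw [← Real.log_le_iff_le_exp h3, le_div_iff₀ h4]
  linarith

end Pool.Agent.Helper655.Split
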