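import Mathlib
import Pool.Agent.Helper655.K9

set_option autoImplicit false

namespace Pool.Agent.Helper655.Split

open MeasureTheory Filter Topology Complex

theorem eLpNorm_two_sq (μ : Measure ℂ) (F : ℂ → ℂ) :
    eLpNorm F 2 μ ^ 2 = ∫⁻ z, ‖F z‖ₑ ^ 2 ∂μ := by
  have h1 := eLpNorm_nnreal_pow_eq_lintegral (f := F) (μ := μ) (p := 2) (by norm_num)
  rw [show ((2 : NNReal) : ℝ) = (2 : ℝ) from rfl, ENNReal.rpow_two] at h1
  have h2 : ∫⁻ z, ‖F z‖ₑ ^ (2 : ℝ) ∂μ = ∫⁻ z, ‖F z‖ₑ ^ 2 ∂μ := by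
    apply lintegral_congr
    intro z
    rw [ENNReal.rpow_two]
  rw [h2] at h1
  exact h1

theorem closure_iff (μ : Measure ℂ) (hp : ∀ p : Polynomial ℂ, MemLp (fun z => p.eval z) 2 μ)
    (f : Lp ℂ 2 μ) :
    f ∈ closure {h : Lp ℂ 2 μ | ∃ p : Polynomial ℂ, (h : ℂ → ℂ) =ᵐ[μ] fun z => p.eval z} ↔
    ∀ ε : ℝ, 0 < ε → ∃ p : Polynomial ℂ,
      ∫⁻ z, ‖(f : ℂ → ℂ) z - p.eval z‖ₑ ^ 2 ∂μ ≤ ENNReal.ofReal ε := by
  rw [EMetric.mem_closure_iff]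
  constructor
  · intro h ε hε
    obtain ⟨y, ⟨p, hyp⟩, hy⟩ := h (ENNReal.ofReal (Real.sqrt ε))
      (by simpa using Real.sqrt_pos.mpr hε)
    refine ⟨p, ?_⟩
    have h1 : (fun z => (f : ℂ → ℂ) z - p.eval z) =ᵐ[μ] (f : ℂ → ℂ) - (y : ℂ → ℂ) := by
      filter_upwards [hyp] with z hz
      rw [Pi.sub_apply, hz]
    rw [← eLpNorm_two_sq μ (fun z => (f : ℂ → ℂ) z - p.eval z), eLpNorm_congr_ae h1,
      ← Lp.edist_def]
    calc edist f y ^ 2 ≤ ENNReal.ofReal (Real.sqrt ε) ^ 2 := by gcongr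
      _ = ENNReal.ofReal ε := by
          rw [← ENNReal.ofReal_pow (Real.sqrt_nonneg _), Real.sq_sqrt hε.le]
  · intro h ε hε
    obtain ⟨δ, hδ0, hδ1, hδ2⟩ := ENNReal.lt_iff_exists_real_btwn.mp hε
    have hδpos : 0 < δ := by simpa using hδ1
    obtain ⟨p, hpp⟩ := h (δ ^ 2) (by positivity)
    refine ⟨(hp p).toLp _, ⟨p, MemLp.coeFn_toLp _⟩, ?_⟩
    refine lt_of_le_of_lt ?_ hδ2
    have h1 : (fun z => (f : ℂ → ℂ) z - p.eval z) =ᵐ[μ]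
        (f : ℂ → ℂ) - (((hp p).toLp _ : Lp ℂ 2 μ) : ℂ → ℂ) := by
      filter_upwards [MemLp.coeFn_toLp (hp p)] with z hz
      rw [Pi.sub_apply, hz]
    rw [Lp.edist_def, ← eLpNorm_congr_ae h1]
    have h2 := eLpNorm_two_sq μ (fun z => (f : ℂ → ℂ) z - p.eval z)
    have h3 : eLpNorm (fun z => (f : ℂ → ℂ) z - p.eval z) 2 μ ^ 2 ≤ ENNReal.ofReal δ ^ 2 := by
      rw [h2, ← ENNReal.ofReal_pow hδ0]
      exact hpp
    exact (ENNReal.pow_le_pow_left_iff (by norm_num)).mp h3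

end Pool.Agent.Helper655.Split
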