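import Mathlib
import Pool.Agent.Helper655.K10

set_option autoImplicit false

namespace Pool.Agent.Helper655.Split

open MeasureTheory Filter Topology Complex

theorem nlog_top_of_weak (W : ℝ → ℝ) (hW : Measurable W) (hW0 : ∀ θ, 0 ≤ W θ) (a b : ℝ)
    (hab : a < b)
    (hcond : ∀ M : ℝ, ∃ ε : ℝ, 0 < ε ∧ ε < 1 ∧
      M < (volume {θ ∈ Set.Icc a b | W θ ≤ ε}).toReal / (b - a) * Real.log (1 / ε)) :
    ∫⁻ θ in Set.Ioo a b, nlog (W θ) = ⊤ := by
  by_contra hne
  have hall : ∀ M : NNReal, (M : ENNReal) ≤ ∫⁻ θ in Set.Ioo a b, nlog (W θ) := by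
   intro M
   obtain ⟨ε, hε0, hε1, hM⟩ := hcond (M / (b - a))
   have hba : 0 < b - a := by linarith
   have hlogpos : 0 < Real.log (1 / ε) := by
     apply Real.log_pos
     rw [one_div]
     exact (one_lt_inv₀ hε0).mpr hε1
   set S := {θ ∈ Set.Icc a b | W θ ≤ ε} with hS
   have hM2 : (M : ℝ) < (volume S).toReal * Real.log (1 / ε) := by
     rw [div_mul_eq_mul_div, div_lt_div_iff_of_pos_right hba] at hM
     exact hM
   have hres : (volume.restrict (Set.Ioo a b)) = volume.restrict (Set.Icc a b) :=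
     restrict_Ioo_eq_restrict_Icc
   rw [hres]
   have h1 := mul_meas_ge_le_lintegral₀ (μ := volume.restrict (Set.Icc a b))
     (f := fun θ => nlog (W θ)) ((measurable_nlog.comp hW).aemeasurable)
     (ENNReal.ofReal (Real.log (1 / ε)))
   refine le_trans ?_ h1
   have h2 : volume S ≤ (volume.restrict (Set.Icc a b))
       {x | ENNReal.ofReal (Real.log (1 / ε)) ≤ nlog (W x)} := by
     rw [Measure.restrict_apply' measurableSet_Icc]
     apply measure_mono
     intro θ hθ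
     refine ⟨?_, hθ.1⟩
     rw [Set.mem_ofPred_eq]
     unfold nlog
     split_ifs with h0
     · exact le_top
     · apply ENNReal.ofReal_le_ofReal
       have h3 : 0 < W θ := lt_of_le_of_ne (hW0 θ) (Ne.symm h0)
       rw [one_div, Real.log_inv, neg_le_neg_iff]
       exact Real.log_le_log h3 hθ.2
   have hSfin : volume S ≠ ⊤ := by
     apply ne_top_of_le_ne_top _ (measure_mono (show S ⊆ Set.Icc a b from fun θ hθ => hθ.1))
     simp
   calc (M : ENNReal) ≤ ENNReal.ofReal ((volume S).toReal * Real.log (1 / ε)) := by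
         rw [← ENNReal.ofReal_coe_nnreal]
         exact ENNReal.ofReal_le_ofReal hM2.le
     _ = ENNReal.ofReal (Real.log (1 / ε)) * volume S := by
         rw [mul_comm, ENNReal.ofReal_mul hlogpos.le, ENNReal.ofReal_toReal hSfin]
     _ ≤ _ := by gcongr
  obtain ⟨n, hn⟩ := ENNReal.exists_nat_gt hne
  exact absurd (hall n) (not_le.mpr (by simpa using hn))

theorem G_lintegral_lt_top (G : ℝ → ℝ) 
    (hGi : IntegrableOn (fun r => G r * r) (Set.Ioo (0 : ℝ) 1)) :
    (∫⁻ z in Metric.ball (0 : ℂ) 1, ENNReal.ofReal (G ‖z‖)) < ⊤ := by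
  have h1 : Integrable (fun z : ℂ => (Set.indicator (Set.Iio (1 : ℝ)) G) ‖z‖) volume := by
    rw [integrable_fun_norm_addHaar (μ := (volume : Measure ℂ)), Complex.finrank_real_complex]
    have h2 : (fun y : ℝ => y ^ (2 - 1) • Set.indicator (Set.Iio (1 : ℝ)) G y)
        = Set.indicator (Set.Iio (1 : ℝ)) (fun r => G r * r) := by
      funext y
      by_cases hy : y ∈ Set.Iio (1 : ℝ)
      · rw [Set.indicator_of_mem hy, Set.indicator_of_mem hy]
        simp [mul_comm]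
      · rw [Set.indicator_of_notMem hy, Set.indicator_of_notMem hy, smul_zero]
    rw [h2, IntegrableOn, integrable_indicator_iff measurableSet_Iio, IntegrableOn,
      Measure.restrict_restrict measurableSet_Iio]
    have h3 : Set.Iio (1 : ℝ) ∩ Set.Ioi 0 = Set.Ioo 0 1 := by
      ext x
      simp [and_comm]
    rw [h3]
    exact hGi
  have h4 := h1.lintegral_lt_top
  refine lt_of_le_of_lt ?_ h4
  rw [← lintegral_indicator Metric.isOpen_ball.measurableSet]
  apply lintegral_mono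
  intro z
  by_cases hz : z ∈ Metric.ball (0 : ℂ) 1
  · simp only [Set.indicator_of_mem hz]
    rw [mem_ball_zero_iff] at hz
    rw [Set.indicator_of_mem (show ‖z‖ ∈ Set.Iio (1 : ℝ) from hz)]
  · simp only [Set.indicator_of_notMem hz]
    exact zero_le

theorem closure_split (G W : ℝ → ℝ) (hG : Measurable G)
    (hG0 : ∀ r ∈ Set.Ioo (0 : ℝ) 1, 0 < G r)
    (hGi : IntegrableOn (fun r => G r * r) (Set.Ioo (0 : ℝ) 1))
    (ht : Tendsto (fun r => (1 - r) * Real.log (1 / G r)) (𝓝[<] (1 : ℝ)) atTop)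
    (hW : Measurable W) (hW0 : ∀ θ, 0 ≤ W θ)
    (hWi : IntegrableOn W (Set.Ioc (0 : ℝ) (2 * Real.pi)))
    (hcond : ∀ a b : ℝ, 0 ≤ a → a < b → b ≤ 2 * Real.pi → ∀ M : ℝ, ∃ ε : ℝ, 0 < ε ∧ ε < 1 ∧
      M < (volume {θ ∈ Set.Icc a b | W θ ≤ ε}).toReal / (b - a) * Real.log (1 / ε))
    (ν σ : Measure ℂ)
    (hν : ν = volume.withDensity (fun z : ℂ => ENNReal.ofReal (if ‖z‖ < 1 then G ‖z‖ else 0)))
    (hσ : σ = Measure.map (fun θ : ℝ => Complex.exp ((θ : ℂ) * Complex.I))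
      ((volume.restrict (Set.Ioc (0 : ℝ) (2 * Real.pi))).withDensity
        (fun θ => ENNReal.ofReal (W θ)))) :
    closure {f : Lp ℂ 2 (ν + σ) |
        ∃ p : Polynomial ℂ, (f : ℂ → ℂ) =ᵐ[ν + σ] fun z => p.eval z} =
      {f : Lp ℂ 2 (ν + σ) |
        ∃ g ∈ closure {h : Lp ℂ 2 ν |
            ∃ p : Polynomial ℂ, (h : ℂ → ℂ) =ᵐ[ν] fun z => p.eval z},
          (f : ℂ → ℂ) =ᵐ[ν] (g : ℂ → ℂ)} := by
  have hmpt : Measurable pt := continuous_pt.measurable
  obtain ⟨ρ, hρ0, hρ1, hρ⟩ := decay_of_tendsto G (fun r h1 h2 => hG0 r ⟨h1, h2⟩) ht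
  have hGfin := G_lintegral_lt_top G hGi
  have hWfin : (∫⁻ θ in Set.Ioc 0 (2 * Real.pi), ENNReal.ofReal (W θ)) < ⊤ :=
    Integrable.lintegral_lt_top hWi
  have hlog : ∀ a b : ℝ, 0 ≤ a → a < b → b ≤ 2 * Real.pi →
      ∫⁻ θ in Set.Ioo a b, nlog (W θ) = ⊤ := fun a b ha hab hb =>
    nlog_top_of_weak W hW hW0 a b hab (hcond a b ha hab hb)
  -- integrals
  have hνint : ∀ F : ℂ → ENNReal, Measurable F → ∫⁻ z, F z ∂ν =
      ∫⁻ z in Metric.ball (0 : ℂ) 1, ENNReal.ofReal (G ‖z‖) * F z := by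
    intro F hF
    have hd : Measurable (fun z : ℂ => ENNReal.ofReal (if ‖z‖ < 1 then G ‖z‖ else 0)) := by
      apply Measurable.ennreal_ofReal
      exact Measurable.ite (measurableSet_lt measurable_norm measurable_const)
        (hG.comp measurable_norm) measurable_const
    rw [hν, lintegral_withDensity_eq_lintegral_mul _ hd hF,
      ← lintegral_indicator Metric.isOpen_ball.measurableSet]
    apply lintegral_congr
    intro z
    rw [Pi.mul_apply]
    by_cases hz : z ∈ Metric.ball (0 : ℂ) 1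
    · rw [Set.indicator_of_mem hz]
      rw [mem_ball_zero_iff] at hz
      rw [if_pos hz]
    · rw [Set.indicator_of_notMem hz]
      rw [mem_ball_zero_iff] at hz
      rw [if_neg hz, ENNReal.ofReal_zero, zero_mul]
  have hσint : ∀ F : ℂ → ENNReal, Measurable F → ∫⁻ z, F z ∂σ =
      ∫⁻ θ in Set.Ioc 0 (2 * Real.pi), ENNReal.ofReal (W θ) * F (pt θ) := by
    intro F hF
    rw [hσ, show (fun θ : ℝ => Complex.exp ((θ : ℂ) * Complex.I)) = pt from rfl,
      lintegral_map hF hmpt]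
    exact lintegral_withDensity_eq_lintegral_mul _ hW.ennreal_ofReal (hF.comp hmpt)
  -- polynomials are square integrable
  have hbd : ∀ p : Polynomial ℂ, ∃ B : ℝ, 0 ≤ B ∧ ∀ z : ℂ, ‖z‖ ≤ 1 → ‖p.eval z‖ ≤ B := by
    intro p
    obtain ⟨B, hB⟩ := (isCompact_closedBall (0 : ℂ) 1).exists_bound_of_continuousOn
      (f := fun z => p.eval z) p.continuous.continuousOn
    exact ⟨B, (norm_nonneg _).trans (hB 0 (by simp)), fun z hz => hB z (by simpa using hz)⟩
  have hpν : ∀ p : Polynomial ℂ, ∫⁻ z, ‖p.eval z‖ₑ ^ 2 ∂ν < ⊤ := by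
    intro p
    obtain ⟨B, hB0, hB⟩ := hbd p
    rw [hνint _ (p.continuous.measurable.enorm.pow_const 2)]
    calc ∫⁻ z in Metric.ball (0 : ℂ) 1, ENNReal.ofReal (G ‖z‖) * ‖p.eval z‖ₑ ^ 2
        ≤ ∫⁻ z in Metric.ball (0 : ℂ) 1, ENNReal.ofReal (B ^ 2) * ENNReal.ofReal (G ‖z‖) := by
          apply lintegral_mono_ae
          filter_upwards [ae_restrict_mem Metric.isOpen_ball.measurableSet] with z hz
          rw [mem_ball_zero_iff] at hz
          rw [mul_comm, enorm_sq_eq]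
          gcongr
          exact hB z hz.le
      _ = ENNReal.ofReal (B ^ 2) * ∫⁻ z in Metric.ball (0 : ℂ) 1, ENNReal.ofReal (G ‖z‖) :=
          lintegral_const_mul' _ _ ENNReal.ofReal_ne_top
      _ < ⊤ := ENNReal.mul_lt_top ENNReal.ofReal_lt_top hGfin
  have hpσ : ∀ p : Polynomial ℂ, ∫⁻ z, ‖p.eval z‖ₑ ^ 2 ∂σ < ⊤ := by
    intro p
    obtain ⟨B, hB0, hB⟩ := hbd p
    rw [hσint _ (p.continuous.measurable.enorm.pow_const 2)]
    calc ∫⁻ θ in Set.Ioc 0 (2 * Real.pi), ENNReal.ofReal (W θ) * ‖p.eval (pt θ)‖ₑ ^ 2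
        ≤ ∫⁻ θ in Set.Ioc 0 (2 * Real.pi), ENNReal.ofReal (B ^ 2) * ENNReal.ofReal (W θ) := by
          apply lintegral_mono
          intro θ
          simp only
          rw [mul_comm, enorm_sq_eq]
          gcongr
          exact hB _ (norm_pt θ).le
      _ = ENNReal.ofReal (B ^ 2) * ∫⁻ θ in Set.Ioc 0 (2 * Real.pi), ENNReal.ofReal (W θ) :=
          lintegral_const_mul' _ _ ENNReal.ofReal_ne_top
      _ < ⊤ := ENNReal.mul_lt_top ENNReal.ofReal_lt_top hWfin
  have hmemν : ∀ p : Polynomial ℂ, MemLp (fun z => p.eval z) 2 ν := by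
    intro p
    refine ⟨p.continuous.aestronglyMeasurable, ?_⟩
    have h1 := hpν p
    rw [← eLpNorm_two_sq ν (fun z => p.eval z)] at h1
    rw [lt_top_iff_ne_top] at h1 ⊢
    intro h2
    rw [h2] at h1
    simp at h1
  have hmem : ∀ p : Polynomial ℂ, MemLp (fun z => p.eval z) 2 (ν + σ) := by
    intro p
    refine ⟨p.continuous.aestronglyMeasurable, ?_⟩
    have h1 : ∫⁻ z, ‖p.eval z‖ₑ ^ 2 ∂(ν + σ) < ⊤ := by
      rw [lintegral_add_measure]
      exact ENNReal.add_lt_top.mpr ⟨hpν p, hpσ p⟩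
    rw [← eLpNorm_two_sq (ν + σ) (fun z => p.eval z)] at h1
    rw [lt_top_iff_ne_top] at h1 ⊢
    intro h2
    rw [h2] at h1
    simp at h1
  have hνle : ν ≤ ν + σ := Measure.le_add_right le_rfl
  ext f
  rw [Set.mem_ofPred_eq, closure_iff (ν + σ) hmem f]
  constructor
  · intro hf
    have hfν : MemLp (f : ℂ → ℂ) 2 ν := (Lp.memLp f).mono_measure hνle
    refine ⟨hfν.toLp _, ?_, hfν.coeFn_toLp.symm⟩
    rw [closure_iff ν hmemν]
    intro ε hε
    obtain ⟨p, hp⟩ := hf ε hε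
    refine ⟨p, ?_⟩
    have h1 : ∫⁻ z, ‖((hfν.toLp _ : Lp ℂ 2 ν) : ℂ → ℂ) z - p.eval z‖ₑ ^ 2 ∂ν
        = ∫⁻ z, ‖(f : ℂ → ℂ) z - p.eval z‖ₑ ^ 2 ∂ν := by
      apply lintegral_congr_ae
      filter_upwards [hfν.coeFn_toLp] with z hz
      rw [hz]
    rw [h1]
    exact (lintegral_mono' hνle le_rfl).trans hp
  · rintro ⟨g, hg, hfg⟩ ε hε
    rw [closure_iff ν hmemν] at hg
    obtain ⟨q, hq⟩ := hg (ε / 8) (by positivity)
    have hfm : Measurable (f : ℂ → ℂ) := (Lp.stronglyMeasurable f).measurable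
    have hqm : Measurable (fun z => q.eval z) := q.continuous.measurable
    -- the target on the circle
    have hfin : (∫⁻ θ in Set.Ioc 0 (2 * Real.pi), ENNReal.ofReal (W θ) *
        ‖(f : ℂ → ℂ) (pt θ) - q.eval (pt θ)‖ₑ ^ 2) < ⊤ := by
      have h1 : MemLp ((f : ℂ → ℂ) - fun z => q.eval z) 2 (ν + σ) := (Lp.memLp f).sub (hmem q)
      have h2 : ∫⁻ z, ‖(f : ℂ → ℂ) z - q.eval z‖ₑ ^ 2 ∂(ν + σ) < ⊤ := by
        have h3 := eLpNorm_two_sq (ν + σ) ((f : ℂ → ℂ) - fun z => q.eval z)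
        simp only [Pi.sub_apply] at h3
        rw [← h3]
        exact ENNReal.pow_lt_top h1.2
      rw [lintegral_add_measure] at h2
      have h4 := (ENNReal.add_lt_top.mp h2).2
      rw [hσint (fun z => ‖(f : ℂ → ℂ) z - q.eval z‖ₑ ^ 2)
        ((hfm.sub hqm).enorm.pow_const 2)] at h4
      exact h4
    obtain ⟨Q, hQ1, hQ2⟩ := approx_all (fun z => ENNReal.ofReal (G ‖z‖))
      ((hG.comp measurable_norm).ennreal_ofReal) hGfin ρ hρ1
      (fun z h1 h2 => ENNReal.ofReal_le_ofReal (hρ ‖z‖ h1 h2)) W hW hW0 hWfin hlog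
      (fun z => (f : ℂ → ℂ) z - q.eval z) (hfm.sub hqm) hfin (ε / 8) (by positivity)
    refine ⟨q + Q, ?_⟩
    rw [lintegral_add_measure]
    have hA : ∫⁻ z, ‖(f : ℂ → ℂ) z - (q + Q).eval z‖ₑ ^ 2 ∂ν ≤ ENNReal.ofReal (ε / 2) := by
      calc ∫⁻ z, ‖(f : ℂ → ℂ) z - (q + Q).eval z‖ₑ ^ 2 ∂ν
          ≤ ∫⁻ z, 2 * (‖(g : ℂ → ℂ) z - q.eval z‖ₑ ^ 2 + ‖Q.eval z‖ₑ ^ 2) ∂ν := by
            apply lintegral_mono_ae
            filter_upwards [hfg] with z hz
            rw [hz, Polynomial.eval_add]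
            have e : (g : ℂ → ℂ) z - (q.eval z + Q.eval z)
              = ((g : ℂ → ℂ) z - q.eval z) + -(Q.eval z) := by ring
            rw [e]
            refine (enorm_add_sq_le _ _).trans ?_
            rw [enorm_neg]
        _ = 2 * (∫⁻ z, ‖(g : ℂ → ℂ) z - q.eval z‖ₑ ^ 2 ∂ν + ∫⁻ z, ‖Q.eval z‖ₑ ^ 2 ∂ν) := by
            rw [lintegral_const_mul' _ _ (by simp), lintegral_add_right]
            exact Q.continuous.measurable.enorm.pow_const 2
        _ ≤ 2 * (ENNReal.ofReal (ε / 8) + ENNReal.ofReal (ε / 8)) := by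
            gcongr
            rw [hνint _ (Q.continuous.measurable.enorm.pow_const 2)]
            exact hQ1
        _ = ENNReal.ofReal (ε / 2) := by
            have e2 : (2 : ENNReal) = ENNReal.ofReal 2 := by simp
            rw [← ENNReal.ofReal_add (by positivity) (by positivity), e2,
              ← ENNReal.ofReal_mul (by norm_num)]
            congr 1
            ring
    have hB : ∫⁻ z, ‖(f : ℂ → ℂ) z - (q + Q).eval z‖ₑ ^ 2 ∂σ ≤ ENNReal.ofReal (ε / 8) := by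
      rw [hσint (fun z => ‖(f : ℂ → ℂ) z - (q + Q).eval z‖ₑ ^ 2)
        ((hfm.sub (q + Q).continuous.measurable).enorm.pow_const 2)]
      refine le_trans (le_of_eq ?_) hQ2
      apply lintegral_congr
      intro θ
      congr 2
      rw [← enorm_neg, Polynomial.eval_add]
      congr 1
      ring
    calc _ ≤ ENNReal.ofReal (ε / 2) + ENNReal.ofReal (ε / 8) := add_le_add hA hB
      _ = ENNReal.ofReal (ε / 2 + ε / 8) := (ENNReal.ofReal_add (by positivity) (by positivity)).symm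
      _ ≤ ENNReal.ofReal ε := ENNReal.ofReal_le_ofReal (by linarith)

end Pool.Agent.Helper655.Split
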