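import Mathlib

set_option autoImplicit false

namespace Pool.Agent.Helper655.Peak

open Filter Topology

/-- `1 - conj ζ z` -/
noncomputable def pj (ζ z : ℂ) : ℂ := 1 - (starRingEnd ℂ) ζ * z

theorem norm_pj {ζ : ℂ} (hζ : ‖ζ‖ = 1) (z : ℂ) : ‖pj ζ z‖ = ‖z - ζ‖ := by
  have h1 : ζ * (starRingEnd ℂ) ζ = 1 := by
    rw [Complex.mul_conj, Complex.normSq_eq_norm_sq, hζ]; norm_num
  have h2 : ‖ζ * pj ζ z‖ = ‖z - ζ‖ := by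
    have : ζ * pj ζ z = -(z - ζ) := by
      unfold pj
      have : ζ * (1 - (starRingEnd ℂ) ζ * z) = ζ - (ζ * (starRingEnd ℂ) ζ) * z := by ring
      rw [this, h1]; ring
    rw [this, norm_neg]
  rw [norm_mul, hζ, one_mul] at h2
  exact h2

theorem pj_re_pos {ζ : ℂ} (hζ : ‖ζ‖ = 1) {z : ℂ} (hz : ‖z‖ < 1) : 0 < (pj ζ z).re := by
  unfold pj
  have h1 : ((starRingEnd ℂ) ζ * z).re ≤ ‖z‖ := by
    refine (Complex.re_le_norm _).trans ?_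
    rw [norm_mul, RCLike.norm_conj, hζ, one_mul]
  rw [Complex.sub_re, Complex.one_re]
  linarith

theorem norm_add_real_ge_left {p : ℂ} (hp : 0 < p.re) {r : ℝ} (hr : 0 ≤ r) : ‖p‖ ≤ ‖p + r‖ := by
  rw [← sq_le_sq₀ (norm_nonneg _) (norm_nonneg _), ← Complex.normSq_eq_norm_sq,
    ← Complex.normSq_eq_norm_sq, Complex.normSq_apply, Complex.normSq_apply]
  simp only [Complex.add_re, Complex.add_im, Complex.ofReal_re, Complex.ofReal_im, add_zero]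
  nlinarith

theorem norm_add_real_ge_right {p : ℂ} (hp : 0 < p.re) {r : ℝ} (_hr : 0 ≤ r) : r ≤ ‖p + r‖ := by
  have h1 := Complex.re_le_norm (p + r)
  rw [Complex.add_re, Complex.ofReal_re] at h1
  linarith

/-- one summand -/
noncomputable def Gt (m ρ : ℝ) (ζ z : ℂ) : ℂ := (m : ℂ) * ((pj ζ z)⁻¹ + (pj ζ z + ρ)⁻¹)

section
variable {m ρ : ℝ} {ζ z : ℂ}

theorem t_pos (hζ : ‖ζ‖ = 1) (hz : ‖z‖ < 1) : 0 < ‖z - ζ‖ := by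
  have := norm_sub_norm_le ζ z
  rw [hζ, norm_sub_rev] at this
  linarith

theorem pj_ne_zero (hζ : ‖ζ‖ = 1) (hz : ‖z‖ < 1) : pj ζ z ≠ 0 := by
  intro h
  have := pj_re_pos hζ hz
  rw [h] at this
  simp at this

theorem pj_add_ne_zero (hρ : 0 ≤ ρ) (hζ : ‖ζ‖ = 1) (hz : ‖z‖ < 1) : pj ζ z + ρ ≠ 0 := by
  intro h
  have := pj_re_pos hζ hz
  have h2 := congrArg Complex.re h
  rw [Complex.add_re, Complex.ofReal_re, Complex.zero_re] at h2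
  linarith

theorem norm_inv_le (hζ : ‖ζ‖ = 1) (hz : ‖z‖ < 1) : ‖(pj ζ z)⁻¹‖ = 1 / ‖z - ζ‖ := by
  rw [norm_inv, norm_pj hζ, one_div]

theorem norm_inv_add_le (hρ : 0 ≤ ρ) (hζ : ‖ζ‖ = 1) (hz : ‖z‖ < 1) :
    ‖(pj ζ z + ρ)⁻¹‖ ≤ 1 / ‖z - ζ‖ := by
  rw [norm_inv, ← one_div, ← norm_pj hζ]
  apply one_div_le_one_div_of_le
  · rw [norm_pj hζ]; exact t_pos hζ hz
  · exact norm_add_real_ge_left (pj_re_pos hζ hz) hρ

theorem norm_inv_add_le' (hρ : 0 < ρ) (hζ : ‖ζ‖ = 1) (hz : ‖z‖ < 1) :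
    ‖(pj ζ z + ρ)⁻¹‖ ≤ 1 / ρ := by
  rw [norm_inv, ← one_div]
  apply one_div_le_one_div_of_le hρ
  exact norm_add_real_ge_right (pj_re_pos hζ hz) hρ.le

theorem norm_Gt_le (hm : 0 ≤ m) (hρ : 0 ≤ ρ) (hζ : ‖ζ‖ = 1) (hz : ‖z‖ < 1) :
    ‖Gt m ρ ζ z‖ ≤ 2 * m / ‖z - ζ‖ := by
  unfold Gt
  rw [norm_mul, Complex.norm_real, Real.norm_eq_abs, abs_of_nonneg hm]
  have h1 := norm_add_le (pj ζ z)⁻¹ (pj ζ z + ρ)⁻¹
  have h2 := norm_inv_le hζ hz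
  have h3 := norm_inv_add_le hρ hζ hz
  calc m * ‖(pj ζ z)⁻¹ + (pj ζ z + ρ)⁻¹‖ ≤ m * (1 / ‖z - ζ‖ + 1 / ‖z - ζ‖) := by
        gcongr
        linarith
    _ = _ := by ring

theorem norm_Gt_ge (hm : 0 ≤ m) (hρ : 0 < ρ) (hζ : ‖ζ‖ = 1) (hz : ‖z‖ < 1) :
    m / ‖z - ζ‖ - m / ρ ≤ ‖Gt m ρ ζ z‖ := by
  unfold Gt
  rw [norm_mul, Complex.norm_real, Real.norm_eq_abs, abs_of_nonneg hm]
  have h1 := norm_sub_norm_le (pj ζ z)⁻¹ (-(pj ζ z + ρ)⁻¹)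
  rw [sub_neg_eq_add, norm_neg] at h1
  have h2 := norm_inv_le hζ hz
  have h3 := norm_inv_add_le' hρ hζ hz
  calc m / ‖z - ζ‖ - m / ρ = m * (1 / ‖z - ζ‖ - 1 / ρ) := by ring
    _ ≤ _ := by
        gcongr
        linarith

theorem re_inv_nonneg {p : ℂ} (hp : 0 ≤ p.re) : 0 ≤ (p⁻¹).re := by
  rw [Complex.inv_re]
  exact div_nonneg hp (Complex.normSq_nonneg _)

theorem re_Gt_nonneg (hm : 0 ≤ m) (hρ : 0 ≤ ρ) (hζ : ‖ζ‖ = 1) (hz : ‖z‖ < 1) :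
    0 ≤ (Gt m ρ ζ z).re := by
  unfold Gt
  rw [Complex.re_ofReal_mul, Complex.add_re]
  have h0 := pj_re_pos hζ hz
  have h1 := re_inv_nonneg h0.le
  have h2 : 0 ≤ ((pj ζ z + ρ)⁻¹).re := by
    apply re_inv_nonneg
    rw [Complex.add_re, Complex.ofReal_re]; linarith
  positivity

theorem re_Gt_ge (hm : 0 ≤ m) (hρ : 0 < ρ) (hζ : ‖ζ‖ = 1) (hz : ‖z‖ < 1) :
    m * ρ / (‖z - ζ‖ + ρ) ^ 2 ≤ (Gt m ρ ζ z).re := by
  unfold Gt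
  rw [Complex.re_ofReal_mul, Complex.add_re]
  have h0 := pj_re_pos hζ hz
  have h1 := re_inv_nonneg h0.le
  have h2 : ρ / (‖z - ζ‖ + ρ) ^ 2 ≤ ((pj ζ z + ρ)⁻¹).re := by
    rw [Complex.inv_re, Complex.add_re, Complex.ofReal_re, Complex.normSq_eq_norm_sq]
    have h3 : ‖pj ζ z + ρ‖ ≤ ‖z - ζ‖ + ρ := by
      refine (norm_add_le _ _).trans ?_
      rw [norm_pj hζ, Complex.norm_real, Real.norm_eq_abs, abs_of_pos hρ]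
    have h4 : 0 < ‖pj ζ z + ρ‖ := norm_pos_iff.mpr (pj_add_ne_zero hρ.le hζ hz)
    gcongr
    linarith
  calc m * ρ / (‖z - ζ‖ + ρ) ^ 2 = m * (ρ / (‖z - ζ‖ + ρ) ^ 2) := by ring
    _ ≤ _ := by gcongr; linarith

/-- difference of one summand -/
theorem norm_Gt_sub_le (hm : 0 ≤ m) (hρ : 0 ≤ ρ) (hζ : ‖ζ‖ = 1) (hz : ‖z‖ < 1) {w : ℂ}
    (hw : ‖w‖ < 1) :
    ‖Gt m ρ ζ z - Gt m ρ ζ w‖ ≤ ‖z - w‖ * (2 * m / (‖z - ζ‖ * ‖w - ζ‖)) := by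
  have hpz := pj_ne_zero hζ hz
  have hpw := pj_ne_zero hζ hw
  have hpz' := pj_add_ne_zero hρ hζ hz
  have hpw' := pj_add_ne_zero hρ hζ hw
  have hsub : pj ζ w - pj ζ z = (starRingEnd ℂ) ζ * (z - w) := by unfold pj; ring
  have hnsub : ‖pj ζ w - pj ζ z‖ = ‖z - w‖ := by
    rw [hsub, norm_mul, RCLike.norm_conj, hζ, one_mul]
  have h1 : Gt m ρ ζ z - Gt m ρ ζ w = (m : ℂ) * ((pj ζ w - pj ζ z) * ((pj ζ z)⁻¹ * (pj ζ w)⁻¹)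
      + (pj ζ w - pj ζ z) * ((pj ζ z + ρ)⁻¹ * (pj ζ w + ρ)⁻¹)) := by
    unfold Gt
    field_simp
    ring
  rw [h1, norm_mul, Complex.norm_real, Real.norm_eq_abs, abs_of_nonneg hm]
  have h2 : ‖(pj ζ w - pj ζ z) * ((pj ζ z)⁻¹ * (pj ζ w)⁻¹)‖ ≤
      ‖z - w‖ * (1 / ‖z - ζ‖ * (1 / ‖w - ζ‖)) := by
    rw [norm_mul, hnsub, norm_mul, norm_inv_le hζ hz, norm_inv_le hζ hw]
  have h3 : ‖(pj ζ w - pj ζ z) * ((pj ζ z + ρ)⁻¹ * (pj ζ w + ρ)⁻¹)‖ ≤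
      ‖z - w‖ * (1 / ‖z - ζ‖ * (1 / ‖w - ζ‖)) := by
    rw [norm_mul, hnsub, norm_mul]
    gcongr
    · exact norm_inv_add_le hρ hζ hz
    · exact norm_inv_add_le hρ hζ hw
  calc m * ‖(pj ζ w - pj ζ z) * ((pj ζ z)⁻¹ * (pj ζ w)⁻¹)
      + (pj ζ w - pj ζ z) * ((pj ζ z + ρ)⁻¹ * (pj ζ w + ρ)⁻¹)‖
      ≤ m * (‖z - w‖ * (1 / ‖z - ζ‖ * (1 / ‖w - ζ‖)) + ‖z - w‖ * (1 / ‖z - ζ‖ * (1 / ‖w - ζ‖))) := by
        gcongr
        exact (norm_add_le _ _).trans (add_le_add h2 h3)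
    _ = _ := by
        rw [one_div_mul_one_div]
        ring

theorem differentiableOn_Gt (hρ : 0 ≤ ρ) (hζ : ‖ζ‖ = 1) :
    DifferentiableOn ℂ (fun z => Gt m ρ ζ z) (Metric.ball (0 : ℂ) 1) := by
  intro z hz
  rw [mem_ball_zero_iff] at hz
  apply DifferentiableAt.differentiableWithinAt
  have h1 := pj_ne_zero hζ hz
  have h2 := pj_add_ne_zero hρ hζ hz
  have h3 : DifferentiableAt ℂ (fun z => pj ζ z) z := by unfold pj; fun_prop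
  unfold Gt
  exact ((h3.inv h1).add ((h3.add_const _).inv h2)).const_mul _

end

/-- the main term -/
theorem re_main {z : ℂ} (hz : ‖z‖ < 1) : 1 / 2 ≤ ((1 - z)⁻¹).re := by
  have h1 : z.re ≤ ‖z‖ := Complex.re_le_norm z
  rw [Complex.inv_re, Complex.sub_re, Complex.one_re, Complex.normSq_apply, Complex.sub_re,
    Complex.sub_im, Complex.one_re, Complex.one_im]
  have h2 : ‖z‖ ^ 2 = z.re * z.re + z.im * z.im := by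
    rw [← Complex.normSq_eq_norm_sq, Complex.normSq_apply]
  have h3 : ‖z‖ ^ 2 < 1 := by nlinarith [norm_nonneg z]
  rw [div_le_div_iff₀ (by norm_num) (by nlinarith [sq_nonneg z.im])]
  nlinarith

end Pool.Agent.Helper655.Peak
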