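import Mathlib
import Pool.Agent.Helper655.P1

set_option autoImplicit false

namespace Pool.Agent.Helper655.Peak

open Filter Topology

/-- data for the peak function -/
structure Data (ι : Type) (α : ℝ) where
  ζ : ι → ℂ
  ρ : ι → ℝ
  hα0 : 0 < α
  hα1 : α < 1
  hinj : Function.Injective ζ
  hζ : ∀ j, ‖ζ j‖ = 1
  hρ : ∀ j, 0 < ρ j
  hb1 : ∀ j, ‖1 - ζ j‖ ≤ ρ j ^ α
  hb2 : ∀ j, ρ j ^ α ≤ 2 * ‖1 - ζ j‖
  ha : ∀ F : Finset ι, ∑ j ∈ F, ρ j ^ (1 - α) ≤ 1 / 64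
  hc : ∀ k, ∀ F : Finset ι, k ∉ F → ∑ j ∈ F, ρ j / ‖ζ j - ζ k‖ ≤ 1 / 64

namespace Data

variable {ι : Type} {α : ℝ} (D : Data ι α)

noncomputable def m (j : ι) : ℝ := D.ρ j ^ (1 - α)

theorem m_pos (j : ι) : 0 < D.m j := Real.rpow_pos_of_pos (D.hρ j) _

theorem m_mul (j : ι) : D.m j * D.ρ j ^ α = D.ρ j := by
  unfold m
  rw [← Real.rpow_add (D.hρ j), sub_add_cancel, Real.rpow_one]

theorem m_div (j : ι) : D.m j / D.ρ j = D.ρ j ^ (-α) := by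
  unfold m
  rw [sub_eq_add_neg, Real.rpow_add (D.hρ j), Real.rpow_one, mul_comm, mul_div_assoc, div_self
    (D.hρ j).ne', mul_one]

theorem m_le (j : ι) : D.m j ≤ 1 / 64 := by
  have := D.ha {j}
  simpa [m] using this

theorem ρ_lt_one (j : ι) : D.ρ j < 1 := by
  by_contra h
  push Not at h
  have h1 := D.m_le j
  have h2 : 1 ≤ D.m j := Real.one_le_rpow h (by linarith [D.hα1])
  linarith

theorem summable_m : Summable D.m :=
  summable_of_sum_le (fun j => (D.m_pos j).le) D.ha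

theorem tsum_m_le : ∑' j, D.m j ≤ 1 / 64 :=
  D.summable_m.tsum_le_of_sum_le D.ha

noncomputable def G (j : ι) (z : ℂ) : ℂ := Gt (D.m j) (D.ρ j) (D.ζ j) z

noncomputable def g (z : ℂ) : ℂ := (1 - z)⁻¹ + ∑' j, D.G j z

noncomputable def b (z : ℂ) (j : ι) : ℝ := 2 * D.m j / ‖z - D.ζ j‖

noncomputable def U (z : ℂ) : ℝ := 1 / ‖1 - z‖ + ∑' j, D.b z j

theorem b_nonneg (z : ℂ) (j : ι) : 0 ≤ D.b z j := by
  unfold b
  have := (D.m_pos j).le
  positivity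

theorem norm_G_le {z : ℂ} (hz : ‖z‖ < 1) (j : ι) : ‖D.G j z‖ ≤ D.b z j :=
  norm_Gt_le (D.m_pos j).le (D.hρ j).le (D.hζ j) hz

theorem t_ge {z : ℂ} (j : ι) : 1 - ‖z‖ ≤ ‖z - D.ζ j‖ := by
  have := norm_sub_norm_le (D.ζ j) z
  rwa [D.hζ, norm_sub_rev] at this

theorem t_pos {z : ℂ} (hz : ‖z‖ < 1) (j : ι) : 0 < ‖z - D.ζ j‖ := by
  have := D.t_ge (z := z) j
  linarith

theorem s_pos {z : ℂ} (hz : ‖z‖ < 1) : 0 < ‖1 - z‖ := by
  have := norm_sub_norm_le (1 : ℂ) z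
  rw [norm_one] at this
  linarith

theorem b_le {z : ℂ} (hz : ‖z‖ < 1) (j : ι) : D.b z j ≤ 2 / (1 - ‖z‖) * D.m j := by
  unfold b
  have h1 : 0 < 1 - ‖z‖ := by linarith
  have h2 := (D.m_pos j).le
  calc 2 * D.m j / ‖z - D.ζ j‖ ≤ 2 * D.m j / (1 - ‖z‖) := by
        gcongr
        exact D.t_ge j
    _ = _ := by ring

theorem summable_b {z : ℂ} (hz : ‖z‖ < 1) : Summable (D.b z) :=
  Summable.of_nonneg_of_le (D.b_nonneg z) (D.b_le hz) (D.summable_m.mul_left _)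

theorem summable_norm_G {z : ℂ} (hz : ‖z‖ < 1) : Summable (fun j => ‖D.G j z‖) :=
  Summable.of_nonneg_of_le (fun _ => norm_nonneg _) (D.norm_G_le hz) (D.summable_b hz)

theorem summable_G {z : ℂ} (hz : ‖z‖ < 1) : Summable (fun j => D.G j z) :=
  (D.summable_norm_G hz).of_norm

theorem norm_g_le {z : ℂ} (hz : ‖z‖ < 1) : ‖D.g z‖ ≤ D.U z := by
  unfold g U
  refine (norm_add_le _ _).trans ?_
  rw [norm_inv, ← one_div]
  gcongr
  exact tsum_of_norm_bounded (D.summable_b hz).hasSum (D.norm_G_le hz)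

theorem re_G_nonneg {z : ℂ} (hz : ‖z‖ < 1) (j : ι) : 0 ≤ (D.G j z).re :=
  re_Gt_nonneg (D.m_pos j).le (D.hρ j).le (D.hζ j) hz

theorem re_g {z : ℂ} (hz : ‖z‖ < 1) : (D.g z).re = ((1 - z)⁻¹).re + ∑' j, (D.G j z).re := by
  unfold g
  rw [Complex.add_re, Complex.re_tsum (D.summable_G hz)]

theorem summable_re_G {z : ℂ} (hz : ‖z‖ < 1) : Summable (fun j => (D.G j z).re) :=
  Complex.hasSum_re (D.summable_G hz).hasSum |>.summable

theorem re_g_ge {z : ℂ} (hz : ‖z‖ < 1) : 1 / 2 ≤ (D.g z).re := by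
  rw [D.re_g hz]
  have h1 := re_main hz
  have h2 : 0 ≤ ∑' j, (D.G j z).re := tsum_nonneg (D.re_G_nonneg hz)
  linarith

theorem re_g_ge' {z : ℂ} (hz : ‖z‖ < 1) (k : ι) : (D.G k z).re ≤ (D.g z).re := by
  rw [D.re_g hz]
  have h1 := re_main hz
  have h2 : (D.G k z).re ≤ ∑' j, (D.G j z).re :=
    (D.summable_re_G hz).le_tsum k (fun j _ => D.re_G_nonneg hz j)
  linarith

theorem s_le {z : ℂ} (j : ι) : ‖1 - z‖ ≤ D.ρ j ^ α + ‖z - D.ζ j‖ := by
  have h1 : (1 : ℂ) - z = (1 - D.ζ j) - (z - D.ζ j) := by ring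
  rw [h1]
  exact (norm_sub_le _ _).trans (by linarith [D.hb1 j])

/-- the remaining terms are small when `ζ k` is the nearest point -/
theorem R_bound {z : ℂ} (hz : ‖z‖ < 1) (k : ι) (hk : ∀ j, ‖z - D.ζ k‖ ≤ ‖z - D.ζ j‖)
    (F : Finset ι) (hkF : k ∉ F) : ∑ j ∈ F, D.b z j ≤ 1 / 8 / ‖1 - z‖ := by
  have hs := s_pos hz
  rw [le_div_iff₀ hs, Finset.sum_mul]
  have hterm : ∀ j ∈ F, D.b z j * ‖1 - z‖ ≤ 2 * D.m j + 4 * (D.ρ j / ‖D.ζ j - D.ζ k‖) := by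
    intro j hj
    have hjk : j ≠ k := fun h => hkF (h ▸ hj)
    have ht := D.t_pos hz j
    have hd : 0 < ‖D.ζ j - D.ζ k‖ := norm_pos_iff.mpr (sub_ne_zero.mpr (fun h => hjk (D.hinj h)))
    have hd2 : ‖D.ζ j - D.ζ k‖ ≤ 2 * ‖z - D.ζ j‖ := by
      have h1 : D.ζ j - D.ζ k = (z - D.ζ k) - (z - D.ζ j) := by ring
      rw [h1]
      refine (norm_sub_le _ _).trans ?_
      linarith [hk j]
    have hρ := D.hρ j
    have hm := D.m_pos j
    have h2 : 1 / ‖z - D.ζ j‖ ≤ 2 / ‖D.ζ j - D.ζ k‖ := by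
      rw [div_le_div_iff₀ ht hd]; linarith
    calc D.b z j * ‖1 - z‖ ≤ D.b z j * (D.ρ j ^ α + ‖z - D.ζ j‖) := by
          gcongr
          · exact D.b_nonneg z j
          · exact D.s_le j
      _ = 2 * (D.m j * D.ρ j ^ α) * (1 / ‖z - D.ζ j‖) + 2 * D.m j := by
          unfold b
          field_simp
      _ = 2 * D.ρ j * (1 / ‖z - D.ζ j‖) + 2 * D.m j := by rw [D.m_mul]
      _ ≤ 2 * D.ρ j * (2 / ‖D.ζ j - D.ζ k‖) + 2 * D.m j := by gcongr
      _ = _ := by ring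
  calc ∑ j ∈ F, D.b z j * ‖1 - z‖ ≤ ∑ j ∈ F, (2 * D.m j + 4 * (D.ρ j / ‖D.ζ j - D.ζ k‖)) :=
        Finset.sum_le_sum hterm
    _ = 2 * ∑ j ∈ F, D.m j + 4 * ∑ j ∈ F, D.ρ j / ‖D.ζ j - D.ζ k‖ := by
        rw [Finset.sum_add_distrib, Finset.mul_sum, Finset.mul_sum]
    _ ≤ 2 * (1 / 64) + 4 * (1 / 64) := by
        gcongr
        · exact D.ha F
        · exact D.hc k F hkF
    _ ≤ 1 / 8 := by norm_num

theorem split_b {z : ℂ} (hz : ‖z‖ < 1) (k : ι) (hk : ∀ j, ‖z - D.ζ k‖ ≤ ‖z - D.ζ j‖) :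
    ∑' j, D.b z j ≤ D.b z k + 1 / 8 / ‖1 - z‖ := by
  classical
  apply (D.summable_b hz).tsum_le_of_sum_le
  intro F
  by_cases h : k ∈ F
  · rw [← Finset.add_sum_erase F _ h]
    gcongr
    exact D.R_bound hz k hk (F.erase k) (Finset.notMem_erase k F)
  · have h1 := D.R_bound hz k hk F h
    have h2 := D.b_nonneg z k
    linarith

/-- lower bound by a main part -/
theorem norm_g_ge {z : ℂ} (hz : ‖z‖ < 1) (k : ι) (hk : ∀ j, ‖z - D.ζ k‖ ≤ ‖z - D.ζ j‖) :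
    ‖(1 - z)⁻¹ + D.G k z‖ - 1 / 8 / ‖1 - z‖ ≤ ‖D.g z‖ := by
  classical
  have h1 : D.g z = ((1 - z)⁻¹ + D.G k z) - (-∑' j, if j = k then 0 else D.G j z) := by
    unfold g
    rw [(D.summable_G hz).tsum_eq_add_tsum_ite k]
    ring
  rw [h1]
  refine le_trans ?_ (norm_sub_norm_le _ _)
  rw [norm_neg]
  gcongr
  have hsum : Summable (fun j => if j = k then 0 else D.b z j) := by
    apply Summable.of_nonneg_of_le _ _ (D.summable_b hz)
    · intro j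
      split_ifs
      · exact le_rfl
      · exact D.b_nonneg z j
    · intro j
      split_ifs
      · exact D.b_nonneg z j
      · exact le_rfl
  refine (tsum_of_norm_bounded hsum.hasSum (fun j => ?_)).trans ?_
  · split_ifs
    · simp
    · exact D.norm_G_le hz j
  · apply hsum.tsum_le_of_sum_le
    intro F
    by_cases h : k ∈ F
    · rw [← Finset.add_sum_erase F _ h, if_pos rfl, zero_add]
      refine le_trans (le_of_eq ?_) (D.R_bound hz k hk (F.erase k) (Finset.notMem_erase k F))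
      apply Finset.sum_congr rfl
      intro j hj
      rw [if_neg (Finset.ne_of_mem_erase hj)]
    · refine le_trans (le_of_eq ?_) (D.R_bound hz k hk F h)
      apply Finset.sum_congr rfl
      intro j hj
      rw [if_neg (fun (h' : j = k) => h (h' ▸ hj))]

end Data

end Pool.Agent.Helper655.Peak
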