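import Mathlib
import Pool.Agent.Helper655.P2

set_option autoImplicit false

namespace Pool.Agent.Helper655.Peak

open Filter Topology

namespace Data

variable {ι : Type} {α : ℝ} (D : Data ι α)

theorem near_one {z : ℂ} (hz : ‖z‖ < 1) (h : ∀ j, ‖1 - z‖ ≤ ‖z - D.ζ j‖) :
    D.U z ≤ 3 * ‖D.g z‖ ∧ ‖1 - z‖ ^ (-α) ≤ 10000 * ‖D.g z‖ := by
  have hs := s_pos hz
  have hα0 := D.hα0
  have hα1 := D.hα1
  have h1 : ∑' j, D.b z j ≤ 1 / 32 / ‖1 - z‖ := by
    have hb : ∀ j, D.b z j ≤ 2 / ‖1 - z‖ * D.m j := by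
      intro j
      unfold b
      have := (D.m_pos j).le
      calc 2 * D.m j / ‖z - D.ζ j‖ ≤ 2 * D.m j / ‖1 - z‖ := by
            gcongr
            exact h j
        _ = _ := by ring
    calc ∑' j, D.b z j ≤ ∑' j, 2 / ‖1 - z‖ * D.m j :=
          (D.summable_b hz).tsum_le_tsum hb (D.summable_m.mul_left _)
      _ = 2 / ‖1 - z‖ * ∑' j, D.m j := tsum_mul_left
      _ ≤ 2 / ‖1 - z‖ * (1 / 64) := by
          gcongr
          exact D.tsum_m_le
      _ = _ := by ring
  have h2 : 1 / ‖1 - z‖ - 1 / 32 / ‖1 - z‖ ≤ ‖D.g z‖ := by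
    unfold g
    have h3 := norm_sub_norm_le ((1 - z)⁻¹) (-∑' j, D.G j z)
    rw [sub_neg_eq_add, norm_neg, norm_inv, ← one_div] at h3
    have h4 : ‖∑' j, D.G j z‖ ≤ 1 / 32 / ‖1 - z‖ :=
      (tsum_of_norm_bounded (D.summable_b hz).hasSum (D.norm_G_le hz)).trans h1
    linarith
  have h5 : 1 / 32 / ‖1 - z‖ = 1 / 32 * (1 / ‖1 - z‖) := by ring
  rw [h5] at h1 h2
  have h6 : 0 < 1 / ‖1 - z‖ := by positivity
  constructor
  · unfold U
    linarith
  · have hs2 : ‖1 - z‖ ≤ 2 := by
      refine (norm_sub_le _ _).trans ?_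
      rw [norm_one]; linarith
    have h7 : ‖1 - z‖ ^ (-α) ≤ 2 * (1 / ‖1 - z‖) := by
      have h8 : ‖1 - z‖ ^ (-α) = ‖1 - z‖ ^ (1 - α) * (1 / ‖1 - z‖) := by
        rw [one_div, ← Real.rpow_neg_one, ← Real.rpow_add hs]
        congr 1
        ring
      rw [h8]
      gcongr
      calc ‖1 - z‖ ^ (1 - α) ≤ 2 ^ (1 - α) := by
            apply Real.rpow_le_rpow hs.le hs2; linarith
        _ ≤ 2 ^ (1 : ℝ) := by
            apply Real.rpow_le_rpow_of_exponent_le (by norm_num); linarith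
        _ = 2 := Real.rpow_one 2
    linarith

theorem near_k {z : ℂ} (hz : ‖z‖ < 1) (k : ι) (hk : ∀ j, ‖z - D.ζ k‖ ≤ ‖z - D.ζ j‖) :
    D.U z ≤ 10000 * ‖D.g z‖ ∧ ‖z - D.ζ k‖ ^ (-α) ≤ 10000 * ‖D.g z‖ := by
  have hα0 := D.hα0
  have hα1 := D.hα1
  have hs := s_pos hz
  have ht := D.t_pos hz k
  have hρ := D.hρ k
  have hm := D.m_pos k
  have hm64 := D.m_le k
  have hmm := D.m_mul k
  have hmd := D.m_div k
  have hge := D.norm_g_ge hz k hk
  have hsp := D.split_b hz k hk
  have hsle := D.s_le (z := z) k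
  set s := ‖1 - z‖ with hsdef
  set t := ‖z - D.ζ k‖ with htdef
  set ρ := D.ρ k with hρdef
  set m := D.m k with hmdef
  have hbk : D.b z k = 2 * (m / t) := by unfold b; rw [← hmdef, ← htdef]; ring
  have ht2 : t ≤ 2 := by
    rw [htdef]
    refine (norm_sub_le _ _).trans ?_
    rw [D.hζ]; linarith
  have hρα : 0 < ρ ^ α := Real.rpow_pos_of_pos hρ _
  have hs0 : 0 < 1 / s := by positivity
  have hinv_main : ‖(1 - z)⁻¹‖ = 1 / s := by rw [norm_inv, one_div]
  have e8 : 1 / 8 / s = 1 / 8 * (1 / s) := by ring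
  have hU : D.U z ≤ (9 / 8) * (1 / s) + 2 * (m / t) := by
    unfold U
    rw [← hsdef]
    rw [hbk, e8] at hsp
    linarith
  rcases le_or_gt (16 * ρ) t with hcase | hcase
  · -- far case
    have h1 : 2 * (m / t) ≤ 1 / 4 * (1 / s) := by
      rw [← mul_div_assoc, mul_one_div, div_le_div_iff₀ ht hs]
      calc 2 * m * s ≤ 2 * m * (ρ ^ α + t) := by gcongr
        _ = 2 * (m * ρ ^ α) + 2 * m * t := by ring
        _ = 2 * ρ + 2 * m * t := by rw [hmm]
        _ ≤ 1 / 4 * t := by nlinarith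
    have h2 : 5 / 8 * (1 / s) ≤ ‖D.g z‖ := by
      have h3 : ‖(1 - z)⁻¹‖ - ‖D.G k z‖ ≤ ‖(1 - z)⁻¹ + D.G k z‖ := by
        have := norm_sub_norm_le ((1 - z)⁻¹) (-D.G k z)
        rwa [sub_neg_eq_add, norm_neg] at this
      have h4 := D.norm_G_le hz k
      rw [hbk] at h4
      rw [hinv_main] at h3
      rw [e8] at hge
      linarith
    constructor
    · linarith
    · have h5 : s ≤ 3 * t ^ α := by
        have h6 : ρ ^ α ≤ t ^ α := Real.rpow_le_rpow hρ.le (by linarith) hα0.le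
        have h7 : t ≤ 2 * t ^ α := by
          have h8 : t = t ^ (1 - α) * t ^ α := by
            rw [← Real.rpow_add ht, sub_add_cancel, Real.rpow_one]
          calc t = t ^ (1 - α) * t ^ α := h8
            _ ≤ 2 * t ^ α := by
                gcongr
                calc t ^ (1 - α) ≤ 2 ^ (1 - α) := by
                      apply Real.rpow_le_rpow ht.le ht2; linarith
                  _ ≤ 2 ^ (1 : ℝ) := by
                      apply Real.rpow_le_rpow_of_exponent_le (by norm_num); linarith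
                  _ = 2 := Real.rpow_one 2
        linarith
      have h9 : t ^ (-α) ≤ 3 * (1 / s) := by
        rw [Real.rpow_neg ht.le, ← one_div, mul_one_div, div_le_div_iff₀ (by positivity) hs]
        linarith
      linarith
  · -- near case
    have hραneg : ρ ^ (-α) = m / ρ := hmd.symm
    have hneg : 0 < ρ ^ (-α) := Real.rpow_pos_of_pos hρ _
    have h1 : ρ ^ (-α) / 289 ≤ ‖D.g z‖ := by
      have h2 := D.re_g_ge' hz k
      have h3 : m * ρ / (t + ρ) ^ 2 ≤ (D.G k z).re := re_Gt_ge hm.le hρ (D.hζ k) hz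
      have h4 : ρ ^ (-α) / 289 ≤ m * ρ / (t + ρ) ^ 2 := by
        rw [hραneg, div_div, div_le_div_iff₀ (by positivity) (by positivity)]
        have h5 : (t + ρ) ^ 2 ≤ 289 * ρ ^ 2 := by nlinarith
        calc m * (t + ρ) ^ 2 ≤ m * (289 * ρ ^ 2) := by gcongr
          _ = _ := by ring
      exact h4.trans (h3.trans (h2.trans (Complex.re_le_norm _)))
    have h6 : 1 / s ≤ 4 * ρ ^ (-α) := by
      rw [Real.rpow_neg hρ.le, ← one_div, mul_one_div, div_le_div_iff₀ hs hρα]
      have h7 : ‖1 - D.ζ k‖ ≤ s + t := by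
        have : (1 : ℂ) - D.ζ k = (1 - z) + (z - D.ζ k) := by ring
        rw [this]
        exact norm_add_le _ _
      have h8 := D.hb2 k
      have h9 : 16 * ρ ≤ 1 / 4 * ρ ^ α := by
        calc 16 * ρ = 16 * (m * ρ ^ α) := by rw [hmm]
          _ ≤ 16 * (1 / 64 * ρ ^ α) := by gcongr
          _ = _ := by ring
      have h10 : ρ ^ α ≤ 2 * (s + t) := by
        calc ρ ^ α ≤ 2 * ‖1 - D.ζ k‖ := h8
          _ ≤ _ := by linarith
      linarith
    rcases le_or_gt (ρ / 11) t with hc2 | hc2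
    · have h11 : m / t ≤ 11 * ρ ^ (-α) := by
        rw [hραneg, ← mul_div_assoc, div_le_div_iff₀ ht hρ]
        nlinarith
      constructor
      · linarith
      · have h12 : t ^ (-α) ≤ 11 * ρ ^ (-α) := by
          calc t ^ (-α) ≤ (ρ / 11) ^ (-α) :=
                Real.rpow_le_rpow_of_nonpos (by positivity) hc2 (by linarith)
            _ = 11 ^ α * ρ ^ (-α) := by
                rw [Real.div_rpow hρ.le (by norm_num), Real.rpow_neg (by norm_num : (0:ℝ) ≤ 11),
                  div_inv_eq_mul, mul_comm]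
            _ ≤ 11 ^ (1 : ℝ) * ρ ^ (-α) := by
                gcongr
                · norm_num
            _ = _ := by rw [Real.rpow_one]
        linarith
    · have h13 : 11 * ρ ^ (-α) ≤ m / t := by
        rw [hραneg, ← mul_div_assoc, div_le_div_iff₀ hρ ht]
        nlinarith
      have h14 : m / t - m / ρ ≤ ‖D.G k z‖ := norm_Gt_ge hm.le hρ (D.hζ k) hz
      have h15 : ‖D.G k z‖ - ‖(1 - z)⁻¹‖ ≤ ‖(1 - z)⁻¹ + D.G k z‖ := by
        have := norm_sub_norm_le (D.G k z) (-(1 - z)⁻¹)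
        rwa [sub_neg_eq_add, norm_neg, add_comm] at this
      have h16 : 1 / 2 * (m / t) ≤ ‖D.g z‖ := by
        rw [hinv_main] at h15
        rw [← hραneg] at h14
        rw [e8] at hge
        linarith
      constructor
      · linarith
      · have h17 : t ^ (-α) ≤ m / t := by
          rw [le_div_iff₀ ht]
          have h18 : t ^ (-α) * t = t ^ (1 - α) := by
            nth_rewrite 2 [← Real.rpow_one t]
            rw [← Real.rpow_add ht]
            congr 1
            ring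
          rw [h18]
          exact Real.rpow_le_rpow ht.le (by linarith) (by linarith)
        linarith

end Data

end Pool.Agent.Helper655.Peak
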