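import Mathlib
import Pool.Agent.Helper655.P3

set_option autoImplicit false

namespace Pool.Agent.Helper655.Peak

open Filter Topology

namespace Data

variable {ι : Type} {α : ℝ} (D : Data ι α)

/-- the peak set -/
def E : Set ℂ := insert 1 (Set.range D.ζ)

theorem one_mem : (1 : ℂ) ∈ D.E := Set.mem_insert _ _

theorem ζ_mem (j : ι) : D.ζ j ∈ D.E := Set.mem_insert_of_mem _ ⟨j, rfl⟩

theorem E_norm {e : ℂ} (he : e ∈ D.E) : ‖e‖ = 1 := by
  rcases he with rfl | ⟨j, rfl⟩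
  · exact norm_one
  · exact D.hζ j

theorem isClosed_E : IsClosed D.E := by
  apply isClosed_of_closure_subset
  intro x hx
  by_contra hxE
  have hx1 : x ≠ 1 := fun h => hxE (h ▸ D.one_mem)
  have hr0 : 0 < ‖1 - x‖ / 2 := by
    have : 0 < ‖1 - x‖ := norm_pos_iff.mpr (sub_ne_zero.mpr (Ne.symm hx1))
    positivity
  set r := ‖1 - x‖ / 2 with hr
  set c : ℝ := (r ^ (1 / α)) ^ (1 - α) with hc
  have hc0 : 0 < c := by positivity
  have hα0 := D.hα0
  have hα1 := D.hα1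
  have hfin : Set.Finite {j | ¬ D.m j < c} := by
    have h1 := D.summable_m.tendsto_cofinite_zero.eventually (gt_mem_nhds hc0)
    exact h1
  have hsub : D.E ⊆ Metric.closedBall 1 r ∪ D.ζ '' {j | ¬ D.m j < c} := by
    rintro e (rfl | ⟨j, rfl⟩)
    · left
      exact Metric.mem_closedBall_self hr0.le
    · rcases le_or_gt ‖1 - D.ζ j‖ r with h | h
      · left
        rw [Metric.mem_closedBall, dist_eq_norm, norm_sub_rev]
        exact h
      · right
        refine ⟨j, ?_, rfl⟩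
        rw [Set.mem_ofPred_eq, not_lt]
        unfold m
        have h2 : r ^ (1 / α) ≤ D.ρ j := by
          have h3 : r ≤ D.ρ j ^ α := h.le.trans (D.hb1 j)
          calc r ^ (1 / α) ≤ (D.ρ j ^ α) ^ (1 / α) := by
                apply Real.rpow_le_rpow hr0.le h3; positivity
            _ = D.ρ j := by
                rw [← Real.rpow_mul (D.hρ j).le, mul_one_div_cancel hα0.ne', Real.rpow_one]
        apply Real.rpow_le_rpow (by positivity) h2
        linarith
  have hcl : IsClosed (Metric.closedBall (1 : ℂ) r ∪ D.ζ '' {j | ¬ D.m j < c}) :=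
    Metric.isClosed_closedBall.union (hfin.image _).isClosed
  have hx2 := closure_minimal hsub hcl hx
  rcases hx2 with h | ⟨j, _, rfl⟩
  · rw [Metric.mem_closedBall, dist_eq_norm, norm_sub_rev] at h
    linarith
  · exact hxE (D.ζ_mem j)

theorem exists_near {z : ℂ} (_hz : ‖z‖ < 1) :
    ((∀ j, ‖1 - z‖ ≤ ‖z - D.ζ j‖) ∧ Metric.infDist z D.E = ‖1 - z‖) ∨
    ∃ k, (∀ j, ‖z - D.ζ k‖ ≤ ‖z - D.ζ j‖) ∧ Metric.infDist z D.E = ‖z - D.ζ k‖ := by
  obtain ⟨e, he, hd⟩ := D.isClosed_E.exists_infDist_eq_dist ⟨1, D.one_mem⟩ z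
  have hle : ∀ e' ∈ D.E, dist z e ≤ dist z e' := fun e' he' =>
    hd ▸ Metric.infDist_le_dist_of_mem he'
  rcases he with rfl | ⟨k, rfl⟩
  · left
    rw [dist_eq_norm, norm_sub_rev] at hd
    refine ⟨fun j => ?_, hd⟩
    have := hle _ (D.ζ_mem j)
    rwa [dist_eq_norm, dist_eq_norm, norm_sub_rev] at this
  · right
    rw [dist_eq_norm] at hd
    refine ⟨k, fun j => ?_, hd⟩
    have := hle _ (D.ζ_mem j)
    rwa [dist_eq_norm, dist_eq_norm] at this

theorem main_bounds {z : ℂ} (hz : ‖z‖ < 1) :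
    D.U z ≤ 10000 * ‖D.g z‖ ∧ (Metric.infDist z D.E) ^ (-α) ≤ 10000 * ‖D.g z‖ := by
  have hg := norm_nonneg (D.g z)
  rcases D.exists_near hz with ⟨h1, h2⟩ | ⟨k, h1, h2⟩
  · obtain ⟨h3, h4⟩ := D.near_one hz h1
    rw [h2]
    exact ⟨by linarith, h4⟩
  · rw [h2]
    exact D.near_k hz k h1

theorem infDist_pos {z : ℂ} (hz : ‖z‖ < 1) : 0 < Metric.infDist z D.E := by
  rcases D.exists_near hz with ⟨_, h2⟩ | ⟨k, _, h2⟩
  · rw [h2]; exact s_pos hz
  · rw [h2]; exact D.t_pos hz k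

theorem infDist_le_s {z : ℂ} : Metric.infDist z D.E ≤ ‖1 - z‖ := by
  have := Metric.infDist_le_dist_of_mem (x := z) D.one_mem
  rwa [dist_eq_norm, norm_sub_rev] at this

theorem infDist_le_t {z : ℂ} (j : ι) : Metric.infDist z D.E ≤ ‖z - D.ζ j‖ := by
  have := Metric.infDist_le_dist_of_mem (x := z) (D.ζ_mem j)
  rwa [dist_eq_norm] at this

theorem g_ne_zero {z : ℂ} (hz : ‖z‖ < 1) : D.g z ≠ 0 := by
  intro h
  have := D.re_g_ge hz
  rw [h] at this
  simp at this
  linarith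

/-- the function `1 / g` -/
noncomputable def h (z : ℂ) : ℂ := (D.g z)⁻¹

theorem norm_h_le {z : ℂ} (hz : ‖z‖ < 1) : ‖D.h z‖ ≤ 10000 * (Metric.infDist z D.E) ^ α := by
  have h1 := (D.main_bounds hz).2
  have hd := D.infDist_pos hz
  have hg : 0 < ‖D.g z‖ := norm_pos_iff.mpr (D.g_ne_zero hz)
  unfold h
  rw [norm_inv, ← one_div, div_le_iff₀ hg]
  rw [Real.rpow_neg hd.le] at h1
  have h2 : 0 < (Metric.infDist z D.E) ^ α := by positivity
  calc 1 = (Metric.infDist z D.E) ^ α * ((Metric.infDist z D.E) ^ α)⁻¹ := by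
        rw [mul_inv_cancel₀ h2.ne']
    _ ≤ (Metric.infDist z D.E) ^ α * (10000 * ‖D.g z‖) := by gcongr
    _ = _ := by ring

theorem norm_h_ge {z : ℂ} (hz : ‖z‖ < 1) : Metric.infDist z D.E / 2 ≤ ‖D.h z‖ := by
  have hd := D.infDist_pos hz
  have hs := s_pos hz
  have hg : 0 < ‖D.g z‖ := norm_pos_iff.mpr (D.g_ne_zero hz)
  unfold h
  rw [norm_inv, ← one_div, div_le_div_iff₀ (by norm_num) hg]
  have h1 : D.U z ≤ 2 / Metric.infDist z D.E := by
    unfold U
    have hb : ∀ j, D.b z j ≤ 2 / Metric.infDist z D.E * D.m j := by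
      intro j
      unfold b
      have := (D.m_pos j).le
      calc 2 * D.m j / ‖z - D.ζ j‖ ≤ 2 * D.m j / Metric.infDist z D.E := by
            gcongr
            exact D.infDist_le_t j
        _ = _ := by ring
    have h2 : ∑' j, D.b z j ≤ 2 / Metric.infDist z D.E * (1 / 64) := by
      calc ∑' j, D.b z j ≤ ∑' j, 2 / Metric.infDist z D.E * D.m j :=
            (D.summable_b hz).tsum_le_tsum hb (D.summable_m.mul_left _)
        _ = 2 / Metric.infDist z D.E * ∑' j, D.m j := tsum_mul_left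
        _ ≤ _ := by
            gcongr
            exact D.tsum_m_le
    have h3 : 1 / ‖1 - z‖ ≤ 1 / Metric.infDist z D.E := by
      gcongr
      exact D.infDist_le_s
    have h4 : 2 / Metric.infDist z D.E = 2 * (1 / Metric.infDist z D.E) := by ring
    rw [h4] at h2 ⊢
    have h5 : 0 < 1 / Metric.infDist z D.E := by positivity
    linarith
  have h2 := (D.norm_g_le hz).trans h1
  rw [le_div_iff₀ hd] at h2
  linarith

theorem re_h_ge {z : ℂ} (hz : ‖z‖ < 1) : ‖D.h z‖ ^ 2 / 2 ≤ (D.h z).re := by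
  have h1 := D.re_g_ge hz
  have hg : 0 < ‖D.g z‖ := norm_pos_iff.mpr (D.g_ne_zero hz)
  unfold h
  rw [norm_inv, Complex.inv_re, Complex.normSq_eq_norm_sq, inv_pow, le_div_iff₀ (by positivity)]
  have : (‖D.g z‖ ^ 2)⁻¹ / 2 * ‖D.g z‖ ^ 2 = 1 / 2 := by field_simp
  rw [this]
  exact h1

theorem norm_g_sub_le {z w : ℂ} (hz : ‖z‖ < 1) (hw : ‖w‖ < 1)
    (hzw : ‖z - w‖ ≤ Metric.infDist z D.E / 2) :
    ‖D.g z - D.g w‖ ≤ 2 * ‖z - w‖ / Metric.infDist z D.E * D.U z := by
  have hd := D.infDist_pos hz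
  have hs := s_pos hz
  have hsw := s_pos hw
  set d := Metric.infDist z D.E with hddef
  have hsd : d ≤ ‖1 - z‖ := D.infDist_le_s
  have hsw2 : d / 2 ≤ ‖1 - w‖ := by
    have : (1 : ℂ) - z = (1 - w) - (z - w) := by ring
    have h1 := norm_sub_le ((1 : ℂ) - w) (z - w)
    rw [← this] at h1
    linarith
  have htw : ∀ j, d / 2 ≤ ‖w - D.ζ j‖ := by
    intro j
    have h2 := D.infDist_le_t (z := z) j
    have : z - D.ζ j = (w - D.ζ j) + (z - w) := by ring
    have h1 := norm_add_le (w - D.ζ j) (z - w)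
    rw [← this] at h1
    linarith
  have hG : ∀ j, ‖D.G j z - D.G j w‖ ≤ 2 * ‖z - w‖ / d * D.b z j := by
    intro j
    have h1 := norm_Gt_sub_le (m := D.m j) (ρ := D.ρ j) (D.m_pos j).le (D.hρ j).le (D.hζ j) hz hw
    refine h1.trans ?_
    have ht := D.t_pos hz j
    have htw' := htw j
    have hm := D.m_pos j
    unfold b
    calc ‖z - w‖ * (2 * D.m j / (‖z - D.ζ j‖ * ‖w - D.ζ j‖))
        ≤ ‖z - w‖ * (2 * D.m j / (‖z - D.ζ j‖ * (d / 2))) := by gcongr
      _ = _ := by field_simp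
  have hmain : ‖(1 - z)⁻¹ - (1 - w)⁻¹‖ ≤ 2 * ‖z - w‖ / d * (1 / ‖1 - z‖) := by
    have hz1 : (1 : ℂ) - z ≠ 0 := norm_pos_iff.mp hs
    have hw1 : (1 : ℂ) - w ≠ 0 := norm_pos_iff.mp hsw
    have h1 : (1 - z)⁻¹ - (1 - w)⁻¹ = (z - w) * ((1 - z)⁻¹ * (1 - w)⁻¹) := by
      field_simp
      ring
    rw [h1, norm_mul, norm_mul, norm_inv, norm_inv]
    calc ‖z - w‖ * (‖1 - z‖⁻¹ * ‖1 - w‖⁻¹) ≤ ‖z - w‖ * (‖1 - z‖⁻¹ * (d / 2)⁻¹) := by gcongr
      _ = _ := by field_simp
  have h1 : D.g z - D.g w = ((1 - z)⁻¹ - (1 - w)⁻¹) + ∑' j, (D.G j z - D.G j w) := by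
    unfold g
    rw [(D.summable_G hz).tsum_sub (D.summable_G hw)]
    ring
  rw [h1]
  refine (norm_add_le _ _).trans ?_
  have h2 : ‖∑' j, (D.G j z - D.G j w)‖ ≤ 2 * ‖z - w‖ / d * ∑' j, D.b z j :=
    tsum_of_norm_bounded ((D.summable_b hz).hasSum.mul_left _) hG
  unfold U
  rw [mul_add]
  exact add_le_add hmain h2

theorem holder {z w : ℂ} (hz : ‖z‖ < 1) (hw : ‖w‖ < 1) :
    ‖D.h z - D.h w‖ ≤ 10 ^ 9 * ‖z - w‖ ^ α := by
  have hα0 := D.hα0
  have hα1 := D.hα1
  have hd := D.infDist_pos hz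
  have hdw := D.infDist_pos hw
  have hle1 : Metric.infDist w D.E ≤ Metric.infDist z D.E + ‖z - w‖ := by
    have := Metric.infDist_le_infDist_add_dist (s := D.E) (x := w) (y := z)
    rwa [dist_comm, dist_eq_norm] at this
  set d := Metric.infDist z D.E with hddef
  set δ := ‖z - w‖ with hδdef
  have hδ0 : 0 ≤ δ := norm_nonneg _
  rcases le_or_gt δ (d / 2) with hcase | hcase
  · have hgz : 0 < ‖D.g z‖ := norm_pos_iff.mpr (D.g_ne_zero hz)
    have hgw : 0 < ‖D.g w‖ := norm_pos_iff.mpr (D.g_ne_zero hw)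
    have h1 : D.h z - D.h w = -(D.g z - D.g w) * ((D.g z)⁻¹ * (D.g w)⁻¹) := by
      unfold h
      have := D.g_ne_zero hz
      have := D.g_ne_zero hw
      field_simp
      ring
    have h2 := D.norm_g_sub_le hz hw hcase
    have h3 := (D.main_bounds hz).1
    have h4 := D.norm_h_le hw
    have h5 : ‖D.g z - D.g w‖ ≤ 2 * δ / d * (10000 * ‖D.g z‖) := h2.trans (by gcongr)
    rw [h1, norm_mul, norm_neg, norm_mul, norm_inv, norm_inv]
    calc ‖D.g z - D.g w‖ * (‖D.g z‖⁻¹ * ‖D.g w‖⁻¹)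
        ≤ 2 * δ / d * (10000 * ‖D.g z‖) * (‖D.g z‖⁻¹ * ‖D.g w‖⁻¹) := by gcongr
      _ = 20000 * (δ / d) * ‖D.g w‖⁻¹ := by field_simp; ring
      _ = 20000 * (δ / d) * ‖D.h w‖ := by unfold h; rw [norm_inv]
      _ ≤ 20000 * (δ / d) * (10000 * (2 * d) ^ α) := by
          gcongr
          refine h4.trans ?_
          gcongr
          linarith
      _ ≤ 20000 * (δ / d) * (10000 * (2 * d ^ α)) := by
          gcongr
          rw [Real.mul_rpow (by norm_num) hd.le]
          gcongr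
          calc (2 : ℝ) ^ α ≤ 2 ^ (1 : ℝ) :=
                Real.rpow_le_rpow_of_exponent_le (by norm_num) hα1.le
            _ = 2 := Real.rpow_one 2
      _ = 4 * 10 ^ 8 * (δ / d * d ^ α) := by ring
      _ ≤ 4 * 10 ^ 8 * δ ^ α := by
          gcongr
          rcases eq_or_lt_of_le hδ0 with h0 | h0
          · rw [← h0, Real.zero_rpow hα0.ne']; simp
          · have h6 : d ^ α = d ^ (α - 1) * d := by
              nth_rewrite 3 [← Real.rpow_one d]
              rw [← Real.rpow_add hd, sub_add_cancel]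
            have h7 : δ ^ α = δ * δ ^ (α - 1) := by
              nth_rewrite 2 [← Real.rpow_one δ]
              rw [← Real.rpow_add h0]
              congr 1
              ring
            rw [h6, h7]
            calc δ / d * (d ^ (α - 1) * d) = δ * d ^ (α - 1) := by field_simp
              _ ≤ δ * δ ^ (α - 1) := by
                  gcongr ?_ * ?_
                  exact Real.rpow_le_rpow_of_nonpos h0 (by linarith) (by linarith)
      _ ≤ 10 ^ 9 * δ ^ α := by
          gcongr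
          norm_num
  · have h1 := D.norm_h_le hz
    have h2 := D.norm_h_le hw
    have h3 : d ^ α ≤ (3 * δ) ^ α := Real.rpow_le_rpow hd.le (by linarith) hα0.le
    have h4 : (Metric.infDist w D.E) ^ α ≤ (3 * δ) ^ α :=
      Real.rpow_le_rpow hdw.le (by linarith) hα0.le
    have h5 : (3 * δ) ^ α ≤ 3 * δ ^ α := by
      rw [Real.mul_rpow (by norm_num) hδ0]
      gcongr
      calc (3 : ℝ) ^ α ≤ 3 ^ (1 : ℝ) :=
            Real.rpow_le_rpow_of_exponent_le (by norm_num) hα1.le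
        _ = 3 := Real.rpow_one 3
    have h6 : 0 ≤ δ ^ α := by positivity
    have h7 := norm_sub_le (D.h z) (D.h w)
    nlinarith

end Data

end Pool.Agent.Helper655.Peak
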