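import Mathlib
import Pool.Agent.Helper655.P4

set_option autoImplicit false

namespace Pool.Agent.Helper655.Peak

open Filter Topology

namespace Data

variable {ι : Type} {α : ℝ} (D : Data ι α)

theorem differentiableOn_g : DifferentiableOn ℂ D.g (Metric.ball (0 : ℂ) 1) := by
  intro z hz
  rw [mem_ball_zero_iff] at hz
  obtain ⟨r, hr1, hr2⟩ := exists_between hz
  have hzr : z ∈ Metric.ball (0 : ℂ) r := by rwa [mem_ball_zero_iff]
  have h1 : DifferentiableOn ℂ (fun w => ∑' j, D.G j w) (Metric.ball (0 : ℂ) r) := by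
    apply Complex.differentiableOn_tsum_of_summable_norm (u := fun j => 2 / (1 - r) * D.m j)
      (D.summable_m.mul_left _)
    · intro j
      exact (differentiableOn_Gt (D.hρ j).le (D.hζ j)).mono (Metric.ball_subset_ball hr2.le)
    · exact Metric.isOpen_ball
    · intro j w hw
      rw [mem_ball_zero_iff] at hw
      refine (D.norm_G_le (hw.trans hr2) j).trans ((D.b_le (hw.trans hr2) j).trans ?_)
      have := (D.m_pos j).le
      have h3 : 0 < 1 - r := by linarith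
      gcongr
  have h2 : DifferentiableAt ℂ (fun w => ∑' j, D.G j w) z :=
    h1.differentiableAt (Metric.isOpen_ball.mem_nhds hzr)
  have h3 : DifferentiableAt ℂ (fun w : ℂ => (1 - w)⁻¹) z := by
    apply DifferentiableAt.inv (by fun_prop)
    exact norm_pos_iff.mp (s_pos hz)
  exact (h3.add h2).differentiableWithinAt

theorem differentiableOn_h : DifferentiableOn ℂ D.h (Metric.ball (0 : ℂ) 1) := by
  unfold h
  apply D.differentiableOn_g.inv
  intro z hz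
  rw [mem_ball_zero_iff] at hz
  exact D.g_ne_zero hz

theorem closure_ball' : closure (Metric.ball (0 : ℂ) 1) = Metric.closedBall (0 : ℂ) 1 :=
  closure_ball _ one_ne_zero

theorem exists_limit (x : ℂ) (hx : x ∈ Metric.closedBall (0 : ℂ) 1) :
    ∃ y, Tendsto D.h (𝓝[Metric.ball (0 : ℂ) 1] x) (𝓝 y) := by
  have hα0 := D.hα0
  have hne : (𝓝[Metric.ball (0 : ℂ) 1] x).NeBot := by
    rw [← mem_closure_iff_nhdsWithin_neBot, closure_ball']
    exact hx
  apply CompleteSpace.complete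
  rw [Metric.cauchy_iff]
  refine ⟨inferInstance, fun ε hε => ?_⟩
  obtain ⟨δ, hδ0, hδ⟩ : ∃ δ : ℝ, 0 < δ ∧ 10 ^ 9 * (2 * δ) ^ α < ε := by
    have h1 : Tendsto (fun δ : ℝ => 10 ^ 9 * (2 * δ) ^ α) (𝓝[>] 0) (𝓝 (10 ^ 9 * (2 * 0) ^ α)) := by
      apply Tendsto.mono_left _ nhdsWithin_le_nhds
      have : ContinuousAt (fun δ : ℝ => 10 ^ 9 * (2 * δ) ^ α) 0 := by
        apply ContinuousAt.mul continuousAt_const
        apply ContinuousAt.rpow_const (by fun_prop)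
        right
        exact hα0.le
      exact this
    rw [mul_zero, Real.zero_rpow hα0.ne', mul_zero] at h1
    obtain ⟨δ, h2, h3⟩ := ((h1.eventually (gt_mem_nhds hε)).and self_mem_nhdsWithin).exists
    exact ⟨δ, h3, h2⟩
  refine ⟨D.h '' (Metric.ball (0 : ℂ) 1 ∩ Metric.ball x δ), ?_, ?_⟩
  · apply image_mem_map
    exact inter_mem self_mem_nhdsWithin (mem_nhdsWithin_of_mem_nhds (Metric.ball_mem_nhds x hδ0))
  · rintro _ ⟨z, ⟨hz1, hz2⟩, rfl⟩ _ ⟨w, ⟨hw1, hw2⟩, rfl⟩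
    rw [mem_ball_zero_iff] at hz1 hw1
    rw [Metric.mem_ball] at hz2 hw2
    rw [dist_eq_norm]
    refine lt_of_le_of_lt (D.holder hz1 hw1) (lt_of_le_of_lt ?_ hδ)
    gcongr
    rw [← dist_eq_norm]
    have := dist_triangle_right z w x
    linarith

noncomputable def hx (z : ℂ) : ℂ := extendFrom (Metric.ball (0 : ℂ) 1) D.h z

theorem tendsto_hx {x : ℂ} (hxm : x ∈ Metric.closedBall (0 : ℂ) 1) :
    Tendsto D.h (𝓝[Metric.ball (0 : ℂ) 1] x) (𝓝 (D.hx x)) :=
  tendsto_extendFrom (D.exists_limit x hxm)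

theorem hx_eq {x : ℂ} (hxm : x ∈ Metric.ball (0 : ℂ) 1) : D.hx x = D.h x :=
  extendFrom_extends D.differentiableOn_h.continuousOn x hxm

theorem continuousOn_hx : ContinuousOn D.hx (Metric.closedBall (0 : ℂ) 1) := by
  apply continuousOn_extendFrom
  · rw [closure_ball']
  · exact D.exists_limit

theorem neBot_of_mem {x : ℂ} (hxm : x ∈ Metric.closedBall (0 : ℂ) 1) :
    (𝓝[Metric.ball (0 : ℂ) 1] x).NeBot := by
  rw [← mem_closure_iff_nhdsWithin_neBot, closure_ball']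
  exact hxm

theorem holder_hx {x y : ℂ} (hxm : x ∈ Metric.closedBall (0 : ℂ) 1)
    (hym : y ∈ Metric.closedBall (0 : ℂ) 1) :
    ‖D.hx x - D.hx y‖ ≤ 10 ^ 9 * ‖x - y‖ ^ α := by
  have hα0 := D.hα0
  have := neBot_of_mem hxm
  have := neBot_of_mem hym
  have h1 : Tendsto (fun p : ℂ × ℂ => ‖D.h p.1 - D.h p.2‖)
      (𝓝[Metric.ball (0 : ℂ) 1] x ×ˢ 𝓝[Metric.ball (0 : ℂ) 1] y) (𝓝 ‖D.hx x - D.hx y‖) :=
    (((D.tendsto_hx hxm).comp tendsto_fst).sub ((D.tendsto_hx hym).comp tendsto_snd)).norm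
  have h2 : Tendsto (fun p : ℂ × ℂ => 10 ^ 9 * ‖p.1 - p.2‖ ^ α)
      (𝓝[Metric.ball (0 : ℂ) 1] x ×ˢ 𝓝[Metric.ball (0 : ℂ) 1] y) (𝓝 (10 ^ 9 * ‖x - y‖ ^ α)) := by
    have hid : ∀ u : ℂ, Tendsto (fun v : ℂ => v) (𝓝[Metric.ball (0 : ℂ) 1] u) (𝓝 u) :=
      fun u => nhdsWithin_le_nhds
    have h3 : Tendsto (fun p : ℂ × ℂ => ‖p.1 - p.2‖)
        (𝓝[Metric.ball (0 : ℂ) 1] x ×ˢ 𝓝[Metric.ball (0 : ℂ) 1] y) (𝓝 ‖x - y‖) :=
      (((hid x).comp tendsto_fst).sub ((hid y).comp tendsto_snd)).norm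
    exact (h3.rpow_const (Or.inr hα0.le)).const_mul _
  refine le_of_tendsto_of_tendsto h1 h2 ?_
  have h4 : ∀ᶠ p : ℂ × ℂ in 𝓝[Metric.ball (0 : ℂ) 1] x ×ˢ 𝓝[Metric.ball (0 : ℂ) 1] y,
      p.1 ∈ Metric.ball (0 : ℂ) 1 ∧ p.2 ∈ Metric.ball (0 : ℂ) 1 :=
    Filter.prod_mem_prod self_mem_nhdsWithin self_mem_nhdsWithin
  filter_upwards [h4] with p hp
  exact D.holder (mem_ball_zero_iff.mp hp.1) (mem_ball_zero_iff.mp hp.2)

theorem hx_E {e : ℂ} (he : e ∈ D.E) : D.hx e = 0 := by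
  have hα0 := D.hα0
  have hem : e ∈ Metric.closedBall (0 : ℂ) 1 := by
    rw [mem_closedBall_zero_iff, D.E_norm he]
  apply extendFrom_eq
  · rw [closure_ball']; exact hem
  · rw [tendsto_zero_iff_norm_tendsto_zero]
    have h1 : Tendsto (fun z : ℂ => 10000 * ‖z - e‖ ^ α) (𝓝[Metric.ball (0 : ℂ) 1] e) (𝓝 0) := by
      have h2 : Tendsto (fun z : ℂ => ‖z - e‖) (𝓝[Metric.ball (0 : ℂ) 1] e) (𝓝 0) := by
        have h3 : ContinuousAt (fun z : ℂ => ‖z - e‖) e := by fun_prop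
        have h4 : Tendsto (fun z : ℂ => ‖z - e‖) (𝓝 e) (𝓝 ‖e - e‖) := h3
        rw [sub_self, norm_zero] at h4
        exact h4.mono_left nhdsWithin_le_nhds
      have h5 := (h2.rpow_const (Or.inr hα0.le)).const_mul (10000 : ℝ)
      rwa [Real.zero_rpow hα0.ne', mul_zero] at h5
    refine squeeze_zero' (Eventually.of_forall (fun z => norm_nonneg _)) ?_ h1
    filter_upwards [self_mem_nhdsWithin] with z hz
    refine (D.norm_h_le (mem_ball_zero_iff.mp hz)).trans ?_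
    have := Metric.infDist_le_dist_of_mem (x := z) he
    rw [dist_eq_norm] at this
    have h0 := Metric.infDist_nonneg (x := z) (s := D.E)
    gcongr

theorem hx_ne {x : ℂ} (hxm : x ∈ Metric.closedBall (0 : ℂ) 1) (hxE : x ∉ D.E) : D.hx x ≠ 0 := by
  have := neBot_of_mem hxm
  have h1 : Metric.infDist x D.E / 2 ≤ ‖D.hx x‖ := by
    have h2 : Tendsto (fun z : ℂ => Metric.infDist z D.E / 2) (𝓝[Metric.ball (0 : ℂ) 1] x)
        (𝓝 (Metric.infDist x D.E / 2)) :=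
      (((Metric.continuous_infDist_pt D.E).tendsto x).mono_left nhdsWithin_le_nhds).div_const _
    refine le_of_tendsto_of_tendsto h2 (D.tendsto_hx hxm).norm ?_
    filter_upwards [self_mem_nhdsWithin] with z hz
    exact D.norm_h_ge (mem_ball_zero_iff.mp hz)
  have h2 : 0 < Metric.infDist x D.E :=
    (D.isClosed_E.notMem_iff_infDist_pos ⟨1, D.one_mem⟩).mp hxE
  intro h
  rw [h, norm_zero] at h1
  linarith

theorem re_hx {x : ℂ} (hxm : x ∈ Metric.closedBall (0 : ℂ) 1) :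
    ‖D.hx x‖ ^ 2 / 2 ≤ (D.hx x).re := by
  have := neBot_of_mem hxm
  have h1 := D.tendsto_hx hxm
  refine le_of_tendsto_of_tendsto ((h1.norm.pow 2).div_const 2)
    ((Complex.continuous_re.tendsto _).comp h1) ?_
  filter_upwards [self_mem_nhdsWithin] with z hz
  exact D.re_h_ge (mem_ball_zero_iff.mp hz)

theorem peak : ∃ f : ℂ → ℂ, DifferentiableOn ℂ f (Metric.ball (0 : ℂ) 1) ∧
    ContinuousOn f (Metric.closedBall (0 : ℂ) 1) ∧
    (∃ C : ℝ, ∀ x ∈ Metric.sphere (0 : ℂ) 1, ∀ y ∈ Metric.sphere (0 : ℂ) 1,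
      ‖f x - f y‖ ≤ C * ‖x - y‖ ^ α) ∧
    (∀ x ∈ D.E, f x = 1) ∧ ∀ x ∈ Metric.sphere (0 : ℂ) 1, x ∉ D.E → ‖f x‖ < 1 := by
  refine ⟨fun z => 1 - D.hx z / 2, ?_, ?_, ⟨10 ^ 9, ?_⟩, ?_, ?_⟩
  · have h1 : DifferentiableOn ℂ D.hx (Metric.ball (0 : ℂ) 1) :=
      D.differentiableOn_h.congr (fun x hx => D.hx_eq hx)
    exact (h1.div_const 2).const_sub 1
  · exact continuousOn_const.sub (D.continuousOn_hx.div_const 2)
  · intro x hx y hy
    have h1 := D.holder_hx (Metric.sphere_subset_closedBall hx) (Metric.sphere_subset_closedBall hy)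
    have h2 : (1 - D.hx x / 2) - (1 - D.hx y / 2) = -((D.hx x - D.hx y) / 2) := by ring
    rw [h2, norm_neg, norm_div]
    have h3 : ‖(2 : ℂ)‖ = 2 := by simp
    rw [h3]
    have := norm_nonneg (D.hx x - D.hx y)
    linarith
  · intro x hx
    simp only
    rw [D.hx_E hx]
    simp
  · intro x hx hxE
    have hxm := Metric.sphere_subset_closedBall hx
    have h1 := D.re_hx hxm
    have h2 : 0 < ‖D.hx x‖ := norm_pos_iff.mpr (D.hx_ne hxm hxE)
    simp only
    have h3 : ‖1 - D.hx x / 2‖ ^ 2 = 1 - (D.hx x).re + ‖D.hx x‖ ^ 2 / 4 := by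
      rw [← Complex.normSq_eq_norm_sq, ← Complex.normSq_eq_norm_sq, Complex.normSq_apply,
        Complex.normSq_apply]
      simp only [Complex.sub_re, Complex.one_re, Complex.div_ofNat_re, Complex.sub_im,
        Complex.one_im, Complex.div_ofNat_im]
      ring
    have h4 : ‖1 - D.hx x / 2‖ ^ 2 < 1 := by
      rw [h3]
      nlinarith
    nlinarith [norm_nonneg (1 - D.hx x / 2)]

end Data

end Pool.Agent.Helper655.Peak
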