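import Mathlib
set_option autoImplicit false
open Polynomial

namespace PLS

variable {L : Type*} [CommRing L]

/-- `p(X) ↦ p(X + Z h)` -/
noncomputable def sh (h : L[X]) : L[X] →+* L[X][X] := eval₂RingHom (C.comp C) (C X + X * C h)

theorem sh_apply (h p : L[X]) : sh h p = p.eval₂ (C.comp C) (C X + X * C h) := rfl

theorem sh_C (h : L[X]) (a : L) : sh h (C a) = C (C a) := by simp [sh]

theorem sh_X (h : L[X]) : sh h X = C X + X * C h := by simp [sh]

/-- `z ↦ z * h` -/
noncomputable def subZ (h : L[X]) : L[X][X] →+* L[X][X] := eval₂RingHom C (X * C h)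

theorem subZ_C (h p : L[X]) : subZ h (C p) = C p := by simp [subZ]
theorem subZ_X (h : L[X]) : subZ h X = X * C h := by simp [subZ]

theorem subZ_sh (h g p : L[X]) : subZ h (sh g p) = sh (h * g) p := by
  have : (subZ h).comp (sh g) = sh (h * g) := by
    apply Polynomial.ringHom_ext
    · intro a; simp [subZ, sh]
    · simp [subZ, sh]; ring
  exact RingHom.congr_fun this p

theorem eval_subZ (h : L[X]) (q : L[X][X]) : (subZ h q).eval 0 = q.eval 0 := by
  have : (evalRingHom (0 : L[X])).comp (subZ h) = evalRingHom 0 := by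
    apply Polynomial.ringHom_ext <;> simp [subZ]
  exact RingHom.congr_fun this q

theorem eval_sh (h : L[X]) (p : L[X]) : (sh h p).eval 0 = p := by
  have : (evalRingHom (0 : L[X])).comp (sh h) = RingHom.id _ := by
    apply Polynomial.ringHom_ext <;> simp [sh]
  exact RingHom.congr_fun this p

noncomputable def shX (g : L[X]) : L[X][X] →+* L[X][X] := eval₂RingHom (sh g) X

theorem shX_C (g p : L[X]) : shX g (C p) = sh g p := by simp [shX]

theorem shX_sh (a b : L) (p : L[X]) : shX (C a) (sh (C b) p) = sh (C a + C b) p := by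
  have : (shX (C a)).comp (sh (C b)) = sh (C a + C b) := by
    apply Polynomial.ringHom_ext
    · intro c; simp [shX, sh]
    · simp [shX, sh]; ring
  exact RingHom.congr_fun this p

theorem eval_shX (g : L[X]) (q : L[X][X]) : (shX g q).eval 0 = q.eval 0 := by
  have : (evalRingHom (0 : L[X])).comp (shX g) = evalRingHom 0 := by
    apply Polynomial.ringHom_ext
    · intro p
      simp only [RingHom.comp_apply, shX_C, coe_evalRingHom, eval_sh, eval_C]
    · simp [shX]
  exact RingHom.congr_fun this q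

/-- property -/
def PP (f : Fin 3 → L[X]) (h : L[X]) : Prop :=
  ∃ Γ : Matrix (Fin 3) (Fin 3) (L[X][X]), Γ.det = 1 ∧ Γ.map (Polynomial.eval 0) = 1 ∧
    Matrix.vecMul (fun k => C (f k)) Γ = fun i => sh h (f i)

theorem PP_mul (f : Fin 3 → L[X]) (g h : L[X]) (H : PP f g) : PP f (h * g) := by
  obtain ⟨Γ, h1, h2, h3⟩ := H
  refine ⟨(subZ h).mapMatrix Γ, ?_, ?_, ?_⟩
  · rw [← RingHom.map_det, h1, map_one]
  · ext1 i j
    have := congrFun (congrFun h2 i) j
    simpa [eval_subZ] using this
  · funext i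
    have h4 := congrFun h3 i
    have h5 := congrArg (subZ h) h4
    rw [RingHom.map_vecMul, subZ_sh] at h5
    rw [← h5]
    congr 1
    funext k
    simp [subZ_C]

theorem PP_zero (f : Fin 3 → L[X]) : PP f 0 := by
  refine ⟨1, by simp, by ext i j; by_cases h : i = j <;> simp [Matrix.map_apply, Matrix.one_apply, h], ?_⟩
  rw [Matrix.vecMul_one]
  funext i
  have : sh (0 : L[X]) = C := by
    apply Polynomial.ringHom_ext <;> simp [sh]
  rw [this]

theorem PP_add (f : Fin 3 → L[X]) (a b : L) (H : PP f (C a)) (H' : PP f (C b)) : PP f (C (a + b)) := by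
  obtain ⟨Γ, h1, h2, h3⟩ := H
  obtain ⟨Γ', h1', h2', h3'⟩ := H'
  refine ⟨Γ * (shX (C a)).mapMatrix Γ', ?_, ?_, ?_⟩
  · rw [Matrix.det_mul, ← RingHom.map_det, h1, h1', map_one, one_mul]
  · have e1 : (Γ * (shX (C a)).mapMatrix Γ').map (Polynomial.eval 0)
        = Γ.map (Polynomial.eval 0) * ((shX (C a)).mapMatrix Γ').map (Polynomial.eval 0) := by
      have := Matrix.map_mul (L := Γ) (M := (shX (C a)).mapMatrix Γ') (f := evalRingHom (0 : L[X]))
      exact this
    rw [e1, h2, one_mul]
    ext1 i j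
    have := congrFun (congrFun h2' i) j
    simpa [eval_shX] using this
  · rw [← Matrix.vecMul_vecMul, h3]
    funext i
    have h5 := congrArg (shX (C a)) (congrFun h3' i)
    rw [RingHom.map_vecMul, shX_sh] at h5
    rw [C_add, ← h5]
    congr 1
    funext k
    simp [shX_C]

theorem PP_change (f : Fin 3 → L[X]) (h : L[X]) (ε ε' : Matrix (Fin 3) (Fin 3) L[X])
    (hε : ε * ε' = 1) (hdet : ε.det = 1) (H : PP (Matrix.vecMul f ε) h) : PP f h := by
  obtain ⟨Γ, h1, h2, h3⟩ := H
  have hdet' : ε'.det = 1 := by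
    have := congrArg Matrix.det hε
    rwa [Matrix.det_mul, hdet, one_mul, Matrix.det_one] at this
  refine ⟨(C : L[X] →+* L[X][X]).mapMatrix ε * Γ * (sh h).mapMatrix ε', ?_, ?_, ?_⟩
  · rw [Matrix.det_mul, Matrix.det_mul, ← RingHom.map_det, ← RingHom.map_det, h1, hdet, hdet',
      map_one, map_one, one_mul, one_mul]
  · have e1 : ((C : L[X] →+* L[X][X]).mapMatrix ε * Γ * (sh h).mapMatrix ε').map (Polynomial.eval 0)
        = ((C : L[X] →+* L[X][X]).mapMatrix ε).map (Polynomial.eval 0) * Γ.map (Polynomial.eval 0)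
          * ((sh h).mapMatrix ε').map (Polynomial.eval 0) := by
      have := Matrix.map_mul (L := (C : L[X] →+* L[X][X]).mapMatrix ε * Γ)
        (M := (sh h).mapMatrix ε') (f := evalRingHom (0 : L[X]))
      have h' := Matrix.map_mul (L := (C : L[X] →+* L[X][X]).mapMatrix ε)
        (M := Γ) (f := evalRingHom (0 : L[X]))
      rw [h'] at this
      exact this
    have e2 : ((C : L[X] →+* L[X][X]).mapMatrix ε).map (Polynomial.eval 0) = ε := by
      ext1 i j; simp
    have e3 : ((sh h).mapMatrix ε').map (Polynomial.eval 0) = ε' := by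
      ext1 i j; simp [eval_sh]
    rw [e1, e2, e3, h2, mul_one, hε]
  · rw [← Matrix.vecMul_vecMul, ← Matrix.vecMul_vecMul]
    have e4 : Matrix.vecMul (fun k => C (f k)) ((C : L[X] →+* L[X][X]).mapMatrix ε)
        = fun k => C (Matrix.vecMul f ε k) := by
      funext i
      rw [RingHom.map_vecMul]
      rfl
    rw [e4, h3]
    funext i
    have e5 : Matrix.vecMul (Matrix.vecMul f ε) ε' = f := by
      rw [Matrix.vecMul_vecMul, hε, Matrix.vecMul_one]
    have h5 := congrArg (sh h) (congrFun e5 i)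
    rw [RingHom.map_vecMul] at h5
    rw [← h5]
    rfl

theorem exists_delta (p : L[X]) : ∃ d : L[X][X], sh 1 p = C p + X * d := by
  have h : (sh 1 p - C p).eval 0 = 0 := by simp [eval_sh]
  have h2 : (X : L[X][X]) ∣ sh 1 p - C p := by
    rw [X_dvd_iff, coeff_zero_eq_eval_zero, h]
  obtain ⟨d, hd⟩ := h2
  exact ⟨d, by rw [← hd]; ring⟩

theorem PP_explicit (f : Fin 3 → L[X]) (r : L) (u v : L[X]) (hr : u * f 0 + v * f 1 = C r) :
    PP f (C r) := by
  obtain ⟨g0, hg0⟩ := exists_delta (f 0)
  obtain ⟨g1, hg1⟩ := exists_delta (f 1)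
  obtain ⟨g2, hg2⟩ := exists_delta (f 2)
  obtain ⟨a, ha⟩ := exists_delta u
  obtain ⟨b, hb⟩ := exists_delta v
  have e0 : C u * C (f 0) + C v * C (f 1) = (C (C r) : L[X][X]) := by
    rw [← hr]; simp
  have hrel : C u * g0 + C v * g1 + a * C (f 0) + b * C (f 1) + X * (a * g0 + b * g1) = 0 := by
    have h1 := congrArg (sh 1) hr
    rw [map_add, map_mul, map_mul, hg0, hg1, ha, hb, sh_C, ← e0] at h1
    have h2 : X * (C u * g0 + C v * g1 + a * C (f 0) + b * C (f 1) + X * (a * g0 + b * g1)) = X * 0 := by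
      rw [mul_zero]
      linear_combination h1
    exact isRegular_X.left h2
  have hrel' := congrArg (subZ (C r)) hrel
  simp only [map_add, map_mul, map_zero, subZ_C, subZ_X] at hrel'
  have k : ∀ (p : L[X]) (d : L[X][X]), sh 1 p = C p + X * d →
      sh (C r) p = C p + X * C (C r) * subZ (C r) d := by
    intro p d hd
    have := congrArg (subZ (C r)) hd
    rw [subZ_sh, mul_one, map_add, map_mul, subZ_C, subZ_X] at this
    exact this
  have k0 := k _ _ hg0
  have k1 := k _ _ hg1
  have k2 := k _ _ hg2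
  set G0 := subZ (C r) g0
  set G1 := subZ (C r) g1
  set G2 := subZ (C r) g2
  set A := subZ (C r) a
  set B := subZ (C r) b
  refine ⟨!![1 + X * (C u * G0 + C (f 1) * B), X * (C u * G1 - C (f 1) * A), X * G2 * C u;
    X * (C v * G0 - C (f 0) * B), 1 + X * (C v * G1 + C (f 0) * A), X * G2 * C v;
    0, 0, 1], ?_, ?_, ?_⟩
  · rw [Matrix.det_fin_three]
    simp
    linear_combination X * hrel' + X ^ 2 * (A * G0 + B * G1) * e0
  · ext1 i j
    fin_cases i <;> fin_cases j <;> simp
  · funext i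
    fin_cases i
    · simp [Matrix.vecMul, dotProduct, Fin.sum_univ_three]
      rw [k0]
      linear_combination X * G0 * e0
    · simp [Matrix.vecMul, dotProduct, Fin.sum_univ_three]
      rw [k1]
      linear_combination X * G1 * e0
    · simp [Matrix.vecMul, dotProduct, Fin.sum_univ_three]
      rw [k2]
      linear_combination X * G2 * e0

/-- Euclid step modulo a maximal ideal -/
theorem euclid (m : Ideal L) [m.IsMaximal] (f1 f2 : L[X]) :
    ∃ p q r s : L[X], p * s - q * r = 1 ∧ (f1 * q + f2 * s).map (Ideal.Quotient.mk m) = 0 := by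
  letI : Field (L ⧸ m) := Ideal.Quotient.field m
  have main : ∀ a b : (L ⧸ m)[X], ∀ f1 f2 : L[X], f1.map (Ideal.Quotient.mk m) = a →
      f2.map (Ideal.Quotient.mk m) = b →
      ∃ p q r s : L[X], p * s - q * r = 1 ∧ (f1 * q + f2 * s).map (Ideal.Quotient.mk m) = 0 := by
    intro a b
    induction a, b using EuclideanDomain.GCD.induction with
    | H0 b =>
      intro f1 f2 h1 h2
      refine ⟨0, -1, 1, 0, by ring, ?_⟩
      simp [h1]
    | H1 a b ha ih =>
      intro f1 f2 h1 h2
      obtain ⟨q0, hq0⟩ := Polynomial.map_surjective (Ideal.Quotient.mk m) Ideal.Quotient.mk_surjective (b / a)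
      obtain ⟨p, q, r, s, hd, hz⟩ := ih (f2 - q0 * f1) f1 (by
        rw [Polynomial.map_sub, Polynomial.map_mul, hq0, h1, h2, EuclideanDomain.mod_eq_sub_mul_div]
        ring) h1
      refine ⟨r - q0 * p, -(s - q0 * q), p, -q, by linear_combination hd, ?_⟩
      have : f1 * -(s - q0 * q) + f2 * -q = -((f2 - q0 * f1) * q + f1 * s) := by ring
      rw [this, Polynomial.map_neg, hz, neg_zero]
  exact main _ _ f1 f2 rfl rfl

theorem exists_r (m : Ideal L) [m.IsMaximal] (f0 f1 f2 : L[X]) (hm : f0.Monic)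
    (hu : ∃ a b c : L[X], a * f0 + b * f1 + c * f2 = 1)
    (h2 : f2.map (Ideal.Quotient.mk m) = 0) :
    ∃ r : L, r ∉ m ∧ ∃ u v : L[X], u * f0 + v * f1 = C r := by
  obtain ⟨a, b, c, habc⟩ := hu
  set K : Ideal L[X] := Ideal.span {f0, f1} with hK
  have h0 : Ideal.span {f0} ≤ K := by
    rw [Ideal.span_le, Set.singleton_subset_iff]
    exact Ideal.subset_span (by simp)
  have hfin0 : Module.Finite L (L[X] ⧸ Ideal.span {f0}) := hm.finite_quotient
  have hfin : Module.Finite L (L[X] ⧸ K) :=
    Module.Finite.of_surjective (Ideal.Quotient.factorₐ L h0).toLinearMap (by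
      intro y
      obtain ⟨x, rfl⟩ := Ideal.Quotient.mk_surjective y
      exact ⟨Ideal.Quotient.mk _ x, rfl⟩)
  let mk : L[X] →ₐ[L] (L[X] ⧸ K) := Ideal.Quotient.mkₐ L K
  have hmemK : ∀ y ∈ K, mk y = 0 := fun y hy => Ideal.Quotient.eq_zero_iff_mem.mpr hy
  have hmap : ∀ g : L[X], g.map (Ideal.Quotient.mk m) = 0 →
      mk g ∈ m • (⊤ : Submodule L (L[X] ⧸ K)) := by
    intro g hg
    have hco : ∀ n, g.coeff n ∈ m := by
      intro n
      have := congrArg (fun p => Polynomial.coeff p n) hg
      simp only [Polynomial.coeff_map, Polynomial.coeff_zero] at this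
      exact Ideal.Quotient.eq_zero_iff_mem.mp this
    rw [g.as_sum_range_C_mul_X_pow, map_sum]
    refine Submodule.sum_mem _ fun n _ => ?_
    rw [← Polynomial.smul_eq_C_mul, map_smul]
    exact Submodule.smul_mem_smul (hco n) trivial
  have hle : (⊤ : Submodule L (L[X] ⧸ K)) ≤ m • ⊤ := by
    intro y _
    obtain ⟨y, rfl⟩ := Ideal.Quotient.mk_surjective y
    show mk y ∈ _
    have h3 : mk y = mk (y * c * f2) := by
      have : y = y * c * f2 + (y * a * f0 + y * b * f1) := by
        linear_combination (-y) * habc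
      conv_lhs => rw [this]
      have hf0 : f0 ∈ K := Ideal.subset_span (by simp)
      have hf1 : f1 ∈ K := Ideal.subset_span (by simp)
      have h5 : mk (y * a * f0 + y * b * f1) = 0 :=
        hmemK _ (K.add_mem (K.mul_mem_left _ hf0) (K.mul_mem_left _ hf1))
      rw [map_add, h5, add_zero]
    rw [h3]
    refine hmap _ ?_
    rw [Polynomial.map_mul, h2, mul_zero]
  obtain ⟨r, hr1, hr2⟩ := Submodule.exists_sub_one_mem_and_smul_eq_zero_of_fg_of_le_smul m
    (⊤ : Submodule L (L[X] ⧸ K)) Module.Finite.fg_top hle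
  have hr3 := hr2 (mk 1) trivial
  rw [← map_smul, Polynomial.smul_eq_C_mul, mul_one] at hr3
  have hr4 : C r ∈ K := Ideal.Quotient.eq_zero_iff_mem.mp hr3
  obtain ⟨u, v, huv⟩ := Ideal.mem_span_pair.mp hr4
  refine ⟨r, ?_, u, v, huv⟩
  intro hrm
  have h1m : (1 : L) ∈ m := by
    have := m.sub_mem hrm hr1
    simpa using this
  exact (Ideal.IsMaximal.ne_top inferInstance) ((Ideal.eq_top_iff_one m).mpr h1m)

end PLS

open PLS in
/-- Suslin: a unimodular row of length 3 over `L[X]` with a monic entry: `f(X + Z h)` is `f(X) * Γ(Z)` with `Γ ∈ SL_3(L[X][Z])`, `Γ(0) = 1`. -/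
theorem suslin_row {L : Type*} [CommRing L] (f : Fin 3 → L[X]) (hm : (f 0).Monic)
    (hu : Ideal.span (Set.range f) = ⊤) (h : L[X]) :
    ∃ Γ : Matrix (Fin 3) (Fin 3) (L[X][X]), Γ.det = 1 ∧
      Γ.map (Polynomial.eval 0) = 1 ∧
      ∀ i, ∑ k, C (f k) * Γ k i = (f i).eval₂ (C.comp C) (C X + X * C h) := by
  -- the ideal
  let Ib : Ideal L :=
    { carrier := {b | PP f (C b)}
      add_mem' := fun {a b} ha hb => PP_add f a b ha hb
      zero_mem' := by
        show PP f (C 0)
        rw [C_0]; exact PP_zero f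
      smul_mem' := fun c x hx => by
        show PP f (C (c * x))
        rw [C_mul]
        exact PP_mul f _ _ hx }
  have htop : Ib = ⊤ := by
    by_contra hne
    obtain ⟨m, hmax, hle⟩ := Ideal.exists_le_maximal Ib hne
    haveI := hmax
    obtain ⟨p, q, r, s, hd, hz⟩ := euclid m (f 1) (f 2)
    -- change of basis
    have hone : (1 : L[X]) ∈ Ideal.span (Set.range f) := by rw [hu]; trivial
    obtain ⟨c, hc⟩ := (Ideal.mem_span_range_iff_exists_fun).mp hone
    rw [Fin.sum_univ_three] at hc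
    obtain ⟨b, hb, u, v, huv⟩ := exists_r m (f 0) (f 1 * p + f 2 * r) (f 1 * q + f 2 * s) hm
      ⟨c 0, c 1 * s - c 2 * q, c 2 * p - c 1 * r, by
        linear_combination hc + (c 1 * f 1 + c 2 * f 2) * hd⟩ hz
    apply hb
    apply hle
    show PP f (C b)
    set ε : Matrix (Fin 3) (Fin 3) L[X] := !![1, 0, 0; 0, p, q; 0, r, s] with hε
    set ε' : Matrix (Fin 3) (Fin 3) L[X] := !![1, 0, 0; 0, s, -q; 0, -r, p] with hε'
    have hdet : ε.det = 1 := by
      rw [hε, Matrix.det_fin_three]
      simp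
      linear_combination hd
    have hprod : ε * ε' = 1 := by
      ext1 i j
      fin_cases i <;> fin_cases j <;>
        simp [hε, hε', Matrix.mul_apply, Fin.sum_univ_three] <;>
        first | ring1 | linear_combination hd
    refine PP_change f (C b) ε ε' hprod hdet ?_
    refine PP_explicit _ b u v ?_
    have v0 : Matrix.vecMul f ε 0 = f 0 := by
      simp [hε, Matrix.vecMul, dotProduct, Fin.sum_univ_three]
    have v1 : Matrix.vecMul f ε 1 = f 1 * p + f 2 * r := by
      simp [hε, Matrix.vecMul, dotProduct, Fin.sum_univ_three]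
    rw [v0, v1, huv]
  have h1 : PP f (C 1) := by
    have : (1 : L) ∈ Ib := by rw [htop]; trivial
    exact this
  obtain ⟨Γ, g1, g2, g3⟩ := PP_mul f (C 1) h h1
  refine ⟨Γ, g1, g2, fun i => ?_⟩
  have := congrFun g3 i
  rw [C_1, mul_one] at this
  rw [← sh_apply, ← this]
  rfl
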