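import Mathlib

set_option autoImplicit false

namespace Pool.Agent.Helper655.Peak

open Filter Topology MeasureTheory

theorem jensen_lower (f : ℂ → ℂ) (hf : DifferentiableOn ℂ f (Metric.ball (0 : ℂ) 1)) :
    ∃ K : ℝ, ∀ r : ℝ, 1 / 2 ≤ r → r < 1 →
      K ≤ Real.circleAverage (fun x => Real.log ‖f x‖) 0 r := by
  set k : ℤ := (meromorphicOrderAt f 0).untop₀ with hk
  have han : AnalyticOnNhd ℂ f (Metric.ball (0 : ℂ) 1) :=
    hf.analyticOnNhd Metric.isOpen_ball
  have hk0 : 0 ≤ k := by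
    have := (han 0 (by simp)).meromorphicOrderAt_nonneg
    rw [hk]
    exact WithTop.untop₀_nonneg.mpr this
  refine ⟨k * Real.log (1 / 2) + Real.log ‖meromorphicTrailingCoeffAt f 0‖, fun r hr1 hr2 => ?_⟩
  have hr0 : 0 < r := by linarith
  have hsub : Metric.closedBall (0 : ℂ) |r| ⊆ Metric.ball (0 : ℂ) 1 := by
    rw [abs_of_pos hr0]
    exact Metric.closedBall_subset_ball hr2
  have han' : AnalyticOnNhd ℂ f (Metric.closedBall (0 : ℂ) |r|) := han.mono hsub
  rw [MeromorphicOn.circleAverage_log_norm hr0.ne' han'.meromorphicOn]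
  have hdiv := MeromorphicOn.AnalyticOnNhd.divisor_nonneg han'
  have h1 : 0 ≤ ∑ᶠ (u : ℂ), ((MeromorphicOn.divisor f (Metric.closedBall 0 |r|)) u : ℝ) *
      Real.log (r * ‖0 - u‖⁻¹) := by
    apply finsum_nonneg
    intro u
    by_cases hu : u ∈ Metric.closedBall (0 : ℂ) |r|
    · apply mul_nonneg
      · exact_mod_cast hdiv u
      · rcases eq_or_ne u 0 with rfl | hu0
        · simp
        · apply Real.log_nonneg
          rw [zero_sub, norm_neg, ← div_eq_mul_inv, one_le_div (norm_pos_iff.mpr hu0)]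
          rw [mem_closedBall_zero_iff, abs_of_pos hr0] at hu
          exact hu
    · have : (MeromorphicOn.divisor f (Metric.closedBall 0 |r|)) u = 0 :=
        Function.locallyFinsuppWithin.apply_eq_zero_of_notMem _ hu
      rw [this]
      simp
  have h2 : ((MeromorphicOn.divisor f (Metric.closedBall 0 |r|)) 0 : ℝ) = k := by
    rw [MeromorphicOn.divisor_apply han'.meromorphicOn (by simp)]
  rw [h2]
  have h3 : (k : ℝ) * Real.log (1 / 2) ≤ k * Real.log r := by
    have : (0 : ℝ) ≤ k := by exact_mod_cast hk0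
    gcongr
  linarith

theorem log_upper (f : ℂ → ℂ) (hf : DifferentiableOn ℂ f (Metric.ball (0 : ℂ) 1))
    (hne : ∃ z ∈ Metric.ball (0 : ℂ) 1, f z ≠ 0) (r : ℝ) (hr1 : 0 < r) (hr2 : r < 1)
    (ψ : ℝ → ℝ) (hψ : IntervalIntegrable ψ volume 0 (2 * Real.pi))
    (hle : ∀ θ ∈ Set.Ioc 0 (2 * Real.pi), f (circleMap 0 r θ) ≠ 0 →
      Real.log ‖f (circleMap 0 r θ)‖ ≤ ψ θ) :
    Real.circleAverage (fun x => Real.log ‖f x‖) 0 r ≤
      (2 * Real.pi)⁻¹ * ∫ θ in (0)..(2 * Real.pi), ψ θ := by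
  have hpi := Real.pi_pos
  have han : AnalyticOnNhd ℂ f (Metric.ball (0 : ℂ) 1) :=
    hf.analyticOnNhd Metric.isOpen_ball
  obtain ⟨z0, hz0, hfz0⟩ := hne
  have hsub : Metric.sphere (0 : ℂ) |r| ⊆ Metric.ball (0 : ℂ) 1 := by
    rw [abs_of_pos hr1]
    intro x hx
    rw [mem_ball_zero_iff]
    rw [mem_sphere_zero_iff_norm] at hx
    linarith
  rw [Real.circleAverage_def, smul_eq_mul]
  apply mul_le_mul_of_nonneg_left _ (by positivity)
  have hcod : f ⁻¹' {0}ᶜ ∈ codiscreteWithin (Metric.ball (0 : ℂ) 1) :=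
    han.preimage_zero_mem_codiscreteWithin hfz0 hz0
      ((convex_ball (0 : ℂ) 1).isConnected ⟨z0, hz0⟩)
  have hcod2 : f ⁻¹' {0}ᶜ ∈ codiscreteWithin (Metric.sphere (0 : ℂ) |r|) :=
    codiscreteWithin_mono hsub hcod
  have hcod3 : (circleMap 0 r) ⁻¹' (f ⁻¹' {0}ᶜ) ∈ codiscrete ℝ :=
    circleMap_preimage_codiscrete hr1.ne' hcod2
  have hae : ∀ᵐ θ ∂(volume.restrict (Set.Ioc 0 (2 * Real.pi))), f (circleMap 0 r θ) ≠ 0 := by
    have h1 : (circleMap 0 r) ⁻¹' (f ⁻¹' {0}ᶜ) ∈ codiscreteWithin (Set.Ioc 0 (2 * Real.pi)) :=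
      codiscreteWithin_mono (Set.subset_univ _) hcod3
    exact ae_restrict_le_codiscreteWithin measurableSet_Ioc h1
  have hci : CircleIntegrable (fun x => Real.log ‖f x‖) 0 r := by
    apply MeromorphicOn.circleIntegrable_log_norm
    exact (han.mono hsub).meromorphicOn
  apply intervalIntegral.integral_mono_ae_restrict (by positivity) hci hψ
  have h2 : ∀ᵐ θ ∂(volume.restrict (Set.Ioc 0 (2 * Real.pi))),
      Real.log ‖f (circleMap 0 r θ)‖ ≤ ψ θ := by
    filter_upwards [hae, ae_restrict_mem measurableSet_Ioc] with θ h3 h4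
    exact hle θ h4 h3
  rw [restrict_Ioc_eq_restrict_Icc] at h2
  exact h2

end Pool.Agent.Helper655.Peak
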