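import Mathlib
import Pool.Agent.Helper655.Q1

set_option autoImplicit false

namespace Pool.Agent.Helper655.Peak

open Filter Topology MeasureTheory

theorem segment_mem {z e : ℂ} (hz : ‖z‖ < 1) (he : ‖e‖ = 1) {s : ℝ} (hs0 : 0 < s) (hs1 : s ≤ 1) :
    ‖e + s * (z - e)‖ < 1 := by
  have h1 : e + s * (z - e) = ((1 - s : ℝ) : ℂ) * e + (s : ℂ) * z := by push_cast; ring
  rw [h1]
  refine lt_of_le_of_lt (norm_add_le _ _) ?_
  rw [norm_mul, norm_mul, Complex.norm_real, Complex.norm_real, Real.norm_eq_abs,
    Real.norm_eq_abs, abs_of_nonneg (by linarith), abs_of_pos hs0, he]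
  nlinarith

theorem flat_taylor (n : ℕ) : ∀ (F : ℂ → ℂ), DifferentiableOn ℂ F (Metric.ball (0 : ℂ) 1) →
    ∀ (B : ℝ), (∀ z ∈ Metric.ball (0 : ℂ) 1, ‖iteratedDeriv n F z‖ ≤ B) →
    ∀ e : ℂ, ‖e‖ = 1 →
    (∀ m < n, Tendsto (iteratedDeriv m F) (𝓝[Metric.ball (0 : ℂ) 1] e) (𝓝 0)) →
    ∀ z ∈ Metric.ball (0 : ℂ) 1, ‖F z‖ ≤ B * ‖z - e‖ ^ n / (Nat.factorial n : ℝ) := by
  induction n with
  | zero =>
    intro F hF B hB e he hflat z hz
    have := hB z hz
    rw [iteratedDeriv_zero] at this
    simpa using this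
  | succ n ih =>
    intro F hF B hB e he hflat z hz
    have hF' : DifferentiableOn ℂ (deriv F) (Metric.ball (0 : ℂ) 1) :=
      hF.deriv Metric.isOpen_ball
    have hd := ih (deriv F) hF' B (fun u hu => by
      rw [← iteratedDeriv_succ']; exact hB u hu) e he (fun m hm => by
      rw [← iteratedDeriv_succ']; exact hflat (m + 1) (by omega))
    have hB0 : 0 ≤ B := (norm_nonneg _).trans (hB z hz)
    rw [mem_ball_zero_iff] at hz
    set x := ‖z - e‖ with hx
    have hx0 : 0 ≤ x := norm_nonneg _
    set φ : ℝ → ℂ := fun s => F (e + s * (z - e)) with hφ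
    have hkey : ∀ s0 : ℝ, 0 < s0 → s0 < 1 → ‖F z‖ ≤ ‖φ s0‖ +
        B * x ^ (n + 1) / (Nat.factorial (n + 1) : ℝ) := by
      intro s0 hs0 hs1
      have hderiv : ∀ s : ℝ, 0 < s → s ≤ 1 →
          HasDerivAt φ (deriv F (e + s * (z - e)) * (z - e)) s := by
        intro s h1 h2
        have hmem : (e + s * (z - e)) ∈ Metric.ball (0 : ℂ) 1 := by
          rw [mem_ball_zero_iff]; exact segment_mem hz he h1 h2
        have h3 : HasDerivAt F (deriv F (e + s * (z - e))) (e + s * (z - e)) :=
          (hF.differentiableAt (Metric.isOpen_ball.mem_nhds hmem)).hasDerivAt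
        have h4 : HasDerivAt (fun s : ℝ => e + (s : ℂ) * (z - e)) (z - e) s := by
          have h5 := (Complex.ofRealCLM.hasDerivAt (x := s)).mul_const (z - e)
          simp only [Complex.ofRealCLM_apply, Complex.ofReal_one, one_mul] at h5
          exact h5.const_add e
        exact h3.comp s h4
      have hbb : ∀ s : ℝ, HasDerivAt (fun s : ℝ => ‖φ s0‖ + B * x ^ (n + 1) /
          (Nat.factorial (n + 1) : ℝ) * (s ^ (n + 1) - s0 ^ (n + 1)))
          (B * x ^ (n + 1) / (Nat.factorial (n + 1) : ℝ) * ((n + 1 : ℕ) * s ^ n)) s := by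
        intro s
        have h1 := ((hasDerivAt_pow (n + 1) s).sub_const (s0 ^ (n + 1))).const_mul
          (B * x ^ (n + 1) / (Nat.factorial (n + 1) : ℝ))
        exact h1.const_add _
      have hcomp := image_norm_le_of_norm_deriv_right_le_deriv_boundary
        (f := φ) (a := s0) (b := 1) (f' := fun s => deriv F (e + s * (z - e)) * (z - e))
        (fun s hs => (hderiv s (by linarith [hs.1]) hs.2).continuousAt.continuousWithinAt)
        (fun s hs => (hderiv s (by linarith [hs.1]) hs.2.le).hasDerivWithinAt)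
        (B := fun s : ℝ => ‖φ s0‖ + B * x ^ (n + 1) /
          (Nat.factorial (n + 1) : ℝ) * (s ^ (n + 1) - s0 ^ (n + 1)))
        (B' := fun s => B * x ^ (n + 1) / (Nat.factorial (n + 1) : ℝ) * ((n + 1 : ℕ) * s ^ n))
        (by simp) hbb (fun s hs => by
          have h1 : 0 < s := by linarith [hs.1]
          have hmem : (e + s * (z - e)) ∈ Metric.ball (0 : ℂ) 1 := by
            rw [mem_ball_zero_iff]; exact segment_mem hz he h1 hs.2.le
          have h2 := hd _ hmem
          rw [norm_mul, ← hx]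
          have h3 : ‖e + s * (z - e) - e‖ = s * x := by
            rw [add_sub_cancel_left, norm_mul, Complex.norm_real, Real.norm_eq_abs,
              abs_of_pos h1]
          rw [h3] at h2
          calc ‖deriv F (e + s * (z - e))‖ * x ≤ B * (s * x) ^ n / (Nat.factorial n : ℝ) * x := by
                gcongr
            _ = _ := by
                rw [Nat.factorial_succ]
                push_cast
                field_simp
                ring)
      have h1 := hcomp (Set.right_mem_Icc.mpr hs1.le)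
      simp only [hφ] at h1
      have h2 : e + ((1 : ℝ) : ℂ) * (z - e) = z := by push_cast; ring
      rw [h2] at h1
      refine h1.trans ?_
      gcongr
      have h3 : (1 : ℝ) ^ (n + 1) - s0 ^ (n + 1) ≤ 1 := by
        have : 0 ≤ s0 ^ (n + 1) := by positivity
        rw [one_pow]; linarith
      calc B * x ^ (n + 1) / (Nat.factorial (n + 1) : ℝ) * (1 ^ (n + 1) - s0 ^ (n + 1))
          ≤ B * x ^ (n + 1) / (Nat.factorial (n + 1) : ℝ) * 1 := by gcongr
        _ = _ := mul_one _
    -- let s0 tend to zero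
    have hlim : Tendsto (fun s0 : ℝ => ‖φ s0‖ + B * x ^ (n + 1) / (Nat.factorial (n + 1) : ℝ))
        (𝓝[>] 0) (𝓝 (0 + B * x ^ (n + 1) / (Nat.factorial (n + 1) : ℝ))) := by
      apply Tendsto.add_const
      have h0 := hflat 0 (by omega)
      rw [iteratedDeriv_zero] at h0
      have h1 : Tendsto (fun s0 : ℝ => e + (s0 : ℂ) * (z - e)) (𝓝[>] 0)
          (𝓝[Metric.ball (0 : ℂ) 1] e) := by
        apply tendsto_nhdsWithin_of_tendsto_nhds_of_eventually_within
        · have h2 : Continuous (fun s0 : ℝ => e + (s0 : ℂ) * (z - e)) := by fun_prop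
          have h3 := h2.tendsto 0
          simp only [Complex.ofReal_zero, zero_mul, add_zero] at h3
          exact h3.mono_left nhdsWithin_le_nhds
        · have h4 : ∀ᶠ s : ℝ in 𝓝[>] (0 : ℝ), s ∈ Set.Ioo (0 : ℝ) 1 :=
            Ioo_mem_nhdsGT one_pos
          filter_upwards [h4] with s hs
          rw [mem_ball_zero_iff]
          exact segment_mem hz he hs.1 hs.2.le
      have h5 := (h0.comp h1).norm
      rw [norm_zero] at h5
      exact h5
    rw [zero_add] at hlim
    refine ge_of_tendsto hlim ?_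
    have h4 : ∀ᶠ s : ℝ in 𝓝[>] (0 : ℝ), s ∈ Set.Ioo (0 : ℝ) 1 := Ioo_mem_nhdsGT one_pos
    filter_upwards [h4] with s hs
    exact hkey s hs.1 hs.2

theorem flat_exp (α : ℝ) (hα : 0 < α) (f : ℂ → ℂ)
    (hf : DifferentiableOn ℂ f (Metric.ball (0 : ℂ) 1)) (C : ℝ)
    (hC : ∀ n : ℕ, ∀ z ∈ Metric.ball (0 : ℂ) 1,
      ‖iteratedDeriv n f z‖ ≤ C ^ (n + 1) * (Nat.factorial n : ℝ) ^ (1 + 1 / α)) :
    ∃ C1 c : ℝ, 1 ≤ C1 ∧ 0 < c ∧ ∀ e : ℂ, ‖e‖ = 1 →
      (∀ m : ℕ, Tendsto (iteratedDeriv m f) (𝓝[Metric.ball (0 : ℂ) 1] e) (𝓝 0)) →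
      ∀ z ∈ Metric.ball (0 : ℂ) 1, ‖f z‖ ≤ C1 * Real.exp (-(c * ‖z - e‖ ^ (-α))) := by
  set A : ℝ := |C| + 1 with hA
  have hA1 : 1 ≤ A := by rw [hA]; linarith [abs_nonneg C]
  have hA0 : 0 < A := by linarith
  set c : ℝ := (Real.exp 1 * A) ^ (-α) with hc
  refine ⟨A * Real.exp 1, c, ?_, by positivity, fun e he hflat z hz => ?_⟩
  · have := Real.add_one_le_exp 1
    nlinarith
  · have hzn := mem_ball_zero_iff.mp hz
    set x := ‖z - e‖ with hx
    have hx0 : 0 < x := by
      rw [hx]
      have := norm_sub_norm_le e z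
      rw [he, norm_sub_rev] at this
      linarith
    have hbound : ∀ n : ℕ, ‖f z‖ ≤ A * (A * x * (n : ℝ) ^ (1 / α)) ^ n := by
      intro n
      have h1 := flat_taylor n f hf (C ^ (n + 1) * (Nat.factorial n : ℝ) ^ (1 + 1 / α)) (hC n) e he
        (fun m _ => hflat m) z hz
      have hfac : (0 : ℝ) < Nat.factorial n := by exact_mod_cast Nat.factorial_pos n
      have hCA : C ^ (n + 1) ≤ A ^ (n + 1) := by
        calc C ^ (n + 1) ≤ |C ^ (n + 1)| := le_abs_self _
          _ = |C| ^ (n + 1) := abs_pow _ _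
          _ ≤ A ^ (n + 1) := by
              gcongr
              rw [hA]; linarith
      have hfn : (Nat.factorial n : ℝ) ≤ (n : ℝ) ^ n := by exact_mod_cast Nat.factorial_le_pow n
      calc ‖f z‖ ≤ C ^ (n + 1) * (Nat.factorial n : ℝ) ^ (1 + 1 / α) * x ^ n /
            (Nat.factorial n : ℝ) := h1
        _ = C ^ (n + 1) * (Nat.factorial n : ℝ) ^ (1 / α) * x ^ n := by
            rw [Real.rpow_add hfac, Real.rpow_one]
            field_simp
        _ ≤ A ^ (n + 1) * ((n : ℝ) ^ n) ^ (1 / α) * x ^ n := by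
            gcongr
        _ = A * (A * x * (n : ℝ) ^ (1 / α)) ^ n := by
            have h3 : ((n : ℝ) ^ n) ^ (1 / α) = ((n : ℝ) ^ (1 / α)) ^ n := by
              rw [← Real.rpow_natCast, ← Real.rpow_mul (Nat.cast_nonneg n), mul_comm (n : ℝ) (1 / α),
                Real.rpow_mul (Nat.cast_nonneg n), Real.rpow_natCast]
            rw [h3]
            ring
    set y : ℝ := c * x ^ (-α) with hy
    have hy0 : 0 ≤ y := by positivity
    set n := ⌊y⌋₊ with hn
    have hny : (n : ℝ) ≤ y := Nat.floor_le hy0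
    have hyn : y < n + 1 := Nat.lt_floor_add_one y
    have hyeq : y = (Real.exp 1 * A * x) ^ (-α) := by
      rw [hy, hc, ← Real.mul_rpow (by positivity) hx0.le]
    have h1 : A * x * (n : ℝ) ^ (1 / α) ≤ Real.exp (-1) := by
      have h2 : (n : ℝ) ^ (1 / α) ≤ (Real.exp 1 * A * x)⁻¹ := by
        calc (n : ℝ) ^ (1 / α) ≤ y ^ (1 / α) := by
              apply Real.rpow_le_rpow (Nat.cast_nonneg n) hny; positivity
          _ = (Real.exp 1 * A * x)⁻¹ := by
              rw [hyeq, ← Real.rpow_mul (by positivity)]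
              have : -α * (1 / α) = -1 := by field_simp
              rw [this, Real.rpow_neg_one]
      calc A * x * (n : ℝ) ^ (1 / α) ≤ A * x * (Real.exp 1 * A * x)⁻¹ := by gcongr
        _ = (Real.exp 1)⁻¹ := by field_simp
        _ = Real.exp (-1) := (Real.exp_neg 1).symm
    calc ‖f z‖ ≤ A * (A * x * (n : ℝ) ^ (1 / α)) ^ n := hbound n
      _ ≤ A * (Real.exp (-1)) ^ n := by gcongr
      _ = A * Real.exp (-(n : ℝ)) := by
          rw [← Real.exp_nat_mul]
          congr 2
          ring
      _ ≤ A * Real.exp (1 + -y) := by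
          gcongr
          linarith
      _ = _ := by rw [Real.exp_add]; ring

/-- a function decaying exponentially towards a set filling too much of the circle vanishes -/
theorem no_flat (α : ℝ) (hα : 0 < α) (f : ℂ → ℂ)
    (hf : DifferentiableOn ℂ f (Metric.ball (0 : ℂ) 1))
    (hne : ∃ z ∈ Metric.ball (0 : ℂ) 1, f z ≠ 0) (E : Set ℂ) (hE : ∀ e ∈ E, ‖e‖ = 1)
    (C1 c : ℝ) (hC1 : 1 ≤ C1) (hc : 0 < c)
    (hb : ∀ e ∈ E, ∀ z ∈ Metric.ball (0 : ℂ) 1, ‖f z‖ ≤ C1 * Real.exp (-(c * ‖z - e‖ ^ (-α))))
    (a b lam : ℕ → ℝ) (ha : ∀ n, 0 ≤ a n) (hab : ∀ n, a n ≤ b n) (hbpi : ∀ n, b n ≤ 2 * Real.pi)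
    (hlam : ∀ n, 0 < lam n)
    (hdisj : Pairwise (fun m n => Disjoint (Set.Ioc (a m) (b m)) (Set.Ioc (a n) (b n))))
    (hnear : ∀ n, ∀ θ ∈ Set.Ioc (a n) (b n), ∃ e ∈ E,
      ‖Complex.exp ((θ : ℂ) * Complex.I) - e‖ ≤ lam n)
    (hdiv : Tendsto (fun N : ℕ => ∑ n ∈ Finset.range N, (b n - a n) * lam n ^ (-α)) atTop atTop) :
    False := by
  have hpi := Real.pi_pos
  obtain ⟨K, hK⟩ := jensen_lower f hf
  have hlogC1 : 0 ≤ Real.log C1 := Real.log_nonneg hC1
  -- estimate for fixed r and N
  have hmain : ∀ (N : ℕ) (r : ℝ), 1 / 2 ≤ r → r < 1 →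
      K ≤ Real.log C1 - c / (2 * Real.pi) *
        ∑ n ∈ Finset.range N, (b n - a n) * (1 - r + lam n) ^ (-α) := by
    intro N r hr1 hr2
    have hr0 : 0 < r := by linarith
    let v : ℕ → ℝ := fun n => c * (1 - r + lam n) ^ (-α)
    have hv0 : ∀ n, 0 ≤ v n := by
      intro n
      have := hlam n
      have h2 : 0 < 1 - r + lam n := by linarith
      simp only [v]
      positivity
    let ψ : ℝ → ℝ := fun θ => Real.log C1 -
      ∑ n ∈ Finset.range N, Set.indicator (Set.Ioc (a n) (b n)) (fun _ => v n) θ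
    have hind : ∀ n, IntervalIntegrable (Set.indicator (Set.Ioc (a n) (b n)) (fun _ => v n))
        volume 0 (2 * Real.pi) := by
      intro n
      rw [intervalIntegrable_iff, Set.uIoc_of_le (by positivity)]
      exact (integrable_const (v n)).indicator measurableSet_Ioc
    have hsumint : IntervalIntegrable (fun θ => ∑ n ∈ Finset.range N,
        Set.indicator (Set.Ioc (a n) (b n)) (fun _ => v n) θ) volume 0 (2 * Real.pi) := by
      have h := IntervalIntegrable.sum (Finset.range N) (fun n _ => hind n)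
      have e : (∑ n ∈ Finset.range N, Set.indicator (Set.Ioc (a n) (b n)) (fun _ => v n)) =
          (fun θ => ∑ n ∈ Finset.range N, Set.indicator (Set.Ioc (a n) (b n)) (fun _ => v n) θ) := by
        funext θ
        rw [Finset.sum_apply]
      rw [e] at h
      exact h
    have hψ : IntervalIntegrable ψ volume 0 (2 * Real.pi) :=
      intervalIntegrable_const.sub hsumint
    have hup := log_upper f hf hne r hr0 hr2 ψ hψ (by
      intro θ hθ hfne
      have hmem : circleMap 0 r θ ∈ Metric.ball (0 : ℂ) 1 := by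
        rw [mem_ball_zero_iff]
        simp only [circleMap, zero_add, norm_mul, Complex.norm_real, Real.norm_eq_abs,
          Complex.norm_exp_ofReal_mul_I, mul_one, abs_of_pos hr0]
        exact hr2
      by_cases hin : ∃ n ∈ Finset.range N, θ ∈ Set.Ioc (a n) (b n)
      · obtain ⟨n, hn, hθn⟩ := hin
        have hsum : ∑ m ∈ Finset.range N, Set.indicator (Set.Ioc (a m) (b m)) (fun _ => v m) θ
            = v n := by
          rw [Finset.sum_eq_single_of_mem n hn]
          · rw [Set.indicator_of_mem hθn]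
          · intro m _ hmn
            rw [Set.indicator_of_notMem]
            intro h
            exact Set.disjoint_left.mp (hdisj hmn) h hθn
        simp only [ψ]
        rw [hsum]
        obtain ⟨e, heE, he⟩ := hnear n θ hθn
        have h1 := hb e heE _ hmem
        have h2 : ‖circleMap 0 r θ - e‖ ≤ 1 - r + lam n := by
          have h3 : circleMap 0 r θ - e = (Complex.exp ((θ : ℂ) * Complex.I) - e)
              - ((1 - r : ℝ) : ℂ) * Complex.exp ((θ : ℂ) * Complex.I) := by
            simp only [circleMap, zero_add]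
            push_cast
            ring
          rw [h3]
          refine (norm_sub_le _ _).trans ?_
          rw [norm_mul, Complex.norm_real, Real.norm_eq_abs, Complex.norm_exp_ofReal_mul_I,
            abs_of_pos (by linarith), mul_one]
          linarith
        have h4 : v n ≤ c * ‖circleMap 0 r θ - e‖ ^ (-α) := by
          have h5 : 0 < ‖circleMap 0 r θ - e‖ := by
            have h9 := norm_sub_norm_le e (circleMap 0 r θ)
            rw [hE e heE, norm_sub_rev] at h9
            rw [mem_ball_zero_iff] at hmem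
            linarith
          simp only [v]
          gcongr ?_ * ?_
          exact Real.rpow_le_rpow_of_nonpos h5 h2 (by linarith)
        have h6 : 0 < ‖f (circleMap 0 r θ)‖ := norm_pos_iff.mpr hfne
        calc Real.log ‖f (circleMap 0 r θ)‖
            ≤ Real.log (C1 * Real.exp (-(c * ‖circleMap 0 r θ - e‖ ^ (-α)))) :=
              Real.log_le_log h6 h1
          _ = Real.log C1 - c * ‖circleMap 0 r θ - e‖ ^ (-α) := by
              rw [Real.log_mul (by linarith) (Real.exp_ne_zero _), Real.log_exp]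
              ring
          _ ≤ Real.log C1 - v n := by linarith
      · have hsum : ∑ m ∈ Finset.range N, Set.indicator (Set.Ioc (a m) (b m)) (fun _ => v m) θ
            = 0 := by
          apply Finset.sum_eq_zero
          intro m hm
          rw [Set.indicator_of_notMem]
          intro h
          exact hin ⟨m, hm, h⟩
        simp only [ψ]
        rw [hsum, sub_zero]
        have h6 : 0 < ‖f (circleMap 0 r θ)‖ := norm_pos_iff.mpr hfne
        obtain ⟨n0, hn0⟩ : ∃ n0, a n0 < b n0 := by
          by_contra hcon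
          push Not at hcon
          have hz : ∀ N : ℕ, ∑ n ∈ Finset.range N, (b n - a n) * lam n ^ (-α) = 0 := by
            intro N
            apply Finset.sum_eq_zero
            intro n _
            rw [le_antisymm (hcon n) (hab n)]
            simp
          simp only [hz] at hdiv
          exact (not_tendsto_const_atTop (0 : ℝ) atTop) hdiv
        obtain ⟨e, heE, _⟩ := hnear n0 (b n0) ⟨hn0, le_rfl⟩
        have h1 := hb e heE _ hmem
        have h7 : ‖f (circleMap 0 r θ)‖ ≤ C1 := by
          refine h1.trans ?_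
          have : Real.exp (-(c * ‖circleMap 0 r θ - e‖ ^ (-α))) ≤ 1 := by
            rw [Real.exp_le_one_iff]
            have : 0 ≤ c * ‖circleMap 0 r θ - e‖ ^ (-α) := by positivity
            linarith
          nlinarith
        exact Real.log_le_log h6 h7)
    have hint : ∫ θ in (0)..(2 * Real.pi), ψ θ = 2 * Real.pi * Real.log C1 -
        ∑ n ∈ Finset.range N, (b n - a n) * v n := by
      simp only [ψ]
      rw [intervalIntegral.integral_sub intervalIntegrable_const hsumint,
        intervalIntegral.integral_finsetSum (fun n _ => hind n)]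
      congr 1
      · simp
      · apply Finset.sum_congr rfl
        intro n _
        rw [intervalIntegral.integral_of_le (by positivity), integral_indicator measurableSet_Ioc,
          Measure.restrict_restrict measurableSet_Ioc]
        have : Set.Ioc (a n) (b n) ∩ Set.Ioc 0 (2 * Real.pi) = Set.Ioc (a n) (b n) := by
          apply Set.inter_eq_left.mpr
          intro y hy
          exact ⟨by linarith [hy.1, ha n], by linarith [hy.2, hbpi n]⟩
        rw [this, setIntegral_const, smul_eq_mul, Measure.real, Real.volume_Ioc,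
          ENNReal.toReal_ofReal (by linarith [hab n])]
    have h1 := (hK r hr1 hr2).trans hup
    rw [hint] at h1
    refine h1.trans (le_of_eq ?_)
    have h2 : ∑ n ∈ Finset.range N, (b n - a n) * v n = c *
        ∑ n ∈ Finset.range N, (b n - a n) * (1 - r + lam n) ^ (-α) := by
      rw [Finset.mul_sum]
      apply Finset.sum_congr rfl
      intro n _
      simp only [v]
      ring
    rw [h2]
    field_simp
  -- let r tend to 1
  have hlim : ∀ N : ℕ, K ≤ Real.log C1 - c / (2 * Real.pi) *
      ∑ n ∈ Finset.range N, (b n - a n) * lam n ^ (-α) := by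
    intro N
    have h1 : Tendsto (fun r : ℝ => Real.log C1 - c / (2 * Real.pi) *
        ∑ n ∈ Finset.range N, (b n - a n) * (1 - r + lam n) ^ (-α)) (𝓝[<] 1)
        (𝓝 (Real.log C1 - c / (2 * Real.pi) *
        ∑ n ∈ Finset.range N, (b n - a n) * (1 - 1 + lam n) ^ (-α))) := by
      apply Tendsto.mono_left _ nhdsWithin_le_nhds
      apply Tendsto.const_sub
      apply Tendsto.const_mul
      apply tendsto_finsetSum
      intro n _
      apply Tendsto.const_mul
      have h2 : Tendsto (fun r : ℝ => 1 - r + lam n) (𝓝 1) (𝓝 (1 - 1 + lam n)) := by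
        have : Continuous (fun r : ℝ => 1 - r + lam n) := by fun_prop
        exact this.tendsto 1
      apply h2.rpow_const
      left
      have := hlam n
      linarith
    simp only [sub_self, zero_add] at h1
    refine ge_of_tendsto h1 ?_
    have h3 : ∀ᶠ r : ℝ in 𝓝[<] (1 : ℝ), r ∈ Set.Ioo (1 / 2 : ℝ) 1 :=
      Ioo_mem_nhdsLT (by norm_num)
    filter_upwards [h3] with r hr
    exact hmain N r hr.1.le hr.2
  obtain ⟨N, hN⟩ := (hdiv.eventually_gt_atTop ((Real.log C1 - K) / (c / (2 * Real.pi)))).exists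
  have h1 := hlim N
  have h2 : 0 < c / (2 * Real.pi) := by positivity
  rw [div_lt_iff₀ h2] at hN
  linarith

end Pool.Agent.Helper655.Peak
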