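import Mathlib
import Pool.Agent.Helper655.P5

set_option autoImplicit false

namespace Pool.Agent.Helper655.Peak

open Filter Topology

theorem chord_eq (x y : ℝ) : ‖Complex.exp ((x : ℂ) * Complex.I) - Complex.exp ((y : ℂ) * Complex.I)‖
    = ‖2 * Real.sin ((x - y) / 2)‖ := by
  have h1 : Complex.exp ((x : ℂ) * Complex.I) - Complex.exp ((y : ℂ) * Complex.I)
      = Complex.exp ((y : ℂ) * Complex.I) * (Complex.exp (Complex.I * ((x - y : ℝ) : ℂ)) - 1) := by
    rw [mul_sub, mul_one, ← Complex.exp_add]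
    congr 2
    push_cast
    ring
  rw [h1, norm_mul, Complex.norm_exp_ofReal_mul_I, one_mul, Complex.norm_exp_I_mul_ofReal_sub_one]

theorem chord_le (x y : ℝ) :
    ‖Complex.exp ((x : ℂ) * Complex.I) - Complex.exp ((y : ℂ) * Complex.I)‖ ≤ |x - y| := by
  rw [chord_eq, Real.norm_eq_abs, abs_mul, abs_of_pos (by norm_num : (0 : ℝ) < 2)]
  have h1 := Real.abs_sin_le_abs (x := (x - y) / 2)
  rw [abs_div, abs_of_pos (by norm_num : (0 : ℝ) < 2)] at h1
  linarith

theorem chord_ge (x y : ℝ) (h : |x - y| ≤ 1) :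
    |x - y| / 2 ≤ ‖Complex.exp ((x : ℂ) * Complex.I) - Complex.exp ((y : ℂ) * Complex.I)‖ := by
  rw [chord_eq, Real.norm_eq_abs, abs_mul, abs_of_pos (by norm_num : (0 : ℝ) < 2)]
  have hpi := Real.pi_gt_three
  have hpi4 := Real.pi_lt_four
  have h1 : |Real.sin ((x - y) / 2)| = Real.sin (|x - y| / 2) := by
    rcases le_total 0 (x - y) with h0 | h0
    · rw [abs_of_nonneg h0, abs_of_nonneg]
      apply Real.sin_nonneg_of_nonneg_of_le_pi (by linarith)
      rw [abs_of_nonneg h0] at h
      linarith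
    · rw [abs_of_nonpos h0] at h ⊢
      have : (x - y) / 2 = -(-(x - y) / 2) := by ring
      rw [this, Real.sin_neg, abs_neg, abs_of_nonneg]
      apply Real.sin_nonneg_of_nonneg_of_le_pi <;> linarith
  rw [h1]
  have h2 := Real.mul_le_sin (x := |x - y| / 2) (by positivity) (by linarith)
  have h3 : |x - y| / 2 ≤ 2 * (2 / Real.pi * (|x - y| / 2)) := by
    have h4 : 1 / 2 ≤ 2 / Real.pi := by
      rw [div_le_div_iff₀ (by norm_num) Real.pi_pos]; linarith
    have h5 := abs_nonneg (x - y)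
    nlinarith
  linarith

theorem harm (N i : ℕ) :
    ∑ j ∈ (Finset.range N).erase i, 1 / |(j : ℝ) - i| ≤ 2 * (1 + Real.log N) := by
  rcases Nat.eq_zero_or_pos N with hN | hN
  · subst hN; simp
  rcases le_or_gt N i with hi | hi
  · -- all points on the left: sum over range N
    have hsub : ∑ j ∈ (Finset.range N).erase i, 1 / |(j : ℝ) - i| ≤
        ∑ j ∈ Finset.range N, (((N - 1 - j + 1 : ℕ) : ℝ))⁻¹ := by
      calc ∑ j ∈ (Finset.range N).erase i, 1 / |(j : ℝ) - i|
          ≤ ∑ j ∈ Finset.range N, 1 / |(j : ℝ) - i| :=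
            Finset.sum_le_sum_of_subset_of_nonneg (Finset.erase_subset _ _)
              (fun _ _ _ => by positivity)
        _ ≤ _ := by
            apply Finset.sum_le_sum
            intro j hj
            rw [Finset.mem_range] at hj
            rw [one_div]
            have h1 : ((N - 1 - j + 1 : ℕ) : ℝ) ≤ |(j : ℝ) - i| := by
              have h2 : (N - 1 - j + 1 : ℕ) ≤ i - j := by omega
              have h3 : ((i - j : ℕ) : ℝ) = (i : ℝ) - j := by
                rw [Nat.cast_sub (by omega)]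
              calc ((N - 1 - j + 1 : ℕ) : ℝ) ≤ ((i - j : ℕ) : ℝ) := by exact_mod_cast h2
                _ = (i : ℝ) - j := h3
                _ ≤ |(j : ℝ) - i| := by rw [abs_sub_comm]; exact le_abs_self _
            have h4 : (0 : ℝ) < ((N - 1 - j + 1 : ℕ) : ℝ) := by positivity
            exact inv_anti₀ h4 h1
    have h5 := Finset.sum_range_reflect (fun d : ℕ => (((d + 1 : ℕ) : ℝ))⁻¹) N
    rw [h5] at hsub
    have h6 := harmonic_le_one_add_log N
    unfold harmonic at h6
    push_cast at h6 hsub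
    have h7 : 0 ≤ Real.log N := Real.log_natCast_nonneg N
    linarith
  · have hsub : (Finset.range N).erase i ⊆ Finset.range i ∪ Finset.Ico (i + 1) N := by
      intro j hj
      rw [Finset.mem_erase, Finset.mem_range] at hj
      rw [Finset.mem_union, Finset.mem_range, Finset.mem_Ico]
      omega
    have h1 : ∑ j ∈ (Finset.range N).erase i, 1 / |(j : ℝ) - i| ≤
        ∑ j ∈ Finset.range i, 1 / |(j : ℝ) - i| + ∑ j ∈ Finset.Ico (i + 1) N, 1 / |(j : ℝ) - i| := by
      rw [← Finset.sum_union]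
      · exact Finset.sum_le_sum_of_subset_of_nonneg hsub (fun _ _ _ => by positivity)
      · rw [Finset.disjoint_left]
        intro j hj1 hj2
        rw [Finset.mem_range] at hj1
        rw [Finset.mem_Ico] at hj2
        omega
    have h2 : ∑ j ∈ Finset.range i, 1 / |(j : ℝ) - i| ≤ 1 + Real.log N := by
      have h3 : ∑ j ∈ Finset.range i, 1 / |(j : ℝ) - i| =
          ∑ j ∈ Finset.range i, (((i - 1 - j + 1 : ℕ) : ℝ))⁻¹ := by
        apply Finset.sum_congr rfl
        intro j hj
        rw [Finset.mem_range] at hj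
        have h4 : (i - 1 - j + 1 : ℕ) = i - j := by omega
        rw [h4, Nat.cast_sub hj.le, one_div, abs_sub_comm, abs_of_pos]
        have : (j : ℝ) < i := by exact_mod_cast hj
        linarith
      rw [h3, Finset.sum_range_reflect (fun d : ℕ => (((d + 1 : ℕ) : ℝ))⁻¹) i]
      have h6 := harmonic_le_one_add_log i
      unfold harmonic at h6
      push_cast at h6 ⊢
      refine h6.trans ?_
      rcases Nat.eq_zero_or_pos i with h0 | h0
      · rw [h0]
        simp
        exact Real.log_natCast_nonneg N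
      · gcongr
    have h3 : ∑ j ∈ Finset.Ico (i + 1) N, 1 / |(j : ℝ) - i| ≤ 1 + Real.log N := by
      rw [Finset.sum_Ico_eq_sum_range]
      have h4 : ∑ k ∈ Finset.range (N - (i + 1)), 1 / |((i + 1 + k : ℕ) : ℝ) - i| =
          ∑ k ∈ Finset.range (N - (i + 1)), (((k + 1 : ℕ) : ℝ))⁻¹ := by
        apply Finset.sum_congr rfl
        intro k _
        have h5 : ((i + 1 + k : ℕ) : ℝ) - i = ((k + 1 : ℕ) : ℝ) := by push_cast; ring
        rw [h5, one_div, abs_of_pos (by positivity)]
      rw [h4]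
      have h6 := harmonic_le_one_add_log (N - (i + 1))
      unfold harmonic at h6
      push_cast at h6 ⊢
      refine h6.trans ?_
      rcases Nat.eq_zero_or_pos (N - (i + 1)) with h0 | h0
      · rw [h0]
        simp
        exact Real.log_natCast_nonneg N
      · have : (((N - (i + 1) : ℕ)) : ℝ) ≤ N := by exact_mod_cast Nat.sub_le _ _
        gcongr
    linarith

/-- finite sums over a sigma type -/
theorem sigma_bound (N : ℕ → ℕ) (f : (Σ n, Fin (N n)) → ℝ) (hf : ∀ j, 0 ≤ f j) (B : ℕ → ℝ)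
    (T : ℝ) (hB : ∀ n, ∑ i : Fin (N n), f ⟨n, i⟩ ≤ B n)
    (hT : ∀ S : Finset ℕ, ∑ n ∈ S, B n ≤ T) (F : Finset (Σ n, Fin (N n))) :
    ∑ j ∈ F, f j ≤ T := by
  classical
  have hsub : F ⊆ (F.image Sigma.fst).sigma (fun _ => Finset.univ) := by
    intro j hj
    rw [Finset.mem_sigma]
    exact ⟨Finset.mem_image_of_mem _ hj, Finset.mem_univ _⟩
  calc ∑ j ∈ F, f j ≤ ∑ j ∈ (F.image Sigma.fst).sigma (fun _ => Finset.univ), f j :=
        Finset.sum_le_sum_of_subset_of_nonneg hsub (fun j _ _ => hf j)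
    _ = ∑ n ∈ F.image Sigma.fst, ∑ i : Fin (N n), f ⟨n, i⟩ := Finset.sum_sigma _ _ _
    _ ≤ ∑ n ∈ F.image Sigma.fst, B n := Finset.sum_le_sum (fun n _ => hB n)
    _ ≤ T := hT _

end Pool.Agent.Helper655.Peak
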