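import Mathlib
import Pool.Agent.Helper655.R1

set_option autoImplicit false

namespace Pool.Agent.Helper655.Peak

open Filter Topology

/-- comparison sequence -/
noncomputable def uu (q : ℝ) (M : ℕ) : ℝ := (M : ℝ) ^ (-q) + ((1 / 2 : ℝ) ^ M) ^ (q - 1)

theorem half_pow_rpow (q : ℝ) (M : ℕ) : ((1 / 2 : ℝ) ^ M) ^ (q - 1) = ((1 / 2 : ℝ) ^ (q - 1)) ^ M := by
  rw [← Real.rpow_natCast, ← Real.rpow_mul (by norm_num), mul_comm, Real.rpow_mul (by norm_num),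
    Real.rpow_natCast]

theorem ratio_lt_one {q : ℝ} (hq : 1 < q) : (1 / 2 : ℝ) ^ (q - 1) < 1 :=
  Real.rpow_lt_one (by norm_num) (by norm_num) (by linarith)

theorem uu_nonneg (q : ℝ) (M : ℕ) : 0 ≤ uu q M := by unfold uu; positivity

theorem summable_uu {q : ℝ} (hq : 1 < q) : Summable (uu q) := by
  unfold uu
  apply Summable.add
  · exact Real.summable_nat_rpow.mpr (by linarith)
  · simp only [half_pow_rpow]
    exact summable_geometric_of_lt_one (by positivity) (ratio_lt_one hq)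

theorem tendsto_vv {q : ℝ} (hq : 1 < q) :
    Tendsto (fun M : ℕ => uu q M * (2 + M * (q - 1))) atTop (𝓝 0) := by
  have h1 : Tendsto (fun M : ℕ => (M : ℝ) ^ (-q)) atTop (𝓝 0) :=
    (tendsto_rpow_neg_atTop (by linarith)).comp tendsto_natCast_atTop_atTop
  have h2 : Tendsto (fun M : ℕ => (M : ℝ) ^ (-(q - 1))) atTop (𝓝 0) :=
    (tendsto_rpow_neg_atTop (by linarith)).comp tendsto_natCast_atTop_atTop
  have h3 : Tendsto (fun M : ℕ => ((1 / 2 : ℝ) ^ (q - 1)) ^ M) atTop (𝓝 0) :=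
    tendsto_pow_atTop_nhds_zero_of_lt_one (by positivity) (ratio_lt_one hq)
  have h4 : Tendsto (fun M : ℕ => (M : ℝ) * ((1 / 2 : ℝ) ^ (q - 1)) ^ M) atTop (𝓝 0) :=
    tendsto_self_mul_const_pow_of_lt_one (by positivity) (ratio_lt_one hq)
  have h5 := ((h1.const_mul 2).add (h2.const_mul (q - 1))).add
    ((h3.const_mul 2).add (h4.const_mul (q - 1)))
  simp only [mul_zero, add_zero] at h5
  refine h5.congr' ?_
  filter_upwards [eventually_gt_atTop 0] with M hM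
  have hM' : (0 : ℝ) < M := by exact_mod_cast hM
  unfold uu
  rw [half_pow_rpow]
  have h6 : (M : ℝ) ^ (-(q - 1)) = (M : ℝ) ^ (-q) * M := by
    rw [show -(q - 1) = -q + 1 by ring, Real.rpow_add hM', Real.rpow_one]
  rw [h6]
  ring

theorem exists_n0 {q : ℝ} (hq : 1 < q) (ε : ℝ) (hε : 0 < ε) : ∃ n0 : ℕ, 1 ≤ n0 ∧
    (∀ S : Finset ℕ, ∑ n ∈ S, uu q (n + n0) ≤ ε) ∧
    ∀ n : ℕ, uu q (n + n0) * (2 + ((n + n0 : ℕ) : ℝ) * (q - 1)) ≤ ε := by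
  have h1 : Tendsto (fun i => ∑' k : ℕ, uu q (k + i)) atTop (𝓝 0) := tendsto_sum_nat_add (uu q)
  have h2 := (h1.eventually (gt_mem_nhds hε))
  have h3 := (tendsto_vv hq).eventually (gt_mem_nhds hε)
  obtain ⟨n1, hn1⟩ := eventually_atTop.mp h3
  obtain ⟨n0, hn0⟩ := (h2.and ((eventually_ge_atTop 1).and (eventually_ge_atTop n1))).exists
  refine ⟨n0, hn0.2.1, fun S => ?_, fun n => ?_⟩
  · have hs : Summable (fun k => uu q (k + n0)) := (summable_nat_add_iff n0).mpr (summable_uu hq)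
    exact (hs.sum_le_tsum S (fun i _ => uu_nonneg q _)).trans hn0.1.le
  · have := hn1 (n + n0) (by omega)
    exact this.le

section cluster

variable (q : ℝ) (n0 : ℕ)

noncomputable def Ln (n : ℕ) : ℝ := (1 / 2 : ℝ) ^ (n + n0)

noncomputable def Nn (n : ℕ) : ℕ :=
  ⌈(2 : ℝ) ^ (((n + n0 : ℕ) : ℝ) * (q - 1)) / ((n + n0 : ℕ) : ℝ) ^ q⌉₊

noncomputable def xx (j : Σ n, Fin (Nn q n0 n)) : ℝ :=
  Ln n0 j.1 * (1 + (j.2 : ℝ) / (2 * Nn q n0 j.1))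

noncomputable def cc (n : ℕ) : ℝ := Nn q n0 n * (Ln n0 n) ^ (q - 1)

end cluster

section lemmas

variable {q : ℝ} {n0 : ℕ}

theorem Ln_pos (n : ℕ) : 0 < Ln n0 n := by unfold Ln; positivity

theorem Ln_le (hn0 : 1 ≤ n0) (n : ℕ) : Ln n0 n ≤ 1 / 2 := by
  unfold Ln
  calc (1 / 2 : ℝ) ^ (n + n0) ≤ (1 / 2 : ℝ) ^ 1 :=
        pow_le_pow_of_le_one (by norm_num) (by norm_num) (by omega)
    _ = 1 / 2 := pow_one _

theorem Ln_half {m n : ℕ} (h : m < n) : Ln n0 n ≤ Ln n0 m / 2 := by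
  unfold Ln
  calc (1 / 2 : ℝ) ^ (n + n0) ≤ (1 / 2 : ℝ) ^ (m + n0 + 1) :=
        pow_le_pow_of_le_one (by norm_num) (by norm_num) (by omega)
    _ = _ := by rw [pow_succ]; ring

theorem two_Ln (n : ℕ) : (2 : ℝ) ^ (((n + n0 : ℕ) : ℝ) * (q - 1)) * (Ln n0 n) ^ (q - 1) = 1 := by
  unfold Ln
  rw [Real.rpow_mul (by norm_num), Real.rpow_natCast, ← Real.mul_rpow (by positivity)
    (by positivity), ← mul_pow]
  norm_num

theorem Nn_pos (hn0 : 1 ≤ n0) (n : ℕ) : 0 < Nn q n0 n := by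
  unfold Nn
  apply Nat.ceil_pos.mpr
  have : (0 : ℝ) < ((n + n0 : ℕ) : ℝ) := by positivity
  positivity

theorem cc_ge (hn0 : 1 ≤ n0) (n : ℕ) : ((n + n0 : ℕ) : ℝ) ^ (-q) ≤ cc q n0 n := by
  unfold cc
  have h1 : (2 : ℝ) ^ (((n + n0 : ℕ) : ℝ) * (q - 1)) / ((n + n0 : ℕ) : ℝ) ^ q ≤ Nn q n0 n :=
    Nat.le_ceil _
  have hM : (0 : ℝ) < ((n + n0 : ℕ) : ℝ) := by positivity
  have h2 := Ln_pos (n0 := n0) n
  calc ((n + n0 : ℕ) : ℝ) ^ (-q) = ((2 : ℝ) ^ (((n + n0 : ℕ) : ℝ) * (q - 1)) *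
        (Ln n0 n) ^ (q - 1)) * ((n + n0 : ℕ) : ℝ) ^ (-q) := by rw [two_Ln, one_mul]
    _ = (2 : ℝ) ^ (((n + n0 : ℕ) : ℝ) * (q - 1)) / ((n + n0 : ℕ) : ℝ) ^ q *
        (Ln n0 n) ^ (q - 1) := by
        rw [Real.rpow_neg hM.le]
        field_simp
    _ ≤ _ := by gcongr

theorem cc_le (hn0 : 1 ≤ n0) (n : ℕ) : cc q n0 n ≤ uu q (n + n0) := by
  unfold cc uu
  have hM : (0 : ℝ) < ((n + n0 : ℕ) : ℝ) := by positivity
  have h1 : (Nn q n0 n : ℝ) ≤ (2 : ℝ) ^ (((n + n0 : ℕ) : ℝ) * (q - 1)) /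
      ((n + n0 : ℕ) : ℝ) ^ q + 1 := (Nat.ceil_lt_add_one (by positivity)).le
  have h2 := Ln_pos (n0 := n0) n
  calc (Nn q n0 n : ℝ) * (Ln n0 n) ^ (q - 1)
      ≤ ((2 : ℝ) ^ (((n + n0 : ℕ) : ℝ) * (q - 1)) / ((n + n0 : ℕ) : ℝ) ^ q + 1) *
        (Ln n0 n) ^ (q - 1) := by gcongr
    _ = ((2 : ℝ) ^ (((n + n0 : ℕ) : ℝ) * (q - 1)) * (Ln n0 n) ^ (q - 1)) *
        ((n + n0 : ℕ) : ℝ) ^ (-q) + (Ln n0 n) ^ (q - 1) := by
        rw [Real.rpow_neg hM.le]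
        field_simp
    _ = _ := by rw [two_Ln, one_mul]; rfl

theorem log_Nn_le (hq : 1 < q) (hn0 : 1 ≤ n0) (n : ℕ) :
    1 + Real.log (Nn q n0 n) ≤ 2 + ((n + n0 : ℕ) : ℝ) * (q - 1) := by
  have hM : (1 : ℝ) ≤ ((n + n0 : ℕ) : ℝ) := by exact_mod_cast (by omega : 1 ≤ n + n0)
  have h1 : (Nn q n0 n : ℝ) ≤ (2 : ℝ) ^ (((n + n0 : ℕ) : ℝ) * (q - 1)) /
      ((n + n0 : ℕ) : ℝ) ^ q + 1 := (Nat.ceil_lt_add_one (by positivity)).le
  have h2 : (2 : ℝ) ^ (((n + n0 : ℕ) : ℝ) * (q - 1)) / ((n + n0 : ℕ) : ℝ) ^ q ≤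
      (2 : ℝ) ^ (((n + n0 : ℕ) : ℝ) * (q - 1)) := by
    apply div_le_self (by positivity)
    exact Real.one_le_rpow hM (by linarith)
  have h3 : (1 : ℝ) ≤ (2 : ℝ) ^ (((n + n0 : ℕ) : ℝ) * (q - 1)) := by
    apply Real.one_le_rpow (by norm_num)
    have : 0 ≤ q - 1 := by linarith
    positivity
  have h4 : (Nn q n0 n : ℝ) ≤ 2 * (2 : ℝ) ^ (((n + n0 : ℕ) : ℝ) * (q - 1)) := by linarith
  have h5 : (0 : ℝ) < Nn q n0 n := by exact_mod_cast Nn_pos hn0 n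
  have h6 := Real.log_le_log h5 h4
  rw [Real.log_mul (by norm_num) (by positivity), Real.log_rpow (by norm_num)] at h6
  have h7 : Real.log 2 ≤ 1 := by
    have := Real.log_two_lt_d9
    linarith
  have h8 : 0 ≤ ((n + n0 : ℕ) : ℝ) * (q - 1) := by
    have : 0 ≤ q - 1 := by linarith
    positivity
  nlinarith

theorem xx_ge (j : Σ n, Fin (Nn q n0 n)) : Ln n0 j.1 ≤ xx q n0 j := by
  unfold xx
  have h1 := Ln_pos (n0 := n0) j.1
  have h2 : 0 ≤ (j.2 : ℝ) / (2 * Nn q n0 j.1) := by positivity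
  nlinarith

theorem xx_le (j : Σ n, Fin (Nn q n0 n)) : xx q n0 j ≤ 3 / 2 * Ln n0 j.1 := by
  unfold xx
  have h1 := Ln_pos (n0 := n0) j.1
  have hN : 0 < Nn q n0 j.1 := j.2.pos
  have hN' : (0 : ℝ) < Nn q n0 j.1 := by exact_mod_cast hN
  have h2 : (j.2 : ℝ) / (2 * Nn q n0 j.1) ≤ 1 / 2 := by
    rw [div_le_div_iff₀ (by positivity) (by norm_num)]
    have : (j.2 : ℝ) ≤ Nn q n0 j.1 := by exact_mod_cast j.2.is_lt.le
    linarith
  nlinarith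

theorem xx_pos (j : Σ n, Fin (Nn q n0 n)) : 0 < xx q n0 j :=
  lt_of_lt_of_le (Ln_pos j.1) (xx_ge j)

theorem xx_le_one (hn0 : 1 ≤ n0) (j : Σ n, Fin (Nn q n0 n)) : xx q n0 j ≤ 3 / 4 := by
  have h1 := xx_le j
  have h2 := Ln_le hn0 j.1
  linarith

/-- separation of different clusters -/
theorem xx_sep {j k : Σ n, Fin (Nn q n0 n)} (h : j.1 ≠ k.1) :
    Ln n0 j.1 / 4 ≤ |xx q n0 j - xx q n0 k| := by
  have hj1 := xx_ge j
  have hj2 := xx_le j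
  have hk1 := xx_ge k
  have hk2 := xx_le k
  have hLj := Ln_pos (n0 := n0) j.1
  have hLk := Ln_pos (n0 := n0) k.1
  rcases lt_or_gt_of_ne h with h1 | h1
  · have h2 := Ln_half (n0 := n0) h1
    refine le_trans ?_ (le_abs_self _)
    linarith
  · have h2 := Ln_half (n0 := n0) h1
    rw [abs_sub_comm]
    refine le_trans ?_ (le_abs_self _)
    linarith

theorem xx_same {n : ℕ} (i i' : Fin (Nn q n0 n)) :
    |xx q n0 ⟨n, i⟩ - xx q n0 ⟨n, i'⟩| = Ln n0 n / (2 * Nn q n0 n) * |(i : ℝ) - i'| := by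
  unfold xx
  simp only
  have h1 := Ln_pos (n0 := n0) n
  have hN : (0 : ℝ) < Nn q n0 n := by exact_mod_cast i.pos
  have h2 : Ln n0 n * (1 + (i : ℝ) / (2 * Nn q n0 n)) - Ln n0 n * (1 + (i' : ℝ) / (2 * Nn q n0 n))
      = Ln n0 n / (2 * Nn q n0 n) * ((i : ℝ) - i') := by ring
  rw [h2, abs_mul, abs_of_pos (by positivity)]

theorem xx_injective : Function.Injective (xx q n0) := by
  intro j k h
  by_cases h1 : j.1 = k.1
  · obtain ⟨n, i⟩ := j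
    obtain ⟨n', i'⟩ := k
    simp only at h1
    subst h1
    have h2 := xx_same i i'
    rw [h, sub_self, abs_zero] at h2
    have h3 := Ln_pos (n0 := n0) n
    have hN : (0 : ℝ) < Nn q n0 n := by exact_mod_cast i.pos
    have h4 : |(i : ℝ) - i'| = 0 := by
      rcases mul_eq_zero.mp h2.symm with h5 | h5
      · exfalso
        have : 0 < Ln n0 n / (2 * Nn q n0 n) := by positivity
        linarith
      · exact h5
    rw [abs_eq_zero, sub_eq_zero] at h4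
    have h5 : i = i' := by
      apply Fin.ext
      exact_mod_cast h4
    rw [h5]
  · exfalso
    have h2 := xx_sep h1
    rw [h, sub_self, abs_zero] at h2
    have h3 := Ln_pos (n0 := n0) j.1
    linarith

end lemmas

end Pool.Agent.Helper655.Peak
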