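import Mathlib
import Pool.Agent.Helper655.R2

set_option autoImplicit false

namespace Pool.Agent.Helper655.Peak

open Filter Topology

section

variable {q : ℝ} {n0 : ℕ}

noncomputable def zz (q : ℝ) (n0 : ℕ) (j : Σ n, Fin (Nn q n0 n)) : ℂ :=
  Complex.exp ((xx q n0 j : ℂ) * Complex.I)

theorem zz_sub_ge (hn0 : 1 ≤ n0) (j k : Σ n, Fin (Nn q n0 n)) :
    |xx q n0 j - xx q n0 k| / 2 ≤ ‖zz q n0 j - zz q n0 k‖ := by
  apply chord_ge
  have h1 := xx_pos j
  have h2 := xx_pos k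
  have h3 := xx_le_one hn0 j
  have h4 := xx_le_one hn0 k
  rw [abs_le]
  constructor <;> linarith

theorem rpow_xx_le (hq : 1 < q) (j : Σ n, Fin (Nn q n0 n)) :
    xx q n0 j ^ q ≤ (3 / 2) ^ q * ((Ln n0 j.1) ^ (q - 1) * Ln n0 j.1) := by
  have hL := Ln_pos (n0 := n0) j.1
  calc xx q n0 j ^ q ≤ (3 / 2 * Ln n0 j.1) ^ q := by
        apply Real.rpow_le_rpow (xx_pos j).le (xx_le j); linarith
    _ = (3 / 2) ^ q * (Ln n0 j.1) ^ q := Real.mul_rpow (by norm_num) hL.le
    _ = _ := by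
        congr 1
        nth_rewrite 3 [← Real.rpow_one (Ln n0 j.1)]
        rw [← Real.rpow_add hL, sub_add_cancel]

theorem rpow_xx_le' (hq : 1 < q) (j : Σ n, Fin (Nn q n0 n)) :
    xx q n0 j ^ (q - 1) ≤ (3 / 2) ^ q * (Ln n0 j.1) ^ (q - 1) := by
  have hL := Ln_pos (n0 := n0) j.1
  calc xx q n0 j ^ (q - 1) ≤ (3 / 2 * Ln n0 j.1) ^ (q - 1) := by
        apply Real.rpow_le_rpow (xx_pos j).le (xx_le j); linarith
    _ = (3 / 2) ^ (q - 1) * (Ln n0 j.1) ^ (q - 1) := Real.mul_rpow (by norm_num) hL.le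
    _ ≤ _ := by
        gcongr
        · norm_num
        · linarith

theorem sum_m_bound (hq : 1 < q) (n : ℕ) :
    ∑ i : Fin (Nn q n0 n), xx q n0 ⟨n, i⟩ ^ (q - 1) ≤ (3 / 2) ^ q * cc q n0 n := by
  calc ∑ i : Fin (Nn q n0 n), xx q n0 ⟨n, i⟩ ^ (q - 1)
      ≤ ∑ _i : Fin (Nn q n0 n), (3 / 2) ^ q * (Ln n0 n) ^ (q - 1) :=
        Finset.sum_le_sum (fun i _ => rpow_xx_le' hq ⟨n, i⟩)
    _ = _ := by
        rw [Finset.sum_const, Finset.card_univ, Fintype.card_fin, nsmul_eq_mul]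
        unfold cc
        ring

/-- the interaction term -/
noncomputable def inter (q : ℝ) (n0 : ℕ) (k j : Σ n, Fin (Nn q n0 n)) : ℝ :=
  if j = k then 0 else xx q n0 j ^ q / ‖zz q n0 j - zz q n0 k‖

theorem inter_nonneg (k j : Σ n, Fin (Nn q n0 n)) : 0 ≤ inter q n0 k j := by
  unfold inter
  split_ifs
  · exact le_rfl
  · have := (xx_pos j).le
    positivity

theorem sum_inter_bound (hq : 1 < q) (hn0 : 1 ≤ n0) (k : Σ n, Fin (Nn q n0 n)) (n : ℕ) :
    ∑ i : Fin (Nn q n0 n), inter q n0 k ⟨n, i⟩ ≤ 8 * (3 / 2) ^ q * cc q n0 n +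
      if n = k.1 then 8 * (3 / 2) ^ q * (cc q n0 n * (1 + Real.log (Nn q n0 n))) else 0 := by
  have hL := Ln_pos (n0 := n0) n
  have hcc : 0 ≤ cc q n0 n := by unfold cc; positivity
  by_cases hn : n = k.1
  · obtain ⟨nk, ik⟩ := k
    simp only at hn
    subst hn
    rw [if_pos rfl]
    have hN : (0 : ℝ) < Nn q n0 n := by exact_mod_cast ik.pos
    have hterm : ∀ i : Fin (Nn q n0 n), inter q n0 ⟨n, ik⟩ ⟨n, i⟩ ≤
        4 * (3 / 2) ^ q * cc q n0 n * (if (i : ℕ) = (ik : ℕ) then 0 else 1 / |((i : ℕ) : ℝ) - (ik : ℕ)|) := by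
      intro i
      unfold inter
      by_cases hi : i = ik
      · subst hi
        simp
      · have hne : (⟨n, i⟩ : Σ n, Fin (Nn q n0 n)) ≠ ⟨n, ik⟩ := by
          intro h
          apply hi
          simpa using h
        have hne' : (i : ℕ) ≠ (ik : ℕ) := fun h => hi (Fin.ext h)
        rw [if_neg hne, if_neg hne']
        have h1 := zz_sub_ge hn0 (⟨n, i⟩ : Σ n, Fin (Nn q n0 n)) ⟨n, ik⟩
        rw [xx_same] at h1
        have h2 := rpow_xx_le hq (⟨n, i⟩ : Σ n, Fin (Nn q n0 n))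
        simp only at h2
        have h3 : 0 < |((i : ℕ) : ℝ) - (ik : ℕ)| := by
          rw [abs_pos, sub_ne_zero]
          exact_mod_cast hne'
        have h4 : 0 < Ln n0 n / (2 * Nn q n0 n) * |((i : ℕ) : ℝ) - (ik : ℕ)| / 2 := by positivity
        calc xx q n0 ⟨n, i⟩ ^ q / ‖zz q n0 ⟨n, i⟩ - zz q n0 ⟨n, ik⟩‖
            ≤ ((3 / 2) ^ q * ((Ln n0 n) ^ (q - 1) * Ln n0 n)) /
              (Ln n0 n / (2 * Nn q n0 n) * |((i : ℕ) : ℝ) - (ik : ℕ)| / 2) := by gcongr
          _ = _ := by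
              unfold cc
              field_simp
              norm_num
    have hsum : ∑ i : Fin (Nn q n0 n),
        (if (i : ℕ) = (ik : ℕ) then 0 else 1 / |((i : ℕ) : ℝ) - (ik : ℕ)|) ≤
        2 * (1 + Real.log (Nn q n0 n)) := by
      rw [Fin.sum_univ_eq_sum_range (fun i : ℕ => if i = (ik : ℕ) then (0 : ℝ)
        else 1 / |(i : ℝ) - (ik : ℕ)|) (Nn q n0 n)]
      refine le_trans (le_of_eq ?_) (harm (Nn q n0 n) ik)
      rw [← Finset.add_sum_erase _ _ (Finset.mem_range.mpr ik.is_lt), if_pos rfl, zero_add]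
      apply Finset.sum_congr rfl
      intro j hj
      rw [if_neg (Finset.ne_of_mem_erase hj)]
    calc ∑ i : Fin (Nn q n0 n), inter q n0 ⟨n, ik⟩ ⟨n, i⟩
        ≤ ∑ i : Fin (Nn q n0 n), 4 * (3 / 2) ^ q * cc q n0 n *
          (if (i : ℕ) = (ik : ℕ) then 0 else 1 / |((i : ℕ) : ℝ) - (ik : ℕ)|) :=
          Finset.sum_le_sum (fun i _ => hterm i)
      _ = 4 * (3 / 2) ^ q * cc q n0 n * ∑ i : Fin (Nn q n0 n),
          (if (i : ℕ) = (ik : ℕ) then 0 else 1 / |((i : ℕ) : ℝ) - (ik : ℕ)|) := by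
          rw [Finset.mul_sum]
      _ ≤ 4 * (3 / 2) ^ q * cc q n0 n * (2 * (1 + Real.log (Nn q n0 n))) := by gcongr
      _ = 8 * (3 / 2) ^ q * (cc q n0 n * (1 + Real.log (Nn q n0 n))) := by ring
      _ ≤ _ := by
          have : 0 ≤ 8 * (3 / 2 : ℝ) ^ q * cc q n0 n := by positivity
          linarith
  · rw [if_neg hn, add_zero]
    have hterm : ∀ i : Fin (Nn q n0 n), inter q n0 k ⟨n, i⟩ ≤ 8 * (3 / 2) ^ q * (Ln n0 n) ^ (q - 1) := by
      intro i
      unfold inter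
      have hne : (⟨n, i⟩ : Σ n, Fin (Nn q n0 n)) ≠ k := by
        intro h
        apply hn
        rw [← h]
      rw [if_neg hne]
      have h1 := zz_sub_ge hn0 (⟨n, i⟩ : Σ n, Fin (Nn q n0 n)) k
      have h1' := xx_sep (j := (⟨n, i⟩ : Σ n, Fin (Nn q n0 n))) (k := k) hn
      simp only at h1'
      have h2 := rpow_xx_le hq (⟨n, i⟩ : Σ n, Fin (Nn q n0 n))
      simp only at h2
      have h3 : Ln n0 n / 8 ≤ ‖zz q n0 ⟨n, i⟩ - zz q n0 k‖ := by linarith
      calc xx q n0 ⟨n, i⟩ ^ q / ‖zz q n0 ⟨n, i⟩ - zz q n0 k‖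
          ≤ ((3 / 2) ^ q * ((Ln n0 n) ^ (q - 1) * Ln n0 n)) / (Ln n0 n / 8) := by gcongr
        _ = _ := by field_simp
    calc ∑ i : Fin (Nn q n0 n), inter q n0 k ⟨n, i⟩
        ≤ ∑ _i : Fin (Nn q n0 n), 8 * (3 / 2) ^ q * (Ln n0 n) ^ (q - 1) :=
          Finset.sum_le_sum (fun i _ => hterm i)
      _ = _ := by
          rw [Finset.sum_const, Finset.card_univ, Fintype.card_fin, nsmul_eq_mul]
          unfold cc
          ring

end

/-- the data exist for every exponent -/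
theorem exists_data (α : ℝ) (hα0 : 0 < α) (hα1 : α < 1) : ∃ n0 : ℕ, 1 ≤ n0 ∧
    ∃ D : Data (Σ n, Fin (Nn (1 / α) n0 n)) α, D.ζ = zz (1 / α) n0 := by
  have hq : 1 < 1 / α := (one_lt_div hα0).mpr hα1
  set q := 1 / α with hqdef
  set A : ℝ := 8 * (3 / 2) ^ q with hA
  have hA0 : 0 < A := by positivity
  obtain ⟨n0, hn0, hS, hv⟩ := exists_n0 hq (1 / (128 * A)) (by positivity)
  have hqα : q * α = 1 := by rw [hqdef]; field_simp
  have hqα' : q * (1 - α) = q - 1 := by rw [mul_sub, hqα, mul_one]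
  have hccS : ∀ S : Finset ℕ, A * ∑ n ∈ S, cc q n0 n ≤ 1 / 128 := by
    intro S
    calc A * ∑ n ∈ S, cc q n0 n ≤ A * ∑ n ∈ S, uu q (n + n0) := by
          gcongr with n hn
          exact cc_le hn0 n
      _ ≤ A * (1 / (128 * A)) := by
          gcongr
          exact hS S
      _ = 1 / 128 := by field_simp
  have hcclog : ∀ n : ℕ, A * (cc q n0 n * (1 + Real.log (Nn q n0 n))) ≤ 1 / 128 := by
    intro n
    have h1 : 0 ≤ 1 + Real.log (Nn q n0 n) := by
      have := Real.log_natCast_nonneg (Nn q n0 n)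
      linarith
    calc A * (cc q n0 n * (1 + Real.log (Nn q n0 n)))
        ≤ A * (uu q (n + n0) * (2 + ((n + n0 : ℕ) : ℝ) * (q - 1))) := by
          have h2 := cc_le (q := q) hn0 n
          have h3 := log_Nn_le hq hn0 n
          have h4 := uu_nonneg q (n + n0)
          gcongr
      _ ≤ A * (1 / (128 * A)) := by
          gcongr
          exact hv n
      _ = 1 / 128 := by field_simp
  have hone : (1 : ℂ) = Complex.exp (((0 : ℝ) : ℂ) * Complex.I) := by simp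
  refine ⟨n0, hn0, ⟨zz q n0, fun j => xx q n0 j ^ q, hα0, hα1, ?_, ?_, ?_, ?_, ?_, ?_, ?_⟩, rfl⟩
  · intro j k h
    apply xx_injective
    have h1 := zz_sub_ge hn0 j k
    rw [h, sub_self, norm_zero] at h1
    have h2 := abs_nonneg (xx q n0 j - xx q n0 k)
    have h3 : |xx q n0 j - xx q n0 k| = 0 := by linarith
    rwa [abs_eq_zero, sub_eq_zero] at h3
  · intro j
    exact Complex.norm_exp_ofReal_mul_I _
  · intro j
    exact Real.rpow_pos_of_pos (xx_pos j) _
  · intro j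
    rw [← Real.rpow_mul (xx_pos j).le, hqα, Real.rpow_one, hone]
    refine (chord_le 0 (xx q n0 j)).trans ?_
    rw [zero_sub, abs_neg, abs_of_pos (xx_pos j)]
  · intro j
    rw [← Real.rpow_mul (xx_pos j).le, hqα, Real.rpow_one, hone]
    have h1 := xx_pos j
    have h2 := xx_le_one hn0 j
    have h3 := chord_ge 0 (xx q n0 j) (by rw [zero_sub, abs_neg, abs_of_pos h1]; linarith)
    rw [zero_sub, abs_neg, abs_of_pos h1] at h3
    unfold zz
    linarith
  · intro F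
    have hsimp : ∀ j, (xx q n0 j ^ q) ^ (1 - α) = xx q n0 j ^ (q - 1) := by
      intro j
      rw [← Real.rpow_mul (xx_pos j).le, hqα']
    simp only [hsimp]
    apply sigma_bound (Nn q n0) (fun j => xx q n0 j ^ (q - 1))
      (fun j => (Real.rpow_pos_of_pos (xx_pos j) _).le) (fun n => (3 / 2) ^ q * cc q n0 n)
    · intro n
      exact sum_m_bound hq n
    · intro S
      rw [← Finset.mul_sum]
      have h1 := hccS S
      have h2 : 0 ≤ (3 / 2 : ℝ) ^ q * ∑ n ∈ S, cc q n0 n := by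
        have : ∀ n ∈ S, 0 ≤ cc q n0 n := fun n _ => by
          unfold cc
          have := Ln_pos (n0 := n0) n
          positivity
        have := Finset.sum_nonneg this
        positivity
      have h3 : A * ∑ n ∈ S, cc q n0 n = 8 * ((3 / 2 : ℝ) ^ q * ∑ n ∈ S, cc q n0 n) := by
        rw [hA]; ring
      rw [h3] at h1
      linarith
  · intro k F hkF
    have h1 : ∑ j ∈ F, xx q n0 j ^ q / ‖zz q n0 j - zz q n0 k‖ = ∑ j ∈ F, inter q n0 k j := by
      apply Finset.sum_congr rfl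
      intro j hj
      unfold inter
      rw [if_neg (fun (h : j = k) => hkF (h ▸ hj))]
    rw [h1]
    apply sigma_bound (Nn q n0) (inter q n0 k) (inter_nonneg k) _ _ (sum_inter_bound hq hn0 k)
    intro S
    rw [Finset.sum_add_distrib, ← Finset.mul_sum, Finset.sum_ite_eq']
    have h2 := hccS S
    have h3 := hcclog k.1
    split_ifs
    · linarith
    · linarith

end Pool.Agent.Helper655.Peak
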