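import Pool.Agent.Helper655.VNRank
import Pool.Agent.RK.Defs

attribute [local instance] Pool.Agent.Helper655.VN.kerM_hop

set_option autoImplicit false
set_option linter.unusedSectionVars false

open scoped InnerProductSpace Matrix Topology
open Filter Pool.Agent.RK

namespace Pool.Agent.Helper655.VN

variable {G : Type} [Group G]

/-- the real part of the canonical trace -/
noncomputable def tau (G : Type) [Group G] : NG G →+ ℝ where
  toFun x := (tr x).re
  map_zero' := by rw [map_zero, Complex.zero_re]
  map_add' x y := by rw [map_add, Complex.add_re]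

theorem tau_apply (x : NG G) : tau G x = (tr x).re := rfl

theorem Tr_eq {ι : Type} [Fintype ι] [DecidableEq ι] (A : Matrix ι ι (NG G)) :
    Tr (tau G) A = (mtr A).re := by
  unfold Tr mtr
  rw [Complex.re_sum]
  rfl

variable {ι κ : Type} [Fintype ι] [Fintype κ] [DecidableEq ι] [DecidableEq κ]

theorem isLP_kp (A : Matrix κ ι (NG G)) : IsLP A (1 - kp Aᴴ) where
  idem := by
    rw [Matrix.mul_sub, Matrix.mul_one, Matrix.sub_mul, Matrix.one_mul, kp_mul_self, sub_self, sub_zero]
  star := by
    rw [Matrix.conjTranspose_sub, Matrix.conjTranspose_one, kp_star]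
  mul := by
    have h1 : kp Aᴴ * A = 0 := by
      have h2 := congrArg Matrix.conjTranspose (mul_kp Aᴴ)
      rw [Matrix.conjTranspose_mul, Matrix.conjTranspose_conjTranspose, kp_star,
        Matrix.conjTranspose_zero] at h2
      exact h2
    rw [Matrix.sub_mul, Matrix.one_mul, h1, sub_zero]
  min := by
    intro x hx
    -- the row `x` as a `1 × κ` matrix
    have h1 : (Matrix.of fun (_ : Unit) k => x k) * A = 0 := by
      ext1 i j
      have h2 := congrFun hx j
      exact h2
    have h2 : Aᴴ * (Matrix.of fun (_ : Unit) k => x k)ᴴ = 0 := by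
      rw [← Matrix.conjTranspose_mul, h1, Matrix.conjTranspose_zero]
    have h3 := kp_mul _ _ h2
    have h4 : (Matrix.of fun (_ : Unit) k => x k) * (1 - kp Aᴴ) = 0 := by
      have h5 := congrArg Matrix.conjTranspose h3
      rw [Matrix.conjTranspose_mul, Matrix.conjTranspose_conjTranspose, kp_star] at h5
      rw [Matrix.mul_sub, Matrix.mul_one, h5, sub_self]
    funext j
    exact congrFun (congrFun h4 ()) j

/-- left supports are unique -/
theorem isLP_unique (A : Matrix κ ι (NG G)) (p q : Matrix κ κ (NG G)) (hp : IsLP A p)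
    (hq : IsLP A q) : p = q := by
  have key : ∀ p q : Matrix κ κ (NG G), IsLP A p → IsLP A q → p = p * q := by
    intro p q hp hq
    -- (1 - q) A = 0, so (1 - q) p = 0, so q p = p
    have h1 : (1 - q) * A = 0 := by rw [Matrix.sub_mul, Matrix.one_mul, hq.mul, sub_self]
    have h2 : (1 - q) * p = 0 := by
      ext1 i j
      have h3 := hp.min ((1 - q) i) (by
        funext k
        exact congrFun (congrFun h1 i) k)
      exact congrFun h3 j
    have h3 : q * p = p := by
      rw [Matrix.sub_mul, Matrix.one_mul, sub_eq_zero] at h2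
      exact h2.symm
    have h4 := congrArg Matrix.conjTranspose h3
    rw [Matrix.conjTranspose_mul, hp.star, hq.star] at h4
    exact h4.symm
  have h1 := key p q hp hq
  have h2 := key q p hq hp
  have h3 := congrArg Matrix.conjTranspose h2
  rw [Matrix.conjTranspose_mul, hp.star, hq.star] at h3
  rw [h1, ← h3]

theorem vn_NG : Pool.Agent.RK.VN (NG G) (tau G) where
  comm x y := by rw [tau_apply, tau_apply, tr_mul_comm]
  one := by rw [tau_apply, tr_one, Complex.one_re]
  nonneg x := by
    rw [tau_apply, tr_star_mul_self, Complex.ofReal_re]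
    exact sq_nonneg _
  faithful x h := by
    apply tr_faithful
    rw [tau_apply, tr_star_mul_self, Complex.ofReal_re] at h
    rw [tr_star_mul_self, h, Complex.ofReal_zero]
  lp m n A := ⟨1 - kp Aᴴ, isLP_kp A⟩
  lp_tr m n A p q hp hq := by
    have h1 := isLP_unique A p _ hp (isLP_kp A)
    have h2 := isLP_unique Aᴴ q _ hq (isLP_kp Aᴴ)
    rw [h1, h2, Tr_eq, Tr_eq, mtr_sub, mtr_sub, mtr_one, mtr_one, Matrix.conjTranspose_conjTranspose,
      mtr_kp A]

end Pool.Agent.Helper655.VN
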