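import Pool.Agent.Helper831.VN.St
import Pool.Agent.Helper831.VN.Cx

attribute [local instance] VN831.bcFunctor_additive VN831.viaAdd VN831.viaMod V7N.bcF_additive
  V7N.rmAdd V7N.rmMod L2B.l2Add L2B.l2Mod L2B.instRingN L2B.instAddBC L2B.instModBC
  L2B.bcF_additive

set_option autoImplicit false

open scoped InnerProductSpace

namespace Pool.Agent.Helper655.VNLight

open Pool.Agent.Helper655.VN

/-- From the Hilbert space `lp` to the square summable functions. -/
noncomputable def ofE {G : Type} (f : EllTwo G) : L2B.L2 G :=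
  ⟨fun x => f x, by
    show Summable fun x => ‖f x‖ ^ 2
    have h1 := (lp.memℓp f).summable (by norm_num)
    simpa using h1⟩

theorem val_ofE {G : Type} (f : EllTwo G) (x : G) : L2B.val (ofE f) x = f x := rfl

/-- From the square summable functions to the Hilbert space `lp`. -/
noncomputable def toE {G : Type} (ξ : L2B.L2 G) : EllTwo G :=
  ⟨fun x => L2B.val ξ x, by
    refine memℓp_gen ?_
    have h1 : Summable fun x => ‖L2B.val ξ x‖ ^ 2 := ξ.2
    simpa using h1⟩

theorem toE_apply {G : Type} (ξ : L2B.L2 G) (x : G) : (toE ξ) x = L2B.val ξ x := rfl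

theorem val_rt {G : Type} [Group G] (g : G) (ξ : L2B.L2 G) (x : G) :
    L2B.val (L2B.rt g ξ) x = L2B.val ξ (x * g) := rfl

theorem val_sum {G : Type} {ι : Type} (s : Finset ι) (f : ι → L2B.L2 G) (x : G) :
    L2B.val (∑ i ∈ s, f i) x = ∑ i ∈ s, L2B.val (f i) x := by
  classical
  induction s using Finset.induction_on with
  | empty => simp [L2B.val_zero]
  | insert a s ha ih => rw [Finset.sum_insert ha, Finset.sum_insert ha, L2B.val_add, ih]

theorem val_rmul {G : Type} [Group G] (a : MonoidAlgebra ℤ G) (ξ : L2B.L2 G) (x : G) :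
    L2B.val (L2B.rmul a ξ) x = a.coeff.sum fun g c => (c : ℂ) * L2B.val ξ (x * g⁻¹) := by
  unfold L2B.rmul Finsupp.sum
  rw [val_sum]
  rfl

theorem rmul_apply {G : Type} [Group G] (a : MonoidAlgebra ℤ G) (f : EllTwo G) (x : G) :
    (VN831.rmul a f) x = a.coeff.sum fun g c => (c : ℂ) * f (x * g⁻¹) := by
  unfold VN831.rmul Finsupp.sum
  rw [_root_.sum_apply, lp.coeFn_sum, Finset.sum_apply]
  rfl

theorem rmul_ofE {G : Type} [Group G] (a : MonoidAlgebra ℤ G) (f : EllTwo G) :
    L2B.rmul a (ofE f) = ofE (VN831.rmul a f) := by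
  refine L2B.ext_val fun x => ?_
  rw [val_rmul, val_ofE, rmul_apply]
  rfl

theorem toE_rmul {G : Type} [Group G] (a : MonoidAlgebra ℤ G) (ξ : L2B.L2 G) :
    toE (L2B.rmul a ξ) = VN831.rmul a (toE ξ) := by
  ext x
  rw [toE_apply, val_rmul, rmul_apply]
  rfl

/-- The kernel used in the statement. -/
theorem mem_ker {G : Type} [Group G] {m n : ℕ} (A : Matrix (Fin m) (Fin n) (MonoidAlgebra ℤ G))
    (v : VN831.Hn (Fin m) G) :
    v ∈ LinearMap.ker (VN831.opM (fun (j : Fin n) (i : Fin m) => VN831.rmul (A i j))).toLinearMap ↔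
      ∀ j, ∑ i, VN831.rmul (A i j) (v i) = 0 := by
  rw [LinearMap.mem_ker]
  constructor
  · intro h j
    have h2 := congrArg (fun w : VN831.Hn (Fin n) G => w j) h
    have h3 := VN831.opM_apply (fun (j : Fin n) (i : Fin m) => VN831.rmul (A i j)) v j
    rw [← h3]
    exact h2
  · intro h
    refine PiLp.ext fun j => ?_
    have h3 := VN831.opM_apply (fun (j : Fin n) (i : Fin m) => VN831.rmul (A i j)) v j
    show (VN831.opM (fun (j : Fin n) (i : Fin m) => VN831.rmul (A i j)) v) j = _
    rw [h3, h j]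
    rfl

theorem toE_sum {G : Type} {ι : Type} (s : Finset ι) (f : ι → L2B.L2 G) :
    toE (∑ i ∈ s, f i) = ∑ i ∈ s, toE (f i) := by
  ext x
  rw [toE_apply, val_sum, lp.coeFn_sum, Finset.sum_apply]
  rfl

theorem ofE_sum {G : Type} {ι : Type} (s : Finset ι) (f : ι → EllTwo G) :
    ofE (∑ i ∈ s, f i) = ∑ i ∈ s, ofE (f i) := by
  refine L2B.ext_val fun x => ?_
  rw [val_sum, val_ofE, lp.coeFn_sum, Finset.sum_apply]
  rfl

theorem ip_eq {G : Type} {m : ℕ} (w v : Fin m → L2B.L2 G) :
    L2B.ip w v = ⟪(WithLp.toLp 2 (fun i => toE (w i)) : VN831.Hn (Fin m) G),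
      WithLp.toLp 2 (fun i => toE (v i))⟫_ℂ := by
  rw [PiLp.inner_apply]
  unfold L2B.ip
  refine Finset.sum_congr rfl fun i _ => ?_
  show _ = ⟪toE (w i), toE (v i)⟫_ℂ
  rw [lp.inner_eq_tsum]
  refine tsum_congr fun x => ?_
  rw [toE_apply, toE_apply, RCLike.inner_apply, mul_comm]

theorem deltaI_self {G : Type} [Group G] {m : ℕ} (i : Fin m) :
    (VN831.deltaI i : VN831.Hn (Fin m) G) i = dl (1 : G) := by
  classical
  unfold VN831.deltaI
  simp

theorem deltaI_ne {G : Type} [Group G] {m : ℕ} {i j : Fin m} (h : j ≠ i) :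
    (VN831.deltaI i : VN831.Hn (Fin m) G) j = 0 := by
  classical
  unfold VN831.deltaI
  simp [h]

theorem inner_deltaI {G : Type} [Group G] {m : ℕ} (i : Fin m) (v : VN831.Hn (Fin m) G) :
    ⟪(VN831.deltaI i : VN831.Hn (Fin m) G), v⟫_ℂ = v i 1 := by
  rw [PiLp.inner_apply, Finset.sum_eq_single i]
  · rw [deltaI_self, inner_dl]
  · intro j _ hj
    rw [deltaI_ne hj, inner_zero_left]
  · intro h
    exact absurd (Finset.mem_univ i) h

theorem toE_delta {G : Type} [Group G] (g : G) : toE (L2B.delta g) = dl g := by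
  classical
  ext x
  rw [toE_apply]
  by_cases hx : x = g
  · subst hx
    rw [dl_apply_self]
    show (if x = x then (1 : ℂ) else 0) = 1
    exact if_pos rfl
  · rw [dl_apply_ne _ _ hx]
    show (if x = g then (1 : ℂ) else 0) = 0
    exact if_neg hx

theorem toE_zero {G : Type} : toE (0 : L2B.L2 G) = 0 := by
  ext x
  rfl

theorem deltaI_eq {G : Type} [Group G] {m : ℕ} (i : Fin m) :
    (VN831.deltaI i : VN831.Hn (Fin m) G) =
      WithLp.toLp 2 (fun j => toE ((Pi.single i (L2B.delta (1 : G)) : Fin m → L2B.L2 G) j)) := by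
  refine PiLp.ext fun j => ?_
  show (VN831.deltaI i : VN831.Hn (Fin m) G) j =
    toE ((Pi.single i (L2B.delta (1 : G)) : Fin m → L2B.L2 G) j)
  by_cases hj : j = i
  · subst hj
    rw [deltaI_self, Pi.single_eq_same, toE_delta]
  · rw [deltaI_ne hj, Pi.single_eq_of_ne hj, toE_zero]

theorem toE_ofE {G : Type} (f : EllTwo G) : toE (ofE f) = f := by
  ext x
  rfl

theorem toE_sub {G : Type} (ξ η : L2B.L2 G) : toE (ξ - η) = toE ξ - toE η := by
  ext x
  rfl

theorem atiyah_light {G : Type} [Group G] (h : L2B.Atiyah G) : VN831.Atiyah G := by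
  intro m n A
  obtain ⟨W, hW⟩ : ∃ W : Submodule ℂ (VN831.Hn (Fin m) G), W =
      LinearMap.ker (VN831.opM (fun (j : Fin n) (i : Fin m) => VN831.rmul (A i j))).toLinearMap :=
    ⟨_, rfl⟩
  have inst : W.HasOrthogonalProjection := by
    rw [hW]
    infer_instance
  have key : ∃ k : ℤ, VN831.vnDim W = k := by
    let P : Fin m → Fin m → L2B.L2 G := fun i i' => ofE ((W.starProjection (VN831.deltaI i)) i')
    have hmem : ∀ v : VN831.Hn (Fin m) G, v ∈ W ↔ ∀ j, ∑ i, VN831.rmul (A i j) (v i) = 0 :=
      fun v => by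
        rw [hW]
        exact mem_ker A v
    have hP : ∀ i, L2B.IsProj A (Pi.single i (L2B.delta 1)) (P i) := by
      intro i
      constructor
      · intro j
        have h1 : W.starProjection (VN831.deltaI i) ∈ W :=
          Submodule.starProjection_apply_mem _ _
        have h2 := (hmem _).1 h1 j
        have h3 : ∑ i', L2B.rmul (A i' j) (P i i') =
            ofE (∑ i', VN831.rmul (A i' j) ((W.starProjection (VN831.deltaI i)) i')) := by
          rw [ofE_sum]
          exact Finset.sum_congr rfl fun i' _ => rmul_ofE _ _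
        rw [h3, h2]
        rfl
      · intro w hw
        have h1 : (WithLp.toLp 2 (fun i => toE (w i)) : VN831.Hn (Fin m) G) ∈ W := by
          rw [hmem]
          intro j
          have h2 : ∑ i, VN831.rmul (A i j) (toE (w i)) = toE (∑ i, L2B.rmul (A i j) (w i)) := by
            rw [toE_sum]
            exact Finset.sum_congr rfl fun i' _ => (toE_rmul _ _).symm
          show ∑ i, VN831.rmul (A i j) (toE (w i)) = 0
          rw [h2, hw j, toE_zero]
        rw [ip_eq]
        have h3 : (WithLp.toLp 2 (fun i' => toE ((Pi.single i (L2B.delta 1) - P i :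
            Fin m → L2B.L2 G) i')) : VN831.Hn (Fin m) G) =
            VN831.deltaI i - W.starProjection (VN831.deltaI i) := by
          refine PiLp.ext fun j => ?_
          rw [deltaI_eq]
          show toE ((Pi.single i (L2B.delta 1) : Fin m → L2B.L2 G) j - P i j) =
            toE ((Pi.single i (L2B.delta 1) : Fin m → L2B.L2 G) j) -
              (W.starProjection (WithLp.toLp 2 (fun j => toE ((Pi.single i (L2B.delta (1 : G)) :
                Fin m → L2B.L2 G) j)))) j
          rw [toE_sub, ← deltaI_eq]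
          rfl
        rw [h3]
        exact Submodule.inner_right_of_mem_orthogonal h1 (Submodule.sub_starProjection_mem_orthogonal _)
    obtain ⟨k, hk⟩ := h m n A P hP
    refine ⟨k, ?_⟩
    unfold VN831.vnDim
    have h2 : ∀ i : Fin m, ⟪(VN831.deltaI i : VN831.Hn (Fin m) G),
        W.starProjection (VN831.deltaI i)⟫_ℂ = L2B.val (P i i) 1 := fun i => by
      rw [inner_deltaI]
      rfl
    simp only [h2]
    rw [← Complex.re_sum, hk]
    simp
  subst hW
  convert key using 3

end Pool.Agent.Helper655.VNLight
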