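import Pool.Agent.Helper655.VNAtiyah
import Pool.Agent.Helper831.VN.Defs

attribute [local instance] VN831.bcFunctor_additive Pool.Agent.Helper655.VN.kerM_hop

set_option autoImplicit false
set_option linter.unusedSectionVars false

open scoped InnerProductSpace Matrix Topology
open Filter Pool.Agent.RK

namespace Pool.Agent.Helper655.VN

variable {G : Type} [Group G]

theorem rmul_eq (a : MonoidAlgebra ℤ G) : VN831.rmul a = rmul a := by
  unfold VN831.rmul rmul Finsupp.sum
  refine Finset.sum_congr rfl fun g _ => ?_
  show ((a.coeff g : ℤ) : ℂ) • rho G g⁻¹ = (a.coeff g) • rho G g⁻¹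
  rw [Int.cast_smul_eq_zsmul]

theorem deltaI_eq {ι : Type} [Fintype ι] [DecidableEq ι] (i : ι) :
    (VN831.deltaI i : VN831.Hn ι G) = inj i (dl 1) := by
  apply ext_N
  intro k
  by_cases h : k = i
  · subst h
    rw [inj_self]
    unfold VN831.deltaI
    simp
  · rw [inj_ne i k h]
    unfold VN831.deltaI
    simp [h]

/-- **The Atiyah link.** -/
theorem atiyah_rk (h : VN831.Atiyah G) (m n : ℕ)
    (A : Matrix (Fin m) (Fin n) (MonoidAlgebra ℤ G)) :
    ∃ k : ℤ, rk (tau G) (A.map VN831.zN) = k := by
  obtain ⟨k, hk⟩ := h m n A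
  refine ⟨(m : ℤ) - k, ?_⟩
  have h1 := rk_zN A (LinearMap.ker
    (VN831.opM (fun (j : Fin n) (i : Fin m) => VN831.rmul (A i j))).toLinearMap) (by
      intro v
      rw [LinearMap.mem_ker]
      constructor
      · intro h2 j
        have h3 : (VN831.opM (fun (j : Fin n) (i : Fin m) => VN831.rmul (A i j)) v) j = 0 := by
          have h4 : VN831.opM (fun (j : Fin n) (i : Fin m) => VN831.rmul (A i j)) v = 0 := h2
          rw [h4]
          rfl
        have h5 := VN831.opM_apply (G := G) (Matrix.of fun (j : Fin n) (i : Fin m) => VN831.rmul (A i j)) v j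
        have h6 : ∑ i, (VN831.rmul (A i j)) (v i) = 0 := h5.symm.trans h3
        simpa only [rmul_eq] using h6
      · intro h2
        apply ext_N
        intro j
        have h5 := VN831.opM_apply (G := G) (Matrix.of fun (j : Fin n) (i : Fin m) => VN831.rmul (A i j)) v j
        refine h5.trans ?_
        have h6 := h2 j
        simp only [← rmul_eq] at h6
        exact h6)
  have h2 : rk (tau G) (A.map VN831.zN) = rk (tau G) (A.map (zN G)) := rfl
  rw [h2, h1, Fintype.card_fin]
  unfold VN831.vnDim at hk
  simp only [deltaI_eq] at hk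
  rw [hk]
  push_cast
  ring

end Pool.Agent.Helper655.VN
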