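import Mathlib

/-! Resolvent lemmas; proofs by helper207 (job 29640) and helper125 (job 29641). -/

set_option autoImplicit false

open scoped InnerProductSpace Topology ComplexOrder
open Filter

namespace Pool.Agent.Helper655.VN

variable {H : Type*} [NormedAddCommGroup H] [InnerProductSpace ℂ H] [CompleteSpace H]


/-- Hint: `CStarAlgebra.isUnit_of_le`, or Lax-Milgram: `ε ‖x‖² ≤ re ⟪(S + ε) x, x⟫`. -/
theorem isUnit_add_eps (S : H →L[ℂ] H) (hS : S.IsPositive) (ε : ℝ) (hε : 0 < ε) :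
    IsUnit (S + (ε : ℂ) • (1 : H →L[ℂ] H)) := by
  have h0 : (ε : ℂ) ≠ 0 := by exact_mod_cast hε.ne'
  have hu : IsUnit ((ε : ℂ) • (1 : H →L[ℂ] H)) :=
    ⟨(Units.mk0 (ε : ℂ) h0) • (1 : (H →L[ℂ] H)ˣ), rfl⟩
  have h1 : (0 : H →L[ℂ] H) ≤ (ε : ℂ) • (1 : H →L[ℂ] H) := by
    rw [ContinuousLinearMap.nonneg_iff_isPositive]
    have h2 : (0 : ℂ) ≤ (ε : ℂ) := by exact_mod_cast hε.le
    exact ContinuousLinearMap.isPositive_one.smul_of_nonneg h2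
  refine CStarAlgebra.isUnit_of_le ((ε : ℂ) • (1 : H →L[ℂ] H)) ?_ ⟨h1, hu⟩
  rw [← ContinuousLinearMap.nonneg_iff_isPositive] at hS
  exact le_add_of_nonneg_left hS



theorem resolvent_bound_29641 (S : H →L[ℂ] H) (hS : S.IsPositive) (ε : ℝ) (hε : 0 < ε) (z : H) :
    ε * ‖z‖ ≤ ‖(S + (ε : ℂ) • (1 : H →L[ℂ] H)) z‖ := by
  rcases eq_or_ne z 0 with rfl | hz
  · simp
  have hz0 : 0 < ‖z‖ := norm_pos_iff.2 hz
  have h1 : (S + (ε : ℂ) • (1 : H →L[ℂ] H)) z = S z + (ε : ℂ) • z := rfl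
  have h2 : ε * ‖z‖ ^ 2 ≤ RCLike.re (inner ℂ ((S + (ε : ℂ) • (1 : H →L[ℂ] H)) z) z) := by
    rw [h1, inner_add_left, inner_smul_left, map_add]
    have h3 := hS.re_inner_nonneg_left z
    have h4 : RCLike.re ((starRingEnd ℂ) (ε : ℂ) * inner ℂ z z) = ε * ‖z‖ ^ 2 := by
      rw [inner_self_eq_norm_sq_to_K, Complex.conj_ofReal]
      have e : (ε : ℂ) * ((‖z‖ : ℝ) : ℂ) ^ 2 = ((ε * ‖z‖ ^ 2 : ℝ) : ℂ) := by
        push_cast
        ring
      exact (congrArg Complex.re e).trans (Complex.ofReal_re _)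
    rw [h4]
    linarith
  have h3 : RCLike.re (inner ℂ ((S + (ε : ℂ) • (1 : H →L[ℂ] H)) z) z) ≤
      ‖(S + (ε : ℂ) • (1 : H →L[ℂ] H)) z‖ * ‖z‖ :=
    (RCLike.re_le_norm _).trans (norm_inner_le_norm _ _)
  have h4 : (ε * ‖z‖) * ‖z‖ ≤ ‖(S + (ε : ℂ) • (1 : H →L[ℂ] H)) z‖ * ‖z‖ := by
    calc (ε * ‖z‖) * ‖z‖ = ε * ‖z‖ ^ 2 := by ring
      _ ≤ _ := h2.trans h3
  exact le_of_mul_le_mul_right h4 hz0

theorem ker_orth_29641 (S : H →L[ℂ] H) (hS : S.IsPositive) (K : Submodule ℂ H)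
    (hK : K = LinearMap.ker (S : H →ₗ[ℂ] H)) (w : H) (hw : w ∈ Kᗮ) (δ : ℝ) (hδ : 0 < δ) :
    ∃ y, ‖w - S y‖ < δ := by
  obtain ⟨R0, hR0⟩ : ∃ R0, R0 = LinearMap.range (S : H →ₗ[ℂ] H) := ⟨_, rfl⟩
  have h1 : R0ᗮ ≤ K := by
    intro u hu
    rw [hK, LinearMap.mem_ker]
    have h2 : inner ℂ (S (S u)) u = 0 := by
      apply (Submodule.mem_orthogonal R0 u).1 hu
      rw [hR0]
      exact ⟨S u, rfl⟩
    have h3 : inner ℂ (S (S u)) u = inner ℂ (S u) (S u) := hS.isSymmetric (S u) u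
    rw [h3, inner_self_eq_zero] at h2
    exact h2
  have h2 : w ∈ R0ᗮᗮ := Submodule.orthogonal_le h1 hw
  rw [Submodule.orthogonal_orthogonal_eq_closure] at h2
  have h3 : w ∈ closure (R0 : Set H) := h2
  obtain ⟨z, hz, hd⟩ := Metric.mem_closure_iff.1 h3 δ hδ
  rw [hR0] at hz
  obtain ⟨y, rfl⟩ := hz
  refine ⟨y, ?_⟩
  rw [← dist_eq_norm]
  exact hd

/-- Hint: let `R ε` be an inverse of `S + ε` for `ε > 0`. Then `‖ε R ε‖ ≤ 1`; if `S x = 0` then `ε R ε x = x`; on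
`x = S y` we have `ε R ε S y = ε (y - ε R ε y)`, of norm `≤ 2 ε ‖y‖`; the range of `S` is dense in `(ker S)ᗮ`
as `S` is self-adjoint. -/
theorem tendsto_resolvent (S : H →L[ℂ] H) (hS : S.IsPositive) (R : ℝ → (H →L[ℂ] H))
    (hR : ∀ ε : ℝ, 0 < ε → (S + (ε : ℂ) • (1 : H →L[ℂ] H)) * R ε = 1 ∧
      R ε * (S + (ε : ℂ) • (1 : H →L[ℂ] H)) = 1)
    (K : Submodule ℂ H) (hK : K = LinearMap.ker (S : H →ₗ[ℂ] H)) [K.HasOrthogonalProjection] (x : H) :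
    Tendsto (fun ε : ℝ => (ε : ℂ) • R ε x) (𝓝[>] 0) (𝓝 (K.starProjection x)) := by
  obtain ⟨k, hk⟩ : ∃ k, k = K.starProjection x := ⟨_, rfl⟩
  have hkK : k ∈ K := by
    rw [hk]
    exact Submodule.starProjection_apply_mem K x
  have hwK : x - k ∈ Kᗮ := by
    rw [hk]
    exact Submodule.sub_starProjection_mem_orthogonal x
  rw [← hk]
  have hSk : S k = 0 := by
    rw [hK, LinearMap.mem_ker] at hkK
    exact hkK
  -- norm bound
  have hb : ∀ ε : ℝ, 0 < ε → ∀ y, ‖(ε : ℂ) • R ε y‖ ≤ ‖y‖ := by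
    intro ε hε y
    have h1 := resolvent_bound_29641 S hS ε hε (R ε y)
    have h2 : (S + (ε : ℂ) • (1 : H →L[ℂ] H)) (R ε y) = y := by
      have := congrArg (fun T : H →L[ℂ] H => T y) (hR ε hε).1
      exact this
    rw [h2] at h1
    rw [norm_smul, Complex.norm_real, Real.norm_of_nonneg hε.le]
    exact h1
  have hRS : ∀ ε : ℝ, 0 < ε → ∀ y, R ε (S y) = y - (ε : ℂ) • R ε y := by
    intro ε hε y
    have h1 : R ε (S y + (ε : ℂ) • y) = y := by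
      have := congrArg (fun T : H →L[ℂ] H => T y) (hR ε hε).2
      exact this
    rw [map_add, map_smul] at h1
    exact eq_sub_of_add_eq h1
  have hRk : ∀ ε : ℝ, 0 < ε → (ε : ℂ) • R ε k = k := by
    intro ε hε
    have h1 := hRS ε hε k
    rw [hSk, map_zero] at h1
    exact (sub_eq_zero.1 h1.symm).symm
  rw [Metric.tendsto_nhdsWithin_nhds]
  intro δ hδ
  obtain ⟨y, hy⟩ := ker_orth_29641 S hS K hK (x - k) hwK (δ / 2) (by linarith)
  refine ⟨δ / (4 * (‖y‖ + 1)), by positivity, ?_⟩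
  intro ε hε hεd
  have hε0 : 0 < ε := hε
  rw [Real.dist_eq, sub_zero, abs_of_pos hε0, lt_div_iff₀ (by positivity)] at hεd
  have e1 : (ε : ℂ) • R ε x - k = (ε : ℂ) • R ε (x - k - S y) + (ε : ℂ) • R ε (S y) := by
    have h1 := hRk ε hε0
    rw [← smul_add, ← map_add, sub_add_cancel, map_sub, smul_sub, h1]
  rw [dist_eq_norm, e1]
  have e2 : ‖(ε : ℂ) • R ε (S y)‖ ≤ 2 * ε * ‖y‖ := by
    rw [hRS ε hε0, norm_smul, Complex.norm_real, Real.norm_of_nonneg hε0.le]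
    have h1 : ‖y - (ε : ℂ) • R ε y‖ ≤ 2 * ‖y‖ := by
      refine (norm_sub_le _ _).trans ?_
      have := hb ε hε0 y
      linarith
    calc ε * ‖y - (ε : ℂ) • R ε y‖ ≤ ε * (2 * ‖y‖) := mul_le_mul_of_nonneg_left h1 hε0.le
      _ = 2 * ε * ‖y‖ := by ring
  have e3 := hb ε hε0 (x - k - S y)
  have e4 := norm_add_le ((ε : ℂ) • R ε (x - k - S y)) ((ε : ℂ) • R ε (S y))
  have e5 : 2 * ε * ‖y‖ < δ / 2 := by nlinarith [norm_nonneg y]
  linarith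


end Pool.Agent.Helper655.VN
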