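import Pool.Agent.Helper655.VNMat
import Pool.Agent.Helper655.VNRes

attribute [local instance] Pool.Agent.Helper655.VN.kerM_hop

set_option autoImplicit false
set_option linter.unusedSectionVars false

open scoped InnerProductSpace Matrix Topology
open Filter

namespace Pool.Agent.Helper655.VN

universe u

variable {G : Type u} [Group G]
variable {ι κ μ : Type*} [Fintype ι] [Fintype κ] [Fintype μ] [DecidableEq ι] [DecidableEq κ]
  [DecidableEq μ]

theorem exists_resolvent (S : Matrix ι ι (NG G)) (hS : (opM S).IsPositive) (ε : ℝ) (hε : 0 < ε) :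
    ∃ R : Matrix ι ι (NG G), (S + (ε : ℂ) • (1 : Matrix ι ι (NG G))) * R = 1 ∧
      R * (S + (ε : ℂ) • (1 : Matrix ι ι (NG G))) = 1 := by
  obtain ⟨v, hv⟩ := isUnit_add_eps (opM S) hS ε hε
  have h1 : (v : EllN G ι →L[ℂ] EllN G ι) = opM (S + (ε : ℂ) • (1 : Matrix ι ι (NG G))) := by
    rw [hv, opM_add, opM_smul, opM_one]
  have h2 : ∀ g : G, rhoN g ∘L (↑v⁻¹ : EllN G ι →L[ℂ] EllN G ι) =
      (↑v⁻¹ : EllN G ι →L[ℂ] EllN G ι) ∘L rhoN g := by
    intro g
    have h3 : Commute (rhoN g) (v : EllN G ι →L[ℂ] EllN G ι) := by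
      rw [h1]
      exact rhoN_opM g _
    exact h3.units_inv_right
  obtain ⟨R, hR⟩ := exists_opM _ h2
  refine ⟨R, opM_injective ?_, opM_injective ?_⟩
  · rw [opM_mul, hR, opM_one, ← h1]
    exact v.mul_inv
  · rw [opM_mul, hR, opM_one, ← h1]
    exact v.inv_mul

theorem tendsto_mtr (S : Matrix ι ι (NG G)) (hS : (opM S).IsPositive)
    (R : ℝ → Matrix ι ι (NG G))
    (hR : ∀ ε : ℝ, 0 < ε → (S + (ε : ℂ) • (1 : Matrix ι ι (NG G))) * R ε = 1 ∧
      R ε * (S + (ε : ℂ) • (1 : Matrix ι ι (NG G))) = 1) :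
    Tendsto (fun ε : ℝ => mtr ((ε : ℂ) • R ε)) (𝓝[>] 0) (𝓝 (mtr (kp S))) := by
  rw [mtr_eq_inner (kp S)]
  simp only [mtr_eq_inner]
  refine tendsto_finsetSum _ fun i _ => ?_
  have h1 := tendsto_resolvent (opM S) hS (fun ε => opM (R ε)) (fun ε hε => by
    obtain ⟨h2, h3⟩ := hR ε hε
    constructor
    · have h4 := congrArg opM h2
      rw [opM_mul, opM_add, opM_smul, opM_one] at h4
      exact h4
    · have h4 := congrArg opM h3
      rw [opM_mul, opM_add, opM_smul, opM_one] at h4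
      exact h4) (kerM S) rfl (inj i (dl 1))
  have h2 : Tendsto (fun _ : ℝ => (inj i (dl 1) : EllN G ι)) (𝓝[>] (0:ℝ)) (𝓝 (inj i (dl 1))) :=
    tendsto_const_nhds
  have h3 := h2.inner (𝕜 := ℂ) h1
  rw [opM_kp]
  refine h3.congr ?_
  intro ε
  rw [opM_smul]
  rfl

theorem starProj_congr {H : Type*} [NormedAddCommGroup H] [InnerProductSpace ℂ H]
    (K L : Submodule ℂ H) [K.HasOrthogonalProjection] [L.HasOrthogonalProjection] (h : K = L) :
    K.starProjection = L.starProjection := by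
  subst h
  rfl

theorem kp_congr (A : Matrix κ ι (NG G)) (B : Matrix μ ι (NG G)) (h : kerM A = kerM B) :
    kp A = kp B := by
  apply opM_injective
  rw [opM_kp, opM_kp]
  exact starProj_congr _ _ h

theorem opM_star_mul (A : Matrix κ ι (NG G)) :
    opM (Aᴴ * A) = ContinuousLinearMap.adjoint (opM A) ∘L opM A := by
  rw [opM_mul, opM_adjoint]

theorem isPositive_star_mul (A : Matrix κ ι (NG G)) : (opM (Aᴴ * A)).IsPositive := by
  rw [opM_star_mul]
  exact ContinuousLinearMap.isPositive_adjoint_comp_self _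

theorem kp_star_mul (A : Matrix κ ι (NG G)) : kp (Aᴴ * A) = kp A := by
  apply kp_congr
  ext x
  rw [mem_kerM, mem_kerM]
  constructor
  · intro h
    rw [opM_star_mul] at h
    have h1 : ContinuousLinearMap.adjoint (opM A) (opM A x) = 0 := h
    have h2 : ⟪opM A x, opM A x⟫_ℂ = 0 := by
      rw [← ContinuousLinearMap.adjoint_inner_left, h1, inner_zero_left]
    exact inner_self_eq_zero.1 h2
  · intro h
    rw [opM_mul]
    show opM Aᴴ (opM A x) = 0
    rw [h, map_zero]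

theorem mtr_kp (A : Matrix κ ι (NG G)) :
    (Fintype.card ι : ℂ) - mtr (kp A) = (Fintype.card κ : ℂ) - mtr (kp Aᴴ) := by
  classical
  have hS := isPositive_star_mul A
  have hS' : (opM (A * Aᴴ)).IsPositive := by
    have h := isPositive_star_mul Aᴴ
    rwa [Matrix.conjTranspose_conjTranspose] at h
  choose! R hR using fun ε hε => exists_resolvent (Aᴴ * A) hS ε hε
  choose! R' hR' using fun ε hε => exists_resolvent (A * Aᴴ) hS' ε hε
  have h1 := tendsto_mtr (Aᴴ * A) hS R hR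
  have h2 := tendsto_mtr (A * Aᴴ) hS' R' hR'
  rw [kp_star_mul] at h1
  have h3 : kp (A * Aᴴ) = kp Aᴴ := by
    have h := kp_star_mul Aᴴ
    rwa [Matrix.conjTranspose_conjTranspose] at h
  rw [h3] at h2
  have h4 : ∀ ε : ℝ, 0 < ε → (Fintype.card ι : ℂ) - mtr ((ε : ℂ) • R ε) =
      (Fintype.card κ : ℂ) - mtr ((ε : ℂ) • R' ε) := by
    intro ε hε
    obtain ⟨a1, a2⟩ := hR ε hε
    obtain ⟨b1, b2⟩ := hR' ε hε
    -- A R = R' A
    have h5 : (A * Aᴴ + (ε : ℂ) • (1 : Matrix κ κ (NG G))) * A =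
        A * (Aᴴ * A + (ε : ℂ) • (1 : Matrix ι ι (NG G))) := by
      rw [Matrix.add_mul, Matrix.mul_add, Matrix.mul_assoc, Matrix.smul_mul, Matrix.one_mul,
        Matrix.mul_smul, Matrix.mul_one]
    have h6 : A * R ε = R' ε * A := by
      calc A * R ε = (R' ε * (A * Aᴴ + (ε : ℂ) • (1 : Matrix κ κ (NG G)))) * (A * R ε) := by
            rw [b2, Matrix.one_mul]
        _ = R' ε * ((A * Aᴴ + (ε : ℂ) • (1 : Matrix κ κ (NG G))) * A) * R ε := by
            simp only [Matrix.mul_assoc]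
        _ = R' ε * A * ((Aᴴ * A + (ε : ℂ) • (1 : Matrix ι ι (NG G))) * R ε) := by
            rw [h5]
            simp only [Matrix.mul_assoc]
        _ = R' ε * A := by rw [a1, Matrix.mul_one]
    have h7 : (ε : ℂ) • R ε = 1 - R ε * (Aᴴ * A) := by
      rw [eq_sub_iff_add_eq, ← a2, Matrix.mul_add, Matrix.mul_smul, Matrix.mul_one, add_comm]
    have h8 : (ε : ℂ) • R' ε = 1 - R' ε * (A * Aᴴ) := by
      rw [eq_sub_iff_add_eq, ← b2, Matrix.mul_add, Matrix.mul_smul, Matrix.mul_one, add_comm]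
    rw [h7, h8, mtr_sub, mtr_sub, mtr_one, mtr_one, sub_sub_cancel, sub_sub_cancel,
      ← Matrix.mul_assoc, mtr_mul_comm, ← Matrix.mul_assoc, h6, Matrix.mul_assoc]
  have h5 : Tendsto (fun ε : ℝ => (Fintype.card ι : ℂ) - mtr ((ε : ℂ) • R ε)) (𝓝[>] 0)
      (𝓝 ((Fintype.card ι : ℂ) - mtr (kp A))) := h1.const_sub _
  have h6 : Tendsto (fun ε : ℝ => (Fintype.card κ : ℂ) - mtr ((ε : ℂ) • R' ε)) (𝓝[>] 0)
      (𝓝 ((Fintype.card κ : ℂ) - mtr (kp Aᴴ))) := h2.const_sub _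
  refine tendsto_nhds_unique h5 (h6.congr' ?_)
  filter_upwards [self_mem_nhdsWithin] with ε hε
  exact (h4 ε hε).symm

/-- the trace of the kernel projection is a nonnegative real -/
theorem mtr_proj (p : Matrix ι ι (NG G)) (h1 : p * p = p) (h2 : pᴴ = p) :
    mtr p = ((∑ i, ∑ k, ‖(p k i : EllTwo G →L[ℂ] EllTwo G) (dl 1)‖ ^ 2 : ℝ) : ℂ) := by
  rw [← mtr_star_mul_self, h2, h1]

end Pool.Agent.Helper655.VN
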